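import Pool.Agent.H.MP_ce2c94_gt.SmallA

/-!
# Large heights: the bound for r
-/

namespace AT

open Real Set

theorem BigR_anti {f f' : ℝ → ℝ} (hf : ∀ s, HasDerivAt f (f' s) s) {a b : ℝ} (hab : a ≤ b)
    (h : ∀ s ∈ Ioo a b, f' s ≤ 0) : f b ≤ f a := by
  have hc : Continuous f := continuous_iff_continuousAt.2 fun s => (hf s).continuousAt
  refine antitoneOn_of_deriv_nonpos (convex_Icc a b) hc.continuousOn
    (fun s _ => (hf s).differentiableAt.differentiableWithinAt) ?_ (left_mem_Icc.2 hab)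
    (right_mem_Icc.2 hab) hab
  intro s hs
  rw [interior_Icc] at hs
  rw [(hf s).deriv]
  exact h s hs

theorem BigR_exp4 : (183 / 10000 : ℝ) ≤ exp (-4) := by
  have h1 : exp 1 < 2.7182818286 := Real.exp_one_lt_d9
  have h2 : exp 4 = exp 1 ^ 4 := by
    rw [← Real.exp_nat_mul]
    norm_num
  have h3 : exp 4 ≤ 546 / 10 := by
    rw [h2]
    have h4 : exp 1 ^ 4 ≤ (2.7182818286 : ℝ) ^ 4 :=
      pow_le_pow_left₀ (exp_pos 1).le h1.le 4
    refine h4.trans ?_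
    norm_num
  rw [Real.exp_neg]
  have h5 : (10 / 546 : ℝ) ≤ (exp 4)⁻¹ := by
    rw [le_inv_comm₀ (by norm_num) (exp_pos 4)]
    refine h3.trans ?_
    norm_num
  refine le_trans ?_ h5
  norm_num

theorem BigR_exp7 : exp (-(121 / 16)) ≤ (1 / 1700 : ℝ) := by
  have h1 : 2.7182818283 < exp 1 := Real.exp_one_gt_d9
  have h2 : exp (121 / 16) = exp 1 ^ 7 * exp (9 / 16) := by
    rw [← Real.exp_nat_mul, ← Real.exp_add]
    norm_num
  have h3 : (1096 : ℝ) ≤ exp 1 ^ 7 := by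
    have h4 : (2.7182818283 : ℝ) ^ 7 ≤ exp 1 ^ 7 :=
      pow_le_pow_left₀ (by norm_num) h1.le 7
    refine le_trans ?_ h4
    norm_num
  have h4 : (25 / 16 : ℝ) ≤ exp (9 / 16) := by
    have := Real.add_one_le_exp (9 / 16 : ℝ)
    linarith
  rw [Real.exp_neg, inv_le_comm₀ (exp_pos _) (by norm_num), h2]
  calc (1 / 1700 : ℝ)⁻¹ ≤ 1096 * (25 / 16) := by norm_num
    _ ≤ exp 1 ^ 7 * exp (9 / 16) := mul_le_mul h3 h4 (by norm_num) (by positivity)

theorem BigR_num {c : ℝ} (hc : 11 / 2 ≤ c) :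
    (26 / 25 + c) * c * exp (-(c ^ 2 / 4)) ≤ 212 / 10000 := by
  obtain ⟨y, hy⟩ : ∃ y, y = c - 11 / 2 := ⟨_, rfl⟩
  have hc' : c = 11 / 2 + y := by linarith
  have hy0 : 0 ≤ y := by linarith
  have h1 : exp (-(c ^ 2 / 4)) ≤ exp (-(121 / 16)) * exp (-(11 / 4 * y)) := by
    rw [← Real.exp_add]
    refine Real.exp_le_exp.2 ?_
    rw [hc']
    nlinarith [sq_nonneg y]
  have h2 : 1 + 11 / 4 * y + (11 / 4 * y) ^ 2 / 2 ≤ exp (11 / 4 * y) :=
    Real.quadratic_le_exp_of_nonneg (by positivity)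
  have h3 : (26 / 25 + c) * c ≤ 3597 / 100 * exp (11 / 4 * y) := by
    refine le_trans ?_ (mul_le_mul_of_nonneg_left h2 (by norm_num))
    rw [hc']
    nlinarith [sq_nonneg y]
  have h4 : exp (11 / 4 * y) * exp (-(11 / 4 * y)) = 1 := by
    rw [← Real.exp_add, add_neg_cancel, Real.exp_zero]
  have hc0 : 0 < c := by linarith
  calc (26 / 25 + c) * c * exp (-(c ^ 2 / 4))
      ≤ (3597 / 100 * exp (11 / 4 * y)) * (exp (-(121 / 16)) * exp (-(11 / 4 * y))) :=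
        mul_le_mul h3 h1 (exp_pos _).le (by positivity)
    _ = 3597 / 100 * exp (-(121 / 16)) * (exp (11 / 4 * y) * exp (-(11 / 4 * y))) := by ring
    _ = 3597 / 100 * exp (-(121 / 16)) := by rw [h4, mul_one]
    _ ≤ 3597 / 100 * (1 / 1700) := mul_le_mul_of_nonneg_left BigR_exp7 (by norm_num)
    _ ≤ 212 / 10000 := by norm_num

/-- `r = 4` is not reached before the tip. Suppose `r S = 4`, `ψ S ≤ π/2` (`ψ = -θ`).
`G = F(r) cos ψ` is nonincreasing (`hasDerivAt` as in `Small.lean`: `G' = -(x/2) F(r) sin² ψ`).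
`F(4) cos ψ(S) ≤ F(c) ≤ F(5.5)` gives `ψ(S) > π/3`; let `ψ(s₁) = π/3`. For `s ≤ s₁`:
`x ≤ (4/7) π/3 < .6`, `(x/2) tan ψ + r/2 - 1/r ≤ .52 + c/2`, so `x - ψ/(.52 + c/2)` is nondecreasing,
`x(s₁) ≥ x₁ = (π/3)/(.52 + c/2)`. On `[s₁, S]`: `sin ψ ≥ .866`, `x ≥ x₁`,
`(exp(-r²/4))' = (F/2) sin ψ`, so `G + .866 x₁ exp(-r²/4)` is nonincreasing. `G(S) ≥ 0`,
`G(s₁) = F(r₁)/2 ≤ F(c)`, `exp(-r₁²/4) = F(r₁)/r₁ ≤ F(c)/2`. Hence
`.866 x₁ (exp(-4) - F(c)/2) ≤ F(c)`, i.e. with `exp(-4) ≥ .0183`, `F(c) ≤ F(5.5) ≤ .0029`: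
`.0305 ≤ c (1.04 + c) exp(-c²/4)`; but the right side is `≤ .0189` for `c ≥ 5.5`
(`c = 5.5 + y`: `c²/4 ≥ 7.5625 + 2.75 y`, `exp(-2.75 y) ≤ 1/(1 + 2.75 y + 3.78 y²)`,
`(5.5+y)(6.54+y) ≤ 35.97 (1 + 2.75 y + 3.78 y²)`, `35.97 exp(-7.5625) ≤ .0188`). -/
theorem big_r {c : ℝ} (hc : 11 / 2 ≤ c) {x r θ : ℝ → ℝ} (h : From c x r θ)
    {S : ℝ} (hS : 0 < S) (h1 : ∀ s ∈ Ioo 0 S, -(π / 2) < θ s ∧ θ s < 0)
    (h2 : StrictAntiOn r (Icc 0 S)) (h2' : StrictAntiOn θ (Icc 0 S))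
    (h3 : StrictMonoOn x (Icc 0 S)) (h3' : ∀ s ∈ Icc 0 S, x s ≤ 4 / 7 * -θ s)
    (h4 : r S = 4) (h5 : -(π / 2) ≤ θ S) : False := by
  have hc0 : 0 < c := by linarith
  have hnum := BigR_num hc
  have he4 := BigR_exp4
  have hE : 0 < exp (-(c ^ 2 / 4)) := exp_pos _
  have hFc : FF c = c * exp (-(c ^ 2 / 4)) := rfl
  have hFc0 : 0 < FF c := by
    rw [hFc]
    positivity
  have hFc1 : FF c * (26 / 25 + c) ≤ 212 / 10000 := by
    rw [hFc]
    linarith
  have hFc2 : FF c ≤ 33 / 10000 := by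
    nlinarith
  have hFpos : ∀ s, 0 < FF (r s) := fun s => mul_pos (h.prof.pos s) (exp_pos _)
  have hx0 : ∀ s ∈ Icc 0 S, 0 ≤ x s := by
    intro s hs
    have := h3.monotoneOn (left_mem_Icc.2 hS.le) hs hs.1
    rwa [h.x0] at this
  have hrc : ∀ s ∈ Icc 0 S, r s ≤ c := by
    intro s hs
    have := h2.antitoneOn (left_mem_Icc.2 hS.le) hs hs.1
    rwa [h.r0] at this
  have hr4 : ∀ s ∈ Icc 0 S, 4 ≤ r s := by
    intro s hs
    have := h2.antitoneOn hs (right_mem_Icc.2 hS.le) hs.2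
    rwa [h4] at this
  -- the first integral
  have hG : ∀ s ∈ Icc 0 S, FF (r s) * cos (θ s) ≤ FF c := by
    intro s hs
    have h6 := BigR_anti (hasDerivAt_G h.prof) hs.1 (fun t ht => by
      have h7 : 0 ≤ x t := hx0 t ⟨ht.1.le, ht.2.le.trans hs.2⟩
      have h8 := (hFpos t).le
      have h9 : 0 ≤ x t / 2 * FF (r t) * sin (θ t) ^ 2 := by positivity
      linarith)
    rwa [h.r0, h.θ0, cos_zero, mul_one] at h6
  have hF4 : FF 4 = 4 * exp (-4) := by
    have e : FF 4 = 4 * exp (-((4 : ℝ) ^ 2 / 4)) := rfl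
    rw [e]
    norm_num
  have hθS0 : θ S < 0 := by
    have := h2' (left_mem_Icc.2 hS.le) (right_mem_Icc.2 hS.le) hS
    rwa [h.θ0] at this
  have hcosS : 0 ≤ cos (θ S) := cos_nonneg_of_neg_pi_div_two_le_of_le h5 (by linarith [pi_pos])
  have hpi3 : θ S < -(π / 3) := by
    by_contra hcon
    have hcon' : -(π / 3) ≤ θ S := not_lt.1 hcon
    have h6 : cos (π / 3) ≤ cos (θ S) := by
      rw [← cos_neg (θ S)]
      exact cos_le_cos_of_nonneg_of_le_pi (by linarith) (by linarith [pi_pos]) (by linarith)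
    rw [cos_pi_div_three] at h6
    have h7 := hG S (right_mem_Icc.2 hS.le)
    rw [h4, hF4] at h7
    nlinarith
  have hθc : Continuous θ := continuous_iff_continuousAt.2 fun s => (h.prof.hθ s).continuousAt
  obtain ⟨s₁, hs₁, hθ₁⟩ := intermediate_value_Icc' hS.le hθc.continuousOn
    (show -(π / 3) ∈ Icc (θ S) (θ 0) from ⟨hpi3.le, by rw [h.θ0]; linarith [pi_pos]⟩)
  have hs3 : √3 ≤ 17321 / 10000 := by
    rw [Real.sqrt_le_iff]
    norm_num
  have hs3' : 433 / 250 ≤ √3 := by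
    apply Real.le_sqrt_of_sq_le
    norm_num
  have hpi1 := Real.pi_gt_d2
  have hpi2 := Real.pi_lt_d2
  -- the lower bound for x
  have hx1 : π / 3 / (13 / 25 + c / 2) ≤ x s₁ := by
    have hD : 0 < 13 / 25 + c / 2 := by positivity
    have hd : ∀ s, HasDerivAt (fun s => -θ s / (13 / 25 + c / 2) - x s)
        (-(x s / 2 * sin (θ s) + (1 / r s - r s / 2) * cos (θ s)) / (13 / 25 + c / 2)
          - cos (θ s)) s := fun s =>
      ((h.prof.hθ s).neg.div_const _).sub (h.prof.hx s)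
    have h6 := BigR_anti hd hs₁.1 (fun s hs => by
      have hsS : s ∈ Icc 0 S := ⟨hs.1.le, hs.2.le.trans hs₁.2⟩
      have h7 : -(π / 3) < θ s := by
        rw [← hθ₁]
        exact h2' hsS hs₁ hs.2
      have h8 : θ s < 0 := (h1 s ⟨hs.1, hs.2.trans_le hs₁.2⟩).2
      have h9 : 0 < cos (θ s) := cos_pos_of_mem_Ioo ⟨by linarith, by linarith⟩
      have h10 : 0 ≤ sin (π / 3 + θ s) :=
        sin_nonneg_of_nonneg_of_le_pi (by linarith) (by linarith)
      rw [sin_add, sin_pi_div_three, cos_pi_div_three] at h10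
      have h11 : -sin (θ s) ≤ √3 * cos (θ s) := by linarith
      have h12 : x s ≤ 3 / 5 := by
        have := h3' s hsS
        linarith
      have h13 := hx0 s hsS
      have h14 : sin (θ s) ≤ 0 := sin_nonpos_of_nonpos_of_neg_pi_le h8.le (by linarith)
      have h15 : x s / 2 * -sin (θ s) ≤ 13 / 25 * cos (θ s) := by
        calc x s / 2 * -sin (θ s) ≤ 3 / 10 * -sin (θ s) :=
              mul_le_mul_of_nonneg_right (by linarith) (by linarith)
          _ ≤ 3 / 10 * (√3 * cos (θ s)) := mul_le_mul_of_nonneg_left h11 (by norm_num)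
          _ ≤ 3 / 10 * (17321 / 10000 * cos (θ s)) :=
              mul_le_mul_of_nonneg_left (mul_le_mul_of_nonneg_right hs3 h9.le) (by norm_num)
          _ ≤ 13 / 25 * cos (θ s) := by linarith
      have h16 : r s / 2 - 1 / r s ≤ c / 2 := by
        have h17 := hrc s hsS
        have h18 : 0 < 1 / r s := one_div_pos.2 (h.prof.pos s)
        linarith
      have h19 : (r s / 2 - 1 / r s) * cos (θ s) ≤ c / 2 * cos (θ s) :=
        mul_le_mul_of_nonneg_right h16 h9.le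
      rw [sub_nonpos, div_le_iff₀ hD]
      linarith)
    simp only [h.θ0, h.x0, neg_zero, zero_div, sub_zero, hθ₁, neg_neg] at h6
    linarith
  obtain ⟨x₁, hx₁⟩ : ∃ x₁, x₁ = π / 3 / (13 / 25 + c / 2) := ⟨_, rfl⟩
  rw [← hx₁] at hx1
  have hx₁0 : 0 < x₁ := by
    rw [hx₁]
    positivity
  -- the second part
  have hd2 : ∀ s, HasDerivAt (fun s => FF (r s) * cos (θ s) +
      433 / 500 * x₁ * exp (-(r s ^ 2 / 4)))
      (-(x s / 2 * FF (r s) * sin (θ s) ^ 2) +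
        433 / 500 * x₁ * (exp (-(r s ^ 2 / 4)) * (-(2 * r s * sin (θ s) / 4)))) s := by
    intro s
    have h6 : HasDerivAt (fun s => -(r s ^ 2 / 4)) (-(2 * r s * sin (θ s) / 4)) s := by
      refine (((h.prof.hr s).pow 2).div_const 4).neg.congr_deriv ?_
      norm_num
    exact (hasDerivAt_G h.prof s).add (h6.exp.const_mul _)
  have h20 := BigR_anti hd2 hs₁.2 (fun s hs => by
    have hsS : s ∈ Icc 0 S := ⟨hs₁.1.trans hs.1.le, hs.2.le⟩
    have h7 : θ s < -(π / 3) := by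
      rw [← hθ₁]
      exact h2' hs₁ hsS hs.1
    have h8 : -(π / 2) < θ s := (h1 s ⟨hs₁.1.trans_lt hs.1, hs.2⟩).1
    have h9 : sin (θ s) ≤ -(433 / 500) := by
      have h10 : sin (θ s) ≤ sin (-(π / 3)) :=
        sin_le_sin_of_le_of_le_pi_div_two h8.le (by linarith) h7.le
      rw [sin_neg, sin_pi_div_three] at h10
      linarith
    have h11 : x₁ ≤ x s := hx1.trans (h3.monotoneOn hs₁ hsS hs.1.le)
    have h12 := hFpos s
    have h13 : FF (r s) = r s * exp (-(r s ^ 2 / 4)) := rfl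
    have h14 : -(x s / 2 * FF (r s) * sin (θ s) ^ 2) +
        433 / 500 * x₁ * (exp (-(r s ^ 2 / 4)) * (-(2 * r s * sin (θ s) / 4))) =
        -(FF (r s) / 2 * (-sin (θ s) * (x s * -sin (θ s) - 433 / 500 * x₁))) := by
      rw [h13]
      ring
    rw [h14, neg_nonpos]
    have h15 : 433 / 500 * x₁ ≤ x s * -sin (θ s) := by
      calc 433 / 500 * x₁ = x₁ * (433 / 500) := mul_comm _ _
        _ ≤ x s * -sin (θ s) := mul_le_mul h11 (by linarith) (by norm_num) (by linarith)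
    have h16 : 0 ≤ -sin (θ s) * (x s * -sin (θ s) - 433 / 500 * x₁) :=
      mul_nonneg (by linarith) (by linarith)
    positivity)
  rw [h4, hθ₁, cos_neg, cos_pi_div_three] at h20
  have e16 : (-((4 : ℝ) ^ 2 / 4)) = -4 := by norm_num
  rw [e16] at h20
  have h21 := hG s₁ hs₁
  rw [hθ₁, cos_neg, cos_pi_div_three] at h21
  have h22 : 4 * exp (-(r s₁ ^ 2 / 4)) ≤ FF (r s₁) :=
    mul_le_mul_of_nonneg_right (hr4 s₁ hs₁) (exp_pos _).le
  have h23 : 0 ≤ FF 4 * cos (θ S) := by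
    rw [hF4]
    positivity
  have h24 : 433 / 500 * x₁ * (exp (-4) - FF c / 2) ≤ FF c := by
    have h25 : exp (-(r s₁ ^ 2 / 4)) ≤ FF c / 2 := by linarith
    have h26 : 433 / 500 * x₁ * exp (-(r s₁ ^ 2 / 4)) ≤ 433 / 500 * x₁ * (FF c / 2) :=
      mul_le_mul_of_nonneg_left h25 (by positivity)
    nlinarith
  have hD : 0 < 13 / 25 + c / 2 := by positivity
  have h27 : x₁ * (13 / 25 + c / 2) = π / 3 := by
    rw [hx₁]
    field_simp
  have h28 : 433 / 500 * (π / 3) * (exp (-4) - FF c / 2) ≤ FF c * (13 / 25 + c / 2) := by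
    have := mul_le_mul_of_nonneg_right h24 hD.le
    calc 433 / 500 * (π / 3) * (exp (-4) - FF c / 2)
        = 433 / 500 * x₁ * (exp (-4) - FF c / 2) * (13 / 25 + c / 2) := by
          rw [← h27]
          ring
      _ ≤ _ := this
  have h29 : (433 / 500 * (π / 3)) * (166 / 10000) ≤
      433 / 500 * (π / 3) * (exp (-4) - FF c / 2) :=
    mul_le_mul_of_nonneg_left (by linarith) (by positivity)
  nlinarith

end AT
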