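import Pool.Agent.H.MP_ce2c94_gt.BigA
import Pool.Agent.H.MP_ce2c94_gt.BigR

/-!
# Profiles leaving the axis at a large height
-/

namespace AT

open Real Set

/-- **Large heights.** -/
theorem big {c : ℝ} (hc : 11 / 2 ≤ c) {x r θ : ℝ → ℝ} (h : From c x r θ) :
    ∃ S, TipDn θ S ∧ x S < 24 / 25 ∧ 4 < r S := by
  obtain ⟨S, hS, h1, -, h2, h2', h3, h3', h4⟩ := big_phase hc h
  have hcos : ∀ s ∈ Ico 0 S, -(π / 2) < θ s ∧ θ s < π / 2 := by
    intro s hs
    rcases eq_or_lt_of_le hs.1 with h0 | h0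
    · rw [← h0, h.θ0]; constructor <;> linarith [pi_pos]
    · have := h1 s ⟨h0, hs.2⟩
      constructor <;> linarith [pi_pos, this.1, this.2]
  rcases h4 with ⟨ht, hr⟩ | ⟨hr, ht⟩
  · rcases eq_or_lt_of_le hr with hr' | hr'
    · exact (big_r hc h hS h1 h2 h2' h3 h3' hr'.symm ht.ge).elim
    · refine ⟨S, ⟨hS, hcos, ht⟩, ?_, hr'⟩
      have := h3' S (right_mem_Icc.mpr hS.le)
      rw [ht] at this
      have hpi := pi_lt_d2
      linarith
  · exact (big_r hc h hS h1 h2 h2' h3 h3' hr ht).elim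

end AT
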