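import Pool.Agent.H.MP_ce2c94_gt.SmallA

/-!
# Large heights: the first phase
-/

namespace AT

open Real Set

/-- the derivative of the angle in the region `r > 4`, `x ≥ 0`, `-π/2 < θ ≤ 0` -/
theorem BigA_slope {x r θ : ℝ} (hx : 0 ≤ x) (hr : 4 < r) (h1 : -(π / 2) < θ) (h2 : θ ≤ 0) :
    x / 2 * sin θ + (1 / r - r / 2) * cos θ ≤ -(7 / 4) * cos θ := by
  have hc : 0 < cos θ := cos_pos_of_mem_Ioo ⟨h1, by linarith [pi_pos]⟩
  have hs : sin θ ≤ 0 := sin_nonpos_of_nonpos_of_neg_pi_le h2 (by linarith [pi_pos])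
  have h3 : x / 2 * sin θ ≤ 0 := mul_nonpos_of_nonneg_of_nonpos (by linarith) hs
  have h4 : 1 / r < 1 / 4 := one_div_lt_one_div_of_lt (by norm_num) hr
  have h5 : 1 / r - r / 2 ≤ -(7 / 4) := by linarith
  have h6 := mul_le_mul_of_nonneg_right h5 hc.le
  linarith

/-- all facts about the first phase up to a time `T` -/
theorem BigA_phase {c : ℝ} {x r θ : ℝ → ℝ} (h : From c x r θ) {T : ℝ} (hT : 0 < T)
    (hb : ∀ s ∈ Ico 0 T, -(π / 2) < θ s ∧ 4 < r s) :
    (∀ s ∈ Ioo 0 T, -(π / 2) < θ s ∧ θ s < 0) ∧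
      StrictAntiOn r (Icc 0 T) ∧ StrictAntiOn θ (Icc 0 T) ∧ StrictMonoOn x (Icc 0 T) ∧
      (∀ s ∈ Icc 0 T, x s ≤ 4 / 7 * -θ s) := by
  have hp := h.prof
  have cθ : Continuous θ := continuous_iff_continuousAt.2 fun s => (hp.hθ s).continuousAt
  have cr : Continuous r := continuous_iff_continuousAt.2 fun s => (hp.hr s).continuousAt
  have cx : Continuous x := continuous_iff_continuousAt.2 fun s => (hp.hx s).continuousAt
  have hA : ∀ ⦃s⦄, s ∈ Icc 0 T → θ s ≤ (fun _ => (0 : ℝ)) s := by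
    refine image_le_of_deriv_right_lt_deriv_boundary
      (f' := fun s => x s / 2 * sin (θ s) + (1 / r s - r s / 2) * cos (θ s))
      (B' := fun _ => 0) cθ.continuousOn ?_ ?_ (fun s => hasDerivAt_const s 0) ?_
    · intro s _
      exact (hp.hθ s).hasDerivWithinAt
    · show θ 0 ≤ 0
      rw [h.θ0]
    · intro s hs h0
      show x s / 2 * sin (θ s) + (1 / r s - r s / 2) * cos (θ s) < 0
      have h0' : θ s = 0 := h0
      rw [h0', sin_zero, cos_zero, mul_zero, mul_one, zero_add]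
      have h4 := (hb s hs).2
      have h5 : 1 / r s < 1 / 4 := one_div_lt_one_div_of_lt (by norm_num) h4
      linarith
  have hB : StrictMonoOn x (Icc 0 T) := by
    refine strictMonoOn_x hp fun s hs => ⟨(hb s hs).1, ?_⟩
    have h1 : θ s ≤ 0 := hA ⟨hs.1, hs.2.le⟩
    linarith [pi_pos]
  have hB' : ∀ s ∈ Icc 0 T, 0 ≤ x s := by
    intro s hs
    have h1 := hB.monotoneOn (left_mem_Icc.2 hT.le) hs hs.1
    rwa [h.x0] at h1
  have hS : ∀ s ∈ Ioo 0 T, x s / 2 * sin (θ s) + (1 / r s - r s / 2) * cos (θ s) ≤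
      -(7 / 4) * cos (θ s) := fun s hs =>
    BigA_slope (hB' s ⟨hs.1.le, hs.2.le⟩) (hb s ⟨hs.1.le, hs.2⟩).2 (hb s ⟨hs.1.le, hs.2⟩).1
      (hA ⟨hs.1.le, hs.2.le⟩)
  have hcos : ∀ s ∈ Ioo 0 T, 0 < cos (θ s) := by
    intro s hs
    have h1 : θ s ≤ 0 := hA ⟨hs.1.le, hs.2.le⟩
    exact cos_pos_of_mem_Ioo ⟨(hb s ⟨hs.1.le, hs.2⟩).1, by linarith [pi_pos]⟩
  have hC : StrictAntiOn θ (Icc 0 T) := by
    refine strictAntiOn_of_deriv_neg (convex_Icc 0 T) cθ.continuousOn ?_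
    intro s hs
    rw [interior_Icc] at hs
    rw [(hp.hθ s).deriv]
    have h1 := hS s hs
    have h2 := hcos s hs
    linarith
  have hD : ∀ s ∈ Ioc 0 T, θ s < 0 := by
    intro s hs
    have h1 := hC (left_mem_Icc.2 hT.le) ⟨hs.1.le, hs.2⟩ hs.1
    rwa [h.θ0] at h1
  refine ⟨fun s hs => ⟨(hb s ⟨hs.1.le, hs.2⟩).1, hD s ⟨hs.1, hs.2.le⟩⟩, ?_, hC, hB, ?_⟩
  · refine strictAntiOn_of_deriv_neg (convex_Icc 0 T) cr.continuousOn ?_
    intro s hs
    rw [interior_Icc] at hs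
    rw [(hp.hr s).deriv]
    exact sin_neg_of_neg_of_neg_pi_lt (hD s ⟨hs.1, hs.2.le⟩)
      (by linarith [pi_pos, (hb s ⟨hs.1.le, hs.2⟩).1])
  · have hd : ∀ s, HasDerivAt (fun s => x s + 4 / 7 * θ s)
        (cos (θ s) + 4 / 7 * (x s / 2 * sin (θ s) + (1 / r s - r s / 2) * cos (θ s))) s :=
      fun s => (hp.hx s).add ((hp.hθ s).const_mul (4 / 7))
    have hE : AntitoneOn (fun s => x s + 4 / 7 * θ s) (Icc 0 T) := by
      refine antitoneOn_of_deriv_nonpos (convex_Icc 0 T)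
        (cx.add (continuous_const.mul cθ)).continuousOn
        (fun s _ => (hd s).differentiableAt.differentiableWithinAt) ?_
      intro s hs
      rw [interior_Icc] at hs
      rw [(hd s).deriv]
      have h1 := hS s hs
      linarith
    intro s hs
    have h1 := hE (left_mem_Icc.2 hT.le) hs hs.1
    have h2 : x s + 4 / 7 * θ s ≤ x 0 + 4 / 7 * θ 0 := h1
    rw [h.x0, h.θ0] at h2
    linarith

/-- the first phase is finite -/
theorem BigA_finite {c : ℝ} {x r θ : ℝ → ℝ} (h : From c x r θ) :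
    ∃ s, 0 ≤ s ∧ (θ s ≤ -(π / 2) ∨ r s ≤ 4) := by
  by_contra hcon
  push Not at hcon
  have hp := h.prof
  have cr : Continuous r := continuous_iff_continuousAt.2 fun s => (hp.hr s).continuousAt
  have hall : ∀ T, 0 < T → StrictAntiOn θ (Icc 0 T) := fun T hT =>
    (BigA_phase h hT fun s hs => hcon s hs.1).2.2.1
  have h1 : θ 1 < 0 := by
    have h2 := hall 1 one_pos (left_mem_Icc.2 zero_le_one) (right_mem_Icc.2 zero_le_one) one_pos
    rwa [h.θ0] at h2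
  have h1' := (hcon 1 zero_le_one).1
  have hsin : sin (θ 1) < 0 := sin_neg_of_neg_of_neg_pi_lt h1 (by linarith [pi_pos])
  obtain ⟨L, hL⟩ : ∃ L, L = 1 + r 1 / -sin (θ 1) := ⟨_, rfl⟩
  have hL1 : 1 < L := by
    rw [hL]
    have := div_pos (hp.pos 1) (neg_pos.2 hsin)
    linarith
  have hsl : ∀ s ∈ Ioo 1 L, sin (θ s) ≤ sin (θ 1) := by
    intro s hs
    have h0s : 0 < s := one_pos.trans hs.1
    have h3 := (hall s h0s).antitoneOn (a := 1) (b := s) ⟨zero_le_one, hs.1.le⟩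
      (right_mem_Icc.2 h0s.le) hs.1.le
    exact sin_le_sin_of_le_of_le_pi_div_two (hcon s h0s.le).1.le (by linarith [pi_pos]) h3
  have hd : ∀ s, HasDerivAt (fun s => r s - sin (θ 1) * s) (sin (θ s) - sin (θ 1) * 1) s :=
    fun s => (hp.hr s).sub ((hasDerivAt_id s).const_mul (sin (θ 1)))
  have hE : AntitoneOn (fun s => r s - sin (θ 1) * s) (Icc 1 L) := by
    refine antitoneOn_of_deriv_nonpos (convex_Icc 1 L)
      (cr.sub (continuous_const.mul continuous_id)).continuousOn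
      (fun s _ => (hd s).differentiableAt.differentiableWithinAt) ?_
    intro s hs
    rw [interior_Icc] at hs
    rw [(hd s).deriv]
    have := hsl s hs
    linarith
  have h4 : r L - sin (θ 1) * L ≤ r 1 - sin (θ 1) * 1 :=
    hE (left_mem_Icc.2 hL1.le) (right_mem_Icc.2 hL1.le) hL1.le
  have h5 : sin (θ 1) * L = sin (θ 1) - r 1 := by
    have hne : sin (θ 1) ≠ 0 := hsin.ne
    rw [hL, mul_add, mul_one, div_neg, mul_neg, mul_div_cancel₀ _ hne]
    ring
  have h6 := hp.pos L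
  rw [h5] at h4
  linarith

/-- The phase `0 ≤ ψ < π/2`, `r > 4`, where `ψ = -θ`, `ψ' = (x/2) sin ψ + (r/2 - 1/r) cos ψ
≥ 1.75 cos ψ > 0`. It is finite (`r' = -sin ψ` and `ψ` is increasing), ends at `S` with `ψ = π/2`
or `r = 4`; `x ≤ ψ/1.75` (`(x - ψ/1.75)' ≤ 0`), so `x ≤ 0.9`. -/
theorem big_phase {c : ℝ} (hc : 11 / 2 ≤ c) {x r θ : ℝ → ℝ} (h : From c x r θ) :
    ∃ S, 0 < S ∧ (∀ s ∈ Ioo 0 S, -(π / 2) < θ s ∧ θ s < 0) ∧ (∀ s ∈ Ico 0 S, 4 < r s) ∧
      StrictAntiOn r (Icc 0 S) ∧ StrictAntiOn θ (Icc 0 S) ∧ StrictMonoOn x (Icc 0 S) ∧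
      (∀ s ∈ Icc 0 S, x s ≤ 4 / 7 * -θ s) ∧
      (θ S = -(π / 2) ∧ 4 ≤ r S ∨ r S = 4 ∧ -(π / 2) ≤ θ S) := by
  have hp := h.prof
  have cθ : Continuous θ := continuous_iff_continuousAt.2 fun s => (hp.hθ s).continuousAt
  have cr : Continuous r := continuous_iff_continuousAt.2 fun s => (hp.hr s).continuousAt
  obtain ⟨B, hB⟩ : ∃ B : Set ℝ, B = {s | 0 ≤ s ∧ (θ s ≤ -(π / 2) ∨ r s ≤ 4)} := ⟨_, rfl⟩
  have hBne : B.Nonempty := by
    obtain ⟨s, hs⟩ := BigA_finite h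
    exact ⟨s, by rw [hB]; exact hs⟩
  have hBb : BddBelow B := ⟨0, fun s hs => by rw [hB] at hs; exact hs.1⟩
  have hBc : IsClosed B := by
    rw [hB]
    exact (isClosed_le continuous_const continuous_id).inter
      ((isClosed_le cθ continuous_const).union (isClosed_le cr continuous_const))
  have hSB : sInf B ∈ B := hBc.csInf_mem hBne hBb
  obtain ⟨S, hSdef⟩ : ∃ S, S = sInf B := ⟨_, rfl⟩
  rw [← hSdef] at hSB
  have hlt : ∀ s, 0 ≤ s → s < S → -(π / 2) < θ s ∧ 4 < r s := by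
    intro s h0 hs
    by_contra hcon
    have h1 : s ∈ B := by
      rw [hB]
      refine ⟨h0, ?_⟩
      by_contra h2
      push Not at h2
      exact hcon h2
    have h3 := csInf_le hBb h1
    rw [← hSdef] at h3
    exact absurd h3 (not_le.2 hs)
  rw [hB] at hSB
  obtain ⟨hS0, hSor⟩ := hSB
  have hSpos : 0 < S := by
    rcases lt_or_eq_of_le hS0 with h1 | h1
    · exact h1
    · exfalso
      rw [← h1, h.θ0, h.r0] at hSor
      rcases hSor with h2 | h2
      · linarith [pi_pos]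
      · linarith
  have hθS : -(π / 2) ≤ θ S := by
    refine ge_of_tendsto (cθ.continuousWithinAt (s := Iio S) (x := S)) ?_
    filter_upwards [Ioo_mem_nhdsLT hSpos] with s hs
    exact (hlt s hs.1.le hs.2).1.le
  have hrS : 4 ≤ r S := by
    refine ge_of_tendsto (cr.continuousWithinAt (s := Iio S) (x := S)) ?_
    filter_upwards [Ioo_mem_nhdsLT hSpos] with s hs
    exact (hlt s hs.1.le hs.2).2.le
  obtain ⟨k1, k2, k3, k4, k5⟩ := BigA_phase h hSpos fun s hs => hlt s hs.1 hs.2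
  refine ⟨S, hSpos, k1, fun s hs => (hlt s hs.1 hs.2).2, k2, k3, k4, k5, ?_⟩
  rcases hSor with h2 | h2
  · exact Or.inl ⟨le_antisymm h2 hθS, hrS⟩
  · exact Or.inr ⟨le_antisymm h2 hrS, hθS⟩

end AT
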