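import Mathlib

/-!
# First exit from a box
-/

namespace AT

open Real Set

theorem Box2_up {a b c K : ℝ} {f f' : ℝ → ℝ} (cf : ContinuousOn f (Icc a b))
    (df : ∀ t ∈ Ico a b, HasDerivWithinAt f (f' t) (Ici t) t) (h0 : f a ≤ c)
    (hK : ∀ t ∈ Ico a b, f' t ≤ K) : ∀ t ∈ Icc a b, f t ≤ c + K * (t - a) := by
  intro t ht
  refine image_le_of_deriv_right_le_deriv_boundary (B := fun t => c + K * (t - a)) (B' := fun _ => K)
    cf df ?_ ?_ ?_ hK ht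
  · simpa using h0
  · exact Continuous.continuousOn (by fun_prop)
  · intro x _
    have h1 : HasDerivAt (fun t : ℝ => c + K * (t - a)) (K * 1) x :=
      (((hasDerivAt_id x).sub_const a).const_mul K).const_add c
    rw [mul_one] at h1
    exact h1.hasDerivWithinAt

theorem Box2_low {a b c K : ℝ} {f f' : ℝ → ℝ} (cf : ContinuousOn f (Icc a b))
    (df : ∀ t ∈ Ico a b, HasDerivWithinAt f (f' t) (Ici t) t) (h0 : c ≤ f a)
    (hK : ∀ t ∈ Ico a b, K ≤ f' t) : ∀ t ∈ Icc a b, c + K * (t - a) ≤ f t := by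
  intro t ht
  have h := Box2_up (a := a) (b := b) (c := -c) (K := -K) (f := fun t => -f t) (f' := fun t => -f' t)
    cf.neg (fun t ht => (df t ht).neg) (neg_le_neg h0) (fun t ht => neg_le_neg (hK t ht)) t ht
  have h' : -f t ≤ -c + -K * (t - a) := h
  linarith

theorem Box2_min {K x y : ℝ} (h0 : 0 ≤ x) (h1 : x ≤ y) : min 0 K * y ≤ K * x := by
  rcases le_total 0 K with h | h
  · rw [min_eq_left h, zero_mul]
    positivity
  · rw [min_eq_right h]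
    exact mul_le_mul_of_nonpos_left h1 h

theorem Box2_max {K x y : ℝ} (h0 : 0 ≤ x) (h1 : x ≤ y) : K * x ≤ max 0 K * y := by
  rcases le_total 0 K with h | h
  · rw [max_eq_right h]
    exact mul_le_mul_of_nonneg_left h1 h
  · rw [max_eq_left h, zero_mul]
    exact mul_nonpos_of_nonpos_of_nonneg h h0

/-- **Box lemma.** Let `T` be the set of `t ∈ [a,b]` with not (`bl < u t < bu` and
`cl < p t < cu`); it is closed. If it is nonempty let `t₁` be its minimum; `t₁ > a` since the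
starting values are strictly inside (`min 0 _ ≤ 0 ≤ max 0 _`). On `[a, t₁)` the derivative bounds
hold, so by the mean value inequality `u t₁ ≥ ul + U1 (t₁ - a) > bl` etc., a contradiction. -/
theorem box2 {a b bl bu cl cu ul uu tl tu U1 U2 G1 G2 : ℝ} (hab : a ≤ b) {u p u' p' : ℝ → ℝ}
    (cu' : ContinuousOn u (Icc a b)) (cp : ContinuousOn p (Icc a b))
    (du : ∀ t ∈ Ico a b, HasDerivWithinAt u (u' t) (Ici t) t)
    (dp : ∀ t ∈ Ico a b, HasDerivWithinAt p (p' t) (Ici t) t)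
    (hu : ul ≤ u a ∧ u a ≤ uu) (hp : tl ≤ p a ∧ p a ≤ tu)
    (H : ∀ t ∈ Ico a b, bl ≤ u t → u t ≤ bu → cl ≤ p t → p t ≤ cu →
      U1 ≤ u' t ∧ u' t ≤ U2 ∧ G1 ≤ p' t ∧ p' t ≤ G2)
    (m1 : bl < ul + min 0 U1 * (b - a)) (m2 : uu + max 0 U2 * (b - a) < bu)
    (m3 : cl < tl + min 0 G1 * (b - a)) (m4 : tu + max 0 G2 * (b - a) < cu) :
    ∀ t ∈ Icc a b, (bl ≤ u t ∧ u t ≤ bu ∧ cl ≤ p t ∧ p t ≤ cu) ∧
      (ul + U1 * (t - a) ≤ u t ∧ u t ≤ uu + U2 * (t - a) ∧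
        tl + G1 * (t - a) ≤ p t ∧ p t ≤ tu + G2 * (t - a)) := by
  have key : ∀ t1 ∈ Icc a b, (∀ t ∈ Ico a t1, (bl ≤ u t ∧ u t ≤ bu) ∧ (cl ≤ p t ∧ p t ≤ cu)) →
      (ul + U1 * (t1 - a) ≤ u t1 ∧ u t1 ≤ uu + U2 * (t1 - a) ∧
        tl + G1 * (t1 - a) ≤ p t1 ∧ p t1 ≤ tu + G2 * (t1 - a)) := by
    intro t1 ht1 hs
    have hsub : Icc a t1 ⊆ Icc a b := Icc_subset_Icc_right ht1.2
    have hsub' : Ico a t1 ⊆ Ico a b := Ico_subset_Ico_right ht1.2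
    have h1 : t1 ∈ Icc a t1 := ⟨ht1.1, le_rfl⟩
    have HH : ∀ t ∈ Ico a t1, U1 ≤ u' t ∧ u' t ≤ U2 ∧ G1 ≤ p' t ∧ p' t ≤ G2 := fun t ht =>
      H t (hsub' ht) (hs t ht).1.1 (hs t ht).1.2 (hs t ht).2.1 (hs t ht).2.2
    exact ⟨Box2_low (cu'.mono hsub) (fun t ht => du t (hsub' ht)) hu.1 (fun t ht => (HH t ht).1) t1 h1,
      Box2_up (cu'.mono hsub) (fun t ht => du t (hsub' ht)) hu.2 (fun t ht => (HH t ht).2.1) t1 h1,
      Box2_low (cp.mono hsub) (fun t ht => dp t (hsub' ht)) hp.1 (fun t ht => (HH t ht).2.2.1) t1 h1,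
      Box2_up (cp.mono hsub) (fun t ht => dp t (hsub' ht)) hp.2 (fun t ht => (HH t ht).2.2.2) t1 h1⟩
  have strict : ∀ t1 ∈ Icc a b, (∀ t ∈ Ico a t1, (bl ≤ u t ∧ u t ≤ bu) ∧ (cl ≤ p t ∧ p t ≤ cu)) →
      (u t1, p t1) ∈ Ioo bl bu ×ˢ Ioo cl cu := by
    intro t1 ht1 hs
    obtain ⟨k1, k2, k3, k4⟩ := key t1 ht1 hs
    have h0 : 0 ≤ t1 - a := sub_nonneg.2 ht1.1
    have h1 : t1 - a ≤ b - a := sub_le_sub_right ht1.2 a
    have e1 := Box2_min (K := U1) h0 h1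
    have e2 := Box2_max (K := U2) h0 h1
    have e3 := Box2_min (K := G1) h0 h1
    have e4 := Box2_max (K := G2) h0 h1
    exact ⟨⟨by linarith, by linarith⟩, ⟨by linarith, by linarith⟩⟩
  have hall : ∀ t ∈ Icc a b, (u t, p t) ∈ Ioo bl bu ×ˢ Ioo cl cu := by
    by_contra hc
    push Not at hc
    obtain ⟨t0, ht0, hn0⟩ := hc
    set Z : Set ℝ := Icc a b ∩ (fun t => (u t, p t)) ⁻¹' (Ioo bl bu ×ˢ Ioo cl cu)ᶜ with hZ
    have hZc : IsClosed Z :=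
      (cu'.prodMk cp).preimage_isClosed_of_isClosed isClosed_Icc
        ((isOpen_Ioo.prod isOpen_Ioo).isClosed_compl)
    have hZne : Z.Nonempty := ⟨t0, ht0, hn0⟩
    have hZb : BddBelow Z := ⟨a, fun t ht => ht.1.1⟩
    have h1 : sInf Z ∈ Z := hZc.csInf_mem hZne hZb
    refine h1.2 (strict _ h1.1 fun t ht => ?_)
    have h2 : t ∉ Z := fun hm => absurd (csInf_le hZb hm) (not_le.2 ht.2)
    have h3 : (u t, p t) ∈ Ioo bl bu ×ˢ Ioo cl cu := by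
      by_contra h4
      exact h2 ⟨⟨ht.1, ht.2.le.trans h1.1.2⟩, h4⟩
    exact ⟨⟨h3.1.1.le, h3.1.2.le⟩, ⟨h3.2.1.le, h3.2.2.le⟩⟩
  intro t ht
  have h1 := hall t ht
  refine ⟨⟨h1.1.1.le, h1.1.2.le, h1.2.1.le, h1.2.2.le⟩, key t ht fun s hs => ?_⟩
  have h2 := hall s ⟨hs.1, hs.2.le.trans ht.2⟩
  exact ⟨⟨h2.1.1.le, h2.1.2.le⟩, ⟨h2.2.1.le, h2.2.2.le⟩⟩

end AT
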