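import Pool.Agent.H.MP_ce2c94_gt.Pic

/-!
# Existence for the clamped systems
-/

namespace AT

open Real Set

theorem PicC_lip {N d a b S : ℝ} (hN : |N| ≤ 4) (hd : 1 ≤ d) (ha : 1 / 20 ≤ a) (hb : 1 / 20 ≤ b)
    (hab : |a - b| ≤ 10001 * S) (hS : 0 ≤ S) :
    |N / (d * a) - N / (d * b)| ≤ 16001600 * S := by
  have ha0 : 0 < a := by linarith
  have hb0 : 0 < b := by linarith
  have hd0 : 0 < d := by linarith
  have e : N / (d * a) - N / (d * b) = N * (b - a) / (d * a * b) := by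
    field_simp
  have h1 : (1 : ℝ) / 400 ≤ d * a * b := by
    have h2 : (1 : ℝ) / 400 ≤ a * b := by nlinarith
    nlinarith [mul_pos ha0 hb0]
  have hpos : 0 < d * a * b := by positivity
  rw [e, abs_div, abs_of_pos hpos, div_le_iff₀ hpos, abs_mul, abs_sub_comm b a]
  calc |N| * |a - b| ≤ 4 * (10001 * S) :=
        mul_le_mul hN hab (abs_nonneg _) (by norm_num)
    _ = 16001600 * S * (1 / 400) := by ring
    _ ≤ 16001600 * S * (d * a * b) := mul_le_mul_of_nonneg_left h1 (by positivity)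

theorem PicC_bd {N d a : ℝ} (hN : |N| ≤ 4) (hd : 1 ≤ d) (ha : 1 / 20 ≤ a) :
    |N / (d * a)| ≤ 80 := by
  have ha0 : 0 < a := by linarith
  have hpos : 0 < d * a := by positivity
  have h1 : (1 : ℝ) / 20 ≤ d * a := by nlinarith
  rw [abs_div, abs_of_pos hpos, div_le_iff₀ hpos]
  linarith

theorem PicC_main {K : ℝ → ℝ → ℝ → ℝ} (hK : ∀ τ x r, 1 / 20 ≤ K τ x r)
    (cK : Continuous fun z : ℝ × ℝ × ℝ => K z.1 z.2.1 z.2.2)
    (lK : ∀ τ ∈ Icc (0 : ℝ) 1, ∀ x r x' r',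
      |K τ x r - K τ x' r'| ≤ 10001 * (|x - x'| + |r - r'|))
    (s : ℝ) (hs : |s| ≤ 1) (x₀ r₀ : ℝ) :
    ∃ X R : ℝ → ℝ, X 0 = x₀ ∧ R 0 = r₀ ∧
      (∀ t ∈ Icc (0 : ℝ) 1, HasDerivWithinAt X (2 * (1 - t ^ 2) / ((1 + t ^ 2) * K t (X t) (R t)))
        (Icc 0 1) t) ∧
      (∀ t ∈ Icc (0 : ℝ) 1, HasDerivWithinAt R (s * (4 * t) / ((1 + t ^ 2) * K t (X t) (R t)))
        (Icc 0 1) t) := by
  have hd : ∀ t : ℝ, 1 ≤ 1 + t ^ 2 := fun t => by nlinarith [sq_nonneg t]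
  have hN1 : ∀ t ∈ Icc (0 : ℝ) 1, |2 * (1 - t ^ 2)| ≤ 4 := by
    intro t ht
    rw [abs_le]
    constructor <;> nlinarith [ht.1, ht.2, sq_nonneg t]
  have hN2 : ∀ t ∈ Icc (0 : ℝ) 1, |s * (4 * t)| ≤ 4 := by
    intro t ht
    rw [abs_mul, abs_of_nonneg (by linarith [ht.1] : (0 : ℝ) ≤ 4 * t)]
    nlinarith [ht.1, ht.2, abs_nonneg s]
  have hne : ∀ z : ℝ × ℝ × ℝ, (1 + z.1 ^ 2) * K z.1 z.2.1 z.2.2 ≠ 0 := by
    intro z
    have h1 := hK z.1 z.2.1 z.2.2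
    have h2 := hd z.1
    have h3 : 0 < K z.1 z.2.1 z.2.2 := by linarith
    positivity
  have cden : Continuous fun z : ℝ × ℝ × ℝ => (1 + z.1 ^ 2) * K z.1 z.2.1 z.2.2 :=
    (by fun_prop : Continuous fun z : ℝ × ℝ × ℝ => (1 + z.1 ^ 2)).mul cK
  exact picard2 (f := fun t x r => 2 * (1 - t ^ 2) / ((1 + t ^ 2) * K t x r))
    (g := fun t x r => s * (4 * t) / ((1 + t ^ 2) * K t x r)) (T := 1) (C := 80) (L := 16001600)
    (by norm_num) (by norm_num) (by norm_num)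
    ((by fun_prop : Continuous fun z : ℝ × ℝ × ℝ => 2 * (1 - z.1 ^ 2)).div cden hne)
    ((by fun_prop : Continuous fun z : ℝ × ℝ × ℝ => s * (4 * z.1)).div cden hne)
    (fun t ht x r => PicC_bd (hN1 t ht) (hd t) (hK t x r))
    (fun t ht x r => PicC_bd (hN2 t ht) (hd t) (hK t x r))
    (fun t ht x r x' r' => PicC_lip (hN1 t ht) (hd t) (hK t x r) (hK t x' r')
      (lK t ht x r x' r') (by positivity))
    (fun t ht x r x' r' => PicC_lip (hN2 t ht) (hd t) (hK t x r) (hK t x' r')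
      (lK t ht x r x' r') (by positivity))
    x₀ r₀

theorem PicC_maxpos (r : ℝ) : 0 < max r (1 / 100) :=
  lt_of_lt_of_le (by norm_num) (le_max_right r (1 / 100))

theorem PicC_inv_lip (r r' : ℝ) :
    |(1 / max r (1 / 100) - max r (1 / 100) / 2) -
      (1 / max r' (1 / 100) - max r' (1 / 100) / 2)| ≤ 10001 * |r - r'| := by
  have h1 := abs_max_sub_max_le_abs r r' (1 / 100)
  have ha : (1 : ℝ) / 100 ≤ max r (1 / 100) := le_max_right _ _
  have hb : (1 : ℝ) / 100 ≤ max r' (1 / 100) := le_max_right _ _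
  generalize max r (1 / 100) = a at h1 ha ⊢
  generalize max r' (1 / 100) = b at h1 hb ⊢
  have ha0 : 0 < a := by linarith
  have hb0 : 0 < b := by linarith
  have e : (1 / a - a / 2) - (1 / b - b / 2) = (b - a) * (1 / (a * b) + 1 / 2) := by
    field_simp
    ring
  have h2 : 1 / (a * b) ≤ 10000 := by
    rw [div_le_iff₀ (by positivity)]
    nlinarith
  have h3 : 0 ≤ 1 / (a * b) + 1 / 2 := by positivity
  rw [e, abs_mul, abs_of_nonneg h3, abs_sub_comm b a]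
  calc |a - b| * (1 / (a * b) + 1 / 2) ≤ |r - r'| * (10000 + 1 / 2) :=
        mul_le_mul h1 (by linarith) h3 (abs_nonneg _)
    _ ≤ 10001 * |r - r'| := by nlinarith [abs_nonneg (r - r')]

theorem PicC_cont (σ : ℝ) : Continuous fun z : ℝ × ℝ × ℝ => max (1 / 20)
    (z.2.1 * z.1 + (1 - z.1 ^ 2) *
      (σ * (1 / max z.2.2 (1 / 100) - max z.2.2 (1 / 100) / 2))) := by
  have h1 : Continuous fun z : ℝ × ℝ × ℝ => max z.2.2 (1 / 100) := by fun_prop
  have h2 : Continuous fun z : ℝ × ℝ × ℝ => 1 / max z.2.2 (1 / 100) :=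
    continuous_const.div h1 (fun z => (PicC_maxpos _).ne')
  have h3 : Continuous fun z : ℝ × ℝ × ℝ =>
      (1 / max z.2.2 (1 / 100) - max z.2.2 (1 / 100) / 2) := h2.sub (h1.div_const 2)
  exact continuous_const.max ((by fun_prop : Continuous fun z : ℝ × ℝ × ℝ => z.2.1 * z.1).add
    ((by fun_prop : Continuous fun z : ℝ × ℝ × ℝ => (1 - z.1 ^ 2)).mul
      (continuous_const.mul h3)))

theorem PicC_Klip (σ : ℝ) (hσ : |σ| ≤ 1) (τ : ℝ) (hτ : τ ∈ Icc (0 : ℝ) 1) (x r x' r' : ℝ) :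
    |max (1 / 20) (x * τ + (1 - τ ^ 2) *
        (σ * (1 / max r (1 / 100) - max r (1 / 100) / 2))) -
      max (1 / 20) (x' * τ + (1 - τ ^ 2) *
        (σ * (1 / max r' (1 / 100) - max r' (1 / 100) / 2)))| ≤
      10001 * (|x - x'| + |r - r'|) := by
  have h0 := PicC_inv_lip r r'
  generalize (1 / max r (1 / 100) - max r (1 / 100) / 2) = A at h0 ⊢
  generalize (1 / max r' (1 / 100) - max r' (1 / 100) / 2) = B at h0 ⊢
  rw [max_comm (1 / 20), max_comm (1 / 20)]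
  refine (abs_max_sub_max_le_abs _ _ _).trans ?_
  have e : x * τ + (1 - τ ^ 2) * (σ * A) - (x' * τ + (1 - τ ^ 2) * (σ * B)) =
      τ * (x - x') + ((1 - τ ^ 2) * σ) * (A - B) := by ring
  rw [e]
  refine (abs_add_le _ _).trans ?_
  rw [abs_mul, abs_mul, abs_mul, abs_of_nonneg hτ.1]
  have h1 : |1 - τ ^ 2| ≤ 1 := by
    rw [abs_le]
    constructor <;> nlinarith [hτ.1, hτ.2, sq_nonneg τ]
  have h2 : |1 - τ ^ 2| * |σ| ≤ 1 := mul_le_one₀ h1 (abs_nonneg _) hσ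
  have h3 : |1 - τ ^ 2| * |σ| * |A - B| ≤ 1 * (10001 * |r - r'|) :=
    mul_le_mul h2 h0 (abs_nonneg _) zero_le_one
  have h4 : τ * |x - x'| ≤ 1 * |x - x'| := mul_le_mul_of_nonneg_right hτ.2 (abs_nonneg _)
  nlinarith [abs_nonneg (x - x')]

theorem PicC_KLc (τ x r : ℝ) : KLc τ x r = max (1 / 20) (x * τ + (1 - τ ^ 2) *
    (1 * (1 / max r (1 / 100) - max r (1 / 100) / 2))) := by
  rw [KLc, KL, one_mul]

theorem PicC_KUc (τ x r : ℝ) : KUc τ x r = max (1 / 20) (x * τ + (1 - τ ^ 2) *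
    (-1 * (1 / max r (1 / 100) - max r (1 / 100) / 2))) := by
  rw [KUc, KU]
  congr 2
  ring

/-- The clamped lower system is bounded and Lipschitz: `KLc ≥ 1/20`, and `KLc τ` is Lipschitz in
`(x, r)` for `0 ≤ τ ≤ 1` (`max` is 1-Lipschitz, `1/r` is `10^4`-Lipschitz on `[1/100, ∞)`). -/
theorem ex_clLow (x₀ c : ℝ) : ∃ X R : ℝ → ℝ, X 0 = x₀ ∧ R 0 = c ∧ ClLow 1 X R := by
  obtain ⟨X, R, hX, hR, h1, h2⟩ := PicC_main (K := KLc) (fun τ x r => le_max_left _ _)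
    (by simpa only [PicC_KLc] using PicC_cont 1)
    (fun τ hτ x r x' r' => by
      simpa only [PicC_KLc] using PicC_Klip 1 (by norm_num) τ hτ x r x' r')
    1 (by norm_num) x₀ c
  refine ⟨X, R, hX, hR, ⟨h1, fun t ht => ?_⟩⟩
  have h := h2 t ht
  rw [one_mul] at h
  exact h

theorem ex_clUp (x₀ c : ℝ) : ∃ X R : ℝ → ℝ, X 0 = x₀ ∧ R 0 = c ∧ ClUp 1 X R := by
  obtain ⟨X, R, hX, hR, h1, h2⟩ := PicC_main (K := KUc) (fun τ x r => le_max_left _ _)
    (by simpa only [PicC_KUc] using PicC_cont (-1))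
    (fun τ hτ x r x' r' => by
      simpa only [PicC_KUc] using PicC_Klip (-1) (by norm_num) τ hτ x r x' r')
    (-1) (by norm_num) x₀ c
  refine ⟨X, R, hX, hR, ⟨h1, fun t ht => ?_⟩⟩
  have h := h2 t ht
  rw [neg_one_mul, neg_div] at h
  exact h

end AT
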