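import Pool.Agent.H.MP_ce2c94_gt.StepLK

/-!
# One step of the lower run
-/

namespace AT

open Real Set

/-- one sided mean value inequalities -/
theorem StepL_mvt {f f' : ℝ → ℝ} {a b c : ℝ} (hc : ContinuousOn f (Icc a b))
    (hd : ∀ x ∈ Ioo a b, HasDerivAt f (f' x) x) (hb : ∀ x ∈ Ioo a b, f' x ≤ c) :
    ∀ x ∈ Icc a b, ∀ y ∈ Icc a b, x ≤ y → f y - f x ≤ c * (y - x) := by
  refine Convex.image_sub_le_mul_sub_of_deriv_le (convex_Icc a b) hc ?_ ?_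
  · rw [interior_Icc]
    exact fun x hx => (hd x hx).differentiableAt.differentiableWithinAt
  · rw [interior_Icc]
    intro x hx
    rw [(hd x hx).deriv]
    exact hb x hx

theorem StepL_mvt' {f f' : ℝ → ℝ} {a b c : ℝ} (hc : ContinuousOn f (Icc a b))
    (hd : ∀ x ∈ Ioo a b, HasDerivAt f (f' x) x) (hb : ∀ x ∈ Ioo a b, c ≤ f' x) :
    ∀ x ∈ Icc a b, ∀ y ∈ Icc a b, x ≤ y → c * (y - x) ≤ f y - f x := by
  refine Convex.mul_sub_le_image_sub_of_le_deriv (convex_Icc a b) hc ?_ ?_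
  · rw [interior_Icc]
    exact fun x hx => (hd x hx).differentiableAt.differentiableWithinAt
  · rw [interior_Icc]
    intro x hx
    rw [(hd x hx).deriv]
    exact hb x hx

theorem StepL_KLc_pos (τ x r : ℝ) : 0 < KLc τ x r := by
  unfold KLc
  exact lt_of_lt_of_le (by norm_num) (le_max_left _ _)

theorem StepL_div_lt (p : ℕ) {q : ℕ} (hq : 0 < q) : (p : ℝ) / q < ((p / q + 1 : ℕ) : ℝ) := by
  have hq' : (0 : ℝ) < q := by exact_mod_cast hq
  rw [div_lt_iff₀ hq']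
  have h1 := Nat.div_add_mod p q
  have h2 := Nat.mod_lt p hq
  have h3 : p < (p / q + 1) * q := by nlinarith
  exact_mod_cast h3

theorem StepL_div_le (p q : ℕ) : ((p / q : ℕ) : ℝ) ≤ (p : ℝ) / q := Nat.cast_div_le

theorem StepL_K0 {k : ℕ} (hk : K0 ≤ k) : (1 : ℝ) / 20 ≤ (k : ℝ) / MM := by
  rw [le_div_iff₀ StepLK_MM]
  have h1 : (K0 : ℝ) ≤ k := by exact_mod_cast hk
  have h2 : (1 : ℝ) / 20 * MM ≤ K0 := by
    unfold MM K0
    norm_num
  linarith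

theorem StepL_R0 {k : ℕ} (hk : R0 ≤ k) : (1 : ℝ) / 100 ≤ (k : ℝ) / MM := by
  rw [le_div_iff₀ StepLK_MM]
  have h1 : (R0 : ℝ) ≤ k := by exact_mod_cast hk
  have h2 : (1 : ℝ) / 100 * MM ≤ R0 := by
    unfold MM R0
    norm_num
  linarith

/-- For the clamped lower system `X` and `R` are nondecreasing on `[0,1]`
(derivatives `≥ 0`, `KLc ≥ 1/20 > 0`). -/
theorem clLow_mono {X R : ℝ → ℝ} (h : ClLow 1 X R) :
    MonotoneOn X (Icc 0 1) ∧ MonotoneOn R (Icc 0 1) := by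
  have hXc : ContinuousOn X (Icc 0 1) := fun τ hτ => (h.dX τ hτ).continuousWithinAt
  have hRc : ContinuousOn R (Icc 0 1) := fun τ hτ => (h.dR τ hτ).continuousWithinAt
  have hX : ∀ τ ∈ Ioo (0 : ℝ) 1, HasDerivAt X
      (2 * (1 - τ ^ 2) / ((1 + τ ^ 2) * KLc τ (X τ) (R τ))) τ := fun τ hτ =>
    (h.dX τ ⟨hτ.1.le, hτ.2.le⟩).hasDerivAt (Icc_mem_nhds hτ.1 hτ.2)
  have hR : ∀ τ ∈ Ioo (0 : ℝ) 1, HasDerivAt R
      (4 * τ / ((1 + τ ^ 2) * KLc τ (X τ) (R τ))) τ := fun τ hτ =>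
    (h.dR τ ⟨hτ.1.le, hτ.2.le⟩).hasDerivAt (Icc_mem_nhds hτ.1 hτ.2)
  constructor
  · intro x hx y hy hxy
    have h1 := StepL_mvt' hXc hX (c := 0) (fun τ hτ => by
      have h2 : 0 ≤ 1 - τ ^ 2 := by nlinarith [hτ.1, hτ.2]
      have h3 := StepL_KLc_pos τ (X τ) (R τ)
      positivity) x hx y hy hxy
    linarith
  · intro x hx y hy hxy
    have h1 := StepL_mvt' hRc hR (c := 0) (fun τ hτ => by
      have h2 : 0 ≤ τ := hτ.1.le
      have h3 := StepL_KLc_pos τ (X τ) (R τ)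
      positivity) x hx y hy hxy
    linarith

/-- what holds on one step of a lower run -/
structure LowData (N n XL XU RL RU kl ku : ℕ) (X R : ℝ → ℝ) : Prop where
  x : ∀ τ ∈ Icc ((n : ℝ) / N) (((n : ℝ) + 1) / N), (XL : ℝ) / MM ≤ X τ ∧ X τ ≤ (XU : ℝ) / MM
  r : ∀ τ ∈ Icc ((n : ℝ) / N) (((n : ℝ) + 1) / N), (RL : ℝ) / MM ≤ R τ ∧ R τ ≤ (RU : ℝ) / MM
  k : ∀ τ ∈ Icc ((n : ℝ) / N) (((n : ℝ) + 1) / N),
    (kl : ℝ) / MM ≤ KL τ (X τ) (R τ) ∧ KL τ (X τ) (R τ) ≤ (ku : ℝ) / MM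

/-- **One lower step.** `a = n/N`, `b = (n+1)/N`, `kl = kLow N n XL RG ≥ K0` (so `kl/M ≥ 1/20`),
`RU' = RU + dRup N n kl ≤ RG`.
1. `XL/M ≤ X τ`, `RL/M ≤ R τ` on `[a,b]` by monotonicity; `R τ ≥ RL/M ≥ 1/100`.
2. Upper fence for `R`: `B τ = RU/M + (τ - a)(RU' - RU)/M · N`. If `R τ = B τ` for some `τ ∈ [a,b)`
then `R τ ≤ RU'/M ≤ RG/M`, so by `kLow_le` `KL ≥ kl/M ≥ 1/20`, `KLc = KL` and
`R' = 4τ/((1+τ²) KL) ≤ 4 ((n+1)/N) / ((N²+n²)/N² · kl/M) < (RU'-RU)/M · N`.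
Use `image_le_of_deriv_right_lt_deriv_boundary'` (or the `liminf` version) : `R ≤ B` on `[a,b]`.
3. So `R ≤ RU'/M ≤ RG/M` on `[a,b]`, `KL ≥ kl/M` there, `KLc = KL`.
4. `X' ≤ 2 ((N²-n²)/N²)/((N²+n²)/N² · kl/M)`, hence `X ≤ XU/M + dXup/M = XU'/M`
(mean value inequality, e.g. `image_le_of_deriv_right_le_deriv_boundary` or `Convex.image_sub_le_mul_sub_of_deriv_le`).
5. `KL ≤ ku/M`, `ku = kHigh N n XU' RL`; `X' ≥ 2((N²-(n+1)²)/N²)/((N²+(n+1)²)/N² · ku/M)`,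
`R' ≥ 4 (n/N)/((N²+(n+1)²)/N² · ku/M)` give the lower bounds at `b`. -/
theorem low_step {N n XL XU RL RU RG : ℕ} {X R : ℝ → ℝ} (hN : 0 < N) (hn : n < N)
    (h : ClLow 1 X R) (hRL : R0 ≤ RL)
    (hx : (XL : ℝ) / MM ≤ X ((n : ℝ) / N)) (hx' : X ((n : ℝ) / N) ≤ (XU : ℝ) / MM)
    (hX0 : 0 ≤ X ((n : ℝ) / N))
    (hr : (RL : ℝ) / MM ≤ R ((n : ℝ) / N)) (hr' : R ((n : ℝ) / N) ≤ (RU : ℝ) / MM)
    (hk : K0 ≤ kLow N n XL RG) (hG : RU + dRup N n (kLow N n XL RG) ≤ RG) :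
    LowData N n XL (XU + dXup N n (kLow N n XL RG)) RL (RU + dRup N n (kLow N n XL RG))
      (kLow N n XL RG) (kHigh N n (XU + dXup N n (kLow N n XL RG)) RL) X R ∧
    ((XL + dXlo N n (kHigh N n (XU + dXup N n (kLow N n XL RG)) RL) : ℕ) : ℝ) / MM ≤
      X (((n : ℝ) + 1) / N) ∧
    ((RL + dRlo N n (kHigh N n (XU + dXup N n (kLow N n XL RG)) RL) : ℕ) : ℝ) / MM ≤
      R (((n : ℝ) + 1) / N) := by
  obtain ⟨hXm, hRm⟩ := clLow_mono h
  set kl := kLow N n XL RG with hkl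
  set M : ℝ := (MM : ℝ) with hMdef
  have hM : 0 < M := StepLK_MM
  have hN' : (0 : ℝ) < N := by exact_mod_cast hN
  have hn0 : (0 : ℝ) ≤ n := Nat.cast_nonneg n
  have hnN : (n : ℝ) + 1 ≤ N := by exact_mod_cast hn
  set a : ℝ := (n : ℝ) / N with hadef
  set b : ℝ := ((n : ℝ) + 1) / N with hbdef
  have ha0 : 0 ≤ a := div_nonneg hn0 hN'.le
  have hab : a < b := by
    rw [hadef, hbdef]
    exact div_lt_div_of_pos_right (by linarith) hN'
  have hb1 : b ≤ 1 := by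
    rw [hbdef, div_le_one hN']
    exact hnN
  have hba : b - a = 1 / N := by
    rw [hadef, hbdef]
    ring
  have hsub : Icc a b ⊆ Icc (0 : ℝ) 1 := Icc_subset_Icc ha0 hb1
  have ha1 : a ∈ Icc (0 : ℝ) 1 := ⟨ha0, hab.le.trans hb1⟩
  have hK0 : 0 < K0 := by unfold K0; norm_num
  have hR0 : 0 < R0 := by unfold R0; norm_num
  have hklpos : 0 < kl := lt_of_lt_of_le hK0 hk
  have hklR : (0 : ℝ) < kl := by exact_mod_cast hklpos
  have hkl20 : (1 : ℝ) / 20 ≤ (kl : ℝ) / M := StepL_K0 hk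
  have hRLpos : 0 < RL := lt_of_lt_of_le hR0 hRL
  have hRL100 : (1 : ℝ) / 100 ≤ (RL : ℝ) / M := StepL_R0 hRL
  have hRGle : ((RU + dRup N n kl : ℕ) : ℝ) / M ≤ (RG : ℝ) / M := by
    apply div_le_div_of_nonneg_right _ hM.le
    exact_mod_cast hG
  -- first bounds
  have hXge : ∀ τ ∈ Icc a b, (XL : ℝ) / M ≤ X τ := fun τ hτ =>
    hx.trans (hXm ha1 (hsub hτ) hτ.1)
  have hX0' : ∀ τ ∈ Icc a b, 0 ≤ X τ := fun τ hτ => hX0.trans (hXm ha1 (hsub hτ) hτ.1)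
  have hRge : ∀ τ ∈ Icc a b, (RL : ℝ) / M ≤ R τ := fun τ hτ =>
    hr.trans (hRm ha1 (hsub hτ) hτ.1)
  have hRpos : ∀ τ ∈ Icc a b, 0 < R τ := fun τ hτ => by
    have := hRge τ hτ
    linarith
  have hKc : ∀ τ ∈ Icc a b, R τ ≤ (RG : ℝ) / M →
      (kl : ℝ) / M ≤ KL τ (X τ) (R τ) ∧ KLc τ (X τ) (R τ) = KL τ (X τ) (R τ) := by
    intro τ hτ hrτ
    have h1 : (kl : ℝ) / M ≤ KL τ (X τ) (R τ) :=
      kLow_le hN hn hklpos hτ.1 hτ.2 (hXge τ hτ) (hRpos τ hτ) hrτ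
    refine ⟨h1, ?_⟩
    rw [KLc, max_eq_left (hRL100.trans (hRge τ hτ)), max_eq_right (hkl20.trans h1)]
  have hS : (0 : ℝ) < (N : ℝ) * N + n * n := by positivity
  have hS1 : (0 : ℝ) < (N : ℝ) * N + (n + 1) * (n + 1) := by positivity
  -- the fence for R
  have hdR : 4 * b / ((1 + a ^ 2) * ((kl : ℝ) / M)) < (dRup N n kl : ℝ) * N / M := by
    have h1 := StepL_div_lt (4 * (n + 1) * (MM * MM)) (q := (N * N + n * n) * kl) (by positivity)
    have h2 : ((4 * (n + 1) * (MM * MM) / ((N * N + n * n) * kl) + 1 : ℕ) : ℝ) =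
        (dRup N n kl : ℝ) := rfl
    rw [h2] at h1
    push_cast at h1
    have h3 : 4 * b / ((1 + a ^ 2) * ((kl : ℝ) / M)) =
        (4 * ((n : ℝ) + 1) * (M * M) / (((N : ℝ) * N + n * n) * kl)) * (N / M) := by
      rw [hadef, hbdef]
      field_simp
    rw [h3]
    have h4 : (dRup N n kl : ℝ) * N / M = (dRup N n kl : ℝ) * (N / M) := by ring
    rw [h4]
    exact mul_lt_mul_of_pos_right h1 (div_pos hN' hM)
  have hslope : ∀ τ ∈ Icc a b, (τ - a) * ((dRup N n kl : ℝ) * N / M) ≤ (dRup N n kl : ℝ) / M := by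
    intro τ hτ
    have h2 : τ - a ≤ 1 / N := by linarith [hτ.2, hba]
    have h3 : (0 : ℝ) ≤ (dRup N n kl : ℝ) * N / M := by positivity
    calc (τ - a) * ((dRup N n kl : ℝ) * N / M) ≤ 1 / N * ((dRup N n kl : ℝ) * N / M) :=
          mul_le_mul_of_nonneg_right h2 h3
      _ = (dRup N n kl : ℝ) / M := by field_simp
  have hcast : ((RU + dRup N n kl : ℕ) : ℝ) / M = (RU : ℝ) / M + (dRup N n kl : ℝ) / M := by
    push_cast
    ring
  have hfence : ∀ τ ∈ Icc a b,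
      R τ ≤ (RU : ℝ) / M + (τ - a) * ((dRup N n kl : ℝ) * N / M) := by
    have hB : ∀ x : ℝ, HasDerivAt (fun τ => (RU : ℝ) / M + (τ - a) *
        ((dRup N n kl : ℝ) * N / M)) ((fun _ => (dRup N n kl : ℝ) * N / M) x) x := by
      intro x
      have h1 : HasDerivAt (fun τ => (RU : ℝ) / M + (τ - a) *
          ((dRup N n kl : ℝ) * N / M)) (0 + (1 - 0) * ((dRup N n kl : ℝ) * N / M)) x :=
        (hasDerivAt_const x _).add (((hasDerivAt_id x).sub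
          (hasDerivAt_const x a)).mul_const _)
      have h2 : 0 + (1 - 0) * ((dRup N n kl : ℝ) * N / M) = (dRup N n kl : ℝ) * N / M := by
        ring
      rw [h2] at h1
      exact h1
    have key := image_le_of_deriv_right_lt_deriv_boundary (f := R)
      (f' := fun τ => 4 * τ / ((1 + τ ^ 2) * KLc τ (X τ) (R τ))) (a := a) (b := b)
      (B := fun τ => (RU : ℝ) / M + (τ - a) * ((dRup N n kl : ℝ) * N / M))
      (B' := fun _ => (dRup N n kl : ℝ) * N / M) ?_ ?_ ?_ hB ?_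
    · intro τ hτ
      exact key hτ
    · intro τ hτ
      exact (h.dR τ (hsub hτ)).continuousWithinAt.mono hsub
    · intro τ hτ
      have hτ1 : τ ∈ Icc (0 : ℝ) 1 := hsub ⟨hτ.1, hτ.2.le⟩
      exact (h.dR τ hτ1).mono_of_mem_nhdsWithin
        (Icc_mem_nhdsGE_of_mem ⟨hτ1.1, lt_of_lt_of_le hτ.2 hb1⟩)
    · simp only [sub_self, zero_mul, add_zero]
      exact hr'
    · intro τ hτ heq
      have hτ' : τ ∈ Icc a b := ⟨hτ.1, hτ.2.le⟩
      have hle : R τ ≤ (RG : ℝ) / M := by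
        refine le_trans ?_ hRGle
        rw [heq, hcast]
        have := hslope τ hτ'
        linarith
      obtain ⟨hK1, hK2⟩ := hKc τ hτ' hle
      show 4 * τ / ((1 + τ ^ 2) * KLc τ (X τ) (R τ)) < (dRup N n kl : ℝ) * N / M
      rw [hK2]
      refine lt_of_le_of_lt ?_ hdR
      have hpos : 0 < (kl : ℝ) / M := div_pos hklR hM
      refine div_le_div₀ (by linarith [hτ'.1, hτ'.2]) (by linarith [hτ'.2]) (by positivity) ?_
      refine mul_le_mul ?_ hK1 hpos.le (by positivity)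
      have : a ^ 2 ≤ τ ^ 2 := pow_le_pow_left₀ ha0 hτ'.1 2
      linarith
  have hRle : ∀ τ ∈ Icc a b, R τ ≤ ((RU + dRup N n kl : ℕ) : ℝ) / M := by
    intro τ hτ
    refine le_trans (hfence τ hτ) ?_
    rw [hcast]
    have := hslope τ hτ
    linarith
  have hK : ∀ τ ∈ Icc a b,
      (kl : ℝ) / M ≤ KL τ (X τ) (R τ) ∧ KLc τ (X τ) (R τ) = KL τ (X τ) (R τ) := fun τ hτ =>
    hKc τ hτ ((hRle τ hτ).trans hRGle)
  have hklM : 0 < (kl : ℝ) / M := div_pos hklR hM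
  -- derivatives inside
  have hXc : ContinuousOn X (Icc a b) := fun τ hτ =>
    (h.dX τ (hsub hτ)).continuousWithinAt.mono hsub
  have hRc : ContinuousOn R (Icc a b) := fun τ hτ =>
    (h.dR τ (hsub hτ)).continuousWithinAt.mono hsub
  have hXd : ∀ τ ∈ Ioo a b, HasDerivAt X
      (2 * (1 - τ ^ 2) / ((1 + τ ^ 2) * KLc τ (X τ) (R τ))) τ := fun τ hτ =>
    (h.dX τ (hsub ⟨hτ.1.le, hτ.2.le⟩)).hasDerivAt
      (Icc_mem_nhds (lt_of_le_of_lt ha0 hτ.1) (lt_of_lt_of_le hτ.2 hb1))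
  have hRd : ∀ τ ∈ Ioo a b, HasDerivAt R
      (4 * τ / ((1 + τ ^ 2) * KLc τ (X τ) (R τ))) τ := fun τ hτ =>
    (h.dR τ (hsub ⟨hτ.1.le, hτ.2.le⟩)).hasDerivAt
      (Icc_mem_nhds (lt_of_le_of_lt ha0 hτ.1) (lt_of_lt_of_le hτ.2 hb1))
  -- the upper bound for X
  have hnN2 : n * n ≤ N * N := Nat.mul_le_mul hn.le hn.le
  have hn1N2 : (n + 1) * (n + 1) ≤ N * N := Nat.mul_le_mul hn hn
  have hdX : 2 * (1 - a ^ 2) / ((1 + a ^ 2) * ((kl : ℝ) / M)) * (1 / N) ≤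
      (dXup N n kl : ℝ) / M := by
    have h1 := StepL_div_lt (2 * (N * N - n * n) * (MM * MM))
      (q := N * (N * N + n * n) * kl) (by positivity)
    have h2 : ((2 * (N * N - n * n) * (MM * MM) / (N * (N * N + n * n) * kl) + 1 : ℕ) : ℝ) =
        (dXup N n kl : ℝ) := rfl
    rw [h2] at h1
    push_cast [Nat.cast_sub hnN2] at h1
    have h3 : 2 * (1 - a ^ 2) / ((1 + a ^ 2) * ((kl : ℝ) / M)) * (1 / N) =
        (2 * ((N : ℝ) * N - n * n) * (M * M) / ((N : ℝ) * ((N : ℝ) * N + n * n) * kl)) / M := by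
      rw [hadef]
      field_simp
    rw [h3]
    exact div_le_div_of_nonneg_right h1.le hM.le
  have hXle : ∀ τ ∈ Icc a b, X τ ≤ ((XU + dXup N n kl : ℕ) : ℝ) / M := by
    intro τ hτ
    have h1 := StepL_mvt hXc hXd (c := 2 * (1 - a ^ 2) / ((1 + a ^ 2) * ((kl : ℝ) / M)))
      (fun t ht => by
        obtain ⟨hK1, hK2⟩ := hK t ⟨ht.1.le, ht.2.le⟩
        have hat : a ^ 2 ≤ t ^ 2 := pow_le_pow_left₀ ha0 ht.1.le 2
        have ha2 : a ^ 2 ≤ 1 := by nlinarith [ha1.2]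
        refine div_le_div₀ (by linarith) (by linarith) (by positivity) ?_
        rw [hK2]
        exact mul_le_mul (by linarith) hK1 hklM.le (by positivity)) a (left_mem_Icc.2 hab.le)
      τ hτ hτ.1
    have h2 : 2 * (1 - a ^ 2) / ((1 + a ^ 2) * ((kl : ℝ) / M)) * (τ - a) ≤
        2 * (1 - a ^ 2) / ((1 + a ^ 2) * ((kl : ℝ) / M)) * (1 / N) := by
      have ha2 : 0 ≤ 1 - a ^ 2 := by nlinarith [ha1.2]
      refine mul_le_mul_of_nonneg_left ?_ (by positivity)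
      linarith [hτ.2, hba]
    have h3 : ((XU + dXup N n kl : ℕ) : ℝ) / M = (XU : ℝ) / M + (dXup N n kl : ℝ) / M := by
      push_cast
      ring
    rw [h3]
    linarith
  set XU' := XU + dXup N n kl with hXU'
  set ku := kHigh N n XU' RL with hku
  have hKle : ∀ τ ∈ Icc a b, KL τ (X τ) (R τ) ≤ (ku : ℝ) / M := by
    intro τ hτ
    exact kHigh_ge hN hn hRLpos hτ.1 hτ.2 (hX0' τ hτ) (hXle τ hτ) (hRge τ hτ)
  have hkuM : 0 < (ku : ℝ) / M :=
    lt_of_lt_of_le hklM ((hK a (left_mem_Icc.2 hab.le)).1.trans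
      (hKle a (left_mem_Icc.2 hab.le)))
  have hkuR : (0 : ℝ) < ku := by
    by_contra hcon
    have h1 : (ku : ℝ) / M ≤ 0 := div_nonpos_of_nonpos_of_nonneg (not_lt.1 hcon) hM.le
    linarith
  have hkupos : 0 < ku := by exact_mod_cast hkuR
  refine ⟨⟨fun τ hτ => ⟨hXge τ hτ, hXle τ hτ⟩, fun τ hτ => ⟨hRge τ hτ, hRle τ hτ⟩,
    fun τ hτ => ⟨(hK τ hτ).1, hKle τ hτ⟩⟩, ?_, ?_⟩
  · -- lower bound for X at b
    have h1 := StepL_mvt' hXc hXd (c := 2 * (1 - b ^ 2) / ((1 + b ^ 2) * ((ku : ℝ) / M)))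
      (fun t ht => by
        have ht' : t ∈ Icc a b := ⟨ht.1.le, ht.2.le⟩
        obtain ⟨hK1, hK2⟩ := hK t ht'
        have ht0 : 0 ≤ t := ha0.trans ht.1.le
        have hbt : t ^ 2 ≤ b ^ 2 := pow_le_pow_left₀ ht0 ht.2.le 2
        have hb2 : b ^ 2 ≤ 1 := by nlinarith [hb1]
        have hKpos : 0 < KL t (X t) (R t) := lt_of_lt_of_le hklM hK1
        rw [hK2]
        refine div_le_div₀ (by linarith) (by linarith) (by positivity) ?_
        exact mul_le_mul (by linarith) (hKle t ht') hKpos.le (by positivity))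
      a (left_mem_Icc.2 hab.le) b (right_mem_Icc.2 hab.le) hab.le
    have h2 := StepL_div_le (2 * (N * N - (n + 1) * (n + 1)) * (MM * MM))
      (N * (N * N + (n + 1) * (n + 1)) * ku)
    have h3 : ((2 * (N * N - (n + 1) * (n + 1)) * (MM * MM) /
        (N * (N * N + (n + 1) * (n + 1)) * ku) : ℕ) : ℝ) = (dXlo N n ku : ℝ) := rfl
    rw [h3] at h2
    push_cast [Nat.cast_sub hn1N2] at h2
    have h4 : 2 * (1 - b ^ 2) / ((1 + b ^ 2) * ((ku : ℝ) / M)) * (b - a) =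
        (2 * ((N : ℝ) * N - ((n : ℝ) + 1) * (n + 1)) * (M * M) /
          ((N : ℝ) * ((N : ℝ) * N + (n + 1) * (n + 1)) * ku)) / M := by
      rw [hba, hbdef]
      field_simp
    rw [h4] at h1
    have h5 : ((XL + dXlo N n ku : ℕ) : ℝ) / M = (XL : ℝ) / M + (dXlo N n ku : ℝ) / M := by
      push_cast
      ring
    rw [h5]
    have h6 := div_le_div_of_nonneg_right h2 hM.le
    linarith
  · -- lower bound for R at b
    have h1 := StepL_mvt' hRc hRd (c := 4 * a / ((1 + b ^ 2) * ((ku : ℝ) / M)))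
      (fun t ht => by
        have ht' : t ∈ Icc a b := ⟨ht.1.le, ht.2.le⟩
        obtain ⟨hK1, hK2⟩ := hK t ht'
        have ht0 : 0 ≤ t := ha0.trans ht.1.le
        have hbt : t ^ 2 ≤ b ^ 2 := pow_le_pow_left₀ ht0 ht.2.le 2
        have hKpos : 0 < KL t (X t) (R t) := lt_of_lt_of_le hklM hK1
        rw [hK2]
        refine div_le_div₀ (by linarith) (by linarith [ht.1]) (by positivity) ?_
        exact mul_le_mul (by linarith) (hKle t ht') hKpos.le (by positivity))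
      a (left_mem_Icc.2 hab.le) b (right_mem_Icc.2 hab.le) hab.le
    have h2 := StepL_div_le (4 * n * (MM * MM)) ((N * N + (n + 1) * (n + 1)) * ku)
    have h3 : ((4 * n * (MM * MM) / ((N * N + (n + 1) * (n + 1)) * ku) : ℕ) : ℝ) =
        (dRlo N n ku : ℝ) := rfl
    rw [h3] at h2
    push_cast at h2
    have h4 : 4 * a / ((1 + b ^ 2) * ((ku : ℝ) / M)) * (b - a) =
        (4 * (n : ℝ) * (M * M) / (((N : ℝ) * N + (n + 1) * (n + 1)) * ku)) / M := by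
      rw [hba, hbdef, hadef]
      field_simp
    rw [h4] at h1
    have h6 := div_le_div_of_nonneg_right h2 hM.le
    have h5 : ((RL + dRlo N n ku : ℕ) : ℝ) / M = (RL : ℝ) / M + (dRlo N n ku : ℝ) / M := by
      push_cast
      ring
    rw [h5]
    linarith

end AT
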