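import Pool.Agent.H.MP_ce2c94_gt.RunL
import Pool.Agent.H.MP_ce2c94_gt.RunLq
import Pool.Agent.H.MP_ce2c94_gt.PicC

/-!
# Boxes for the lower system
-/

namespace AT

open Real Set

/-- a lower solution starting at `(0, c)` -/
structure LowSol (c : ℝ) (X R : ℝ → ℝ) : Prop where
  tau : TauLow 1 X R
  cl : ClLow 1 X R
  x0 : X 0 = 0
  r0 : R 0 = c

/-- If `KL ≥ 1/20` and `R ≥ 1/100` on `[0,1]`, a solution of the clamped system is one of the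
system. -/
theorem BoxL_tau {X R : ℝ → ℝ} (h : ClLow 1 X R)
    (hb : ∀ τ ∈ Icc (0 : ℝ) 1, 1 / 20 ≤ KL τ (X τ) (R τ) ∧ 1 / 100 ≤ R τ) : TauLow 1 X R := by
  have hK : ∀ τ ∈ Icc (0 : ℝ) 1, KLc τ (X τ) (R τ) = KL τ (X τ) (R τ) := by
    intro τ hτ
    unfold KLc
    rw [max_eq_left (hb τ hτ).2, max_eq_right (hb τ hτ).1]
  refine ⟨fun τ hτ => lt_of_lt_of_le (by norm_num) (hb τ hτ).2, fun τ hτ => (hb τ hτ).1,
    fun τ hτ => ?_, fun τ hτ => ?_⟩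
  · have h1 := h.dX τ hτ
    rw [hK τ hτ] at h1
    exact h1
  · have h1 := h.dR τ hτ
    rw [hK τ hτ] at h1
    exact h1

/-- **A lower box**: `ex_clLow 0 c`, `runL_sound` with `k = N`, `n = 0`; then `KLc = KL` on
`[0,1]` since `KL ≥ 1/20` and `R ≥ 1/100`. -/
theorem low_box {N a b : ℕ} {fin : ℕ → ℕ → ℕ → ℕ → Bool} (hN : 0 < N)
    (hr : runL N fin N 0 0 0 a b = true) (ha : R0 ≤ a) {c : ℝ} (h1 : (a : ℝ) / MM ≤ c)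
    (h2 : c ≤ (b : ℝ) / MM) : ∃ X R : ℝ → ℝ, LowSol c X R ∧
      ∃ XL XU RL RU : ℕ, fin XL XU RL RU = true ∧ (XL : ℝ) / MM ≤ X 1 ∧ X 1 ≤ (XU : ℝ) / MM ∧
        (RL : ℝ) / MM ≤ R 1 ∧ R 1 ≤ (RU : ℝ) / MM := by
  obtain ⟨X, R, hX, hR, hcl⟩ := ex_clLow 0 c
  have hz : (((0 : ℕ) : ℝ)) / (N : ℝ) = 0 := by
    rw [Nat.cast_zero, zero_div]
  have hz2 : (((0 : ℕ) : ℝ)) / (MM : ℝ) = 0 := by
    rw [Nat.cast_zero, zero_div]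
  obtain ⟨hb, hf⟩ := runL_sound hN hcl N 0 0 0 a b hr (Nat.zero_add N) ha
    (by rw [hz, hX]) (by rw [hz, hX, hz2]) (by rw [hz, hX, hz2]) (by rw [hz, hR]; exact h1)
    (by rw [hz, hR]; exact h2)
  have hb' := hb hN
  rw [hz] at hb'
  exact ⟨X, R, ⟨BoxL_tau hcl hb', hcl, hX, hR⟩, hf⟩

/-- **Monotonicity in a lower box**: `runLq_sound` with `n = 0`, `Q = 0`, then `pair_pos`. -/
theorem low_box_mono {N a b : ℕ} (hN : 0 < N) (hr : runLq N N 0 0 0 a b 0 = true) (ha : R0 ≤ a)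
    {c₁ c₂ : ℝ} {X₁ R₁ X₂ R₂ : ℝ → ℝ} (h1 : (a : ℝ) / MM ≤ c₁) (h12 : c₁ < c₂)
    (h2 : c₂ ≤ (b : ℝ) / MM) (s₁ : LowSol c₁ X₁ R₁) (s₂ : LowSol c₂ X₂ R₂) :
    X₁ 1 < X₂ 1 ∧ R₁ 1 < R₂ 1 := by
  have hz : (((0 : ℕ) : ℝ)) / (N : ℝ) = 0 := by
    rw [Nat.cast_zero, zero_div]
  have hz2 : (((0 : ℕ) : ℝ)) / (MM : ℝ) = 0 := by
    rw [Nat.cast_zero, zero_div]
  have hlt : ∀ τ ∈ Icc (0 : ℝ) 1, R₁ τ < R₂ τ := by
    have h := runLq_sound hN s₁.cl s₂.cl s₁.tau s₂.tau N 0 0 0 a b 0 hr (Nat.zero_add N) ha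
      (by rw [hz, s₁.x0]) (by rw [hz, s₁.x0, hz2]) (by rw [hz, s₁.x0, hz2])
      (by rw [hz, s₁.r0]; exact h1) (by rw [hz, s₁.r0]; exact h12.le.trans h2)
      (by rw [hz, s₂.x0]) (by rw [hz, s₂.x0, hz2]) (by rw [hz, s₂.x0, hz2])
      (by rw [hz, s₂.r0]; exact h1.trans h12.le) (by rw [hz, s₂.r0]; exact h2)
      (by rw [hz, s₁.r0, s₂.r0]; exact h12)
      (by rw [hz, s₁.x0, s₂.x0, hz2, sub_self, zero_mul])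
    rw [hz] at h
    exact h
  have hp := pair_pos (pair_low s₁.tau s₂.tau)
    (by
      show X₂ 0 - X₁ 0 = 0
      rw [s₁.x0, s₂.x0, sub_self])
    (fun τ hτ => by
      show 0 < R₂ τ - R₁ τ
      exact sub_pos.2 (hlt τ hτ))
  have hp' : 0 < X₂ 1 - X₁ 1 := hp
  exact ⟨sub_pos.1 hp', hlt 1 ⟨zero_le_one, le_rfl⟩⟩

end AT
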