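import Pool.Agent.H.MP_ce2c94_gt.RatS
import Pool.Agent.H.MP_ce2c94_gt.StepU

/-!
# Soundness of the upper run with the ratio fence
-/

namespace AT

open Real Set

/-- **Soundness of `runUq`.** As `runLq_sound`, with `up_step` and `pair_up`;
`RG = RL - dRg N n (kLowU N n XL RL)`, `kl = kLowU N n XL RG`, `RL' = RL - dRup N n kl`,
`au = aUp RL'`, `al = aLo RU`. -/
theorem runUq_sound {N : ℕ} (hN : 0 < N) {X₁ R₁ X₂ R₂ : ℝ → ℝ} (h₁ : ClUp 1 X₁ R₁)
    (h₂ : ClUp 1 X₂ R₂) (t₁ : TauUp 1 X₁ R₁) (t₂ : TauUp 1 X₂ R₂) :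
    ∀ k n XL XU RL RU Q : ℕ, runUq N k n XL XU RL RU Q = true → n + k = N →
    0 ≤ X₁ ((n : ℝ) / N) → (XL : ℝ) / MM ≤ X₁ ((n : ℝ) / N) → X₁ ((n : ℝ) / N) ≤ (XU : ℝ) / MM →
    (RL : ℝ) / MM ≤ R₁ ((n : ℝ) / N) → R₁ ((n : ℝ) / N) ≤ (RU : ℝ) / MM →
    0 ≤ X₂ ((n : ℝ) / N) → (XL : ℝ) / MM ≤ X₂ ((n : ℝ) / N) → X₂ ((n : ℝ) / N) ≤ (XU : ℝ) / MM →
    (RL : ℝ) / MM ≤ R₂ ((n : ℝ) / N) → R₂ ((n : ℝ) / N) ≤ (RU : ℝ) / MM →
    R₁ ((n : ℝ) / N) < R₂ ((n : ℝ) / N) →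
    X₁ ((n : ℝ) / N) - X₂ ((n : ℝ) / N) ≤
      (Q : ℝ) / MM * (R₂ ((n : ℝ) / N) - R₁ ((n : ℝ) / N)) →
    ∀ τ ∈ Icc ((n : ℝ) / N) 1, R₁ τ < R₂ τ := by
  have hN' : (0 : ℝ) < N := by exact_mod_cast hN
  have hK0 : 0 < K0 := by unfold K0; norm_num
  have hR0 : 0 < R0 := by unfold R0; norm_num
  have hMM : (0 : ℝ) < MM := RatS_MM
  obtain ⟨hXm1, hRm1⟩ := clUp_mono h₁
  obtain ⟨hXm2, hRm2⟩ := clUp_mono h₂
  intro k
  induction k with
  | zero =>
    intro n XL XU RL RU Q _ hn _ _ _ _ _ _ _ _ _ _ hlt _ τ hτ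
    have hn' : n = N := by simpa using hn
    subst hn'
    have h1 : (n : ℝ) / n = 1 := div_self hN'.ne'
    rw [h1] at hτ hlt
    have h2 : τ = 1 := le_antisymm hτ.2 hτ.1
    rw [h2]
    exact hlt
  | succ k ih =>
    intro n XL XU RL RU Q hrun hnk x0 x1 x2 r1 r2 y0 y1 y2 s1 s2 hlt hq τ hτ
    have hn : n < N := by omega
    unfold runUq at hrun
    simp only [force_eq] at hrun
    set kg := kLowU N n XL RL with hkg
    set RG := RL - dRg N n kg with hRG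
    set kl := kLowU N n XL RG with hkl
    set RL' := RL - dRup N n kl with hRL'
    set XU' := XU + dXup N n kl with hXU'
    set ku := kHighU N n XU' RU with hku
    set XL' := XL + dXlo N n ku with hXL'
    set RU' := RU - dRlo N n ku with hRU'
    set p1 := qP1 N n (aUp RL') with hp1
    set p3 := qP3 N n (aLo RU) Q with hp3
    set QG := Q + 2 * dQ N n (p1 + qP2 N n Q - p3) kl with hQG
    set Q' := Q + dQ N n (p1 + qP2 N n QG - p3) kl with hQ'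
    split at hrun
    · exact absurd hrun (by simp)
    · rename_i htest
      rw [Bool.and_eq_true, Bool.and_eq_true, Bool.and_eq_true] at htest
      obtain ⟨⟨⟨t1', t0'⟩, t2'⟩, t3'⟩ := htest
      have c1 : RG ≤ RL' := Nat.le_of_ble_eq_true t1'
      have c0 : R0 ≤ RG := Nat.le_of_ble_eq_true t0'
      have c2 : K0 ≤ kl := Nat.le_of_ble_eq_true t2'
      have c3 : Q' ≤ QG := Nat.le_of_ble_eq_true t3'
      obtain ⟨D1, lx1, lr1⟩ := up_step (XU := XU) (RU := RU) (RG := RG) hN hn h₁ c0 x1 x2 x0 r1 r2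
        c2 c1
      obtain ⟨D2, lx2, lr2⟩ := up_step (XU := XU) (RU := RU) (RG := RG) hN hn h₂ c0 y1 y2 y0 s1 s2
        c2 c1
      have hklpos : 0 < kl := lt_of_lt_of_le hK0 c2
      have hRLpos : 0 < RL' := lt_of_lt_of_le hR0 (c0.trans c1)
      have hklM : (0 : ℝ) < (kl : ℝ) / MM := div_pos (by exact_mod_cast hklpos) hMM
      have hRLM : (0 : ℝ) < (RL' : ℝ) / MM := div_pos (by exact_mod_cast hRLpos) hMM
      have hratio := ratio_step (au := aUp RL') (al := aLo RU) (kl := kl) (Q := Q) (QG := QG)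
        hN hn (pair_up t₁ t₂) hklpos
        (fun σ hσ => by
          have e1 := (D1.k σ hσ).1
          have e2 := (D2.k σ hσ).1
          show ((kl : ℝ) / MM) ^ 2 ≤ KU σ (X₁ σ) (R₁ σ) * KU σ (X₂ σ) (R₂ σ)
          rw [pow_two]
          exact mul_le_mul e1 e2 hklM.le (hklM.le.trans e1))
        (fun σ hσ => by
          have e1 := D1.r σ hσ
          have e2 := D2.r σ hσ
          show (aLo RU : ℝ) / MM ≤ 1 / 2 + 1 / (R₁ σ * R₂ σ) ∧
            1 / 2 + 1 / (R₁ σ * R₂ σ) ≤ (aUp RL' : ℝ) / MM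
          exact ⟨aLo_le (lt_of_lt_of_le hRLM e1.1) (lt_of_lt_of_le hRLM e2.1) e1.2 e2.2,
            aUp_ge hRLpos e1.1 e2.1⟩)
        (by
          show 0 < R₂ ((n : ℝ) / N) - R₁ ((n : ℝ) / N)
          linarith)
        hq c3
      obtain ⟨g1, g2⟩ := hratio
      have hcast : ((Nat.succ n : ℕ) : ℝ) / N = ((n : ℝ) + 1) / N := by
        rw [Nat.cast_succ]
      have hn0 : (0 : ℝ) ≤ n := Nat.cast_nonneg n
      have hnN : (n : ℝ) + 1 ≤ N := by exact_mod_cast hn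
      have ha0 : (0 : ℝ) ≤ (n : ℝ) / N := div_nonneg hn0 hN'.le
      have hab : (n : ℝ) / N ≤ ((n : ℝ) + 1) / N :=
        div_le_div_of_nonneg_right (by linarith) hN'.le
      have hb1 : ((n : ℝ) + 1) / N ≤ 1 := by
        rw [div_le_one hN']
        exact hnN
      have ham : (n : ℝ) / N ∈ Icc (0 : ℝ) 1 := ⟨ha0, hab.trans hb1⟩
      have hbm : ((n : ℝ) + 1) / N ∈ Icc (0 : ℝ) 1 := ⟨ha0.trans hab, hb1⟩
      have hbm' : ((n : ℝ) + 1) / N ∈ Icc ((n : ℝ) / N) (((n : ℝ) + 1) / N) := ⟨hab, le_rfl⟩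
      by_cases hτ2 : τ ≤ ((n : ℝ) + 1) / N
      · have h3 := g1 τ ⟨hτ.1, hτ2⟩
        have h4 : 0 < R₂ τ - R₁ τ := h3
        linarith
      · have hτ3 : ((n : ℝ) + 1) / N ≤ τ := (not_le.1 hτ2).le
        refine ih (Nat.succ n) XL' XU' RL' RU' Q' hrun (by omega)
          ?_ ?_ ?_ ?_ ?_ ?_ ?_ ?_ ?_ ?_ ?_ ?_ τ ⟨by rw [hcast]; exact hτ3, hτ.2⟩
        · rw [hcast]; exact x0.trans (hXm1 ham hbm hab)
        · rw [hcast]; exact lx1
        · rw [hcast]; exact (D1.x _ hbm').2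
        · rw [hcast]; exact (D1.r _ hbm').1
        · rw [hcast]; exact lr1
        · rw [hcast]; exact y0.trans (hXm2 ham hbm hab)
        · rw [hcast]; exact lx2
        · rw [hcast]; exact (D2.x _ hbm').2
        · rw [hcast]; exact (D2.r _ hbm').1
        · rw [hcast]; exact lr2
        · rw [hcast]
          have h3 : 0 < R₂ (((n : ℝ) + 1) / N) - R₁ (((n : ℝ) + 1) / N) := g1 _ hbm'
          linarith
        · rw [hcast]; exact g2

end AT
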