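import Pool.Agent.H.MP_ce2c94_gt.RunU
import Pool.Agent.H.MP_ce2c94_gt.RunUq
import Pool.Agent.H.MP_ce2c94_gt.PicC

/-!
# Boxes for the upper system
-/

namespace AT

open Real Set

/-- an upper solution starting at `(0, c)` -/
structure UpSol (c : ℝ) (X R : ℝ → ℝ) : Prop where
  tau : TauUp 1 X R
  cl : ClUp 1 X R
  x0 : X 0 = 0
  r0 : R 0 = c

theorem BoxU_KUc {τ x r : ℝ} (hK : 1 / 20 ≤ KU τ x r) (hr : 1 / 100 ≤ r) :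
    KUc τ x r = KU τ x r := by
  rw [KUc, max_eq_left hr, max_eq_right hK]

theorem BoxU_tau {T : ℝ} {X R : ℝ → ℝ} (h : ClUp 1 X R) (hT : T ≤ 1)
    (hK : ∀ τ ∈ Icc (0 : ℝ) T, 1 / 20 ≤ KU τ (X τ) (R τ) ∧ 1 / 100 ≤ R τ) : TauUp T X R := by
  have hsub : Icc (0 : ℝ) T ⊆ Icc 0 1 := Icc_subset_Icc_right hT
  refine ⟨fun τ hτ => lt_of_lt_of_le (by norm_num) (hK τ hτ).2, fun τ hτ => (hK τ hτ).1, ?_, ?_⟩
  · intro τ hτ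
    have h1 := (h.dX τ (hsub hτ)).mono hsub
    rwa [BoxU_KUc (hK τ hτ).1 (hK τ hτ).2] at h1
  · intro τ hτ
    have h1 := (h.dR τ (hsub hτ)).mono hsub
    rwa [BoxU_KUc (hK τ hτ).1 (hK τ hτ).2] at h1

theorem BoxU_le {X R : ℝ → ℝ} (h : ClUp 1 X R) (h0 : X 0 = 0) {T : ℝ} (hT0 : 0 ≤ T)
    (hT1 : T ≤ 1) : X T ≤ 80 := by
  have h1 := (convex_Icc (0 : ℝ) 1).norm_image_sub_le_of_norm_hasDerivWithin_le (C := 80)
    (fun τ hτ => h.dX τ hτ) (fun τ hτ => ?_) (x := 0) (y := T) ⟨le_rfl, zero_le_one⟩ ⟨hT0, hT1⟩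
  · rw [h0, sub_zero, sub_zero, Real.norm_eq_abs, Real.norm_eq_abs, abs_of_nonneg hT0] at h1
    have h2 := le_abs_self (X T)
    linarith
  · rw [Real.norm_eq_abs]
    refine PicC_bd ?_ ?_ ?_
    · rw [abs_le]
      constructor <;> nlinarith [hτ.1, hτ.2, sq_nonneg τ]
    · nlinarith [sq_nonneg τ]
    · rw [KUc]
      exact le_max_left _ _

/-- **An upper box with stopping rule**: `ex_clUp 0 c`, `runU_sound` with `k = N`, `n = 0`.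
`T > 0`, because `T = 0` would give `stopx/M ≤ X 0 = 0` or `0 = 1`. -/
theorem up_stop_box {N a b stopx : ℕ} {fin : ℕ → ℕ → ℕ → ℕ → Bool} (hN : 0 < N)
    (hr : runU N stopx fin N 0 0 0 a b = true) (ha : R0 ≤ a) (hs : 0 < stopx) {c : ℝ}
    (h1 : (a : ℝ) / MM ≤ c) (h2 : c ≤ (b : ℝ) / MM) : ∃ (T : ℝ) (X R : ℝ → ℝ), 0 < T ∧ T ≤ 1 ∧
      TauUp T X R ∧ ClUp 1 X R ∧ X 0 = 0 ∧ R 0 = c ∧ ((stopx : ℝ) / MM ≤ X T ∨ T = 1 ∧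
      ∃ XL XU RL RU : ℕ, fin XL XU RL RU = true ∧ (XL : ℝ) / MM ≤ X 1 ∧ X 1 ≤ (XU : ℝ) / MM ∧
        (RL : ℝ) / MM ≤ R 1 ∧ R 1 ≤ (RU : ℝ) / MM) := by
  obtain ⟨X, R, hX0, hR0, hcl⟩ := ex_clUp 0 c
  have e0 : ((0 : ℕ) : ℝ) / N = 0 := by simp
  have hrun := runU_sound hN hcl N 0 0 0 a b hr (Nat.zero_add N)
    (by rw [e0, hX0]) (by rw [e0, hX0]; simp) (by rw [e0, hX0]; simp)
    (by rw [e0, hR0]; exact h1) ha (by rw [e0, hR0]; exact h2)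
  rw [e0] at hrun
  obtain ⟨T, hT0, hT1, hK, hfin⟩ := hrun
  have hM : (0 : ℝ) < (MM : ℝ) := by norm_num [MM]
  have hT : 0 < T := by
    refine lt_of_le_of_ne hT0 ?_
    rintro rfl
    rcases hfin with hfin | hfin
    · rw [hX0] at hfin
      have : 0 < (stopx : ℝ) / MM := div_pos (by exact_mod_cast hs) hM
      linarith
    · exact zero_ne_one hfin.1
  refine ⟨T, X, R, hT, hT1, BoxU_tau hcl hT1 ?_, hcl, hX0, hR0, hfin⟩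
  intro τ hτ
  obtain ⟨h3, h4⟩ := hK τ hτ
  refine ⟨?_, h4⟩
  rcases h3 with h3 | ⟨h5, h6⟩
  · exact h3
  · rw [h5] at h6
    exact absurd h6 hT.ne'

/-- **An upper box** (`stopx = 10^12` is never reached: `X T ≤ 40 T ≤ 40 < 931 < stopx/M`,
because `X' ≤ 2/(1/20) = 40`). -/
theorem up_box {N a b : ℕ} {fin : ℕ → ℕ → ℕ → ℕ → Bool} (hN : 0 < N)
    (hr : runU N 1000000000000 fin N 0 0 0 a b = true) (ha : R0 ≤ a) {c : ℝ}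
    (h1 : (a : ℝ) / MM ≤ c) (h2 : c ≤ (b : ℝ) / MM) : ∃ X R : ℝ → ℝ, UpSol c X R ∧
      ∃ XL XU RL RU : ℕ, fin XL XU RL RU = true ∧ (XL : ℝ) / MM ≤ X 1 ∧ X 1 ≤ (XU : ℝ) / MM ∧
        (RL : ℝ) / MM ≤ R 1 ∧ R 1 ≤ (RU : ℝ) / MM := by
  obtain ⟨T, X, R, hT0, hT1, htau, hcl, hX0, hR0, hfin⟩ :=
    up_stop_box hN hr ha (by norm_num) h1 h2
  rcases hfin with hfin | ⟨hT, hfin⟩
  · have h3 := BoxU_le hcl hX0 hT0.le hT1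
    have h4 : (80 : ℝ) < ((1000000000000 : ℕ) : ℝ) / MM := by norm_num [MM]
    linarith
  · subst hT
    exact ⟨X, R, ⟨htau, hcl, hX0, hR0⟩, hfin⟩

/-- **Monotonicity in an upper box**: `runUq_sound` with `n = 0`, `Q = 0`, then `pair_pos`. -/
theorem up_box_mono {N a b : ℕ} (hN : 0 < N) (hr : runUq N N 0 0 0 a b 0 = true) (ha : R0 ≤ a)
    {c₁ c₂ : ℝ} {X₁ R₁ X₂ R₂ : ℝ → ℝ} (h1 : (a : ℝ) / MM ≤ c₁) (h12 : c₁ < c₂)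
    (h2 : c₂ ≤ (b : ℝ) / MM) (s₁ : UpSol c₁ X₁ R₁) (s₂ : UpSol c₂ X₂ R₂) :
    X₂ 1 < X₁ 1 ∧ R₁ 1 < R₂ 1 := by
  have e0 : ((0 : ℕ) : ℝ) / N = 0 := by simp
  have hrun := runUq_sound hN s₁.cl s₂.cl s₁.tau s₂.tau N 0 0 0 a b 0 hr (Nat.zero_add N)
    (by rw [e0, s₁.x0]) (by rw [e0, s₁.x0]; simp) (by rw [e0, s₁.x0]; simp)
    (by rw [e0, s₁.r0]; exact h1) (by rw [e0, s₁.r0]; exact h12.le.trans h2)
    (by rw [e0, s₂.x0]) (by rw [e0, s₂.x0]; simp) (by rw [e0, s₂.x0]; simp)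
    (by rw [e0, s₂.r0]; exact h1.trans h12.le) (by rw [e0, s₂.r0]; exact h2)
    (by rw [e0, s₁.r0, s₂.r0]; exact h12)
    (by rw [e0, s₁.x0, s₂.x0]; simp)
  rw [e0] at hrun
  have h3 := pair_pos (pair_up s₁.tau s₂.tau) (by simp only [s₁.x0, s₂.x0, sub_self])
    (fun τ hτ => sub_pos.2 (hrun τ hτ))
  exact ⟨sub_pos.1 h3, hrun 1 ⟨zero_le_one, le_rfl⟩⟩

end AT
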