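import Pool.Agent.H.MP_ce2c94_gt.Chain0

/-!
# Certificates (kernel computations)
-/

namespace AT

set_option maxRecDepth 100000

theorem certA_1 : chain fA 322122547
    [(250, 10737418), (250, 8053063), (500, 13421772), (500, 8053063), (500, 8053063), (500,
     5368709), (500, 4294967)] = true := by
  decide +kernel

theorem certA_2 : chain fA 380104602
    [(1000, 6442454)] = true := by
  decide +kernel

end AT
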