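import Pool.Agent.H.MP_ce2c94_gt.Chain0

/-!
# Certificates (kernel computations)
-/

namespace AT

set_option maxRecDepth 100000

theorem certB_1 : chain fB 107374182
    [(250, 64424509), (250, 85899345), (250, 42949672), (250, 21474839)] = true := by
  decide +kernel

end AT
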