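import Pool.Agent.H.MP_ce2c94_gt.Chain0

/-!
# Certificates (kernel computations)
-/

namespace AT

set_option maxRecDepth 100000

theorem certC1_1 : chain fC1 579820584
    [(1000, 10737418), (500, 8053063), (500, 10737418), (500, 13421772), (500, 16106127)] = true := by
  decide +kernel

theorem certC1_2 : chain fC1 638876382
    [(500, 16106127), (250, 13421772), (250, 16106127), (250, 16106127), (250, 16106127), (250,
     21474836), (250, 21474836), (250, 16106127), (250, 13421772), (500, 16106127)] = true := by
  decide +kernel

theorem certC1_3 : chain fC1 805306360
    [(500, 13421772), (500, 8053063), (1000, 10737418), (500, 3221225)] = true := by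
  decide +kernel

theorem certC1_4 : chain fC1 840739838
    [(1000, 5368709), (1000, 4294967), (1000, 3221225)] = true := by
  decide +kernel

theorem certC1_5 : chain fC1 853624739
    [(1000, 2684354), (2000, 4294967)] = true := by
  decide +kernel

theorem certC1_6 : chain fC1 860604060
    [(2000, 2684354)] = true := by
  decide +kernel

theorem certC1_7 : chain fC1 863288414
    [(2000, 1073755)] = true := by
  decide +kernel

end AT
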