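import Pool.Agent.H.MP_ce2c94_gt.Chain0

/-!
# Certificates (kernel computations)
-/

namespace AT

set_option maxRecDepth 100000

theorem certC2_1 : chain fC2 864362169
    [(250, 21474836), (250, 21474836), (250, 16106127), (250, 16106127), (250, 13421772), (250,
     13421772), (500, 21474836), (500, 16106127), (500, 16106127)] = true := by
  decide +kernel

theorem certC2_2 : chain fC2 1020054729
    [(500, 13421772), (500, 10737418), (500, 10737418), (500, 8053063), (500, 8053063), (500,
     2684361)] = true := by
  decide +kernel

end AT
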