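import Pool.Agent.H.MP_ce2c94_gt.Chain0

/-!
# Certificates (kernel computations)
-/

namespace AT

set_option maxRecDepth 100000

theorem certQ_1 : chain fQ 386547056
    [(500, 8053063), (500, 13421772), (500, 16106127), (250, 13421772), (250, 16106127), (250,
     21474836), (250, 16106127)] = true := by
  decide +kernel

theorem certQ_2 : chain fQ 491236880
    [(250, 13421772), (500, 16106127), (500, 13421772), (500, 10737418), (500, 8053063)] = true := by
  decide +kernel

theorem certQ_3 : chain fQ 552977032
    [(500, 8053063), (1000, 10737418), (1000, 8053071)] = true := by
  decide +kernel

end AT
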