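import Pool.Agent.H.MP_ce2c94_gt.Chain0

/-!
# Certificates (kernel computations)
-/

namespace AT

set_option maxRecDepth 100000

theorem certU0_1 : chain fU0 2147483648
    [(1000, 8053063), (2000, 10737418)] = true := by
  decide +kernel

theorem certU0_2 : chain fU0 2166274129
    [(2000, 10737418), (1000, 5368709)] = true := by
  decide +kernel

theorem certU0_3 : chain fU0 2182380256
    [(1000, 5368709), (1000, 5368709), (1000, 5368709)] = true := by
  decide +kernel

theorem certU0_4 : chain fU0 2198486383
    [(1000, 5368709), (2000, 10737418)] = true := by
  decide +kernel

theorem certU0_5 : chain fU0 2214592510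
    [(1000, 8053063), (1000, 10737418), (1000, 16106127)] = true := by
  decide +kernel

theorem certU0_6 : chain fU0 2249489118
    [(500, 5368713)] = true := by
  decide +kernel

end AT
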