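import Pool.Agent.H.MP_ce2c94_gt.Chain0

/-!
# Certificates (kernel computations)
-/

namespace AT

set_option maxRecDepth 100000

theorem certU1_1 : chain fU1 2254857830
    [(2000, 10737418), (1000, 13421772)] = true := by
  decide +kernel

theorem certU1_2 : chain fU1 2279017020
    [(500, 13421772), (500, 21474836), (500, 42949672), (250, 53687091), (250, 85899345), (250,
     107374182), (250, 107374182), (250, 107374182), (250, 107374182), (250, 107374182)] = true := by
  decide +kernel

theorem certU1_3 : chain fU1 3033320646
    [(250, 107374182), (250, 107374182), (250, 64424509), (250, 16106127), (500, 10737426)] = true := by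
  decide +kernel

end AT
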