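import Pool.Agent.H.MP_ce2c94_gt.Chain0

/-!
# Certificates (kernel computations)
-/

namespace AT

set_option maxRecDepth 100000

theorem certU2_1 : chain fU2 3854733148
    [(250, 107374182), (250, 107374182), (250, 107374182), (250, 107374182), (500, 64424509),
     (250, 107374182), (250, 107374182), (250, 107374182), (250, 107374182), (250, 107374182),
     (250, 107374182), (250, 107374182)] = true := by
  decide +kernel

theorem certU2_2 : chain fU2 5100273659
    [(250, 107374182), (250, 107374182), (250, 107374182), (250, 107374182), (250, 107374182),
     (250, 107374182), (250, 107374182), (250, 53687100)] = true := by
  decide +kernel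

end AT
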