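import Pool.Agent.H.MP_ce2c94_gt.Chain0

/-!
# Certificates (kernel computations)
-/

namespace AT

set_option maxRecDepth 100000

theorem certX1_10 : chain fX1 1986422371
    [(1, 107374182)] = true := by
  decide +kernel

theorem certX1_11 : chain fX1 2093796553
    [(1, 32212254)] = true := by
  decide +kernel

theorem certX1_12 : chain fX1 2126008807
    [(1, 21474842)] = true := by
  decide +kernel

end AT
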