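import Pool.Agent.H.MP_ce2c94_gt.ChInd
import Pool.Agent.H.MP_ce2c94_gt.CeAa

/-!
# Assembled certificate
-/

namespace AT

set_option maxRecDepth 100000

def lA : List (ℕ × ℕ) :=
  [(250, 10737418), (250, 8053063), (500, 13421772), (500, 8053063), (500, 8053063), (500,
    5368709), (500, 4294967)] ++
  ([(1000, 6442454)])

theorem endA : chainEnd 322122547 lA = 386547056 := by decide +kernel

theorem neA : lA ≠ [] := by decide +kernel

theorem certA : chain fA 322122547 lA = true := by
  unfold lA
  exact chain_app certA_1 (by decide +kernel)
    (certA_2)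

end AT
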