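import Pool.Agent.H.MP_ce2c94_gt.ChInd
import Pool.Agent.H.MP_ce2c94_gt.CeBa

/-!
# Assembled certificate
-/

namespace AT

set_option maxRecDepth 100000

def lB : List (ℕ × ℕ) :=
  [(250, 64424509), (250, 85899345), (250, 42949672), (250, 21474839)]

theorem endB : chainEnd 107374182 lB = 322122547 := by decide +kernel

theorem neB : lB ≠ [] := by decide +kernel

theorem certB : chain fB 107374182 lB = true := by
  unfold lB
  exact certB_1

end AT
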