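import Pool.Agent.H.MP_ce2c94_gt.ChInd
import Pool.Agent.H.MP_ce2c94_gt.CeC1a

/-!
# Assembled certificate
-/

namespace AT

set_option maxRecDepth 100000

def lC1 : List (ℕ × ℕ) :=
  [(1000, 10737418), (500, 8053063), (500, 10737418), (500, 13421772), (500, 16106127)] ++
  ([(500, 16106127), (250, 13421772), (250, 16106127), (250, 16106127), (250, 16106127), (250,
    21474836), (250, 21474836), (250, 16106127), (250, 13421772), (500, 16106127)] ++
  ([(500, 13421772), (500, 8053063), (1000, 10737418), (500, 3221225)] ++
  ([(1000, 5368709), (1000, 4294967), (1000, 3221225)] ++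
  ([(1000, 2684354), (2000, 4294967)] ++
  ([(2000, 2684354)] ++
  ([(2000, 1073755)]))))))

theorem endC1 : chainEnd 579820584 lC1 = 864362169 := by decide +kernel

theorem neC1 : lC1 ≠ [] := by decide +kernel

theorem certC1 : chain fC1 579820584 lC1 = true := by
  unfold lC1
  exact chain_app certC1_1 (by decide +kernel)
    (chain_app certC1_2 (by decide +kernel)
    (chain_app certC1_3 (by decide +kernel)
    (chain_app certC1_4 (by decide +kernel)
    (chain_app certC1_5 (by decide +kernel)
    (chain_app certC1_6 (by decide +kernel)
    (certC1_7))))))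

end AT
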