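import Pool.Agent.H.MP_ce2c94_gt.ChInd
import Pool.Agent.H.MP_ce2c94_gt.CeC2a

/-!
# Assembled certificate
-/

namespace AT

set_option maxRecDepth 100000

def lC2 : List (ℕ × ℕ) :=
  [(250, 21474836), (250, 21474836), (250, 16106127), (250, 16106127), (250, 13421772), (250,
    13421772), (500, 21474836), (500, 16106127), (500, 16106127)] ++
  ([(500, 13421772), (500, 10737418), (500, 10737418), (500, 8053063), (500, 8053063), (500,
    2684361)])

theorem endC2 : chainEnd 864362169 lC2 = 1073741824 := by decide +kernel

theorem neC2 : lC2 ≠ [] := by decide +kernel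

theorem certC2 : chain fC2 864362169 lC2 = true := by
  unfold lC2
  exact chain_app certC2_1 (by decide +kernel)
    (certC2_2)

end AT
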