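import Pool.Agent.H.MP_ce2c94_gt.ChInd
import Pool.Agent.H.MP_ce2c94_gt.CeQa

/-!
# Assembled certificate
-/

namespace AT

set_option maxRecDepth 100000

def lQ : List (ℕ × ℕ) :=
  [(500, 8053063), (500, 13421772), (500, 16106127), (250, 13421772), (250, 16106127), (250,
    21474836), (250, 16106127)] ++
  ([(250, 13421772), (500, 16106127), (500, 13421772), (500, 10737418), (500, 8053063)] ++
  ([(500, 8053063), (1000, 10737418), (1000, 8053071)]))

theorem endQ : chainEnd 386547056 lQ = 579820584 := by decide +kernel

theorem neQ : lQ ≠ [] := by decide +kernel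

theorem certQ : chain fQ 386547056 lQ = true := by
  unfold lQ
  exact chain_app certQ_1 (by decide +kernel)
    (chain_app certQ_2 (by decide +kernel)
    (certQ_3))

end AT
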