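import Pool.Agent.H.MP_ce2c94_gt.ChInd
import Pool.Agent.H.MP_ce2c94_gt.CeU0a

/-!
# Assembled certificate
-/

namespace AT

set_option maxRecDepth 100000

def lU0 : List (ℕ × ℕ) :=
  [(1000, 8053063), (2000, 10737418)] ++
  ([(2000, 10737418), (1000, 5368709)] ++
  ([(1000, 5368709), (1000, 5368709), (1000, 5368709)] ++
  ([(1000, 5368709), (2000, 10737418)] ++
  ([(1000, 8053063), (1000, 10737418), (1000, 16106127)] ++
  ([(500, 5368713)])))))

theorem endU0 : chainEnd 2147483648 lU0 = 2254857831 := by decide +kernel

theorem neU0 : lU0 ≠ [] := by decide +kernel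

theorem certU0 : chain fU0 2147483648 lU0 = true := by
  unfold lU0
  exact chain_app certU0_1 (by decide +kernel)
    (chain_app certU0_2 (by decide +kernel)
    (chain_app certU0_3 (by decide +kernel)
    (chain_app certU0_4 (by decide +kernel)
    (chain_app certU0_5 (by decide +kernel)
    (certU0_6)))))

end AT
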