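import Pool.Agent.H.MP_ce2c94_gt.ChInd
import Pool.Agent.H.MP_ce2c94_gt.CeU1a

/-!
# Assembled certificate
-/

namespace AT

set_option maxRecDepth 100000

def lU1 : List (ℕ × ℕ) :=
  [(2000, 10737418), (1000, 13421772)] ++
  ([(500, 13421772), (500, 21474836), (500, 42949672), (250, 53687091), (250, 85899345), (250,
    107374182), (250, 107374182), (250, 107374182), (250, 107374182), (250, 107374182)] ++
  ([(250, 107374182), (250, 107374182), (250, 64424509), (250, 16106127), (500, 10737426)]))

theorem endU1 : chainEnd 2254857830 lU1 = 3339337072 := by decide +kernel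

theorem neU1 : lU1 ≠ [] := by decide +kernel

theorem certU1 : chain fU1 2254857830 lU1 = true := by
  unfold lU1
  exact chain_app certU1_1 (by decide +kernel)
    (chain_app certU1_2 (by decide +kernel)
    (certU1_3))

end AT
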