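import Pool.Agent.H.MP_ce2c94_gt.ChInd
import Pool.Agent.H.MP_ce2c94_gt.CeU2a

/-!
# Assembled certificate
-/

namespace AT

set_option maxRecDepth 100000

def lU2 : List (ℕ × ℕ) :=
  [(250, 107374182), (250, 107374182), (250, 107374182), (250, 107374182), (500, 64424509),
    (250, 107374182), (250, 107374182), (250, 107374182), (250, 107374182), (250, 107374182),
    (250, 107374182), (250, 107374182)] ++
  ([(250, 107374182), (250, 107374182), (250, 107374182), (250, 107374182), (250, 107374182),
    (250, 107374182), (250, 107374182), (250, 53687100)])

theorem endU2 : chainEnd 3854733148 lU2 = 5905580033 := by decide +kernel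

theorem neU2 : lU2 ≠ [] := by decide +kernel

theorem certU2 : chain fU2 3854733148 lU2 = true := by
  unfold lU2
  exact chain_app certU2_1 (by decide +kernel)
    (certU2_2)

end AT
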