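import Pool.Agent.H.MP_ce2c94_gt.ChInd
import Pool.Agent.H.MP_ce2c94_gt.CeUQa

/-!
# Assembled certificate
-/

namespace AT

set_option maxRecDepth 100000

def lUQ : List (ℕ × ℕ) :=
  [(250, 107374182), (250, 107374182), (250, 107374182), (250, 107374182), (250, 85899348)]

theorem endUQ : chainEnd 3339337072 lUQ = 3854733148 := by decide +kernel

theorem neUQ : lUQ ≠ [] := by decide +kernel

theorem certUQ : chain fUQ 3339337072 lUQ = true := by
  unfold lUQ
  exact certUQ_1

end AT
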