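import Pool.Agent.H.MP_ce2c94_gt.ChInd
import Pool.Agent.H.MP_ce2c94_gt.CeX1a
import Pool.Agent.H.MP_ce2c94_gt.CeX1b
import Pool.Agent.H.MP_ce2c94_gt.CeX1c
import Pool.Agent.H.MP_ce2c94_gt.CeX1d

/-!
# Assembled certificate
-/

namespace AT

set_option maxRecDepth 100000

def lX1 : List (ℕ × ℕ) :=
  [(1, 53687091)] ++
  ([(1, 107374182)] ++
  ([(1, 107374182)] ++
  ([(1, 107374182)] ++
  ([(1, 107374182)] ++
  ([(1, 107374182)] ++
  ([(1, 107374182)] ++
  ([(1, 107374182)] ++
  ([(1, 107374182)] ++
  ([(1, 107374182)] ++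
  ([(1, 32212254)] ++
  ([(1, 21474842)])))))))))))

theorem endX1 : chainEnd 1073741824 lX1 = 2147483649 := by decide +kernel

theorem neX1 : lX1 ≠ [] := by decide +kernel

theorem certX1 : chain fX1 1073741824 lX1 = true := by
  unfold lX1
  exact chain_app certX1_1 (by decide +kernel)
    (chain_app certX1_2 (by decide +kernel)
    (chain_app certX1_3 (by decide +kernel)
    (chain_app certX1_4 (by decide +kernel)
    (chain_app certX1_5 (by decide +kernel)
    (chain_app certX1_6 (by decide +kernel)
    (chain_app certX1_7 (by decide +kernel)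
    (chain_app certX1_8 (by decide +kernel)
    (chain_app certX1_9 (by decide +kernel)
    (chain_app certX1_10 (by decide +kernel)
    (chain_app certX1_11 (by decide +kernel)
    (certX1_12)))))))))))

end AT
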