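import Pool.Agent.H.MP_ce2c94_gt.ChInd
import Pool.Agent.H.MP_ce2c94_gt.CeX2a
import Pool.Agent.H.MP_ce2c94_gt.CeX2b

/-!
# Assembled certificate
-/

namespace AT

set_option maxRecDepth 100000

def lX2 : List (ℕ × ℕ) :=
  [(1, 53687091)] ++
  ([(1, 32212254)] ++
  ([(1, 16106127)] ++
  ([(1, 5368711)])))

theorem endX2 : chainEnd 2147483648 lX2 = 2254857831 := by decide +kernel

theorem neX2 : lX2 ≠ [] := by decide +kernel

theorem certX2 : chain fX2 2147483648 lX2 = true := by
  unfold lX2
  exact chain_app certX2_1 (by decide +kernel)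
    (chain_app certX2_2 (by decide +kernel)
    (chain_app certX2_3 (by decide +kernel)
    (certX2_4)))

end AT
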