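import Pool.Agent.H.MP_ce2c94_gt.ChInd
import Pool.Agent.H.MP_ce2c94_gt.CeX3a
import Pool.Agent.H.MP_ce2c94_gt.CeX3b
import Pool.Agent.H.MP_ce2c94_gt.CeX3c
import Pool.Agent.H.MP_ce2c94_gt.CeX3d
import Pool.Agent.H.MP_ce2c94_gt.CeX3e
import Pool.Agent.H.MP_ce2c94_gt.CeX3f
import Pool.Agent.H.MP_ce2c94_gt.CeX3g

/-!
# Assembled certificate
-/

namespace AT

set_option maxRecDepth 100000

def lX3 : List (ℕ × ℕ) :=
  [(1, 5368709)] ++
  ([(1, 8053063)] ++
  ([(1, 13421772)] ++
  ([(1, 21474836)] ++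
  ([(1, 42949672)] ++
  ([(1, 85899345)] ++
  ([(1, 32212260)]))))))

theorem endX3 : chainEnd 864362168 lX3 = 1073741825 := by decide +kernel

theorem neX3 : lX3 ≠ [] := by decide +kernel

theorem certX3 : chain fX3 864362168 lX3 = true := by
  unfold lX3
  exact chain_app certX3_1 (by decide +kernel)
    (chain_app certX3_2 (by decide +kernel)
    (chain_app certX3_3 (by decide +kernel)
    (chain_app certX3_4 (by decide +kernel)
    (chain_app certX3_5 (by decide +kernel)
    (chain_app certX3_6 (by decide +kernel)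
    (certX3_7))))))

end AT
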