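import Pool.Agent.H.MP_ce2c94_gt.Chain

/-!
# Induction along a chain
-/

namespace AT

theorem chain_ind {f : ℕ → ℕ → ℕ → Bool} {P : ℕ → ℕ → Prop}
    (hf : ∀ N a b, 0 < N → a ≤ b → f N a b = true → P a b)
    (ht : ∀ a b d, a ≤ b → b ≤ d → P a b → P b d → P a d) :
    ∀ l c, l ≠ [] → chain f c l = true → P c (chainEnd c l) := by
  intro l
  induction l with
  | nil => intro c h; exact absurd rfl h
  | cons a l ih =>
    obtain ⟨N, w⟩ := a
    intro c _ h
    simp only [chain, Bool.and_eq_true] at h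
    obtain ⟨hN, h1, h2⟩ := h
    have h3 := hf N c (c + w) (Nat.le_of_ble_eq_true hN) (Nat.le_add_right c w) h1
    by_cases hl : l = []
    · subst hl; exact h3
    · exact ht c (c + w) _ (Nat.le_add_right c w) (chainEnd_ge l (c + w)) h3 (ih (c + w) hl h2)

/-- concatenation of chains -/
theorem chain_app {f : ℕ → ℕ → ℕ → Bool} {l₁ l₂ : List (ℕ × ℕ)} : ∀ {c d : ℕ},
    chain f c l₁ = true → chainEnd c l₁ = d → chain f d l₂ = true →
    chain f c (l₁ ++ l₂) = true := by
  induction l₁ with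
  | nil => intro c d _ h2 h3; rw [chainEnd] at h2; rw [h2]; exact h3
  | cons a l ih =>
    obtain ⟨N, w⟩ := a
    intro c d h1 h2 h3
    rw [List.cons_append]
    simp only [chain, Bool.and_eq_true] at h1 ⊢
    exact ⟨h1.1, h1.2.1, ih h1.2.2 h2 h3⟩

end AT
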