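import Pool.Agent.H.MP_ce2c94_gt.Prog

/-!
# Chains of boxes: definitions
-/

namespace AT

/-- `f N a b` for consecutive boxes `[a, b]` with given step numbers and widths -/
def chain (f : ℕ → ℕ → ℕ → Bool) : ℕ → List (ℕ × ℕ) → Bool
  | _, [] => true
  | c, (N, w) :: l => Nat.ble 1 N && (f N c (c + w) && chain f (c + w) l)

/-- right end of a chain -/
def chainEnd : ℕ → List (ℕ × ℕ) → ℕ
  | c, [] => c
  | c, (_, w) :: l => chainEnd (c + w) l

/-- final tests -/
def finB (_ XU _ RU : ℕ) : Bool := Nat.ble XU 794568949 && Nat.ble RU 3006477107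
def finA (_ XU _ RU : ℕ) : Bool := Nat.ble XU 934155386 && Nat.ble RU 2126008811
def finC1 (XL XU RL _ : ℕ) : Bool := Nat.ble 1041529570 XL && Nat.ble 2276332667 RL &&
  Nat.ble XU 1825361100
def finC2 (XL _ RL _ : ℕ) : Bool := Nat.ble 1041529570 XL && Nat.ble 2276332667 RL
def finQ (_ XU RL RU : ℕ) : Bool := Nat.ble 1964947538 RL && Nat.ble RU 2458868776 &&
  Nat.ble XU 1825361100
def finU (XL XU RL RU : ℕ) : Bool :=
  (Nat.ble 795642692 XL || Nat.ble 3007550849 RL) &&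
  (Nat.ble 935229128 XL || Nat.ble 2127082553 RL) &&
  (Nat.ble XU 1040455829 || Nat.ble RU 2275258926) && Nat.ble XU 1943472701
def finU1 (XL XU RL RU : ℕ) : Bool := finU XL XU RL RU && Nat.ble RU 1963873796
def finU2 (XL XU RL RU : ℕ) : Bool := finU XL XU RL RU && Nat.ble 2459942519 RL
def finT (_ _ _ _ : ℕ) : Bool := true

def fB (N a b : ℕ) : Bool := runL N finB N 0 0 0 a b
def fA (N a b : ℕ) : Bool := runL N finA N 0 0 0 a b
def fC1 (N a b : ℕ) : Bool := runL N finC1 N 0 0 0 a b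
def fC2 (N a b : ℕ) : Bool := runL N finC2 N 0 0 0 a b
def fQ (N a b : ℕ) : Bool := runL N finQ N 0 0 0 a b && runLq N N 0 0 0 a b 0
def fU1 (N a b : ℕ) : Bool := runU N 1000000000000 finU1 N 0 0 0 a b
def fU2 (N a b : ℕ) : Bool := runU N 1000000000000 finU2 N 0 0 0 a b
def fUQ (N a b : ℕ) : Bool := runU N 1000000000000 finU N 0 0 0 a b && runUq N N 0 0 0 a b 0
/-- stops at `x ≥ 1.81` -/
def fU0 (N a b : ℕ) : Bool := runU N 1943472702 finT N 0 0 0 a b
/-- graph up to `x = 1.81 = 724/400`, `u ≤ 2.11` -/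
def fX1 (_ a b : ℕ) : Bool := runX 400 2265595248 724 0 a b 0 0
/-- graph up to `x = 1.7 = 680/400`, `u ≤ 2.11` -/
def fX2 (_ a b : ℕ) : Bool := runX 400 2265595248 680 0 a b 0 0
/-- graph up to `x = 1.62 = 1296/800`, `u ≤ 5` -/
def fX3 (_ a b : ℕ) : Bool := runX 800 5368709120 1296 0 a b 0 0

end AT
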