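import Mathlib
import Pool.Agent.H.MP_ce2c94_gt.Chain0

/-!
# Chains of boxes
-/

namespace AT

theorem chainEnd_ge (l : List (ℕ × ℕ)) : ∀ c, c ≤ chainEnd c l := by
  induction l with
  | nil => intro c; exact le_rfl
  | cons a l ih => intro c; obtain ⟨N, w⟩ := a; exact le_trans (Nat.le_add_right c w) (ih (c + w))

theorem chain_cover {f : ℕ → ℕ → ℕ → Bool} (l : List (ℕ × ℕ)) : ∀ c, chain f c l = true →
    l ≠ [] → ∀ z : ℝ, (c : ℝ) / MM ≤ z → z ≤ (chainEnd c l : ℝ) / MM →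
    ∃ N a b : ℕ, 0 < N ∧ c ≤ a ∧ b ≤ chainEnd c l ∧ f N a b = true ∧
      (a : ℝ) / MM ≤ z ∧ z ≤ (b : ℝ) / MM := by
  induction l with
  | nil => intro c _ h; exact absurd rfl h
  | cons a l ih =>
    obtain ⟨N, w⟩ := a
    intro c h _ z hz1 hz2
    simp only [chain, Bool.and_eq_true] at h
    obtain ⟨hN, h1, h2⟩ := h
    have hN' : 0 < N := Nat.le_of_ble_eq_true hN
    by_cases hc : z ≤ ((c + w : ℕ) : ℝ) / MM
    · exact ⟨N, c, c + w, hN', le_rfl, chainEnd_ge l (c + w), h1, hz1, hc⟩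
    · push Not at hc
      by_cases hl : l = []
      · subst hl
        exact absurd hz2 (not_le.mpr hc)
      · obtain ⟨N', a, b, h0, h1', h2', h3, h4, h5⟩ := ih (c + w) h2 hl z hc.le hz2
        exact ⟨N', a, b, h0, le_trans (Nat.le_add_right c w) h1', h2', h3, h4, h5⟩

end AT
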