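import Pool.Agent.H.MP_ce2c94_gt.D3Fin
import Pool.Agent.H.MP_ce2c94_gt.h46.Prog

/-!
Tables of integers as elements of the Wiener algebra.
-/

open Set Filter Topology

namespace D3

open AddMonoidAlgebra Pool.MP_ce2c94_gt.D3W Pool.Agent.H.MP_ce2c94_gt.h46

/-- integer Laurent polynomials as real ones -/
noncomputable def iL : T →+* L := AddMonoidAlgebra.mapRingHom (ℤ × ℤ) (Int.castRingHom ℝ)

/-- integer Laurent polynomials as elements of the Wiener algebra -/
noncomputable def iW : T →+* W := (toW : L →ₐ[ℝ] W).toRingHom.comp iL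

theorem coeff_iL (c : T) (k : ℤ × ℤ) : (iL c).coeff k = (c.coeff k : ℝ) := by
  simp [iL]

theorem coef_iW (k : ℤ × ℤ) (c : T) : coef k (iW c) = (c.coeff k : ℝ) := by
  change coef k (toW (iL c)) = _
  rw [coef_toW, coeff_iL]

theorem norm_iW_le {c : T} {I J : ℕ} (h : InBox c I J) :
    ‖iW c‖ ≤ nu ^ (I + J) * nrm c := by
  change ‖toW (iL c)‖ ≤ _
  rw [norm_toW, N_eq (iL c) (s := c.coeff.support) (by
    intro k hk
    rw [Finsupp.mem_support_iff] at hk ⊢
    intro h0
    apply hk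
    rw [coeff_iL, h0, Int.cast_zero]), nrm]
  push_cast
  rw [Finset.mul_sum]
  refine Finset.sum_le_sum fun k hk => ?_
  rw [Finsupp.mem_support_iff] at hk
  obtain ⟨h1, h2⟩ := h k hk
  rw [coeff_iL, mul_comm]
  refine mul_le_mul ?_ (le_of_eq ?_) (abs_nonneg _) (pow_nonneg nu_pos.le _)
  · exact pow_le_pow_right₀ one_le_nu (by omega)
  · rw [Nat.cast_natAbs]
    push_cast
    rfl

/-- the algebra of helper46's programs -/
noncomputable def algW (P : Par) (h : nu ^ (P.I0 + P.J0) ≤ 1 + 1 / 2 ^ P.k) : Alg P W where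
  ι := iW
  bd := fun _ hc => (norm_iW_le hc).trans (mul_le_mul_of_nonneg_right h (Nat.cast_nonneg _))

theorem nu_pow_le {n k : ℕ} (h : n * 2 ^ (k + 1) ≤ 2 ^ 20) : nu ^ n ≤ 1 + 1 / 2 ^ k := by
  have h1 : nu ^ n ≤ Real.exp (n / 2 ^ 20) := by
    have h2 : nu ≤ Real.exp (1 / 2 ^ 20) := by
      have := Real.add_one_le_exp (1 / 2 ^ 20 : ℝ)
      unfold nu
      linarith
    calc nu ^ n ≤ Real.exp (1 / 2 ^ 20) ^ n := pow_le_pow_left₀ nu_pos.le h2 n
      _ = Real.exp (n / 2 ^ 20) := by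
        rw [← Real.exp_nat_mul]
        congr 1
        ring
  have h3 : (n : ℝ) / 2 ^ 20 ≤ 1 / 2 ^ (k + 1) := by
    rw [div_le_div_iff₀ (by positivity) (by positivity), one_mul]
    exact_mod_cast h
  have h4 : (1 : ℝ) / 2 ^ (k + 1) ≤ 1 / 2 := by
    rw [pow_succ, one_div_le_one_div (by positivity) (by positivity)]
    have : (1 : ℝ) ≤ 2 ^ k := one_le_pow₀ (by norm_num)
    linarith
  have h5 : Real.exp (n / 2 ^ 20) ≤ Real.exp (1 / 2 ^ (k + 1)) := Real.exp_le_exp.mpr h3
  have h6 : Real.exp (1 / 2 ^ (k + 1)) ≤ 1 + 1 / 2 ^ k := by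
    set x : ℝ := 1 / 2 ^ (k + 1) with hx
    have hx0 : 0 ≤ x := by positivity
    have e : (1 : ℝ) / 2 ^ k = 2 * x := by
      rw [hx, pow_succ]
      field_simp
    rw [e]
    have h7 := Real.one_sub_le_exp_neg x
    have h8 : Real.exp x * Real.exp (-x) = 1 := by rw [← Real.exp_add, add_neg_cancel, Real.exp_zero]
    have h9 : 0 < Real.exp x := Real.exp_pos x
    have h10 : Real.exp x * (1 - x) ≤ 1 :=
      (mul_le_mul_of_nonneg_left h7 h9.le).trans h8.le
    have h11 : 1 ≤ (1 + 2 * x) * (1 - x) := by nlinarith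
    have h12 : 0 < 1 - x := by linarith
    by_contra hc
    push Not at hc
    have := mul_lt_mul_of_pos_right hc h12
    linarith
  linarith

/-- the table of a base function -/
noncomputable def baseW (B : Base) (a c : ℕ) : W :=
  (((2 : ℝ) ^ B.p)⁻¹) • iW (DD a c (tab B.I B.J B.ε B.δ (qf B.N B.w (B.I + 1))))

/-- the jet of a base function -/
noncomputable def baseJ (B : Base) : HJet W where
  f := baseW B 0 0
  fu := baseW B 1 0
  ft := baseW B 0 1
  fuu := baseW B 2 0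
  fut := baseW B 1 1
  ftt := baseW B 0 2

theorem coeff_DD (a c : ℕ) (x : T) (k : ℤ × ℤ) :
    (DD a c x).coeff k = k.1 ^ a * (k.2 ^ c * x.coeff k) := by
  have h2 : ∀ c : ℕ, (D2^[c] x).coeff k = k.2 ^ c * x.coeff k := by
    intro c
    induction c with
    | zero => simp
    | succ c ih =>
      rw [Function.iterate_succ_apply', coeff_D2, ih]
      ring
  have h1 : ∀ (a : ℕ) (y : T), (D1^[a] y).coeff k = k.1 ^ a * y.coeff k := by
    intro a y
    induction a with
    | zero => simp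
    | succ a ih =>
      rw [Function.iterate_succ_apply', coeff_D1, ih]
      ring
  rw [DD, h1, h2]

theorem coef_baseW (B : Base) (a c : ℕ) (k : ℤ × ℤ) :
    coef k (baseW B a c) = (k.1 : ℝ) ^ a * ((k.2 : ℝ) ^ c * coef k (baseW B 0 0)) := by
  unfold baseW
  rw [map_smul, map_smul, coef_iW, coef_iW, coeff_DD, coeff_DD]
  simp only [smul_eq_mul]
  push_cast
  ring

theorem baseJ_jet (B : Base) : WJet (baseJ B) where
  u := fun k => by
    have := coef_baseW B 1 0 k
    simpa [baseJ] using this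
  t := fun k => by
    have := coef_baseW B 0 1 k
    simpa [baseJ] using this
  uu := fun k => by
    have := coef_baseW B 2 0 k
    simp only [baseJ]
    rw [this]
    ring
  ut := fun k => by
    have := coef_baseW B 1 1 k
    simp only [baseJ]
    rw [this]
    ring
  tt := fun k => by
    have := coef_baseW B 0 2 k
    simp only [baseJ]
    rw [this]
    ring

/-- the reflection of the exponents -/
theorem coeff_quad_neg (ε δ : ℤ) (hε : ε * ε = 1) (hδ : δ * δ = 1) (i j : ℕ) (a : ℤ)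
    (k : ℤ × ℤ) : (quad ε δ i j a).coeff (-k) = ε * δ * (quad ε δ i j a).coeff k := by
  have hs : ∀ (p : ℤ × ℤ) (x : ℤ) (q : ℤ × ℤ),
      (single p x : T).coeff q = x * (single p (1 : ℤ) : T).coeff q := by
    intro p x q
    rw [coeff_single, coeff_single, Finsupp.single_apply, Finsupp.single_apply]
    split_ifs <;> ring
  have hn : ∀ (p q : ℤ × ℤ), (single p (1 : ℤ) : T).coeff (-q) =
      (single (-p) (1 : ℤ) : T).coeff q := by
    intro p q
    rw [coeff_single, coeff_single, Finsupp.single_apply, Finsupp.single_apply]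
    have : (p = -q) = (-p = q) := by
      rw [eq_iff_iff]
      constructor
      · intro h
        rw [h, neg_neg]
      · intro h
        rw [← h, neg_neg]
    simp only [this]
  have e : ∀ q : ℤ × ℤ, (quad ε δ i j a).coeff q =
      a * (single ((i : ℤ), (j : ℤ)) (1 : ℤ) : T).coeff q +
      ε * a * (single (-(i : ℤ), (j : ℤ)) (1 : ℤ) : T).coeff q +
      δ * a * (single ((i : ℤ), -(j : ℤ)) (1 : ℤ) : T).coeff q +
      ε * δ * a * (single (-(i : ℤ), -(j : ℤ)) (1 : ℤ) : T).coeff q := by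
    intro q
    rw [quad, coeff_add, coeff_add, coeff_add, Finsupp.add_apply, Finsupp.add_apply,
      Finsupp.add_apply, hs _ a, hs _ (ε * a), hs _ (δ * a), hs _ (ε * δ * a)]
  rw [e k, e (-k), hn, hn, hn, hn, Prod.neg_mk, Prod.neg_mk, Prod.neg_mk, Prod.neg_mk, neg_neg,
    neg_neg]
  generalize (single ((i : ℤ), (j : ℤ)) (1 : ℤ) : T).coeff k = D
  generalize (single (-(i : ℤ), (j : ℤ)) (1 : ℤ) : T).coeff k = C
  generalize (single ((i : ℤ), -(j : ℤ)) (1 : ℤ) : T).coeff k = B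
  generalize (single (-(i : ℤ), -(j : ℤ)) (1 : ℤ) : T).coeff k = A
  linear_combination (-(C * δ * a + A * a * δ * δ)) * hε - (B * ε * a + A * a) * hδ

theorem coeff_tab_neg (I J : ℕ) (ε δ : ℤ) (hε : ε * ε = 1) (hδ : δ * δ = 1)
    (f : ℕ → ℕ → ℤ) (k : ℤ × ℤ) :
    (tab I J ε δ f).coeff (-k) = ε * δ * (tab I J ε δ f).coeff k := by
  unfold tab
  simp only [coeff_sum, Finsupp.finsetSum_apply, Finset.mul_sum,
    coeff_quad_neg ε δ hε hδ]

theorem baseW_neg (B : Base) (hε : B.ε * B.ε = 1) (hδ : B.δ * B.δ = 1) (k : ℤ × ℤ) :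
    coef (-k) (baseW B 0 0) = (B.ε * B.δ : ℤ) * coef k (baseW B 0 0) := by
  unfold baseW
  rw [map_smul, map_smul, coef_iW, coef_iW]
  have h : ∀ x : T, DD 0 0 x = x := fun x => rfl
  rw [h, coeff_tab_neg _ _ _ _ hε hδ]
  push_cast
  simp only [smul_eq_mul]
  ring

/-- the formal surface of three tables -/
noncomputable def tabHat (BP BQ BZ : Base) : Hat W := ⟨baseJ BP, baseJ BQ, baseJ BZ⟩

theorem evenW_base (B : Base) (h1 : B.ε * B.ε = 1) (h2 : B.δ * B.δ = 1)
    (h3 : B.ε * B.δ = 1) : EvenW (baseJ B).f := by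
  intro k
  have := baseW_neg B h1 h2 k
  rw [h3, Int.cast_one, one_mul] at this
  exact this

theorem oddW_base (B : Base) (h1 : B.ε * B.ε = 1) (h2 : B.δ * B.δ = 1)
    (h3 : B.ε * B.δ = -1) : OddW (baseJ B).f := by
  intro k
  have := baseW_neg B h1 h2 k
  rw [h3, Int.cast_neg, Int.cast_one, neg_one_mul] at this
  exact this

/-- The parities `P` even/even, `Q` even/odd, `Z` odd/even. -/
theorem tabHat_FS3 (BP BQ BZ : Base) (hP : BP.ε = 1 ∧ BP.δ = 1) (hQ : BQ.ε = 1 ∧ BQ.δ = -1)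
    (hZ : BZ.ε = -1 ∧ BZ.δ = 1) : FS3 (tabHat BP BQ BZ) where
  jP := baseJ_jet BP
  jQ := baseJ_jet BQ
  jZ := baseJ_jet BZ
  eP := evenW_base BP (by rw [hP.1]; norm_num) (by rw [hP.2]; norm_num)
    (by rw [hP.1, hP.2]; norm_num)
  oQ := oddW_base BQ (by rw [hQ.1]; norm_num) (by rw [hQ.2]; norm_num)
    (by rw [hQ.1, hQ.2]; norm_num)
  oZ := oddW_base BZ (by rw [hZ.1]; norm_num) (by rw [hZ.2]; norm_num)
    (by rw [hZ.1, hZ.2]; norm_num)

theorem tabW_eq_baseW (P : Par) (h : nu ^ (P.I0 + P.J0) ≤ 1 + 1 / 2 ^ P.k) (B : Base) (a c : ℕ) :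
    tabW (algW P h) B.w a c B.I B.J B.ε B.δ B.p B.N = baseW B a c := rfl

end D3
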