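import Pool.Agent.H.MP_ce2c94_gt.D3Rot

/-!
Surfaces in a rotating frame whose components are given by elements of a commutative algebra
`W` with evaluations `ev p : W → ℂ` (series with real coefficients):
`P = ev P`, `i Q = ev Q`, `i Z = ev Z`, and `D = -i ∂`.
-/

open Set Filter Topology
open scoped ContDiff RealInnerProductSpace

namespace D3

/-- an element with its derivatives `D = -i ∂` up to the second order -/
@[ext] structure HJet (W : Type*) where
  f : W
  fu : W
  ft : W
  fuu : W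
  fut : W
  ftt : W

namespace HJet

variable {W : Type*} [CommRing W] [Algebra ℝ W]

/-- the sum -/
def add (a b : HJet W) : HJet W where
  f := a.f + b.f
  fu := a.fu + b.fu
  ft := a.ft + b.ft
  fuu := a.fuu + b.fuu
  fut := a.fut + b.fut
  ftt := a.ftt + b.ftt

/-- the product -/
def mul (a b : HJet W) : HJet W where
  f := a.f * b.f
  fu := a.fu * b.f + a.f * b.fu
  ft := a.ft * b.f + a.f * b.ft
  fuu := a.fuu * b.f + 2 * (a.fu * b.fu) + a.f * b.fuu
  fut := a.fut * b.f + (a.fu * b.ft + a.ft * b.fu) + a.f * b.fut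
  ftt := a.ftt * b.f + 2 * (a.ft * b.ft) + a.f * b.ftt

end HJet

/-- the complex valued linear form with the coefficients `a`, `b` -/
noncomputable def clf (a b : ℂ) : ℝ × ℝ →L[ℝ] ℂ :=
  (ContinuousLinearMap.fst ℝ ℝ ℝ).smulRight a + (ContinuousLinearMap.snd ℝ ℝ ℝ).smulRight b

theorem clf_apply (a b : ℂ) (w : ℝ × ℝ) : clf a b w = (w.1 : ℂ) * a + (w.2 : ℂ) * b := by
  simp [clf]

section ev

variable {W : Type*} [CommRing W] [Algebra ℝ W] (ev : ℝ × ℝ → W →ₐ[ℝ] ℂ)

/-- the derivatives of the evaluations are the evaluations of the derivatives -/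
structure IsJet (h : HJet W) : Prop where
  smooth : ContDiff ℝ ∞ fun p => ev p h.f
  d : ∀ p, HasFDerivAt (fun q => ev q h.f) (clf (Complex.I * ev p h.fu) (Complex.I * ev p h.ft)) p
  du : ∀ p, HasFDerivAt (fun q => ev q h.fu)
    (clf (Complex.I * ev p h.fuu) (Complex.I * ev p h.fut)) p
  dt : ∀ p, HasFDerivAt (fun q => ev q h.ft)
    (clf (Complex.I * ev p h.fut) (Complex.I * ev p h.ftt)) p

variable {ev}

theorem fd_add {f g : ℝ × ℝ → ℂ} {a b a' b' : ℂ} {p : ℝ × ℝ} (hf : HasFDerivAt f (clf a b) p)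
    (hg : HasFDerivAt g (clf a' b') p) :
    HasFDerivAt (fun q => f q + g q) (clf (a + a') (b + b')) p := by
  refine (hf.add hg).congr_fderiv ?_
  apply ContinuousLinearMap.ext
  intro w
  simp only [add_apply, clf_apply]
  ring

theorem fd_mul {f g : ℝ × ℝ → ℂ} {a b a' b' : ℂ} {p : ℝ × ℝ} (hf : HasFDerivAt f (clf a b) p)
    (hg : HasFDerivAt g (clf a' b') p) :
    HasFDerivAt (fun q => f q * g q) (clf (a * g p + f p * a') (b * g p + f p * b')) p := by
  refine (hf.mul hg).congr_fderiv ?_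
  apply ContinuousLinearMap.ext
  intro w
  simp only [add_apply, clf_apply, smul_apply, smul_eq_mul]
  ring

theorem fd_const_mul {f : ℝ × ℝ → ℂ} {a b : ℂ} {p : ℝ × ℝ} (c : ℂ)
    (hf : HasFDerivAt f (clf a b) p) :
    HasFDerivAt (fun q => c * f q) (clf (c * a) (c * b)) p := by
  refine (hf.const_mul c).congr_fderiv ?_
  apply ContinuousLinearMap.ext
  intro w
  simp only [clf_apply, smul_apply, smul_eq_mul]
  ring

theorem clf_congr {a b a' b' : ℂ} (h1 : a = a') (h2 : b = b') : clf a b = clf a' b' := by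
  rw [h1, h2]

theorem IsJet.add {a b : HJet W} (ha : IsJet ev a) (hb : IsJet ev b) :
    IsJet ev (a.add b) where
  smooth := by
    have := ha.smooth.add hb.smooth
    simpa [HJet.add] using this
  d := fun p => by
    have := fd_add (ha.d p) (hb.d p)
    simp only [HJet.add, map_add]
    exact this.congr_fderiv (clf_congr (by ring) (by ring))
  du := fun p => by
    have := fd_add (ha.du p) (hb.du p)
    simp only [HJet.add, map_add]
    exact this.congr_fderiv (clf_congr (by ring) (by ring))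
  dt := fun p => by
    have := fd_add (ha.dt p) (hb.dt p)
    simp only [HJet.add, map_add]
    exact this.congr_fderiv (clf_congr (by ring) (by ring))

theorem IsJet.mul {a b : HJet W} (ha : IsJet ev a) (hb : IsJet ev b) :
    IsJet ev (a.mul b) where
  smooth := by
    have := ha.smooth.mul hb.smooth
    simpa [HJet.mul] using this
  d := fun p => by
    have := fd_mul (ha.d p) (hb.d p)
    simp only [HJet.mul, map_add, map_mul]
    exact this.congr_fderiv (clf_congr (by ring) (by ring))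
  du := fun p => by
    have := fd_add (fd_mul (ha.du p) (hb.d p)) (fd_mul (ha.d p) (hb.du p))
    simp only [HJet.mul, map_add, map_mul, map_ofNat]
    exact this.congr_fderiv (clf_congr (by ring) (by ring))
  dt := fun p => by
    have := fd_add (fd_mul (ha.dt p) (hb.d p)) (fd_mul (ha.d p) (hb.dt p))
    simp only [HJet.mul, map_add, map_mul, map_ofNat]
    exact this.congr_fderiv (clf_congr (by ring) (by ring))

end ev

/-- a smooth complex valued function with its derivatives up to the second order -/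
structure CJet2 (f fu fv fuu fuv fvv : ℝ × ℝ → ℂ) : Prop where
  smooth : ContDiff ℝ ∞ f
  d : ∀ p, HasFDerivAt f (clf (fu p) (fv p)) p
  du : ∀ p, HasFDerivAt fu (clf (fuu p) (fuv p)) p
  dv : ∀ p, HasFDerivAt fv (clf (fuv p) (fvv p)) p

theorem fd_re {f : ℝ × ℝ → ℂ} {a b : ℂ} {p : ℝ × ℝ} (hf : HasFDerivAt f (clf a b) p) :
    HasFDerivAt (fun q => (f q).re) (lf a.re b.re) p := by
  have h := Complex.reCLM.hasFDerivAt.comp p hf
  refine h.congr_fderiv ?_
  apply ContinuousLinearMap.ext
  intro w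
  simp only [ContinuousLinearMap.comp_apply, Complex.reCLM_apply, clf_apply, lf_apply,
    Complex.add_re, Complex.re_ofReal_mul]
  ring

theorem fd_im {f : ℝ × ℝ → ℂ} {a b : ℂ} {p : ℝ × ℝ} (hf : HasFDerivAt f (clf a b) p) :
    HasFDerivAt (fun q => (f q).im) (lf a.im b.im) p := by
  have h := Complex.imCLM.hasFDerivAt.comp p hf
  refine h.congr_fderiv ?_
  apply ContinuousLinearMap.ext
  intro w
  simp only [ContinuousLinearMap.comp_apply, Complex.imCLM_apply, clf_apply, lf_apply,
    Complex.add_im, Complex.im_ofReal_mul]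
  ring

theorem CJet2.re {f fu fv fuu fuv fvv : ℝ × ℝ → ℂ} (h : CJet2 f fu fv fuu fuv fvv) :
    Jet2 (fun p => (f p).re) (fun p => (fu p).re) (fun p => (fv p).re) (fun p => (fuu p).re)
      (fun p => (fuv p).re) (fun p => (fvv p).re) where
  smooth := Complex.reCLM.contDiff.comp h.smooth
  d := fun p => fd_re (h.d p)
  du := fun p => fd_re (h.du p)
  dv := fun p => fd_re (h.dv p)

/-- the derivatives of a real function are real -/
theorem im_zero {f : ℝ × ℝ → ℂ} {a b : ℝ × ℝ → ℂ} (hf : ∀ p, HasFDerivAt f (clf (a p) (b p)) p)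
    (h0 : ∀ p, (f p).im = 0) : (∀ p, (a p).im = 0) ∧ ∀ p, (b p).im = 0 := by
  have h1 : ∀ p, lf (a p).im (b p).im = 0 := by
    intro p
    have h := fd_im (hf p)
    have e : (fun q => (f q).im) = fun _ => (0 : ℝ) := funext h0
    rw [e] at h
    exact h.unique (hasFDerivAt_const 0 p)
  constructor
  · intro p
    have := congrArg (fun L : ℝ × ℝ →L[ℝ] ℝ => L (1, 0)) (h1 p)
    simpa [lf_apply] using this
  · intro p
    have := congrArg (fun L : ℝ × ℝ →L[ℝ] ℝ => L (0, 1)) (h1 p)
    simpa [lf_apply] using this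

theorem CJet2.real {f fu fv fuu fuv fvv : ℝ × ℝ → ℂ} (h : CJet2 f fu fv fuu fuv fvv)
    (h0 : ∀ p, (f p).im = 0) (p : ℝ × ℝ) :
    f p = ((f p).re : ℂ) ∧ fu p = ((fu p).re : ℂ) ∧ fv p = ((fv p).re : ℂ) ∧
      fuu p = ((fuu p).re : ℂ) ∧ fuv p = ((fuv p).re : ℂ) ∧ fvv p = ((fvv p).re : ℂ) := by
  obtain ⟨h1, h2⟩ := im_zero h.d h0
  obtain ⟨h3, h4⟩ := im_zero h.du h1
  obtain ⟨_, h5⟩ := im_zero h.dv h2
  refine ⟨?_, ?_, ?_, ?_, ?_, ?_⟩ <;> apply Complex.ext <;> simp [h0, h1, h2, h3, h4, h5]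

end D3
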