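import Pool.Agent.H.MP_ce2c94_gt.D3Spec
import Pool.Agent.H.MP_ce2c94_gt.D3Tab
import Pool.Agent.H.MP_ce2c94_gt.D3.Par

/-!
The jet of the unknown, parities of the background data and of tables.
-/

open Set Filter Topology

namespace D3

open AddMonoidAlgebra Pool.MP_ce2c94_gt Pool.MP_ce2c94_gt.D3W Pool.Agent.H.MP_ce2c94_gt.h46

/-- the jet of the unknown `φ = y / ω` -/
noncomputable def phiJ (a b s : ℝ) (y : W) : HJet W where
  f := jet a b s 0 0 y
  fu := jet a b s 1 0 y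
  ft := jet a b s 0 1 y
  fuu := jet a b s 2 0 y
  fut := jet a b s 1 1 y
  ftt := jet a b s 0 2 y

theorem phiJ_jet {a b s : ℝ} (ha : 0 < a) (hb : 0 < b) (hs : 0 < s) (y : W) :
    WJet (phiJ a b s y) where
  u := isDu_jet ha hb hs (by norm_num) y
  t := isDt_jet ha hb hs (by norm_num) y
  uu := fun k => by
    have h1 := isDu_jet ha hb hs (p := 0) (q := 0) (by norm_num) y k
    have h2 := isDu_jet ha hb hs (p := 1) (q := 0) (by norm_num) y k
    change coef k (jet a b s (1 + 1) 0 y) = _ * (_ * coef k (jet a b s 0 0 y))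
    rw [h2, ← h1]
  ut := fun k => by
    have h1 := isDt_jet ha hb hs (p := 0) (q := 0) (by norm_num) y k
    have h2 := isDu_jet ha hb hs (p := 0) (q := 1) (by norm_num) y k
    change coef k (jet a b s (0 + 1) 1 y) = _ * (_ * coef k (jet a b s 0 0 y))
    rw [h2, ← h1]
  tt := fun k => by
    have h1 := isDt_jet ha hb hs (p := 0) (q := 0) (by norm_num) y k
    have h2 := isDt_jet ha hb hs (p := 0) (q := 1) (by norm_num) y k
    change coef k (jet a b s 0 (1 + 1) y) = _ * (_ * coef k (jet a b s 0 0 y))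
    rw [h2, ← h1]

theorem Par.evenW {a b : ℝ} {f : W} (h : Par a b f) (hab : a * b = 1) : EvenW f := by
  intro k
  have h2 := par_iff.mp h
  rw [← su_st, h2.1, h2.2, ← mul_assoc, hab, one_mul]

theorem Par.oddW {a b : ℝ} {f : W} (h : Par a b f) (hab : a * b = -1) : OddW f := by
  intro k
  have h2 := par_iff.mp h
  rw [← su_st, h2.1, h2.2, ← mul_assoc, hab, neg_one_mul]

theorem phiJ_par {a b s : ℝ} (ha : 0 < a) (hb : 0 < b) (hs : 0 < s) {y : W} (hy : Par 1 1 y) :
    Par 1 1 (phiJ a b s y).f :=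
  (par_jet ha hb hs (p := 0) (q := 0) (by norm_num) hy).cast (by norm_num) (by norm_num)

theorem phiJ_even {a b s : ℝ} (ha : 0 < a) (hb : 0 < b) (hs : 0 < s) {y : W} (hy : Par 1 1 y) :
    EvenW (phiJ a b s y).f := Par.evenW (phiJ_par ha hb hs hy) (by norm_num)

theorem par_Du {a b : ℝ} {f g : W} (h : Par a b f) (hg : IsDu f g) : Par (-a) b g := by
  rw [par_iff] at h ⊢
  constructor
  · intro k
    rw [hg, hg, h.1]
    simp only [su]
    push_cast
    ring
  · intro k
    rw [hg, hg, h.2]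
    simp only [st]
    ring

theorem par_Dt {a b : ℝ} {f g : W} (h : Par a b f) (hg : IsDt f g) : Par a (-b) g := by
  rw [par_iff] at h ⊢
  constructor
  · intro k
    rw [hg, hg, h.1]
    simp only [su]
    ring
  · intro k
    rw [hg, hg, h.2]
    simp only [st]
    push_cast
    ring

/-- the parities of the jet of an element -/
theorem WJet.par {h : HJet W} (H : WJet h) {a b : ℝ} (hp : Par a b h.f) :
    Par (-a) b h.fu ∧ Par a (-b) h.ft ∧ Par a b h.fuu ∧ Par (-a) (-b) h.fut ∧ Par a b h.ftt := by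
  have h1 : Par (-a) b h.fu := par_Du hp H.u
  have h2 : Par a (-b) h.ft := par_Dt hp H.t
  refine ⟨h1, h2, ?_, ?_, ?_⟩
  · exact (par_Du h1 (fun k => by rw [H.uu, H.u])).cast (neg_neg a) rfl
  · exact par_Dt h1 (fun k => by rw [H.ut, H.u]; ring)
  · exact (par_Dt h2 (fun k => by rw [H.tt, H.t])).cast rfl (neg_neg b)

/-- the parities of a formal surface: even/even, even/odd, odd/even -/
structure HPar (C : Hat W) : Prop where
  jP : WJet C.P
  jQ : WJet C.Q
  jZ : WJet C.Z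
  P : Par 1 1 C.P.f
  Q : Par 1 (-1) C.Q.f
  Z : Par (-1) 1 C.Z.f

theorem HPar.fs3 {C : Hat W} (h : HPar C) : FS3 C where
  jP := h.jP
  jQ := h.jQ
  jZ := h.jZ
  eP := Par.evenW h.P (by norm_num)
  oQ := Par.oddW h.Q (by norm_num)
  oZ := Par.oddW h.Z (by norm_num)

theorem par_nat (n : ℕ) : Par 1 1 (n : W) := by
  have h := Par.smul (n : ℝ) Par.one
  have e : ((n : ℝ) • (1 : W)) = (n : W) := by
    rw [Nat.cast_smul_eq_nsmul, nsmul_eq_mul, mul_one]
  rwa [e] at h

/-- the parities of the vectors of a formal surface -/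
theorem HPar.vpar {C : Hat W} (h : HPar C) (N : ℕ) :
    D3S.VPar 1 1 ![C.P.f, C.Q.f, C.Z.f] ∧ D3S.VPar (-1) 1 ![C.P.fu, C.Q.fu, C.Z.fu] ∧
      D3S.VPar 1 (-1) ![C.a1 N, C.a2 N, C.a3 N] ∧
      D3S.VPar 1 1 ![C.P.fuu, C.Q.fuu, C.Z.fuu] ∧
      D3S.VPar (-1) (-1) ![C.b1 N, C.b2 N, C.b3 N] ∧
      D3S.VPar 1 1 ![C.c1 N, C.c2 N, C.c3 N] := by
  obtain ⟨P1, P2, P3, P4, P5⟩ := h.jP.par h.P
  obtain ⟨Q1, Q2, Q3, Q4, Q5⟩ := h.jQ.par h.Q
  obtain ⟨Z1, Z2, Z3, Z4, Z5⟩ := h.jZ.par h.Z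
  have n1 := par_nat N
  have A1 : Par 1 (-1) (C.a1 N) :=
    ((n1.mul P2).cast (by norm_num) (by norm_num)).add h.Q
  have A2 : Par 1 1 (C.a2 N) :=
    ((n1.mul Q2).cast (by norm_num) (by norm_num)).add h.P
  have A3 : Par (-1) (-1) (C.a3 N) := (n1.mul Z2).cast (by norm_num) (by norm_num)
  have B1 : Par (-1) (-1) (C.b1 N) :=
    ((n1.mul P4).cast (by norm_num) (by norm_num)).add (Q1.cast (by norm_num) (by norm_num))
  have B2 : Par (-1) 1 (C.b2 N) :=
    ((n1.mul Q4).cast (by norm_num) (by norm_num)).add (P1.cast (by norm_num) (by norm_num))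
  have B3 : Par 1 (-1) (C.b3 N) := (n1.mul Z4).cast (by norm_num) (by norm_num)
  have C1 : Par 1 1 (C.c1 N) := by
    refine Par.add ((n1.mul (Par.add (n1.mul P5) ?_)).cast (a := 1 * (1 * 1)) (b := 1 * (1 * 1))
      (by norm_num) (by norm_num)) A2
    exact Q2.cast (by norm_num) (by norm_num)
  have C2 : Par 1 (-1) (C.c2 N) := by
    refine Par.add ((n1.mul (Par.add (n1.mul Q5) ?_)).cast (a := 1 * (1 * 1)) (b := 1 * (1 * -1))
      (by norm_num) (by norm_num)) A1
    exact P2.cast (by norm_num) (by norm_num)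
  have C3 : Par (-1) 1 (C.c3 N) := (n1.mul (n1.mul Z5)).cast (by norm_num) (by norm_num)
  refine ⟨⟨?_, ?_, ?_⟩, ⟨?_, ?_, ?_⟩, ⟨?_, ?_, ?_⟩, ⟨?_, ?_, ?_⟩, ⟨?_, ?_, ?_⟩, ⟨?_, ?_, ?_⟩⟩
  · exact h.P
  · exact h.Q
  · exact h.Z
  · exact P1.cast (by norm_num) (by norm_num)
  · exact Q1.cast (by norm_num) (by norm_num)
  · exact Z1.cast (by norm_num) (by norm_num)
  · exact A1.cast (by norm_num) (by norm_num)
  · exact A2.cast (by norm_num) (by norm_num)
  · exact A3.cast (by norm_num) (by norm_num)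
  · exact P3
  · exact Q3
  · exact Z3
  · exact B1.cast (by norm_num) (by norm_num)
  · exact B2.cast (by norm_num) (by norm_num)
  · exact B3.cast (by norm_num) (by norm_num)
  · exact C1.cast (by norm_num) (by norm_num)
  · exact C2.cast (by norm_num) (by norm_num)
  · exact C3.cast (by norm_num) (by norm_num)

/-- the parities of the background data -/
theorem bgOf_sym {C V : Hat W} (hC : HPar C) (hV : HPar V) {s : W} (hs : Par 1 1 s) (N : ℕ) :
    (bgOf N s C V).Sym := by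
  obtain ⟨c1, c2, c3, c4, c5, c6⟩ := hC.vpar N
  obtain ⟨v1, v2, v3, v4, v5, v6⟩ := hV.vpar N
  exact ⟨par_nat N, hs, c1, c2, c3, c4, c5, c6, v1, v2, v3, v4, v5, v6⟩

/-- **Final form for a solution `y`.** -/
theorem shrinkingTorus_of_y {C V : Hat W} (hC : HPar C) (hV : HPar V) {a b σ : ℝ} (ha : 0 < a)
    (hb : 0 < b) (hσ : 0 < σ) {y : W} (hy : Par 1 1 y) {N : ℕ} {s : W} (hs : ∀ p, evp p s ≠ 0)
    (h0 : (bgOf N s C V).F (phiJ a b σ y).vec6 = 0) {S0 c : ℝ} (hc : 0 < c)
    (h1 : PosW (C.pert V (phiJ a b σ y)).P.f)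
    (h2 : PosW ((C.pert V (phiJ a b σ y)).cosq eu eu' S0 c))
    (h3 : PosW ((C.pert V (phiJ a b σ y)).ang N))
    (h4 : PosW ((C.pert V (phiJ a b σ y)).jac N S0)) :
    IsShrinkingTorus (range ((hC.fs3.isHat hV.fs3 (phiJ_jet ha hb hσ y)
      (phiJ_even ha hb hσ hy)).rot N).toSurf.X) :=
  shrinkingTorus_of_bg hC.fs3 hV.fs3 (phiJ_jet ha hb hσ y) (phiJ_even ha hb hσ hy) hs h0 hc
    h1 h2 h3 h4

/-! ### parities of tables -/

theorem coeff_single_mul (p : ℤ × ℤ) (x : ℤ) (q : ℤ × ℤ) :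
    (single p x : T).coeff q = x * (single p (1 : ℤ) : T).coeff q := by
  rw [coeff_single, coeff_single, Finsupp.single_apply, Finsupp.single_apply]
  split_ifs <;> ring

theorem coeff_quad (ε δ : ℤ) (i j : ℕ) (a : ℤ) (q : ℤ × ℤ) : (quad ε δ i j a).coeff q =
      a * (single ((i : ℤ), (j : ℤ)) (1 : ℤ) : T).coeff q +
      ε * a * (single (-(i : ℤ), (j : ℤ)) (1 : ℤ) : T).coeff q +
      δ * a * (single ((i : ℤ), -(j : ℤ)) (1 : ℤ) : T).coeff q +
      ε * δ * a * (single (-(i : ℤ), -(j : ℤ)) (1 : ℤ) : T).coeff q := by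
  rw [quad, coeff_add, coeff_add, coeff_add, Finsupp.add_apply, Finsupp.add_apply,
    Finsupp.add_apply, coeff_single_mul _ a, coeff_single_mul _ (ε * a),
    coeff_single_mul _ (δ * a), coeff_single_mul _ (ε * δ * a)]

theorem coeff_quad_su (ε δ : ℤ) (hε : ε * ε = 1) (i j : ℕ) (a : ℤ)
    (k : ℤ × ℤ) : (quad ε δ i j a).coeff (su k) = ε * (quad ε δ i j a).coeff k := by
  have hn : ∀ (p q : ℤ × ℤ), (single p (1 : ℤ) : T).coeff (su q) =
      (single (su p) (1 : ℤ) : T).coeff q := by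
    intro p q
    rw [coeff_single, coeff_single, Finsupp.single_apply, Finsupp.single_apply]
    have : (p = su q) = (su p = q) := by
      rw [eq_iff_iff]
      constructor
      · intro h
        rw [h]
        simp [su]
      · intro h
        rw [← h]
        simp [su]
    simp only [this]
  rw [coeff_quad _ _ _ _ _ k, coeff_quad, hn, hn, hn, hn]
  simp only [su, neg_neg]
  generalize (single ((i : ℤ), (j : ℤ)) (1 : ℤ) : T).coeff k = D
  generalize (single (-(i : ℤ), (j : ℤ)) (1 : ℤ) : T).coeff k = C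
  generalize (single ((i : ℤ), -(j : ℤ)) (1 : ℤ) : T).coeff k = B
  generalize (single (-(i : ℤ), -(j : ℤ)) (1 : ℤ) : T).coeff k = A
  linear_combination (-(C * a + A * a * δ)) * hε

theorem coeff_quad_st (ε δ : ℤ) (hδ : δ * δ = 1) (i j : ℕ) (a : ℤ)
    (k : ℤ × ℤ) : (quad ε δ i j a).coeff (st k) = δ * (quad ε δ i j a).coeff k := by
  have hn : ∀ (p q : ℤ × ℤ), (single p (1 : ℤ) : T).coeff (st q) =
      (single (st p) (1 : ℤ) : T).coeff q := by
    intro p q
    rw [coeff_single, coeff_single, Finsupp.single_apply, Finsupp.single_apply]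
    have : (p = st q) = (st p = q) := by
      rw [eq_iff_iff]
      constructor
      · intro h
        rw [h]
        simp [st]
      · intro h
        rw [← h]
        simp [st]
    simp only [this]
  rw [coeff_quad _ _ _ _ _ k, coeff_quad, hn, hn, hn, hn]
  simp only [st, neg_neg]
  generalize (single ((i : ℤ), (j : ℤ)) (1 : ℤ) : T).coeff k = D
  generalize (single (-(i : ℤ), (j : ℤ)) (1 : ℤ) : T).coeff k = C
  generalize (single ((i : ℤ), -(j : ℤ)) (1 : ℤ) : T).coeff k = B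
  generalize (single (-(i : ℤ), -(j : ℤ)) (1 : ℤ) : T).coeff k = A
  linear_combination (-(B * a + A * a * ε)) * hδ

/-- the parities of a table -/
theorem par_base (B : Base) (hε : B.ε * B.ε = 1) (hδ : B.δ * B.δ = 1) :
    Par B.ε B.δ (baseJ B).f := by
  have h : ∀ x : T, DD 0 0 x = x := fun x => rfl
  rw [par_iff]
  constructor
  · intro k
    change coef _ (baseW B 0 0) = _ * coef _ (baseW B 0 0)
    unfold baseW
    rw [map_smul, map_smul, coef_iW, coef_iW, h]
    unfold tab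
    simp only [coeff_sum, Finsupp.finsetSum_apply, coeff_quad_su _ _ hε, smul_eq_mul]
    simp only [← Finset.mul_sum]
    push_cast
    ring
  · intro k
    change coef _ (baseW B 0 0) = _ * coef _ (baseW B 0 0)
    unfold baseW
    rw [map_smul, map_smul, coef_iW, coef_iW, h]
    unfold tab
    simp only [coeff_sum, Finsupp.finsetSum_apply, coeff_quad_st _ _ hδ, smul_eq_mul]
    simp only [← Finset.mul_sum]
    push_cast
    ring

/-- The parities of the tables of a surface: `P` even/even, `Q` even/odd, `Z` odd/even. -/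
theorem tabHat_par (BP BQ BZ : Base) (hP : BP.ε = 1 ∧ BP.δ = 1) (hQ : BQ.ε = 1 ∧ BQ.δ = -1)
    (hZ : BZ.ε = -1 ∧ BZ.δ = 1) : HPar (tabHat BP BQ BZ) where
  jP := baseJ_jet BP
  jQ := baseJ_jet BQ
  jZ := baseJ_jet BZ
  P := (par_base BP (by rw [hP.1]; norm_num) (by rw [hP.2]; norm_num)).cast
    (by rw [hP.1]; norm_num) (by rw [hP.2]; norm_num)
  Q := (par_base BQ (by rw [hQ.1]; norm_num) (by rw [hQ.2]; norm_num)).cast
    (by rw [hQ.1]; norm_num) (by rw [hQ.2]; norm_num)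
  Z := (par_base BZ (by rw [hZ.1]; norm_num) (by rw [hZ.2]; norm_num)).cast
    (by rw [hZ.1]; norm_num) (by rw [hZ.2]; norm_num)

end D3
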