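import Pool.Agent.H.MP_ce2c94_gt.D3Inj

/-!
The injectivity criterion for a torus in space.
-/

open Set Filter Topology

namespace D3

/-- equal cosines and sines: the angles differ by a multiple of `2π` -/
theorem angle_diff {θ ψ : ℝ} (hc : Real.cos θ = Real.cos ψ) (hs : Real.sin θ = Real.sin ψ) :
    ∃ k : ℤ, θ = ψ + 2 * Real.pi * k := by
  have h := Real.Angle.cos_sin_inj hc hs
  rw [Real.Angle.angle_eq_iff_two_pi_dvd_sub] at h
  obtain ⟨k, hk⟩ := h
  exact ⟨k, by linarith⟩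

/-- two points with the same coordinates have angles which differ by a multiple of `2π` -/
theorem ang_diff {a b w : ℝ × ℝ → ℝ} {p q : ℝ × ℝ}
    (hp : 0 < a p * Real.cos (w p) + b p * Real.sin (w p))
    (hq : 0 < a q * Real.cos (w q) + b q * Real.sin (w q)) (ha : a p = a q) (hb : b p = b q) :
    ∃ k : ℤ, ang a b w p = ang a b w q + 2 * Real.pi * k := by
  obtain ⟨h1, h2⟩ := ang_cos_sin hp
  obtain ⟨h3, h4⟩ := ang_cos_sin hq
  have hpos : 0 < Real.sqrt (a p ^ 2 + b p ^ 2) := by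
    apply Real.sqrt_pos.mpr
    by_contra hcon
    have h5 : a p = 0 := by nlinarith [sq_nonneg (a p), sq_nonneg (b p)]
    have h6 : b p = 0 := by nlinarith [sq_nonneg (a p), sq_nonneg (b p)]
    rw [h5, h6] at hp
    simp at hp
  rw [← ha, ← hb] at h3 h4
  apply angle_diff
  · apply mul_left_cancel₀ hpos.ne'
    rw [h1, h3]
  · apply mul_left_cancel₀ hpos.ne'
    rw [h2, h4]

/-- shifting by integer multiples of the periods -/
theorem shift_int {f : ℝ × ℝ → ℝ} (hu : ∀ u v, f (u + 2 * Real.pi, v) = f (u, v))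
    (hv : ∀ u v, f (u, v + 2 * Real.pi) = f (u, v)) (m n : ℤ) (u v : ℝ) :
    f (u + 2 * Real.pi * m, v + 2 * Real.pi * n) = f (u, v) := by
  have h1 : Function.Periodic (fun v => f (u + 2 * Real.pi * m, v)) (2 * Real.pi) :=
    fun v => hv _ v
  have h2 : Function.Periodic (fun u => f (u, v)) (2 * Real.pi) := fun u => hu u v
  have h3 := h1.int_mul n v
  have h4 := h2.int_mul m u
  rw [mul_comm (2 * Real.pi) (n : ℝ), h3, mul_comm (2 * Real.pi) (m : ℝ), h4]

theorem ang_shift {a b w : ℝ × ℝ → ℝ} {p q : ℝ × ℝ} {k : ℤ} (ha : a q = a p) (hb : b q = b p)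
    (hw : w q = w p + 2 * Real.pi * k) : ang a b w q = ang a b w p + 2 * Real.pi * k := by
  unfold ang
  rw [ha, hb, hw]
  have e : w p + 2 * Real.pi * k = w p + k * (2 * Real.pi) := by ring
  rw [e, Real.cos_add_int_mul_two_pi, Real.sin_add_int_mul_two_pi]
  ring

/-- The injectivity criterion. The coordinates `x`, `y`, `z` are doubly periodic functions with
derivatives `x_u du + x_v dv`, and so on. -/
theorem torus_inj {x y z xu xv yu yv zu zv : ℝ × ℝ → ℝ} {S0 c : ℝ} (hc : 0 < c)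
    (hx : ∀ p, HasStrictFDerivAt x (lf (xu p) (xv p)) p)
    (hy : ∀ p, HasStrictFDerivAt y (lf (yu p) (yv p)) p)
    (hz : ∀ p, HasStrictFDerivAt z (lf (zu p) (zv p)) p)
    (px : ∀ u v, x (u + 2 * Real.pi, v) = x (u, v)) (px' : ∀ u v, x (u, v + 2 * Real.pi) = x (u, v))
    (py : ∀ u v, y (u + 2 * Real.pi, v) = y (u, v)) (py' : ∀ u v, y (u, v + 2 * Real.pi) = y (u, v))
    (pz : ∀ u v, z (u + 2 * Real.pi, v) = z (u, v)) (pz' : ∀ u v, z (u, v + 2 * Real.pi) = z (u, v))
    (h1 : ∀ p : ℝ × ℝ, 0 < x p * Real.cos p.2 + y p * Real.sin p.2)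
    (h2 : ∀ p : ℝ × ℝ, 0 < (x p ^ 2 + y p ^ 2 - S0) * Real.cos p.1 + c * z p * Real.sin p.1)
    (h3 : ∀ p, 0 < x p * yv p - y p * xv p)
    (h4 : ∀ p, 0 < (x p ^ 2 + y p ^ 2 - S0) *
        (zu p * (x p * yv p - y p * xv p) - zv p * (x p * yu p - y p * xu p)) -
      z p * ((2 * (x p * xu p + y p * yu p)) * (x p * yv p - y p * xv p) -
        (2 * (x p * xv p + y p * yv p)) * (x p * yu p - y p * xu p)))
    {u v u' v' : ℝ} (ex : x (u, v) = x (u', v')) (ey : y (u, v) = y (u', v'))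
    (ez : z (u, v) = z (u', v')) :
    ∃ m n : ℤ, u' = u + 2 * Real.pi * m ∧ v' = v + 2 * Real.pi * n := by
  let a : ℝ × ℝ → ℝ := fun p => x p ^ 2 + y p ^ 2 - S0
  let b : ℝ × ℝ → ℝ := fun p => c * z p
  let Θ : ℝ × ℝ → ℝ := ang x y Prod.snd
  let Ψ : ℝ × ℝ → ℝ := ang a b Prod.fst
  have hs : ∀ p, 0 < x p ^ 2 + y p ^ 2 := by
    intro p
    by_contra hcon
    have h5 : x p = 0 := by nlinarith [sq_nonneg (x p), sq_nonneg (y p)]
    have h6 : y p = 0 := by nlinarith [sq_nonneg (x p), sq_nonneg (y p)]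
    have := h1 p
    rw [h5, h6] at this
    simp at this
  have hab : ∀ p, 0 < a p ^ 2 + b p ^ 2 := by
    intro p
    by_contra hcon
    have h5 : a p = 0 := by nlinarith [sq_nonneg (a p), sq_nonneg (b p)]
    have h6 : b p = 0 := by nlinarith [sq_nonneg (a p), sq_nonneg (b p)]
    have h7 := h2 p
    change 0 < a p * Real.cos p.1 + b p * Real.sin p.1 at h7
    rw [h5, h6] at h7
    simp at h7
  let su : ℝ × ℝ → ℝ := fun p => 2 * (x p * xu p + y p * yu p)
  let sv : ℝ × ℝ → ℝ := fun p => 2 * (x p * xv p + y p * yv p)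
  have ha : ∀ p, HasStrictFDerivAt a (lf (su p) (sv p)) p := by
    intro p
    have k1 := (((hx p).mul (hx p)).add ((hy p).mul (hy p))).sub_const S0
    have k2 : a = fun p => (x p * x p + y p * y p) - S0 := by
      funext q
      simp only [a]
      ring
    rw [k2]
    refine k1.congr_fderiv ?_
    apply ContinuousLinearMap.ext
    intro w
    simp only [add_apply, smul_apply, smul_eq_mul, lf_apply, su, sv]
    ring
  have hb : ∀ p, HasStrictFDerivAt b (lf (c * zu p) (c * zv p)) p := by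
    intro p
    have k1 := (hz p).const_mul c
    refine k1.congr_fderiv ?_
    apply ContinuousLinearMap.ext
    intro w
    simp only [smul_apply, smul_eq_mul, lf_apply]
    ring
  have hΘ : ∀ p, HasStrictFDerivAt Θ (lf ((x p ^ 2 + y p ^ 2)⁻¹ * (x p * yu p - y p * xu p))
      ((x p ^ 2 + y p ^ 2)⁻¹ * (x p * yv p - y p * xv p))) p := by
    intro p
    have k1 := ang_deriv (hx p) (hy p) (hasStrictFDerivAt_snd (𝕜 := ℝ) (p := p)) (h1 p)
    refine k1.congr_fderiv ?_
    apply ContinuousLinearMap.ext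
    intro w
    simp only [smul_apply, sub_apply, smul_eq_mul, lf_apply]
    ring
  have hΨ : ∀ p, HasStrictFDerivAt Ψ (lf ((a p ^ 2 + b p ^ 2)⁻¹ * (a p * (c * zu p) - b p * su p))
      ((a p ^ 2 + b p ^ 2)⁻¹ * (a p * (c * zv p) - b p * sv p))) p := by
    intro p
    have k1 := ang_deriv (ha p) (hb p) (hasStrictFDerivAt_fst (𝕜 := ℝ) (p := p)) (h2 p)
    refine k1.congr_fderiv ?_
    apply ContinuousLinearMap.ext
    intro w
    simp only [smul_apply, sub_apply, smul_eq_mul, lf_apply]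
    ring
  have hpa : ∀ (m n : ℤ) u v, a (u + 2 * Real.pi * m, v + 2 * Real.pi * n) = a (u, v) := by
    intro m n u v
    simp only [a]
    rw [shift_int px px' m n u v, shift_int py py' m n u v]
  have hpb : ∀ (m n : ℤ) u v, b (u + 2 * Real.pi * m, v + 2 * Real.pi * n) = b (u, v) := by
    intro m n u v
    simp only [b]
    rw [shift_int pz pz' m n u v]
  have sΘ : ∀ (m n : ℤ) u v, Θ (u + 2 * Real.pi * m, v + 2 * Real.pi * n) =
      Θ (u, v) + 2 * Real.pi * n := fun m n u v =>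
    ang_shift (shift_int px px' m n u v) (shift_int py py' m n u v) rfl
  have sΨ : ∀ (m n : ℤ) u v, Ψ (u + 2 * Real.pi * m, v + 2 * Real.pi * n) =
      Ψ (u, v) + 2 * Real.pi * m := fun m n u v =>
    ang_shift (hpa m n u v) (hpb m n u v) rfl
  obtain ⟨n, hn⟩ : ∃ n : ℤ, Θ (u', v') = Θ (u, v) + 2 * Real.pi * n :=
    ang_diff (h1 _) (h1 _) ex.symm ey.symm
  obtain ⟨m, hm⟩ : ∃ m : ℤ, Ψ (u', v') = Ψ (u, v) + 2 * Real.pi * m :=
    ang_diff (h2 _) (h2 _) (by simp only [a]; rw [ex, ey]) (by simp only [b]; rw [ez])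
  have key := plane_inj (Θ := Θ) (Ψ := Ψ) hΘ (fun p => (hΨ p).hasFDerivAt)
    (by
      intro u v
      have := sΘ 0 1 u v
      simpa using this)
    (fun p => mul_pos (inv_pos.mpr (hs p)) (h3 p))
    (by
      intro p
      have k1 : (a p ^ 2 + b p ^ 2)⁻¹ * (a p * (c * zu p) - b p * su p) *
          ((x p ^ 2 + y p ^ 2)⁻¹ * (x p * yv p - y p * xv p)) -
          (a p ^ 2 + b p ^ 2)⁻¹ * (a p * (c * zv p) - b p * sv p) *
          ((x p ^ 2 + y p ^ 2)⁻¹ * (x p * yu p - y p * xu p)) =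
          c * ((a p ^ 2 + b p ^ 2)⁻¹ * (x p ^ 2 + y p ^ 2)⁻¹) *
          ((x p ^ 2 + y p ^ 2 - S0) *
            (zu p * (x p * yv p - y p * xv p) - zv p * (x p * yu p - y p * xu p)) -
          z p * ((2 * (x p * xu p + y p * yu p)) * (x p * yv p - y p * xv p) -
            (2 * (x p * xv p + y p * yv p)) * (x p * yu p - y p * xu p))) := by
        simp only [a, b, su, sv]
        ring
      rw [k1]
      have := hs p
      have := hab p
      have := h4 p
      positivity)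
    (p := (u', v')) (q := (u + 2 * Real.pi * m, v + 2 * Real.pi * n))
    (by rw [hn, sΘ]) (by rw [hm, sΨ])
  exact ⟨m, n, congrArg Prod.fst key, congrArg Prod.snd key⟩

end D3
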