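import Pool.Agent.H.MP_ce2c94_gt.D3Def
import Pool.Agent.H.MP_ce2c94_gt.D3Tor

/-!
From the coordinate functions to shrinking tori.
-/

open Set Filter Topology
open scoped ContDiff RealInnerProductSpace

namespace D3

/-- a smooth function on the plane with its derivatives up to the second order -/
structure Jet2 (f fu fv fuu fuv fvv : ℝ × ℝ → ℝ) : Prop where
  smooth : ContDiff ℝ ∞ f
  d : ∀ p, HasFDerivAt f (lf (fu p) (fv p)) p
  du : ∀ p, HasFDerivAt fu (lf (fuu p) (fuv p)) p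
  dv : ∀ p, HasFDerivAt fv (lf (fuv p) (fvv p)) p

theorem Jet2.strict {f fu fv fuu fuv fvv : ℝ × ℝ → ℝ} (h : Jet2 f fu fv fuu fuv fvv)
    (p : ℝ × ℝ) : HasStrictFDerivAt f (lf (fu p) (fv p)) p := by
  have h1 : HasStrictFDerivAt f (fderiv ℝ f p) p :=
    h.smooth.contDiffAt.hasStrictFDerivAt (by simp)
  rwa [(h.d p).fderiv] at h1

/-- the surface with given coordinate functions -/
noncomputable def vec (x y z : ℝ × ℝ → ℝ) (p : ℝ × ℝ) : E3 := !₂[x p, y p, z p]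

theorem vec_hasFDerivAt {x y z xu xv yu yv zu zv : ℝ × ℝ → ℝ} {p : ℝ × ℝ}
    (hx : HasFDerivAt x (lf (xu p) (xv p)) p) (hy : HasFDerivAt y (lf (yu p) (yv p)) p)
    (hz : HasFDerivAt z (lf (zu p) (zv p)) p) :
    DifferentiableAt ℝ (vec x y z) p ∧ Du (vec x y z) p = vec xu yu zu p ∧
      Dv (vec x y z) p = vec xv yv zv p := by
  have h1 : ∀ i : Fin 3, HasFDerivAt (fun q => vec x y z q i)
      (![lf (xu p) (xv p), lf (yu p) (yv p), lf (zu p) (zv p)] i) p := by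
    intro i
    fin_cases i
    · exact hx
    · exact hy
    · exact hz
  have h2 : HasFDerivAt (fun q => (WithLp.ofLp (vec x y z q) : Fin 3 → ℝ))
      (ContinuousLinearMap.pi fun i =>
        (![lf (xu p) (xv p), lf (yu p) (yv p), lf (zu p) (zv p)] i)) p :=
    hasFDerivAt_pi.mpr h1
  have h3 : HasFDerivAt (vec x y z)
      (((PiLp.continuousLinearEquiv 2 ℝ (fun _ : Fin 3 => ℝ)).symm :
        (Fin 3 → ℝ) →L[ℝ] E3).comp (ContinuousLinearMap.pi fun i =>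
        (![lf (xu p) (xv p), lf (yu p) (yv p), lf (zu p) (zv p)] i))) p := by
    have := ((PiLp.continuousLinearEquiv 2 ℝ (fun _ : Fin 3 => ℝ)).symm :
        (Fin 3 → ℝ) →L[ℝ] E3).hasFDerivAt.comp p h2
    exact this
  refine ⟨h3.differentiableAt, ?_, ?_⟩
  · unfold Du
    rw [h3.fderiv]
    ext i
    fin_cases i <;> simp [vec, lf_apply]
  · unfold Dv
    rw [h3.fderiv]
    ext i
    fin_cases i <;> simp [vec, lf_apply]

theorem vec_contDiff {x y z : ℝ × ℝ → ℝ} (hx : ContDiff ℝ ∞ x) (hy : ContDiff ℝ ∞ y)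
    (hz : ContDiff ℝ ∞ z) : ContDiff ℝ ∞ (vec x y z) := by
  have h2 : ContDiff ℝ ∞ (fun q => (WithLp.ofLp (vec x y z q) : Fin 3 → ℝ)) := by
    rw [contDiff_pi]
    intro i
    fin_cases i
    · exact hx
    · exact hy
    · exact hz
  exact ((PiLp.continuousLinearEquiv 2 ℝ (fun _ : Fin 3 => ℝ)).symm :
        (Fin 3 → ℝ) →L[ℝ] E3).contDiff.comp h2

theorem inner_vec (x y z x' y' z' : ℝ × ℝ → ℝ) (p : ℝ × ℝ) :
    ⟪vec x y z p, vec x' y' z' p⟫ = x p * x' p + y p * y' p + z p * z' p := by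
  simp [vec, PiLp.inner_apply, Fin.sum_univ_three, mul_comm]

/-- the data of a surface: three coordinate functions with their derivatives -/
structure Surf where
  x : ℝ × ℝ → ℝ
  y : ℝ × ℝ → ℝ
  z : ℝ × ℝ → ℝ
  xu : ℝ × ℝ → ℝ
  xv : ℝ × ℝ → ℝ
  yu : ℝ × ℝ → ℝ
  yv : ℝ × ℝ → ℝ
  zu : ℝ × ℝ → ℝ
  zv : ℝ × ℝ → ℝ
  xuu : ℝ × ℝ → ℝ
  xuv : ℝ × ℝ → ℝ
  xvv : ℝ × ℝ → ℝ
  yuu : ℝ × ℝ → ℝ
  yuv : ℝ × ℝ → ℝ
  yvv : ℝ × ℝ → ℝ
  zuu : ℝ × ℝ → ℝ
  zuv : ℝ × ℝ → ℝ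
  zvv : ℝ × ℝ → ℝ
  jx : Jet2 x xu xv xuu xuv xvv
  jy : Jet2 y yu yv yuu yuv yvv
  jz : Jet2 z zu zv zuu zuv zvv
  px : ∀ u v, x (u + 2 * Real.pi, v) = x (u, v)
  px' : ∀ u v, x (u, v + 2 * Real.pi) = x (u, v)
  py : ∀ u v, y (u + 2 * Real.pi, v) = y (u, v)
  py' : ∀ u v, y (u, v + 2 * Real.pi) = y (u, v)
  pz : ∀ u v, z (u + 2 * Real.pi, v) = z (u, v)
  pz' : ∀ u v, z (u, v + 2 * Real.pi) = z (u, v)

namespace Surf

variable (S : Surf)

/-- the parametrisation -/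
noncomputable def X : ℝ × ℝ → E3 := vec S.x S.y S.z

/-- the components of the normal vector `X_u × X_v` -/
noncomputable def n1 (p : ℝ × ℝ) : ℝ := S.yu p * S.zv p - S.zu p * S.yv p
noncomputable def n2 (p : ℝ × ℝ) : ℝ := S.zu p * S.xv p - S.xu p * S.zv p
noncomputable def n3 (p : ℝ × ℝ) : ℝ := S.xu p * S.yv p - S.yu p * S.xv p

/-- the first fundamental form -/
noncomputable def E (p : ℝ × ℝ) : ℝ := S.xu p * S.xu p + S.yu p * S.yu p + S.zu p * S.zu p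
noncomputable def F (p : ℝ × ℝ) : ℝ := S.xu p * S.xv p + S.yu p * S.yv p + S.zu p * S.zv p
noncomputable def G (p : ℝ × ℝ) : ℝ := S.xv p * S.xv p + S.yv p * S.yv p + S.zv p * S.zv p

/-- the polynomial form of the shrinker equation -/
noncomputable def P (p : ℝ × ℝ) : ℝ :=
  S.G p * (S.xuu p * S.n1 p + S.yuu p * S.n2 p + S.zuu p * S.n3 p) -
    2 * S.F p * (S.xuv p * S.n1 p + S.yuv p * S.n2 p + S.zuv p * S.n3 p) +
    S.E p * (S.xvv p * S.n1 p + S.yvv p * S.n2 p + S.zvv p * S.n3 p) +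
    (S.E p * S.G p - S.F p ^ 2) / 2 * (S.x p * S.n1 p + S.y p * S.n2 p + S.z p * S.n3 p)

/-- the quantity which has to be positive for the second angle to be increasing -/
noncomputable def J (S0 : ℝ) (p : ℝ × ℝ) : ℝ :=
  -((S.x p ^ 2 + S.y p ^ 2 - S0) * (S.x p * S.n1 p + S.y p * S.n2 p) +
    2 * (S.x p ^ 2 + S.y p ^ 2) * S.z p * S.n3 p)

theorem Du_X (p : ℝ × ℝ) : Du S.X p = vec S.xu S.yu S.zu p :=
  (vec_hasFDerivAt (S.jx.d p) (S.jy.d p) (S.jz.d p)).2.1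

theorem Dv_X (p : ℝ × ℝ) : Dv S.X p = vec S.xv S.yv S.zv p :=
  (vec_hasFDerivAt (S.jx.d p) (S.jy.d p) (S.jz.d p)).2.2

theorem Duu_X (p : ℝ × ℝ) : Du (Du S.X) p = vec S.xuu S.yuu S.zuu p := by
  have : Du S.X = vec S.xu S.yu S.zu := funext S.Du_X
  rw [this]
  exact (vec_hasFDerivAt (S.jx.du p) (S.jy.du p) (S.jz.du p)).2.1

theorem Duv_X (p : ℝ × ℝ) : Du (Dv S.X) p = vec S.xuv S.yuv S.zuv p := by
  have : Dv S.X = vec S.xv S.yv S.zv := funext S.Dv_X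
  rw [this]
  exact (vec_hasFDerivAt (S.jx.dv p) (S.jy.dv p) (S.jz.dv p)).2.1

theorem Dvv_X (p : ℝ × ℝ) : Dv (Dv S.X) p = vec S.xvv S.yvv S.zvv p := by
  have : Dv S.X = vec S.xv S.yv S.zv := funext S.Dv_X
  rw [this]
  exact (vec_hasFDerivAt (S.jx.dv p) (S.jy.dv p) (S.jz.dv p)).2.2

theorem cross_X (p : ℝ × ℝ) : cross (Du S.X p) (Dv S.X p) = vec S.n1 S.n2 S.n3 p := by
  rw [S.Du_X, S.Dv_X]
  ext i
  fin_cases i <;> simp [cross, vec, n1, n2, n3]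

/-- the positivity conditions imply that the surface is an embedded torus -/
theorem isTorusEmbedding {S0 c : ℝ} (hc : 0 < c)
    (h1 : ∀ p : ℝ × ℝ, 0 < S.x p * Real.cos p.2 + S.y p * Real.sin p.2)
    (h2 : ∀ p : ℝ × ℝ, 0 < (S.x p ^ 2 + S.y p ^ 2 - S0) * Real.cos p.1 +
      c * S.z p * Real.sin p.1)
    (h3 : ∀ p, 0 < S.x p * S.yv p - S.y p * S.xv p)
    (h4 : ∀ p, 0 < S.J S0 p) : IsTorusEmbedding S.X where
  smooth := vec_contDiff S.jx.smooth S.jy.smooth S.jz.smooth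
  periodic_u := by
    intro u v
    unfold X vec
    rw [S.px, S.py, S.pz]
  periodic_v := by
    intro u v
    unfold X vec
    rw [S.px', S.py', S.pz']
  immersed := by
    intro p hp
    rw [S.cross_X] at hp
    have e1 : S.n1 p = 0 := by simpa [vec] using congrArg (fun w : E3 => w 0) hp
    have e2 : S.n2 p = 0 := by simpa [vec] using congrArg (fun w : E3 => w 1) hp
    have e3 : S.n3 p = 0 := by simpa [vec] using congrArg (fun w : E3 => w 2) hp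
    have := h4 p
    unfold J at this
    rw [e1, e2, e3] at this
    simp at this
  embedded := by
    intro u v u' v' h
    have e1 : S.x (u, v) = S.x (u', v') := by simpa [X, vec] using congrArg (fun w : E3 => w 0) h
    have e2 : S.y (u, v) = S.y (u', v') := by simpa [X, vec] using congrArg (fun w : E3 => w 1) h
    have e3 : S.z (u, v) = S.z (u', v') := by simpa [X, vec] using congrArg (fun w : E3 => w 2) h
    refine torus_inj hc S.jx.strict S.jy.strict S.jz.strict S.px S.px' S.py S.py' S.pz S.pz'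
      h1 h2 h3 ?_ e1 e2 e3
    intro p
    have := h4 p
    unfold J n1 n2 n3 at this
    linarith

/-- the polynomial equation implies the shrinker equation -/
theorem shrinker (hi : ∀ p, cross (Du S.X p) (Dv S.X p) ≠ 0) (hP : ∀ p, S.P p = 0) (p : ℝ × ℝ) :
    meanCurv S.X p = ⟪S.X p, normal S.X p⟫ / 2 := by
  have hn := hi p
  rw [S.cross_X] at hn
  have hpos : 0 < ‖vec S.n1 S.n2 S.n3 p‖ := norm_pos_iff.mpr hn
  have hsq : ‖vec S.n1 S.n2 S.n3 p‖ ^ 2 = S.n1 p * S.n1 p + S.n2 p * S.n2 p + S.n3 p * S.n3 p := by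
    rw [← real_inner_self_eq_norm_sq, inner_vec]
  have hL : S.E p * S.G p - S.F p ^ 2 =
      S.n1 p * S.n1 p + S.n2 p * S.n2 p + S.n3 p * S.n3 p := by
    unfold E F G n1 n2 n3
    ring
  have hD : 0 < S.E p * S.G p - S.F p ^ 2 := by
    rw [hL, ← hsq]
    positivity
  unfold meanCurv normal
  rw [S.cross_X, S.Duu_X, S.Duv_X, S.Dvv_X, S.Du_X, S.Dv_X]
  simp only [inner_smul_right, inner_vec]
  change -(S.G p * _ - 2 * S.F p * _ + S.E p * _) / (S.E p * S.G p - S.F p ^ 2) = _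
  have hX : ⟪S.X p, vec S.n1 S.n2 S.n3 p⟫ = S.x p * S.n1 p + S.y p * S.n2 p + S.z p * S.n3 p :=
    inner_vec _ _ _ _ _ _ _
  rw [hX, div_eq_iff hD.ne']
  have := hP p
  unfold P at this
  linear_combination (-‖vec S.n1 S.n2 S.n3 p‖⁻¹) * this

theorem isShrinkingTorus {S0 c : ℝ} (hc : 0 < c)
    (h1 : ∀ p : ℝ × ℝ, 0 < S.x p * Real.cos p.2 + S.y p * Real.sin p.2)
    (h2 : ∀ p : ℝ × ℝ, 0 < (S.x p ^ 2 + S.y p ^ 2 - S0) * Real.cos p.1 +
      c * S.z p * Real.sin p.1)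
    (h3 : ∀ p, 0 < S.x p * S.yv p - S.y p * S.xv p)
    (h4 : ∀ p, 0 < S.J S0 p) (hP : ∀ p, S.P p = 0) : IsShrinkingTorus (range S.X) :=
  ⟨S.X, S.isTorusEmbedding hc h1 h2 h3 h4,
    S.shrinker (S.isTorusEmbedding hc h1 h2 h3 h4).immersed hP, rfl⟩

end Surf

/-- Surfaces of different circumradius are not congruent. -/
theorem not_congruent (A B : Surf) {R : ℝ} (hA : ∀ p, A.x p ^ 2 + A.y p ^ 2 + A.z p ^ 2 ≤ R)
    {q : ℝ × ℝ} (hB : R < B.x q ^ 2 + B.y q ^ 2 + B.z q ^ 2) (g : E3 ≃ₗᵢ[ℝ] E3) :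
    g '' range A.X ≠ range B.X := by
  intro h
  have hn : ∀ (S : Surf) p, ‖S.X p‖ ^ 2 = S.x p ^ 2 + S.y p ^ 2 + S.z p ^ 2 := by
    intro S p
    rw [← real_inner_self_eq_norm_sq]
    unfold Surf.X
    rw [inner_vec]
    ring
  have hm : B.X q ∈ g '' range A.X := by
    rw [h]
    exact ⟨q, rfl⟩
  obtain ⟨_, ⟨p, rfl⟩, hp⟩ := hm
  have h1 := hn B q
  rw [← hp, g.norm_map, hn A p] at h1
  have := hA p
  linarith

end D3
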