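import Pool.Agent.H.MP_ce2c94_gt.D3Hat

/-!
The bridge from the algebra `W` to surfaces in a rotating frame.
-/

open Set Filter Topology
open scoped ContDiff RealInnerProductSpace

set_option linter.unusedSimpArgs false

namespace D3

/-- three elements with their derivatives: `P`, `Q' = i Q`, `Z' = i Z` -/
structure Hat (W : Type*) where
  P : HJet W
  Q : HJet W
  Z : HJet W

namespace Hat

variable {W : Type*} [CommRing W] [Algebra ℝ W] (N : ℕ) (h : Hat W)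

/-- the components of `D X`, `D = N D_t + J` -/
def a1 : W := N * h.P.ft + h.Q.f
def a2 : W := N * h.Q.ft + h.P.f
def a3 : W := N * h.Z.ft
/-- the components of `D X_u` -/
def b1 : W := N * h.P.fut + h.Q.fu
def b2 : W := N * h.Q.fut + h.P.fu
def b3 : W := N * h.Z.fut
/-- the components of `D D X` -/
def c1 : W := N * (N * h.P.ftt + h.Q.ft) + h.a2 N
def c2 : W := N * (N * h.Q.ftt + h.P.ft) + h.a1 N
def c3 : W := N * (N * h.Z.ftt)
/-- the normal vector -/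
def n1 : W := h.Q.fu * h.a3 N - h.Z.fu * h.a2 N
def n2 : W := h.Z.fu * h.a1 N - h.P.fu * h.a3 N
def n3 : W := h.P.fu * h.a2 N - h.Q.fu * h.a1 N
/-- the first fundamental form -/
def E : W := -(h.P.fu * h.P.fu) + h.Q.fu * h.Q.fu + h.Z.fu * h.Z.fu
def F : W := -(h.P.fu * h.a1 N) + h.Q.fu * h.a2 N + h.Z.fu * h.a3 N
def G : W := -(h.a1 N * h.a1 N) + h.a2 N * h.a2 N + h.a3 N * h.a3 N

/-- the shrinker polynomial (the negative of `Rot.Eqn`) -/
noncomputable def eqn : W :=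
  h.G N * (h.P.fuu * h.n1 N + h.Q.fuu * h.n2 N + h.Z.fuu * h.n3 N) -
    2 * h.F N * (h.b1 N * h.n1 N + h.b2 N * h.n2 N + h.b3 N * h.n3 N) +
    h.E * (h.c1 N * h.n1 N + h.c2 N * h.n2 N + h.c3 N * h.n3 N) -
    algebraMap ℝ W (1 / 2) * (h.E * h.G N - h.F N * h.F N) *
      (h.P.f * h.n1 N + h.Q.f * h.n2 N + h.Z.f * h.n3 N)

/-- the squared distance from the axis -/
def rho : W := h.P.f * h.P.f - h.Q.f * h.Q.f

/-- the quantity of the first angle -/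
def ang : W := h.P.f * h.a2 N - h.Q.f * h.a1 N

/-- the quantity of the second angle -/
noncomputable def jac (S0 : ℝ) : W :=
  -((h.rho - algebraMap ℝ W S0) * (h.P.f * h.n1 N + h.Q.f * h.n2 N) +
    2 * h.rho * h.Z.f * h.n3 N)

end Hat

section bridge

variable {W : Type*} [CommRing W] [Algebra ℝ W] {ev : ℝ × ℝ → W →ₐ[ℝ] ℂ}

theorem IsJet.cjet {j : HJet W} (h : IsJet ev j) :
    CJet2 (fun p => ev p j.f) (fun p => Complex.I * ev p j.fu) (fun p => Complex.I * ev p j.ft)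
      (fun p => -ev p j.fuu) (fun p => -ev p j.fut) (fun p => -ev p j.ftt) where
  smooth := h.smooth
  d := h.d
  du := fun p => (fd_const_mul Complex.I (h.du p)).congr_fderiv
    (clf_congr (by linear_combination (ev p j.fuu) * Complex.I_sq)
      (by linear_combination (ev p j.fut) * Complex.I_sq))
  dv := fun p => (fd_const_mul Complex.I (h.dt p)).congr_fderiv
    (clf_congr (by linear_combination (ev p j.fut) * Complex.I_sq)
      (by linear_combination (ev p j.ftt) * Complex.I_sq))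

theorem IsJet.cjet' {j : HJet W} (h : IsJet ev j) :
    CJet2 (fun p => -Complex.I * ev p j.f) (fun p => ev p j.fu) (fun p => ev p j.ft)
      (fun p => Complex.I * ev p j.fuu) (fun p => Complex.I * ev p j.fut)
      (fun p => Complex.I * ev p j.ftt) where
  smooth := contDiff_const.mul h.smooth
  d := fun p => (fd_const_mul (-Complex.I) (h.d p)).congr_fderiv
    (clf_congr (by linear_combination (-ev p j.fu) * Complex.I_sq)
      (by linear_combination (-ev p j.ft) * Complex.I_sq))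
  du := h.du
  dv := h.dt

/-- the conditions on three elements to define a surface in the rotating frame -/
structure IsHat (ev : ℝ × ℝ → W →ₐ[ℝ] ℂ) (h : Hat W) : Prop where
  per : ∀ u t w, ev (u + 2 * Real.pi, t) w = ev (u, t) w
  per' : ∀ u t w, ev (u, t + 2 * Real.pi) w = ev (u, t) w
  jP : IsJet ev h.P
  jQ : IsJet ev h.Q
  jZ : IsJet ev h.Z
  rP : ∀ p, (ev p h.P.f).im = 0
  rQ : ∀ p, (ev p h.Q.f).re = 0
  rZ : ∀ p, (ev p h.Z.f).re = 0

/-- the surface in the rotating frame -/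
noncomputable def IsHat.rot {h : Hat W} (H : IsHat ev h) (N : ℕ) : Rot where
  N := N
  P := fun p => (ev p h.P.f).re
  Q := fun p => (-Complex.I * ev p h.Q.f).re
  Z := fun p => (-Complex.I * ev p h.Z.f).re
  Pu := fun p => (Complex.I * ev p h.P.fu).re
  Pt := fun p => (Complex.I * ev p h.P.ft).re
  Qu := fun p => (ev p h.Q.fu).re
  Qt := fun p => (ev p h.Q.ft).re
  Zu := fun p => (ev p h.Z.fu).re
  Zt := fun p => (ev p h.Z.ft).re
  Puu := fun p => (-ev p h.P.fuu).re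
  Put := fun p => (-ev p h.P.fut).re
  Ptt := fun p => (-ev p h.P.ftt).re
  Quu := fun p => (Complex.I * ev p h.Q.fuu).re
  Qut := fun p => (Complex.I * ev p h.Q.fut).re
  Qtt := fun p => (Complex.I * ev p h.Q.ftt).re
  Zuu := fun p => (Complex.I * ev p h.Z.fuu).re
  Zut := fun p => (Complex.I * ev p h.Z.fut).re
  Ztt := fun p => (Complex.I * ev p h.Z.ftt).re
  jP := H.jP.cjet.re
  jQ := H.jQ.cjet'.re
  jZ := H.jZ.cjet'.re
  pP := fun u t => by simp only [H.per]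
  pP' := fun u t => by simp only [H.per']
  pQ := fun u t => by simp only [H.per]
  pQ' := fun u t => by simp only [H.per']
  pZ := fun u t => by simp only [H.per]
  pZ' := fun u t => by simp only [H.per']

variable {h : Hat W} (H : IsHat ev h) (N : ℕ)

theorem IsHat.P_real (p : ℝ × ℝ) :
    ((H.rot N).P p : ℂ) = ev p h.P.f ∧ ((H.rot N).Pu p : ℂ) = Complex.I * ev p h.P.fu ∧
      ((H.rot N).Pt p : ℂ) = Complex.I * ev p h.P.ft ∧
      ((H.rot N).Puu p : ℂ) = -ev p h.P.fuu ∧ ((H.rot N).Put p : ℂ) = -ev p h.P.fut ∧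
      ((H.rot N).Ptt p : ℂ) = -ev p h.P.ftt := by
  obtain ⟨h1, h2, h3, h4, h5, h6⟩ := H.jP.cjet.real H.rP p
  exact ⟨h1.symm, h2.symm, h3.symm, h4.symm, h5.symm, h6.symm⟩

theorem im_of_re {z : ℂ} (h : z.re = 0) : (-Complex.I * z).im = 0 := by
  simp [h]

theorem IsHat.Q_real (p : ℝ × ℝ) :
    ((H.rot N).Q p : ℂ) = -Complex.I * ev p h.Q.f ∧ ((H.rot N).Qu p : ℂ) = ev p h.Q.fu ∧
      ((H.rot N).Qt p : ℂ) = ev p h.Q.ft ∧
      ((H.rot N).Quu p : ℂ) = Complex.I * ev p h.Q.fuu ∧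
      ((H.rot N).Qut p : ℂ) = Complex.I * ev p h.Q.fut ∧
      ((H.rot N).Qtt p : ℂ) = Complex.I * ev p h.Q.ftt := by
  obtain ⟨h1, h2, h3, h4, h5, h6⟩ := H.jQ.cjet'.real (fun p => im_of_re (H.rQ p)) p
  exact ⟨h1.symm, h2.symm, h3.symm, h4.symm, h5.symm, h6.symm⟩

theorem IsHat.Z_real (p : ℝ × ℝ) :
    ((H.rot N).Z p : ℂ) = -Complex.I * ev p h.Z.f ∧ ((H.rot N).Zu p : ℂ) = ev p h.Z.fu ∧
      ((H.rot N).Zt p : ℂ) = ev p h.Z.ft ∧
      ((H.rot N).Zuu p : ℂ) = Complex.I * ev p h.Z.fuu ∧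
      ((H.rot N).Zut p : ℂ) = Complex.I * ev p h.Z.fut ∧
      ((H.rot N).Ztt p : ℂ) = Complex.I * ev p h.Z.ftt := by
  obtain ⟨h1, h2, h3, h4, h5, h6⟩ := H.jZ.cjet'.real (fun p => im_of_re (H.rZ p)) p
  exact ⟨h1.symm, h2.symm, h3.symm, h4.symm, h5.symm, h6.symm⟩

theorem IsHat.D_eq (p : ℝ × ℝ) :
    ((H.rot N).DP p : ℂ) = Complex.I * ev p (h.a1 N) ∧ ((H.rot N).DQ p : ℂ) = ev p (h.a2 N) ∧
      ((H.rot N).DZ p : ℂ) = ev p (h.a3 N) ∧
      ((H.rot N).DPu p : ℂ) = -ev p (h.b1 N) ∧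
      ((H.rot N).DQu p : ℂ) = Complex.I * ev p (h.b2 N) ∧
      ((H.rot N).DZu p : ℂ) = Complex.I * ev p (h.b3 N) := by
  obtain ⟨P0, Pu, Pt, Puu, Put, Ptt⟩ := H.P_real N p
  obtain ⟨Q0, Qu, Qt, Quu, Qut, Qtt⟩ := H.Q_real N p
  obtain ⟨Z0, Zu, Zt, Zuu, Zut, Ztt⟩ := H.Z_real N p
  have hN : (H.rot N).N = N := rfl
  have hI := Complex.I_sq
  simp only [Rot.DP, Rot.DQ, Rot.DZ, Rot.DPu, Rot.DQu, Rot.DZu, Hat.a1, Hat.a2, Hat.a3,
    Hat.b1, Hat.b2, Hat.b3, hN, Complex.ofReal_add, Complex.ofReal_sub, Complex.ofReal_mul,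
    Complex.ofReal_natCast, P0, Pu, Pt, Puu, Put, Ptt, Q0, Qu, Qt, Quu, Qut, Qtt, Z0, Zu, Zt,
    Zuu, Zut, Ztt, map_add, map_mul, map_natCast]
  refine ⟨?_, ?_, ?_, ?_, ?_, ?_⟩ <;> first | trivial | ring

theorem IsHat.DD_eq (p : ℝ × ℝ) :
    ((H.rot N).DDP p : ℂ) = -ev p (h.c1 N) ∧ ((H.rot N).DDQ p : ℂ) = Complex.I * ev p (h.c2 N) ∧
      ((H.rot N).DDZ p : ℂ) = Complex.I * ev p (h.c3 N) := by
  obtain ⟨P0, Pu, Pt, Puu, Put, Ptt⟩ := H.P_real N p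
  obtain ⟨Q0, Qu, Qt, Quu, Qut, Qtt⟩ := H.Q_real N p
  obtain ⟨Z0, Zu, Zt, Zuu, Zut, Ztt⟩ := H.Z_real N p
  obtain ⟨DP, DQ, DZ, _⟩ := H.D_eq N p
  have hN : (H.rot N).N = N := rfl
  have hI := Complex.I_sq
  simp only [Rot.DDP, Rot.DDQ, Rot.DDZ, Hat.c1, Hat.c2, Hat.c3, hN, Complex.ofReal_add,
    Complex.ofReal_sub, Complex.ofReal_mul, Complex.ofReal_natCast, P0, Pu, Pt, Puu, Put, Ptt,
    Q0, Qu, Qt, Quu, Qut, Qtt, Z0, Zu, Zt, Zuu, Zut, Ztt, DP, DQ, DZ, map_add, map_mul,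
    map_natCast]
  refine ⟨?_, ?_, ?_⟩ <;> first | trivial | ring

theorem IsHat.m_eq (p : ℝ × ℝ) :
    ((H.rot N).m1 p : ℂ) = ev p (h.n1 N) ∧ ((H.rot N).m2 p : ℂ) = Complex.I * ev p (h.n2 N) ∧
      ((H.rot N).m3 p : ℂ) = Complex.I * ev p (h.n3 N) := by
  obtain ⟨P0, Pu, Pt, Puu, Put, Ptt⟩ := H.P_real N p
  obtain ⟨Q0, Qu, Qt, Quu, Qut, Qtt⟩ := H.Q_real N p
  obtain ⟨Z0, Zu, Zt, Zuu, Zut, Ztt⟩ := H.Z_real N p
  obtain ⟨DP, DQ, DZ, _⟩ := H.D_eq N p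
  simp only [Rot.m1, Rot.m2, Rot.m3, Hat.n1, Hat.n2, Hat.n3, Complex.ofReal_sub,
    Complex.ofReal_mul, Pu, Qu, Zu, DP, DQ, DZ, map_sub, map_mul]
  refine ⟨?_, ?_, ?_⟩ <;> first | trivial | ring

theorem IsHat.E_eq (p : ℝ × ℝ) : ((H.rot N).E p : ℂ) = ev p h.E ∧
    ((H.rot N).F p : ℂ) = ev p (h.F N) ∧ ((H.rot N).G p : ℂ) = ev p (h.G N) := by
  obtain ⟨P0, Pu, Pt, Puu, Put, Ptt⟩ := H.P_real N p
  obtain ⟨Q0, Qu, Qt, Quu, Qut, Qtt⟩ := H.Q_real N p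
  obtain ⟨Z0, Zu, Zt, Zuu, Zut, Ztt⟩ := H.Z_real N p
  obtain ⟨DP, DQ, DZ, _⟩ := H.D_eq N p
  have hI := Complex.I_sq
  simp only [Rot.E, Rot.F, Rot.G, Hat.E, Hat.F, Hat.G, Complex.ofReal_add,
    Complex.ofReal_mul, Pu, Qu, Zu, DP, DQ, DZ, map_add, map_mul, map_neg]
  refine ⟨?_, ?_, ?_⟩
  · linear_combination (ev p h.P.fu * ev p h.P.fu) * hI
  · linear_combination (ev p h.P.fu * ev p (h.a1 N)) * hI
  · linear_combination (ev p (h.a1 N) * ev p (h.a1 N)) * hI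

theorem ev_algebraMap (p : ℝ × ℝ) (x : ℝ) : ev p (algebraMap ℝ W x) = (x : ℂ) := by
  rw [AlgHom.commutes]
  rfl

theorem IsHat.Eqn_eq (p : ℝ × ℝ) : ((H.rot N).Eqn p : ℂ) = -ev p (h.eqn N) := by
  obtain ⟨P0, Pu, Pt, Puu, Put, Ptt⟩ := H.P_real N p
  obtain ⟨Q0, Qu, Qt, Quu, Qut, Qtt⟩ := H.Q_real N p
  obtain ⟨Z0, Zu, Zt, Zuu, Zut, Ztt⟩ := H.Z_real N p
  obtain ⟨_, _, _, DPu, DQu, DZu⟩ := H.D_eq N p
  obtain ⟨DDP, DDQ, DDZ⟩ := H.DD_eq N p
  obtain ⟨m1, m2, m3⟩ := H.m_eq N p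
  obtain ⟨E, F, G⟩ := H.E_eq N p
  have hI := Complex.I_sq
  have h2 : ev p (algebraMap ℝ W (1 / 2)) = 1 / 2 := by
    rw [ev_algebraMap]
    norm_num
  simp only [Rot.Eqn, Hat.eqn, Complex.ofReal_add, Complex.ofReal_sub, Complex.ofReal_mul,
    Complex.ofReal_pow, Complex.ofReal_div, Complex.ofReal_ofNat, P0, Q0, Z0, Puu, Quu, Zuu,
    DPu, DQu, DZu, DDP, DDQ, DDZ, m1, m2, m3, E, F, G, map_add, map_sub, map_mul, map_ofNat, h2]
  generalize ev p h.P.f = x1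
  generalize ev p h.Q.f = x2
  generalize ev p h.Z.f = x3
  generalize ev p h.P.fuu = x4
  generalize ev p h.Q.fuu = x5
  generalize ev p h.Z.fuu = x6
  generalize ev p (h.b1 N) = x7
  generalize ev p (h.b2 N) = x8
  generalize ev p (h.b3 N) = x9
  generalize ev p (h.c1 N) = y1
  generalize ev p (h.c2 N) = y2
  generalize ev p (h.c3 N) = y3
  generalize ev p (h.n1 N) = y4
  generalize ev p (h.n2 N) = y5
  generalize ev p (h.n3 N) = y6
  generalize ev p h.E = z1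
  generalize ev p (h.F N) = z2
  generalize ev p (h.G N) = z3
  linear_combination (z3 * (x5 * y5 + x6 * y6) - 2 * z2 * (x8 * y5 + x9 * y6) +
    z1 * (y2 * y5 + y3 * y6) - (z1 * z3 - z2 ^ 2) / 2 * (x2 * y5 + x3 * y6)) * hI

theorem IsHat.rho_eq (p : ℝ × ℝ) :
    (((H.rot N).P p ^ 2 + (H.rot N).Q p ^ 2 : ℝ) : ℂ) = ev p h.rho := by
  obtain ⟨P0, _⟩ := H.P_real N p
  obtain ⟨Q0, _⟩ := H.Q_real N p
  have hI := Complex.I_sq
  simp only [Hat.rho, Complex.ofReal_add, Complex.ofReal_pow, P0, Q0, map_sub, map_mul]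
  linear_combination (ev p h.Q.f * ev p h.Q.f) * hI

theorem IsHat.ang_eq (p : ℝ × ℝ) :
    (((H.rot N).P p * (H.rot N).DQ p - (H.rot N).Q p * (H.rot N).DP p : ℝ) : ℂ) =
      ev p (h.ang N) := by
  obtain ⟨P0, _⟩ := H.P_real N p
  obtain ⟨Q0, _⟩ := H.Q_real N p
  obtain ⟨DP, DQ, _⟩ := H.D_eq N p
  have hI := Complex.I_sq
  simp only [Hat.ang, Complex.ofReal_sub, Complex.ofReal_mul, P0, Q0, DP, DQ, map_sub, map_mul]
  linear_combination (ev p h.Q.f * ev p (h.a1 N)) * hI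

theorem IsHat.Jac_eq (S0 : ℝ) (p : ℝ × ℝ) :
    ((H.rot N).Jac S0 p : ℂ) = ev p (h.jac N S0) := by
  obtain ⟨P0, _⟩ := H.P_real N p
  obtain ⟨Q0, _⟩ := H.Q_real N p
  obtain ⟨Z0, _⟩ := H.Z_real N p
  obtain ⟨m1, m2, m3⟩ := H.m_eq N p
  have hr := H.rho_eq N p
  have hI := Complex.I_sq
  have e : (H.rot N).Jac S0 p = -(((H.rot N).P p ^ 2 + (H.rot N).Q p ^ 2 - S0) *
      ((H.rot N).P p * (H.rot N).m1 p + (H.rot N).Q p * (H.rot N).m2 p) +
    2 * ((H.rot N).P p ^ 2 + (H.rot N).Q p ^ 2) * (H.rot N).Z p * (H.rot N).m3 p) := rfl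
  rw [e]
  rw [Complex.ofReal_neg, Complex.ofReal_add, Complex.ofReal_mul, Complex.ofReal_mul,
    Complex.ofReal_mul, Complex.ofReal_mul, Complex.ofReal_sub, hr]
  simp only [Hat.jac, Complex.ofReal_add, Complex.ofReal_mul,
    Complex.ofReal_ofNat, P0, Q0, Z0, m1, m2, m3, map_add, map_sub, map_mul, map_neg, map_ofNat,
    ev_algebraMap]
  linear_combination ((ev p h.rho - S0) * ev p h.Q.f * ev p (h.n2 N) +
    2 * ev p h.rho * ev p h.Z.f * ev p (h.n3 N)) * hI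

/-- the quantity of the second angle at the base: `e1 = e^{iu}`, `e1' = e^{-iu}` -/
noncomputable def Hat.cosq (h : Hat W) (e1 e1' : W) (S0 c : ℝ) : W :=
  algebraMap ℝ W (1 / 2) * ((h.rho - algebraMap ℝ W S0) * (e1 + e1') -
    algebraMap ℝ W c * h.Z.f * (e1 - e1'))

theorem IsHat.cosq_eq {e1 e1' : W} (he : ∀ p : ℝ × ℝ, ev p e1 = Complex.exp (Complex.I * p.1))
    (he' : ∀ p : ℝ × ℝ, ev p e1' = Complex.exp (-(Complex.I * p.1))) (S0 c : ℝ) (p : ℝ × ℝ) :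
    ((((H.rot N).P p ^ 2 + (H.rot N).Q p ^ 2 - S0) * Real.cos p.1 +
      c * (H.rot N).Z p * Real.sin p.1 : ℝ) : ℂ) = ev p (h.cosq e1 e1' S0 c) := by
  obtain ⟨Z0, _⟩ := H.Z_real N p
  have hr := H.rho_eq N p
  have hI := Complex.I_sq
  rw [Complex.ofReal_add, Complex.ofReal_mul, Complex.ofReal_mul, Complex.ofReal_mul,
    Complex.ofReal_sub, hr, Complex.ofReal_cos, Complex.ofReal_sin, Z0]
  have h2 : ev p (algebraMap ℝ W (1 / 2)) = 1 / 2 := by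
    rw [ev_algebraMap]
    norm_num
  simp only [Hat.cosq, map_add, map_sub, map_mul, ev_algebraMap p S0, ev_algebraMap p c, h2, he,
    he']
  have hc : Complex.cos (p.1 : ℂ) = (Complex.exp (Complex.I * p.1) +
      Complex.exp (-(Complex.I * p.1))) / 2 := by
    rw [Complex.cos]
    congr 2 <;> ring_nf
  have hs : Complex.sin (p.1 : ℂ) = (Complex.exp (-(Complex.I * p.1)) -
      Complex.exp (Complex.I * p.1)) * Complex.I / 2 := by
    rw [Complex.sin]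
    congr 3 <;> ring_nf
  rw [hc, hs]
  linear_combination (-(c : ℂ) * ev p h.Z.f * (Complex.exp (-(Complex.I * p.1)) -
      Complex.exp (Complex.I * p.1)) / 2) * hI

/-- The conditions in the algebra `W` imply that the surface is a shrinking torus. -/
theorem IsHat.isShrinkingTorus {e1 e1' : W}
    (he : ∀ p : ℝ × ℝ, ev p e1 = Complex.exp (Complex.I * p.1))
    (he' : ∀ p : ℝ × ℝ, ev p e1' = Complex.exp (-(Complex.I * p.1)))
    {S0 c : ℝ} (hc : 0 < c) (h1 : ∀ p, 0 < (ev p h.P.f).re)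
    (h2 : ∀ p, 0 < (ev p (h.cosq e1 e1' S0 c)).re)
    (h3 : ∀ p, 0 < (ev p (h.ang N)).re)
    (h4 : ∀ p, 0 < (ev p (h.jac N S0)).re) (h5 : ∀ p, ev p (h.eqn N) = 0) :
    IsShrinkingTorus (range (H.rot N).toSurf.X) := by
  apply (H.rot N).isShrinkingTorus hc (S0 := S0) h1
  · intro p
    have := h2 p
    rw [← H.cosq_eq N he he' S0 c p, Complex.ofReal_re] at this
    exact this
  · intro p
    have := h3 p
    rw [← H.ang_eq N p, Complex.ofReal_re] at this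
    exact this
  · intro p
    have := h4 p
    rw [← H.Jac_eq N S0 p, Complex.ofReal_re] at this
    exact this
  · intro p
    have := H.Eqn_eq N p
    rw [h5 p, neg_zero] at this
    exact_mod_cast this

end bridge

end D3
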