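import Mathlib

/-!
Closed embedded self-shrinking tori in space.
-/

open Set
open scoped ContDiff RealInnerProductSpace

namespace D3

/-- Euclidean three-space -/
abbrev E3 : Type := EuclideanSpace ℝ (Fin 3)

/-- the vector product -/
noncomputable def cross (a b : E3) : E3 :=
  !₂[a 1 * b 2 - a 2 * b 1, a 2 * b 0 - a 0 * b 2, a 0 * b 1 - a 1 * b 0]

/-- the partial derivative in the first variable -/
noncomputable def Du (X : ℝ × ℝ → E3) (p : ℝ × ℝ) : E3 := fderiv ℝ X p (1, 0)

/-- the partial derivative in the second variable -/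
noncomputable def Dv (X : ℝ × ℝ → E3) (p : ℝ × ℝ) : E3 := fderiv ℝ X p (0, 1)

/-- the unit normal of a parametrised surface -/
noncomputable def normal (X : ℝ × ℝ → E3) (p : ℝ × ℝ) : E3 :=
  ‖cross (Du X p) (Dv X p)‖⁻¹ • cross (Du X p) (Dv X p)

/-- The mean curvature with respect to `normal X`: minus the trace of the second fundamental form
`⟨∂∂X, ν⟩` with respect to the first fundamental form. For the sphere of radius `2` it is `1` for
the outward and `-1` for the inward normal. -/
noncomputable def meanCurv (X : ℝ × ℝ → E3) (p : ℝ × ℝ) : ℝ :=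
  -(⟪Dv X p, Dv X p⟫ * ⟪Du (Du X) p, normal X p⟫ -
      2 * ⟪Du X p, Dv X p⟫ * ⟪Du (Dv X) p, normal X p⟫ +
      ⟪Du X p, Du X p⟫ * ⟪Dv (Dv X) p, normal X p⟫) /
    (⟪Du X p, Du X p⟫ * ⟪Dv X p, Dv X p⟫ - ⟪Du X p, Dv X p⟫ ^ 2)

/-- `X` is a smooth doubly `2π`-periodic immersion which is injective modulo the periods, that is,
a smooth embedding of the torus `ℝ²/(2πℤ)²` in space. -/
structure IsTorusEmbedding (X : ℝ × ℝ → E3) : Prop where
  smooth : ContDiff ℝ ∞ X
  periodic_u : ∀ u v, X (u + 2 * Real.pi, v) = X (u, v)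
  periodic_v : ∀ u v, X (u, v + 2 * Real.pi) = X (u, v)
  immersed : ∀ p, cross (Du X p) (Dv X p) ≠ 0
  embedded : ∀ u v u' v', X (u, v) = X (u', v') →
    ∃ m n : ℤ, u' = u + 2 * Real.pi * m ∧ v' = v + 2 * Real.pi * n

/-- `S` is a closed, embedded, genus one self-shrinker: the image of an embedding of the torus
which satisfies `H = ⟨x, ν⟩ / 2`. -/
def IsShrinkingTorus (S : Set E3) : Prop :=
  ∃ X : ℝ × ℝ → E3, IsTorusEmbedding X ∧ (∀ p, meanCurv X p = ⟪X p, normal X p⟫ / 2) ∧
    S = range X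

end D3
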