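import Pool.Agent.H.MP_ce2c94_gt.D3Bri
import Pool.Agent.H.MP_ce2c94_gt.h42.Wien3
import Pool.Agent.H.MP_ce2c94_gt.D3.Phi

/-!
Assembly: from a zero `φ` of the normalised equation over a background surface to a shrinking
torus.
-/

open Set Filter Topology
open scoped ContDiff RealInnerProductSpace

namespace D3

open Pool.MP_ce2c94_gt.D3W Pool.MP_ce2c94_gt

/-- the evaluation of the Wiener algebra at a point of the plane -/
noncomputable def evp (p : ℝ × ℝ) : W →ₐ[ℝ] ℂ := ev p.1 p.2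

/-- the derivatives in `W`, by coefficients -/
structure WJet (h : HJet W) : Prop where
  u : ∀ k, coef k h.fu = (k.1 : ℝ) * coef k h.f
  t : ∀ k, coef k h.ft = (k.2 : ℝ) * coef k h.f
  uu : ∀ k, coef k h.fuu = (k.1 : ℝ) * ((k.1 : ℝ) * coef k h.f)
  ut : ∀ k, coef k h.fut = (k.1 : ℝ) * ((k.2 : ℝ) * coef k h.f)
  tt : ∀ k, coef k h.ftt = (k.2 : ℝ) * ((k.2 : ℝ) * coef k h.f)

theorem hasFDerivAt_evp {f g h : W} (hg : IsDu f g) (hh : IsDt f h) (p : ℝ × ℝ) :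
    HasFDerivAt (fun q => evp q f) (clf (Complex.I * evp p g) (Complex.I * evp p h)) p :=
  hasFDerivAt_ev hg hh p

theorem WJet.isJet {h : HJet W} (H : WJet h) : IsJet evp h where
  smooth := contDiff_ev h.f
  d := hasFDerivAt_evp H.u H.t
  du := hasFDerivAt_evp (fun k => by rw [H.uu, H.u]) (fun k => by rw [H.ut, H.u]; ring)
  dt := hasFDerivAt_evp (fun k => by rw [H.ut, H.t]) (fun k => by rw [H.tt, H.t])

/-- even and odd elements of `W` -/
def EvenW (f : W) : Prop := ∀ k, coef (-k) f = coef k f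
def OddW (f : W) : Prop := ∀ k, coef (-k) f = -coef k f

theorem chr_neg (u t : ℝ) (k : ℤ × ℤ) : chr (-u) (-t) k = chr u t (-k) := by
  unfold chr
  congr 1
  simp only [Prod.fst_neg, Prod.snd_neg]
  push_cast
  ring

theorem ev_neg (u t : ℝ) (f : W) :
    ev (-u) (-t) f = ∑' k, (coef (-k) f : ℂ) * chr u t k := by
  rw [ev_tsum]
  rw [← (Equiv.neg (ℤ × ℤ)).tsum_eq]
  refine tsum_congr fun k => ?_
  rw [chr_neg]
  simp

theorem EvenW.im {f : W} (h : EvenW f) (p : ℝ × ℝ) : (evp p f).im = 0 := by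
  have h1 := conj_ev p.1 p.2 f
  rw [ev_neg] at h1
  simp only [h _] at h1
  rw [← ev_tsum] at h1
  exact Complex.conj_eq_iff_im.mp h1

theorem OddW.re {f : W} (h : OddW f) (p : ℝ × ℝ) : (evp p f).re = 0 := by
  have h1 := conj_ev p.1 p.2 f
  rw [ev_neg] at h1
  simp only [h _, Complex.ofReal_neg, neg_mul] at h1
  rw [tsum_neg, ← ev_tsum] at h1
  have h2 := congrArg Complex.re h1
  rw [Complex.conj_re, Complex.neg_re] at h2
  change (ev p.1 p.2 f).re = 0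
  linarith

/-- a formal surface: three elements with derivatives and parities -/
structure FS3 (C : Hat W) : Prop where
  jP : WJet C.P
  jQ : WJet C.Q
  jZ : WJet C.Z
  eP : EvenW C.P.f
  oQ : OddW C.Q.f
  oZ : OddW C.Z.f

/-- the perturbed surface `C + φ V` -/
noncomputable def Hat.pert (C V : Hat W) (φ : HJet W) : Hat W where
  P := C.P.add (φ.mul V.P)
  Q := C.Q.add (φ.mul V.Q)
  Z := C.Z.add (φ.mul V.Z)

theorem evp_per (u t : ℝ) (w : W) : evp (u + 2 * Real.pi, t) w = evp (u, t) w :=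
  ev_add_two_pi_left u t w

theorem evp_per' (u t : ℝ) (w : W) : evp (u, t + 2 * Real.pi) w = evp (u, t) w :=
  ev_add_two_pi_right u t w

theorem FS3.isHat {C V : Hat W} {φ : HJet W} (hC : FS3 C) (hV : FS3 V) (hφ : WJet φ)
    (eφ : EvenW φ.f) : IsHat evp (C.pert V φ) where
  per := evp_per
  per' := evp_per'
  jP := hC.jP.isJet.add (hφ.isJet.mul hV.jP.isJet)
  jQ := hC.jQ.isJet.add (hφ.isJet.mul hV.jQ.isJet)
  jZ := hC.jZ.isJet.add (hφ.isJet.mul hV.jZ.isJet)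
  rP := fun p => by
    simp only [Hat.pert, HJet.add, HJet.mul, map_add, map_mul, Complex.add_im, Complex.mul_im,
      hC.eP.im p, hV.eP.im p, eφ.im p]
    ring
  rQ := fun p => by
    simp only [Hat.pert, HJet.add, HJet.mul, map_add, map_mul, Complex.add_re, Complex.mul_re,
      hC.oQ.re p, hV.oQ.re p, eφ.im p]
    ring
  rZ := fun p => by
    simp only [Hat.pert, HJet.add, HJet.mul, map_add, map_mul, Complex.add_re, Complex.mul_re,
      hC.oZ.re p, hV.oZ.re p, eφ.im p]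
    ring

theorem half2 : (algebraMap ℝ W (1 / 2)) * 2 = 1 := by
  rw [← map_ofNat (algebraMap ℝ W) 2, ← map_mul]
  norm_num

/-- the vectors of a formal surface -/
def Hat.vC (h : Hat W) : V3 W := ⟨h.P.f, h.Q.f, h.Z.f⟩
def Hat.vA (h : Hat W) : V3 W := ⟨h.P.fu, h.Q.fu, h.Z.fu⟩
noncomputable def Hat.vB (h : Hat W) (N : ℕ) : V3 W := ⟨h.a1 N, h.a2 N, h.a3 N⟩
def Hat.vp (h : Hat W) : V3 W := ⟨h.P.fuu, h.Q.fuu, h.Z.fuu⟩
noncomputable def Hat.vq (h : Hat W) (N : ℕ) : V3 W := ⟨h.b1 N, h.b2 N, h.b3 N⟩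
noncomputable def Hat.vw (h : Hat W) (N : ℕ) : V3 W := ⟨h.c1 N, h.c2 N, h.c3 N⟩

/-- the normalised equation of a formal surface -/
noncomputable def Hat.Phi (h : Hat W) (N : ℕ) (s : W) : W :=
  Pool.MP_ce2c94_gt.Phi h.vC (V3.smul s h.vA) (V3.smul s (h.vB N)) (h.vB N)
    (V3.smul s h.vp) (V3.smul s (h.vq N)) (V3.smul s (h.vw N))

theorem Hat.Phi_eq (h : Hat W) (N : ℕ) (s : W) : h.Phi N s = s ^ 5 * (-2 * h.eqn N) := by
  have h2 := half2
  simp only [Hat.Phi, Pool.MP_ce2c94_gt.Phi, PhiT, PhiU, PhiG, V3.smul, V3.eta, V3.dot, V3.add,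
    V3.sub, V3.cross, Hat.vC, Hat.vA, Hat.vB, Hat.vp, Hat.vq, Hat.vw, Hat.eqn, Hat.E, Hat.F,
    Hat.G, Hat.n1, Hat.n2, Hat.n3]
  generalize h.a1 N = a1
  generalize h.a2 N = a2
  generalize h.a3 N = a3
  generalize h.b1 N = b1
  generalize h.b2 N = b2
  generalize h.b3 N = b3
  generalize h.c1 N = c1
  generalize h.c2 N = c2
  generalize h.c3 N = c3
  generalize h.P.f = P
  generalize h.Q.f = Q
  generalize h.Z.f = Z
  generalize h.P.fu = Pu
  generalize h.Q.fu = Qu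
  generalize h.Z.fu = Zu
  generalize h.P.fuu = Puu
  generalize h.Q.fuu = Quu
  generalize h.Z.fuu = Zuu
  linear_combination (-s ^ 5 * ((Pu * Pu - Qu * Qu - Zu * Zu) * (a1 * a1 - a2 * a2 - a3 * a3) -
    (Pu * a1 - Qu * a2 - Zu * a3) * (Pu * a1 - Qu * a2 - Zu * a3)) *
    (P * (Qu * a3 - Zu * a2) + Q * (Zu * a1 - Pu * a3) + Z * (Pu * a2 - Qu * a1))) * h2

/-- the exponentials `e^{iu}` and `e^{-iu}` -/
noncomputable def eu : W := e (1, 0)
noncomputable def eu' : W := e (-1, 0)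

theorem evp_eu (p : ℝ × ℝ) : evp p eu = Complex.exp (Complex.I * p.1) := by
  change ev p.1 p.2 (e (1, 0)) = _
  rw [ev_e, chr]
  congr 1
  push_cast
  ring

theorem evp_eu' (p : ℝ × ℝ) : evp p eu' = Complex.exp (-(Complex.I * p.1)) := by
  change ev p.1 p.2 (e (-1, 0)) = _
  rw [ev_e, chr]
  congr 1
  push_cast
  ring

/-- everywhere positive -/
def PosW (f : W) : Prop := ∀ p, 0 < (evp p f).re

/-- **A zero of the normalised equation gives a shrinking torus.** -/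
theorem shrinkingTorus_of_zero {h : Hat W} (H : IsHat evp h) {N : ℕ} {s : W}
    (hs : ∀ p, evp p s ≠ 0) (h0 : h.Phi N s = 0) {S0 c : ℝ} (hc : 0 < c) (h1 : PosW h.P.f)
    (h2 : PosW (h.cosq eu eu' S0 c)) (h3 : PosW (h.ang N)) (h4 : PosW (h.jac N S0)) :
    IsShrinkingTorus (range (H.rot N).toSurf.X) := by
  refine H.isShrinkingTorus N evp_eu evp_eu' hc h1 h2 h3 h4 ?_
  intro p
  rw [Hat.Phi_eq] at h0
  have h5 := congrArg (evp p) h0
  rw [map_zero, map_mul, map_mul, map_pow, map_neg, map_ofNat] at h5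
  rcases mul_eq_zero.mp h5 with h6 | h6
  · exact absurd (pow_eq_zero_iff (by norm_num) |>.mp h6) (hs p)
  · rcases mul_eq_zero.mp h6 with h7 | h7
    · norm_num at h7
    · exact h7

theorem norm_evp_le (p : ℝ × ℝ) (f : W) : ‖evp p f‖ ≤ ‖f‖ := norm_ev_le _ _ _

theorem rot_P_sq_le {h : Hat W} (H : IsHat evp h) (N : ℕ) (p : ℝ × ℝ) :
    (H.rot N).P p ^ 2 + (H.rot N).Q p ^ 2 + (H.rot N).Z p ^ 2 ≤
      ‖h.P.f‖ ^ 2 + ‖h.Q.f‖ ^ 2 + ‖h.Z.f‖ ^ 2 := by
  have hP := (H.P_real N p).1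
  have hQ := (H.Q_real N p).1
  have hZ := (H.Z_real N p).1
  have key : ∀ (x : ℝ) (z : ℂ) (w : W), (x : ℂ) = z → ‖z‖ ≤ ‖w‖ → x ^ 2 ≤ ‖w‖ ^ 2 := by
    intro x z w h1 h2
    have h3 : |x| = ‖z‖ := by rw [← h1, Complex.norm_real, Real.norm_eq_abs]
    rw [← sq_abs, h3]
    exact pow_le_pow_left₀ (norm_nonneg _) h2 2
  have k1 := key _ _ h.P.f hP (norm_evp_le _ _)
  have k2 := key _ _ h.Q.f hQ (by
    rw [norm_mul, norm_neg, Complex.norm_I, one_mul]
    exact norm_evp_le _ _)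
  have k3 := key _ _ h.Z.f hZ (by
    rw [norm_mul, norm_neg, Complex.norm_I, one_mul]
    exact norm_evp_le _ _)
  linarith

/-- **Two shrinking tori which are not congruent**: the first is in the ball of squared radius
`‖P‖² + ‖Q‖² + ‖Z‖²`, the second has a point outside of it. -/
theorem two_tori {hA hB : Hat W} (A : IsHat evp hA) (B : IsHat evp hB) {NA NB : ℕ}
    (tA : IsShrinkingTorus (range (A.rot NA).toSurf.X))
    (tB : IsShrinkingTorus (range (B.rot NB).toSurf.X))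
    {R : ℝ} (hR : ‖hA.P.f‖ ^ 2 + ‖hA.Q.f‖ ^ 2 + ‖hA.Z.f‖ ^ 2 ≤ R)
    (hR' : R < (evp (0, 0) hB.P.f).re ^ 2) :
    ∃ S T : Set E3, IsShrinkingTorus S ∧ IsShrinkingTorus T ∧
      ∀ g : E3 ≃ₗᵢ[ℝ] E3, g '' S ≠ T := by
  refine ⟨_, _, tA, tB, fun g => ?_⟩
  refine Rot.not_congruent (A.rot NA) (B.rot NB) (C := R)
    (fun p => (rot_P_sq_le A NA p).trans hR) ?_ g
  have e : (B.rot NB).P (0, 0) = (evp (0, 0) hB.P.f).re := rfl
  rw [e]
  nlinarith [sq_nonneg ((B.rot NB).Q (0, 0)), sq_nonneg ((B.rot NB).Z (0, 0))]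

end D3
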