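import Mathlib

/-!
Injectivity of a map of the torus from the monotonicity of two angles.
-/

open Set Filter Topology

namespace D3

/-- the linear form with coefficients `a`, `b` -/
noncomputable def lf (a b : ℝ) : ℝ × ℝ →L[ℝ] ℝ :=
  a • ContinuousLinearMap.fst ℝ ℝ ℝ + b • ContinuousLinearMap.snd ℝ ℝ ℝ

theorem lf_apply (a b : ℝ) (z : ℝ × ℝ) : lf a b z = a * z.1 + b * z.2 := by
  simp [lf]

/-- Two functions on the plane: `Θ` is increasing in the second variable, with translation number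
one, and the Jacobian of `(Ψ, Θ)` is positive. Then `(Ψ, Θ)` is injective. -/
theorem plane_inj {Θ Ψ Θu Θv Ψu Ψv : ℝ × ℝ → ℝ}
    (hΘ : ∀ p, HasStrictFDerivAt Θ (lf (Θu p) (Θv p)) p)
    (hΨ : ∀ p, HasFDerivAt Ψ (lf (Ψu p) (Ψv p)) p)
    (pΘ : ∀ u v, Θ (u, v + 2 * Real.pi) = Θ (u, v) + 2 * Real.pi)
    (h1 : ∀ p, 0 < Θv p) (h2 : ∀ p, 0 < Ψu p * Θv p - Ψv p * Θu p)
    {p q : ℝ × ℝ} (e1 : Θ p = Θ q) (e2 : Ψ p = Ψ q) : p = q := by
  have hv : ∀ u v, HasDerivAt (fun v => Θ (u, v)) (Θv (u, v)) v := by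
    intro u v
    have k1 : HasDerivAt (fun v : ℝ => (u, v)) ((0 : ℝ), (1 : ℝ)) v :=
      (hasDerivAt_const v u).prodMk (hasDerivAt_id v)
    have k2 := (hΘ (u, v)).hasFDerivAt.comp_hasDerivAt v k1
    refine k2.congr_deriv ?_
    rw [lf_apply]
    ring
  have hmono : ∀ u, StrictMono fun v => Θ (u, v) := fun u =>
    strictMono_of_hasDerivAt_pos (hv u) fun v => h1 (u, v)
  have hper : ∀ (k : ℕ) u v, Θ (u, v + 2 * Real.pi * k) = Θ (u, v) + 2 * Real.pi * k := by
    intro k
    induction k with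
    | zero => intro u v; simp
    | succ k ih =>
      intro u v
      have := pΘ u (v + 2 * Real.pi * k)
      rw [ih] at this
      push_cast
      rw [show v + 2 * Real.pi * (k + 1) = v + 2 * Real.pi * k + 2 * Real.pi by ring, this]
      ring
  have hper' : ∀ (k : ℕ) u v, Θ (u, v - 2 * Real.pi * k) = Θ (u, v) - 2 * Real.pi * k := by
    intro k u v
    have := hper k u (v - 2 * Real.pi * k)
    rw [sub_add_cancel] at this
    linarith
  have hcont : Continuous Θ := continuous_iff_continuousAt.mpr fun p =>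
    (hΘ p).hasFDerivAt.continuousAt
  have hsurj : ∀ t u, ∃ v, Θ (u, v) = t := by
    intro t u
    obtain ⟨k, hk⟩ := exists_nat_gt (|t - Θ (u, 0)|)
    have hpi : 1 ≤ 2 * Real.pi := by linarith [Real.pi_gt_three]
    have hk0 : (0 : ℝ) ≤ k := Nat.cast_nonneg k
    have hk1 : (k : ℝ) ≤ 2 * Real.pi * k := by nlinarith
    have hab := abs_lt.mp hk
    have m1 := hper k u 0
    have m2 := hper' k u 0
    have hc : ContinuousOn (fun v => Θ (u, v)) (Icc (0 - 2 * Real.pi * k) (0 + 2 * Real.pi * k)) :=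
      (hcont.comp (by fun_prop)).continuousOn
    have hle : 0 - 2 * Real.pi * k ≤ 0 + 2 * Real.pi * k := by nlinarith
    have hmem : t ∈ Icc (Θ (u, 0 - 2 * Real.pi * k)) (Θ (u, 0 + 2 * Real.pi * k)) := by
      rw [m1, m2]
      constructor <;> linarith
    obtain ⟨v, -, hv⟩ := intermediate_value_Icc hle hc hmem
    exact ⟨v, hv⟩
  obtain ⟨u1, v1⟩ := p
  obtain ⟨u2, v2⟩ := q
  choose V hV using hsurj (Θ (u1, v1))
  have hVd : ∀ u, HasDerivAt V (-(Θu (u, V u) / Θv (u, V u))) u := by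
    intro u
    have hinv : ((lf (Θu (u, V u)) (Θv (u, V u))) ∘L
        ContinuousLinearMap.inr ℝ ℝ ℝ).IsInvertible := by
      refine ⟨ContinuousLinearEquiv.unitsEquivAut ℝ (Units.mk0 (Θv (u, V u)) (h1 _).ne'), ?_⟩
      ext
      simp [lf]
    have k1 := (hΘ (u, V u)).eventually_apply_implicitFunctionOfProdDomain hinv
    have k2 := (hΘ (u, V u)).hasStrictFDerivAt_implicitFunctionOfProdDomain hinv
    set ψ := (hΘ (u, V u)).implicitFunctionOfProdDomain hinv with hψ
    have k3 : V =ᶠ[𝓝 u] ψ := by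
      filter_upwards [k1] with x hx
      rw [hV u] at hx
      exact (hmono x).injective (by simp only [hV x, hx])
    have k4 : HasFDerivAt V _ u := k2.hasFDerivAt.congr_of_eventuallyEq k3
    have k5 := k4.hasDerivAt
    -- identify the derivative
    have k6 : HasDerivAt (fun x => Θ (x, V x)) 0 u := by
      have : (fun x => Θ (x, V x)) = fun _ => Θ (u1, v1) := funext hV
      rw [this]
      exact hasDerivAt_const _ _
    set D := deriv V u with hD
    have k7 : HasDerivAt V D u := k5.differentiableAt.hasDerivAt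
    have k8 : HasDerivAt (fun x => (x, V x)) ((1 : ℝ), D) u := (hasDerivAt_id u).prodMk k7
    have k9 := (hΘ (u, V u)).hasFDerivAt.comp_hasDerivAt u k8
    have k10 := k9.unique k6
    rw [lf_apply] at k10
    have hne := (h1 (u, V u)).ne'
    have : D = -(Θu (u, V u) / Θv (u, V u)) := by
      field_simp
      simp only at k10
      linarith
    rw [← this]
    exact k7
  have hg : ∀ u, HasDerivAt (fun u => Ψ (u, V u))
      ((Ψu (u, V u) * Θv (u, V u) - Ψv (u, V u) * Θu (u, V u)) / Θv (u, V u)) u := by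
    intro u
    have k8 : HasDerivAt (fun x => (x, V x)) ((1 : ℝ), -(Θu (u, V u) / Θv (u, V u))) u :=
      (hasDerivAt_id u).prodMk (hVd u)
    have k9 := (hΨ (u, V u)).comp_hasDerivAt u k8
    refine k9.congr_deriv ?_
    rw [lf_apply]
    have hne := (h1 (u, V u)).ne'
    field_simp
    ring
  have hgm : StrictMono fun u => Ψ (u, V u) :=
    strictMono_of_hasDerivAt_pos hg fun u => div_pos (h2 _) (h1 _)
  have hV1 : V u1 = v1 := (hmono u1).injective (hV u1)
  have hV2 : V u2 = v2 := (hmono u2).injective (by simp only [hV u2]; exact e1)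
  have hu : u1 = u2 := hgm.injective (by simp only [hV1, hV2]; exact e2)
  subst hu
  rw [← hV1, hV2]

/-- the angle of `(a, b)`, a lift close to `w` -/
noncomputable def ang (a b w : ℝ × ℝ → ℝ) (p : ℝ × ℝ) : ℝ :=
  w p + Real.arctan ((b p * Real.cos (w p) - a p * Real.sin (w p)) /
    (a p * Real.cos (w p) + b p * Real.sin (w p)))

theorem ang_cos_sin {a b w : ℝ × ℝ → ℝ} {p : ℝ × ℝ}
    (hp : 0 < a p * Real.cos (w p) + b p * Real.sin (w p)) :
    Real.sqrt (a p ^ 2 + b p ^ 2) * Real.cos (ang a b w p) = a p ∧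
      Real.sqrt (a p ^ 2 + b p ^ 2) * Real.sin (ang a b w p) = b p := by
  set P := a p * Real.cos (w p) + b p * Real.sin (w p) with hP
  set N := b p * Real.cos (w p) - a p * Real.sin (w p) with hN
  have hcs := Real.cos_sq_add_sin_sq (w p)
  have hsq : P ^ 2 + N ^ 2 = a p ^ 2 + b p ^ 2 := by
    rw [hP, hN]
    linear_combination (a p ^ 2 + b p ^ 2) * hcs
  have hs : Real.sqrt (a p ^ 2 + b p ^ 2) = P * Real.sqrt (1 + (N / P) ^ 2) := by
    rw [← hsq]
    have h1 : P ^ 2 + N ^ 2 = P ^ 2 * (1 + (N / P) ^ 2) := by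
      field_simp
    rw [h1, Real.sqrt_mul (sq_nonneg P), Real.sqrt_sq hp.le]
  have hpos : 0 < Real.sqrt (1 + (N / P) ^ 2) := Real.sqrt_pos.mpr (by positivity)
  have hca : Real.sqrt (a p ^ 2 + b p ^ 2) * Real.cos (Real.arctan (N / P)) = P := by
    rw [Real.cos_arctan, hs]
    field_simp
  have hsa : Real.sqrt (a p ^ 2 + b p ^ 2) * Real.sin (Real.arctan (N / P)) = N := by
    rw [Real.sin_arctan, hs]
    field_simp
  unfold ang
  rw [← hP, ← hN, Real.cos_add, Real.sin_add]
  generalize Real.cos (Real.arctan (N / P)) = c at hca ⊢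
  generalize Real.sin (Real.arctan (N / P)) = d at hsa ⊢
  generalize Real.sqrt (a p ^ 2 + b p ^ 2) = R at hca hsa ⊢
  rw [hP] at hca
  rw [hN] at hsa
  constructor
  · linear_combination (Real.cos (w p)) * hca - (Real.sin (w p)) * hsa + (a p) * hcs
  · linear_combination (Real.sin (w p)) * hca + (Real.cos (w p)) * hsa + (b p) * hcs

/-- the derivative of the angle -/
theorem ang_deriv {a b w : ℝ × ℝ → ℝ} {a' b' w' : ℝ × ℝ →L[ℝ] ℝ} {p : ℝ × ℝ}
    (ha : HasStrictFDerivAt a a' p) (hb : HasStrictFDerivAt b b' p)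
    (hw : HasStrictFDerivAt w w' p)
    (hp : 0 < a p * Real.cos (w p) + b p * Real.sin (w p)) :
    HasStrictFDerivAt (ang a b w) ((a p ^ 2 + b p ^ 2)⁻¹ • (a p • b' - b p • a')) p := by
  have hc := hw.cos
  have hs := hw.sin
  have hN := (hb.mul hc).sub (ha.mul hs)
  have hP := (ha.mul hc).add (hb.mul hs)
  have hPi : HasStrictFDerivAt (fun q => (a q * Real.cos (w q) + b q * Real.sin (w q))⁻¹) _ p :=
    (hasStrictDerivAt_inv hp.ne').comp_hasStrictFDerivAt p hP
  have hQ := (hN.mul hPi).arctan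
  have hT := hw.add hQ
  have hcs := Real.cos_sq_add_sin_sq (w p)
  have hfun : ang a b w = fun q => w q + Real.arctan ((b q * Real.cos (w q) -
      a q * Real.sin (w q)) * (a q * Real.cos (w q) + b q * Real.sin (w q))⁻¹) := by
    funext q
    unfold ang
    rw [div_eq_mul_inv]
  rw [hfun]
  refine hT.congr_fderiv ?_
  set P := a p * Real.cos (w p) + b p * Real.sin (w p) with hPd
  set N := b p * Real.cos (w p) - a p * Real.sin (w p) with hNd
  have hsq : P ^ 2 + N ^ 2 = a p ^ 2 + b p ^ 2 := by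
    rw [hPd, hNd]
    linear_combination (a p ^ 2 + b p ^ 2) * hcs
  have hP0 : P ≠ 0 := hp.ne'
  have hS : P ^ 2 + N ^ 2 ≠ 0 := by positivity
  apply ContinuousLinearMap.ext
  intro z
  simp only [add_apply, smul_apply, sub_apply, smul_eq_mul, Pi.mul_apply, Pi.sub_apply]
  rw [← hsq]
  simp only [← hPd, ← hNd]
  have e1 : 1 / (1 + (N * P⁻¹) ^ 2) = (P ^ 2 + N ^ 2)⁻¹ * P ^ 2 := by
    field_simp
  rw [e1]
  clear hT hQ hPi hP hN hfun hc hs
  generalize w' z = W at *
  generalize a' z = A at *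
  generalize b' z = B at *
  generalize Real.cos (w p) = c at *
  generalize Real.sin (w p) = e at *
  generalize a p = x at *
  generalize b p = y at *
  have e2 : ∀ K M : ℝ, W + (P ^ 2 + N ^ 2)⁻¹ * P ^ 2 * (N * (-(P ^ 2)⁻¹ * K) + P⁻¹ * M) =
      (P ^ 2 + N ^ 2)⁻¹ * (W * (P ^ 2 + N ^ 2) - N * K + P * M) := by
    intro K M
    field_simp
    ring
  rw [e2]
  congr 1
  rw [hPd, hNd]
  linear_combination (x * B - y * A) * hcs

end D3
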