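import Pool.Agent.H.MP_ce2c94_gt.D3Jet
import Pool.Agent.H.MP_ce2c94_gt.D3.Exist

/-!
The link of `D3/Exist` with the geometry: from a certificate and the four positivity facts to a
shrinking torus.
-/

open Set Filter Topology

namespace D3

open Pool.MP_ce2c94_gt Pool.MP_ce2c94_gt.D3W Pool.MP_ce2c94_gt.D3E

theorem evp_ne_of_isUnit {s : W} (h : IsUnit s) (p : ℝ × ℝ) : evp p s ≠ 0 :=
  (h.map (evp p)).ne_zero

/-- the jet of the unknown in the two notations -/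
theorem jt_eq (P : Prm) (y : W) :
    D3S.Bg.jt P.D y = (phiJ P.a P.b P.s y).vec6 := by
  funext j
  fin_cases j <;> rfl

/-- The norms of the value and of the first derivatives of the unknown. -/
theorem norm_phiJ {P : Prm} (h : P.Ok) {y : W} {ρ : ℝ} (hy : ‖y‖ ≤ ρ) :
    ‖(phiJ P.a P.b P.s y).f‖ ≤ P.d0 * ρ ∧ ‖(phiJ P.a P.b P.s y).fu‖ ≤ P.d1 * ρ ∧
      ‖(phiJ P.a P.b P.s y).ft‖ ≤ P.d2 * ρ := by
  have a0 : (0 : ℝ) ≤ P.a := by exact_mod_cast h.a0.le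
  have b0 : (0 : ℝ) ≤ P.b := by exact_mod_cast h.b0.le
  have s0 : (0 : ℝ) < P.s := by exact_mod_cast h.s0
  have e0 : (0 : ℝ) ≤ P.d0 := by exact_mod_cast h.d0
  have e1 : (0 : ℝ) ≤ P.d1 := by exact_mod_cast h.d1
  have e2 : (0 : ℝ) ≤ P.d2 := by exact_mod_cast h.d2
  have h0 : (1 : ℝ) ≤ P.d0 * P.s := by exact_mod_cast h.h0
  have h1 : (1 : ℝ) ≤ 4 * P.a * P.s * P.d1 ^ 2 := by exact_mod_cast h.h1
  have h2 : (1 : ℝ) ≤ 4 * P.b * P.s * P.d2 ^ 2 := by exact_mod_cast h.h2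
  refine ⟨?_, ?_, ?_⟩
  · exact (norm_mult_le (sb_bound_00 a0 b0 s0 e0 h0) y).trans
      (mul_le_mul_of_nonneg_left hy e0)
  · exact (norm_mult_le (sb_bound_10 a0 b0 s0 e1 h1) y).trans
      (mul_le_mul_of_nonneg_left hy e1)
  · exact (norm_mult_le (sb_bound_01 a0 b0 s0 e2 h2) y).trans
      (mul_le_mul_of_nonneg_left hy e2)

/-- the perturbation of a component -/
theorem pert_close {C v : HJet W} {φ : HJet W} {r0 r1 r2 v0 v1 v2 : ℝ} (h0 : ‖φ.f‖ ≤ r0)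
    (h1 : ‖φ.fu‖ ≤ r1) (h2 : ‖φ.ft‖ ≤ r2) (k0 : ‖v.f‖ ≤ v0) (k1 : ‖v.fu‖ ≤ v1)
    (k2 : ‖v.ft‖ ≤ v2) :
    ‖(C.add (φ.mul v)).f - C.f‖ ≤ r0 * v0 ∧ ‖(C.add (φ.mul v)).fu - C.fu‖ ≤ r1 * v0 + r0 * v1 ∧
      ‖(C.add (φ.mul v)).ft - C.ft‖ ≤ r2 * v0 + r0 * v2 := by
  have key : ∀ {x y : W} {p q : ℝ}, ‖x‖ ≤ p → ‖y‖ ≤ q → ‖x * y‖ ≤ p * q := by
    intro x y p q hx hy
    exact (norm_mul_le x y).trans (mul_le_mul hx hy (norm_nonneg _) ((norm_nonneg _).trans hx))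
  refine ⟨?_, ?_, ?_⟩
  · simp only [HJet.add, HJet.mul, add_sub_cancel_left]
    exact key h0 k0
  · simp only [HJet.add, HJet.mul, add_sub_cancel_left]
    exact (norm_add_le _ _).trans (add_le_add (key h1 k0) (key h0 k1))
  · simp only [HJet.add, HJet.mul, add_sub_cancel_left]
    exact (norm_add_le _ _).trans (add_le_add (key h2 k0) (key h0 k2))

/-- **From a certificate to a shrinking torus.** The four positivity facts are only needed for the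
surfaces `C + φ V` with `‖y‖ ≤ ρ`. -/
theorem exists_torus {C V : Hat W} (hC : HPar C) (hV : HPar V) {N : ℕ} {s : W} {g : Fin 6 → W}
    {A : W →L[ℝ] W} {c : Cst} (H : Cert (bgOf N s C V) g A c) {S0 κ : ℝ} (hκ : 0 < κ)
    (hpos : ∀ y : W, Par 1 1 y → ‖y‖ ≤ (c.ρ : ℝ) →
      PosW (C.pert V (phiJ c.P.a c.P.b c.P.s y)).P.f ∧
      PosW ((C.pert V (phiJ c.P.a c.P.b c.P.s y)).cosq eu eu' S0 κ) ∧
      PosW ((C.pert V (phiJ c.P.a c.P.b c.P.s y)).ang N) ∧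
      PosW ((C.pert V (phiJ c.P.a c.P.b c.P.s y)).jac N S0)) :
    ∃ (y : W) (_ : ‖y‖ ≤ (c.ρ : ℝ)) (I : IsHat evp (C.pert V (phiJ c.P.a c.P.b c.P.s y))),
      IsShrinkingTorus (range (I.rot N).toSurf.X) := by
  obtain ⟨y, hyS, hyn, hy0⟩ := H.exists_zero
  have hy : Par 1 1 y := hyS
  have a0 : (0 : ℝ) < c.P.a := by exact_mod_cast H.num.P.a0
  have b0 : (0 : ℝ) < c.P.b := by exact_mod_cast H.num.P.b0
  have s0 : (0 : ℝ) < c.P.s := by exact_mod_cast H.num.P.s0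
  obtain ⟨h1, h2, h3, h4⟩ := hpos y hy hyn
  rw [jt_eq] at hy0
  have hs : IsUnit s := H.isUnit_s
  exact ⟨y, hyn, _, shrinkingTorus_of_y hC hV a0 b0 s0 hy (evp_ne_of_isUnit hs) hy0 hκ h1 h2 h3 h4⟩

end D3
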