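import Pool.Agent.H.MP_ce2c94_gt.D3Asm

/-!
Surfaces given in a rotating frame: `x + i y = e^{iv} (P + i Q)(u, N v)`, `z = Z(u, N v)`.
-/

open Set Filter Topology
open scoped ContDiff RealInnerProductSpace

namespace D3

/-- the point `(u, N v)` -/
def sc (N : ℝ) (p : ℝ × ℝ) : ℝ × ℝ := (p.1, N * p.2)

theorem sc_hasFDerivAt {A : ℝ × ℝ → ℝ} {a b : ℝ} {N : ℝ} {p : ℝ × ℝ}
    (hA : HasFDerivAt A (lf a b) (sc N p)) :
    HasFDerivAt (fun q => A (sc N q)) (lf a (N * b)) p := by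
  have h1 : HasFDerivAt (sc N) ((ContinuousLinearMap.fst ℝ ℝ ℝ).prod
      (N • ContinuousLinearMap.snd ℝ ℝ ℝ)) p :=
    HasFDerivAt.prodMk hasFDerivAt_fst (hasFDerivAt_snd.const_mul N)
  have h2 := hA.comp p h1
  refine h2.congr_fderiv ?_
  apply ContinuousLinearMap.ext
  intro w
  simp only [ContinuousLinearMap.comp_apply, lf_apply, ContinuousLinearMap.prod_apply,
    smul_apply, smul_eq_mul, ContinuousLinearMap.coe_fst', ContinuousLinearMap.coe_snd']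
  ring

/-- the first component of a rotated vector -/
noncomputable def r1 (N : ℝ) (A B : ℝ × ℝ → ℝ) (p : ℝ × ℝ) : ℝ :=
  A (sc N p) * Real.cos p.2 - B (sc N p) * Real.sin p.2

/-- the second component of a rotated vector -/
noncomputable def r2 (N : ℝ) (A B : ℝ × ℝ → ℝ) (p : ℝ × ℝ) : ℝ :=
  A (sc N p) * Real.sin p.2 + B (sc N p) * Real.cos p.2

/-- the derivative in `v` in the rotating frame -/
def dA (N : ℝ) (At B : ℝ × ℝ → ℝ) (p : ℝ × ℝ) : ℝ := N * At p - B p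

def dB (N : ℝ) (Bt A : ℝ × ℝ → ℝ) (p : ℝ × ℝ) : ℝ := N * Bt p + A p

theorem r1_hasFDerivAt {A B : ℝ × ℝ → ℝ} {Au At Bu Bt : ℝ × ℝ → ℝ} {N : ℝ} {p : ℝ × ℝ}
    (hA : HasFDerivAt A (lf (Au (sc N p)) (At (sc N p))) (sc N p))
    (hB : HasFDerivAt B (lf (Bu (sc N p)) (Bt (sc N p))) (sc N p)) :
    HasFDerivAt (r1 N A B) (lf (r1 N Au Bu p) (r1 N (dA N At B) (dB N Bt A) p)) p := by
  have h1 := sc_hasFDerivAt hA
  have h2 := sc_hasFDerivAt hB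
  have hc : HasFDerivAt (fun q : ℝ × ℝ => Real.cos q.2) (-(Real.sin p.2) •
      ContinuousLinearMap.snd ℝ ℝ ℝ) p := hasFDerivAt_snd.cos
  have hs : HasFDerivAt (fun q : ℝ × ℝ => Real.sin q.2) ((Real.cos p.2) •
      ContinuousLinearMap.snd ℝ ℝ ℝ) p := hasFDerivAt_snd.sin
  have h3 := (h1.mul hc).sub (h2.mul hs)
  refine h3.congr_fderiv ?_
  apply ContinuousLinearMap.ext
  intro w
  simp only [sub_apply, add_apply, smul_apply, smul_eq_mul, lf_apply,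
    ContinuousLinearMap.coe_snd', r1, dA, dB]
  ring

theorem r2_hasFDerivAt {A B : ℝ × ℝ → ℝ} {Au At Bu Bt : ℝ × ℝ → ℝ} {N : ℝ} {p : ℝ × ℝ}
    (hA : HasFDerivAt A (lf (Au (sc N p)) (At (sc N p))) (sc N p))
    (hB : HasFDerivAt B (lf (Bu (sc N p)) (Bt (sc N p))) (sc N p)) :
    HasFDerivAt (r2 N A B) (lf (r2 N Au Bu p) (r2 N (dA N At B) (dB N Bt A) p)) p := by
  have h1 := sc_hasFDerivAt hA
  have h2 := sc_hasFDerivAt hB
  have hc : HasFDerivAt (fun q : ℝ × ℝ => Real.cos q.2) (-(Real.sin p.2) •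
      ContinuousLinearMap.snd ℝ ℝ ℝ) p := hasFDerivAt_snd.cos
  have hs : HasFDerivAt (fun q : ℝ × ℝ => Real.sin q.2) ((Real.cos p.2) •
      ContinuousLinearMap.snd ℝ ℝ ℝ) p := hasFDerivAt_snd.sin
  have h3 := (h1.mul hs).add (h2.mul hc)
  refine h3.congr_fderiv ?_
  apply ContinuousLinearMap.ext
  intro w
  simp only [add_apply, smul_apply, smul_eq_mul, lf_apply,
    ContinuousLinearMap.coe_snd', r2, dA, dB]
  ring

theorem sc_contDiff (N : ℝ) : ContDiff ℝ ∞ (sc N) := by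
  unfold sc
  fun_prop

theorem r1_contDiff {A B : ℝ × ℝ → ℝ} {N : ℝ} (hA : ContDiff ℝ ∞ A) (hB : ContDiff ℝ ∞ B) :
    ContDiff ℝ ∞ (r1 N A B) := by
  have h1 := hA.comp (sc_contDiff N)
  have h2 := hB.comp (sc_contDiff N)
  have h3 : ContDiff ℝ ∞ (fun q : ℝ × ℝ => Real.cos q.2) := Real.contDiff_cos.comp contDiff_snd
  have h4 : ContDiff ℝ ∞ (fun q : ℝ × ℝ => Real.sin q.2) := Real.contDiff_sin.comp contDiff_snd
  exact (h1.mul h3).sub (h2.mul h4)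

theorem r2_contDiff {A B : ℝ × ℝ → ℝ} {N : ℝ} (hA : ContDiff ℝ ∞ A) (hB : ContDiff ℝ ∞ B) :
    ContDiff ℝ ∞ (r2 N A B) := by
  have h1 := hA.comp (sc_contDiff N)
  have h2 := hB.comp (sc_contDiff N)
  have h3 : ContDiff ℝ ∞ (fun q : ℝ × ℝ => Real.cos q.2) := Real.contDiff_cos.comp contDiff_snd
  have h4 : ContDiff ℝ ∞ (fun q : ℝ × ℝ => Real.sin q.2) := Real.contDiff_sin.comp contDiff_snd
  exact (h1.mul h4).add (h2.mul h3)

/-- a linear combination of differentiable functions -/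
theorem lin_hasFDerivAt {f g : ℝ × ℝ → ℝ} {a b a' b' α β : ℝ} {p : ℝ × ℝ}
    (hf : HasFDerivAt f (lf a b) p) (hg : HasFDerivAt g (lf a' b') p) :
    HasFDerivAt (fun q => α * f q + β * g q) (lf (α * a + β * a') (α * b + β * b')) p := by
  have h := (hf.const_mul α).add (hg.const_mul β)
  refine h.congr_fderiv ?_
  apply ContinuousLinearMap.ext
  intro w
  simp only [add_apply, smul_apply, smul_eq_mul, lf_apply]
  ring

/-- Data of a surface in the rotating frame: the components `P`, `Q`, `Z` as functions of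
`(u, t)`, `t = N v`, with their derivatives. -/
structure Rot where
  N : ℕ
  P : ℝ × ℝ → ℝ
  Q : ℝ × ℝ → ℝ
  Z : ℝ × ℝ → ℝ
  Pu : ℝ × ℝ → ℝ
  Pt : ℝ × ℝ → ℝ
  Qu : ℝ × ℝ → ℝ
  Qt : ℝ × ℝ → ℝ
  Zu : ℝ × ℝ → ℝ
  Zt : ℝ × ℝ → ℝ
  Puu : ℝ × ℝ → ℝ
  Put : ℝ × ℝ → ℝ
  Ptt : ℝ × ℝ → ℝ
  Quu : ℝ × ℝ → ℝ
  Qut : ℝ × ℝ → ℝ
  Qtt : ℝ × ℝ → ℝ
  Zuu : ℝ × ℝ → ℝ
  Zut : ℝ × ℝ → ℝ
  Ztt : ℝ × ℝ → ℝ
  jP : Jet2 P Pu Pt Puu Put Ptt
  jQ : Jet2 Q Qu Qt Quu Qut Qtt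
  jZ : Jet2 Z Zu Zt Zuu Zut Ztt
  pP : ∀ u t, P (u + 2 * Real.pi, t) = P (u, t)
  pP' : ∀ u t, P (u, t + 2 * Real.pi) = P (u, t)
  pQ : ∀ u t, Q (u + 2 * Real.pi, t) = Q (u, t)
  pQ' : ∀ u t, Q (u, t + 2 * Real.pi) = Q (u, t)
  pZ : ∀ u t, Z (u + 2 * Real.pi, t) = Z (u, t)
  pZ' : ∀ u t, Z (u, t + 2 * Real.pi) = Z (u, t)

namespace Rot

variable (R : Rot)

/-- the derivative `D = N ∂_t + J` of the frame components -/
noncomputable def DP (p : ℝ × ℝ) : ℝ := R.N * R.Pt p - R.Q p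
noncomputable def DQ (p : ℝ × ℝ) : ℝ := R.N * R.Qt p + R.P p
noncomputable def DZ (p : ℝ × ℝ) : ℝ := R.N * R.Zt p
noncomputable def DPu (p : ℝ × ℝ) : ℝ := R.N * R.Put p - R.Qu p
noncomputable def DQu (p : ℝ × ℝ) : ℝ := R.N * R.Qut p + R.Pu p
noncomputable def DZu (p : ℝ × ℝ) : ℝ := R.N * R.Zut p
noncomputable def DDP (p : ℝ × ℝ) : ℝ := R.N * (R.N * R.Ptt p - R.Qt p) - R.DQ p
noncomputable def DDQ (p : ℝ × ℝ) : ℝ := R.N * (R.N * R.Qtt p + R.Pt p) + R.DP p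
noncomputable def DDZ (p : ℝ × ℝ) : ℝ := R.N * (R.N * R.Ztt p)

theorem hDP (p : ℝ × ℝ) : HasFDerivAt R.DP (lf (R.DPu p) (R.N * R.Ptt p - R.Qt p)) p := by
  have h := lin_hasFDerivAt (α := R.N) (β := -1) (R.jP.dv p) (R.jQ.d p)
  have e : R.DP = fun q => (R.N : ℝ) * R.Pt q + (-1) * R.Q q := by
    funext q
    unfold DP
    ring
  rw [e]
  refine h.congr_fderiv ?_
  unfold DPu
  congr 1 <;> ring

theorem hDQ (p : ℝ × ℝ) : HasFDerivAt R.DQ (lf (R.DQu p) (R.N * R.Qtt p + R.Pt p)) p := by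
  have h := lin_hasFDerivAt (α := R.N) (β := 1) (R.jQ.dv p) (R.jP.d p)
  have e : R.DQ = fun q => (R.N : ℝ) * R.Qt q + 1 * R.P q := by
    funext q
    unfold DQ
    ring
  rw [e]
  refine h.congr_fderiv ?_
  unfold DQu
  congr 1 <;> ring

/-- the first coordinate -/
theorem jet_x : Jet2 (r1 R.N R.P R.Q) (r1 R.N R.Pu R.Qu) (r1 R.N R.DP R.DQ)
    (r1 R.N R.Puu R.Quu) (r1 R.N R.DPu R.DQu) (r1 R.N R.DDP R.DDQ) where
  smooth := r1_contDiff R.jP.smooth R.jQ.smooth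
  d := fun p => r1_hasFDerivAt (R.jP.d _) (R.jQ.d _)
  du := fun p => r1_hasFDerivAt (R.jP.du _) (R.jQ.du _)
  dv := fun p => by
    have h := r1_hasFDerivAt (A := R.DP) (B := R.DQ) (Au := R.DPu) (Bu := R.DQu)
      (At := fun p => R.N * R.Ptt p - R.Qt p) (Bt := fun p => R.N * R.Qtt p + R.Pt p)
      (N := R.N) (p := p) (R.hDP _) (R.hDQ _)
    exact h

theorem jet_y : Jet2 (r2 R.N R.P R.Q) (r2 R.N R.Pu R.Qu) (r2 R.N R.DP R.DQ)
    (r2 R.N R.Puu R.Quu) (r2 R.N R.DPu R.DQu) (r2 R.N R.DDP R.DDQ) where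
  smooth := r2_contDiff R.jP.smooth R.jQ.smooth
  d := fun p => r2_hasFDerivAt (R.jP.d _) (R.jQ.d _)
  du := fun p => r2_hasFDerivAt (R.jP.du _) (R.jQ.du _)
  dv := fun p => by
    have h := r2_hasFDerivAt (A := R.DP) (B := R.DQ) (Au := R.DPu) (Bu := R.DQu)
      (At := fun p => R.N * R.Ptt p - R.Qt p) (Bt := fun p => R.N * R.Qtt p + R.Pt p)
      (N := R.N) (p := p) (R.hDP _) (R.hDQ _)
    exact h

theorem jet_z : Jet2 (fun p => R.Z (sc R.N p)) (fun p => R.Zu (sc R.N p))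
    (fun p => R.DZ (sc R.N p)) (fun p => R.Zuu (sc R.N p)) (fun p => R.DZu (sc R.N p))
    (fun p => R.DDZ (sc R.N p)) where
  smooth := R.jZ.smooth.comp (sc_contDiff _)
  d := fun p => sc_hasFDerivAt (R.jZ.d _)
  du := fun p => sc_hasFDerivAt (R.jZ.du _)
  dv := fun p => by
    have h := (sc_hasFDerivAt (N := R.N) (p := p) (R.jZ.dv _)).const_mul (R.N : ℝ)
    refine h.congr_fderiv ?_
    apply ContinuousLinearMap.ext
    intro w
    simp only [smul_apply, smul_eq_mul, lf_apply, DZu, DDZ]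
    ring

theorem per_sc {f : ℝ × ℝ → ℝ} (hu : ∀ u t, f (u + 2 * Real.pi, t) = f (u, t))
    (ht : ∀ u t, f (u, t + 2 * Real.pi) = f (u, t)) (u v : ℝ) :
    f (sc R.N (u + 2 * Real.pi, v)) = f (sc R.N (u, v)) ∧
      f (sc R.N (u, v + 2 * Real.pi)) = f (sc R.N (u, v)) := by
  constructor
  · exact hu _ _
  · have h := shift_int hu ht 0 R.N u (R.N * v)
    unfold sc
    simp only
    rw [mul_add]
    simpa [mul_comm] using h

/-- the surface -/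
noncomputable def toSurf : Surf where
  x := r1 R.N R.P R.Q
  y := r2 R.N R.P R.Q
  z := fun p => R.Z (sc R.N p)
  xu := r1 R.N R.Pu R.Qu
  xv := r1 R.N R.DP R.DQ
  yu := r2 R.N R.Pu R.Qu
  yv := r2 R.N R.DP R.DQ
  zu := fun p => R.Zu (sc R.N p)
  zv := fun p => R.DZ (sc R.N p)
  xuu := r1 R.N R.Puu R.Quu
  xuv := r1 R.N R.DPu R.DQu
  xvv := r1 R.N R.DDP R.DDQ
  yuu := r2 R.N R.Puu R.Quu
  yuv := r2 R.N R.DPu R.DQu
  yvv := r2 R.N R.DDP R.DDQ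
  zuu := fun p => R.Zuu (sc R.N p)
  zuv := fun p => R.DZu (sc R.N p)
  zvv := fun p => R.DDZ (sc R.N p)
  jx := R.jet_x
  jy := R.jet_y
  jz := R.jet_z
  px := by
    intro u v
    unfold r1
    rw [(R.per_sc R.pP R.pP' u v).1, (R.per_sc R.pQ R.pQ' u v).1]
  px' := by
    intro u v
    unfold r1
    rw [(R.per_sc R.pP R.pP' u v).2, (R.per_sc R.pQ R.pQ' u v).2]
    simp only [Real.cos_add_two_pi, Real.sin_add_two_pi]
  py := by
    intro u v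
    unfold r2
    rw [(R.per_sc R.pP R.pP' u v).1, (R.per_sc R.pQ R.pQ' u v).1]
  py' := by
    intro u v
    unfold r2
    rw [(R.per_sc R.pP R.pP' u v).2, (R.per_sc R.pQ R.pQ' u v).2]
    simp only [Real.cos_add_two_pi, Real.sin_add_two_pi]
  pz := fun u v => (R.per_sc R.pZ R.pZ' u v).1
  pz' := fun u v => (R.per_sc R.pZ R.pZ' u v).2

/-- the normal vector in the frame -/
noncomputable def m1 (p : ℝ × ℝ) : ℝ := R.Qu p * R.DZ p - R.Zu p * R.DQ p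
noncomputable def m2 (p : ℝ × ℝ) : ℝ := R.Zu p * R.DP p - R.Pu p * R.DZ p
noncomputable def m3 (p : ℝ × ℝ) : ℝ := R.Pu p * R.DQ p - R.Qu p * R.DP p

noncomputable def E (p : ℝ × ℝ) : ℝ := R.Pu p * R.Pu p + R.Qu p * R.Qu p + R.Zu p * R.Zu p
noncomputable def F (p : ℝ × ℝ) : ℝ := R.Pu p * R.DP p + R.Qu p * R.DQ p + R.Zu p * R.DZ p
noncomputable def G (p : ℝ × ℝ) : ℝ := R.DP p * R.DP p + R.DQ p * R.DQ p + R.DZ p * R.DZ p

/-- the polynomial form of the shrinker equation in the frame -/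
noncomputable def Eqn (p : ℝ × ℝ) : ℝ :=
  R.G p * (R.Puu p * R.m1 p + R.Quu p * R.m2 p + R.Zuu p * R.m3 p) -
    2 * R.F p * (R.DPu p * R.m1 p + R.DQu p * R.m2 p + R.DZu p * R.m3 p) +
    R.E p * (R.DDP p * R.m1 p + R.DDQ p * R.m2 p + R.DDZ p * R.m3 p) +
    (R.E p * R.G p - R.F p ^ 2) / 2 * (R.P p * R.m1 p + R.Q p * R.m2 p + R.Z p * R.m3 p)

/-- the positivity quantity of the second angle in the frame -/
noncomputable def Jac (S0 : ℝ) (p : ℝ × ℝ) : ℝ :=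
  -((R.P p ^ 2 + R.Q p ^ 2 - S0) * (R.P p * R.m1 p + R.Q p * R.m2 p) +
    2 * (R.P p ^ 2 + R.Q p ^ 2) * R.Z p * R.m3 p)

theorem rot_inner (N : ℝ) (A B A' B' : ℝ × ℝ → ℝ) (p : ℝ × ℝ) :
    r1 N A B p * r1 N A' B' p + r2 N A B p * r2 N A' B' p =
      A (sc N p) * A' (sc N p) + B (sc N p) * B' (sc N p) := by
  unfold r1 r2
  have h := Real.cos_sq_add_sin_sq p.2
  linear_combination (A (sc N p) * A' (sc N p) + B (sc N p) * B' (sc N p)) * h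

theorem rot_cross (N : ℝ) (A B A' B' : ℝ × ℝ → ℝ) (p : ℝ × ℝ) :
    r1 N A B p * r2 N A' B' p - r2 N A B p * r1 N A' B' p =
      A (sc N p) * B' (sc N p) - B (sc N p) * A' (sc N p) := by
  unfold r1 r2
  have h := Real.cos_sq_add_sin_sq p.2
  linear_combination (A (sc N p) * B' (sc N p) - B (sc N p) * A' (sc N p)) * h

theorem n1_eq (p : ℝ × ℝ) : R.toSurf.n1 p = r1 R.N R.m1 R.m2 p := by
  simp only [Surf.n1, toSurf, r1, r2, m1, m2]
  ring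

theorem n2_eq (p : ℝ × ℝ) : R.toSurf.n2 p = r2 R.N R.m1 R.m2 p := by
  simp only [Surf.n2, toSurf, r1, r2, m1, m2]
  ring

theorem n3_eq (p : ℝ × ℝ) : R.toSurf.n3 p = R.m3 (sc R.N p) := by
  have := rot_cross R.N R.Pu R.Qu R.DP R.DQ p
  simp only [Surf.n3, toSurf, m3]
  linarith

theorem E_eq (p : ℝ × ℝ) : R.toSurf.E p = R.E (sc R.N p) := by
  have := rot_inner R.N R.Pu R.Qu R.Pu R.Qu p
  simp only [Surf.E, toSurf, E]
  linarith

theorem F_eq (p : ℝ × ℝ) : R.toSurf.F p = R.F (sc R.N p) := by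
  have := rot_inner R.N R.Pu R.Qu R.DP R.DQ p
  simp only [Surf.F, toSurf, F]
  linarith

theorem G_eq (p : ℝ × ℝ) : R.toSurf.G p = R.G (sc R.N p) := by
  have := rot_inner R.N R.DP R.DQ R.DP R.DQ p
  simp only [Surf.G, toSurf, G]
  linarith

theorem P_eq (p : ℝ × ℝ) : R.toSurf.P p = R.Eqn (sc R.N p) := by
  have k0 := rot_inner R.N R.P R.Q R.m1 R.m2 p
  have k1 := rot_inner R.N R.Puu R.Quu R.m1 R.m2 p
  have k2 := rot_inner R.N R.DPu R.DQu R.m1 R.m2 p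
  have k3 := rot_inner R.N R.DDP R.DDQ R.m1 R.m2 p
  unfold Surf.P
  rw [R.E_eq, R.F_eq, R.G_eq, R.n1_eq, R.n2_eq, R.n3_eq]
  simp only [toSurf]
  rw [k0, k1, k2, k3]
  rfl

theorem J_eq (S0 : ℝ) (p : ℝ × ℝ) : R.toSurf.J S0 p = R.Jac S0 (sc R.N p) := by
  have k0 := rot_inner R.N R.P R.Q R.m1 R.m2 p
  have k1 := rot_inner R.N R.P R.Q R.P R.Q p
  unfold Surf.J
  rw [R.n1_eq, R.n2_eq, R.n3_eq]
  simp only [toSurf]
  rw [k0, pow_two, pow_two, k1]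
  unfold Jac
  ring

/-- The conditions in the rotating frame imply that the surface is a shrinking torus. -/
theorem isShrinkingTorus {S0 c : ℝ} (hc : 0 < c) (h1 : ∀ p, 0 < R.P p)
    (h2 : ∀ p : ℝ × ℝ, 0 < (R.P p ^ 2 + R.Q p ^ 2 - S0) * Real.cos p.1 +
      c * R.Z p * Real.sin p.1)
    (h3 : ∀ p, 0 < R.P p * R.DQ p - R.Q p * R.DP p)
    (h4 : ∀ p, 0 < R.Jac S0 p) (h5 : ∀ p, R.Eqn p = 0) :
    IsShrinkingTorus (range R.toSurf.X) := by
  apply R.toSurf.isShrinkingTorus hc (S0 := S0)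
  · intro p
    have h := Real.cos_sq_add_sin_sq p.2
    have e : R.toSurf.x p * Real.cos p.2 + R.toSurf.y p * Real.sin p.2 = R.P (sc R.N p) := by
      simp only [toSurf, r1, r2]
      linear_combination (R.P (sc R.N p)) * h
    rw [e]
    exact h1 _
  · intro p
    have k1 := rot_inner R.N R.P R.Q R.P R.Q p
    have e : R.toSurf.x p ^ 2 + R.toSurf.y p ^ 2 = R.P (sc R.N p) ^ 2 + R.Q (sc R.N p) ^ 2 := by
      simp only [toSurf]
      linear_combination k1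
    rw [e]
    exact h2 (sc R.N p)
  · intro p
    have k1 := rot_cross R.N R.P R.Q R.DP R.DQ p
    have e : R.toSurf.x p * R.toSurf.yv p - R.toSurf.y p * R.toSurf.xv p =
        R.P (sc R.N p) * R.DQ (sc R.N p) - R.Q (sc R.N p) * R.DP (sc R.N p) := k1
    rw [e]
    exact h3 _
  · intro p
    rw [R.J_eq]
    exact h4 _
  · intro p
    rw [R.P_eq]
    exact h5 _

/-- the squared distance from the origin -/
theorem normSq (p : ℝ × ℝ) : R.toSurf.x p ^ 2 + R.toSurf.y p ^ 2 + R.toSurf.z p ^ 2 =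
    R.P (sc R.N p) ^ 2 + R.Q (sc R.N p) ^ 2 + R.Z (sc R.N p) ^ 2 := by
  have k1 := rot_inner R.N R.P R.Q R.P R.Q p
  have e : R.toSurf.z p = R.Z (sc R.N p) := rfl
  have e2 : R.toSurf.x p ^ 2 + R.toSurf.y p ^ 2 = R.P (sc R.N p) ^ 2 + R.Q (sc R.N p) ^ 2 := by
    simp only [toSurf]
    linear_combination k1
  rw [e, e2]

end Rot

/-- Two surfaces of different circumradius, in rotating frames, are not congruent. -/
theorem Rot.not_congruent (A B : Rot) {C : ℝ} (hA : ∀ p, A.P p ^ 2 + A.Q p ^ 2 + A.Z p ^ 2 ≤ C)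
    (hB : C < B.P (0, 0) ^ 2 + B.Q (0, 0) ^ 2 + B.Z (0, 0) ^ 2) (g : E3 ≃ₗᵢ[ℝ] E3) :
    g '' range A.toSurf.X ≠ range B.toSurf.X := by
  apply D3.not_congruent A.toSurf B.toSurf (R := C) (q := (0, 0))
  · intro p
    rw [A.normSq]
    exact hA _
  · rw [B.normSq]
    have : sc B.N (0, 0) = (0, 0) := by simp [sc]
    rw [this]
    exact hB

end D3
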