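import Pool.Agent.H.MP_ce2c94_gt.D3Fin
import Pool.Agent.H.MP_ce2c94_gt.D3.Spec

/-!
The normalised equation of `D3/Spec` for a background surface and a direction given as formal
surfaces.
-/

open Set Filter Topology
open scoped ContDiff RealInnerProductSpace

namespace D3

open Pool.MP_ce2c94_gt.D3W Pool.MP_ce2c94_gt

/-- the data of the normalised equation from a background surface, a direction and a normaliser -/
noncomputable def bgOf (N : ℕ) (s : W) (C V : Hat W) : D3S.Bg W where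
  k := N
  s := s
  C := ![C.P.f, C.Q.f, C.Z.f]
  A := ![C.P.fu, C.Q.fu, C.Z.fu]
  B := ![C.a1 N, C.a2 N, C.a3 N]
  p := ![C.P.fuu, C.Q.fuu, C.Z.fuu]
  q := ![C.b1 N, C.b2 N, C.b3 N]
  w := ![C.c1 N, C.c2 N, C.c3 N]
  V := ![V.P.f, V.Q.f, V.Z.f]
  Vj := ![V.P.fu, V.Q.fu, V.Z.fu]
  V2 := ![V.a1 N, V.a2 N, V.a3 N]
  Vjj := ![V.P.fuu, V.Q.fuu, V.Z.fuu]
  Vj2 := ![V.b1 N, V.b2 N, V.b3 N]
  V22 := ![V.c1 N, V.c2 N, V.c3 N]

/-- the jet of `φ` as a vector -/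
def HJet.vec6 (φ : HJet W) : Fin 6 → W := ![φ.f, φ.fu, φ.ft, φ.fuu, φ.fut, φ.ftt]

theorem fC_bgOf (N : ℕ) (s : W) (C V : Hat W) (φ : HJet W) :
    (bgOf N s C V).fC φ.vec6 = ![(C.pert V φ).P.f, (C.pert V φ).Q.f, (C.pert V φ).Z.f] := by
  funext i
  fin_cases i <;> simp [D3S.Bg.fC, bgOf, HJet.vec6, Hat.pert, HJet.add, HJet.mul]

theorem fA_bgOf (N : ℕ) (s : W) (C V : Hat W) (φ : HJet W) :
    (bgOf N s C V).fA φ.vec6 = ![(C.pert V φ).P.fu, (C.pert V φ).Q.fu, (C.pert V φ).Z.fu] := by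
  funext i
  fin_cases i <;> simp [D3S.Bg.fA, bgOf, HJet.vec6, Hat.pert, HJet.add, HJet.mul] <;> ring

theorem fB_bgOf (N : ℕ) (s : W) (C V : Hat W) (φ : HJet W) :
    (bgOf N s C V).fB φ.vec6 = ![(C.pert V φ).a1 N, (C.pert V φ).a2 N, (C.pert V φ).a3 N] := by
  funext i
  fin_cases i <;> simp [D3S.Bg.fB, bgOf, HJet.vec6, Hat.pert, HJet.add, HJet.mul, Hat.a1,
    Hat.a2, Hat.a3] <;> ring

theorem fp_bgOf (N : ℕ) (s : W) (C V : Hat W) (φ : HJet W) :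
    (bgOf N s C V).fp φ.vec6 =
      ![(C.pert V φ).P.fuu, (C.pert V φ).Q.fuu, (C.pert V φ).Z.fuu] := by
  funext i
  fin_cases i <;> simp [D3S.Bg.fp, bgOf, HJet.vec6, Hat.pert, HJet.add, HJet.mul] <;> ring

theorem fq_bgOf (N : ℕ) (s : W) (C V : Hat W) (φ : HJet W) :
    (bgOf N s C V).fq φ.vec6 = ![(C.pert V φ).b1 N, (C.pert V φ).b2 N, (C.pert V φ).b3 N] := by
  funext i
  fin_cases i <;> simp [D3S.Bg.fq, bgOf, HJet.vec6, Hat.pert, HJet.add, HJet.mul, Hat.a1,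
    Hat.a2, Hat.a3, Hat.b1, Hat.b2, Hat.b3] <;> ring

theorem fw_bgOf (N : ℕ) (s : W) (C V : Hat W) (φ : HJet W) :
    (bgOf N s C V).fw φ.vec6 = ![(C.pert V φ).c1 N, (C.pert V φ).c2 N, (C.pert V φ).c3 N] := by
  funext i
  fin_cases i <;> simp [D3S.Bg.fw, bgOf, HJet.vec6, Hat.pert, HJet.add, HJet.mul, Hat.a1,
    Hat.a2, Hat.a3, Hat.c1, Hat.c2, Hat.c3] <;> ring

theorem PF_bgOf (N : ℕ) (s : W) (C V : Hat W) (φ : HJet W) :
    D3S.PF ((bgOf N s C V).fC φ.vec6) ((bgOf N s C V).fA φ.vec6) ((bgOf N s C V).fB φ.vec6)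
      ((bgOf N s C V).fp φ.vec6) ((bgOf N s C V).fq φ.vec6) ((bgOf N s C V).fw φ.vec6) =
      -2 * (C.pert V φ).eqn N := by
  have h2 := half2
  rw [fC_bgOf, fA_bgOf, fB_bgOf, fp_bgOf, fq_bgOf, fw_bgOf]
  generalize C.pert V φ = h
  simp only [D3S.PF, D3S.eta, D3S.dt, D3S.crs, Matrix.cons_val_zero, Matrix.cons_val_one,
    Matrix.cons_val, Hat.eqn, Hat.E, Hat.F, Hat.G, Hat.n1, Hat.n2, Hat.n3]
  generalize h.a1 N = a1
  generalize h.a2 N = a2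
  generalize h.a3 N = a3
  generalize h.b1 N = b1
  generalize h.b2 N = b2
  generalize h.b3 N = b3
  generalize h.c1 N = c1
  generalize h.c2 N = c2
  generalize h.c3 N = c3
  generalize h.P.f = P
  generalize h.Q.f = Q
  generalize h.Z.f = Z
  generalize h.P.fu = Pu
  generalize h.Q.fu = Qu
  generalize h.Z.fu = Zu
  generalize h.P.fuu = Puu
  generalize h.Q.fuu = Quu
  generalize h.Z.fuu = Zuu
  linear_combination (-((Pu * Pu - Qu * Qu - Zu * Zu) * (a1 * a1 - a2 * a2 - a3 * a3) -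
    (Pu * a1 - Qu * a2 - Zu * a3) * (Pu * a1 - Qu * a2 - Zu * a3)) *
    (P * (Qu * a3 - Zu * a2) + Q * (Zu * a1 - Pu * a3) + Z * (Pu * a2 - Qu * a1))) * h2

theorem F_bgOf (N : ℕ) (s : W) (C V : Hat W) (φ : HJet W) :
    (bgOf N s C V).F φ.vec6 = s ^ 5 * (-2 * (C.pert V φ).eqn N) := by
  rw [D3S.Bg.F_eq, PF_bgOf]
  rfl

/-- **A zero of the normalised equation over a background surface gives a shrinking torus.** -/
theorem shrinkingTorus_of_bg {C V : Hat W} (hC : FS3 C) (hV : FS3 V) {φ : HJet W} (hφ : WJet φ)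
    (eφ : EvenW φ.f) {N : ℕ} {s : W} (hs : ∀ p, evp p s ≠ 0)
    (h0 : (bgOf N s C V).F φ.vec6 = 0) {S0 c : ℝ} (hc : 0 < c) (h1 : PosW (C.pert V φ).P.f)
    (h2 : PosW ((C.pert V φ).cosq eu eu' S0 c)) (h3 : PosW ((C.pert V φ).ang N))
    (h4 : PosW ((C.pert V φ).jac N S0)) :
    IsShrinkingTorus (range ((hC.isHat hV hφ eφ).rot N).toSurf.X) := by
  refine shrinkingTorus_of_zero (hC.isHat hV hφ eφ) hs ?_ hc h1 h2 h3 h4
  rw [Hat.Phi_eq, ← F_bgOf, h0]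

end D3
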