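import Pool.Agent.H.MP_ce2c94_gt.DLemA

/-!
# The comparison lemma for two graphs
-/

namespace AT

open Real Set

/-- `t - arctan t` is monotone -/
theorem DLem_mono : Monotone (fun t : ℝ => t - arctan t) := by
  have h : ∀ t : ℝ, HasDerivAt (fun t : ℝ => t - arctan t) (1 - 1 / (1 + t ^ 2)) t := fun t =>
    (hasDerivAt_id t).sub (hasDerivAt_arctan t)
  refine monotone_of_deriv_nonneg (fun t => (h t).differentiableAt) fun t => ?_
  rw [(h t).deriv, sub_nonneg, div_le_one (by positivity)]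
  nlinarith [sq_nonneg t]

/-- the comparison polynomial -/
noncomputable def DLem_y (x : ℝ) : ℝ := 1 - 3623 / 10000 * x ^ 2 - 83 / 10000 * x ^ 4

/-- its derivative -/
noncomputable def DLem_y' (x : ℝ) : ℝ := -(7246 / 10000 * x) - 332 / 10000 * x ^ 3

theorem DLem_dy (x : ℝ) : HasDerivAt DLem_y (DLem_y' x) x := by
  have h1 : HasDerivAt (fun x : ℝ => 1 - 3623 / 10000 * x ^ 2 - 83 / 10000 * x ^ 4)
      (0 - 3623 / 10000 * ((2 : ℕ) * x ^ (2 - 1)) - 83 / 10000 * ((4 : ℕ) * x ^ (4 - 1))) x :=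
    ((hasDerivAt_const x (1 : ℝ)).sub ((hasDerivAt_pow 2 x).const_mul _)).sub
      ((hasDerivAt_pow 4 x).const_mul _)
  have h2 : DLem_y' x = 0 - 3623 / 10000 * ((2 : ℕ) * x ^ (2 - 1)) -
      83 / 10000 * ((4 : ℕ) * x ^ (4 - 1)) := by
    unfold DLem_y'
    push_cast
    ring
  rw [h2]
  exact h1

theorem DLem_dy' (x : ℝ) : HasDerivAt DLem_y' (-(7246 / 10000) - 996 / 10000 * x ^ 2) x := by
  have h1 : HasDerivAt (fun x : ℝ => -(7246 / 10000 * x) - 332 / 10000 * x ^ 3)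
      (-(7246 / 10000 * 1) - 332 / 10000 * ((3 : ℕ) * x ^ (3 - 1))) x :=
    (((hasDerivAt_id x).const_mul _).neg).sub ((hasDerivAt_pow 3 x).const_mul _)
  have h2 : -(7246 / 10000) - 996 / 10000 * x ^ 2 =
      -(7246 / 10000 * 1) - 332 / 10000 * ((3 : ℕ) * x ^ (3 - 1)) := by
    push_cast
    ring
  rw [h2]
  exact h1

/-- **Comparison lemma.** Suppose `D = w - u > 0` on `[0, 1.62]`. By `dl_neg`
`D' = q - p ≤ E = arctan q - arctan p ≤ 0` (`arctan` is monotone and 1-Lipschitz). `u w < 2.11^2`,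
so `1/2 + 1/(u w) ≥ k = 0.7246`. Let `y = 1 - 0.3623 x^2 - 0.0083 x^4`; on `[0, 1.62]`
`y' ≤ 0`, `y'' - (x/2) y' + k y ≥ 0` (coefficients of `1, x^2, x^4`: `0`, `0.3623*0.2754 - 0.0996 > 0`,
`(2 - k)*0.0083 > 0`). `Z = exp(-x^2/4) (y E - y' D)` has `Z 0 = 0` and, while `y ≥ 0`,
`Z' = exp(-x^2/4) [ (x/2) y (D' - E) + y' (E - D') - (1/2 + 1/(u w)) y D - (y'' - (x/2) y') D ] ≤ 0`.
So `y D' ≤ y E ≤ y' D`, i.e. `(D / y)' ≤ 0` where `y > 0`, `D ≤ D(0) y` there. But `y(1.62) < 0`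
and `y(0) = 1`, so at the first zero of `y` in `(0, 1.62)` we get `D ≤ 0`, a contradiction. -/
theorem dlemma {u p w q : ℝ → ℝ} (hu : GSol (81 / 50) u p) (hw : GSol (81 / 50) w q)
    (hp0 : p 0 = 0) (hq0 : q 0 = 0) (h0 : u 0 < w 0)
    (hw2 : ∀ x ∈ Icc (0 : ℝ) (81 / 50), w x ≤ 211 / 100) :
    ∃ x ∈ Icc (0 : ℝ) (81 / 50), w x ≤ u x := by
  by_contra hcon
  push Not at hcon
  have ha : (0 : ℝ) < 81 / 50 := by norm_num
  have hEneg := dl_neg ha hu hw hp0 hq0 hcon
  obtain ⟨b, hb, hyb⟩ : ∃ b ∈ Icc (0 : ℝ) (81 / 50), DLem_y b = 0 := by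
    have hc : ContinuousOn DLem_y (Icc (0 : ℝ) (81 / 50)) := fun x _ =>
      (DLem_dy x).continuousAt.continuousWithinAt
    have h1 := intermediate_value_Icc' ha.le hc
    have h2 : (0 : ℝ) ∈ Icc (DLem_y (81 / 50)) (DLem_y 0) := by
      unfold DLem_y
      constructor <;> norm_num
    obtain ⟨b, hb, hyb⟩ := h1 h2
    exact ⟨b, hb, hyb⟩
  have hb0 : 0 < b := by
    rcases lt_or_eq_of_le hb.1 with h | h
    · exact h
    · rw [← h] at hyb
      unfold DLem_y at hyb
      norm_num at hyb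
  have hypos : ∀ x ∈ Ico 0 b, 0 < DLem_y x := by
    intro x hx
    have h2 : x ^ 2 < b ^ 2 := pow_lt_pow_left₀ hx.2 hx.1 (by norm_num)
    have h4 : x ^ 4 < b ^ 4 := pow_lt_pow_left₀ hx.2 hx.1 (by norm_num)
    unfold DLem_y at hyb ⊢
    linarith
  have hy0 : ∀ x ∈ Icc 0 b, 0 ≤ DLem_y x := by
    intro x hx
    rcases lt_or_eq_of_le hx.2 with h | h
    · exact (hypos x ⟨hx.1, h⟩).le
    · rw [h, hyb]
  have hy'0 : ∀ x : ℝ, 0 ≤ x → DLem_y' x ≤ 0 := by
    intro x hx
    unfold DLem_y'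
    have := pow_nonneg hx 3
    linarith
  have hsub : Icc 0 b ⊆ Icc (0 : ℝ) (81 / 50) := Icc_subset_Icc le_rfl hb.2
  -- the two functions
  set D : ℝ → ℝ := fun x => w x - u x with hDdef
  set E : ℝ → ℝ := fun x => arctan (q x) - arctan (p x) with hEdef
  have hDpos : ∀ x ∈ Icc (0 : ℝ) (81 / 50), 0 < D x := fun x hx => sub_pos.2 (hcon x hx)
  have hE0 : E 0 = 0 := by
    simp only [hEdef]
    rw [hp0, hq0, sub_self]
  have hEle : ∀ x ∈ Icc (0 : ℝ) (81 / 50), E x ≤ 0 := by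
    intro x hx
    rcases lt_or_eq_of_le hx.1 with h | h
    · exact (sub_neg.2 (hEneg x ⟨h, hx.2⟩)).le
    · rw [← h, hE0]
  have hqp : ∀ x ∈ Icc (0 : ℝ) (81 / 50), q x - p x ≤ E x := by
    intro x hx
    have h1 : arctan (q x) ≤ arctan (p x) := sub_nonpos.1 (hEle x hx)
    have h2 : q x ≤ p x := arctan_strictMono.le_iff_le.1 h1
    have h3 := DLem_mono h2
    simp only at h3
    simp only [hEdef]
    linarith
  have hDd : ∀ x ∈ Icc (0 : ℝ) (81 / 50), HasDerivWithinAt D (q x - p x) (Icc 0 (81 / 50)) x :=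
    fun x hx => (hw.du x hx).sub (hu.du x hx)
  have hEd : ∀ x ∈ Icc (0 : ℝ) (81 / 50), HasDerivWithinAt E
      ((x * q x / 2 + (1 / w x - w x / 2)) - (x * p x / 2 + (1 / u x - u x / 2)))
      (Icc 0 (81 / 50)) x :=
    fun x hx => (DLemA_datan hw hx).sub (DLemA_datan hu hx)
  have hDc : ContinuousOn D (Icc 0 b) := fun x hx =>
    ((hDd x (hsub hx)).continuousWithinAt).mono hsub
  have hEc : ContinuousOn E (Icc 0 b) := fun x hx =>
    ((hEd x (hsub hx)).continuousWithinAt).mono hsub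
  have hint : ∀ x ∈ Ioo 0 b, Icc (0 : ℝ) (81 / 50) ∈ nhds x := fun x hx =>
    Icc_mem_nhds hx.1 (lt_of_lt_of_le hx.2 hb.2)
  set Z : ℝ → ℝ := fun x => exp (-(x ^ 2 / 4)) * (DLem_y x * E x - DLem_y' x * D x) with hZdef
  have hexp : ∀ x : ℝ, HasDerivAt (fun x : ℝ => exp (-(x ^ 2 / 4)))
      (exp (-(x ^ 2 / 4)) * (-(x / 2))) x := by
    intro x
    have h1 : HasDerivAt (fun x : ℝ => -(x ^ 2 / 4)) (-(((2 : ℕ) * x ^ (2 - 1)) / 4)) x :=
      ((hasDerivAt_pow 2 x).div_const 4).neg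
    have h2 := h1.exp
    have h3 : -(x / 2) = -(((2 : ℕ) * x ^ (2 - 1)) / 4) := by
      push_cast
      ring
    rw [h3]
    exact h2
  have hZc : ContinuousOn Z (Icc 0 b) := by
    have c1 : ContinuousOn (fun x : ℝ => exp (-(x ^ 2 / 4))) (Icc 0 b) := fun x _ =>
      (hexp x).continuousAt.continuousWithinAt
    have c2 : ContinuousOn DLem_y (Icc 0 b) := fun x _ =>
      (DLem_dy x).continuousAt.continuousWithinAt
    have c3 : ContinuousOn DLem_y' (Icc 0 b) := fun x _ =>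
      (DLem_dy' x).continuousAt.continuousWithinAt
    exact c1.mul ((c2.mul hEc).sub (c3.mul hDc))
  have hZd : ∀ x ∈ Ioo 0 b, ∃ z, HasDerivAt Z z x ∧ z ≤ 0 := by
    intro x hx
    have hxa : x ∈ Icc (0 : ℝ) (81 / 50) := ⟨hx.1.le, hx.2.le.trans hb.2⟩
    have d1 := (hDd x hxa).hasDerivAt (hint x hx)
    have d2 := (hEd x hxa).hasDerivAt (hint x hx)
    have d3 := (hexp x).mul (((DLem_dy x).mul d2).sub ((DLem_dy' x).mul d1))
    refine ⟨_, d3, ?_⟩
    have hux := hu.pos x hxa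
    have hwx := hw.pos x hxa
    have hDx := hDpos x hxa
    have hw2x := hw2 x hxa
    have hqpx := hqp x hxa
    have hyx := hy0 x ⟨hx.1.le, hx.2.le⟩
    have hy'x := hy'0 x hx.1.le
    have hex := exp_pos (-(x ^ 2 / 4))
    have key : 7246 / 10000 * D x ≤ (1 / u x - u x / 2) - (1 / w x - w x / 2) := by
      have h1 : (1 / u x - u x / 2) - (1 / w x - w x / 2) = D x / 2 + D x / (u x * w x) := by
        simp only [hDdef]
        field_simp
        ring
      have h2 : u x * w x ≤ (211 / 100) ^ 2 := by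
        have h3 : u x ≤ 211 / 100 := (hcon x hxa).le.trans hw2x
        nlinarith
      have h3 : D x / ((211 / 100 : ℝ) ^ 2) ≤ D x / (u x * w x) :=
        div_le_div_of_nonneg_left hDx.le (mul_pos hux hwx) h2
      rw [h1]
      have h4 : D x / ((211 / 100 : ℝ) ^ 2) = 10000 / 44521 * D x := by
        norm_num
        ring
      rw [h4] at h3
      nlinarith
    have hpoly : 0 ≤ (-(7246 / 10000) - 996 / 10000 * x ^ 2) - x / 2 * DLem_y' x +
        7246 / 10000 * DLem_y x := by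
      unfold DLem_y DLem_y'
      nlinarith [sq_nonneg x, sq_nonneg (x ^ 2)]
    have hmain : -(x / 2) * (DLem_y x * E x - DLem_y' x * D x) +
        ((DLem_y' x * E x + DLem_y x * ((x * q x / 2 + (1 / w x - w x / 2)) -
          (x * p x / 2 + (1 / u x - u x / 2)))) -
        ((-(7246 / 10000) - 996 / 10000 * x ^ 2) * D x + DLem_y' x * (q x - p x))) ≤ 0 := by
      have t1 : x / 2 * DLem_y x * ((q x - p x) - E x) ≤ 0 :=
        mul_nonpos_of_nonneg_of_nonpos (mul_nonneg (by linarith [hx.1]) hyx) (by linarith)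
      have t2 : DLem_y' x * (E x - (q x - p x)) ≤ 0 :=
        mul_nonpos_of_nonpos_of_nonneg hy'x (by linarith)
      have t3 : DLem_y x * (7246 / 10000 * D x) ≤
          DLem_y x * ((1 / u x - u x / 2) - (1 / w x - w x / 2)) :=
        mul_le_mul_of_nonneg_left key hyx
      have t4 : 0 ≤ ((-(7246 / 10000) - 996 / 10000 * x ^ 2) - x / 2 * DLem_y' x +
        7246 / 10000 * DLem_y x) * D x := mul_nonneg hpoly hDx.le
      nlinarith [t1, t2, t3, t4]
    have e1 : exp (-(x ^ 2 / 4)) * (-(x / 2)) * (DLem_y x * E x - DLem_y' x * D x) +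
        exp (-(x ^ 2 / 4)) * ((DLem_y' x * E x + DLem_y x * ((x * q x / 2 +
          (1 / w x - w x / 2)) - (x * p x / 2 + (1 / u x - u x / 2)))) -
        ((-(7246 / 10000) - 996 / 10000 * x ^ 2) * D x + DLem_y' x * (q x - p x))) =
        exp (-(x ^ 2 / 4)) * (-(x / 2) * (DLem_y x * E x - DLem_y' x * D x) +
        ((DLem_y' x * E x + DLem_y x * ((x * q x / 2 + (1 / w x - w x / 2)) -
          (x * p x / 2 + (1 / u x - u x / 2)))) -
        ((-(7246 / 10000) - 996 / 10000 * x ^ 2) * D x + DLem_y' x * (q x - p x)))) := by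
      ring
    have e2 := mul_nonpos_of_nonneg_of_nonpos hex.le hmain
    rw [← e1] at e2
    exact e2
  have hZanti : AntitoneOn Z (Icc 0 b) := by
    refine antitoneOn_of_deriv_nonpos (convex_Icc 0 b) hZc ?_ ?_
    · rw [interior_Icc]
      intro x hx
      obtain ⟨z, hz, -⟩ := hZd x hx
      exact hz.differentiableAt.differentiableWithinAt
    · rw [interior_Icc]
      intro x hx
      obtain ⟨z, hz, hz'⟩ := hZd x hx
      rw [hz.deriv]
      exact hz'
  have hZ0 : Z 0 = 0 := by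
    have : DLem_y' 0 = 0 := by
      unfold DLem_y'
      norm_num
    simp only [hZdef]
    rw [hE0, this]
    ring
  have hyE : ∀ x ∈ Icc 0 b, DLem_y x * E x ≤ DLem_y' x * D x := by
    intro x hx
    have h1 := hZanti (left_mem_Icc.2 hb0.le) hx hx.1
    rw [hZ0] at h1
    have h2 : DLem_y x * E x - DLem_y' x * D x ≤ 0 := by
      by_contra h3
      push Not at h3
      have h4 : 0 < Z x := mul_pos (exp_pos _) h3
      linarith
    linarith
  -- the quotient
  have hquo : AntitoneOn (fun x => D x / DLem_y x) (Ico 0 b) := by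
    have hd : ∀ x ∈ Ioo 0 b, HasDerivAt (fun x => D x / DLem_y x)
        (((q x - p x) * DLem_y x - D x * DLem_y' x) / DLem_y x ^ 2) x := by
      intro x hx
      have hxa : x ∈ Icc (0 : ℝ) (81 / 50) := ⟨hx.1.le, hx.2.le.trans hb.2⟩
      exact ((hDd x hxa).hasDerivAt (hint x hx)).div (DLem_dy x) (hypos x ⟨hx.1.le, hx.2⟩).ne'
    refine antitoneOn_of_deriv_nonpos (convex_Ico 0 b) ?_ ?_ ?_
    · intro x hx
      exact ((hDc x ⟨hx.1, hx.2.le⟩).mono Ico_subset_Icc_self).div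
        (DLem_dy x).continuousAt.continuousWithinAt (hypos x hx).ne'
    · rw [interior_Ico]
      intro x hx
      exact (hd x hx).differentiableAt.differentiableWithinAt
    · rw [interior_Ico]
      intro x hx
      rw [(hd x hx).deriv]
      have hxb : x ∈ Icc 0 b := ⟨hx.1.le, hx.2.le⟩
      have h1 := hyE x hxb
      have h2 : DLem_y x * (q x - p x) ≤ DLem_y x * E x :=
        mul_le_mul_of_nonneg_left (hqp x (hsub hxb)) (hy0 x hxb)
      exact div_nonpos_of_nonpos_of_nonneg (by linarith) (sq_nonneg _)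
  have hle : ∀ x ∈ Ico 0 b, D x ≤ D 0 * DLem_y x := by
    intro x hx
    have h1 := hquo (left_mem_Ico.2 hb0) hx hx.1
    simp only at h1
    have h2 : DLem_y 0 = 1 := by
      unfold DLem_y
      norm_num
    rw [h2, div_one, div_le_iff₀ (hypos x hx)] at h1
    exact h1
  have hfin : D b ≤ D 0 * DLem_y b := by
    have hcl : b ∈ closure (Ico 0 b) := by
      rw [closure_Ico hb0.ne]
      exact right_mem_Icc.2 hb0.le
    refine ContinuousWithinAt.closure_le hcl
      ((hDc b (right_mem_Icc.2 hb0.le)).mono Ico_subset_Icc_self) ?_ hle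
    exact ((DLem_dy b).continuousAt.const_mul (D 0)).continuousWithinAt
  rw [hyb, mul_zero] at hfin
  exact absurd (hDpos b hb) (not_lt.2 hfin)

end AT
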