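import Pool.Agent.H.MP_ce2c94_gt.Defs

/-!
# The comparison lemma for two graphs: the sign
-/

namespace AT

open Real Set

/-- the derivative of `arctan p` along a graph solution -/
theorem DLemA_datan {a : ℝ} {u p : ℝ → ℝ} (hu : GSol a u p) {x : ℝ} (hx : x ∈ Icc 0 a) :
    HasDerivWithinAt (fun x => arctan (p x)) (x * p x / 2 + (1 / u x - u x / 2)) (Icc 0 a) x := by
  have h1 := (hu.dp x hx).arctan
  have h2 : 1 / (1 + p x ^ 2) * ((1 + p x ^ 2) * (x * p x / 2 + (1 / u x - u x / 2))) =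
      x * p x / 2 + (1 / u x - u x / 2) := by
    have h3 : (1 : ℝ) + p x ^ 2 ≠ 0 := by positivity
    field_simp
  rw [h2] at h1
  exact h1

/-- the left slope at a maximum is nonnegative -/
theorem DLemA_left {a e x : ℝ} {E : ℝ → ℝ} (hx : x ∈ Ioc 0 a)
    (hE : HasDerivWithinAt E e (Icc 0 a) x) (hmax : ∀ y ∈ Icc 0 a, E y ≤ E x) : 0 ≤ e := by
  have h1 : HasDerivWithinAt E e (Ico 0 x) x :=
    hE.mono fun y hy => ⟨hy.1, hy.2.le.trans hx.2⟩
  rw [hasDerivWithinAt_iff_tendsto_slope' (by simp)] at h1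
  have h2 : (nhdsWithin x (Ico 0 x)).NeBot := by
    rw [← mem_closure_iff_nhdsWithin_neBot, closure_Ico hx.1.ne]
    exact ⟨hx.1.le, le_refl x⟩
  refine ge_of_tendsto h1 ?_
  filter_upwards [self_mem_nhdsWithin] with y hy
  rw [slope_def_field]
  have h3 := hmax y ⟨hy.1, hy.2.le.trans hx.2⟩
  exact div_nonneg_of_nonpos (by linarith) (by linarith [hy.2])

/-- Let `D = w - u`, `E = arctan q - arctan p`. If `D > 0` on `[0, a]`, `a = 1.62`, then `E < 0` on
`(0, a]`: `E' = (x/2)(q - p) - (1/2 + 1/(u w)) D`, `E 0 = 0`, `E' 0 < 0`, and at a zero of `E` one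
has `q = p`, so `E' < 0` there. -/
theorem dl_neg {a : ℝ} {u p w q : ℝ → ℝ} (ha : 0 < a) (hu : GSol a u p) (hw : GSol a w q)
    (hp0 : p 0 = 0) (hq0 : q 0 = 0) (hD : ∀ x ∈ Icc 0 a, u x < w x) :
    ∀ x ∈ Ioc 0 a, arctan (q x) < arctan (p x) := by
  set E : ℝ → ℝ := fun x => arctan (q x) - arctan (p x) with hEdef
  set E' : ℝ → ℝ := fun x => (x * q x / 2 + (1 / w x - w x / 2)) -
    (x * p x / 2 + (1 / u x - u x / 2)) with hE'def
  have hE : ∀ x ∈ Icc 0 a, HasDerivWithinAt E (E' x) (Icc 0 a) x := fun x hx =>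
    (DLemA_datan hw hx).sub (DLemA_datan hu hx)
  have hneg : ∀ x ∈ Icc 0 a, E x = 0 → E' x < 0 := by
    intro x hx h0
    have h1 : q x = p x := arctan_injective (sub_eq_zero.1 h0)
    have hux := hu.pos x hx
    have hwx := hw.pos x hx
    have hd := hD x hx
    have h2 : 1 / w x < 1 / u x := one_div_lt_one_div_of_lt hux hd
    simp only [hE'def]
    rw [h1]
    linarith
  have hcont : ContinuousOn E (Icc 0 a) := fun x hx => (hE x hx).continuousWithinAt
  have hle : ∀ ⦃x⦄, x ∈ Icc 0 a → E x ≤ (fun _ => (0 : ℝ)) x := by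
    refine image_le_of_deriv_right_lt_deriv_boundary (f' := E') (B' := fun _ => 0) hcont ?_ ?_
      (fun x => hasDerivAt_const x 0) ?_
    · intro x hx
      exact (hE x ⟨hx.1, hx.2.le⟩).mono_of_mem_nhdsWithin (Icc_mem_nhdsGE_of_mem hx)
    · simp only [hEdef]
      rw [hp0, hq0, sub_self]
    · intro x hx h0
      exact hneg x ⟨hx.1, hx.2.le⟩ h0
  intro x hx
  have hx' : x ∈ Icc 0 a := ⟨hx.1.le, hx.2⟩
  have h1 : E x ≤ 0 := hle hx'
  rcases lt_or_eq_of_le h1 with h2 | h2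
  · exact sub_neg.1 h2
  · exfalso
    have h3 : 0 ≤ E' x := DLemA_left hx (hE x hx') fun y hy => by
      rw [h2]
      exact hle hy
    exact absurd (hneg x hx' h2) (not_lt.2 h3)

end AT
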