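import Mathlib

/-!
# Profile curves of rotationally symmetric self-shrinkers: definitions

A profile is an arc length parametrised curve `(x, r)` in the half plane `r > 0` with tangent
angle `θ` such that the surface obtained by rotating it about the `x`-axis satisfies
`H = ⟨X, ν⟩ / 2`.
-/

namespace AT

open Real Set

/-- `x' = cos θ`, `r' = sin θ`, `θ' = (x/2) sin θ + (1/r - r/2) cos θ`, `r > 0`. -/
structure IsProfile (x r θ : ℝ → ℝ) : Prop where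
  pos : ∀ s, 0 < r s
  hx : ∀ s, HasDerivAt x (cos (θ s)) s
  hr : ∀ s, HasDerivAt r (sin (θ s)) s
  hθ : ∀ s, HasDerivAt θ (x s / 2 * sin (θ s) + (1 / r s - r s / 2) * cos (θ s)) s

/-- the image of a closed simple profile -/
def IsTorusCurve (C : Set (ℝ × ℝ)) : Prop :=
  ∃ (x r θ : ℝ → ℝ) (L : ℝ), 0 < L ∧ IsProfile x r θ ∧
    (∀ s, x (s + L) = x s) ∧ (∀ s, r (s + L) = r s) ∧
    InjOn (fun s => (x s, r s)) (Ico 0 L) ∧ C = range (fun s => (x s, r s))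

/-- symmetric under `x ↦ -x` -/
def IsSym (C : Set (ℝ × ℝ)) : Prop := ∀ p ∈ C, (-p.1, p.2) ∈ C

/-- the profile which leaves the axis `x = 0` orthogonally at height `c` -/
structure From (c : ℝ) (x r θ : ℝ → ℝ) : Prop where
  prof : IsProfile x r θ
  x0 : x 0 = 0
  r0 : r 0 = c
  θ0 : θ 0 = 0

/-- the first vertical tangent is at `S`, and it is passed upwards -/
def TipUp (θ : ℝ → ℝ) (S : ℝ) : Prop :=
  0 < S ∧ (∀ s ∈ Ico 0 S, -(π / 2) < θ s ∧ θ s < π / 2) ∧ θ S = π / 2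

/-- the first vertical tangent is at `S`, and it is passed downwards -/
def TipDn (θ : ℝ → ℝ) (S : ℝ) : Prop :=
  0 < S ∧ (∀ s ∈ Ico 0 S, -(π / 2) < θ s ∧ θ s < π / 2) ∧ θ S = -(π / 2)

/-- the curve is a graph over `[0, a]` -/
def GraphTo (x θ : ℝ → ℝ) (a S : ℝ) : Prop :=
  0 < S ∧ (∀ s ∈ Icc 0 S, -(π / 2) < θ s ∧ θ s < π / 2) ∧ x S = a

/-- the two strands of the right half of a symmetric torus curve -/
structure HalfData (b t : ℝ) (x₁ r₁ θ₁ : ℝ → ℝ) (S₁ : ℝ) (x₂ r₂ θ₂ : ℝ → ℝ) (S₂ : ℝ) : Prop where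
  f₁ : From b x₁ r₁ θ₁
  f₂ : From t x₂ r₂ θ₂
  up : TipUp θ₁ S₁
  dn : TipDn θ₂ S₂
  tx : x₁ S₁ = x₂ S₂
  tr : r₁ S₁ = r₂ S₂
  lt : ∀ s ∈ Ico 0 S₁, ∀ s' ∈ Ico 0 S₂, x₁ s = x₂ s' → r₁ s < r₂ s'

/-- `F(r) = r exp(-r²/4)` -/
noncomputable def FF (r : ℝ) : ℝ := r * exp (-(r ^ 2 / 4))

/-- `K` of the lower tau-system -/
noncomputable def KL (τ x r : ℝ) : ℝ := x * τ + (1 - τ ^ 2) * (1 / r - r / 2)

/-- `K` of the upper tau-system -/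
noncomputable def KU (τ x r : ℝ) : ℝ := x * τ + (1 - τ ^ 2) * (r / 2 - 1 / r)

/-- solution of the lower tau-system, `τ = tan (θ / 2)` -/
structure TauLow (T : ℝ) (X R : ℝ → ℝ) : Prop where
  pos : ∀ τ ∈ Icc 0 T, 0 < R τ
  K : ∀ τ ∈ Icc 0 T, 1 / 20 ≤ KL τ (X τ) (R τ)
  dX : ∀ τ ∈ Icc 0 T, HasDerivWithinAt X (2 * (1 - τ ^ 2) / ((1 + τ ^ 2) * KL τ (X τ) (R τ)))
    (Icc 0 T) τ
  dR : ∀ τ ∈ Icc 0 T, HasDerivWithinAt R (4 * τ / ((1 + τ ^ 2) * KL τ (X τ) (R τ))) (Icc 0 T) τ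

/-- solution of the upper tau-system, `τ = tan (-θ / 2)` -/
structure TauUp (T : ℝ) (X R : ℝ → ℝ) : Prop where
  pos : ∀ τ ∈ Icc 0 T, 0 < R τ
  K : ∀ τ ∈ Icc 0 T, 1 / 20 ≤ KU τ (X τ) (R τ)
  dX : ∀ τ ∈ Icc 0 T, HasDerivWithinAt X (2 * (1 - τ ^ 2) / ((1 + τ ^ 2) * KU τ (X τ) (R τ)))
    (Icc 0 T) τ
  dR : ∀ τ ∈ Icc 0 T, HasDerivWithinAt R (-(4 * τ / ((1 + τ ^ 2) * KU τ (X τ) (R τ)))) (Icc 0 T) τ

/-- the clamped `K` of the lower system -/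
noncomputable def KLc (τ x r : ℝ) : ℝ := max (1 / 20) (KL τ x (max r (1 / 100)))

/-- the clamped `K` of the upper system -/
noncomputable def KUc (τ x r : ℝ) : ℝ := max (1 / 20) (KU τ x (max r (1 / 100)))

/-- solution of the clamped lower tau-system -/
structure ClLow (T : ℝ) (X R : ℝ → ℝ) : Prop where
  dX : ∀ τ ∈ Icc 0 T, HasDerivWithinAt X (2 * (1 - τ ^ 2) / ((1 + τ ^ 2) * KLc τ (X τ) (R τ)))
    (Icc 0 T) τ
  dR : ∀ τ ∈ Icc 0 T, HasDerivWithinAt R (4 * τ / ((1 + τ ^ 2) * KLc τ (X τ) (R τ))) (Icc 0 T) τ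

/-- solution of the clamped upper tau-system -/
structure ClUp (T : ℝ) (X R : ℝ → ℝ) : Prop where
  dX : ∀ τ ∈ Icc 0 T, HasDerivWithinAt X (2 * (1 - τ ^ 2) / ((1 + τ ^ 2) * KUc τ (X τ) (R τ)))
    (Icc 0 T) τ
  dR : ∀ τ ∈ Icc 0 T, HasDerivWithinAt R (-(4 * τ / ((1 + τ ^ 2) * KUc τ (X τ) (R τ)))) (Icc 0 T) τ

/-- a graph solution `r = u(x)`, `p = u'` over `[0, a]` -/
structure GSol (a : ℝ) (u p : ℝ → ℝ) : Prop where
  pos : ∀ x ∈ Icc 0 a, 0 < u x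
  du : ∀ x ∈ Icc 0 a, HasDerivWithinAt u (p x) (Icc 0 a) x
  dp : ∀ x ∈ Icc 0 a, HasDerivWithinAt p
    ((1 + p x ^ 2) * (x * p x / 2 + (1 / u x - u x / 2))) (Icc 0 a) x

end AT
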