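import Pool.Agent.H.MP_ce2c94_gt.TipL
import Pool.Agent.H.MP_ce2c94_gt.CertB
import Pool.Agent.H.MP_ce2c94_gt.CertA
import Pool.Agent.H.MP_ce2c94_gt.CertQ
import Pool.Agent.H.MP_ce2c94_gt.CertC1
import Pool.Agent.H.MP_ce2c94_gt.CertC2

/-!
# Numerical facts, lower heights

Breakpoints: `107374182 < 322122547 < 386547056 < 579820584 < 864362169 < 1073741824`, divided by
`2^30 = 1073741824`.
-/

namespace AT

open Real Set

theorem FactL_MM : ((MM : ℕ) : ℝ) = 1073741824 := by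
  norm_num [MM]

theorem FactL_le {a b : ℕ} (h : Nat.ble a b = true) : (a : ℝ) / MM ≤ (b : ℝ) / 1073741824 := by
  rw [FactL_MM]
  have h1 : (a : ℝ) ≤ b := by exact_mod_cast Nat.le_of_ble_eq_true h
  exact div_le_div_of_nonneg_right h1 (by norm_num)

theorem FactL_ge {a b : ℕ} (h : Nat.ble a b = true) : (a : ℝ) / 1073741824 ≤ (b : ℝ) / MM := by
  rw [FactL_MM]
  have h1 : (a : ℝ) ≤ b := by exact_mod_cast Nat.le_of_ble_eq_true h
  exact div_le_div_of_nonneg_right h1 (by norm_num)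

theorem nf_B {c : ℝ} (h1 : 107374182 / 1073741824 ≤ c) (h2 : c ≤ 322122547 / 1073741824)
    {x r θ : ℝ → ℝ} (h : From c x r θ) : ∃ S, TipUp θ S ∧ x S < 37 / 50 ∧ r S < 14 / 5 := by
  obtain ⟨S, XL, XU, RL, RU, ht, hf, hx1, hx2, hr1, hr2⟩ :=
    low_tip (f := fB) (fin := finB) (fun N a b hh => hh) neB certB (by norm_num [R0])
      (c := c) (by rw [FactL_MM]; exact_mod_cast h1) (by rw [endB, FactL_MM]; exact_mod_cast h2) h
  simp only [finB, Bool.and_eq_true] at hf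
  obtain ⟨hf1, hf2⟩ := hf
  have e1 := FactL_le hf1
  have e2 := FactL_le hf2
  refine ⟨S, ht, ?_, ?_⟩
  · refine lt_of_le_of_lt (hx2.trans e1) ?_
    norm_num
  · refine lt_of_le_of_lt (hr2.trans e2) ?_
    norm_num

theorem nf_A {c : ℝ} (h1 : 322122547 / 1073741824 ≤ c) (h2 : c ≤ 386547056 / 1073741824)
    {x r θ : ℝ → ℝ} (h : From c x r θ) : ∃ S, TipUp θ S ∧ x S < 87 / 100 ∧ r S < 99 / 50 := by
  obtain ⟨S, XL, XU, RL, RU, ht, hf, hx1, hx2, hr1, hr2⟩ :=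
    low_tip (f := fA) (fin := finA) (fun N a b hh => hh) neA certA (by norm_num [R0])
      (c := c) (by rw [FactL_MM]; exact_mod_cast h1) (by rw [endA, FactL_MM]; exact_mod_cast h2) h
  simp only [finA, Bool.and_eq_true] at hf
  obtain ⟨hf1, hf2⟩ := hf
  have e1 := FactL_le hf1
  have e2 := FactL_le hf2
  refine ⟨S, ht, ?_, ?_⟩
  · refine lt_of_le_of_lt (hx2.trans e1) ?_
    norm_num
  · refine lt_of_le_of_lt (hr2.trans e2) ?_
    norm_num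

theorem FactL_fQ (N a b : ℕ) (hh : fQ N a b = true) : runL N finQ N 0 0 0 a b = true := by
  simp only [fQ, Bool.and_eq_true] at hh
  exact hh.1

theorem nf_Q {c : ℝ} (h1 : 386547056 / 1073741824 ≤ c) (h2 : c ≤ 579820584 / 1073741824)
    {x r θ : ℝ → ℝ} (h : From c x r θ) :
    ∃ S, TipUp θ S ∧ 183 / 100 < r S ∧ r S < 229 / 100 ∧ x S < 17 / 10 := by
  obtain ⟨S, XL, XU, RL, RU, ht, hf, hx1, hx2, hr1, hr2⟩ :=
    low_tip (f := fQ) (fin := finQ) FactL_fQ neQ certQ (by norm_num [R0])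
      (c := c) (by rw [FactL_MM]; exact_mod_cast h1) (by rw [endQ, FactL_MM]; exact_mod_cast h2) h
  simp only [finQ, Bool.and_eq_true] at hf
  obtain ⟨⟨hf1, hf2⟩, hf3⟩ := hf
  have e1 := FactL_ge hf1
  have e2 := FactL_le hf2
  have e3 := FactL_le hf3
  refine ⟨S, ht, ?_, ?_, ?_⟩
  · refine lt_of_lt_of_le ?_ (e1.trans hr1)
    norm_num
  · refine lt_of_le_of_lt (hr2.trans e2) ?_
    norm_num
  · refine lt_of_le_of_lt (hx2.trans e3) ?_
    norm_num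

theorem nf_Qm {c₁ c₂ : ℝ} (h1 : 386547056 / 1073741824 ≤ c₁) (h12 : c₁ < c₂)
    (h2 : c₂ ≤ 579820584 / 1073741824) {x₁ r₁ θ₁ x₂ r₂ θ₂ : ℝ → ℝ} (f₁ : From c₁ x₁ r₁ θ₁)
    (f₂ : From c₂ x₂ r₂ θ₂) {S₁ S₂ : ℝ} (t₁ : TipUp θ₁ S₁) (t₂ : TipUp θ₂ S₂) :
    x₁ S₁ < x₂ S₂ ∧ r₁ S₁ < r₂ S₂ := by
  exact low_tip_mono neQ certQ (by norm_num [R0]) (by rw [FactL_MM]; exact_mod_cast h1) h12
    (by rw [endQ, FactL_MM]; exact_mod_cast h2) f₁ f₂ t₁ t₂

theorem nf_C1 {c : ℝ} (h1 : 579820584 / 1073741824 ≤ c) (h2 : c ≤ 864362169 / 1073741824)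
    {x r θ : ℝ → ℝ} (h : From c x r θ) :
    ∃ S, TipUp θ S ∧ 97 / 100 < x S ∧ x S < 17 / 10 ∧ 53 / 25 < r S := by
  obtain ⟨S, XL, XU, RL, RU, ht, hf, hx1, hx2, hr1, hr2⟩ :=
    low_tip (f := fC1) (fin := finC1) (fun N a b hh => hh) neC1 certC1 (by norm_num [R0])
      (c := c) (by rw [FactL_MM]; exact_mod_cast h1) (by rw [endC1, FactL_MM]; exact_mod_cast h2) h
  simp only [finC1, Bool.and_eq_true] at hf
  obtain ⟨⟨hf1, hf2⟩, hf3⟩ := hf
  have e1 := FactL_ge hf1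
  have e2 := FactL_ge hf2
  have e3 := FactL_le hf3
  refine ⟨S, ht, ?_, ?_, ?_⟩
  · refine lt_of_lt_of_le ?_ (e1.trans hx1)
    norm_num
  · refine lt_of_le_of_lt (hx2.trans e3) ?_
    norm_num
  · refine lt_of_lt_of_le ?_ (e2.trans hr1)
    norm_num

theorem nf_C2 {c : ℝ} (h1 : 864362169 / 1073741824 ≤ c) (h2 : c ≤ 1)
    {x r θ : ℝ → ℝ} (h : From c x r θ) : ∃ S, TipUp θ S ∧ 97 / 100 < x S ∧ 53 / 25 < r S := by
  obtain ⟨S, XL, XU, RL, RU, ht, hf, hx1, hx2, hr1, hr2⟩ :=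
    low_tip (f := fC2) (fin := finC2) (fun N a b hh => hh) neC2 certC2 (by norm_num [R0])
      (c := c) (by rw [FactL_MM]; exact_mod_cast h1)
      (by rw [endC2, FactL_MM]; norm_num; exact h2) h
  simp only [finC2, Bool.and_eq_true] at hf
  obtain ⟨hf1, hf2⟩ := hf
  have e1 := FactL_ge hf1
  have e2 := FactL_ge hf2
  refine ⟨S, ht, ?_, ?_⟩
  · refine lt_of_lt_of_le ?_ (e1.trans hx1)
    norm_num
  · refine lt_of_lt_of_le ?_ (e2.trans hr1)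
    norm_num

end AT
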