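import Pool.Agent.H.MP_ce2c94_gt.TipU
import Pool.Agent.H.MP_ce2c94_gt.CertU0
import Pool.Agent.H.MP_ce2c94_gt.CertU1
import Pool.Agent.H.MP_ce2c94_gt.CertUQ
import Pool.Agent.H.MP_ce2c94_gt.CertU2

/-!
# Numerical facts, upper heights

Breakpoints: `2254857830 < 3339337072 < 3854733148 < 5905580033`, divided by
`2^30 = 1073741824`.
-/

namespace AT

open Real Set

/-- the common part of the final test `finU` -/
def UProp (X R : ℝ) : Prop :=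
  (37 / 50 < X ∨ 14 / 5 < R) ∧ (87 / 100 < X ∨ 99 / 50 < R) ∧ (X < 97 / 100 ∨ R < 53 / 25) ∧
    X < 181 / 100

theorem FactU_MM : ((MM : ℕ) : ℝ) = 1073741824 := by
  unfold MM
  norm_num

theorem FactU_low {k K : ℕ} {y q : ℝ} (hk : k ≤ K) (h : (K : ℝ) / MM ≤ y)
    (hq : q < (k : ℝ) / 1073741824) : q < y := by
  rw [FactU_MM] at h
  have h1 : (k : ℝ) ≤ K := by exact_mod_cast hk
  have h2 : (k : ℝ) / 1073741824 ≤ (K : ℝ) / 1073741824 :=
    div_le_div_of_nonneg_right h1 (by norm_num)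
  linarith

theorem FactU_up {k K : ℕ} {y q : ℝ} (hk : K ≤ k) (h : y ≤ (K : ℝ) / MM)
    (hq : (k : ℝ) / 1073741824 < q) : y < q := by
  rw [FactU_MM] at h
  have h1 : (K : ℝ) ≤ k := by exact_mod_cast hk
  have h2 : (K : ℝ) / 1073741824 ≤ (k : ℝ) / 1073741824 :=
    div_le_div_of_nonneg_right h1 (by norm_num)
  linarith

theorem FactU_prop {X R : ℝ} {XL XU RL RU : ℕ} (h : finU XL XU RL RU = true)
    (h1 : (XL : ℝ) / MM ≤ X) (h2 : X ≤ (XU : ℝ) / MM) (h3 : (RL : ℝ) / MM ≤ R)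
    (h4 : R ≤ (RU : ℝ) / MM) : UProp X R := by
  simp only [finU, Bool.and_eq_true, Bool.or_eq_true, Nat.ble_eq] at h
  obtain ⟨⟨⟨a1, a2⟩, a3⟩, a4⟩ := h
  refine ⟨?_, ?_, ?_, ?_⟩
  · rcases a1 with a1 | a1
    · exact Or.inl (FactU_low a1 h1 (by norm_num))
    · exact Or.inr (FactU_low a1 h3 (by norm_num))
  · rcases a2 with a2 | a2
    · exact Or.inl (FactU_low a2 h1 (by norm_num))
    · exact Or.inr (FactU_low a2 h3 (by norm_num))
  · rcases a3 with a3 | a3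
    · exact Or.inl (FactU_up a3 h2 (by norm_num))
    · exact Or.inr (FactU_up a3 h4 (by norm_num))
  · exact FactU_up a4 h2 (by norm_num)

theorem nf_U1 {c : ℝ} (h1 : 2254857830 / 1073741824 ≤ c) (h2 : c ≤ 3339337072 / 1073741824)
    {x r θ : ℝ → ℝ} (h : From c x r θ) :
    ∃ S, TipDn θ S ∧ UProp (x S) (r S) ∧ r S < 183 / 100 := by
  have h1' : ((2254857830 : ℕ) : ℝ) / MM ≤ c := by
    rw [FactU_MM]
    exact_mod_cast h1
  have h2' : c ≤ ((chainEnd 2254857830 lU1 : ℕ) : ℝ) / MM := by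
    rw [endU1, FactU_MM]
    exact_mod_cast h2
  obtain ⟨S, XL, XU, RL, RU, hS, hf, b1, b2, b3, b4⟩ :=
    up_tip (f := fU1) (fin := finU1) (fun N a b hh => hh) neU1 certU1 (by decide) h1' h2' h
  simp only [finU1, Bool.and_eq_true, Nat.ble_eq] at hf
  exact ⟨S, hS, FactU_prop hf.1 b1 b2 b3 b4, FactU_up hf.2 b4 (by norm_num)⟩

theorem nf_UQ {c : ℝ} (h1 : 3339337072 / 1073741824 ≤ c) (h2 : c ≤ 3854733148 / 1073741824)
    {x r θ : ℝ → ℝ} (h : From c x r θ) : ∃ S, TipDn θ S ∧ UProp (x S) (r S) := by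
  have h1' : ((3339337072 : ℕ) : ℝ) / MM ≤ c := by
    rw [FactU_MM]
    exact_mod_cast h1
  have h2' : c ≤ ((chainEnd 3339337072 lUQ : ℕ) : ℝ) / MM := by
    rw [endUQ, FactU_MM]
    exact_mod_cast h2
  obtain ⟨S, XL, XU, RL, RU, hS, hf, b1, b2, b3, b4⟩ :=
    up_tip (f := fUQ) (fin := finU) (fun N a b hh => (Bool.and_eq_true _ _ ▸ hh : _ ∧ _).1)
      neUQ certUQ (by decide) h1' h2' h
  exact ⟨S, hS, FactU_prop hf b1 b2 b3 b4⟩

theorem nf_UQm {c₁ c₂ : ℝ} (h1 : 3339337072 / 1073741824 ≤ c₁) (h12 : c₁ < c₂)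
    (h2 : c₂ ≤ 3854733148 / 1073741824) {x₁ r₁ θ₁ x₂ r₂ θ₂ : ℝ → ℝ} (f₁ : From c₁ x₁ r₁ θ₁)
    (f₂ : From c₂ x₂ r₂ θ₂) {S₁ S₂ : ℝ} (t₁ : TipDn θ₁ S₁) (t₂ : TipDn θ₂ S₂) :
    x₂ S₂ < x₁ S₁ ∧ r₁ S₁ < r₂ S₂ := by
  have h1' : ((3339337072 : ℕ) : ℝ) / MM ≤ c₁ := by
    rw [FactU_MM]
    exact_mod_cast h1
  have h2' : c₂ ≤ ((chainEnd 3339337072 lUQ : ℕ) : ℝ) / MM := by
    rw [endUQ, FactU_MM]
    exact_mod_cast h2
  exact up_tip_mono neUQ certUQ (by decide) h1' h12 h2' f₁ f₂ t₁ t₂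

theorem nf_U2 {c : ℝ} (h1 : 3854733148 / 1073741824 ≤ c) (h2 : c ≤ 11 / 2)
    {x r θ : ℝ → ℝ} (h : From c x r θ) :
    ∃ S, TipDn θ S ∧ UProp (x S) (r S) ∧ 229 / 100 < r S := by
  have h1' : ((3854733148 : ℕ) : ℝ) / MM ≤ c := by
    rw [FactU_MM]
    exact_mod_cast h1
  have h2' : c ≤ ((chainEnd 3854733148 lU2 : ℕ) : ℝ) / MM := by
    rw [endU2, FactU_MM]
    refine h2.trans ?_
    norm_num
  obtain ⟨S, XL, XU, RL, RU, hS, hf, b1, b2, b3, b4⟩ :=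
    up_tip (f := fU2) (fin := finU2) (fun N a b hh => hh) neU2 certU2 (by decide) h1' h2' h
  simp only [finU2, Bool.and_eq_true, Nat.ble_eq] at hf
  exact ⟨S, hS, FactU_prop hf.1 b1 b2 b3 b4, FactU_low hf.2 b3 (by norm_num)⟩

/-- `up_stop_box` along `certU0` (`chain_cover`), `tc_up`: `θ = -2 arctan τ < 0` on `(0, S']`, and
either `T = 1` and `S'` is a downward tip (contradiction with `tipUp_tipDn`), or `x S' ≥ 1.81`. In
the second case `S ≤ S'` is impossible (`θ S = π/2` but `θ ≤ 0` on `[0, S']`), so `S' < S` and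
`x S' < x S` by `strictMonoOn_x`. -/
theorem nf_U0 {c : ℝ} (h1 : 2 ≤ c) (h2 : c ≤ 2254857831 / 1073741824)
    {x r θ : ℝ → ℝ} (h : From c x r θ) {S : ℝ} (hS : TipUp θ S) : 181 / 100 ≤ x S := by
  have h1' : ((2147483648 : ℕ) : ℝ) / MM ≤ c := by
    rw [FactU_MM]
    refine le_trans ?_ h1
    norm_num
  have h2' : c ≤ ((chainEnd 2147483648 lU0 : ℕ) : ℝ) / MM := by
    rw [endU0, FactU_MM]
    exact_mod_cast h2
  obtain ⟨N, a, b, hN, ha, -, hf, hca, hcb⟩ := chain_cover lU0 2147483648 certU0 neU0 c h1' h2'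
  have ha' : R0 ≤ a := le_trans (by decide) ha
  obtain ⟨T, X, R, hT, hT1, tau, -, hX0, hR0, hstop⟩ :=
    up_stop_box (stopx := 1943472702) (fin := finT) hN hf ha' (by norm_num) hca hcb
  rcases hstop with hstop | ⟨hTe, -⟩
  · obtain ⟨S', hS', k1, -, -, k4⟩ :=
      tc_up hT tau h.prof (h.x0.trans hX0.symm) (h.r0.trans hR0.symm) h.θ0
    have hlt : S' < S := by
      by_contra hcon
      rw [not_lt] at hcon
      obtain ⟨τ, hτ, -, -, k5, -⟩ := k4 S ⟨hS.1.le, hcon⟩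
      have h5 : 0 ≤ arctan τ := by
        have := arctan_mono hτ.1
        rwa [arctan_zero] at this
      have h6 := hS.2.2
      have h7 := Real.pi_pos
      rw [k5] at h6
      linarith
    have h8 : x S' < x S := strictMonoOn_x h.prof hS.2.1 ⟨hS'.le, hlt.le⟩ ⟨hS.1.le, le_rfl⟩ hlt
    rw [k1] at h8
    have h9 : (181 / 100 : ℝ) ≤ ((1943472702 : ℕ) : ℝ) / MM := by
      rw [FactU_MM]
      norm_num
    linarith
  · subst hTe
    have hf' : From (R 0) x r θ := by rw [hR0]; exact h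
    obtain ⟨S', hS', -, -⟩ := tip_up tau hX0 hf'
    exact absurd hS' (fun hh => tipUp_tipDn hS hh)

end AT
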