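import Pool.Agent.H.MP_ce2c94_gt.RunX
import Pool.Agent.H.MP_ce2c94_gt.ChInd
import Pool.Agent.H.MP_ce2c94_gt.CertX1
import Pool.Agent.H.MP_ce2c94_gt.CertX2
import Pool.Agent.H.MP_ce2c94_gt.CertX3

/-!
# Numerical facts, graphs
-/

namespace AT

open Real Set

/-- `chain_cover` with `certX1` and `graph_box` (`724/400 = 1.81`). -/
theorem nf_X1 {c : ℝ} (h1 : 1 ≤ c) (h2 : c ≤ 2) :
    ∃ u p : ℝ → ℝ, GSol (181 / 100) u p ∧ u 0 = c ∧ p 0 = 0 ∧
      ∀ x ∈ Icc (0 : ℝ) (181 / 100), u x ≤ 211 / 100 := by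
  have hM : ((MM : ℕ) : ℝ) = 1073741824 := by norm_num [MM]
  obtain ⟨N, a, b, _, _, _, hf, ha, hb⟩ := chain_cover lX1 1073741824 certX1 neX1 c
    (by rw [hM]; push_cast; norm_num; exact h1)
    (by rw [hM, endX1, le_div_iff₀ (by norm_num)]; push_cast; linarith)
  obtain ⟨u, p, hG, hu, hp, hx⟩ := graph_box (H := 400) (umax := 2265595248) (k := 724)
    (by norm_num) (by norm_num) (by norm_num) hf ha hb
  have e : ((724 : ℕ) : ℝ) / ((400 : ℤ) : ℝ) = 181 / 100 := by norm_num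
  rw [e] at hG hx
  refine ⟨u, p, hG, hu, hp, fun x h => (hx x h).trans ?_⟩
  rw [hM]
  norm_num

/-- `chain_cover` with `certX2` and `graph_box` (`680/400 = 1.7`). -/
theorem nf_X2 {c : ℝ} (h1 : 2 ≤ c) (h2 : c ≤ 2254857831 / 1073741824) :
    ∃ u p : ℝ → ℝ, GSol (17 / 10) u p ∧ u 0 = c ∧ p 0 = 0 ∧
      ∀ x ∈ Icc (0 : ℝ) (17 / 10), u x ≤ 211 / 100 := by
  have hM : ((MM : ℕ) : ℝ) = 1073741824 := by norm_num [MM]
  obtain ⟨N, a, b, _, _, _, hf, ha, hb⟩ := chain_cover lX2 2147483648 certX2 neX2 c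
    (by rw [hM, div_le_iff₀ (by norm_num)]; push_cast; linarith)
    (by rw [hM, endX2]; push_cast; exact h2)
  obtain ⟨u, p, hG, hu, hp, hx⟩ := graph_box (H := 400) (umax := 2265595248) (k := 680)
    (by norm_num) (by norm_num) (by norm_num) hf ha hb
  have e : ((680 : ℕ) : ℝ) / ((400 : ℤ) : ℝ) = 17 / 10 := by norm_num
  rw [e] at hG hx
  refine ⟨u, p, hG, hu, hp, fun x h => (hx x h).trans ?_⟩
  rw [hM]
  norm_num

/-- `chain_cover` with `certX3` and `graph_box` (`1296/800 = 1.62`). -/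
theorem nf_X3 {c : ℝ} (h1 : 864362169 / 1073741824 ≤ c) (h2 : c ≤ 1) :
    ∃ u p : ℝ → ℝ, GSol (81 / 50) u p ∧ u 0 = c ∧ p 0 = 0 := by
  have hM : ((MM : ℕ) : ℝ) = 1073741824 := by norm_num [MM]
  obtain ⟨N, a, b, _, _, _, hf, ha, hb⟩ := chain_cover lX3 864362168 certX3 neX3 c
    (by rw [hM]; push_cast; refine le_trans ?_ h1; norm_num)
    (by rw [hM, endX3, le_div_iff₀ (by norm_num)]; push_cast; linarith)
  obtain ⟨u, p, hG, hu, hp, _⟩ := graph_box (H := 800) (umax := 5368709120) (k := 1296)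
    (by norm_num) (by norm_num) (by norm_num) hf ha hb
  have e : ((1296 : ℕ) : ℝ) / ((800 : ℤ) : ℝ) = 81 / 50 := by norm_num
  rw [e] at hG
  exact ⟨u, p, hG, hu, hp⟩

end AT
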