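import Pool.Agent.H.MP_ce2c94_gt.TC

/-!
# Time change for graphs
-/

namespace AT

open Real Set

/-- **Time change, graphs**: `time_change` with `g x = √(1 + p(x)²)`, `X = id`, `R = u`,
`Θ = arctan ∘ p`: `cos (arctan p) = 1/√(1+p²)`, `sin (arctan p) = p/√(1+p²)`,
`(arctan ∘ p)' = p'/(1+p²) = x p/2 + 1/u - u/2`. -/
theorem tc_graph {a : ℝ} (ha : 0 < a) {u p : ℝ → ℝ} (h : GSol a u p) (hp0 : p 0 = 0)
    {x r θ : ℝ → ℝ} (hf : From (u 0) x r θ) :
    ∃ S, GraphTo x θ a S ∧ ∀ s ∈ Icc 0 S, x s ∈ Icc 0 a ∧ r s = u (x s) := by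
  have hs0 : ∀ t : ℝ, 0 < √(1 + p t ^ 2) := fun t => sqrt_pos.2 (by positivity)
  have hcp : ContinuousOn p (Icc 0 a) := fun t ht => (h.dp t ht).continuousWithinAt
  obtain ⟨S, hS, e1, -, -, hall⟩ := time_change (T := a) ha (g := fun t => √(1 + p t ^ 2))
    (X := fun t => t) (R := u) (Θ := fun t => arctan (p t))
    (((continuousOn_const.add (hcp.pow 2))).sqrt)
    (fun t _ => hs0 t) h.pos
    (fun t ht => by
      have e : √(1 + p t ^ 2) * cos (arctan (p t)) = 1 := by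
        rw [cos_arctan, mul_one_div, div_self (hs0 t).ne']
      rw [e]
      exact (hasDerivAt_id t).hasDerivWithinAt)
    (fun t ht => by
      have e : √(1 + p t ^ 2) * sin (arctan (p t)) = p t := by
        rw [sin_arctan, mul_div_assoc', mul_div_cancel_left₀ _ (hs0 t).ne']
      rw [e]
      exact h.du t ht)
    (fun t ht => by
      have e : √(1 + p t ^ 2) * (t / 2 * sin (arctan (p t)) + (1 / u t - u t / 2) *
          cos (arctan (p t)))
          = 1 / (1 + p t ^ 2) * ((1 + p t ^ 2) * (t * p t / 2 + (1 / u t - u t / 2))) := by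
        have h1 : (1 + p t ^ 2 : ℝ) ≠ 0 := by positivity
        have h2 := (hs0 t).ne'
        rw [cos_arctan, sin_arctan, ← mul_assoc, one_div_mul_cancel h1, one_mul]
        generalize √(1 + p t ^ 2) = q at h2
        field_simp
      rw [e]
      exact (h.dp t ht).arctan)
    hf.prof hf.x0 hf.r0 (by rw [hf.θ0, hp0, arctan_zero])
  refine ⟨S, ⟨hS, ?_, e1⟩, ?_⟩
  · intro s hs
    obtain ⟨τ, -, -, -, e, -⟩ := hall s hs
    rw [e]
    exact ⟨neg_pi_div_two_lt_arctan _, arctan_lt_pi_div_two _⟩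
  · intro s hs
    obtain ⟨τ, hτ, e2, e3, -⟩ := hall s hs
    have e2' : x s = τ := e2
    rw [e2']
    exact ⟨hτ, e3⟩

end AT
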