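import Pool.Agent.H.MP_ce2c94_gt.Small
import Pool.Agent.H.MP_ce2c94_gt.Big
import Pool.Agent.H.MP_ce2c94_gt.DLem
import Pool.Agent.H.MP_ce2c94_gt.TCG
import Pool.Agent.H.MP_ce2c94_gt.FactL
import Pool.Agent.H.MP_ce2c94_gt.FactU
import Pool.Agent.H.MP_ce2c94_gt.FactX

/-!
# The case analysis
-/

namespace AT

open Real Set

/-- `b < t` (`lt` at `s = s' = 0`, both `x` vanish) and `0 < b` -/
theorem HalfData.bt {b t S₁ S₂ : ℝ} {x₁ r₁ θ₁ x₂ r₂ θ₂ : ℝ → ℝ}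
    (h : HalfData b t x₁ r₁ θ₁ S₁ x₂ r₂ θ₂ S₂) : 0 < b ∧ b < t := by
  constructor
  · have := h.f₁.prof.pos 0
    rwa [h.f₁.r0] at this
  · have := h.lt 0 ⟨le_rfl, h.up.1⟩ 0 ⟨le_rfl, h.dn.1⟩ (by rw [h.f₁.x0, h.f₂.x0])
    rwa [h.f₁.r0, h.f₂.r0] at this

/-- If the curve is a graph up to `a` then a tip comes later. -/
theorem Fin1_lt {x θ : ℝ → ℝ} {a S' S : ℝ} (h : GraphTo x θ a S') (hS0 : 0 < S)
    (ht : θ S = π / 2 ∨ θ S = -(π / 2)) : S' < S := by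
  by_contra hc
  push Not at hc
  have := h.2.1 S ⟨hS0.le, hc⟩
  rcases ht with ht | ht <;> rw [ht] at this <;> linarith [this.1, this.2]

/-- If the curve is a graph up to `a` then a tip has `x > a`. -/
theorem graph_tip {x r θ : ℝ → ℝ} {a S' S : ℝ} (hp : IsProfile x r θ) (h : GraphTo x θ a S')
    (hS : ∀ s ∈ Ico 0 S, -(π / 2) < θ s ∧ θ s < π / 2) (hS0 : 0 < S)
    (ht : θ S = π / 2 ∨ θ S = -(π / 2)) : a < x S := by
  have hlt := Fin1_lt h hS0 ht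
  have hm := strictMonoOn_x hp hS
  rw [← h.2.2]
  exact hm ⟨h.1.le, hlt.le⟩ ⟨hS0.le, le_rfl⟩ hlt

/-- The comparison lemma for half data: two graph solutions `u`, `w` over `[0, 1.62]` starting at
`b`, `t` with `w ≤ 2.11` contradict `lt`: `dlemma` gives `X` with `w X ≤ u X`; by `tc_graph` and the
intermediate value theorem there are `s`, `s'` before the tips with `x₁ s = X = x₂ s'`,
`r₁ s = u X`, `r₂ s' = w X`. -/
theorem graph_graph {b t S₁ S₂ : ℝ} {x₁ r₁ θ₁ x₂ r₂ θ₂ : ℝ → ℝ}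
    (h : HalfData b t x₁ r₁ θ₁ S₁ x₂ r₂ θ₂ S₂) {u p w q : ℝ → ℝ} (hu : GSol (81 / 50) u p)
    (hw : GSol (81 / 50) w q) (hp0 : p 0 = 0) (hq0 : q 0 = 0) (hu0 : u 0 = b) (hw0 : w 0 = t)
    (hw2 : ∀ x ∈ Icc (0 : ℝ) (81 / 50), w x ≤ 211 / 100) : False := by
  obtain ⟨X, hX, hle⟩ := dlemma hu hw hp0 hq0 (by rw [hu0, hw0]; exact h.bt.2) hw2
  have f₁ := h.f₁
  have f₂ := h.f₂
  rw [← hu0] at f₁
  rw [← hw0] at f₂
  obtain ⟨T₁, g₁, c₁⟩ := tc_graph (by norm_num : (0 : ℝ) < 81 / 50) hu hp0 f₁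
  obtain ⟨T₂, g₂, c₂⟩ := tc_graph (by norm_num : (0 : ℝ) < 81 / 50) hw hq0 f₂
  have l₁ := Fin1_lt g₁ h.up.1 (Or.inl h.up.2.2)
  have l₂ := Fin1_lt g₂ h.dn.1 (Or.inr h.dn.2.2)
  have cx₁ : ContinuousOn x₁ (Icc 0 T₁) := fun s _ => (f₁.prof.hx s).continuousAt.continuousWithinAt
  have cx₂ : ContinuousOn x₂ (Icc 0 T₂) := fun s _ => (f₂.prof.hx s).continuousAt.continuousWithinAt
  have i₁ := intermediate_value_Icc g₁.1.le cx₁
  have i₂ := intermediate_value_Icc g₂.1.le cx₂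
  rw [f₁.x0, g₁.2.2] at i₁
  rw [f₂.x0, g₂.2.2] at i₂
  obtain ⟨s, hs, es⟩ := i₁ hX
  obtain ⟨s', hs', es'⟩ := i₂ hX
  have e := h.lt s ⟨hs.1, lt_of_le_of_lt hs.2 l₁⟩ s' ⟨hs'.1, lt_of_le_of_lt hs'.2 l₂⟩
    (by rw [es, es'])
  rw [(c₁ s hs).2, (c₂ s' hs').2, es, es'] at e
  linarith

/-- restriction of a graph solution -/
theorem GSol.mono {a a' : ℝ} {u p : ℝ → ℝ} (h : GSol a u p) (ha : a' ≤ a) : GSol a' u p := by
  have hs : Icc 0 a' ⊆ Icc 0 a := Icc_subset_Icc_right ha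
  exact ⟨fun x hx => h.pos x (hs hx), fun x hx => (h.du x (hs hx)).mono hs,
    fun x hx => (h.dp x (hs hx)).mono hs⟩

end AT
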