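import Pool.Agent.H.MP_ce2c94_gt.Fin1

/-!
# The case analysis, second part
-/

namespace AT

open Real Set

/-- the lower strand cannot start at `c ≤ 1` with a downward tip -/
theorem Fin2_low {c : ℝ} (hc : 0 < c) (hc1 : c ≤ 1) {x r θ : ℝ → ℝ} (h : From c x r θ) :
    ∃ S, TipUp θ S := by
  rcases lt_or_ge c (1 / 10) with h1 | h1
  · obtain ⟨S, hS, -⟩ := small hc h1 h
    exact ⟨S, hS⟩
  rcases le_or_gt c (322122547 / 1073741824) with h2 | h2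
  · obtain ⟨S, hS, -⟩ := nf_B (by linarith) h2 h
    exact ⟨S, hS⟩
  rcases le_or_gt c (386547056 / 1073741824) with h3 | h3
  · obtain ⟨S, hS, -⟩ := nf_A h2.le h3 h
    exact ⟨S, hS⟩
  rcases le_or_gt c (579820584 / 1073741824) with h4 | h4
  · obtain ⟨S, hS, -⟩ := nf_Q h3.le h4 h
    exact ⟨S, hS⟩
  rcases le_or_gt c (864362169 / 1073741824) with h5 | h5
  · obtain ⟨S, hS, -⟩ := nf_C1 h4.le h5 h
    exact ⟨S, hS⟩
  · obtain ⟨S, hS, -⟩ := nf_C2 h5.le hc1 h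
    exact ⟨S, hS⟩

/-- for `c < 864362169/2^30` the tip has `x < 1.7` -/
theorem Fin2_x {c : ℝ} (hc : 0 < c) (hc1 : c ≤ 864362169 / 1073741824) {x r θ : ℝ → ℝ}
    (h : From c x r θ) {S : ℝ} (hS : TipUp θ S) : x S < 17 / 10 := by
  rcases lt_or_ge c (1 / 10) with h1 | h1
  · obtain ⟨S', hS', h6, -⟩ := small hc h1 h
    rw [tipUp_unique hS hS']; linarith
  rcases le_or_gt c (322122547 / 1073741824) with h2 | h2
  · obtain ⟨S', hS', h6, -⟩ := nf_B (by linarith) h2 h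
    rw [tipUp_unique hS hS']; linarith
  rcases le_or_gt c (386547056 / 1073741824) with h3 | h3
  · obtain ⟨S', hS', h6, -⟩ := nf_A h2.le h3 h
    rw [tipUp_unique hS hS']; linarith
  rcases le_or_gt c (579820584 / 1073741824) with h4 | h4
  · obtain ⟨S', hS', -, -, h6⟩ := nf_Q h3.le h4 h
    rw [tipUp_unique hS hS']; linarith
  · obtain ⟨S', hS', -, h6, -⟩ := nf_C1 h4.le hc1 h
    rw [tipUp_unique hS hS']; linarith

/-- graphs over `[0, 1.62]` for `c` between `864362169/2^30` and `2254857831/2^30` -/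
theorem Fin2_graph {c : ℝ} (h1 : 864362169 / 1073741824 ≤ c) (h2 : c ≤ 2254857831 / 1073741824) :
    ∃ u p : ℝ → ℝ, GSol (81 / 50) u p ∧ u 0 = c ∧ p 0 = 0 := by
  rcases le_or_gt c 1 with h3 | h3
  · exact nf_X3 h1 h3
  rcases le_or_gt c 2 with h4 | h4
  · obtain ⟨u, p, hu, e1, e2, -⟩ := nf_X1 h3.le h4
    exact ⟨u, p, hu.mono (by norm_num), e1, e2⟩
  · obtain ⟨u, p, hu, e1, e2, -⟩ := nf_X2 h4.le h2
    exact ⟨u, p, hu.mono (by norm_num), e1, e2⟩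

/-- (1) `t ≥ 2254857830/2^30`. Suppose not. `t < 1/10`: `small` gives `TipUp` for `θ₂`, against
`h.dn` (`tipUp_tipDn`); `t ∈ [1/10, 1]`: the same with `nf_B`, `nf_A`, `nf_Q`, `nf_C1`, `nf_C2`
(note `107374182/2^30 ≤ 1/10`). `t ∈ [1, 2.1]`: by `nf_X1`, `nf_X2` (`tc_graph`, `graph_tip`)
`x₂ S₂ > 1.7`. If `b < 864362169/2^30`: `small`, `nf_B`, `nf_A`, `nf_Q`, `nf_C1`
give `x₁ S₁ < 1.7` (`tipUp_unique`). If `864362169/2^30 ≤ b`: `graph_graph` with `nf_X3` (`b ≤ 1`),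
`nf_X1` (`b ∈ [1,2]`), `nf_X2`, and for `t` `nf_X1` or `nf_X2` (`GSol.mono`). -/
theorem HalfData.t_ge {b t S₁ S₂ : ℝ} {x₁ r₁ θ₁ x₂ r₂ θ₂ : ℝ → ℝ}
    (h : HalfData b t x₁ r₁ θ₁ S₁ x₂ r₂ θ₂ S₂) : 2254857830 / 1073741824 ≤ t := by
  by_contra hc
  push Not at hc
  obtain ⟨hb0, hbt⟩ := h.bt
  rcases le_or_gt t 1 with ht | ht
  · obtain ⟨S, hS⟩ := Fin2_low (hb0.trans hbt) ht h.f₂
    exact tipUp_tipDn hS h.dn
  -- a graph for `t`
  obtain ⟨a, w, q, ha, hw, hw0, hq0, hw2⟩ : ∃ (a : ℝ) (w q : ℝ → ℝ), 17 / 10 ≤ a ∧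
      GSol a w q ∧ w 0 = t ∧ q 0 = 0 ∧ ∀ x ∈ Icc (0 : ℝ) a, w x ≤ 211 / 100 := by
    rcases le_or_gt t 2 with h2 | h2
    · obtain ⟨w, q, hw, e1, e2, e3⟩ := nf_X1 ht.le h2
      exact ⟨181 / 100, w, q, by norm_num, hw, e1, e2, e3⟩
    · obtain ⟨w, q, hw, e1, e2, e3⟩ := nf_X2 h2.le (by linarith)
      exact ⟨17 / 10, w, q, le_rfl, hw, e1, e2, e3⟩
  rcases le_or_gt b (864362169 / 1073741824) with hb | hb
  · have h1 := Fin2_x hb0 hb h.f₁ h.up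
    have f₂ := h.f₂
    rw [← hw0] at f₂
    obtain ⟨T, g, -⟩ := tc_graph (by linarith) hw hq0 f₂
    have h2 := graph_tip h.f₂.prof g h.dn.2.1 h.dn.1 (Or.inr h.dn.2.2)
    rw [← h.tx] at h2
    linarith
  · obtain ⟨u, p, hu, hu0, hp0⟩ := Fin2_graph hb.le (by linarith)
    exact graph_graph h hu (hw.mono (by linarith)) hp0 hq0 hu0 hw0
      (fun x hx => hw2 x ⟨hx.1, by linarith [hx.2]⟩)

/-- what is known about the upper tip, for `t ≥ 2254857830/2^30` (`HalfData.t_ge`): `nf_U1`,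
`nf_UQ`, `nf_U2`, and `big` for `t ≥ 5.5` (`x < .96`, `r > 4`); `tipDn_unique`, `h.tx`, `h.tr`. -/
theorem HalfData.upper {b t S₁ S₂ : ℝ} {x₁ r₁ θ₁ x₂ r₂ θ₂ : ℝ → ℝ}
    (h : HalfData b t x₁ r₁ θ₁ S₁ x₂ r₂ θ₂ S₂) : UProp (x₁ S₁) (r₁ S₁) ∧
      (t < 3339337072 / 1073741824 → r₁ S₁ < 183 / 100) ∧
      (3854733148 / 1073741824 < t → 229 / 100 < r₁ S₁) := by
  rw [h.tx, h.tr]
  have ht := h.t_ge
  rcases le_or_gt t (3339337072 / 1073741824) with h1 | h1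
  · obtain ⟨S, hS, hu, hr⟩ := nf_U1 ht h1 h.f₂
    rw [tipDn_unique h.dn hS]
    exact ⟨hu, fun _ => hr, fun h2 => by exfalso; linarith⟩
  rcases le_or_gt t (3854733148 / 1073741824) with h2 | h2
  · obtain ⟨S, hS, hu⟩ := nf_UQ h1.le h2 h.f₂
    rw [tipDn_unique h.dn hS]
    exact ⟨hu, fun h3 => by exfalso; linarith, fun h3 => by exfalso; linarith⟩
  rcases le_or_gt t (11 / 2) with h3 | h3
  · obtain ⟨S, hS, hu, hr⟩ := nf_U2 h2.le h3 h.f₂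
    rw [tipDn_unique h.dn hS]
    exact ⟨hu, fun h4 => by exfalso; linarith, fun _ => hr⟩
  · obtain ⟨S, hS, hx, hr⟩ := big h3.le h.f₂
    rw [tipDn_unique h.dn hS]
    refine ⟨⟨Or.inr (by linarith), Or.inr (by linarith), Or.inl (by linarith), by linarith⟩,
      fun h4 => by exfalso; linarith, fun _ => by linarith⟩

/-- (3) `b < 1`: otherwise `x₁ S₁ ≥ 1.81` (`nf_X1`, `nf_U0`) or a downward tip
(`nf_U1`, `nf_UQ`, `nf_U2`, `big`), against `HalfData.upper`. -/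
theorem HalfData.b_lt {b t S₁ S₂ : ℝ} {x₁ r₁ θ₁ x₂ r₂ θ₂ : ℝ → ℝ}
    (h : HalfData b t x₁ r₁ θ₁ S₁ x₂ r₂ θ₂ S₂) : b < 1 := by
  by_contra hb
  push Not at hb
  have hX : x₁ S₁ < 181 / 100 := h.upper.1.2.2.2
  rcases le_total b 2 with h2 | h2
  · obtain ⟨u, p, hg, hu0, hp0, -⟩ := nf_X1 hb h2
    subst hu0
    obtain ⟨S, hS, -⟩ := tc_graph (by norm_num) hg hp0 h.f₁
    have h3 := graph_tip h.f₁.prof hS h.up.2.1 h.up.1 (Or.inl h.up.2.2)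
    linarith
  · rcases le_total b (2254857830 / 1073741824) with h3 | h3
    · have h4 := nf_U0 h2 (h3.trans (by norm_num)) h.f₁ h.up
      linarith
    · rcases le_total b (3339337072 / 1073741824) with h4 | h4
      · obtain ⟨S, hS, -⟩ := nf_U1 h3 h4 h.f₁
        exact tipUp_tipDn h.up hS
      · rcases le_total b (3854733148 / 1073741824) with h5 | h5
        · obtain ⟨S, hS, -⟩ := nf_UQ h4 h5 h.f₁
          exact tipUp_tipDn h.up hS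
        · rcases le_total b (11 / 2) with h6 | h6
          · obtain ⟨S, hS, -⟩ := nf_U2 h5 h6 h.f₁
            exact tipUp_tipDn h.up hS
          · obtain ⟨S, hS, -⟩ := big h6 h.f₁
            exact tipUp_tipDn h.up hS

/-- (4) `b` lies in the core interval: `small`, `nf_B` give `x₁ S₁ < .74`, `r₁ S₁ < 2.8`; `nf_A`
gives `x₁ S₁ < .87`, `r₁ S₁ < 1.98`; `nf_C1`, `nf_C2` give `x₁ S₁ > .97`, `r₁ S₁ > 2.12`; all
contradict `UProp`. -/
theorem HalfData.b_core {b t S₁ S₂ : ℝ} {x₁ r₁ θ₁ x₂ r₂ θ₂ : ℝ → ℝ}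
    (h : HalfData b t x₁ r₁ θ₁ S₁ x₂ r₂ θ₂ S₂) :
    386547056 / 1073741824 ≤ b ∧ b ≤ 579820584 / 1073741824 := by
  obtain ⟨⟨u1, u2, u3, -⟩, -, -⟩ := h.upper
  have hb0 := h.bt.1
  have hb1 := h.b_lt
  constructor
  · by_contra hb
    push Not at hb
    rcases lt_or_ge b (1 / 10) with h1 | h1
    · obtain ⟨S, hS, hx, hr⟩ := small hb0 h1 h.f₁
      rw [tipUp_unique hS h.up] at hx hr
      rcases u1 with u | u <;> linarith
    · rcases le_total b (322122547 / 1073741824) with h2 | h2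
      · obtain ⟨S, hS, hx, hr⟩ := nf_B (le_trans (by norm_num) h1) h2 h.f₁
        rw [tipUp_unique hS h.up] at hx hr
        rcases u1 with u | u <;> linarith
      · obtain ⟨S, hS, hx, hr⟩ := nf_A h2 hb.le h.f₁
        rw [tipUp_unique hS h.up] at hx hr
        rcases u2 with u | u <;> linarith
  · by_contra hb
    push Not at hb
    rcases le_total b (864362169 / 1073741824) with h2 | h2
    · obtain ⟨S, hS, hx, -, hr⟩ := nf_C1 hb.le h2 h.f₁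
      rw [tipUp_unique hS h.up] at hx hr
      rcases u3 with u | u <;> linarith
    · obtain ⟨S, hS, hx, hr⟩ := nf_C2 h2 hb1.le h.f₁
      rw [tipUp_unique hS h.up] at hx hr
      rcases u3 with u | u <;> linarith

/-- (5) `t` lies in the core interval: `nf_Q` gives `1.83 < r₁ S₁ < 2.29`. -/
theorem HalfData.t_core {b t S₁ S₂ : ℝ} {x₁ r₁ θ₁ x₂ r₂ θ₂ : ℝ → ℝ}
    (h : HalfData b t x₁ r₁ θ₁ S₁ x₂ r₂ θ₂ S₂) :
    3339337072 / 1073741824 ≤ t ∧ t ≤ 3854733148 / 1073741824 := by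
  obtain ⟨-, u1, u2⟩ := h.upper
  obtain ⟨S, hS, hr1, hr2, -⟩ := nf_Q h.b_core.1 h.b_core.2 h.f₁
  rw [tipUp_unique hS h.up] at hr1 hr2
  constructor
  · by_contra hc
    push Not at hc
    have := u1 hc
    linarith
  · by_contra hc
    push Not at hc
    have := u2 hc
    linarith

/-- (6) Two half data with `b < b'` : `nf_Qm` gives `x₁ S₁ < x₁' S₁'`, `r₁ S₁ < r₁' S₁'`;
`t < t'` gives `x₂' S₂' < x₂ S₂`, `t' < t` gives `r₂' S₂' < r₂ S₂`, `t = t'` gives equality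
(`profile_unique`, `tipDn_unique`): contradiction. -/
theorem HalfData.b_unique {b t S₁ S₂ b' t' S₁' S₂' : ℝ} {x₁ r₁ θ₁ x₂ r₂ θ₂ : ℝ → ℝ}
    {x₁' r₁' θ₁' x₂' r₂' θ₂' : ℝ → ℝ} (h : HalfData b t x₁ r₁ θ₁ S₁ x₂ r₂ θ₂ S₂)
    (h' : HalfData b' t' x₁' r₁' θ₁' S₁' x₂' r₂' θ₂' S₂') : ¬ b < b' := by
  intro hb
  obtain ⟨hx, hr⟩ := nf_Qm h.b_core.1 hb h'.b_core.2 h.f₁ h'.f₁ h.up h'.up
  rw [h.tx, h'.tx] at hx
  rw [h.tr, h'.tr] at hr
  rcases lt_trichotomy t t' with ht | ht | ht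
  · obtain ⟨hx2, -⟩ := nf_UQm h.t_core.1 ht h'.t_core.2 h.f₂ h'.f₂ h.dn h'.dn
    linarith
  · obtain ⟨e1, -, e3⟩ := profile_unique h.f₂.prof h'.f₂.prof 0
      (by rw [h.f₂.x0, h'.f₂.x0]) (by rw [h.f₂.r0, h'.f₂.r0, ht]) (by rw [h.f₂.θ0, h'.f₂.θ0])
    subst e1
    subst e3
    rw [tipDn_unique h.dn h'.dn] at hx
    exact lt_irrefl _ hx
  · obtain ⟨-, hr2⟩ := nf_UQm h'.t_core.1 ht h.t_core.2 h'.f₂ h.f₂ h'.dn h.dn
    linarith

end AT
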