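import Pool.Agent.H.MP_ce2c94_gt.Uq

/-!
# Time changes
-/

namespace AT

open Real Set

/-- A tip is unique. (If `S < S'` then `θ S` lies in the open interval, contradiction.) -/
theorem tipUp_unique {θ : ℝ → ℝ} {S S' : ℝ} (h : TipUp θ S) (h' : TipUp θ S') : S = S' := by
  rcases lt_trichotomy S S' with h1 | h1 | h1
  · exact absurd h.2.2 (h'.2.1 S ⟨h.1.le, h1⟩).2.ne
  · exact h1
  · exact absurd h'.2.2 (h.2.1 S' ⟨h'.1.le, h1⟩).2.ne

theorem tipDn_unique {θ : ℝ → ℝ} {S S' : ℝ} (h : TipDn θ S) (h' : TipDn θ S') : S = S' := by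
  rcases lt_trichotomy S S' with h1 | h1 | h1
  · exact absurd h.2.2 (h'.2.1 S ⟨h.1.le, h1⟩).1.ne'
  · exact h1
  · exact absurd h'.2.2 (h.2.1 S' ⟨h'.1.le, h1⟩).1.ne'

theorem tipUp_tipDn {θ : ℝ → ℝ} {S S' : ℝ} (h : TipUp θ S) (h' : TipDn θ S') : False := by
  rcases lt_trichotomy S S' with h1 | h1 | h1
  · exact absurd h.2.2 (h'.2.1 S ⟨h.1.le, h1⟩).2.ne
  · have h2 := h.2.2
    have h3 := h'.2.2
    rw [h1, h3] at h2
    have := Real.pi_pos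
    linarith
  · exact absurd h'.2.2 (h.2.1 S' ⟨h'.1.le, h1⟩).1.ne'

/-- Before a tip `x` is strictly increasing (`x' = cos θ > 0`). -/
theorem strictMonoOn_x {x r θ : ℝ → ℝ} (h : IsProfile x r θ) {S : ℝ}
    (hS : ∀ s ∈ Ico 0 S, -(π / 2) < θ s ∧ θ s < π / 2) : StrictMonoOn x (Icc 0 S) := by
  refine strictMonoOn_of_deriv_pos (convex_Icc 0 S)
    (fun s _ => (h.hx s).continuousAt.continuousWithinAt) ?_
  intro s hs
  rw [interior_Icc] at hs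
  rw [(h.hx s).deriv]
  exact cos_pos_of_mem_Ioo (hS s ⟨hs.1.le, hs.2⟩)

/-- **Time change.** Let `G` be a globally continuous positive extension of `g` (for instance
`g (projIcc 0 T)`), `σ τ = ∫ t in 0..τ, G t`; it is differentiable everywhere with derivative
`G > 0`, `σ 0 = 0`. Both `(x ∘ σ, r ∘ σ, θ ∘ σ)` and `(X, R, Θ)` solve `y' = g(τ) VF(y)` on
`[0,T]`; by `ode_unique` they agree on `[0,T]`. `S = σ T`; for `s ∈ Icc 0 S` there is
`τ ∈ Icc 0 T` with `σ τ = s` (intermediate values), and `σ` is strictly monotone. -/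
theorem time_change {T : ℝ} (hT : 0 < T) {g X R Θ : ℝ → ℝ} (cg : ContinuousOn g (Icc 0 T))
    (pg : ∀ τ ∈ Icc 0 T, 0 < g τ) (pR : ∀ τ ∈ Icc 0 T, 0 < R τ)
    (dX : ∀ τ ∈ Icc 0 T, HasDerivWithinAt X (g τ * cos (Θ τ)) (Icc 0 T) τ)
    (dR : ∀ τ ∈ Icc 0 T, HasDerivWithinAt R (g τ * sin (Θ τ)) (Icc 0 T) τ)
    (dΘ : ∀ τ ∈ Icc 0 T, HasDerivWithinAt Θ
      (g τ * (X τ / 2 * sin (Θ τ) + (1 / R τ - R τ / 2) * cos (Θ τ))) (Icc 0 T) τ)
    {x r θ : ℝ → ℝ} (hp : IsProfile x r θ) (hx : x 0 = X 0) (hr : r 0 = R 0) (hθ : θ 0 = Θ 0) :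
    ∃ S, 0 < S ∧ x S = X T ∧ r S = R T ∧ θ S = Θ T ∧
      ∀ s ∈ Icc 0 S, ∃ τ ∈ Icc 0 T, x s = X τ ∧ r s = R τ ∧ θ s = Θ τ ∧
        (s < S → τ < T) ∧ (0 < s → 0 < τ) := by
  obtain ⟨G, hG⟩ : ∃ G : ℝ → ℝ, G = fun t => g (projIcc 0 T hT.le t) := ⟨_, rfl⟩
  have hGc : Continuous G := by
    rw [hG]
    exact cg.comp_continuous (continuous_subtype_val.comp continuous_projIcc)
      (fun t => (projIcc 0 T hT.le t).2)
  have hGe : ∀ t ∈ Icc 0 T, G t = g t := by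
    intro t ht
    rw [hG]
    show g (projIcc 0 T hT.le t) = g t
    rw [projIcc_of_mem hT.le ht]
  have hGp : ∀ t, 0 < G t := by
    intro t
    rw [hG]
    exact pg _ (projIcc 0 T hT.le t).2
  obtain ⟨σ, hσ⟩ : ∃ σ : ℝ → ℝ, σ = fun τ => ∫ t in (0:ℝ)..τ, G t := ⟨_, rfl⟩
  have hσd : ∀ τ, HasDerivAt σ (G τ) τ := by
    intro τ
    rw [hσ]
    exact intervalIntegral.integral_hasDerivAt_right (hGc.intervalIntegrable _ _)
      (hGc.stronglyMeasurableAtFilter _ _) hGc.continuousAt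
  have hσ0 : σ 0 = 0 := by
    rw [hσ]
    exact intervalIntegral.integral_same
  have hσm : StrictMono σ := by
    refine strictMono_of_deriv_pos (fun τ => ?_)
    rw [(hσd τ).deriv]
    exact hGp τ
  have hσc : Continuous σ := continuous_iff_continuousAt.2 fun τ => (hσd τ).continuousAt
  obtain ⟨C, hC⟩ := isCompact_Icc.exists_bound_of_continuousOn cg
  have cont : ∀ {y : ℝ → ℝ} {y' : ℝ → ℝ}, (∀ s, HasDerivAt y (y' s) s) → Continuous y :=
    fun hy => continuous_iff_continuousAt.2 fun s => (hy s).continuousAt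
  have hkey := ode_unique (a := 0) (b := T) (G := C) (g := g)
    (x := fun t => x (σ t)) (r := fun t => r (σ t)) (θ := fun t => θ (σ t))
    (x' := X) (r' := R) (θ' := Θ)
    (fun t ht => hC t ⟨ht.1, ht.2.le⟩)
    ((cont hp.hx).comp hσc).continuousOn ((cont hp.hr).comp hσc).continuousOn
    ((cont hp.hθ).comp hσc).continuousOn
    (fun τ hτ => (dX τ hτ).continuousWithinAt) (fun τ hτ => (dR τ hτ).continuousWithinAt)
    (fun τ hτ => (dΘ τ hτ).continuousWithinAt)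
    (fun t _ => hp.pos _) pR
    (fun t ht => by
      have h1 := ((hp.hx (σ t)).comp t (hσd t)).hasDerivWithinAt (s := Ici t)
      rwa [hGe t ⟨ht.1, ht.2.le⟩, mul_comm] at h1)
    (fun t ht => by
      have h1 := ((hp.hr (σ t)).comp t (hσd t)).hasDerivWithinAt (s := Ici t)
      rwa [hGe t ⟨ht.1, ht.2.le⟩, mul_comm] at h1)
    (fun t ht => by
      have h1 := ((hp.hθ (σ t)).comp t (hσd t)).hasDerivWithinAt (s := Ici t)
      rwa [hGe t ⟨ht.1, ht.2.le⟩, mul_comm] at h1)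
    (fun t ht => (dX t ⟨ht.1, ht.2.le⟩).mono_of_mem_nhdsWithin (Icc_mem_nhdsGE_of_mem ht))
    (fun t ht => (dR t ⟨ht.1, ht.2.le⟩).mono_of_mem_nhdsWithin (Icc_mem_nhdsGE_of_mem ht))
    (fun t ht => (dΘ t ⟨ht.1, ht.2.le⟩).mono_of_mem_nhdsWithin (Icc_mem_nhdsGE_of_mem ht))
    (by rw [hσ0]; exact hx) (by rw [hσ0]; exact hr) (by rw [hσ0]; exact hθ)
  have hST : 0 < σ T := by
    have := hσm hT
    rwa [hσ0] at this
  obtain ⟨k1, k2, k3⟩ := hkey T ⟨hT.le, le_rfl⟩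
  refine ⟨σ T, hST, k1, k2, k3, ?_⟩
  intro s hs
  rw [← hσ0] at hs
  obtain ⟨τ, hτ, rfl⟩ := intermediate_value_Icc hT.le hσc.continuousOn hs
  obtain ⟨m1, m2, m3⟩ := hkey τ hτ
  refine ⟨τ, hτ, m1, m2, m3, fun h => hσm.lt_iff_lt.1 h, fun h => ?_⟩
  rw [← hσ0] at h
  exact hσm.lt_iff_lt.1 h

end AT
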