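import Pool.Agent.H.MP_ce2c94_gt.RedC
import Pool.Agent.H.MP_ce2c94_gt.TC

/-!
# The two strands do not cross
-/

namespace AT

open Real Set

theorem RedD_cont {x : ℝ → ℝ} (hx : Continuous x) {a b c d : ℝ}
    (hanti : StrictAntiOn x (Icc c d)) (σ : ℝ → ℝ) (hσ : ∀ s ∈ Icc a b, σ s ∈ Icc c d)
    (hσx : ∀ s ∈ Icc a b, x (σ s) = x s) : ContinuousOn σ (Icc a b) := by
  have hF : Topology.IsClosedEmbedding (fun t : Icc c d => x t) := by
    refine Continuous.isClosedEmbedding (hx.comp continuous_subtype_val) ?_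
    intro t t' htt
    exact Subtype.ext (hanti.injOn t.2 t'.2 htt)
  have h1 : Continuous (fun s : Icc a b => (⟨σ s, hσ s s.2⟩ : Icc c d)) := by
    rw [hF.isEmbedding.continuous_iff]
    have e : ((fun t : Icc c d => x t) ∘ fun s : Icc a b => (⟨σ s, hσ s s.2⟩ : Icc c d)) =
        fun s : Icc a b => x s := by
      funext s
      exact hσx s s.2
    rw [e]
    exact hx.comp continuous_subtype_val
  rw [continuousOn_iff_continuous_domRestrict]
  exact continuous_subtype_val.comp h1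

/-- **Ordering of the strands.** `x₁ = x` on `[0, P]` and `x₂ s' = x (L/2 - s')` on `[0, L/2 - P]`
are continuous and strictly increasing (`cos θ > 0`, resp. `cos θ < 0`) from `0` to `x P`. Let
`g : [0, x P] → [0, P]`, `g' : [0, x P] → [P, L/2]` be the (continuous) inverse functions,
`f = r ∘ g' - r ∘ g`. By injectivity `f ≠ 0` on `[0, x P)` (`r (g X) = r (g' X)` would give
`g' X = g X + k L`, `0 < g' X - g X < L`). Near `x P`: `r' P = sin (π/2) = 1 > 0`, so
`r (g X) < r P < r (g' X)` for `X < x P` close to `x P`, hence `f > 0` there, and by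
connectedness on `[0, x P)`. -/
theorem Loop.order {x r θ : ℝ → ℝ} {L P : ℝ} (h : Loop x r θ L) (hx : x 0 = 0)
    (hP : 0 < P) (hP' : P < L / 2) (hxL : x (L / 2) = 0)
    (h1 : ∀ s ∈ Ico 0 P, 0 < cos (θ s)) (h2 : θ P = π / 2)
    (h3 : ∀ s ∈ Ioc P (L / 2), cos (θ s) < 0) :
    ∀ s ∈ Ico 0 P, ∀ s' ∈ Ioc P (L / 2), x s = x s' → r s < r s' := by
  classical
  have hxc : Continuous x := continuous_iff_continuousAt.2 fun s => (h.prof.hx s).continuousAt
  have hrc : Continuous r := continuous_iff_continuousAt.2 fun s => (h.prof.hr s).continuousAt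
  have hθc : Continuous θ := continuous_iff_continuousAt.2 fun s => (h.prof.hθ s).continuousAt
  have hmono : StrictMonoOn x (Icc 0 P) := by
    refine strictMonoOn_of_deriv_pos (convex_Icc 0 P) hxc.continuousOn fun s hs => ?_
    rw [interior_Icc] at hs
    rw [(h.prof.hx s).deriv]
    exact h1 s ⟨hs.1.le, hs.2⟩
  have hanti : StrictAntiOn x (Icc P (L / 2)) := by
    refine strictAntiOn_of_deriv_neg (convex_Icc P (L / 2)) hxc.continuousOn fun s hs => ?_
    rw [interior_Icc] at hs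
    rw [(h.prof.hx s).deriv]
    exact h3 s ⟨hs.1, hs.2.le⟩
  have hex : ∀ s ∈ Icc 0 P, ∃ s' ∈ Icc P (L / 2), x s' = x s := by
    intro s hs
    have h4 : x s ∈ Icc (x (L / 2)) (x P) := by
      rw [hxL]
      constructor
      · have := hmono.monotoneOn (left_mem_Icc.2 hP.le) hs hs.1
        rwa [hx] at this
      · exact hmono.monotoneOn hs (right_mem_Icc.2 hP.le) hs.2
    obtain ⟨s', hs', h5⟩ := intermediate_value_Icc' hP'.le hxc.continuousOn h4
    exact ⟨s', hs', h5⟩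
  obtain ⟨σ, hσ⟩ : ∃ σ : ℝ → ℝ, ∀ s ∈ Icc 0 P, σ s ∈ Icc P (L / 2) ∧ x (σ s) = x s := by
    refine ⟨fun s => if hs : s ∈ Icc 0 P then (hex s hs).choose else 0, fun s hs => ?_⟩
    simp only [dif_pos hs]
    exact (hex s hs).choose_spec
  have hσc : ContinuousOn σ (Icc 0 P) :=
    RedD_cont hxc hanti σ (fun s hs => (hσ s hs).1) (fun s hs => (hσ s hs).2)
  have hPI : P ∈ Icc 0 P := right_mem_Icc.2 hP.le
  have hσP : σ P = P :=
    hanti.injOn (hσ P hPI).1 (left_mem_Icc.2 hP'.le) (hσ P hPI).2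
  -- no zeros
  have hne : ∀ s ∈ Ico 0 P, r (σ s) ≠ r s := by
    intro s hs heq
    have hsI : s ∈ Icc 0 P := ⟨hs.1, hs.2.le⟩
    obtain ⟨k, hk⟩ := h.inj s (σ s) (hσ s hsI).2.symm heq.symm
    have h6 := (hσ s hsI).1
    have h7 : 0 < (k : ℝ) * L := by linarith [h6.1, hs.2]
    have h8 : (k : ℝ) * L < 1 * L := by
      have := h.Lpos
      linarith [h6.2, hs.1]
    have h9 : 0 < (k : ℝ) := pos_of_mul_pos_left h7 h.Lpos.le
    have h10 : (k : ℝ) < 1 := lt_of_mul_lt_mul_right h8 h.Lpos.le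
    have h11 : 0 < k := by exact_mod_cast h9
    have h12 : k < 1 := by exact_mod_cast h10
    omega
  -- the sign near `P`
  have hsin : ∀ᶠ s in nhds P, 0 < sin (θ s) := by
    have h4 : ContinuousAt (fun s => sin (θ s)) P := (continuous_sin.comp hθc).continuousAt
    refine h4.eventually (lt_mem_nhds ?_)
    show 0 < sin (θ P)
    rw [h2, sin_pi_div_two]
    exact one_pos
  obtain ⟨δ, hδ, hδ'⟩ := Metric.eventually_nhds_iff.1 hsin
  have hrm : StrictMonoOn r (Icc (P - δ / 2) (P + δ / 2)) := by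
    refine strictMonoOn_of_deriv_pos (convex_Icc _ _) hrc.continuousOn fun s hs => ?_
    rw [interior_Icc] at hs
    rw [(h.prof.hr s).deriv]
    apply hδ'
    rw [Real.dist_eq, abs_lt]
    constructor <;> linarith [hs.1, hs.2]
  have hpos : ∀ s ∈ Ico 0 P, r s < r (σ s) := by
    intro s₁ hs₁
    by_contra hcon
    have hlt : r (σ s₁) - r s₁ < 0 := by
      have := lt_of_le_of_ne (not_lt.1 hcon) (hne s₁ hs₁)
      linarith
    -- a point near `P`
    have h4 : ∀ᶠ s in nhdsWithin P (Icc 0 P), σ s < P + δ / 2 := by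
      have h5 : Filter.Tendsto σ (nhdsWithin P (Icc 0 P)) (nhds P) := by
        have := hσc P hPI
        unfold ContinuousWithinAt at this
        rwa [hσP] at this
      exact h5.eventually (gt_mem_nhds (by linarith))
    rw [eventually_nhdsWithin_iff, Metric.eventually_nhds_iff] at h4
    obtain ⟨ε, hε, hε'⟩ := h4
    obtain ⟨s₂, hs₂⟩ : ∃ s₂, max s₁ (max (P - δ / 2) (P - ε)) < s₂ ∧ s₂ < P :=
      exists_between (max_lt hs₁.2 (max_lt (by linarith) (by linarith)))
    have h6 : s₁ < s₂ := lt_of_le_of_lt (le_max_left _ _) hs₂.1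
    have h7 : P - δ / 2 < s₂ :=
      lt_of_le_of_lt ((le_max_left _ _).trans (le_max_right _ _)) hs₂.1
    have h8 : P - ε < s₂ :=
      lt_of_le_of_lt ((le_max_right _ _).trans (le_max_right _ _)) hs₂.1
    have hs₂I : s₂ ∈ Icc 0 P := ⟨hs₁.1.trans h6.le, hs₂.2.le⟩
    have h9 : σ s₂ < P + δ / 2 := by
      refine hε' ?_ hs₂I
      rw [Real.dist_eq, abs_lt]
      constructor <;> linarith [hs₂.2]
    have h10 : P ≤ σ s₂ := (hσ s₂ hs₂I).1.1
    have h11 : 0 < r (σ s₂) - r s₂ := by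
      have h12 : r s₂ < r P := hrm ⟨h7.le, by linarith [hs₂.2]⟩ ⟨by linarith, by linarith⟩ hs₂.2
      have h13 : r P ≤ r (σ s₂) :=
        hrm.monotoneOn ⟨by linarith, by linarith⟩ ⟨by linarith, h9.le⟩ h10
      linarith
    have hfc : ContinuousOn (fun s => r (σ s) - r s) (Icc s₁ s₂) := by
      refine ContinuousOn.sub (hrc.comp_continuousOn (hσc.mono ?_)) hrc.continuousOn
      intro s hs
      exact ⟨hs₁.1.trans hs.1, hs.2.trans hs₂.2.le⟩
    obtain ⟨s, hs, hs0⟩ := intermediate_value_Icc h6.le hfc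
      (show (0 : ℝ) ∈ Icc (r (σ s₁) - r s₁) (r (σ s₂) - r s₂) from ⟨hlt.le, h11.le⟩)
    exact hne s ⟨hs₁.1.trans hs.1, hs.2.trans_lt hs₂.2⟩ (sub_eq_zero.1 hs0)
  intro s hs s' hs' hss
  have hsI : s ∈ Icc 0 P := ⟨hs.1, hs.2.le⟩
  have e : s' = σ s := hanti.injOn ⟨hs'.1.le, hs'.2⟩ (hσ s hsI).1 (hss.symm.trans (hσ s hsI).2.symm)
  rw [e]
  exact hpos s hs

end AT
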