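import Pool.Agent.H.MP_ce2c94_gt.RedB
import Pool.Agent.H.MP_ce2c94_gt.RedD

/-!
# Reduction of a symmetric torus curve to half data
-/

namespace AT

open Real Set

/-- half data of a normalised loop whose angle passes `π/2` upwards:
`γ₁ = γ`, `γ₂ s = γ (L/2 - s)` with angle `θ (L/2 - s) - π`, `S₁ = P`, `S₂ = L/2 - P`. -/
theorem half_of_up {x r θ : ℝ → ℝ} {L P : ℝ} (h : Loop x r θ L) (hx : x 0 = 0) (hθ : θ 0 = 0)
    (hP : 0 < P) (hP' : P < L / 2) (h1 : ∀ s ∈ Ico 0 P, -(π / 2) < θ s ∧ θ s < π / 2)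
    (h2 : θ P = π / 2) (h3 : ∀ s ∈ Ioc P (L / 2), π / 2 < θ s ∧ θ s < 3 * π / 2)
    (h4 : θ (L / 2) = π) :
    ∃ t x₂ r₂ θ₂ S₂, HalfData (r 0) t x r θ P x₂ r₂ θ₂ S₂ := by
  have hxL : x (L / 2) = 0 := (h.half hx hθ).1
  refine ⟨r (L / 2), fun s => x (L / 2 - s), fun s => r (L / 2 - s), fun s => θ (L / 2 - s) - π,
    L / 2 - P, ⟨h.prof, hx, rfl, hθ⟩, ⟨h.prof.reverse' (L / 2), ?_, ?_, ?_⟩, ⟨hP, h1, h2⟩,
    ⟨by linarith, ?_, ?_⟩, ?_, ?_, ?_⟩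
  · simp only [sub_zero]
    exact hxL
  · simp only [sub_zero]
  · simp only [sub_zero]
    rw [h4, sub_self]
  · intro s hs
    have h5 := h3 (L / 2 - s) ⟨by linarith [hs.2], by linarith [hs.1]⟩
    constructor
    · show -(π / 2) < θ (L / 2 - s) - π
      linarith [h5.1]
    · show θ (L / 2 - s) - π < π / 2
      linarith [h5.2]
  · show θ (L / 2 - (L / 2 - P)) - π = -(π / 2)
    rw [sub_sub_cancel, h2]
    ring
  · show x P = x (L / 2 - (L / 2 - P))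
    rw [sub_sub_cancel]
  · show r P = r (L / 2 - (L / 2 - P))
    rw [sub_sub_cancel]
  · intro s hs s' hs' hss
    refine h.order hx hP hP' hxL (fun u hu => ?_) h2 (fun u hu => ?_) s hs (L / 2 - s')
      ⟨by linarith [hs'.2], by linarith [hs'.1]⟩ hss
    · exact cos_pos_of_mem_Ioo ⟨(h1 u hu).1, (h1 u hu).2⟩
    · have h5 := h3 u hu
      exact cos_neg_of_pi_div_two_lt_of_lt h5.1 (by linarith [h5.2])

/-- **Reduction.** `normal_loop`, `Loop.crit`, `Loop.angle`. In the first case `half_of_up`. In the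
second case pass to `Loop.reverse (L/2)`: `x̃ s = x (L/2 - s)`, `θ̃ s = θ (L/2 - s) + π`,
`P̃ = L/2 - P`; then `θ̃ 0 = 0`, `x̃ 0 = 0`, `-(π/2) < θ̃ < π/2` on `[0, P̃)`, `θ̃ P̃ = π/2`, and the
same range. -/
theorem half_data {C : Set (ℝ × ℝ)} (hC : IsTorusCurve C) (hs : IsSym C) :
    ∃ (b t : ℝ) (x₁ r₁ θ₁ : ℝ → ℝ) (S₁ : ℝ) (x₂ r₂ θ₂ : ℝ → ℝ) (S₂ : ℝ),
      HalfData b t x₁ r₁ θ₁ S₁ x₂ r₂ θ₂ S₂ ∧ C = range (fun s => (x₁ s, r₁ s)) := by
  obtain ⟨x, r, θ, L, h, hCr, hx, hθ⟩ := normal_loop hC hs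
  obtain ⟨P, hP, hP', c1, c2, c3⟩ := h.crit hx hθ
  obtain ⟨a1, a2⟩ := h.angle hx hθ hP hP' c1 c2 c3
  have hxL : x (L / 2) = 0 := (h.half hx hθ).1
  rcases a2 with ⟨b1, b2, b3⟩ | ⟨b1, b2, b3⟩
  · obtain ⟨t, x₂, r₂, θ₂, S₂, hd⟩ := half_of_up h hx hθ hP hP' a1 b1 b2 b3
    exact ⟨r 0, t, x, r, θ, P, x₂, r₂, θ₂, S₂, hd, hCr⟩
  · have hrev := h.reverse (L / 2)
    have g1 : ∀ s ∈ Ico 0 (L / 2 - P), -(π / 2) < θ (L / 2 - s) + π ∧
        θ (L / 2 - s) + π < π / 2 := by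
      intro s hs
      have h5 := b2 (L / 2 - s) ⟨by linarith [hs.2], by linarith [hs.1]⟩
      constructor
      · linarith [h5.1]
      · linarith [h5.2]
    have g2 : θ (L / 2 - (L / 2 - P)) + π = π / 2 := by
      rw [sub_sub_cancel, b1]
      ring
    have g3 : ∀ s ∈ Ioc (L / 2 - P) (L / 2), π / 2 < θ (L / 2 - s) + π ∧
        θ (L / 2 - s) + π < 3 * π / 2 := by
      intro s hs
      have h5 := a1 (L / 2 - s) ⟨by linarith [hs.2], by linarith [hs.1]⟩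
      constructor
      · linarith [h5.1]
      · linarith [h5.2]
    have g4 : θ (L / 2 - L / 2) + π = π := by
      rw [sub_self, hθ, zero_add]
    have g5 : x (L / 2 - 0) = 0 := by
      rw [sub_zero]
      exact hxL
    have g6 : θ (L / 2 - 0) + π = 0 := by
      rw [sub_zero, b3]
      ring
    obtain ⟨t, x₂, r₂, θ₂, S₂, hd⟩ := half_of_up (P := L / 2 - P) hrev g5 g6
      (by linarith) (by linarith) g1 g2 g3 g4
    refine ⟨_, t, _, _, _, _, x₂, r₂, θ₂, S₂, hd, ?_⟩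
    rw [hCr]
    ext p
    constructor
    · rintro ⟨s, rfl⟩
      exact ⟨L / 2 - s, by simp only [sub_sub_cancel]⟩
    · rintro ⟨s, rfl⟩
      exact ⟨L / 2 - s, rfl⟩

end AT
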