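import Pool.Agent.H.MP_ce2c94_gt.Fin2
import Pool.Agent.H.MP_ce2c94_gt.Red

/-!
# Uniqueness of the symmetric torus curve
-/

namespace AT

open Real Set

theorem torus_unique {C C' : Set (ℝ × ℝ)} (hC : IsTorusCurve C) (hs : IsSym C)
    (hC' : IsTorusCurve C') (hs' : IsSym C') : C = C' := by
  obtain ⟨b, t, x₁, r₁, θ₁, S₁, x₂, r₂, θ₂, S₂, h, rfl⟩ := half_data hC hs
  obtain ⟨b', t', x₁', r₁', θ₁', S₁', x₂', r₂', θ₂', S₂', h', rfl⟩ := half_data hC' hs'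
  have hb : b = b' := le_antisymm (not_lt.mp (h'.b_unique h)) (not_lt.mp (h.b_unique h'))
  subst hb
  obtain ⟨e1, e2, -⟩ := profile_unique h.f₁.prof h'.f₁.prof 0
    (by rw [h.f₁.x0, h'.f₁.x0]) (by rw [h.f₁.r0, h'.f₁.r0]) (by rw [h.f₁.θ0, h'.f₁.θ0])
  rw [e1, e2]

end AT
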