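import Mathlib.Data.Nat.Notation
import Mathlib.Data.Int.Notation

/-!
# Integer programs for the tau-systems and the graph system

All numbers are scaled by `MM = 2^30`. In the tau programs `N` is the number of steps on `[0,1]`,
`τ_n = n/N`; in the graph program the step is `1/H`.
-/

namespace AT

/-- forces the evaluation of a natural number in the kernel -/
def force (n : ℕ) (f : ℕ → Bool) : Bool :=
  Nat.rec (motive := fun _ => Bool) (f 0) (fun m _ => f (Nat.succ m)) n

theorem force_eq (n : ℕ) (f : ℕ → Bool) : force n f = f n := by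
  cases n <;> rfl

/-- forces the evaluation of an integer -/
def forceZ (z : ℤ) (f : ℤ → Bool) : Bool :=
  match z with
  | Int.ofNat n => force n fun m => f (Int.ofNat m)
  | Int.negSucc n => force n fun m => f (Int.negSucc m)

theorem forceZ_eq (z : ℤ) (f : ℤ → Bool) : forceZ z f = f z := by
  cases z <;> simp [forceZ, force_eq]

/-- the scale -/
def MM : ℕ := 1073741824

/-- `1/20` scaled, rounded up -/
def K0 : ℕ := 53687092

/-- `1/100` scaled, rounded up -/
def R0 : ℕ := 10737419

/-- scaled lower bound of `KL τ x r` for `n/N ≤ τ ≤ (n+1)/N`, `x ≥ XL`, `r ≤ RU` -/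
def kLow (N n XL RU : ℕ) : ℕ :=
  XL * n / N + (N * N - (n + 1) * (n + 1)) * (MM * MM) / (N * N * RU)
    - ((N * N - n * n) * RU / (2 * (N * N)) + 1)

/-- scaled upper bound of `KL τ x r` for `n/N ≤ τ ≤ (n+1)/N`, `x ≤ XU`, `r ≥ RL` -/
def kHigh (N n XU RL : ℕ) : ℕ :=
  XU * (n + 1) / N + 2 + (N * N - n * n) * (MM * MM) / (N * N * RL)
    - (N * N - (n + 1) * (n + 1)) * RL / (2 * (N * N))

/-- scaled lower bound of `KU τ x r`, `x ≥ XL`, `r ≥ RL` -/
def kLowU (N n XL RL : ℕ) : ℕ :=
  XL * n / N + (N * N - (n + 1) * (n + 1)) * RL / (2 * (N * N))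
    - ((N * N - n * n) * (MM * MM) / (N * N * RL) + 1)

/-- scaled upper bound of `KU τ x r`, `x ≤ XU`, `r ≤ RU` -/
def kHighU (N n XU RU : ℕ) : ℕ :=
  XU * (n + 1) / N + 2 + (N * N - n * n) * RU / (2 * (N * N))
    - (N * N - (n + 1) * (n + 1)) * (MM * MM) / (N * N * RU)

/-- bound of the change of `r` on a step (upper), `k` a lower bound of `K` -/
def dRup (N n k : ℕ) : ℕ := 4 * (n + 1) * (MM * MM) / ((N * N + n * n) * k) + 1

/-- the same with a safety factor (guess) -/
def dRg (N n k : ℕ) : ℕ := 5 * (n + 1) * (MM * MM) / ((N * N + n * n) * k) + 2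

/-- upper bound of the change of `x` -/
def dXup (N n k : ℕ) : ℕ := 2 * (N * N - n * n) * (MM * MM) / (N * (N * N + n * n) * k) + 1

/-- lower bound of the change of `x`, `k` an upper bound of `K` -/
def dXlo (N n k : ℕ) : ℕ :=
  2 * (N * N - (n + 1) * (n + 1)) * (MM * MM) / (N * (N * N + (n + 1) * (n + 1)) * k)

/-- lower bound of the change of `r` -/
def dRlo (N n k : ℕ) : ℕ := 4 * n * (MM * MM) / ((N * N + (n + 1) * (n + 1)) * k)

/-- the lower run: `k` steps from step `n`; `fin` is the final test -/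
def runL (N : ℕ) (fin : ℕ → ℕ → ℕ → ℕ → Bool) : ℕ → ℕ → ℕ → ℕ → ℕ → ℕ → Bool
  | 0, _, XL, XU, RL, RU => fin XL XU RL RU
  | k + 1, n, XL, XU, RL, RU =>
    force (kLow N n XL RU) fun kg =>
    force (RU + dRg N n kg) fun RG =>
    force (kLow N n XL RG) fun kl =>
    force (RU + dRup N n kl) fun RU' =>
    force (XU + dXup N n kl) fun XU' =>
    force (kHigh N n XU' RL) fun ku =>
    force (XL + dXlo N n ku) fun XL' =>
    force (RL + dRlo N n ku) fun RL' =>
    match Nat.ble RU' RG && Nat.ble K0 kl with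
    | false => false
    | true => runL N fin k (Nat.succ n) XL' XU' RL' RU'

/-- the upper run; it also stops successfully as soon as `stopx ≤ XL` -/
def runU (N stopx : ℕ) (fin : ℕ → ℕ → ℕ → ℕ → Bool) : ℕ → ℕ → ℕ → ℕ → ℕ → ℕ → Bool
  | 0, _, XL, XU, RL, RU => fin XL XU RL RU
  | k + 1, n, XL, XU, RL, RU =>
    match Nat.ble stopx XL with
    | true => true
    | false =>
      force (kLowU N n XL RL) fun kg =>
      force (RL - dRg N n kg) fun RG =>
      force (kLowU N n XL RG) fun kl =>
      force (RL - dRup N n kl) fun RL' =>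
      force (XU + dXup N n kl) fun XU' =>
      force (kHighU N n XU' RU) fun ku =>
      force (XL + dXlo N n ku) fun XL' =>
      force (RU - dRlo N n ku) fun RU' =>
      match Nat.ble RG RL' && Nat.ble R0 RG && Nat.ble K0 kl with
      | false => false
      | true => runU N stopx fin k (Nat.succ n) XL' XU' RL' RU'

/-- scaled upper bound of `a = 1/2 + 1/(r₁ r₂)`, `r ≥ RL` -/
def aUp (RL : ℕ) : ℕ := MM / 2 + 2 + MM * MM * MM / (RL * RL)

/-- scaled lower bound of `a`, `r ≤ RU` -/
def aLo (RU : ℕ) : ℕ := MM / 2 + MM * MM * MM / (RU * RU)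

/-- positive part of the numerator of `q'` without the quadratic term -/
def qP1 (N n au : ℕ) : ℕ := au * ((N * N - n * n) * (N * N - n * n)) / (N * N * (N * N)) + 1

/-- the quadratic term -/
def qP2 (N n Q : ℕ) : ℕ := 2 * ((n + 1) * (n + 1)) * (Q * Q) / (N * N * MM) + 1

/-- the negative term (lower bound) -/
def qP3 (N n al Q : ℕ) : ℕ :=
  (MM + 2 * al) * n * (N * N - (n + 1) * (n + 1)) * Q / (N * (N * N) * MM)

/-- upper bound of the change of `q` -/
def dQ (N n p kl : ℕ) : ℕ := 2 * N * (MM * MM) * p / ((N * N + n * n) * (kl * kl)) + 1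

/-- the lower run with the ratio fence `Q` -/
def runLq (N : ℕ) : ℕ → ℕ → ℕ → ℕ → ℕ → ℕ → ℕ → Bool
  | 0, _, _, _, _, _, _ => true
  | k + 1, n, XL, XU, RL, RU, Q =>
    force (kLow N n XL RU) fun kg =>
    force (RU + dRg N n kg) fun RG =>
    force (kLow N n XL RG) fun kl =>
    force (RU + dRup N n kl) fun RU' =>
    force (XU + dXup N n kl) fun XU' =>
    force (kHigh N n XU' RL) fun ku =>
    force (XL + dXlo N n ku) fun XL' =>
    force (RL + dRlo N n ku) fun RL' =>
    force (qP1 N n (aUp RL)) fun p1 =>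
    force (qP3 N n (aLo RU') Q) fun p3 =>
    force (Q + 2 * dQ N n (p1 + qP2 N n Q - p3) kl) fun QG =>
    force (Q + dQ N n (p1 + qP2 N n QG - p3) kl) fun Q' =>
    match Nat.ble RU' RG && Nat.ble K0 kl && Nat.ble Q' QG with
    | false => false
    | true => runLq N k (Nat.succ n) XL' XU' RL' RU' Q'

/-- the upper run with the ratio fence `Q` -/
def runUq (N : ℕ) : ℕ → ℕ → ℕ → ℕ → ℕ → ℕ → ℕ → Bool
  | 0, _, _, _, _, _, _ => true
  | k + 1, n, XL, XU, RL, RU, Q =>
    force (kLowU N n XL RL) fun kg =>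
    force (RL - dRg N n kg) fun RG =>
    force (kLowU N n XL RG) fun kl =>
    force (RL - dRup N n kl) fun RL' =>
    force (XU + dXup N n kl) fun XU' =>
    force (kHighU N n XU' RU) fun ku =>
    force (XL + dXlo N n ku) fun XL' =>
    force (RU - dRlo N n ku) fun RU' =>
    force (qP1 N n (aUp RL')) fun p1 =>
    force (qP3 N n (aLo RU) Q) fun p3 =>
    force (Q + 2 * dQ N n (p1 + qP2 N n Q - p3) kl) fun QG =>
    force (Q + dQ N n (p1 + qP2 N n QG - p3) kl) fun Q' =>
    match Nat.ble RG RL' && Nat.ble R0 RG && Nat.ble K0 kl && Nat.ble Q' QG with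
    | false => false
    | true => runUq N k (Nat.succ n) XL' XU' RL' RU' Q'

/-- floor division -/
def fdv (a b : ℤ) : ℤ := a / b

/-- ceiling division -/
def cdv (a b : ℤ) : ℤ := -((-a) / b)

/-- `0 ≤ z` -/
def nn (z : ℤ) : Bool :=
  match z with
  | Int.ofNat _ => true
  | Int.negSucc _ => false

/-- `min 0 z` -/
def mn (z : ℤ) : ℤ :=
  match z with
  | Int.ofNat _ => 0
  | Int.negSucc n => Int.negSucc n

/-- `max 0 z` -/
def mx (z : ℤ) : ℤ :=
  match z with
  | Int.ofNat n => Int.ofNat n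
  | Int.negSucc _ => 0

/-- scaled lower bound of `x p / 2 + 1/u - u/2` on a step, `u ≤ bu`, `p ≥ cl` -/
def aLw (H n bu cl : ℤ) : ℤ :=
  fdv ((match nn cl with | true => n | false => n + 1) * cl) (2 * H) +
    (fdv ((MM : ℤ) * MM) bu - cdv bu 2)

/-- scaled upper bound of `x p / 2 + 1/u - u/2` on a step, `u ≥ bl`, `p ≤ cu` -/
def aHi (H n bl cu : ℤ) : ℤ :=
  cdv ((match nn cu with | true => n + 1 | false => n) * cu) (2 * H) +
    (cdv ((MM : ℤ) * MM) bl - fdv bl 2)

/-- scaled lower bound of `1 + p^2` -/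
def sqL (cl cu : ℤ) : ℤ :=
  (MM : ℤ) + fdv (match nn cl with
    | true => cl * cl
    | false => match nn (-cu) with | true => cu * cu | false => 0) MM

/-- scaled upper bound of `1 + p^2` -/
def sqH (cl cu : ℤ) : ℤ :=
  (MM : ℤ) + cdv (match nn (cl + cu) with | true => cu * cu | false => cl * cl) MM

/-- scaled lower bound of `p'`, `A` a lower bound of the second factor -/
def gLo (A cl cu : ℤ) : ℤ :=
  fdv ((match nn A with | true => sqL cl cu | false => sqH cl cu) * A) MM

/-- scaled upper bound of `p'`, `A` an upper bound of the second factor -/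
def gHi (A cl cu : ℤ) : ℤ :=
  cdv ((match nn A with | true => sqH cl cu | false => sqL cl cu) * A) MM

/-- the graph run with step `1/H`: `k` steps from step `n`; `umax` bounds `u` -/
def runX (H umax : ℤ) : ℕ → ℤ → ℤ → ℤ → ℤ → ℤ → Bool
  | 0, _, _, _, _, _ => true
  | k + 1, n, ul, uu, tl, tu =>
    forceZ (aLw H n uu tl) fun a0 =>
    forceZ (aHi H n ul tu) fun b0 =>
    forceZ (tl + fdv (5 * mn (gLo a0 tl tu)) (4 * H) - fdv MM (32 * H) - 4) fun cl =>
    forceZ (tu + cdv (5 * mx (gHi b0 tl tu)) (4 * H) + fdv MM (32 * H) + 4) fun cu =>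
    forceZ (ul + fdv (mn cl) H - 1) fun bl =>
    forceZ (uu + cdv (mx cu) H + 1) fun bu =>
    match nn (bl - 107374183) && nn (umax - bu) && nn (cl + 21474836480) &&
        nn (21474836480 - cu) with
    | false => false
    | true =>
      forceZ (aLw H n bu cl) fun a1 =>
      forceZ (aHi H n bl cu) fun b1 =>
      forceZ (gLo a1 cl cu) fun gl =>
      forceZ (gHi b1 cl cu) fun gh =>
      match nn (tl + fdv (mn gl) H - cl - 1) && nn (cu - (tu + cdv (mx gh) H + 1)) with
      | false => false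
      | true =>
        forceZ (ul + fdv cl H) fun ul' =>
        forceZ (uu + cdv cu H) fun uu' =>
        forceZ (tl + fdv gl H) fun tl' =>
        forceZ (tu + cdv gh H) fun tu' =>
        forceZ (n + 1) fun n' => runX H umax k n' ul' uu' tl' tu'

end AT
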