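import Mathlib
import Pool.Agent.H.MP_ce2c94_gt.Prog

/-!
# Integer bounds for the right-hand side of the graph system
-/

namespace AT

theorem fdv_le {a b : ℤ} (hb : 0 < b) : ((fdv a b : ℤ) : ℝ) ≤ (a : ℝ) / b := by
  have hbR : (0 : ℝ) < (b : ℝ) := by exact_mod_cast hb
  rw [le_div_iff₀ hbR]
  have h : a / b * b ≤ a := Int.ediv_mul_le a (ne_of_gt hb)
  unfold fdv
  exact_mod_cast h

theorem le_cdv {a b : ℤ} (hb : 0 < b) : (a : ℝ) / b ≤ ((cdv a b : ℤ) : ℝ) := by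
  have h := fdv_le (a := -a) hb
  unfold fdv at h
  unfold cdv
  push_cast at h ⊢
  rw [neg_div] at h
  linarith

theorem nn_iff {z : ℤ} : nn z = true ↔ 0 ≤ z := by
  cases z with
  | ofNat n => simp [nn]
  | negSucc n =>
    simp only [nn, Bool.false_eq_true, false_iff, not_le]
    exact Int.negSucc_lt_zero n

theorem mn_eq (z : ℤ) : mn z = min 0 z := by
  cases z with
  | ofNat n =>
    simp only [mn]
    exact (min_eq_left (Int.natCast_nonneg n)).symm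
  | negSucc n =>
    simp only [mn]
    exact (min_eq_right (le_of_lt (Int.negSucc_lt_zero n))).symm

theorem mx_eq (z : ℤ) : mx z = max 0 z := by
  cases z with
  | ofNat n =>
    simp only [mx]
    exact (max_eq_right (Int.natCast_nonneg n)).symm
  | negSucc n =>
    simp only [mx]
    exact (max_eq_left (le_of_lt (Int.negSucc_lt_zero n))).symm

theorem GBnd_MM : (0 : ℝ) < ((MM : ℕ) : ℝ) := by
  unfold MM
  norm_num

theorem GBnd_nn_false {z : ℤ} (h : z < 0) : nn z = false := by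
  cases hh : nn z with
  | false => rfl
  | true => exact absurd (nn_iff.mp hh) (not_le.mpr h)

/-- lower bound of `x p / 2 + 1/u - u/2` -/
theorem aLw_le {H n bu cl : ℤ} (hH : 0 < H) (hn : 0 ≤ n) {x u p : ℝ} (h1 : (n : ℝ) / H ≤ x)
    (h2 : x ≤ ((n : ℝ) + 1) / H) (hu : 0 < u) (hu' : u ≤ (bu : ℝ) / MM) (hp : (cl : ℝ) / MM ≤ p) :
    ((aLw H n bu cl : ℤ) : ℝ) / MM ≤ x * p / 2 + (1 / u - u / 2) := by
  have hM := GBnd_MM
  have hHR : (0 : ℝ) < (H : ℝ) := by exact_mod_cast hH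
  have hnR : (0 : ℝ) ≤ (n : ℝ) := by exact_mod_cast hn
  have hx0 : 0 ≤ x := le_trans (div_nonneg hnR hHR.le) h1
  have hbuR : (0 : ℝ) < (bu : ℝ) := by
    have : 0 < (bu : ℝ) / MM := lt_of_lt_of_le hu hu'
    by_contra hneg
    have h0 : (bu : ℝ) / MM ≤ 0 := div_nonpos_of_nonpos_of_nonneg (not_lt.mp hneg) hM.le
    linarith
  have hbu : (0 : ℤ) < bu := by exact_mod_cast hbuR
  -- first term
  have hA : ∃ N : ℤ, aLw H n bu cl = fdv (N * cl) (2 * H) + (fdv ((MM : ℤ) * MM) bu - cdv bu 2) ∧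
      ((N : ℝ) * cl) / (2 * H) / MM ≤ x * p / 2 := by
    by_cases hc : 0 ≤ cl
    · refine ⟨n, ?_, ?_⟩
      · unfold aLw
        rw [nn_iff.mpr hc]
      · have hclR : (0 : ℝ) ≤ (cl : ℝ) / MM := div_nonneg (by exact_mod_cast hc) hM.le
        have h3 : ((n : ℝ) / H) * ((cl : ℝ) / MM) ≤ x * p :=
          mul_le_mul h1 hp hclR hx0
        have h4 : ((n : ℝ) * cl) / (2 * H) / MM = ((n : ℝ) / H) * ((cl : ℝ) / MM) / 2 := by
          field_simp
        rw [h4]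
        linarith
    · refine ⟨n + 1, ?_, ?_⟩
      · unfold aLw
        rw [GBnd_nn_false (not_le.mp hc)]
      · have hclR : (cl : ℝ) / MM ≤ 0 := by
          apply div_nonpos_of_nonpos_of_nonneg _ hM.le
          exact_mod_cast (le_of_lt (not_le.mp hc))
        have h3 : x * ((cl : ℝ) / MM) ≤ x * p := mul_le_mul_of_nonneg_left hp hx0
        have h5 : (((n : ℝ) + 1) / H) * ((cl : ℝ) / MM) ≤ x * ((cl : ℝ) / MM) :=
          mul_le_mul_of_nonpos_right h2 hclR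
        have h4 : (((n + 1 : ℤ) : ℝ) * cl) / (2 * H) / MM =
            (((n : ℝ) + 1) / H) * ((cl : ℝ) / MM) / 2 := by
          push_cast
          field_simp
        rw [h4]
        linarith
  obtain ⟨N, hN, hN'⟩ := hA
  rw [hN]
  have e1 : ((fdv (N * cl) (2 * H) : ℤ) : ℝ) ≤ ((N : ℝ) * cl) / (2 * H) := by
    have := fdv_le (a := N * cl) (b := 2 * H) (by omega)
    push_cast at this
    exact this
  have e2 : ((fdv ((MM : ℤ) * MM) bu : ℤ) : ℝ) ≤ ((MM : ℝ) * MM) / bu := by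
    have := fdv_le (a := (MM : ℤ) * MM) (b := bu) hbu
    push_cast at this
    exact this
  have e3 : (bu : ℝ) / 2 ≤ ((cdv bu 2 : ℤ) : ℝ) := by
    have := le_cdv (a := bu) (b := 2) (by norm_num)
    push_cast at this
    exact this
  have e4 : ((MM : ℝ) * MM) / bu / MM ≤ 1 / u := by
    have h6 : ((MM : ℝ) * MM) / bu / MM = 1 / ((bu : ℝ) / MM) := by
      field_simp
    rw [h6]
    exact one_div_le_one_div_of_le hu hu'
  push_cast
  have f1 : ((fdv (N * cl) (2 * H) : ℤ) : ℝ) / MM ≤ x * p / 2 :=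
    le_trans (div_le_div_of_nonneg_right e1 hM.le) hN'
  have f2 : ((fdv ((MM : ℤ) * MM) bu : ℤ) : ℝ) / MM ≤ 1 / u :=
    le_trans (div_le_div_of_nonneg_right e2 hM.le) e4
  have f3 : u / 2 ≤ ((cdv bu 2 : ℤ) : ℝ) / MM := by
    have h7 : (bu : ℝ) / 2 / MM ≤ ((cdv bu 2 : ℤ) : ℝ) / MM := div_le_div_of_nonneg_right e3 hM.le
    have h8 : (bu : ℝ) / 2 / MM = (bu : ℝ) / MM / 2 := by ring
    rw [h8] at h7
    linarith
  have f4 : (((fdv (N * cl) (2 * H) : ℤ) : ℝ) + (((fdv ((MM : ℤ) * MM) bu : ℤ) : ℝ) -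
      ((cdv bu 2 : ℤ) : ℝ))) / MM = ((fdv (N * cl) (2 * H) : ℤ) : ℝ) / MM +
      (((fdv ((MM : ℤ) * MM) bu : ℤ) : ℝ) / MM - ((cdv bu 2 : ℤ) : ℝ) / MM) := by ring
  rw [f4]
  linarith

/-- upper bound of `x p / 2 + 1/u - u/2` -/
theorem aHi_ge {H n bl cu : ℤ} (hH : 0 < H) (hn : 0 ≤ n) (hbl : 0 < bl) {x u p : ℝ}
    (h1 : (n : ℝ) / H ≤ x) (h2 : x ≤ ((n : ℝ) + 1) / H) (hu : (bl : ℝ) / MM ≤ u)
    (hp : p ≤ (cu : ℝ) / MM) :
    x * p / 2 + (1 / u - u / 2) ≤ ((aHi H n bl cu : ℤ) : ℝ) / MM := by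
  have hM := GBnd_MM
  have hHR : (0 : ℝ) < (H : ℝ) := by exact_mod_cast hH
  have hnR : (0 : ℝ) ≤ (n : ℝ) := by exact_mod_cast hn
  have hblR : (0 : ℝ) < (bl : ℝ) := by exact_mod_cast hbl
  have hx0 : 0 ≤ x := le_trans (div_nonneg hnR hHR.le) h1
  have hA : ∃ N : ℤ, aHi H n bl cu = cdv (N * cu) (2 * H) + (cdv ((MM : ℤ) * MM) bl - fdv bl 2) ∧
      x * p / 2 ≤ ((N : ℝ) * cu) / (2 * H) / MM := by
    by_cases hc : 0 ≤ cu
    · refine ⟨n + 1, ?_, ?_⟩
      · unfold aHi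
        rw [nn_iff.mpr hc]
      · have hcuR : (0 : ℝ) ≤ (cu : ℝ) / MM := div_nonneg (by exact_mod_cast hc) hM.le
        have h3 : x * p ≤ x * ((cu : ℝ) / MM) := mul_le_mul_of_nonneg_left hp hx0
        have h5 : x * ((cu : ℝ) / MM) ≤ (((n : ℝ) + 1) / H) * ((cu : ℝ) / MM) :=
          mul_le_mul_of_nonneg_right h2 hcuR
        have h4 : (((n + 1 : ℤ) : ℝ) * cu) / (2 * H) / MM =
            (((n : ℝ) + 1) / H) * ((cu : ℝ) / MM) / 2 := by
          push_cast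
          field_simp
        rw [h4]
        linarith
    · refine ⟨n, ?_, ?_⟩
      · unfold aHi
        rw [GBnd_nn_false (not_le.mp hc)]
      · have hcuR : (cu : ℝ) / MM ≤ 0 := by
          apply div_nonpos_of_nonpos_of_nonneg _ hM.le
          exact_mod_cast (le_of_lt (not_le.mp hc))
        have h3 : x * p ≤ x * ((cu : ℝ) / MM) := mul_le_mul_of_nonneg_left hp hx0
        have h5 : x * ((cu : ℝ) / MM) ≤ ((n : ℝ) / H) * ((cu : ℝ) / MM) :=
          mul_le_mul_of_nonpos_right h1 hcuR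
        have h4 : ((n : ℝ) * cu) / (2 * H) / MM = ((n : ℝ) / H) * ((cu : ℝ) / MM) / 2 := by
          field_simp
        rw [h4]
        linarith
  obtain ⟨N, hN, hN'⟩ := hA
  rw [hN]
  have e1 : ((N : ℝ) * cu) / (2 * H) ≤ ((cdv (N * cu) (2 * H) : ℤ) : ℝ) := by
    have := le_cdv (a := N * cu) (b := 2 * H) (by omega)
    push_cast at this
    exact this
  have e2 : ((MM : ℝ) * MM) / bl ≤ ((cdv ((MM : ℤ) * MM) bl : ℤ) : ℝ) := by
    have := le_cdv (a := (MM : ℤ) * MM) (b := bl) hbl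
    push_cast at this
    exact this
  have e3 : ((fdv bl 2 : ℤ) : ℝ) ≤ (bl : ℝ) / 2 := by
    have := fdv_le (a := bl) (b := 2) (by norm_num)
    push_cast at this
    exact this
  have e4 : 1 / u ≤ ((MM : ℝ) * MM) / bl / MM := by
    have h6 : ((MM : ℝ) * MM) / bl / MM = 1 / ((bl : ℝ) / MM) := by
      field_simp
    rw [h6]
    exact one_div_le_one_div_of_le (div_pos hblR hM) hu
  push_cast
  have f1 : x * p / 2 ≤ ((cdv (N * cu) (2 * H) : ℤ) : ℝ) / MM :=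
    le_trans hN' (div_le_div_of_nonneg_right e1 hM.le)
  have f2 : 1 / u ≤ ((cdv ((MM : ℤ) * MM) bl : ℤ) : ℝ) / MM :=
    le_trans e4 (div_le_div_of_nonneg_right e2 hM.le)
  have f3 : ((fdv bl 2 : ℤ) : ℝ) / MM ≤ u / 2 := by
    have h7 : ((fdv bl 2 : ℤ) : ℝ) / MM ≤ (bl : ℝ) / 2 / MM := div_le_div_of_nonneg_right e3 hM.le
    have h8 : (bl : ℝ) / 2 / MM = (bl : ℝ) / MM / 2 := by ring
    rw [h8] at h7
    linarith
  have f4 : (((cdv (N * cu) (2 * H) : ℤ) : ℝ) + (((cdv ((MM : ℤ) * MM) bl : ℤ) : ℝ) -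
      ((fdv bl 2 : ℤ) : ℝ))) / MM = ((cdv (N * cu) (2 * H) : ℤ) : ℝ) / MM +
      (((cdv ((MM : ℤ) * MM) bl : ℤ) : ℝ) / MM - ((fdv bl 2 : ℤ) : ℝ) / MM) := by ring
  rw [f4]
  linarith

theorem sqL_le {cl cu : ℤ} {p : ℝ} (h1 : (cl : ℝ) / MM ≤ p) (h2 : p ≤ (cu : ℝ) / MM) :
    ((sqL cl cu : ℤ) : ℝ) / MM ≤ 1 + p ^ 2 := by
  have hM := GBnd_MM
  have hA : ∃ S : ℤ, sqL cl cu = (MM : ℤ) + fdv S MM ∧ (S : ℝ) / MM / MM ≤ p ^ 2 := by
    by_cases hc : 0 ≤ cl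
    · refine ⟨cl * cl, ?_, ?_⟩
      · unfold sqL
        rw [nn_iff.mpr hc]
      · have hclR : (0 : ℝ) ≤ (cl : ℝ) / MM := div_nonneg (by exact_mod_cast hc) hM.le
        have h3 : ((cl : ℝ) / MM) * ((cl : ℝ) / MM) ≤ p * p :=
          mul_le_mul h1 h1 hclR (le_trans hclR h1)
        have h4 : ((cl * cl : ℤ) : ℝ) / MM / MM = ((cl : ℝ) / MM) * ((cl : ℝ) / MM) := by
          push_cast
          field_simp
        rw [h4, sq]
        exact h3
    · by_cases hd : 0 ≤ -cu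
      · refine ⟨cu * cu, ?_, ?_⟩
        · unfold sqL
          rw [GBnd_nn_false (not_le.mp hc)]
          simp only [nn_iff.mpr hd]
        · have hcuR : (cu : ℝ) / MM ≤ 0 := by
            apply div_nonpos_of_nonpos_of_nonneg _ hM.le
            have : cu ≤ 0 := by omega
            exact_mod_cast this
          have h3 : ((cu : ℝ) / MM) * ((cu : ℝ) / MM) ≤ p * p := by nlinarith
          have h4 : ((cu * cu : ℤ) : ℝ) / MM / MM = ((cu : ℝ) / MM) * ((cu : ℝ) / MM) := by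
            push_cast
            field_simp
          rw [h4, sq]
          exact h3
      · refine ⟨0, ?_, ?_⟩
        · unfold sqL
          rw [GBnd_nn_false (not_le.mp hc)]
          simp only [GBnd_nn_false (not_le.mp hd)]
        · simp only [Int.cast_zero, zero_div]
          exact sq_nonneg p
  obtain ⟨S, hS, hS'⟩ := hA
  rw [hS]
  have hMZ : (0 : ℤ) < ((MM : ℕ) : ℤ) := by
    unfold MM
    norm_num
  have e1 : ((fdv S MM : ℤ) : ℝ) ≤ (S : ℝ) / MM := by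
    have := fdv_le (a := S) (b := (MM : ℤ)) hMZ
    push_cast at this
    exact this
  have e2 : ((fdv S MM : ℤ) : ℝ) / MM ≤ p ^ 2 :=
    le_trans (div_le_div_of_nonneg_right e1 hM.le) hS'
  push_cast
  rw [add_div, div_self hM.ne']
  linarith

theorem sqH_ge {cl cu : ℤ} {p : ℝ} (h1 : (cl : ℝ) / MM ≤ p) (h2 : p ≤ (cu : ℝ) / MM) :
    1 + p ^ 2 ≤ ((sqH cl cu : ℤ) : ℝ) / MM := by
  have hM := GBnd_MM
  have hA : ∃ S : ℤ, sqH cl cu = (MM : ℤ) + cdv S MM ∧ p ^ 2 ≤ (S : ℝ) / MM / MM := by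
    by_cases hc : 0 ≤ cl + cu
    · refine ⟨cu * cu, ?_, ?_⟩
      · unfold sqH
        rw [nn_iff.mpr hc]
      · have h5 : (0 : ℝ) ≤ (cl : ℝ) + cu := by exact_mod_cast hc
        have h6 : (0 : ℝ) ≤ (cl : ℝ) / MM + (cu : ℝ) / MM := by
          rw [← add_div]
          exact div_nonneg h5 hM.le
        have h3 : p * p ≤ ((cu : ℝ) / MM) * ((cu : ℝ) / MM) := by nlinarith
        have h4 : ((cu * cu : ℤ) : ℝ) / MM / MM = ((cu : ℝ) / MM) * ((cu : ℝ) / MM) := by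
          push_cast
          field_simp
        rw [h4, sq]
        exact h3
    · refine ⟨cl * cl, ?_, ?_⟩
      · unfold sqH
        rw [GBnd_nn_false (not_le.mp hc)]
      · have h5 : (cl : ℝ) + cu ≤ 0 := by
          have : cl + cu ≤ 0 := le_of_lt (not_le.mp hc)
          exact_mod_cast this
        have h6 : (cl : ℝ) / MM + (cu : ℝ) / MM ≤ 0 := by
          rw [← add_div]
          exact div_nonpos_of_nonpos_of_nonneg h5 hM.le
        have h3 : p * p ≤ ((cl : ℝ) / MM) * ((cl : ℝ) / MM) := by nlinarith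
        have h4 : ((cl * cl : ℤ) : ℝ) / MM / MM = ((cl : ℝ) / MM) * ((cl : ℝ) / MM) := by
          push_cast
          field_simp
        rw [h4, sq]
        exact h3
  obtain ⟨S, hS, hS'⟩ := hA
  rw [hS]
  have hMZ : (0 : ℤ) < ((MM : ℕ) : ℤ) := by
    unfold MM
    norm_num
  have e1 : (S : ℝ) / MM ≤ ((cdv S MM : ℤ) : ℝ) := by
    have := le_cdv (a := S) (b := (MM : ℤ)) hMZ
    push_cast at this
    exact this
  have e2 : p ^ 2 ≤ ((cdv S MM : ℤ) : ℝ) / MM :=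
    le_trans hS' (div_le_div_of_nonneg_right e1 hM.le)
  push_cast
  rw [add_div, div_self hM.ne']
  linarith

theorem gLo_le {A cl cu : ℤ} {a p : ℝ} (ha : (A : ℝ) / MM ≤ a) (h1 : (cl : ℝ) / MM ≤ p)
    (h2 : p ≤ (cu : ℝ) / MM) : ((gLo A cl cu : ℤ) : ℝ) / MM ≤ (1 + p ^ 2) * a := by
  have hM := GBnd_MM
  have hL := sqL_le h1 h2
  have hU := sqH_ge h1 h2
  have hp0 : 0 ≤ 1 + p ^ 2 := by positivity
  have hfin : (1 + p ^ 2) * ((A : ℝ) / MM) ≤ (1 + p ^ 2) * a := mul_le_mul_of_nonneg_left ha hp0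
  have hA : ∃ S : ℤ, gLo A cl cu = fdv (S * A) MM ∧
      ((S : ℝ) / MM) * ((A : ℝ) / MM) ≤ (1 + p ^ 2) * ((A : ℝ) / MM) := by
    by_cases hc : 0 ≤ A
    · refine ⟨sqL cl cu, ?_, ?_⟩
      · unfold gLo
        rw [nn_iff.mpr hc]
      · exact mul_le_mul_of_nonneg_right hL (div_nonneg (by exact_mod_cast hc) hM.le)
    · refine ⟨sqH cl cu, ?_, ?_⟩
      · unfold gLo
        rw [GBnd_nn_false (not_le.mp hc)]
      · apply mul_le_mul_of_nonpos_right hU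
        apply div_nonpos_of_nonpos_of_nonneg _ hM.le
        exact_mod_cast (le_of_lt (not_le.mp hc))
  obtain ⟨S, hS, hS'⟩ := hA
  rw [hS]
  have hMZ : (0 : ℤ) < ((MM : ℕ) : ℤ) := by
    unfold MM
    norm_num
  have e1 : ((fdv (S * A) MM : ℤ) : ℝ) ≤ ((S : ℝ) * A) / MM := by
    have := fdv_le (a := S * A) (b := (MM : ℤ)) hMZ
    push_cast at this
    exact this
  have e2 : ((fdv (S * A) MM : ℤ) : ℝ) / MM ≤ ((S : ℝ) * A) / MM / MM :=
    div_le_div_of_nonneg_right e1 hM.le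
  have e3 : ((S : ℝ) * A) / MM / MM = ((S : ℝ) / MM) * ((A : ℝ) / MM) := by
    field_simp
  linarith

theorem gHi_ge {A cl cu : ℤ} {a p : ℝ} (ha : a ≤ (A : ℝ) / MM) (h1 : (cl : ℝ) / MM ≤ p)
    (h2 : p ≤ (cu : ℝ) / MM) : (1 + p ^ 2) * a ≤ ((gHi A cl cu : ℤ) : ℝ) / MM := by
  have hM := GBnd_MM
  have hL := sqL_le h1 h2
  have hU := sqH_ge h1 h2
  have hp0 : 0 ≤ 1 + p ^ 2 := by positivity
  have hfin : (1 + p ^ 2) * a ≤ (1 + p ^ 2) * ((A : ℝ) / MM) := mul_le_mul_of_nonneg_left ha hp0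
  have hA : ∃ S : ℤ, gHi A cl cu = cdv (S * A) MM ∧
      (1 + p ^ 2) * ((A : ℝ) / MM) ≤ ((S : ℝ) / MM) * ((A : ℝ) / MM) := by
    by_cases hc : 0 ≤ A
    · refine ⟨sqH cl cu, ?_, ?_⟩
      · unfold gHi
        rw [nn_iff.mpr hc]
      · exact mul_le_mul_of_nonneg_right hU (div_nonneg (by exact_mod_cast hc) hM.le)
    · refine ⟨sqL cl cu, ?_, ?_⟩
      · unfold gHi
        rw [GBnd_nn_false (not_le.mp hc)]
      · apply mul_le_mul_of_nonpos_right hL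
        apply div_nonpos_of_nonpos_of_nonneg _ hM.le
        exact_mod_cast (le_of_lt (not_le.mp hc))
  obtain ⟨S, hS, hS'⟩ := hA
  rw [hS]
  have hMZ : (0 : ℤ) < ((MM : ℕ) : ℤ) := by
    unfold MM
    norm_num
  have e1 : ((S : ℝ) * A) / MM ≤ ((cdv (S * A) MM : ℤ) : ℝ) := by
    have := le_cdv (a := S * A) (b := (MM : ℤ)) hMZ
    push_cast at this
    exact this
  have e2 : ((S : ℝ) * A) / MM / MM ≤ ((cdv (S * A) MM : ℤ) : ℝ) / MM :=
    div_le_div_of_nonneg_right e1 hM.le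
  have e3 : ((S : ℝ) * A) / MM / MM = ((S : ℝ) / MM) * ((A : ℝ) / MM) := by
    field_simp
  linarith

end AT
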