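import Mathlib

/-!
# The maximum principle for two strands: the algebraic core

With `Y = log tan (θ/2)` as a function of the height `r`, a profile strand satisfies
`Y'' = F (1/r - r/2) (1/r²) Y Y'`, where `F φ R Y P = P² tanh Y + R sinh Y cosh Y - φ cosh² Y P`.
-/

namespace AT

open Real

/-- the right hand side of the equation of a strand -/
noncomputable def FJ (φ R Y P : ℝ) : ℝ :=
  P ^ 2 * (sinh Y / cosh Y) + R * (sinh Y * cosh Y) - φ * cosh Y ^ 2 * P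

theorem pos_of_mul_pos_left' {a b : ℝ} (h : 0 < a * b) (ha : 0 < a) : 0 < b := by
  by_contra hb
  push Not at hb
  exact absurd h (not_lt.mpr (mul_nonpos_of_nonneg_of_nonpos ha.le hb))

/-- `3 (p - q)² ≤ 4 p (1 - p q) (p (1 - q²) + p - q)` for `0 < p < 1`, `|q| < p`. -/
theorem jcore_poly {p q : ℝ} (hp : 0 < p) (hp1 : p < 1) (h1 : -p ≤ q) (h2 : q ≤ p) :
    3 * (p - q) ^ 2 ≤ 4 * p * (1 - p * q) * (p * (1 - q ^ 2) + p - q) := by
  obtain ⟨l, rfl⟩ : ∃ l, q = -(l * p) := ⟨-(q / p), by field_simp⟩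
  have hl1 : l ≤ 1 := by
    by_contra h
    push Not at h
    nlinarith
  have hl2 : -1 ≤ l := by
    by_contra h
    push Not at h
    nlinarith
  obtain ⟨z, hz⟩ : ∃ z, z = p ^ 2 := ⟨_, rfl⟩
  have hz0 : 0 ≤ z := by rw [hz]; positivity
  have hz1 : z ≤ 1 := by rw [hz]; nlinarith
  have key : 0 ≤ (1 - l) * (5 + 3 * l) + 4 * l * z * (2 - l ^ 2 * z) := by
    rcases le_or_gt 0 l with hl | hl
    · have e1 : l ^ 2 * z ≤ 1 := by nlinarith [mul_nonneg hl hz0]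
      have e2 : 0 ≤ 4 * l * z * (2 - l ^ 2 * z) :=
        mul_nonneg (by positivity) (by linarith)
      nlinarith [mul_nonneg (sub_nonneg.mpr hl1) (by linarith : 0 ≤ 5 + 3 * l)]
    · obtain ⟨m, rfl⟩ : ∃ m, l = -m := ⟨-l, by ring⟩
      have hm0 : 0 < m := by linarith
      have hm1 : m ≤ 1 := by linarith
      have e3 : z * (2 - m ^ 2 * z) ≤ 2 - m ^ 2 := by
        have : 0 ≤ (1 - z) * (2 - m ^ 2 * (1 + z)) := by
          refine mul_nonneg (by linarith) ?_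
          nlinarith [mul_le_mul_of_nonneg_left (by linarith : 1 + z ≤ 2) (sq_nonneg m)]
        nlinarith
      have e4 : 0 ≤ (1 - m) ^ 2 * (5 + 4 * m) := by positivity
      have e5 : (-m) ^ 2 = m ^ 2 := by ring
      rw [e5]
      nlinarith [mul_le_mul_of_nonneg_left e3 hm0.le]
  have e : 4 * p * (1 - p * -(l * p)) * (p * (1 - (-(l * p)) ^ 2) + p - -(l * p)) -
      3 * (p - -(l * p)) ^ 2 =
      z * ((1 - l) * (5 + 3 * l) + 4 * l * z * (2 - l ^ 2 * z)) := by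
    rw [hz]; ring
  have := mul_nonneg hz0 key
  linarith

/-- Zone I: `Y₁ < Y₂`, `Y₁ + Y₂ < 0` and `x₁² < 12 R`, where
`x₁ / 2 = P / cosh Y₁ + φ sinh Y₁`. -/
theorem jcore_one {φ R Y₁ Y₂ P : ℝ} (hR : 0 < R) (hY : Y₁ < Y₂) (hs : Y₁ + Y₂ < 0)
    (hx : (P / cosh Y₁ + φ * sinh Y₁) ^ 2 < 3 * R) : FJ φ R Y₁ P < FJ φ R Y₂ P := by
  obtain ⟨C, hC⟩ : ∃ C, C = cosh Y₁ := ⟨_, rfl⟩
  obtain ⟨c, hc⟩ : ∃ c, c = cosh Y₂ := ⟨_, rfl⟩
  obtain ⟨S, hS⟩ : ∃ S, S = -sinh Y₁ := ⟨_, rfl⟩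
  obtain ⟨s, hs'⟩ : ∃ s, s = sinh Y₂ := ⟨_, rfl⟩
  have hC0 : 0 < C := by rw [hC]; exact cosh_pos _
  have hc0 : 0 < c := by rw [hc]; exact cosh_pos _
  have hC2 : C ^ 2 = S ^ 2 + 1 := by rw [hC, hS, neg_sq]; exact cosh_sq _
  have hc2 : c ^ 2 = s ^ 2 + 1 := by rw [hc, hs']; exact cosh_sq _
  have hSs : -S < s := by rw [hS, hs', neg_neg]; exact sinh_lt_sinh.mpr hY
  have hsS : s < S := by
    rw [hS, hs', ← sinh_neg]; exact sinh_lt_sinh.mpr (by linarith)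
  have hS0 : 0 < S := by linarith
  have hCc : c < C := by
    have : c ^ 2 < C ^ 2 := by rw [hC2, hc2]; nlinarith
    exact lt_of_pow_lt_pow_left₀ 2 hC0.le this
  have hS1 : sinh Y₁ = -S := by rw [hS]; ring
  -- the quadratic
  obtain ⟨X, hX⟩ : ∃ X, X = P / C - φ * S := ⟨_, rfl⟩
  have hX2 : X ^ 2 < 3 * R := by
    rw [hX]
    have : P / C - φ * S = P / cosh Y₁ + φ * sinh Y₁ := by rw [hS1, ← hC]; ring
    rw [this]; exact hx
  obtain ⟨B, hB⟩ : ∃ B, B = S ^ 2 - s ^ 2 := ⟨_, rfl⟩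
  have hB0 : 0 < B := by rw [hB]; nlinarith
  -- sC + Sc > 0
  have hSg : 0 < s * C + S * c := by
    have : s * C + S * c = sinh (Y₂ - Y₁) := by
      rw [sinh_sub, hs', hS, hC, hc]; ring
    rw [this, sinh_pos_iff]; linarith
  obtain ⟨A, hA⟩ : ∃ A, A = S * (s / c + S / C) + B / C := ⟨_, rfl⟩
  obtain ⟨D, hD⟩ : ∃ D, D = S * (s * c + S * C) := ⟨_, rfl⟩
  have hT : S * c - C * s > 0 := by
    have : S * c - C * s = sinh (-Y₁ - Y₂) := by
      rw [sinh_sub, sinh_neg, cosh_neg, hs', hS, hC, hc]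
    rw [gt_iff_lt, this, sinh_pos_iff]; linarith
  have hA0 : 0 < A := by
    rw [hA]
    have e : s / c + S / C = (s * C + S * c) / (c * C) := by field_simp
    rw [e]
    positivity
  have hsc : 0 < s * c + S * C := by
    have hK : 0 < C * c - S * s := by
      have : C * c - S * s = cosh (Y₁ + Y₂) := by
        rw [cosh_add, hC, hc, hS, hs']; ring
      rw [this]; exact cosh_pos _
    have e : s * c + S * C = (s * C + S * c) * (C * c - S * s) := by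
      linear_combination (-(s * c)) * hC2 - (S * C) * hc2
    rw [e]; positivity
  have hD0 : 0 < D := by rw [hD]; positivity
  have hkey : 3 * B ^ 2 ≤ 4 * A * D := by
    -- with p = S / C, q = s / c
    obtain ⟨p, hp⟩ : ∃ p, p = S / C := ⟨_, rfl⟩
    obtain ⟨q, hq⟩ : ∃ q, q = s / c := ⟨_, rfl⟩
    have hSp : S = p * C := by rw [hp]; field_simp
    have hsq : s = q * c := by rw [hq]; field_simp
    have hp0 : 0 < p := by rw [hp]; positivity
    have hp1 : p < 1 := by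
      rw [hp, div_lt_one hC0]
      have : S ^ 2 < C ^ 2 := by rw [hC2]; linarith
      exact lt_of_pow_lt_pow_left₀ 2 hC0.le this
    have hC3 : C ^ 2 * (1 - p ^ 2) = 1 := by
      have := hC2; rw [hSp] at this; linear_combination this
    have hc3 : c ^ 2 * (1 - q ^ 2) = 1 := by
      have := hc2; rw [hsq] at this; linear_combination this
    have h1 : -p ≤ q := by
      rw [hp, hq, ← neg_div, div_le_div_iff₀ hC0 hc0]; nlinarith
    have h2 : q ≤ p := by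
      rw [hp, hq, div_le_div_iff₀ hc0 hC0]; nlinarith
    have hpoly := jcore_poly hp0 hp1 h1 h2
    -- B = C² c² (p² - q²)
    have hBe : B = C ^ 2 * c ^ 2 * (p ^ 2 - q ^ 2) := by
      rw [hB, hSp, hsq]
      linear_combination (p ^ 2 * C ^ 2) * (-hc3) + (q ^ 2 * c ^ 2) * hC3
    have hpq : 0 < p + q := by
      have : (p + q) * (C * c) = s * C + S * c := by rw [hSp, hsq]; ring
      by_contra hcon
      push Not at hcon
      have := mul_nonpos_of_nonpos_of_nonneg hcon (mul_pos hC0 hc0).le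
      linarith
    have hAe : A = C * (p * (p + q) + c ^ 2 * (p ^ 2 - q ^ 2)) := by
      rw [hA, hBe, hSp, hsq]; field_simp; ring
    have hDe : D = p * C ^ 3 * c ^ 2 * (p + q) * (1 - p * q) := by
      rw [hD, hSp, hsq]
      have : C * (q * c * c + p * C * C) =
          C * (C ^ 2 * c ^ 2 * ((p + q) * (1 - p * q))) := by
        linear_combination (-(C * q * c ^ 2)) * hC3 - (C * p * C ^ 2) * hc3
      linear_combination p * this
    rw [hAe, hDe, hBe]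
    have e : 4 * (C * (p * (p + q) + c ^ 2 * (p ^ 2 - q ^ 2))) *
        (p * C ^ 3 * c ^ 2 * (p + q) * (1 - p * q)) - 3 * (C ^ 2 * c ^ 2 * (p ^ 2 - q ^ 2)) ^ 2 =
        C ^ 4 * c ^ 4 * (p + q) ^ 2 *
          (4 * p * (1 - p * q) * (p * (1 - q ^ 2) + p - q) - 3 * (p - q) ^ 2) := by
      linear_combination (-(4 * p ^ 2 * C ^ 4 * c ^ 2 * (p + q) ^ 2 * (1 - p * q))) * hc3
    have : 0 ≤ C ^ 4 * c ^ 4 * (p + q) ^ 2 *
          (4 * p * (1 - p * q) * (p * (1 - q ^ 2) + p - q) - 3 * (p - q) ^ 2) :=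
      mul_nonneg (by positivity) (by linarith)
    linarith
  have hquad : 0 < A * P ^ 2 - B * X * P + R * D := by
    have h3 : B ^ 2 * X ^ 2 < 4 * A * (R * D) := by
      have : B ^ 2 * X ^ 2 < B ^ 2 * (3 * R) := mul_lt_mul_of_pos_left hX2 (by positivity)
      nlinarith
    have h4 : 0 < 4 * A * (A * P ^ 2 - B * X * P + R * D) := by
      have : 4 * A * (A * P ^ 2 - B * X * P + R * D) =
          (2 * A * P - B * X) ^ 2 + (4 * A * (R * D) - B ^ 2 * X ^ 2) := by ring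
      rw [this]
      nlinarith [sq_nonneg (2 * A * P - B * X)]
    exact pos_of_mul_pos_left' h4 (by positivity)
  have hfin : S * (FJ φ R Y₂ P - FJ φ R Y₁ P) = A * P ^ 2 - B * X * P + R * D := by
    unfold FJ
    rw [hS1, ← hC, ← hc, ← hs', hA, hX, hD]
    have hBc : c ^ 2 - C ^ 2 = -B := by rw [hB]; linarith
    have e1 : S * (P ^ 2 * (s / c) + R * (s * c) - φ * c ^ 2 * P -
        (P ^ 2 * (-S / C) + R * (-S * C) - φ * C ^ 2 * P)) =
        S * (P ^ 2 * (s / c + S / C) + R * (s * c + S * C) - φ * P * (c ^ 2 - C ^ 2)) := by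
      ring
    rw [e1, hBc]
    field_simp
    ring
  have : 0 < S * (FJ φ R Y₂ P - FJ φ R Y₁ P) := by rw [hfin]; exact hquad
  have := pos_of_mul_pos_left' this hS0
  linarith

theorem FJ_neg (φ R Y P : ℝ) : FJ (-φ) R (-Y) P = -FJ φ R Y P := by
  unfold FJ
  rw [sinh_neg, cosh_neg]
  ring

/-- The region where no condition is needed. -/
theorem jcore_zero {φ R Y₁ Y₂ P : ℝ} (hR : 0 < R) (hP : 0 ≤ P) (hY : Y₁ < Y₂)
    (hs : φ * sinh (Y₁ + Y₂) ≤ 0) : FJ φ R Y₁ P < FJ φ R Y₂ P := by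
  have h1 : sinh Y₁ / cosh Y₁ < sinh Y₂ / cosh Y₂ := by
    rw [div_lt_div_iff₀ (cosh_pos _) (cosh_pos _)]
    have : 0 < sinh (Y₂ - Y₁) := sinh_pos_iff.mpr (by linarith)
    rw [sinh_sub] at this
    linarith
  have h2 : sinh Y₁ * cosh Y₁ < sinh Y₂ * cosh Y₂ := by
    have : sinh (2 * Y₁) < sinh (2 * Y₂) := sinh_lt_sinh.mpr (by linarith)
    rw [sinh_two_mul, sinh_two_mul] at this
    linarith
  have h3 : φ * (cosh Y₂ ^ 2 - cosh Y₁ ^ 2) ≤ 0 := by
    have e : cosh Y₂ ^ 2 - cosh Y₁ ^ 2 = sinh (Y₁ + Y₂) * sinh (Y₂ - Y₁) := by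
      rw [sinh_add, sinh_sub]
      linear_combination (-(cosh Y₂ ^ 2)) * (cosh_sq Y₁) + (cosh Y₁ ^ 2) * (cosh_sq Y₂)
    rw [e, ← mul_assoc]
    exact mul_nonpos_of_nonpos_of_nonneg hs (sinh_nonneg_iff.mpr (by linarith))
  unfold FJ
  have h4 := mul_le_mul_of_nonneg_left h1.le (sq_nonneg P)
  have h5 := mul_lt_mul_of_pos_left h2 hR
  have h6 := mul_nonpos_of_nonpos_of_nonneg h3 hP
  nlinarith

/-- Zone II: `Y₁ + Y₂ > 0` and `x₂² < 12 R`, where `x₂ / 2 = P / cosh Y₂ + φ sinh Y₂`. -/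
theorem jcore_two {φ R Y₁ Y₂ P : ℝ} (hR : 0 < R) (hY : Y₁ < Y₂) (hs : 0 < Y₁ + Y₂)
    (hx : (P / cosh Y₂ + φ * sinh Y₂) ^ 2 < 3 * R) : FJ φ R Y₁ P < FJ φ R Y₂ P := by
  have h := jcore_one (φ := -φ) (R := R) (Y₁ := -Y₂) (Y₂ := -Y₁) (P := P) hR (by linarith)
    (by linarith) (by rw [cosh_neg, sinh_neg]; convert hx using 2; ring)
  rw [FJ_neg, FJ_neg] at h
  linarith

end AT
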