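import Pool.Agent.H.MP_ce2c94_gt.JCore

/-!
# The maximum principle for two strands with the same bottom and top heights
-/

namespace AT

open Real Set Filter Topology

/-- `1/r - r/2` -/
noncomputable def ph (r : ℝ) : ℝ := 1 / r - r / 2

/-- `Y' = κ cosh² Y` -/
noncomputable def PY (x Y : ℝ → ℝ) (r : ℝ) : ℝ := cosh (Y r) * (x r / 2 - ph r * sinh (Y r))

/-- A strand as a graph over the height `r ∈ (b, t)`: `Y = log tan (θ/2)`, `dx/dr = cot θ`. -/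
structure Strand (b t : ℝ) (x Y : ℝ → ℝ) : Prop where
  b0 : 0 < b
  bt : b < t
  dx : ∀ r ∈ Ioo b t, HasDerivAt x (-sinh (Y r)) r
  dY : ∀ r ∈ Ioo b t, HasDerivAt Y (PY x Y r) r

theorem ph_deriv {r : ℝ} (hr : 0 < r) : HasDerivAt ph (-(1 / r ^ 2) - 1 / 2) r := by
  unfold ph
  have h1 : HasDerivAt (fun y : ℝ => 1 / y) (-(1 / r ^ 2)) r := by
    have := hasDerivAt_inv hr.ne'
    simpa [one_div] using this
  exact h1.sub ((hasDerivAt_id r).div_const 2)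

/-- the second order equation -/
theorem Strand.dP {b t : ℝ} {x Y : ℝ → ℝ} (h : Strand b t x Y) {r : ℝ} (hr : r ∈ Ioo b t) :
    HasDerivAt (PY x Y) (FJ (ph r) (1 / r ^ 2) (Y r) (PY x Y r)) r := by
  have r0 : 0 < r := h.b0.trans hr.1
  have hY := h.dY r hr
  have hx := h.dx r hr
  have h1 : HasDerivAt (fun r => cosh (Y r)) (sinh (Y r) * PY x Y r) r := hY.cosh
  have h2 : HasDerivAt (fun r => sinh (Y r)) (cosh (Y r) * PY x Y r) r := hY.sinh
  have h3 := h1.mul ((hx.div_const 2).sub ((ph_deriv r0).mul h2))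
  refine h3.congr_deriv ?_
  have hC : cosh (Y r) ≠ 0 := (cosh_pos _).ne'
  unfold FJ
  obtain ⟨P, hP⟩ : ∃ P, P = PY x Y r := ⟨_, rfl⟩
  have hq : x r / 2 - ph r * sinh (Y r) = P / cosh (Y r) := by
    rw [hP, PY]; field_simp
  simp only [Pi.sub_apply, Pi.mul_apply]
  rw [← hP, hq]
  field_simp
  ring

theorem second_deriv_max {J P : ℝ → ℝ} {a G : ℝ} (h1 : ∀ᶠ r in 𝓝 a, HasDerivAt J (P r) r)
    (h2 : P a = 0) (h3 : HasDerivAt P G a) (hG : 0 < G) : ¬ IsLocalMax J a := by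
  intro hmax
  have h4 : ∀ᶠ r in 𝓝[>] a, 0 < P r := by
    have := hasDerivAt_iff_tendsto_slope.mp h3
    have h5 : ∀ᶠ r in 𝓝[≠] a, 0 < slope P a r := this.eventually (lt_mem_nhds hG)
    have h6 : ∀ᶠ r in 𝓝[>] a, 0 < slope P a r :=
      h5.filter_mono (nhdsWithin_mono a (fun y hy => ne_of_gt hy))
    filter_upwards [h6, self_mem_nhdsWithin] with r hr hra
    rw [slope_def_field, h2, sub_zero] at hr
    have hra' : 0 < r - a := sub_pos.mpr hra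
    exact (div_pos_iff_of_pos_right hra').mp hr
  have h7 : ∀ᶠ r in 𝓝[>] a, 0 < P r ∧ HasDerivAt J (P r) r ∧ J r ≤ J a := by
    filter_upwards [h4, h1.filter_mono nhdsWithin_le_nhds, hmax.filter_mono nhdsWithin_le_nhds]
      with r a1 a2 a3
    exact ⟨a1, a2, a3⟩
  obtain ⟨u, hu, hu'⟩ := mem_nhdsGT_iff_exists_Ioo_subset.mp h7
  have hua : a < u := hu
  obtain ⟨v, hv⟩ : ∃ v, v = (a + u) / 2 := ⟨_, rfl⟩
  have hav : a < v := by rw [hv]; linarith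
  have hvu : v < u := by rw [hv]; linarith
  have hcont : ContinuousOn J (Icc a v) := by
    intro r hr
    rcases eq_or_lt_of_le hr.1 with h | h
    · rw [← h]; exact h1.self_of_nhds.continuousAt.continuousWithinAt
    · exact (hu' ⟨h, by linarith [hr.2]⟩).2.1.continuousAt.continuousWithinAt
  have hmono : StrictMonoOn J (Icc a v) := by
    refine strictMonoOn_of_deriv_pos (convex_Icc a v) hcont ?_
    intro r hr
    rw [interior_Icc] at hr
    have := hu' (show r ∈ Ioo a u from ⟨hr.1, by linarith [hr.2]⟩)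
    rw [this.2.1.deriv]
    exact this.1
  have hlt := hmono (left_mem_Icc.mpr hav.le) (right_mem_Icc.mpr hav.le) hav
  have := (hu' (show v ∈ Ioo a u from ⟨hav, hvu⟩)).2.2
  linarith

/-- **Maximum principle.** -/
theorem strand_le {b t : ℝ} {x₁ Y₁ x₂ Y₂ : ℝ → ℝ} (h1 : Strand b t x₁ Y₁)
    (h2 : Strand b t x₂ Y₂) (lb : Tendsto (fun r => Y₂ r - Y₁ r) (𝓝[>] b) (𝓝 0))
    (lt' : Tendsto (fun r => Y₂ r - Y₁ r) (𝓝[<] t) (𝓝 0))
    (cond : ∀ r ∈ Ioo b t, Y₁ r < Y₂ r → PY x₁ Y₁ r = PY x₂ Y₂ r →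
      (Y₁ r + Y₂ r < 0 ∧ (x₁ r * r) ^ 2 < 12) ∨ (0 < Y₁ r + Y₂ r ∧ (x₂ r * r) ^ 2 < 12) ∨
        (0 ≤ PY x₁ Y₁ r ∧ ph r * sinh (Y₁ r + Y₂ r) ≤ 0)) :
    ∀ r ∈ Ioo b t, Y₂ r ≤ Y₁ r := by
  by_contra hcon
  push Not at hcon
  obtain ⟨r₀, hr₀, hJ₀⟩ := hcon
  obtain ⟨J, hJ⟩ : ∃ J : ℝ → ℝ, J = fun r => Y₂ r - Y₁ r := ⟨_, rfl⟩
  have hJ0 : 0 < J r₀ := by rw [hJ]; simp only; linarith
  have hd : ∀ r ∈ Ioo b t, HasDerivAt J (PY x₂ Y₂ r - PY x₁ Y₁ r) r := by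
    intro r hr
    rw [hJ]
    exact (h2.dY r hr).sub (h1.dY r hr)
  have hc : ContinuousOn J (Ioo b t) := fun r hr => (hd r hr).continuousAt.continuousWithinAt
  rw [← hJ] at lb lt'
  have hE := continuousOn_Icc_extendFrom_Ioo hc lb lt'
  have eb : extendFrom (Ioo b t) J b = 0 := eq_lim_at_left_extendFrom_Ioo h1.bt lb
  have et : extendFrom (Ioo b t) J t = 0 := eq_lim_at_right_extendFrom_Ioo h1.bt lt'
  have ei : ∀ r ∈ Ioo b t, extendFrom (Ioo b t) J r = J r := by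
    intro r hr
    exact extendFrom_extends hc r hr
  obtain ⟨m, hm, hmax⟩ := isCompact_Icc.exists_isMaxOn (nonempty_Icc.mpr h1.bt.le) hE
  have hm0 : 0 < extendFrom (Ioo b t) J m := by
    have := hmax (Ioo_subset_Icc_self hr₀)
    simp only [Set.mem_ofPred_eq] at this
    rw [ei r₀ hr₀] at this
    linarith
  have hmi : m ∈ Ioo b t := by
    refine ⟨lt_of_le_of_ne hm.1 ?_, lt_of_le_of_ne hm.2 ?_⟩
    · intro h
      rw [← h, eb] at hm0
      exact lt_irrefl _ hm0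
    · intro h
      rw [h, et] at hm0
      exact lt_irrefl _ hm0
  have hloc : IsLocalMax J m := by
    filter_upwards [Ioo_mem_nhds hmi.1 hmi.2] with r hr
    have := hmax (Ioo_subset_Icc_self hr)
    simp only [Set.mem_ofPred_eq] at this
    rwa [ei r hr, ei m hmi] at this
  have hPm : PY x₂ Y₂ m - PY x₁ Y₁ m = 0 := hloc.hasDerivAt_eq_zero (hd m hmi)
  have hJm : Y₁ m < Y₂ m := by
    rw [ei m hmi, hJ] at hm0
    simp only at hm0
    linarith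
  have r0 : 0 < m := h1.b0.trans hmi.1
  have hP : PY x₁ Y₁ m = PY x₂ Y₂ m := by linarith
  have hR : (0 : ℝ) < 1 / m ^ 2 := by positivity
  have hG : FJ (ph m) (1 / m ^ 2) (Y₁ m) (PY x₁ Y₁ m) <
      FJ (ph m) (1 / m ^ 2) (Y₂ m) (PY x₁ Y₁ m) := by
    have hbound : ∀ z : ℝ, (z * m) ^ 2 < 12 → (z / 2) ^ 2 < 3 * (1 / m ^ 2) := by
      intro z hz
      have hm2 : 0 < m ^ 2 := by positivity
      have : (z / 2) ^ 2 * m ^ 2 < 3 := by nlinarith
      rw [mul_one_div, lt_div_iff₀ hm2]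
      exact this
    rcases cond m hmi hJm hP with ⟨a1, a2⟩ | ⟨a1, a2⟩ | ⟨a1, a2⟩
    · refine jcore_one hR (P := PY x₁ Y₁ m) hJm a1 ?_
      have e : PY x₁ Y₁ m / cosh (Y₁ m) + ph m * sinh (Y₁ m) = x₁ m / 2 := by
        have hC : cosh (Y₁ m) ≠ 0 := (cosh_pos _).ne'
        rw [PY]; field_simp; ring
      rw [e]
      exact hbound _ a2
    · refine jcore_two hR (P := PY x₁ Y₁ m) hJm a1 ?_
      have e : PY x₁ Y₁ m / cosh (Y₂ m) + ph m * sinh (Y₂ m) = x₂ m / 2 := by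
        have hC : cosh (Y₂ m) ≠ 0 := (cosh_pos _).ne'
        rw [hP, PY]; field_simp; ring
      rw [e]
      exact hbound _ a2
    · exact jcore_zero hR a1 hJm a2
  have hG' : HasDerivAt (fun r => PY x₂ Y₂ r - PY x₁ Y₁ r)
      (FJ (ph m) (1 / m ^ 2) (Y₂ m) (PY x₂ Y₂ m) - FJ (ph m) (1 / m ^ 2) (Y₁ m) (PY x₁ Y₁ m)) m :=
    (h2.dP hmi).sub (h1.dP hmi)
  refine second_deriv_max (J := J) (P := fun r => PY x₂ Y₂ r - PY x₁ Y₁ r) ?_ hPm hG' ?_ hloc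
  · filter_upwards [Ioo_mem_nhds hmi.1 hmi.2] with r hr
    exact hd r hr
  · rw [← hP]; linarith

end AT
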