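import Pool.Agent.H.MP_ce2c94_gt.SDefs

/-!
# The tangent angle of a unit speed curve
-/

namespace AT

open Real Set

theorem Lift_aux1 {x : ℝ → ℝ} (cx : ContDiff ℝ 2 x) :
    Differentiable ℝ (deriv x) ∧ Continuous (deriv (deriv x)) := by
  have h : ContDiff ℝ (1 + 1) x := by
    rw [one_add_one_eq_two]
    exact cx
  exact contDiff_one_iff_deriv.1 (contDiff_succ_iff_deriv.1 h).2.2

theorem Lift_aux2 {a b : ℝ} (h : a ^ 2 + b ^ 2 = 1) : ∃ t : ℝ, a = cos t ∧ b = sin t := by
  have hz : (⟨a, b⟩ : ℂ) ≠ 0 := by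
    intro hz
    have h1 : a = 0 := congrArg Complex.re hz
    have h2 : b = 0 := congrArg Complex.im hz
    rw [h1, h2] at h
    norm_num at h
  have hn : ‖(⟨a, b⟩ : ℂ)‖ = 1 := by
    rw [Complex.norm_def, Complex.normSq_mk]
    have : a * a + b * b = 1 := by nlinarith
    rw [this, Real.sqrt_one]
  refine ⟨Complex.arg ⟨a, b⟩, ?_, ?_⟩
  · rw [Complex.cos_arg hz, hn]
    simp
  · rw [Complex.sin_arg, hn]
    simp

/-- **Angle lifting.** Let `κ = x' r'' - r' x''` (continuous), choose `θ₀` with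
`x' 0 = cos θ₀`, `r' 0 = sin θ₀`, and `θ s = θ₀ + ∫ t in 0..s, κ t`. From `x'^2 + r'^2 = 1`:
`x' x'' + r' r'' = 0`, so `x'' = -κ r'`, `r'' = κ x'`. The functions
`x' cos θ + r' sin θ` and `r' cos θ - x' sin θ` have derivative zero, so they are `1` and `0`. -/
theorem angle_lift {x r : ℝ → ℝ} (cx : ContDiff ℝ 2 x) (cr : ContDiff ℝ 2 r)
    (h : ∀ s, deriv x s ^ 2 + deriv r s ^ 2 = 1) :
    ∃ θ : ℝ → ℝ, (∀ s, deriv x s = cos (θ s)) ∧ (∀ s, deriv r s = sin (θ s)) ∧
      ∀ s, HasDerivAt θ (deriv x s * deriv (deriv r) s - deriv r s * deriv (deriv x) s) s := by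
  obtain ⟨dx, c2x⟩ := Lift_aux1 cx
  obtain ⟨dr, c2r⟩ := Lift_aux1 cr
  set a := deriv x with ha
  set b := deriv r with hb
  obtain ⟨t0, ht0, ht0'⟩ := Lift_aux2 (h 0)
  have hk : Continuous (fun s => a s * deriv b s - b s * deriv a s) :=
    (dx.continuous.mul c2r).sub (dr.continuous.mul c2x)
  set k : ℝ → ℝ := fun s => a s * deriv b s - b s * deriv a s with hkdef
  set θ : ℝ → ℝ := fun s => t0 + ∫ t in (0 : ℝ)..s, k t with hθdef
  have hθ : ∀ s, HasDerivAt θ (k s) s := by
    intro s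
    exact ((hk.integral_hasStrictDerivAt 0 s).hasDerivAt).const_add t0
  have hda : ∀ s, HasDerivAt a (deriv a s) s := fun s => (dx s).hasDerivAt
  have hdb : ∀ s, HasDerivAt b (deriv b s) s := fun s => (dr s).hasDerivAt
  have horth : ∀ s, a s * deriv a s + b s * deriv b s = 0 := by
    intro s
    have h1 : HasDerivAt (fun s => a s ^ 2 + b s ^ 2)
        (((2 : ℕ) : ℝ) * a s ^ (2 - 1) * deriv a s + ((2 : ℕ) : ℝ) * b s ^ (2 - 1) * deriv b s) s :=
      ((hda s).pow 2).add ((hdb s).pow 2)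
    have h2 : (fun s => a s ^ 2 + b s ^ 2) = fun _ => (1 : ℝ) := funext h
    rw [h2] at h1
    have h3 := h1.unique (hasDerivAt_const s (1 : ℝ))
    norm_num at h3
    linarith
  have hA : ∀ s, deriv a s = -(k s) * b s := by
    intro s
    have h1 := h s
    have h2 := horth s
    simp only [hkdef]
    have h3 : (a s ^ 2 + b s ^ 2) * deriv a s = deriv a s := by rw [h1, one_mul]
    linear_combination (a s) * h2 - h3
  have hB : ∀ s, deriv b s = k s * a s := by
    intro s
    have h1 := h s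
    have h2 := horth s
    simp only [hkdef]
    have h3 : (a s ^ 2 + b s ^ 2) * deriv b s = deriv b s := by rw [h1, one_mul]
    linear_combination (b s) * h2 - h3
  have hF : ∀ s, HasDerivAt (fun s => a s * cos (θ s) + b s * sin (θ s)) 0 s := by
    intro s
    have h1 := ((hda s).mul ((hθ s).cos)).add ((hdb s).mul ((hθ s).sin))
    refine HasDerivAt.congr_deriv h1 ?_
    rw [hA s, hB s]
    ring
  have hG : ∀ s, HasDerivAt (fun s => b s * cos (θ s) - a s * sin (θ s)) 0 s := by
    intro s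
    have h1 := ((hdb s).mul ((hθ s).cos)).sub ((hda s).mul ((hθ s).sin))
    refine HasDerivAt.congr_deriv h1 ?_
    rw [hA s, hB s]
    ring
  have hθ0 : θ 0 = t0 := by
    simp [hθdef]
  have hFc : ∀ s, a s * cos (θ s) + b s * sin (θ s) = 1 := by
    intro s
    have h1 := is_const_of_deriv_eq_zero (f := fun s => a s * cos (θ s) + b s * sin (θ s))
      (fun s => (hF s).differentiableAt) (fun s => (hF s).deriv) s 0
    rw [h1, hθ0, ht0, ht0']
    have := sin_sq_add_cos_sq t0
    nlinarith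
  have hGc : ∀ s, b s * cos (θ s) - a s * sin (θ s) = 0 := by
    intro s
    have h1 := is_const_of_deriv_eq_zero (f := fun s => b s * cos (θ s) - a s * sin (θ s))
      (fun s => (hG s).differentiableAt) (fun s => (hG s).deriv) s 0
    rw [h1, hθ0, ht0, ht0']
    ring
  refine ⟨θ, ?_, ?_, hθ⟩
  · intro s
    have h1 := hFc s
    have h2 := hGc s
    have h3 := sin_sq_add_cos_sq (θ s)
    linear_combination (cos (θ s)) * h1 - (sin (θ s)) * h2 - (a s) * h3
  · intro s
    have h1 := hFc s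
    have h2 := hGc s
    have h3 := sin_sq_add_cos_sq (θ s)
    linear_combination (sin (θ s)) * h1 + (cos (θ s)) * h2 - (b s) * h3

end AT
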