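import Pool.Agent.H.MP_ce2c94_gt.Defs

/-!
# Differences of two solutions of a tau-system
-/

namespace AT

open Real Set

/-- the system satisfied by the difference of two solutions -/
structure Pair (ζ ρ A P : ℝ → ℝ) : Prop where
  dζ : ∀ τ ∈ Icc (0 : ℝ) 1, HasDerivWithinAt ζ
    (2 * (1 - τ ^ 2) * ((1 - τ ^ 2) * A τ * ρ τ - τ * ζ τ) / ((1 + τ ^ 2) * P τ)) (Icc 0 1) τ
  dρ : ∀ τ ∈ Icc (0 : ℝ) 1, HasDerivWithinAt ρ
    (4 * τ * ((1 - τ ^ 2) * A τ * ρ τ - τ * ζ τ) / ((1 + τ ^ 2) * P τ)) (Icc 0 1) τ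
  hA : ∀ τ ∈ Icc (0 : ℝ) 1, 0 < A τ
  hP : ∀ τ ∈ Icc (0 : ℝ) 1, 1 / 400 ≤ P τ

theorem Pair_prod {a b : ℝ} (ha : 1 / 20 ≤ a) (hb : 1 / 20 ≤ b) : 1 / 400 ≤ a * b := by
  have h := mul_le_mul ha hb (by norm_num) (by linarith)
  linarith

theorem Pair_frac {m n a b : ℝ} (hn : n ≠ 0) (ha : a ≠ 0) (hb : b ≠ 0) :
    m / (n * b) - m / (n * a) = m * (a - b) / (n * (a * b)) := by
  field_simp

/-- lower system: `K₂ - K₁ = τ ζ - (1-τ²) A ρ`, `A = 1/2 + 1/(R₁ R₂)` -/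
theorem pair_low {X₁ R₁ X₂ R₂ : ℝ → ℝ} (h₁ : TauLow 1 X₁ R₁) (h₂ : TauLow 1 X₂ R₂) :
    Pair (fun τ => X₂ τ - X₁ τ) (fun τ => R₂ τ - R₁ τ) (fun τ => 1 / 2 + 1 / (R₁ τ * R₂ τ))
      (fun τ => KL τ (X₁ τ) (R₁ τ) * KL τ (X₂ τ) (R₂ τ)) := by
  have key : ∀ τ ∈ Icc (0 : ℝ) 1, KL τ (X₁ τ) (R₁ τ) - KL τ (X₂ τ) (R₂ τ) =
      (1 - τ ^ 2) * (1 / 2 + 1 / (R₁ τ * R₂ τ)) * (R₂ τ - R₁ τ) - τ * (X₂ τ - X₁ τ) := by
    intro τ hτ
    have p1 := (h₁.pos τ hτ).ne'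
    have p2 := (h₂.pos τ hτ).ne'
    unfold KL
    field_simp
    ring
  refine ⟨fun τ hτ => ?_, fun τ hτ => ?_, fun τ hτ => ?_, fun τ hτ => ?_⟩
  · have k1 : KL τ (X₁ τ) (R₁ τ) ≠ 0 := by linarith [h₁.K τ hτ]
    have k2 : KL τ (X₂ τ) (R₂ τ) ≠ 0 := by linarith [h₂.K τ hτ]
    have hd := (h₂.dX τ hτ).sub (h₁.dX τ hτ)
    rw [Pair_frac (by positivity) k1 k2, key τ hτ] at hd
    exact hd
  · have k1 : KL τ (X₁ τ) (R₁ τ) ≠ 0 := by linarith [h₁.K τ hτ]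
    have k2 : KL τ (X₂ τ) (R₂ τ) ≠ 0 := by linarith [h₂.K τ hτ]
    have hd := (h₂.dR τ hτ).sub (h₁.dR τ hτ)
    rw [Pair_frac (by positivity) k1 k2, key τ hτ] at hd
    exact hd
  · have p1 := h₁.pos τ hτ
    have p2 := h₂.pos τ hτ
    show 0 < 1 / 2 + 1 / (R₁ τ * R₂ τ)
    positivity
  · exact Pair_prod (h₁.K τ hτ) (h₂.K τ hτ)

/-- upper system: `K₂ - K₁ = τ (X₂ - X₁) + (1-τ²) A (R₂ - R₁)` -/
theorem pair_up {X₁ R₁ X₂ R₂ : ℝ → ℝ} (h₁ : TauUp 1 X₁ R₁) (h₂ : TauUp 1 X₂ R₂) :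
    Pair (fun τ => X₁ τ - X₂ τ) (fun τ => R₂ τ - R₁ τ) (fun τ => 1 / 2 + 1 / (R₁ τ * R₂ τ))
      (fun τ => KU τ (X₁ τ) (R₁ τ) * KU τ (X₂ τ) (R₂ τ)) := by
  have key : ∀ τ ∈ Icc (0 : ℝ) 1, KU τ (X₂ τ) (R₂ τ) - KU τ (X₁ τ) (R₁ τ) =
      (1 - τ ^ 2) * (1 / 2 + 1 / (R₁ τ * R₂ τ)) * (R₂ τ - R₁ τ) - τ * (X₁ τ - X₂ τ) := by
    intro τ hτ
    have p1 := (h₁.pos τ hτ).ne'
    have p2 := (h₂.pos τ hτ).ne'
    unfold KU
    field_simp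
    ring
  refine ⟨fun τ hτ => ?_, fun τ hτ => ?_, fun τ hτ => ?_, fun τ hτ => ?_⟩
  · have k1 : KU τ (X₁ τ) (R₁ τ) ≠ 0 := by linarith [h₁.K τ hτ]
    have k2 : KU τ (X₂ τ) (R₂ τ) ≠ 0 := by linarith [h₂.K τ hτ]
    have hd := (h₁.dX τ hτ).sub (h₂.dX τ hτ)
    rw [Pair_frac (by positivity) k2 k1, key τ hτ, mul_comm (KU τ (X₂ τ) (R₂ τ))] at hd
    exact hd
  · have k1 : KU τ (X₁ τ) (R₁ τ) ≠ 0 := by linarith [h₁.K τ hτ]
    have k2 : KU τ (X₂ τ) (R₂ τ) ≠ 0 := by linarith [h₂.K τ hτ]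
    have hd := (h₂.dR τ hτ).sub (h₁.dR τ hτ)
    have e : -(4 * τ / ((1 + τ ^ 2) * KU τ (X₂ τ) (R₂ τ))) -
        -(4 * τ / ((1 + τ ^ 2) * KU τ (X₁ τ) (R₁ τ))) =
        4 * τ / ((1 + τ ^ 2) * KU τ (X₁ τ) (R₁ τ)) -
          4 * τ / ((1 + τ ^ 2) * KU τ (X₂ τ) (R₂ τ)) := by ring
    rw [e, Pair_frac (by positivity) k2 k1, key τ hτ, mul_comm (KU τ (X₂ τ) (R₂ τ))] at hd
    exact hd
  · have p1 := h₁.pos τ hτ
    have p2 := h₂.pos τ hτ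
    show 0 < 1 / 2 + 1 / (R₁ τ * R₂ τ)
    positivity
  · exact Pair_prod (h₁.K τ hτ) (h₂.K τ hτ)

theorem Pair_nonneg {ζ ρ A P : ℝ → ℝ} (h : Pair ζ ρ A P) (h0 : ζ 0 = 0)
    (hρ : ∀ τ ∈ Icc (0 : ℝ) 1, 0 < ρ τ) : ∀ τ ∈ Icc (0 : ℝ) 1, 0 ≤ ζ τ := by
  intro τ₁ hτ₁
  by_contra hneg
  push Not at hneg
  have hc : ContinuousOn ζ (Icc 0 1) := fun τ hτ => (h.dζ τ hτ).continuousWithinAt
  have hsub : Icc 0 τ₁ ⊆ Icc (0 : ℝ) 1 := Icc_subset_Icc le_rfl hτ₁.2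
  have hcl : IsClosed (Icc 0 τ₁ ∩ ζ ⁻¹' Ici 0) :=
    (hc.mono hsub).preimage_isClosed_of_isClosed isClosed_Icc isClosed_Ici
  have hcp : IsCompact (Icc 0 τ₁ ∩ ζ ⁻¹' Ici 0) :=
    isCompact_Icc.of_isClosed_subset hcl inter_subset_left
  obtain ⟨τ₀, ⟨⟨h1, h2⟩, h3⟩, h4⟩ := hcp.exists_isGreatest
    ⟨0, ⟨le_rfl, hτ₁.1⟩, by
      show 0 ≤ ζ 0
      exact h0.ge⟩
  have h3' : 0 ≤ ζ τ₀ := h3
  have hsub2 : Icc τ₀ τ₁ ⊆ Icc (0 : ℝ) 1 := Icc_subset_Icc h1 hτ₁.2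
  have hmono : MonotoneOn ζ (Icc τ₀ τ₁) := by
    refine monotoneOn_of_hasDerivWithinAt_nonneg (convex_Icc _ _) (hc.mono hsub2)
      (f' := fun τ => 2 * (1 - τ ^ 2) * ((1 - τ ^ 2) * A τ * ρ τ - τ * ζ τ) /
        ((1 + τ ^ 2) * P τ)) ?_ ?_
    · intro τ hτ
      have hτ' := hsub2 (interior_subset hτ)
      exact (h.dζ τ hτ').mono (interior_subset.trans hsub2)
    · intro τ hτ
      have hτ' := hsub2 (interior_subset hτ)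
      rw [interior_Icc] at hτ
      have hz : ζ τ < 0 := by
        by_contra hz
        push Not at hz
        have := h4 ⟨⟨h1.trans hτ.1.le, hτ.2.le⟩, hz⟩
        linarith [hτ.1]
      have hA := h.hA τ hτ'
      have hP := h.hP τ hτ'
      have hr := hρ τ hτ'
      have ht0 := hτ'.1
      have ht1 := hτ'.2
      have hq : 0 ≤ 1 - τ ^ 2 := by nlinarith
      have e1 : 0 ≤ (1 - τ ^ 2) * A τ * ρ τ := by positivity
      have e2 : 0 ≤ -(τ * ζ τ) := by nlinarith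
      have e3 : 0 < (1 + τ ^ 2) * P τ := by
        have : 0 < P τ := by linarith
        positivity
      refine div_nonneg (mul_nonneg (by linarith) (by linarith)) e3.le
  have := hmono (left_mem_Icc.2 h2) (right_mem_Icc.2 h2) h2
  linarith

/-- If `ζ 0 = 0` and `ρ > 0` on `[0,1]`, then `ζ 1 > 0`: first `ζ ≥ 0` (fence `-ζ ≤ 0`: at a
contact the derivative of `-ζ` is `-2 (1-τ²)² A ρ/((1+τ²) P) < 0` for `τ < 1`), then
`exp(800 τ) ζ τ` is strictly increasing on `[0,1]` (`2 (1-τ²) τ/((1+τ²) P) ≤ 800`). -/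
theorem pair_pos {ζ ρ A P : ℝ → ℝ} (h : Pair ζ ρ A P) (h0 : ζ 0 = 0)
    (hρ : ∀ τ ∈ Icc (0 : ℝ) 1, 0 < ρ τ) : 0 < ζ 1 := by
  have hnn := Pair_nonneg h h0 hρ
  have hc : ContinuousOn ζ (Icc 0 1) := fun τ hτ => (h.dζ τ hτ).continuousWithinAt
  have hmono : StrictMonoOn (fun τ => exp (800 * τ) * ζ τ) (Icc 0 1) := by
    refine strictMonoOn_of_hasDerivWithinAt_pos (convex_Icc _ _) ?_
      (f' := fun τ => exp (800 * τ) * (800 * 1) * ζ τ + exp (800 * τ) *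
        (2 * (1 - τ ^ 2) * ((1 - τ ^ 2) * A τ * ρ τ - τ * ζ τ) / ((1 + τ ^ 2) * P τ))) ?_ ?_
    · exact ContinuousOn.mul (by fun_prop) hc
    · intro τ hτ
      have hτ' := interior_subset hτ
      have e1 : HasDerivWithinAt (fun τ : ℝ => exp (800 * τ)) (exp (800 * τ) * (800 * 1))
          (interior (Icc 0 1)) τ :=
        (((hasDerivAt_id τ).const_mul 800).exp).hasDerivWithinAt
      exact e1.mul ((h.dζ τ hτ').mono interior_subset)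
    · intro τ hτ
      have hτ' := interior_subset hτ
      rw [interior_Icc] at hτ
      have hA := h.hA τ hτ'
      have hP := h.hP τ hτ'
      have hr := hρ τ hτ'
      have hz := hnn τ hτ'
      have ht0 := hτ.1
      have ht1 := hτ.2
      have hq : 0 < 1 - τ ^ 2 := by nlinarith
      have hP0 : 0 < P τ := by linarith
      have e3 : 0 < (1 + τ ^ 2) * P τ := by positivity
      have e4 : -(800 * ζ τ) < 2 * (1 - τ ^ 2) * ((1 - τ ^ 2) * A τ * ρ τ - τ * ζ τ) /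
          ((1 + τ ^ 2) * P τ) := by
        rw [lt_div_iff₀ e3]
        have e5 : 0 < (1 - τ ^ 2) * A τ * ρ τ := by positivity
        have e6 : 0 < 2 * (1 - τ ^ 2) * ((1 - τ ^ 2) * A τ * ρ τ) := by positivity
        have e7 : 2 * (1 - τ ^ 2) * τ ≤ 800 * ((1 + τ ^ 2) * P τ) := by
          have f1 : 2 * (1 - τ ^ 2) * τ ≤ 2 := by nlinarith
          have f2 : 2 ≤ 800 * ((1 + τ ^ 2) * P τ) := by nlinarith [sq_nonneg τ]
          linarith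
        have e8 := mul_le_mul_of_nonneg_right e7 hz
        nlinarith
      have e9 : 0 < exp (800 * τ) := exp_pos _
      have e10 : 0 < exp (800 * τ) * (800 * ζ τ +
          2 * (1 - τ ^ 2) * ((1 - τ ^ 2) * A τ * ρ τ - τ * ζ τ) / ((1 + τ ^ 2) * P τ)) :=
        mul_pos e9 (by linarith)
      show 0 < exp (800 * τ) * (800 * 1) * ζ τ + exp (800 * τ) *
        (2 * (1 - τ ^ 2) * ((1 - τ ^ 2) * A τ * ρ τ - τ * ζ τ) / ((1 + τ ^ 2) * P τ))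
      linarith
  have h1 := hmono (left_mem_Icc.2 zero_le_one) (right_mem_Icc.2 zero_le_one) zero_lt_one
  simp only at h1
  rw [h0, mul_zero] at h1
  by_contra hneg
  push Not at hneg
  have h2 := mul_nonneg_of_nonpos_of_nonpos (neg_nonpos.2 (exp_pos (800 * 1)).le) hneg
  linarith

end AT
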