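import Pool.Agent.H.MP_ce2c94_gt.Defs

/-!
# Existence for planar systems
-/

namespace AT

open Real Set

/-- **Picard-Lindelöf for a bounded, globally Lipschitz planar system** on `[0, T]`
(`IsPicardLindelof` with the ball of radius `C T`; any Lipschitz constant is allowed; use
`IsPicardLindelof.exists_eq_forall_mem_Icc_hasDerivWithinAt` or the current name). -/
theorem picard2 {f g : ℝ → ℝ → ℝ → ℝ} {T C L : ℝ} (hT : 0 ≤ T) (hC : 0 ≤ C) (hL : 0 ≤ L)
    (cf : Continuous fun z : ℝ × ℝ × ℝ => f z.1 z.2.1 z.2.2)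
    (cg : Continuous fun z : ℝ × ℝ × ℝ => g z.1 z.2.1 z.2.2)
    (bf : ∀ t ∈ Icc 0 T, ∀ x r, |f t x r| ≤ C) (bg : ∀ t ∈ Icc 0 T, ∀ x r, |g t x r| ≤ C)
    (lf : ∀ t ∈ Icc 0 T, ∀ x r x' r', |f t x r - f t x' r'| ≤ L * (|x - x'| + |r - r'|))
    (lg : ∀ t ∈ Icc 0 T, ∀ x r x' r', |g t x r - g t x' r'| ≤ L * (|x - x'| + |r - r'|))
    (x₀ r₀ : ℝ) :
    ∃ X R : ℝ → ℝ, X 0 = x₀ ∧ R 0 = r₀ ∧
      (∀ t ∈ Icc 0 T, HasDerivWithinAt X (f t (X t) (R t)) (Icc 0 T) t) ∧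
      (∀ t ∈ Icc 0 T, HasDerivWithinAt R (g t (X t) (R t)) (Icc 0 T) t) := by
  have h0 : (0 : ℝ) ∈ Icc 0 T := ⟨le_rfl, hT⟩
  have key : IsPicardLindelof (fun t (y : ℝ × ℝ) => (f t y.1 y.2, g t y.1 y.2))
      (⟨0, h0⟩ : Icc (0 : ℝ) T) (x₀, r₀) (⟨C * T, mul_nonneg hC hT⟩ : NNReal) 0
      (⟨C, hC⟩ : NNReal) (⟨2 * L, by positivity⟩ : NNReal) := by
    refine ⟨?_, ?_, ?_, ?_⟩
    · intro t ht
      refine LipschitzOnWith.of_dist_le_mul ?_
      intro y _ z _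
      have e1 : |y.1 - z.1| ≤ dist y z := by
        rw [← Real.dist_eq]; exact le_max_left _ _
      have e2 : |y.2 - z.2| ≤ dist y z := by
        rw [← Real.dist_eq]; exact le_max_right _ _
      have e3 : L * (|y.1 - z.1| + |y.2 - z.2|) ≤ 2 * L * dist y z := by nlinarith
      rw [Prod.dist_eq]
      refine max_le ?_ ?_
      · rw [Real.dist_eq]
        exact (lf t ht _ _ _ _).trans e3
      · rw [Real.dist_eq]
        exact (lg t ht _ _ _ _).trans e3
    · intro y _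
      refine Continuous.continuousOn ?_
      have e : Continuous fun t : ℝ => ((t, y.1, y.2) : ℝ × ℝ × ℝ) := by fun_prop
      exact (cf.comp e).prodMk (cg.comp e)
    · intro t ht y _
      rw [Prod.norm_def]
      refine max_le ?_ ?_
      · rw [Real.norm_eq_abs]; exact bf t ht _ _
      · rw [Real.norm_eq_abs]; exact bg t ht _ _
    · simp only [sub_zero, NNReal.coe_zero, sub_self]
      rw [max_eq_left hT]
      exact le_rfl
  obtain ⟨α, hα0, hα⟩ := key.exists_eq_forall_mem_Icc_hasDerivWithinAt₀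
  refine ⟨fun t => (α t).1, fun t => (α t).2, ?_, ?_, ?_, ?_⟩
  · simp only [hα0]
  · simp only [hα0]
  · intro t ht
    exact (hα t ht).fst
  · intro t ht
    exact (hα t ht).snd

end AT
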