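import Pool.Agent.H.MP_ce2c94_gt.Pic

/-!
# Existence for the clamped graph system
-/

namespace AT

open Real Set

/-- clamp of the slope -/
noncomputable def clP (p : ℝ) : ℝ := max (-20) (min 20 p)

/-- clamp of the height -/
noncomputable def clU (u : ℝ) : ℝ := max (1 / 10) (min 10 u)

/-- the clamped graph system -/
structure ClG (a : ℝ) (u p : ℝ → ℝ) : Prop where
  du : ∀ x ∈ Icc 0 a, HasDerivWithinAt u (clP (p x)) (Icc 0 a) x
  dp : ∀ x ∈ Icc 0 a, HasDerivWithinAt p ((1 + clP (p x) ^ 2) *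
    (x * clP (p x) / 2 + (1 / clU (u x) - clU (u x) / 2))) (Icc 0 a) x

theorem PicG_clP_cont : Continuous clP := by
  unfold clP
  fun_prop

theorem PicG_clU_cont : Continuous clU := by
  unfold clU
  fun_prop

theorem PicG_clP_abs (p : ℝ) : |clP p| ≤ 20 := by
  unfold clP
  rw [abs_le]
  constructor
  · exact le_max_left _ _
  · exact max_le (by norm_num) (min_le_left _ _)

theorem PicG_clU_ge (u : ℝ) : 1 / 10 ≤ clU u := le_max_left _ _

theorem PicG_clU_le (u : ℝ) : clU u ≤ 10 := by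
  unfold clU
  exact max_le (by norm_num) (min_le_left _ _)

theorem PicG_clP_lip (p q : ℝ) : |clP p - clP q| ≤ |p - q| := by
  unfold clP
  calc |max (-20) (min 20 p) - max (-20) (min 20 q)| ≤ |min 20 p - min 20 q| := by
        have h := abs_max_sub_max_le_abs (min 20 p) (min 20 q) (-20)
        rwa [max_comm (min 20 p), max_comm (min 20 q)] at h
    _ ≤ |p - q| := by
        have h := abs_min_sub_min_le_max 20 p 20 q
        simpa using h

theorem PicG_clU_lip (p q : ℝ) : |clU p - clU q| ≤ |p - q| := by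
  unfold clU
  calc |max (1/10) (min 10 p) - max (1/10) (min 10 q)| ≤ |min 10 p - min 10 q| := by
        have h := abs_max_sub_max_le_abs (min 10 p) (min 10 q) (1/10)
        rwa [max_comm (min 10 p), max_comm (min 10 q)] at h
    _ ≤ |p - q| := by
        have h := abs_min_sub_min_le_max 10 p 10 q
        simpa using h

theorem PicG_h_abs (u : ℝ) : |1 / clU u - clU u / 2| ≤ 15 := by
  have h1 := PicG_clU_ge u
  have h2 := PicG_clU_le u
  have h0 : 0 < clU u := by linarith
  have h3 : 1 / clU u ≤ 10 := by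
    rw [div_le_iff₀ h0]
    linarith
  have h4 : 0 < 1 / clU u := by positivity
  rw [abs_le]
  constructor <;> linarith

theorem PicG_h_lip (u v : ℝ) : |(1 / clU u - clU u / 2) - (1 / clU v - clU v / 2)| ≤
    101 * |clU u - clU v| := by
  have h1 := PicG_clU_ge u
  have h1' := PicG_clU_ge v
  have h0 : 0 < clU u := by linarith
  have h0' : 0 < clU v := by linarith
  have e : (1 / clU u - clU u / 2) - (1 / clU v - clU v / 2) =
      -((1 / (clU u * clU v) + 1 / 2) * (clU u - clU v)) := by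
    field_simp
    ring
  rw [e, abs_neg, abs_mul]
  refine mul_le_mul_of_nonneg_right ?_ (abs_nonneg _)
  have h5 : 1 / (clU u * clU v) ≤ 100 := by
    rw [div_le_iff₀ (by positivity)]
    nlinarith
  have h6 : 0 < 1 / (clU u * clU v) := by positivity
  rw [abs_of_pos (by positivity)]
  linarith

theorem PicG_G_abs {a t : ℝ} (h0 : 0 ≤ t) (ht : t ≤ a) (u p : ℝ) :
    |t * clP p / 2 + (1 / clU u - clU u / 2)| ≤ 10 * a + 15 := by
  have h1 := PicG_clP_abs p
  have h2 := PicG_h_abs u
  have h3 : |t * clP p / 2| ≤ 10 * a := by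
    rw [abs_div, abs_mul, abs_of_nonneg h0, abs_of_pos (by norm_num : (0:ℝ) < 2)]
    have h4 : t * |clP p| ≤ a * 20 := mul_le_mul ht h1 (abs_nonneg _) (h0.trans ht)
    linarith
  calc |t * clP p / 2 + (1 / clU u - clU u / 2)| ≤ |t * clP p / 2| + |1 / clU u - clU u / 2| :=
        abs_add_le _ _
    _ ≤ 10 * a + 15 := add_le_add h3 h2

theorem PicG_sq (p : ℝ) : |1 + clP p ^ 2| ≤ 401 := by
  have h1 := abs_le.1 (PicG_clP_abs p)
  rw [abs_of_pos (by positivity)]
  nlinarith [h1.1, h1.2]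

theorem PicG_sq_lip (p q : ℝ) : |(1 + clP p ^ 2) - (1 + clP q ^ 2)| ≤ 40 * |clP p - clP q| := by
  have e : (1 + clP p ^ 2) - (1 + clP q ^ 2) = (clP p + clP q) * (clP p - clP q) := by ring
  rw [e, abs_mul]
  refine mul_le_mul_of_nonneg_right ?_ (abs_nonneg _)
  calc |clP p + clP q| ≤ |clP p| + |clP q| := abs_add_le _ _
    _ ≤ 20 + 20 := add_le_add (PicG_clP_abs p) (PicG_clP_abs q)
    _ = 40 := by norm_num

theorem ex_clG {a : ℝ} (ha : 0 ≤ a) (c : ℝ) : ∃ u p : ℝ → ℝ, u 0 = c ∧ p 0 = 0 ∧ ClG a u p := by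
  set C : ℝ := 401 * (10 * a + 15) + 20 with hC
  set L : ℝ := 40 * (10 * a + 15) + 401 * (a / 2 + 101) + 1 with hL
  have hC0 : 0 ≤ C := by positivity
  have hL0 : 0 ≤ L := by positivity
  have cP := PicG_clP_cont
  have cU := PicG_clU_cont
  have hne : ∀ u, clU u ≠ 0 := fun u => by
    have := PicG_clU_ge u
    intro h
    rw [h] at this
    norm_num at this
  suffices H : ∃ X R : ℝ → ℝ, X 0 = c ∧ R 0 = 0 ∧
      (∀ t ∈ Icc 0 a, HasDerivWithinAt X ((fun _ _ p => clP p : ℝ → ℝ → ℝ → ℝ) t (X t) (R t))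
        (Icc 0 a) t) ∧
      (∀ t ∈ Icc 0 a, HasDerivWithinAt R ((fun t u p => (1 + clP p ^ 2) *
        (t * clP p / 2 + (1 / clU u - clU u / 2)) : ℝ → ℝ → ℝ → ℝ) t (X t) (R t))
        (Icc 0 a) t) by
    obtain ⟨X, R, hX0, hR0, hX, hR⟩ := H
    exact ⟨X, R, hX0, hR0, ⟨hX, hR⟩⟩
  refine picard2 (f := fun _ _ p => clP p)
    (g := fun t u p => (1 + clP p ^ 2) * (t * clP p / 2 + (1 / clU u - clU u / 2)))
    (T := a) (C := C) (L := L) ha hC0 hL0 ?_ ?_ ?_ ?_ ?_ ?_ c 0
  · exact cP.comp (by fun_prop)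
  · have c1 : Continuous fun z : ℝ × ℝ × ℝ => clP z.2.2 := cP.comp (by fun_prop)
    have c2 : Continuous fun z : ℝ × ℝ × ℝ => clU z.2.1 := cU.comp (by fun_prop)
    have c3 : Continuous fun z : ℝ × ℝ × ℝ => 1 / clU z.2.1 :=
      continuous_const.div c2 (fun z => hne _)
    exact (continuous_const.add (c1.pow 2)).mul
      (((continuous_fst.mul c1).div_const 2).add (c3.sub (c2.div_const 2)))
  · intro t ht x r
    have := PicG_clP_abs r
    have h2 : 0 ≤ 401 * (10 * a + 15) := by positivity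
    show |clP r| ≤ C
    linarith
  · intro t ht x r
    show |(1 + clP r ^ 2) * (t * clP r / 2 + (1 / clU x - clU x / 2))| ≤ C
    rw [abs_mul]
    have h1 := mul_le_mul (PicG_sq r) (PicG_G_abs ht.1 ht.2 x r) (abs_nonneg _)
      (by norm_num : (0:ℝ) ≤ 401)
    linarith
  · intro t ht x r x' r'
    show |clP r - clP r'| ≤ L * (|x - x'| + |r - r'|)
    have h1 := PicG_clP_lip r r'
    have h2 : 1 ≤ L := by
      have : 0 ≤ 40 * (10 * a + 15) + 401 * (a / 2 + 101) := by positivity
      linarith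
    have h3 := abs_nonneg (x - x')
    have h4 := abs_nonneg (r - r')
    nlinarith
  · intro t ht x r x' r'
    show |(1 + clP r ^ 2) * (t * clP r / 2 + (1 / clU x - clU x / 2)) -
      (1 + clP r' ^ 2) * (t * clP r' / 2 + (1 / clU x' - clU x' / 2))| ≤
      L * (|x - x'| + |r - r'|)
    have e : (1 + clP r ^ 2) * (t * clP r / 2 + (1 / clU x - clU x / 2)) -
        (1 + clP r' ^ 2) * (t * clP r' / 2 + (1 / clU x' - clU x' / 2)) =
        ((1 + clP r ^ 2) - (1 + clP r' ^ 2)) * (t * clP r / 2 + (1 / clU x - clU x / 2)) +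
        (1 + clP r' ^ 2) * (t / 2 * (clP r - clP r') +
          ((1 / clU x - clU x / 2) - (1 / clU x' - clU x' / 2))) := by ring
    rw [e]
    have k1 := PicG_clP_lip r r'
    have k2 := PicG_clU_lip x x'
    have n1 := abs_nonneg (x - x')
    have n2 := abs_nonneg (r - r')
    have b1 : |((1 + clP r ^ 2) - (1 + clP r' ^ 2)) * (t * clP r / 2 + (1 / clU x - clU x / 2))| ≤
        40 * |r - r'| * (10 * a + 15) := by
      rw [abs_mul]
      refine mul_le_mul ((PicG_sq_lip r r').trans ?_) (PicG_G_abs ht.1 ht.2 x r) (abs_nonneg _)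
        (by positivity)
      linarith
    have b2 : |t / 2 * (clP r - clP r') +
        ((1 / clU x - clU x / 2) - (1 / clU x' - clU x' / 2))| ≤
        a / 2 * |r - r'| + 101 * |x - x'| := by
      refine (abs_add_le _ _).trans (add_le_add ?_ ((PicG_h_lip x x').trans (by linarith)))
      rw [abs_mul, abs_of_nonneg (by linarith [ht.1] : 0 ≤ t / 2)]
      exact mul_le_mul (by linarith [ht.2]) k1 (abs_nonneg _) (by linarith)
    have b3 : |(1 + clP r' ^ 2) * (t / 2 * (clP r - clP r') +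
        ((1 / clU x - clU x / 2) - (1 / clU x' - clU x' / 2)))| ≤
        401 * (a / 2 * |r - r'| + 101 * |x - x'|) := by
      rw [abs_mul]
      exact mul_le_mul (PicG_sq r') b2 (abs_nonneg _) (by norm_num)
    refine (abs_add_le _ _).trans ((add_le_add b1 b3).trans ?_)
    rw [hL]
    nlinarith [mul_nonneg ha n1, mul_nonneg ha n2]

end AT
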