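import Pool.Agent.H.MP_ce2c94_gt.Defs

/-!
# A fence lemma for a ratio
-/

namespace AT

open Real Set

/-- the fence while the denominator is positive -/
theorem RatF_fence {a c B' : ℝ} {ζ ρ B ζ' ρ' : ℝ → ℝ} (cζ : ContinuousOn ζ (Icc a c))
    (cρ : ContinuousOn ρ (Icc a c))
    (dζ : ∀ t ∈ Ico a c, HasDerivWithinAt ζ (ζ' t) (Ici t) t)
    (dρ : ∀ t ∈ Ico a c, HasDerivWithinAt ρ (ρ' t) (Ici t) t)
    (dB : ∀ t, HasDerivAt B B' t) (ha : ζ a ≤ B a * ρ a)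
    (H2 : ∀ t ∈ Ico a c, ζ t = B t * ρ t → ζ' t < B' * ρ t + B t * ρ' t) :
    ∀ t ∈ Icc a c, ζ t ≤ B t * ρ t := by
  have cB : Continuous B := continuous_iff_continuousAt.2 fun t => (dB t).continuousAt
  have h := image_le_of_deriv_right_lt_deriv_boundary' (f := ζ) (f' := ζ')
    (B := fun t => B t * ρ t) (B' := fun t => B' * ρ t + B t * ρ' t) cζ dζ ha
    (cB.continuousOn.mul cρ) (fun t ht => (dB t).hasDerivWithinAt.mul (dρ t ht)) H2
  exact fun t ht => h ht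

/-- the denominator stays positive -/
theorem RatF_pos {a c C : ℝ} {ρ ρ' : ℝ → ℝ} (hac : a ≤ c) (cρ : ContinuousOn ρ (Icc a c))
    (dρ : ∀ t ∈ Ico a c, HasDerivWithinAt ρ (ρ' t) (Ici t) t) (ρa : 0 < ρ a)
    (H3 : ∀ t ∈ Ico a c, -(C * ρ t) ≤ ρ' t) : 0 < ρ c := by
  have hE : ∀ t, HasDerivAt (fun t => exp (C * t)) (exp (C * t) * C) t := by
    intro t
    have h1 := ((hasDerivAt_id t).const_mul C).exp
    rwa [mul_one] at h1
  have cE : Continuous fun t => exp (C * t) :=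
    continuous_iff_continuousAt.2 fun t => (hE t).continuousAt
  have h := image_le_of_deriv_right_le_deriv_boundary (f := fun _ => exp (C * a) * ρ a)
    (f' := fun _ => 0) (a := a) (b := c)
    (B := fun t => exp (C * t) * ρ t) (B' := fun t => exp (C * t) * C * ρ t + exp (C * t) * ρ' t)
    continuousOn_const (fun t _ => hasDerivWithinAt_const t _ _) le_rfl
    (cE.continuousOn.mul cρ) (fun t ht => (hE t).hasDerivWithinAt.mul (dρ t ht)) ?_
  · have h1 : exp (C * a) * ρ a ≤ exp (C * c) * ρ c := h (right_mem_Icc.2 hac)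
    have h2 : 0 < exp (C * c) * ρ c := lt_of_lt_of_le (mul_pos (exp_pos _) ρa) h1
    exact (mul_pos_iff_of_pos_left (exp_pos _)).1 h2
  · intro t ht
    have h1 := H3 t ht
    have h2 : exp (C * t) * C * ρ t + exp (C * t) * ρ' t = exp (C * t) * (C * ρ t + ρ' t) := by
      ring
    show (0 : ℝ) ≤ exp (C * t) * C * ρ t + exp (C * t) * ρ' t
    rw [h2]
    exact mul_nonneg (exp_pos _).le (by linarith)

/-- **Ratio fence.** `ρ > 0` and `ζ ≤ B ρ` are preserved.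
Proof: suppose `ρ ≤ 0` somewhere and let `t₁ > a` be the first zero of `ρ`. On every `[a, t₂]`,
`t₂ < t₁`, `ρ > 0`, so `image_le_of_deriv_right_lt_deriv_boundary'` with `f = ζ` and the boundary
`B ρ` (derivative `B' ρ + B ρ'`) gives `ζ ≤ B ρ`; hence `ρ' ≥ -C ρ` on `[a, t₁)` and
`exp(C t) ρ t` is monotone, so `ρ t₁ > 0`, a contradiction. So `ρ > 0` on `[a, b]`, and the same
fence argument gives `ζ ≤ B ρ` on `[a, b]`. -/
theorem ratio_fence {a b C B' : ℝ} {ζ ρ B ζ' ρ' : ℝ → ℝ} (cζ : ContinuousOn ζ (Icc a b))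
    (cρ : ContinuousOn ρ (Icc a b))
    (dζ : ∀ t ∈ Ico a b, HasDerivWithinAt ζ (ζ' t) (Ici t) t)
    (dρ : ∀ t ∈ Ico a b, HasDerivWithinAt ρ (ρ' t) (Ici t) t)
    (dB : ∀ t, HasDerivAt B B' t)
    (ρa : 0 < ρ a) (ha : ζ a ≤ B a * ρ a)
    (H2 : ∀ t ∈ Ico a b, 0 < ρ t → ζ t = B t * ρ t → ζ' t < B' * ρ t + B t * ρ' t)
    (H3 : ∀ t ∈ Ico a b, 0 < ρ t → ζ t ≤ B t * ρ t → -(C * ρ t) ≤ ρ' t) :
    ∀ t ∈ Icc a b, 0 < ρ t ∧ ζ t ≤ B t * ρ t := by
  have key : ∀ c ∈ Icc a b, (∀ t ∈ Ico a c, 0 < ρ t) →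
      0 < ρ c ∧ ∀ t ∈ Icc a c, ζ t ≤ B t * ρ t := by
    intro c hc hpos
    have s1 : Icc a c ⊆ Icc a b := Icc_subset_Icc_right hc.2
    have s2 : Ico a c ⊆ Ico a b := Ico_subset_Ico_right hc.2
    have h1 := RatF_fence (cζ.mono s1) (cρ.mono s1) (fun t ht => dζ t (s2 ht))
      (fun t ht => dρ t (s2 ht)) dB ha (fun t ht he => H2 t (s2 ht) (hpos t ht) he)
    exact ⟨RatF_pos hc.1 (cρ.mono s1) (fun t ht => dρ t (s2 ht)) ρa
      (fun t ht => H3 t (s2 ht) (hpos t ht) (h1 t ⟨ht.1, ht.2.le⟩)), h1⟩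
  have hall : ∀ t ∈ Icc a b, 0 < ρ t := by
    by_contra hcon
    obtain ⟨t0, ht0, ht0'⟩ : ∃ t, t ∈ Icc a b ∧ ρ t ≤ 0 := by
      by_contra h1
      exact hcon fun t ht => lt_of_not_ge fun h2 => h1 ⟨t, ht, h2⟩
    obtain ⟨S, hS⟩ : ∃ S : Set ℝ, S = Icc a b ∩ ρ ⁻¹' Iic 0 := ⟨_, rfl⟩
    have hSc : IsClosed S := by
      rw [hS]
      exact cρ.preimage_isClosed_of_isClosed isClosed_Icc isClosed_Iic
    have hSn : S.Nonempty := ⟨t0, by rw [hS]; exact ⟨ht0, ht0'⟩⟩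
    have hSb : BddBelow S := ⟨a, fun t ht => by rw [hS] at ht; exact ht.1.1⟩
    have hm := hSc.csInf_mem hSn hSb
    have hm' := hm
    rw [hS] at hm'
    have h2 := (key (sInf S) (by rw [hS]; exact hm'.1) ?_).1
    · have h3 : ρ (sInf S) ≤ 0 := by rw [hS]; exact hm'.2
      linarith
    · intro t ht
      by_contra h4
      have h5 : t ∈ S := by
        rw [hS]
        refine ⟨⟨ht.1, ?_⟩, not_lt.1 h4⟩
        have h6 : sInf S ≤ b := by rw [hS]; exact hm'.1.2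
        exact ht.2.le.trans h6
      exact absurd (csInf_le hSb h5) (not_le.2 ht.2)
  intro t ht
  exact ⟨hall t ht, (key t ht fun s hs => hall s ⟨hs.1, hs.2.le.trans ht.2⟩).2 t
    (right_mem_Icc.2 ht.1)⟩

end AT
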