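import Pool.Agent.H.MP_ce2c94_gt.RatF
import Pool.Agent.H.MP_ce2c94_gt.Pair
import Pool.Agent.H.MP_ce2c94_gt.Chain

/-!
# One step of the ratio fence
-/

namespace AT

open Real Set

theorem RatS_MM : (0 : ℝ) < (MM : ℝ) := by
  norm_num [MM]

theorem RatS_lt_div (a : ℕ) {b : ℕ} (hb : 0 < b) : (a : ℝ) / b < ((a / b : ℕ) : ℝ) + 1 := by
  have hb' : (0 : ℝ) < b := by exact_mod_cast hb
  rw [div_lt_iff₀ hb']
  have h : a < b * (a / b + 1) := Nat.lt_mul_div_succ a hb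
  have h1 : (a : ℝ) < ((b * (a / b + 1) : ℕ) : ℝ) := by exact_mod_cast h
  refine h1.trans_le (le_of_eq ?_)
  push_cast
  ring

/-- the algebraic form of `(H2)` -/
theorem RatS_alg {τ A B c p M E s P kl x0 B' : ℝ} (hM : 0 < M) (hkl : 0 < kl) (hp : 0 ≤ p)
    (hE : E ≤ p / M) (hs : 1 + x0 ^ 2 ≤ s) (hP : (kl / M) ^ 2 ≤ P)
    (hB' : 2 * M * p / ((1 + x0 ^ 2) * kl ^ 2) < B') (_h : E = (c * A - τ * B) * (c - 2 * τ * B)) :
    2 * E / (s * P) < B' := by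
  have hx : 0 < 1 + x0 ^ 2 := by positivity
  have hk : 0 < (kl / M) ^ 2 := by positivity
  have h1 : 0 < s * P := mul_pos (hx.trans_le hs) (hk.trans_le hP)
  have h2 : (1 + x0 ^ 2) * (kl / M) ^ 2 ≤ s * P :=
    mul_le_mul hs hP hk.le (hx.le.trans hs)
  calc 2 * E / (s * P) ≤ 2 * (p / M) / (s * P) := by
        gcongr
    _ ≤ 2 * (p / M) / ((1 + x0 ^ 2) * (kl / M) ^ 2) := by
        gcongr
    _ = 2 * M * p / ((1 + x0 ^ 2) * kl ^ 2) := by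
        field_simp
    _ < B' := hB'

/-- the new value of the scaled fence -/
def Qnew (N n au al kl Q QG : ℕ) : ℕ :=
  Q + dQ N n (qP1 N n au + qP2 N n QG - qP3 N n al Q) kl

/-- **One ratio step**, by `ratio_fence` on `[n/N, (n+1)/N]` with
`B τ = Q/M + (τ - n/N) (Qnew - Q) N / M ∈ [Q/M, QG/M]`. Write `c = 1 - τ²`, `S = 1 + τ²`.
(H2) at `ζ = B ρ`: `ζ' - B ρ' = ρ · 2 (c A - τ B)(c - 2 τ B)/(S P)
= ρ · 2 (A c² + 2 τ² B² - (1 + 2A) τ c B)/(S P)`, and with `p = qP1 + qP2(QG) - qP3` (truncated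
subtraction, so `p ≥ 0` and `p ≥` the real difference)
`A c² + 2 τ² B² - (1 + 2A) τ c B ≤ p/M` (`c ≤ (N²-n²)/N²`, `c ≥ (N²-(n+1)²)/N²`,
`τ ≤ (n+1)/N`, `τ ≥ n/N`, `Q/M ≤ B ≤ QG/M`), `S ≥ (N²+n²)/N²`, `P ≥ (kl/M)²`; so the quotient is
`≤ 2 p M N²/((N²+n²) kl²) < dQ N / M = B'`.
(H3) `ρ' ≥ -4 τ² B ρ/(S P) ≥ -(1600 QG/M) ρ`. -/
theorem ratio_step {N n au al kl Q QG : ℕ} {ζ ρ A P : ℝ → ℝ} (hN : 0 < N) (hn : n < N)
    (h : Pair ζ ρ A P) (hkl : 0 < kl)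
    (bP : ∀ τ ∈ Icc ((n : ℝ) / N) (((n : ℝ) + 1) / N), ((kl : ℝ) / MM) ^ 2 ≤ P τ)
    (bA : ∀ τ ∈ Icc ((n : ℝ) / N) (((n : ℝ) + 1) / N), (al : ℝ) / MM ≤ A τ ∧ A τ ≤ (au : ℝ) / MM)
    (hρ : 0 < ρ ((n : ℝ) / N)) (hζ : ζ ((n : ℝ) / N) ≤ (Q : ℝ) / MM * ρ ((n : ℝ) / N))
    (hQ : Qnew N n au al kl Q QG ≤ QG) :
    (∀ τ ∈ Icc ((n : ℝ) / N) (((n : ℝ) + 1) / N), 0 < ρ τ) ∧
      ζ (((n : ℝ) + 1) / N) ≤ (Qnew N n au al kl Q QG : ℝ) / MM * ρ (((n : ℝ) + 1) / N) := by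
  have hM := RatS_MM
  have hN' : (0 : ℝ) < N := by exact_mod_cast hN
  have hkl' : (0 : ℝ) < kl := by exact_mod_cast hkl
  set x0 : ℝ := (n : ℝ) / N with hx0
  set x1 : ℝ := ((n : ℝ) + 1) / N with hx1
  have hx00 : 0 ≤ x0 := by positivity
  have hx01 : x0 < x1 := by
    rw [hx0, hx1]
    gcongr
    linarith
  have hx11 : x1 ≤ 1 := by
    rw [hx1, div_le_one hN']
    exact_mod_cast hn
  have hx10 : 0 < x1 := hx00.trans_lt hx01
  set p : ℕ := qP1 N n au + qP2 N n QG - qP3 N n al Q with hp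
  set δ : ℕ := dQ N n p kl with hδ
  have hQn : ((Qnew N n au al kl Q QG : ℕ) : ℝ) = Q + δ := by
    rw [Qnew, ← hp, ← hδ]
    push_cast
    rfl
  have hQG : (Q : ℝ) + δ ≤ QG := by
    rw [← hQn]
    exact_mod_cast hQ
  have hQ0 : (0 : ℝ) ≤ Q := Nat.cast_nonneg _
  have hδ0 : (0 : ℝ) ≤ δ := Nat.cast_nonneg _
  have hQG0 : (0 : ℝ) ≤ QG := Nat.cast_nonneg _
  have hal : (0 : ℝ) ≤ al := Nat.cast_nonneg _
  have hau : (0 : ℝ) ≤ au := Nat.cast_nonneg _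
  -- the numbers
  have e1 : ((N * N - n * n : ℕ) : ℝ) = N ^ 2 * (1 - x0 ^ 2) := by
    rw [Nat.cast_sub (Nat.mul_le_mul hn.le hn.le), hx0]
    push_cast
    field_simp
  have e2 : ((N * N - (n + 1) * (n + 1) : ℕ) : ℝ) = N ^ 2 * (1 - x1 ^ 2) := by
    rw [Nat.cast_sub (Nat.mul_le_mul hn hn), hx1]
    push_cast
    field_simp
  have q1 : (au : ℝ) * (1 - x0 ^ 2) ^ 2 ≤ qP1 N n au := by
    have h1 := RatS_lt_div (au * ((N * N - n * n) * (N * N - n * n))) (b := N * N * (N * N))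
      (by positivity)
    have h2 : ((au * ((N * N - n * n) * (N * N - n * n)) : ℕ) : ℝ) / ((N * N * (N * N) : ℕ) : ℝ) =
        (au : ℝ) * (1 - x0 ^ 2) ^ 2 := by
      rw [Nat.cast_mul, Nat.cast_mul, e1]
      push_cast
      field_simp
    rw [h2] at h1
    rw [qP1]
    push_cast
    exact h1.le
  have q2 : 2 * x1 ^ 2 * (QG : ℝ) ^ 2 / MM ≤ qP2 N n QG := by
    have h1 := RatS_lt_div (2 * ((n + 1) * (n + 1)) * (QG * QG)) (b := N * N * MM)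
      (Nat.mul_pos (Nat.mul_pos hN hN) (by norm_num [MM]))
    have h2 : ((2 * ((n + 1) * (n + 1)) * (QG * QG) : ℕ) : ℝ) / ((N * N * MM : ℕ) : ℝ) =
        2 * x1 ^ 2 * (QG : ℝ) ^ 2 / MM := by
      rw [hx1]
      push_cast
      field_simp
    rw [h2] at h1
    rw [qP2]
    push_cast
    exact h1.le
  have q3 : (qP3 N n al Q : ℝ) ≤ ((MM : ℝ) + 2 * al) * x0 * (1 - x1 ^ 2) * Q / MM := by
    have h1 : ((qP3 N n al Q : ℕ) : ℝ) ≤
        (((MM + 2 * al) * n * (N * N - (n + 1) * (n + 1)) * Q : ℕ) : ℝ) /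
          ((N * (N * N) * MM : ℕ) : ℝ) := by
      rw [qP3]
      exact Nat.cast_div_le
    refine h1.trans (le_of_eq ?_)
    rw [Nat.cast_mul, Nat.cast_mul, e2, hx0]
    push_cast
    field_simp
  have qp : (qP1 N n au : ℝ) + qP2 N n QG - qP3 N n al Q ≤ p := by
    have h1 : qP1 N n au + qP2 N n QG ≤ p + qP3 N n al Q := by
      rw [hp]
      omega
    have h2 : ((qP1 N n au + qP2 N n QG : ℕ) : ℝ) ≤ ((p + qP3 N n al Q : ℕ) : ℝ) := by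
      exact_mod_cast h1
    push_cast at h2
    linarith
  have hd : 2 * (MM : ℝ) * p / ((1 + x0 ^ 2) * (kl : ℝ) ^ 2) < δ * N / MM := by
    have h1 := RatS_lt_div (2 * N * (MM * MM) * p) (b := (N * N + n * n) * (kl * kl))
      (Nat.mul_pos (Nat.add_pos_left (Nat.mul_pos hN hN) _) (Nat.mul_pos hkl hkl))
    have h2 : ((2 * N * (MM * MM) * p : ℕ) : ℝ) / (((N * N + n * n) * (kl * kl) : ℕ) : ℝ) =
        2 * (MM : ℝ) * p / ((1 + x0 ^ 2) * (kl : ℝ) ^ 2) * (MM / N) := by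
      rw [hx0]
      push_cast
      field_simp
    rw [h2] at h1
    have h3 : (δ : ℝ) = ((2 * N * (MM * MM) * p / ((N * N + n * n) * (kl * kl)) : ℕ) : ℝ) + 1 := by
      rw [hδ, dQ]
      push_cast
      rfl
    rw [← h3] at h1
    have h4 : 0 < (MM : ℝ) / N := by positivity
    have h5 := (lt_div_iff₀ h4).2 h1
    refine h5.trans_eq ?_
    field_simp
  -- the fence
  set B : ℝ → ℝ := fun t => (Q : ℝ) / MM + (t - x0) * (δ * N / MM) with hB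
  have hBa : B x0 = (Q : ℝ) / MM := by
    simp only [hB]
    ring
  have hBb : B x1 = ((Q : ℝ) + δ) / MM := by
    simp only [hB]
    rw [hx0, hx1]
    field_simp
    ring
  have hBl : ∀ t ∈ Icc x0 x1, (Q : ℝ) / MM ≤ B t := by
    intro t ht
    have : 0 ≤ (t - x0) * (δ * N / MM) := mul_nonneg (by linarith [ht.1]) (by positivity)
    simp only [hB]
    linarith
  have hBu : ∀ t ∈ Icc x0 x1, B t ≤ (QG : ℝ) / MM := by
    intro t ht
    have h1 : (t - x0) * (δ * N / MM) ≤ (x1 - x0) * (δ * N / MM) :=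
      mul_le_mul_of_nonneg_right (by linarith [ht.2]) (by positivity)
    have h2 : B t ≤ B x1 := by
      simp only [hB]
      linarith
    rw [hBb] at h2
    refine h2.trans ?_
    gcongr
  have hsub : Icc x0 x1 ⊆ Icc (0 : ℝ) 1 := Icc_subset_Icc hx00 hx11
  have hmem : ∀ t ∈ Ico x0 x1, Icc (0 : ℝ) 1 ∈ nhdsWithin t (Ici t) := by
    intro t ht
    refine Filter.mem_of_superset (Icc_mem_nhdsGE (lt_of_lt_of_le ht.2 hx11)) ?_
    exact Icc_subset_Icc_left (hx00.trans ht.1)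
  have hfence := ratio_fence (a := x0) (b := x1) (C := 1600 * (QG : ℝ) / MM)
    (B' := δ * N / MM) (ζ := ζ) (ρ := ρ) (B := B)
    (ζ' := fun τ => 2 * (1 - τ ^ 2) * ((1 - τ ^ 2) * A τ * ρ τ - τ * ζ τ) / ((1 + τ ^ 2) * P τ))
    (ρ' := fun τ => 4 * τ * ((1 - τ ^ 2) * A τ * ρ τ - τ * ζ τ) / ((1 + τ ^ 2) * P τ))
    (fun t ht => (h.dζ t (hsub ht)).continuousWithinAt.mono hsub)
    (fun t ht => (h.dρ t (hsub ht)).continuousWithinAt.mono hsub)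
    (fun t ht => (h.dζ t (hsub (Ico_subset_Icc_self ht))).mono_of_mem_nhdsWithin (hmem t ht))
    (fun t ht => (h.dρ t (hsub (Ico_subset_Icc_self ht))).mono_of_mem_nhdsWithin (hmem t ht))
    (fun t => by
      have h1 : HasDerivAt (fun t => (t - x0) * (δ * N / MM)) (1 * (δ * N / MM)) t :=
        ((hasDerivAt_id t).sub_const x0).mul_const _
      rw [one_mul] at h1
      exact h1.const_add _)
    hρ (by rw [hBa]; exact hζ) ?_ ?_
  · refine ⟨fun τ hτ => (hfence τ hτ).1, ?_⟩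
    have h1 := (hfence x1 ⟨hx01.le, le_rfl⟩).2
    rw [hBb] at h1
    rw [hQn]
    exact h1
  · intro t ht hρt hζt
    have ht' := Ico_subset_Icc_self ht
    have hPt := bP t ht'
    obtain ⟨hA1, hA2⟩ := bA t ht'
    have ht0 : 0 ≤ t := hx00.trans ht.1
    have ht1 : t ≤ 1 := ht.2.le.trans hx11
    have hc0 : 0 ≤ 1 - t ^ 2 := sub_nonneg.2 (pow_le_one₀ ht0 ht1)
    have hcu : 1 - t ^ 2 ≤ 1 - x0 ^ 2 := sub_le_sub_left (pow_le_pow_left₀ hx00 ht.1 2) 1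
    have hcl : 1 - x1 ^ 2 ≤ 1 - t ^ 2 := sub_le_sub_left (pow_le_pow_left₀ ht0 ht.2.le 2) 1
    have hcl0 : 0 ≤ 1 - x1 ^ 2 := sub_nonneg.2 (pow_le_one₀ hx10.le hx11)
    have hB1 := hBl t ht'
    have hB2 := hBu t ht'
    have hB0 : 0 ≤ B t := le_trans (by positivity) hB1
    set E : ℝ := ((1 - t ^ 2) * A t - t * B t) * ((1 - t ^ 2) - 2 * t * B t) with hE
    have hE' : E = A t * (1 - t ^ 2) ^ 2 + 2 * t ^ 2 * B t ^ 2 -
        (1 + 2 * A t) * t * (1 - t ^ 2) * B t := by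
      rw [hE]
      ring
    have hE1 : E ≤ p / MM := by
      have b1 : A t * (1 - t ^ 2) ^ 2 ≤ (au : ℝ) / MM * (1 - x0 ^ 2) ^ 2 := by
        gcongr
      have b2 : 2 * t ^ 2 * B t ^ 2 ≤ 2 * x1 ^ 2 * ((QG : ℝ) / MM) ^ 2 := by
        have := ht.2.le
        gcongr
      have b3 : (1 + 2 * ((al : ℝ) / MM)) * x0 * (1 - x1 ^ 2) * ((Q : ℝ) / MM) ≤
          (1 + 2 * A t) * t * (1 - t ^ 2) * B t := by
        have h1 := ht.1
        have h2 : 0 ≤ (al : ℝ) / MM := by positivity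
        have h3 : 0 ≤ (Q : ℝ) / MM := by positivity
        have h4 : (1 + 2 * ((al : ℝ) / MM)) * x0 ≤ (1 + 2 * A t) * t :=
          mul_le_mul (by linarith) h1 hx00 (by linarith)
        have h5 : 0 ≤ (1 + 2 * A t) * t := mul_nonneg (by linarith) ht0
        have h6 : (1 + 2 * ((al : ℝ) / MM)) * x0 * (1 - x1 ^ 2) ≤
            (1 + 2 * A t) * t * (1 - t ^ 2) := mul_le_mul h4 hcl hcl0 h5
        exact mul_le_mul h6 hB1 h3 (mul_nonneg h5 hc0)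
      have c1 : (au : ℝ) / MM * (1 - x0 ^ 2) ^ 2 ≤ (qP1 N n au : ℝ) / MM := by
        rw [div_mul_eq_mul_div]
        gcongr
      have c2 : 2 * x1 ^ 2 * ((QG : ℝ) / MM) ^ 2 ≤ (qP2 N n QG : ℝ) / MM := by
        have : 2 * x1 ^ 2 * ((QG : ℝ) / MM) ^ 2 = (2 * x1 ^ 2 * (QG : ℝ) ^ 2 / MM) / MM := by
          field_simp
        rw [this]
        gcongr
      have c3 : (qP3 N n al Q : ℝ) / MM ≤
          (1 + 2 * ((al : ℝ) / MM)) * x0 * (1 - x1 ^ 2) * ((Q : ℝ) / MM) := by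
        have : (1 + 2 * ((al : ℝ) / MM)) * x0 * (1 - x1 ^ 2) * ((Q : ℝ) / MM) =
            (((MM : ℝ) + 2 * al) * x0 * (1 - x1 ^ 2) * Q / MM) / MM := by
          field_simp
        rw [this]
        gcongr
      have c4 : ((qP1 N n au : ℝ) + qP2 N n QG - qP3 N n al Q) / MM ≤ (p : ℝ) / MM := by
        gcongr
      rw [hE']
      have c5 : ((qP1 N n au : ℝ) + qP2 N n QG - qP3 N n al Q) / MM =
          (qP1 N n au : ℝ) / MM + (qP2 N n QG : ℝ) / MM - (qP3 N n al Q : ℝ) / MM := by ring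
      linarith
    have hs : 1 + x0 ^ 2 ≤ 1 + t ^ 2 := add_le_add_right (pow_le_pow_left₀ hx00 ht.1 2) 1
    have key : 2 * E / ((1 + t ^ 2) * P t) < δ * N / MM :=
      RatS_alg hM hkl' (Nat.cast_nonneg p) hE1 hs hPt hd hE
    have hPpos : 0 < P t := lt_of_lt_of_le (by positivity) hPt
    have h1 : 2 * (1 - t ^ 2) * ((1 - t ^ 2) * A t * ρ t - t * ζ t) / ((1 + t ^ 2) * P t) -
        B t * (4 * t * ((1 - t ^ 2) * A t * ρ t - t * ζ t) / ((1 + t ^ 2) * P t)) =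
        2 * E / ((1 + t ^ 2) * P t) * ρ t := by
      rw [hζt, hE]
      field_simp
      ring
    have h2 := mul_lt_mul_of_pos_right key hρt
    linarith
  · intro t ht hρt hζt
    have ht' := Ico_subset_Icc_self ht
    have ht0 : 0 ≤ t := hx00.trans ht.1
    have ht1 : t ≤ 1 := ht.2.le.trans hx11
    have hc0 : 0 ≤ 1 - t ^ 2 := sub_nonneg.2 (pow_le_one₀ ht0 ht1)
    have hA := h.hA t (hsub ht')
    have hP := h.hP t (hsub ht')
    have hB2 := hBu t ht'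
    have hPpos : 0 < P t := lt_of_lt_of_le (by norm_num) hP
    have hden : 0 < (1 + t ^ 2) * P t := by positivity
    have h1 : -(t * ((QG : ℝ) / MM) * ρ t) ≤ (1 - t ^ 2) * A t * ρ t - t * ζ t := by
      have h2 : 0 ≤ (1 - t ^ 2) * A t * ρ t := by positivity
      have h3 : t * ζ t ≤ t * (B t * ρ t) := mul_le_mul_of_nonneg_left hζt ht0
      have h4 : t * (B t * ρ t) ≤ t * ((QG : ℝ) / MM * ρ t) := by gcongr
      linarith
    have h5 : 0 ≤ (QG : ℝ) / MM := by positivity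
    have h6 : 4 * t * (-(t * ((QG : ℝ) / MM) * ρ t)) / ((1 + t ^ 2) * P t) ≤
        4 * t * ((1 - t ^ 2) * A t * ρ t - t * ζ t) / ((1 + t ^ 2) * P t) := by
      gcongr
    refine le_trans ?_ h6
    rw [le_div_iff₀ hden]
    have h7 : 0 ≤ (QG : ℝ) / MM * ρ t := mul_nonneg h5 hρt.le
    have h8 : 4 * t ^ 2 ≤ 1600 * ((1 + t ^ 2) * P t) := by
      have h9 : (1 + t ^ 2) * (1 / 400) ≤ (1 + t ^ 2) * P t :=
        mul_le_mul_of_nonneg_left hP (by positivity)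
      linarith
    have h10 := mul_le_mul_of_nonneg_right h8 h7
    have h11 : 4 * t * -(t * ((QG : ℝ) / MM) * ρ t) = -(4 * t ^ 2 * ((QG : ℝ) / MM * ρ t)) := by
      ring
    have h12 : -(1600 * (QG : ℝ) / MM * ρ t) * ((1 + t ^ 2) * P t) =
        -(1600 * ((1 + t ^ 2) * P t) * ((QG : ℝ) / MM * ρ t)) := by
      ring
    rw [h11, h12]
    linarith

/-- bounds of `A = 1/2 + 1/(r₁ r₂)` -/
theorem aUp_ge {RL : ℕ} (hRL : 0 < RL) {r₁ r₂ : ℝ} (h₁ : (RL : ℝ) / MM ≤ r₁)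
    (h₂ : (RL : ℝ) / MM ≤ r₂) : 1 / 2 + 1 / (r₁ * r₂) ≤ (aUp RL : ℝ) / MM := by
  have hM := RatS_MM
  have hRL' : (0 : ℝ) < RL := by exact_mod_cast hRL
  have h1 := RatS_lt_div (MM * MM * MM) (b := RL * RL) (Nat.mul_pos hRL hRL)
  have h2 : (aUp RL : ℝ) = (MM : ℝ) / 2 + 2 + ((MM * MM * MM / (RL * RL) : ℕ) : ℝ) := by
    rw [aUp]
    push_cast
    have : ((MM / 2 : ℕ) : ℝ) = (MM : ℝ) / 2 := by norm_num [MM]
    rw [this]
  have h3 : ((MM * MM * MM : ℕ) : ℝ) / ((RL * RL : ℕ) : ℝ) = (MM : ℝ) * (1 / ((RL : ℝ) / MM * (RL / MM))) := by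
    push_cast
    field_simp
  have h4 : 1 / (r₁ * r₂) ≤ 1 / ((RL : ℝ) / MM * (RL / MM)) := by
    have h5 : 0 < (RL : ℝ) / MM := by positivity
    have h6 : (RL : ℝ) / MM * (RL / MM) ≤ r₁ * r₂ := mul_le_mul h₁ h₂ h5.le (h5.le.trans h₁)
    exact one_div_le_one_div_of_le (mul_pos h5 h5) h6
  rw [le_div_iff₀ hM, h2]
  rw [h3] at h1
  nlinarith [mul_le_mul_of_nonneg_left h4 hM.le]

theorem aLo_le {RU : ℕ} {r₁ r₂ : ℝ} (p₁ : 0 < r₁) (p₂ : 0 < r₂) (h₁ : r₁ ≤ (RU : ℝ) / MM)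
    (h₂ : r₂ ≤ (RU : ℝ) / MM) : (aLo RU : ℝ) / MM ≤ 1 / 2 + 1 / (r₁ * r₂) := by
  have hM := RatS_MM
  have hRU : (0 : ℝ) < RU := by
    have h3 : 0 < (RU : ℝ) / MM := p₁.trans_le h₁
    by_contra hc
    have h4 : (RU : ℝ) ≤ 0 := not_lt.1 hc
    exact absurd h3 (not_lt.2 (div_nonpos_of_nonpos_of_nonneg h4 hM.le))
  have h1 : ((MM * MM * MM / (RU * RU) : ℕ) : ℝ) ≤ ((MM * MM * MM : ℕ) : ℝ) / ((RU * RU : ℕ) : ℝ) :=
    Nat.cast_div_le
  have h2 : (aLo RU : ℝ) = (MM : ℝ) / 2 + ((MM * MM * MM / (RU * RU) : ℕ) : ℝ) := by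
    rw [aLo]
    push_cast
    have : ((MM / 2 : ℕ) : ℝ) = (MM : ℝ) / 2 := by norm_num [MM]
    rw [this]
  have h3 : ((MM * MM * MM : ℕ) : ℝ) / ((RU * RU : ℕ) : ℝ) = (MM : ℝ) * (1 / ((RU : ℝ) / MM * (RU / MM))) := by
    push_cast
    field_simp
  have h4 : 1 / ((RU : ℝ) / MM * (RU / MM)) ≤ 1 / (r₁ * r₂) := by
    have h6 : r₁ * r₂ ≤ (RU : ℝ) / MM * (RU / MM) := mul_le_mul h₁ h₂ p₂.le (p₁.le.trans h₁)
    exact one_div_le_one_div_of_le (mul_pos p₁ p₂) h6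
  rw [div_le_iff₀ hM, h2]
  rw [h3] at h1
  nlinarith [mul_le_mul_of_nonneg_left h4 hM.le]

end AT
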