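import Pool.Agent.H.MP_ce2c94_gt.Uq

/-!
# Symmetries of the profile equation
-/

namespace AT

open Real Set

theorem RedA_comp_sub {f : ℝ → ℝ} {f' κ s : ℝ} (h : HasDerivAt f f' (κ - s)) :
    HasDerivAt (fun s => f (κ - s)) (-f') s := by
  have h1 : HasDerivAt (fun s : ℝ => κ - s) (-1) s := (hasDerivAt_id s).const_sub κ
  have h2 := HasDerivAt.comp s h h1
  have e : -f' = f' * -1 := by ring
  rw [e]
  exact h2

theorem RedA_comp_add {f : ℝ → ℝ} {f' δ s : ℝ} (h : HasDerivAt f f' (s + δ)) :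
    HasDerivAt (fun s => f (s + δ)) f' s := by
  have h1 : HasDerivAt (fun s : ℝ => s + δ) 1 s := (hasDerivAt_id s).add_const δ
  have h2 := HasDerivAt.comp s h h1
  have e : f' = f' * 1 := by ring
  rw [e]
  exact h2

/-- reflection `x ↦ -x` -/
theorem IsProfile.reflect {x r θ : ℝ → ℝ} (h : IsProfile x r θ) :
    IsProfile (fun s => -x s) r (fun s => π - θ s) := by
  refine ⟨h.pos, fun s => ?_, fun s => ?_, fun s => ?_⟩
  · rw [cos_pi_sub]
    exact (h.hx s).neg
  · rw [sin_pi_sub]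
    exact h.hr s
  · have h1 := (h.hθ s).const_sub π
    rw [cos_pi_sub, sin_pi_sub]
    have e : -x s / 2 * sin (θ s) + (1 / r s - r s / 2) * -cos (θ s) =
        -(x s / 2 * sin (θ s) + (1 / r s - r s / 2) * cos (θ s)) := by ring
    rw [e]
    exact h1

/-- reversal of the orientation -/
theorem IsProfile.reverse {x r θ : ℝ → ℝ} (h : IsProfile x r θ) (κ : ℝ) :
    IsProfile (fun s => x (κ - s)) (fun s => r (κ - s)) (fun s => θ (κ - s) + π) := by
  refine ⟨fun s => h.pos _, fun s => ?_, fun s => ?_, fun s => ?_⟩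
  · rw [cos_add_pi]
    exact RedA_comp_sub (h.hx (κ - s))
  · rw [sin_add_pi]
    exact RedA_comp_sub (h.hr (κ - s))
  · have h1 := (RedA_comp_sub (h.hθ (κ - s))).add_const π
    rw [cos_add_pi, sin_add_pi]
    have e : x (κ - s) / 2 * -sin (θ (κ - s)) + (1 / r (κ - s) - r (κ - s) / 2) *
        -cos (θ (κ - s)) = -(x (κ - s) / 2 * sin (θ (κ - s)) +
        (1 / r (κ - s) - r (κ - s) / 2) * cos (θ (κ - s))) := by ring
    rw [e]
    exact h1

theorem IsProfile.reverse' {x r θ : ℝ → ℝ} (h : IsProfile x r θ) (κ : ℝ) :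
    IsProfile (fun s => x (κ - s)) (fun s => r (κ - s)) (fun s => θ (κ - s) - π) := by
  refine ⟨fun s => h.pos _, fun s => ?_, fun s => ?_, fun s => ?_⟩
  · rw [cos_sub_pi]
    exact RedA_comp_sub (h.hx (κ - s))
  · rw [sin_sub_pi]
    exact RedA_comp_sub (h.hr (κ - s))
  · have h1 := (RedA_comp_sub (h.hθ (κ - s))).sub_const π
    rw [cos_sub_pi, sin_sub_pi]
    have e : x (κ - s) / 2 * -sin (θ (κ - s)) + (1 / r (κ - s) - r (κ - s) / 2) *
        -cos (θ (κ - s)) = -(x (κ - s) / 2 * sin (θ (κ - s)) +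
        (1 / r (κ - s) - r (κ - s) / 2) * cos (θ (κ - s))) := by ring
    rw [e]
    exact h1

/-- reflection and reversal -/
theorem IsProfile.flip {x r θ : ℝ → ℝ} (h : IsProfile x r θ) (κ : ℝ) :
    IsProfile (fun s => -x (κ - s)) (fun s => r (κ - s)) (fun s => -θ (κ - s)) := by
  refine ⟨fun s => h.pos _, fun s => ?_, fun s => ?_, fun s => ?_⟩
  · rw [cos_neg]
    have h1 := (RedA_comp_sub (h.hx (κ - s))).neg
    rw [neg_neg] at h1
    exact h1
  · rw [sin_neg]
    exact RedA_comp_sub (h.hr (κ - s))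
  · have h1 := (RedA_comp_sub (h.hθ (κ - s))).neg
    rw [neg_neg] at h1
    rw [cos_neg, sin_neg]
    have e : -x (κ - s) / 2 * -sin (θ (κ - s)) + (1 / r (κ - s) - r (κ - s) / 2) *
        cos (θ (κ - s)) = x (κ - s) / 2 * sin (θ (κ - s)) +
        (1 / r (κ - s) - r (κ - s) / 2) * cos (θ (κ - s)) := by ring
    rw [e]
    exact h1

/-- translation of the parameter and of the angle -/
theorem IsProfile.shift {x r θ : ℝ → ℝ} (h : IsProfile x r θ) (δ : ℝ) (k : ℤ) :
    IsProfile (fun s => x (s + δ)) (fun s => r (s + δ)) (fun s => θ (s + δ) + k * (2 * π)) := by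
  refine ⟨fun s => h.pos _, fun s => ?_, fun s => ?_, fun s => ?_⟩
  · rw [cos_add_int_mul_two_pi]
    exact RedA_comp_add (h.hx (s + δ))
  · rw [sin_add_int_mul_two_pi]
    exact RedA_comp_add (h.hr (s + δ))
  · rw [cos_add_int_mul_two_pi, sin_add_int_mul_two_pi]
    exact (RedA_comp_add (h.hθ (s + δ))).add_const _

/-- uniqueness up to multiples of `2π` -/
theorem profile_unique_mod {x r θ x' r' θ' : ℝ → ℝ} (h : IsProfile x r θ)
    (h' : IsProfile x' r' θ') (s₀ : ℝ) (hx : x s₀ = x' s₀) (hr : r s₀ = r' s₀)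
    (hc : cos (θ s₀) = cos (θ' s₀)) (hs : sin (θ s₀) = sin (θ' s₀)) :
    x = x' ∧ r = r' ∧ ∃ k : ℤ, ∀ s, θ s = θ' s + k * (2 * π) := by
  have h1 : (↑(θ s₀) : Real.Angle) = ↑(θ' s₀) := Real.Angle.cos_sin_inj hc hs
  rw [Real.Angle.angle_eq_iff_two_pi_dvd_sub] at h1
  obtain ⟨k, hk⟩ := h1
  have h2 := h'.shift 0 k
  have e : θ s₀ = θ' (s₀ + 0) + k * (2 * π) := by
    rw [add_zero]
    linarith
  obtain ⟨u1, u2, u3⟩ := profile_unique h h2 s₀ (by rw [add_zero]; exact hx)
    (by rw [add_zero]; exact hr) e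
  refine ⟨?_, ?_, k, fun s => ?_⟩
  · rw [u1]
    funext s
    rw [add_zero]
  · rw [u2]
    funext s
    rw [add_zero]
  · have := congrFun u3 s
    rw [this, add_zero]

/-- a closed simple profile -/
structure Loop (x r θ : ℝ → ℝ) (L : ℝ) : Prop where
  prof : IsProfile x r θ
  Lpos : 0 < L
  px : ∀ s, x (s + L) = x s
  pr : ∀ s, r (s + L) = r s
  inj : ∀ s s', x s = x s' → r s = r s' → ∃ k : ℤ, s' = s + k * L

theorem RedA_per {f : ℝ → ℝ} {L : ℝ} (h : ∀ s, f (s + L) = f s) (k : ℤ) (s : ℝ) :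
    f (s + k * L) = f s := by
  have hp : Function.Periodic f L := h
  exact (hp.int_mul k) s

/-- (reduce `s`, `s'` to `[0, L)` by multiples of `L`) -/
theorem loop_of_torus {C : Set (ℝ × ℝ)} (hC : IsTorusCurve C) :
    ∃ (x r θ : ℝ → ℝ) (L : ℝ), Loop x r θ L ∧ C = range (fun s => (x s, r s)) := by
  obtain ⟨x, r, θ, L, hL, hp, px, pr, hi, hC⟩ := hC
  refine ⟨x, r, θ, L, ⟨hp, hL, px, pr, ?_⟩, hC⟩
  have red : ∀ s : ℝ, ∃ k : ℤ, s + k * L ∈ Ico 0 L := by
    intro s
    refine ⟨-⌊s / L⌋, ?_⟩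
    have a1 : (⌊s / L⌋ : ℝ) ≤ s / L := Int.floor_le _
    have a2 : s / L < ⌊s / L⌋ + 1 := Int.lt_floor_add_one _
    rw [le_div_iff₀ hL] at a1
    rw [div_lt_iff₀ hL] at a2
    rw [Int.cast_neg]
    constructor
    · linarith
    · linarith
  intro s s' hx hr
  obtain ⟨k, hk⟩ := red s
  obtain ⟨k', hk'⟩ := red s'
  have e := hi hk hk' (by
    simp only
    rw [RedA_per px, RedA_per px, RedA_per pr, RedA_per pr, hx, hr])
  refine ⟨k - k', ?_⟩
  rw [Int.cast_sub]
  linarith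

/-- the tangent direction is periodic (differentiate `px`, `pr`) -/
theorem Loop.pcos {x r θ : ℝ → ℝ} {L : ℝ} (h : Loop x r θ L) (s : ℝ) :
    cos (θ (s + L)) = cos (θ s) ∧ sin (θ (s + L)) = sin (θ s) := by
  constructor
  · have h1 := RedA_comp_add (h.prof.hx (s + L))
    have e : (fun s => x (s + L)) = x := funext h.px
    rw [e] at h1
    exact h1.unique (h.prof.hx s)
  · have h1 := RedA_comp_add (h.prof.hr (s + L))
    have e : (fun s => r (s + L)) = r := funext h.pr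
    rw [e] at h1
    exact h1.unique (h.prof.hr s)

/-- `x` does not vanish identically: otherwise `cos θ = 0`, so `θ' = 0`, `sin θ = ±1` is constant
and `r` is not periodic -/
theorem Loop.not_zero {x r θ : ℝ → ℝ} {L : ℝ} (h : Loop x r θ L) : ∃ s, x s ≠ 0 := by
  by_contra hc
  push Not at hc
  have e0 : x = fun _ => (0 : ℝ) := funext hc
  have c0 : ∀ s, cos (θ s) = 0 := by
    intro s
    have h1 := h.prof.hx s
    rw [e0] at h1
    exact h1.unique (hasDerivAt_const s (0 : ℝ))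
  have t0 : ∀ s, HasDerivAt θ 0 s := by
    intro s
    have h1 := h.prof.hθ s
    rw [c0 s, hc s] at h1
    have e : (0 : ℝ) / 2 * sin (θ s) + (1 / r s - r s / 2) * 0 = 0 := by ring
    rw [e] at h1
    exact h1
  have tc : ∀ s, θ s = θ 0 := by
    intro s
    exact is_const_of_deriv_eq_zero (fun s => (t0 s).differentiableAt) (fun s => (t0 s).deriv) s 0
  have r1 : ∀ s, HasDerivAt (fun s => r s - sin (θ 0) * s) 0 s := by
    intro s
    have h1 := h.prof.hr s
    rw [tc s] at h1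
    have h2 := h1.sub ((hasDerivAt_id s).const_mul (sin (θ 0)))
    have e : sin (θ 0) - sin (θ 0) * 1 = 0 := by ring
    rw [e] at h2
    exact h2
  have r2 : r L - sin (θ 0) * L = r 0 - sin (θ 0) * 0 :=
    is_const_of_deriv_eq_zero (fun s => (r1 s).differentiableAt) (fun s => (r1 s).deriv) L 0
  have r3 := h.pr 0
  rw [zero_add] at r3
  have r4 : sin (θ 0) * L = 0 := by linarith
  have r5 : sin (θ 0) = 0 := by
    rcases mul_eq_zero.mp r4 with h5 | h5
    · exact h5
    · exact absurd h5 h.Lpos.ne'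
  have r6 := sin_sq_add_cos_sq (θ 0)
  rw [r5, c0 0] at r6
  norm_num at r6

/-- shifts and reversals of loops -/
theorem Loop.shift {x r θ : ℝ → ℝ} {L : ℝ} (h : Loop x r θ L) (δ : ℝ) (k : ℤ) :
    Loop (fun s => x (s + δ)) (fun s => r (s + δ)) (fun s => θ (s + δ) + k * (2 * π)) L := by
  refine ⟨h.prof.shift δ k, h.Lpos, fun s => ?_, fun s => ?_, ?_⟩
  · have e : s + L + δ = s + δ + L := by ring
    rw [e, h.px]
  · have e : s + L + δ = s + δ + L := by ring
    rw [e, h.pr]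
  · intro s s' hx hr
    obtain ⟨m, hm⟩ := h.inj (s + δ) (s' + δ) hx hr
    exact ⟨m, by linarith⟩

theorem Loop.reverse {x r θ : ℝ → ℝ} {L : ℝ} (h : Loop x r θ L) (κ : ℝ) :
    Loop (fun s => x (κ - s)) (fun s => r (κ - s)) (fun s => θ (κ - s) + π) L := by
  refine ⟨h.prof.reverse κ, h.Lpos, fun s => ?_, fun s => ?_, ?_⟩
  · have e : κ - (s + L) + L = κ - s := by ring
    rw [← h.px (κ - (s + L)), e]
  · have e : κ - (s + L) + L = κ - s := by ring
    rw [← h.pr (κ - (s + L)), e]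
  · intro s s' hx hr
    obtain ⟨m, hm⟩ := h.inj (κ - s) (κ - s') hx hr
    refine ⟨-m, ?_⟩
    rw [Int.cast_neg]
    linarith

end AT
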