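import Pool.Agent.H.MP_ce2c94_gt.RedA

/-!
# A horizontal crossing of the axis `x = 0`
-/

namespace AT

open Real Set

theorem RedB_cont {x r θ : ℝ → ℝ} (h : IsProfile x r θ) : Continuous x :=
  continuous_iff_continuousAt.2 fun s => (h.hx s).continuousAt

/-- a periodic continuous function has a global maximum -/
theorem RedB_max {x : ℝ → ℝ} {L : ℝ} (cx : Continuous x) (hL : 0 < L) (hp : ∀ s, x (s + L) = x s) :
    ∃ s₁, ∀ s, x s ≤ x s₁ := by
  obtain ⟨s₁, _, hmax⟩ := isCompact_Icc.exists_isMaxOn (nonempty_Icc.2 hL.le)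
    (cx.continuousOn (s := Icc 0 L))
  refine ⟨s₁, fun s => ?_⟩
  have hper : Function.Periodic x L := hp
  obtain ⟨y, hy, hxy⟩ := hper.exists_mem_Ico₀ hL s
  rw [hxy]
  exact hmax (Ico_subset_Icc_self hy)

theorem RedB_shift_int {x : ℝ → ℝ} {L : ℝ} (hp : ∀ s, x (s + L) = x s) (k : ℤ) (s : ℝ) :
    x (s + k * L) = x s := by
  have hper : Function.Periodic x L := hp
  exact hper.int_mul k s

/-- There is a parameter `s₀` with `x s₀ = 0` and `sin (θ s₀) = 0`.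
Proof. `x` is continuous and periodic, let `s₁` be a global maximum of `x`; `cos (θ s₁) = 0`. By
symmetry `(-x s₁, r s₁) = (x s₂, r s₂)` for some `s₂`, and `s₂` is a global minimum of `x`
(for each `s`, `-x s = x s'` for some `s'`, so `-x s ≤ x s₁`); `cos (θ s₂) = 0`. So
`sin (θ s₁), sin (θ s₂) ∈ {1, -1}`.
Case 1, `sin (θ s₁) = sin (θ s₂)`: the reflected profile `(-x, r, π - θ)` shifted by `s₁ - s₂`
agrees with `(x, r, θ)` at `s₂`, so with `δ = s₂ - s₁`: `x (s + δ) = -x s`, `r (s + δ) = r s`.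
`x` takes the values `x s₁ ≥ 0 ≥ x s₂ = -x s₁` (`x s₁ ≥ -x s₁`), so it has a zero `z`, and
`x (z + δ) = 0 = x z`, `r (z + δ) = r z`, so `δ = k L` by injectivity, `x s = x (s + δ) = -x s` for
all `s`, contradicting `Loop.not_zero`.
Case 2, `sin (θ s₁) = -sin (θ s₂)`: `h.flip κ` with `κ = s₁ + s₂` agrees with `(x, r, θ)` at `s₂`
(mod `2π`), so `x s = -x (κ - s)`, `r s = r (κ - s)` for all `s`; at `s₀ = κ/2` we get
`x s₀ = 0` and (differentiating `r`) `sin (θ s₀) = -sin (θ s₀)`. -/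
theorem Loop.crossing {x r θ : ℝ → ℝ} {L : ℝ} (h : Loop x r θ L)
    (hs : IsSym (range (fun s => (x s, r s)))) : ∃ s₀, x s₀ = 0 ∧ sin (θ s₀) = 0 := by
  have cx := RedB_cont h.prof
  obtain ⟨s₁, h1⟩ := RedB_max cx h.Lpos h.px
  have hsym : ∀ s, ∃ s', x s' = -x s ∧ r s' = r s := by
    intro s
    obtain ⟨s', hs'⟩ := hs (x s, r s) ⟨s, rfl⟩
    simp only [Prod.mk.injEq] at hs'
    exact ⟨s', hs'.1, hs'.2⟩
  obtain ⟨s₂, h2x, h2r⟩ := hsym s₁
  have h2 : ∀ s, x s₂ ≤ x s := by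
    intro s
    obtain ⟨s', hs', _⟩ := hsym s
    have := h1 s'
    linarith
  have c1 : cos (θ s₁) = 0 := by
    have hm : IsLocalMax x s₁ := Filter.Eventually.of_forall h1
    exact hm.hasDerivAt_eq_zero (h.prof.hx s₁)
  have c2 : cos (θ s₂) = 0 := by
    have hm : IsLocalMin x s₂ := Filter.Eventually.of_forall h2
    exact hm.hasDerivAt_eq_zero (h.prof.hx s₂)
  have hsq : sin (θ s₁) ^ 2 = sin (θ s₂) ^ 2 := by
    have e1 := sin_sq_add_cos_sq (θ s₁)
    have e2 := sin_sq_add_cos_sq (θ s₂)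
    rw [c1] at e1
    rw [c2] at e2
    linarith
  rcases sq_eq_sq_iff_eq_or_eq_neg.1 hsq with hc | hc
  · exfalso
    obtain ⟨hx, hr, _⟩ := profile_unique_mod h.prof (h.prof.reflect.shift (s₁ - s₂) 0) s₂
      (by
        show x s₂ = -x (s₂ + (s₁ - s₂))
        rw [add_sub_cancel, h2x])
      (by
        show r s₂ = r (s₂ + (s₁ - s₂))
        rw [add_sub_cancel, h2r])
      (by
        show cos (θ s₂) = cos (π - θ (s₂ + (s₁ - s₂)) + ((0 : ℤ) : ℝ) * (2 * π))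
        rw [add_sub_cancel, Int.cast_zero, zero_mul, add_zero, cos_pi_sub, c1, c2, neg_zero])
      (by
        show sin (θ s₂) = sin (π - θ (s₂ + (s₁ - s₂)) + ((0 : ℤ) : ℝ) * (2 * π))
        rw [add_sub_cancel, Int.cast_zero, zero_mul, add_zero, sin_pi_sub, hc])
    have hx' : ∀ s, x s = -x (s + (s₁ - s₂)) := fun s => congrFun hx s
    have hr' : ∀ s, r s = r (s + (s₁ - s₂)) := fun s => congrFun hr s
    have hz : (0 : ℝ) ∈ range x :=
      mem_range_of_exists_le_of_exists_ge cx ⟨s₂, by have := h1 s₂; linarith⟩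
        ⟨s₁, by have := h1 s₂; linarith⟩
    obtain ⟨z, hz⟩ := hz
    have e1 : x z = x (z + (s₁ - s₂)) := by
      have := hx' z
      linarith
    obtain ⟨k, hk⟩ := h.inj z (z + (s₁ - s₂)) e1 (hr' z)
    have hδ : s₁ - s₂ = k * L := by linarith
    obtain ⟨s, hs0⟩ := h.not_zero
    apply hs0
    have e2 := hx' s
    rw [hδ, RedB_shift_int h.px] at e2
    linarith
  · obtain ⟨hx, hr, k, hθ⟩ := profile_unique_mod h.prof (h.prof.flip (s₁ + s₂)) s₂
      (by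
        show x s₂ = -x (s₁ + s₂ - s₂)
        rw [add_sub_cancel_right, h2x])
      (by
        show r s₂ = r (s₁ + s₂ - s₂)
        rw [add_sub_cancel_right, h2r])
      (by
        show cos (θ s₂) = cos (-θ (s₁ + s₂ - s₂))
        rw [add_sub_cancel_right, cos_neg, c1, c2])
      (by
        show sin (θ s₂) = sin (-θ (s₁ + s₂ - s₂))
        rw [add_sub_cancel_right, sin_neg, hc, neg_neg])
    refine ⟨(s₁ + s₂) / 2, ?_, ?_⟩
    · have e1 : x ((s₁ + s₂) / 2) = -x (s₁ + s₂ - (s₁ + s₂) / 2) := congrFun hx _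
      rw [show s₁ + s₂ - (s₁ + s₂) / 2 = (s₁ + s₂) / 2 by ring] at e1
      linarith
    · have e1 : θ ((s₁ + s₂) / 2) = -θ (s₁ + s₂ - (s₁ + s₂) / 2) + k * (2 * π) := hθ _
      rw [show s₁ + s₂ - (s₁ + s₂) / 2 = (s₁ + s₂) / 2 by ring] at e1
      have e2 : sin (θ ((s₁ + s₂) / 2)) = sin (-θ ((s₁ + s₂) / 2)) := by
        conv_lhs => rw [e1]
        exact sin_add_int_mul_two_pi _ k
      rw [sin_neg] at e2
      linarith

theorem RedB_norm {C : Set (ℝ × ℝ)} {x r θ : ℝ → ℝ} {L : ℝ} (h : Loop x r θ L)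
    (hC : C = range (fun s => (x s, r s))) {s₀ : ℝ} (h0 : x s₀ = 0) (h1 : cos (θ s₀) = 1) :
    ∃ (x r θ : ℝ → ℝ) (L : ℝ), Loop x r θ L ∧ C = range (fun s => (x s, r s)) ∧ x 0 = 0 ∧
      θ 0 = 0 := by
  obtain ⟨k, hk⟩ := (cos_eq_one_iff _).1 h1
  refine ⟨_, _, _, L, h.shift s₀ (-k), ?_, ?_, ?_⟩
  · rw [hC]
    ext p
    constructor
    · rintro ⟨s, rfl⟩
      exact ⟨s - s₀, by simp⟩
    · rintro ⟨s, rfl⟩
      exact ⟨s + s₀, rfl⟩
  · show x (0 + s₀) = 0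
    rw [zero_add, h0]
  · show θ (0 + s₀) + ((-k : ℤ) : ℝ) * (2 * π) = 0
    rw [zero_add, ← hk]
    push_cast
    ring

/-- Normalisation: `x 0 = 0`, `θ 0 = 0` (shift to `s₀`; if `cos (θ s₀) = -1` reverse; subtract a
multiple of `2π`). -/
theorem normal_loop {C : Set (ℝ × ℝ)} (hC : IsTorusCurve C) (hs : IsSym C) :
    ∃ (x r θ : ℝ → ℝ) (L : ℝ), Loop x r θ L ∧ C = range (fun s => (x s, r s)) ∧ x 0 = 0 ∧
      θ 0 = 0 := by
  obtain ⟨x, r, θ, L, h, hCr⟩ := loop_of_torus hC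
  obtain ⟨s₀, h0, h1⟩ := h.crossing (hCr ▸ hs)
  have h2 : cos (θ s₀) ^ 2 = 1 := by
    have := sin_sq_add_cos_sq (θ s₀)
    rw [h1] at this
    linarith
  have h2' : cos (θ s₀) = 1 ∨ cos (θ s₀) = -1 := by
    have h4 : (cos (θ s₀) - 1) * (cos (θ s₀) + 1) = 0 := by
      linear_combination h2
    rcases mul_eq_zero.1 h4 with h5 | h5
    · left; linarith
    · right; linarith
  rcases h2' with h3 | h3
  · exact RedB_norm h hCr h0 h3
  · refine RedB_norm (h.reverse s₀) (C := C) (s₀ := 0) ?_ ?_ ?_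
    · rw [hCr]
      ext p
      constructor
      · rintro ⟨s, rfl⟩
        exact ⟨s₀ - s, by simp⟩
      · rintro ⟨s, rfl⟩
        exact ⟨s₀ - s, rfl⟩
    · show x (s₀ - 0) = 0
      rw [sub_zero, h0]
    · show cos (θ (s₀ - 0) + π) = 1
      rw [sub_zero, cos_add_pi, h3, neg_neg]

end AT
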