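import Pool.Agent.H.MP_ce2c94_gt.RedA

/-!
# The right half of a normalised loop
-/

namespace AT

open Real Set

theorem RedC_cont {x r θ : ℝ → ℝ} (h : IsProfile x r θ) : Continuous x ∧ Continuous θ :=
  ⟨continuous_iff_continuousAt.2 fun s => (h.hx s).continuousAt,
    continuous_iff_continuousAt.2 fun s => (h.hθ s).continuousAt⟩

/-- sign of a function near a zero with negative derivative -/
theorem RedC_neg {f : ℝ → ℝ} {Q d : ℝ} (hf : HasDerivAt f d Q) (hd : d < 0) (h0 : f Q = 0) :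
    ∃ δ > 0, (∀ s ∈ Ioo (Q - δ) Q, 0 < f s) ∧ ∀ s ∈ Ioo Q (Q + δ), f s < 0 := by
  have h1 := hf.tendsto_slope
  have h2 : ∀ᶠ s in nhdsWithin Q {Q}ᶜ, slope f Q s < 0 := h1.eventually (gt_mem_nhds hd)
  rw [eventually_nhdsWithin_iff, Metric.eventually_nhds_iff] at h2
  obtain ⟨δ, hδ, h3⟩ := h2
  refine ⟨δ, hδ, fun s hs => ?_, fun s hs => ?_⟩
  · have h4 := h3 (y := s) (by rw [Real.dist_eq, abs_lt]; constructor <;> linarith [hs.1, hs.2])
      (ne_of_lt hs.2)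
    rw [slope_def_field, h0, sub_zero] at h4
    have h5 : s - Q < 0 := by linarith [hs.2]
    by_contra h6
    rw [not_lt] at h6
    have : 0 ≤ f s / (s - Q) := div_nonneg_of_nonpos h6 h5.le
    linarith
  · have h4 := h3 (y := s) (by rw [Real.dist_eq, abs_lt]; constructor <;> linarith [hs.1, hs.2])
      (ne_of_gt hs.1)
    rw [slope_def_field, h0, sub_zero] at h4
    have h5 : 0 < s - Q := by linarith [hs.1]
    by_contra h6
    rw [not_lt] at h6
    have : 0 ≤ f s / (s - Q) := div_nonneg h6 h5.le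
    linarith

/-- Oddness: `h.prof.flip 0` agrees with `(x, r, θ)` at `0`. -/
theorem Loop.odd {x r θ : ℝ → ℝ} {L : ℝ} (h : Loop x r θ L) (hx : x 0 = 0) (hθ : θ 0 = 0) :
    ∀ s, x (-s) = -x s ∧ r (-s) = r s ∧ θ (-s) = -θ s := by
  have h1 := profile_unique h.prof (h.prof.flip 0) 0 (by simp [hx]) (by simp) (by simp [hθ])
  obtain ⟨a, b, c⟩ := h1
  intro s
  have a1 := congrFun a s
  have b1 := congrFun b s
  have c1 := congrFun c s
  simp only [zero_sub] at a1 b1 c1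
  exact ⟨by rw [a1, neg_neg], b1.symm, by rw [c1, neg_neg]⟩

/-- At the half period: `x (L/2) = -x (-L/2) = -x (L/2)`; `r (L/2 + s) = r (L/2 - s)`, so
`sin (θ (L/2)) = 0`. -/
theorem Loop.half {x r θ : ℝ → ℝ} {L : ℝ} (h : Loop x r θ L) (hx : x 0 = 0) (hθ : θ 0 = 0) :
    x (L / 2) = 0 ∧ sin (θ (L / 2)) = 0 := by
  obtain ⟨a, b, c⟩ := h.odd hx hθ (L / 2)
  have e : -(L / 2) + L = L / 2 := by ring
  have h1 := h.px (-(L / 2))
  have h2 := (h.pcos (-(L / 2))).2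
  rw [e] at h1 h2
  rw [c, sin_neg] at h2
  constructor
  · linarith
  · linarith

theorem RedC_ne {x r θ : ℝ → ℝ} {L : ℝ} (h : Loop x r θ L) (hx : x 0 = 0) (hθ : θ 0 = 0) :
    ∀ s ∈ Ioo 0 (L / 2), x s ≠ 0 := by
  intro s hs h0
  obtain ⟨a, b, c⟩ := h.odd hx hθ s
  obtain ⟨k, hk⟩ := h.inj (-s) s (by rw [a, h0, neg_zero]) b
  have hL := h.Lpos
  have h1 : (k : ℝ) * L = 2 * s := by linarith
  have h2 : 0 < (k : ℝ) := by
    by_contra h3
    rw [not_lt] at h3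
    have := mul_nonpos_of_nonpos_of_nonneg h3 hL.le
    linarith [hs.1]
  have h3 : (k : ℝ) < 1 := by
    by_contra h4
    rw [not_lt] at h4
    have := mul_le_mul_of_nonneg_right h4 hL.le
    linarith [hs.2]
  have h4 : (0 : ℤ) < k := by exact_mod_cast h2
  have h5 : k < (1 : ℤ) := by exact_mod_cast h3
  omega

/-- `x > 0` on `(0, L/2)`: a zero `s` gives `(x (-s), r (-s)) = (x s, r s)`, so `2 s = k L`,
impossible for `0 < s < L/2`; `x' 0 = 1 > 0` gives the sign. -/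
theorem Loop.pos {x r θ : ℝ → ℝ} {L : ℝ} (h : Loop x r θ L) (hx : x 0 = 0) (hθ : θ 0 = 0) :
    ∀ s ∈ Ioo 0 (L / 2), 0 < x s := by
  intro s hs
  have hL := h.Lpos
  have d0 : HasDerivAt (fun s => -x s) (-(cos (θ 0))) 0 := (h.prof.hx 0).neg
  obtain ⟨δ, hδ, -, h2⟩ := RedC_neg d0 (by rw [hθ, cos_zero]; norm_num) (by rw [hx, neg_zero])
  by_contra hneg
  rw [not_lt] at hneg
  set u := min (δ / 2) (s / 2) with hu
  have hu0 : 0 < u := lt_min (by linarith) (by linarith [hs.1])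
  have hu1 : u ≤ δ / 2 := min_le_left _ _
  have hu2 : u ≤ s / 2 := min_le_right _ _
  have h3 : 0 < x u := by
    have := h2 u ⟨hu0, by linarith⟩
    linarith
  have cx : Continuous x := (RedC_cont h.prof).1
  obtain ⟨v, hv, hv0⟩ := intermediate_value_Icc' (by linarith [hs.1] : u ≤ s) cx.continuousOn
    (⟨hneg, h3.le⟩ : (0 : ℝ) ∈ Icc (x s) (x u))
  exact RedC_ne h hx hθ v ⟨by linarith [hv.1], by linarith [hv.2, hs.2]⟩ hv0

/-- The unique critical point of `x` on `(0, L/2)`. By Rolle there is a zero of `cos θ` in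
`(0, L/2)`; let `P` be the first one (`cos θ > 0` on `[0, P)`). At any zero `s ∈ (0, L/2)` of
`cos θ` the derivative of `cos θ` is `-sin² θ x/2 = -x s/2 < 0`. So `cos θ < 0` just after `P`, and
a next zero in `(P, L/2)` would have derivative `≥ 0`, a contradiction; at `L/2`
`sin θ = 0`, so `cos θ ≠ 0`. -/
theorem Loop.crit {x r θ : ℝ → ℝ} {L : ℝ} (h : Loop x r θ L) (hx : x 0 = 0) (hθ : θ 0 = 0) :
    ∃ P, 0 < P ∧ P < L / 2 ∧ (∀ s ∈ Ico 0 P, 0 < cos (θ s)) ∧ cos (θ P) = 0 ∧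
      ∀ s ∈ Ioc P (L / 2), cos (θ s) < 0 := by
  have hL := h.Lpos
  have hL2 : 0 < L / 2 := by linarith
  obtain ⟨cx, cθ⟩ := RedC_cont h.prof
  have cf : Continuous fun s => cos (θ s) := continuous_cos.comp cθ
  obtain ⟨hh1, hh2⟩ := h.half hx hθ
  obtain ⟨c, hc, hc0⟩ := exists_hasDerivAt_eq_zero (f := x) (f' := fun s => cos (θ s)) hL2
    cx.continuousOn (by rw [hx, hh1]) (fun s _ => h.prof.hx s)
  have key : ∀ s ∈ Ioo 0 (L / 2), cos (θ s) = 0 → ∃ δ > 0,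
      (∀ u ∈ Ioo (s - δ) s, 0 < cos (θ u)) ∧ ∀ u ∈ Ioo s (s + δ), cos (θ u) < 0 := by
    intro s hs h0
    have d := (h.prof.hθ s).cos
    refine RedC_neg d ?_ h0
    have h1 : sin (θ s) ^ 2 = 1 := by
      have := sin_sq_add_cos_sq (θ s)
      rw [h0] at this
      linarith
    have h2 := h.pos hx hθ s hs
    have e : -sin (θ s) * (x s / 2 * sin (θ s) + (1 / r s - r s / 2) * cos (θ s)) =
        -(x s / 2) * sin (θ s) ^ 2 := by
      rw [h0]
      ring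
    rw [e, h1]
    linarith
  -- first zero
  set Z : Set ℝ := Icc 0 c ∩ (fun s => cos (θ s)) ⁻¹' {0} with hZ
  have hZc : IsClosed Z := isClosed_Icc.inter (isClosed_singleton.preimage cf)
  have hZne : Z.Nonempty := ⟨c, ⟨hc.1.le, le_rfl⟩, hc0⟩
  have hZb : BddBelow Z := ⟨0, fun s hs => hs.1.1⟩
  set P := sInf Z with hP
  have hPZ : P ∈ Z := hZc.csInf_mem hZne hZb
  have hP0 : cos (θ P) = 0 := hPZ.2
  have hPpos : 0 < P := by
    rcases eq_or_lt_of_le hPZ.1.1 with h1 | h1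
    · rw [← h1, hθ, cos_zero] at hP0
      norm_num at hP0
    · exact h1
  have hPL : P < L / 2 := lt_of_le_of_lt hPZ.1.2 hc.2
  have hbefore : ∀ s ∈ Ico 0 P, 0 < cos (θ s) := by
    intro s hs
    by_contra hneg
    rw [not_lt] at hneg
    obtain ⟨v, hv, hv0⟩ := intermediate_value_Icc' hs.1 cf.continuousOn
      (⟨hneg, by simp [hθ]⟩ : (0 : ℝ) ∈ Icc (cos (θ s)) (cos (θ 0)))
    have h1 : v ∈ Z := ⟨⟨hv.1, by linarith [hv.2, hs.2, hPZ.1.2]⟩, hv0⟩
    have h2 : P ≤ v := csInf_le hZb h1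
    linarith [hv.2, hs.2]
  refine ⟨P, hPpos, hPL, hbefore, hP0, ?_⟩
  intro s hs
  by_contra hneg
  rw [not_lt] at hneg
  obtain ⟨δ, hδ, -, h2⟩ := key P ⟨hPpos, hPL⟩ hP0
  set a := P + min (δ / 2) ((s - P) / 2) with ha
  have hm : 0 < min (δ / 2) ((s - P) / 2) := lt_min (by linarith) (by linarith [hs.1])
  have hm1 : min (δ / 2) ((s - P) / 2) ≤ δ / 2 := min_le_left _ _
  have hm2 : min (δ / 2) ((s - P) / 2) ≤ (s - P) / 2 := min_le_right _ _
  have hfa : cos (θ a) < 0 := h2 a ⟨by linarith, by linarith⟩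
  have has : a < s := by linarith [hs.1]
  set Y : Set ℝ := Icc a s ∩ (fun s => cos (θ s)) ⁻¹' Ici 0 with hY
  have hYc : IsClosed Y := isClosed_Icc.inter (isClosed_Ici.preimage cf)
  have hYne : Y.Nonempty := ⟨s, ⟨has.le, le_rfl⟩, hneg⟩
  have hYb : BddBelow Y := ⟨a, fun s hs => hs.1.1⟩
  set Q := sInf Y with hQ
  have hQY : Q ∈ Y := hYc.csInf_mem hYne hYb
  have hQ1 : 0 ≤ cos (θ Q) := hQY.2
  have haQ : a < Q := by
    rcases eq_or_lt_of_le hQY.1.1 with h1 | h1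
    · rw [← h1] at hQ1
      linarith
    · exact h1
  have hlt : ∀ u ∈ Ico a Q, cos (θ u) < 0 := by
    intro u hu
    by_contra h3
    rw [not_lt] at h3
    have h4 : u ∈ Y := ⟨⟨hu.1, by linarith [hu.2, hQY.1.2]⟩, h3⟩
    have h5 : Q ≤ u := csInf_le hYb h4
    linarith [hu.2]
  have hQ0 : cos (θ Q) = 0 := by
    apply le_antisymm _ hQ1
    obtain ⟨v, hv, hv0⟩ := intermediate_value_Icc haQ.le cf.continuousOn
      (⟨hfa.le, hQ1⟩ : (0 : ℝ) ∈ Icc (cos (θ a)) (cos (θ Q)))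
    have h6 : ¬ v < Q := by
      intro h7
      have := hlt v ⟨hv.1, h7⟩
      simp only at hv0
      linarith
    have h8 : v = Q := le_antisymm hv.2 (not_lt.1 h6)
    rw [← h8]
    exact hv0.le
  rcases eq_or_lt_of_le (hQY.1.2.trans hs.2) with h9 | h9
  · rw [h9] at hQ0
    have := sin_sq_add_cos_sq (θ (L / 2))
    rw [hQ0, hh2] at this
    norm_num at this
  · obtain ⟨η, hη, h10, -⟩ := key Q ⟨by linarith, h9⟩ hQ0
    have h11 := h10 (max a (Q - η / 2)) ⟨by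
      have := le_max_right a (Q - η / 2)
      linarith, max_lt haQ (by linarith)⟩
    have h12 := hlt (max a (Q - η / 2)) ⟨le_max_left _ _, max_lt haQ (by linarith)⟩
    linarith

/-- the branch of the angle after a vertical tangent -/
theorem RedC_branch {φ : ℝ → ℝ} {P b : ℝ} (cφ : Continuous φ) (hP : φ P = π / 2)
    (h3 : ∀ s ∈ Ioc P b, cos (φ s) < 0) : ∀ s ∈ Ioc P b, π / 2 < φ s ∧ φ s < 3 * π / 2 := by
  intro s hs
  have hpi := pi_pos
  constructor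
  · by_contra h4
    rw [not_lt] at h4
    have h5 : φ s < 0 := by
      by_contra h6
      rw [not_lt] at h6
      have := cos_nonneg_of_mem_Icc (⟨by linarith, h4⟩ : φ s ∈ Icc (-(π / 2)) (π / 2))
      linarith [h3 s hs]
    obtain ⟨v, hv, hv0⟩ := intermediate_value_Icc' hs.1.le cφ.continuousOn
      (⟨h5.le, by rw [hP]; positivity⟩ : (0 : ℝ) ∈ Icc (φ s) (φ P))
    have hvP : P < v := by
      rcases eq_or_lt_of_le hv.1 with h7 | h7
      · rw [← h7, hP] at hv0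
        linarith
      · exact h7
    have := h3 v ⟨hvP, hv.2.trans hs.2⟩
    rw [hv0, cos_zero] at this
    linarith
  · by_contra h4
    rw [not_lt] at h4
    obtain ⟨v, hv, hv0⟩ := intermediate_value_Icc hs.1.le cφ.continuousOn
      (⟨by rw [hP]; linarith, h4⟩ : (3 * π / 2 : ℝ) ∈ Icc (φ P) (φ s))
    have hvP : P < v := by
      rcases eq_or_lt_of_le hv.1 with h7 | h7
      · rw [← h7, hP] at hv0
        linarith
      · exact h7
    have := h3 v ⟨hvP, hv.2.trans hs.2⟩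
    have e : (3 * π / 2 : ℝ) = π / 2 + π := by ring
    rw [hv0, e, cos_add_pi, cos_pi_div_two] at this
    linarith

theorem RedC_end {t : ℝ} (h1 : π / 2 < t) (h2 : t < 3 * π / 2) (h3 : sin t = 0) : t = π := by
  have h4 : sin (t - π) = 0 := by rw [sin_sub_pi, h3, neg_zero]
  have h5 := (sin_eq_zero_iff_of_lt_of_lt (by linarith [pi_pos]) (by linarith [pi_pos])).1 h4
  linarith

/-- The angle: `θ` continuous, `θ 0 = 0`, so `|θ| < π/2` on `[0, P)`, `θ P = ±π/2`; and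
`π/2 < |θ| < 3π/2` on `(P, L/2]`, `θ (L/2) = ±π` with the same sign (`sin (θ (L/2)) = 0`). -/
theorem Loop.angle {x r θ : ℝ → ℝ} {L P : ℝ} (h : Loop x r θ L) (hx : x 0 = 0) (hθ : θ 0 = 0)
    (hP : 0 < P) (hP' : P < L / 2) (h1 : ∀ s ∈ Ico 0 P, 0 < cos (θ s)) (h2 : cos (θ P) = 0)
    (h3 : ∀ s ∈ Ioc P (L / 2), cos (θ s) < 0) :
    (∀ s ∈ Ico 0 P, -(π / 2) < θ s ∧ θ s < π / 2) ∧
    ((θ P = π / 2 ∧ (∀ s ∈ Ioc P (L / 2), π / 2 < θ s ∧ θ s < 3 * π / 2) ∧ θ (L / 2) = π) ∨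
     (θ P = -(π / 2) ∧ (∀ s ∈ Ioc P (L / 2), -(3 * π / 2) < θ s ∧ θ s < -(π / 2)) ∧
       θ (L / 2) = -π)) := by
  have hpi := pi_pos
  obtain ⟨cx, cθ⟩ := RedC_cont h.prof
  obtain ⟨hh1, hh2⟩ := h.half hx hθ
  have hA : ∀ φ : ℝ → ℝ, Continuous φ → φ 0 = 0 → (∀ s ∈ Ico 0 P, 0 < cos (φ s)) →
      ∀ s ∈ Ico 0 P, φ s < π / 2 := by
    intro φ cφ h0 hc s hs
    by_contra h4
    rw [not_lt] at h4
    obtain ⟨v, hv, hv0⟩ := intermediate_value_Icc hs.1 cφ.continuousOn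
      (⟨by rw [h0]; positivity, h4⟩ : (π / 2 : ℝ) ∈ Icc (φ 0) (φ s))
    have := hc v ⟨hv.1, lt_of_le_of_lt hv.2 hs.2⟩
    rw [hv0, cos_pi_div_two] at this
    exact lt_irrefl _ this
  have hI : ∀ s ∈ Ico 0 P, -(π / 2) < θ s ∧ θ s < π / 2 := by
    intro s hs
    refine ⟨?_, hA θ cθ hθ h1 s hs⟩
    have := hA (fun s => -θ s) cθ.neg (by simp [hθ]) (fun s hs => by
      simp only [cos_neg]
      exact h1 s hs) s hs
    linarith
  refine ⟨hI, ?_⟩
  -- the value at P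
  have hcl : θ P ∈ Icc (-(π / 2)) (π / 2) := by
    have h4 : P ∈ closure (Ico 0 P) := by
      rw [closure_Ico hP.ne]
      exact ⟨hP.le, le_rfl⟩
    have h5 : θ P ∈ closure (θ '' Ico 0 P) := image_closure_subset_closure_image cθ ⟨P, h4, rfl⟩
    have h6 : closure (θ '' Ico 0 P) ⊆ Icc (-(π / 2)) (π / 2) := by
      apply closure_minimal _ isClosed_Icc
      rintro _ ⟨s, hs, rfl⟩
      exact ⟨(hI s hs).1.le, (hI s hs).2.le⟩
    exact h6 h5
  have hval : θ P = π / 2 ∨ θ P = -(π / 2) := by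
    by_contra h4
    rw [not_or] at h4
    have h5 : θ P < π / 2 := lt_of_le_of_ne hcl.2 h4.1
    have h6 : -(π / 2) < θ P := lt_of_le_of_ne hcl.1 (Ne.symm h4.2)
    have := cos_pos_of_mem_Ioo ⟨h6, h5⟩
    linarith
  have hLm : L / 2 ∈ Ioc P (L / 2) := ⟨hP', le_rfl⟩
  rcases hval with h4 | h4
  · left
    have h5 := RedC_branch cθ h4 h3
    exact ⟨h4, h5, RedC_end (h5 _ hLm).1 (h5 _ hLm).2 hh2⟩
  · right
    have h5 := RedC_branch (φ := fun s => -θ s) (P := P) (b := L / 2) cθ.neg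
      (by simp only [h4, neg_neg]) (fun s hs => by simp only [cos_neg]; exact h3 s hs)
    refine ⟨h4, fun s hs => ?_, ?_⟩
    · have := h5 s hs
      constructor <;> linarith [this.1, this.2]
    · have h6 := RedC_end (h5 _ hLm).1 (h5 _ hLm).2 (by simp only [sin_neg, hh2, neg_zero])
      linarith

end AT
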