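import Pool.Agent.H.MP_ce2c94_gt.StepL

/-!
# Soundness of the lower run
-/

namespace AT

open Real Set

/-- **Soundness of the lower run**, induction on `k` with `low_step` (`simp only [runL, force_eq]`
and case distinction on the test). -/
theorem runL_sound {N : ℕ} {fin : ℕ → ℕ → ℕ → ℕ → Bool} (hN : 0 < N) {X R : ℝ → ℝ}
    (h : ClLow 1 X R) : ∀ k n XL XU RL RU : ℕ, runL N fin k n XL XU RL RU = true → n + k = N →
    R0 ≤ RL → 0 ≤ X ((n : ℝ) / N) → (XL : ℝ) / MM ≤ X ((n : ℝ) / N) →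
    X ((n : ℝ) / N) ≤ (XU : ℝ) / MM → (RL : ℝ) / MM ≤ R ((n : ℝ) / N) →
    R ((n : ℝ) / N) ≤ (RU : ℝ) / MM →
    (n < N → ∀ τ ∈ Icc ((n : ℝ) / N) 1, 1 / 20 ≤ KL τ (X τ) (R τ) ∧ 1 / 100 ≤ R τ) ∧
    ∃ XL' XU' RL' RU' : ℕ, fin XL' XU' RL' RU' = true ∧ (XL' : ℝ) / MM ≤ X 1 ∧
      X 1 ≤ (XU' : ℝ) / MM ∧ (RL' : ℝ) / MM ≤ R 1 ∧ R 1 ≤ (RU' : ℝ) / MM := by
  have hN' : (0 : ℝ) < (N : ℝ) := by exact_mod_cast hN
  intro k
  induction k with
  | zero =>
    intro n XL XU RL RU hrun hnk hR0 hX0 hx hx' hr hr'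
    have hnN : n = N := by omega
    have h1 : (n : ℝ) / N = 1 := by
      rw [hnN]; exact div_self hN'.ne'
    refine ⟨fun hlt => absurd hlt (by omega), XL, XU, RL, RU, hrun, ?_, ?_, ?_, ?_⟩
    · rw [← h1]; exact hx
    · rw [← h1]; exact hx'
    · rw [← h1]; exact hr
    · rw [← h1]; exact hr'
  | succ k ih =>
    intro n XL XU RL RU hrun hnk hR0 hX0 hx hx' hr hr'
    have hn : n < N := by omega
    simp only [runL, force_eq] at hrun
    split at hrun
    · exact absurd hrun (by simp)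
    · rename_i hcond
      simp only [Bool.and_eq_true] at hcond
      obtain ⟨c1, c2⟩ := hcond
      have c1' := Nat.le_of_ble_eq_true c1
      have c2' := Nat.le_of_ble_eq_true c2
      obtain ⟨hU, hXL', hRL'⟩ := low_step hN hn h hR0 hx hx' hX0 hr hr' c2' c1'
      have hcast : ((Nat.succ n : ℕ) : ℝ) / N = ((n : ℝ) + 1) / N := by
        push_cast; rfl
      have hmem : ((n : ℝ) + 1) / N ∈ Icc ((n : ℝ) / N) (((n : ℝ) + 1) / N) :=
        ⟨by gcongr; linarith, le_rfl⟩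
      obtain ⟨hT1, hT2⟩ := ih (Nat.succ n) _ _ _ _ hrun (by omega)
        (hR0.trans (Nat.le_add_right _ _))
        (by rw [hcast]; exact le_trans (by positivity) hXL')
        (by rw [hcast]; exact hXL')
        (by rw [hcast]; exact (hU.x _ hmem).2)
        (by rw [hcast]; exact hRL')
        (by rw [hcast]; exact (hU.r _ hmem).2)
      refine ⟨fun _ => ?_, hT2⟩
      intro τ hτ
      by_cases hc : τ ≤ ((n : ℝ) + 1) / N
      · exact ⟨(StepL_K0 c2').trans (hU.k τ ⟨hτ.1, hc⟩).1,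
          (StepL_R0 hR0).trans (hU.r τ ⟨hτ.1, hc⟩).1⟩
      · push Not at hc
        refine hT1 ?_ τ ⟨by rw [hcast]; exact hc.le, hτ.2⟩
        by_contra hge
        have h2 : N = n + 1 := by omega
        have h3 : ((n : ℝ) + 1) / N = 1 := by
          rw [h2]; push_cast; exact div_self (by positivity)
        rw [h3] at hc
        exact absurd hτ.2 (not_le.2 hc)

end AT
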