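import Pool.Agent.H.MP_ce2c94_gt.StepU

/-!
# Soundness of the upper run
-/

namespace AT

open Real Set

theorem RunU_R0 {a : ℕ} (h : R0 ≤ a) : (1 : ℝ) / 100 ≤ (a : ℝ) / MM := by
  have h1 : ((R0 : ℕ) : ℝ) ≤ (a : ℝ) := by exact_mod_cast h
  have h2 : (1 : ℝ) / 100 ≤ ((R0 : ℕ) : ℝ) / MM := by
    norm_num [R0, MM]
  have h3 : ((R0 : ℕ) : ℝ) / MM ≤ (a : ℝ) / MM := by
    gcongr
  exact h2.trans h3

theorem RunU_K0 {a : ℕ} (h : K0 ≤ a) : (1 : ℝ) / 20 ≤ (a : ℝ) / MM := by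
  have h1 : ((K0 : ℕ) : ℝ) ≤ (a : ℝ) := by exact_mod_cast h
  have h2 : (1 : ℝ) / 20 ≤ ((K0 : ℕ) : ℝ) / MM := by
    norm_num [K0, MM]
  have h3 : ((K0 : ℕ) : ℝ) / MM ≤ (a : ℝ) / MM := by
    gcongr
  exact h2.trans h3

/-- **Soundness of the upper run** (with the stopping rule `stopx ≤ XL`): either it stops at some
`T = m/N` with `stopx/M ≤ X T`, or it reaches `1`. -/
theorem runU_sound {N stopx : ℕ} {fin : ℕ → ℕ → ℕ → ℕ → Bool} (hN : 0 < N) {X R : ℝ → ℝ}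
    (h : ClUp 1 X R) : ∀ k n XL XU RL RU : ℕ, runU N stopx fin k n XL XU RL RU = true →
    n + k = N → 0 ≤ X ((n : ℝ) / N) → (XL : ℝ) / MM ≤ X ((n : ℝ) / N) →
    X ((n : ℝ) / N) ≤ (XU : ℝ) / MM → (RL : ℝ) / MM ≤ R ((n : ℝ) / N) → R0 ≤ RL →
    R ((n : ℝ) / N) ≤ (RU : ℝ) / MM →
    ∃ T : ℝ, (n : ℝ) / N ≤ T ∧ T ≤ 1 ∧
      (∀ τ ∈ Icc ((n : ℝ) / N) T, (1 / 20 ≤ KU τ (X τ) (R τ) ∨ τ = (n : ℝ) / N ∧ T = τ) ∧
        1 / 100 ≤ R τ) ∧
      ((stopx : ℝ) / MM ≤ X T ∨ T = 1 ∧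
    ∃ XL' XU' RL' RU' : ℕ, fin XL' XU' RL' RU' = true ∧ (XL' : ℝ) / MM ≤ X 1 ∧
      X 1 ≤ (XU' : ℝ) / MM ∧ (RL' : ℝ) / MM ≤ R 1 ∧ R 1 ≤ (RU' : ℝ) / MM) := by
  have hN' : (0 : ℝ) < (N : ℝ) := by exact_mod_cast hN
  intro k
  induction k with
  | zero =>
    intro n XL XU RL RU hrun hnk hX0 hx hx' hr hR0 hr'
    have hnN : n = N := by omega
    have h1 : (n : ℝ) / N = 1 := by
      rw [hnN]; exact div_self hN'.ne'
    refine ⟨(n : ℝ) / N, le_rfl, h1.le, ?_, Or.inr ⟨h1, XL, XU, RL, RU, hrun, ?_, ?_, ?_, ?_⟩⟩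
    · intro τ hτ
      have hτ' : τ = (n : ℝ) / N := le_antisymm hτ.2 hτ.1
      refine ⟨Or.inr ⟨hτ', hτ'.symm⟩, ?_⟩
      rw [hτ']
      exact (RunU_R0 hR0).trans hr
    · rw [← h1]; exact hx
    · rw [← h1]; exact hx'
    · rw [← h1]; exact hr
    · rw [← h1]; exact hr'
  | succ k ih =>
    intro n XL XU RL RU hrun hnk hX0 hx hx' hr hR0 hr'
    have hn : n < N := by omega
    rw [runU] at hrun
    split at hrun
    · rename_i hstop
      have hs : stopx ≤ XL := Nat.le_of_ble_eq_true hstop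
      refine ⟨(n : ℝ) / N, le_rfl, ?_, ?_, Or.inl ?_⟩
      · rw [div_le_one hN']; exact_mod_cast hn.le
      · intro τ hτ
        have hτ' : τ = (n : ℝ) / N := le_antisymm hτ.2 hτ.1
        refine ⟨Or.inr ⟨hτ', hτ'.symm⟩, ?_⟩
        rw [hτ']
        exact (RunU_R0 hR0).trans hr
      · refine le_trans ?_ hx
        have : (stopx : ℝ) ≤ (XL : ℝ) := by exact_mod_cast hs
        gcongr
    · simp only [force_eq] at hrun
      split at hrun
      · exact absurd hrun (by simp)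
      · rename_i hcond
        simp only [Bool.and_eq_true] at hcond
        obtain ⟨⟨c1, c2⟩, c3⟩ := hcond
        have c1' := Nat.le_of_ble_eq_true c1
        have c2' := Nat.le_of_ble_eq_true c2
        have c3' := Nat.le_of_ble_eq_true c3
        obtain ⟨hU, hXL', hRU'⟩ := up_step hN hn h c2' hx hx' hX0 hr hr' c3' c1'
        have hcast : ((Nat.succ n : ℕ) : ℝ) / N = ((n : ℝ) + 1) / N := by
          push_cast; rfl
        have hmem : ((n : ℝ) + 1) / N ∈ Icc ((n : ℝ) / N) (((n : ℝ) + 1) / N) :=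
          ⟨by gcongr; linarith, le_rfl⟩
        have hR0' := c2'.trans c1'
        obtain ⟨T, hT1, hT2, hT3, hT4⟩ := ih (Nat.succ n) _ _ _ _ hrun (by omega)
          (by rw [hcast]; exact le_trans (by positivity) hXL')
          (by rw [hcast]; exact hXL')
          (by rw [hcast]; exact (hU.x _ hmem).2)
          (by rw [hcast]; exact (hU.r _ hmem).1)
          hR0'
          (by rw [hcast]; exact hRU')
        rw [hcast] at hT1
        refine ⟨T, le_trans hmem.1 hT1, hT2, ?_, hT4⟩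
        intro τ hτ
        by_cases hc : τ ≤ ((n : ℝ) + 1) / N
        · exact ⟨Or.inl ((RunU_K0 c3').trans (hU.k τ ⟨hτ.1, hc⟩).1),
            (RunU_R0 hR0').trans (hU.r τ ⟨hτ.1, hc⟩).1⟩
        · push Not at hc
          obtain ⟨h1, h2⟩ := hT3 τ ⟨by rw [hcast]; exact hc.le, hτ.2⟩
          refine ⟨?_, h2⟩
          rcases h1 with h1 | ⟨h1, _⟩
          · exact Or.inl h1
          · exact absurd h1 (by rw [hcast]; exact hc.ne')

end AT
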