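import Pool.Agent.H.MP_ce2c94_gt.StepX

/-!
# Soundness of the graph run
-/

namespace AT

open Real Set

theorem RunX_aux1 {z : ℤ} (h : 0 ≤ z + 21474836480) : -21474836480 ≤ z := by linarith

theorem RunX_aux2 {x y : ℤ} (h : 0 ≤ x - y - 1) : y + 1 ≤ x := by linarith

/-- **Soundness of `runX`**, induction on `k`: `simp only [runX, forceZ_eq]`, case distinction on
the two tests, `x_step` with `cl`, `cu` as in the program. -/
theorem runX_sound {H umax : ℤ} (hH : 0 < H) (hum : umax ≤ 10737418240) {a : ℝ} {u p : ℝ → ℝ}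
    (h : ClG a u p) : ∀ (k : ℕ) (n ul uu tl tu : ℤ), runX H umax k n ul uu tl tu = true → 0 ≤ n →
    ((n : ℝ) + k) / H ≤ a → (ul : ℝ) / MM ≤ u ((n : ℝ) / H) → u ((n : ℝ) / H) ≤ (uu : ℝ) / MM →
    (tl : ℝ) / MM ≤ p ((n : ℝ) / H) → p ((n : ℝ) / H) ≤ (tu : ℝ) / MM → 0 < k →
    ∀ x ∈ Icc ((n : ℝ) / H) (((n : ℝ) + k) / H), 1 / 10 ≤ u x ∧ u x ≤ (umax : ℝ) / MM ∧
      -20 ≤ p x ∧ p x ≤ 20 := by
  have hH' : (0 : ℝ) < (H : ℝ) := by exact_mod_cast hH
  intro k
  induction k with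
  | zero =>
    intro n ul uu tl tu _ _ _ _ _ _ _ hk
    exact absurd hk (lt_irrefl _)
  | succ k ih =>
    intro n ul uu tl tu hrun hn ha h1 h2 h3 h4 _ x hx
    have ha1 : ((n : ℝ) + 1) / H ≤ a := by
      refine le_trans ?_ ha
      gcongr
      push_cast
      linarith [Nat.cast_nonneg (α := ℝ) k]
    simp only [runX, forceZ_eq] at hrun
    split at hrun
    · exact absurd hrun (by simp)
    · rename_i hc1
      split at hrun
      · exact absurd hrun (by simp)
      · rename_i hc2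
        simp only [Bool.and_eq_true, nn_iff] at hc1 hc2
        obtain ⟨⟨⟨c1, c2⟩, c3⟩, c4⟩ := hc1
        obtain ⟨c5, c6⟩ := hc2
        obtain ⟨s1, s2, s3, s4, s5⟩ := x_step hH hn ha1 h hum ⟨h1, h2⟩ ⟨h3, h4⟩ rfl rfl
          (sub_nonneg.1 c1) (sub_nonneg.1 c2) (RunX_aux1 c3) (sub_nonneg.1 c4) rfl rfl
          (RunX_aux2 c5) (sub_nonneg.1 c6)
        by_cases hxc : x ≤ ((n : ℝ) + 1) / H
        · exact s1 x ⟨hx.1, hxc⟩
        · push Not at hxc
          have hcast : (((n + 1 : ℤ)) : ℝ) = (n : ℝ) + 1 := by push_cast; ring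
          have hsum : ((n + 1 : ℤ) : ℝ) + (k : ℝ) = (n : ℝ) + ((k + 1 : ℕ) : ℝ) := by
            push_cast; ring
          have hk : 0 < k := by
            rcases Nat.eq_zero_or_pos k with h0 | h0
            · exfalso
              have h5 := hx.2
              rw [h0] at h5
              rw [zero_add, Nat.cast_one] at h5
              exact absurd h5 (not_le.2 hxc)
            · exact h0
          refine ih (n + 1) _ _ _ _ hrun (by linarith) (by rw [hsum]; exact ha)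
            (by rw [hcast]; exact s2) (by rw [hcast]; exact s3) (by rw [hcast]; exact s4)
            (by rw [hcast]; exact s5) hk x ⟨by rw [hcast]; exact hxc.le, ?_⟩
          rw [hsum]
          exact hx.2

/-- **A graph box**: `ex_clG`, `runX_sound` with `n = 0`; then the clamps do nothing. -/
theorem graph_box {H umax : ℤ} {k A B : ℕ} (hH : 0 < H) (hum : umax ≤ 10737418240) (hk : 0 < k)
    (hr : runX H umax k 0 A B 0 0 = true) {c : ℝ} (h1 : (A : ℝ) / MM ≤ c)
    (h2 : c ≤ (B : ℝ) / MM) : ∃ u p : ℝ → ℝ, GSol ((k : ℝ) / H) u p ∧ u 0 = c ∧ p 0 = 0 ∧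
      ∀ x ∈ Icc 0 ((k : ℝ) / H), u x ≤ (umax : ℝ) / MM := by
  have hH' : (0 : ℝ) < (H : ℝ) := by exact_mod_cast hH
  obtain ⟨u, p, hu0, hp0, hG⟩ := ex_clG (a := (k : ℝ) / H) (by positivity) c
  have e0 : (((0 : ℤ) : ℝ)) / H = 0 := by rw [Int.cast_zero, zero_div]
  have e1 : (((0 : ℤ) : ℝ) + k) / H = (k : ℝ) / H := by rw [Int.cast_zero, zero_add]
  have key := runX_sound hH hum hG k 0 A B 0 0 hr le_rfl (by rw [e1])
    (by rw [e0, hu0, Int.cast_natCast]; exact h1) (by rw [e0, hu0, Int.cast_natCast]; exact h2)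
    (by rw [e0, hp0, Int.cast_zero, zero_div]) (by rw [e0, hp0, Int.cast_zero, zero_div]) hk
  rw [e0, e1] at key
  have hM : (umax : ℝ) / MM ≤ 10 := by
    have h3 : (umax : ℝ) ≤ 10737418240 := by exact_mod_cast hum
    have h4 : ((MM : ℕ) : ℝ) = 1073741824 := by norm_num [MM]
    rw [h4, div_le_iff₀ (by norm_num)]
    linarith
  have eP : ∀ x ∈ Icc (0 : ℝ) ((k : ℝ) / H), clP (p x) = p x := by
    intro x hx
    obtain ⟨_, _, k3, k4⟩ := key x hx
    unfold clP
    rw [min_eq_right k4, max_eq_right k3]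
  have eU : ∀ x ∈ Icc (0 : ℝ) ((k : ℝ) / H), clU (u x) = u x := by
    intro x hx
    obtain ⟨k1, k2, _, _⟩ := key x hx
    unfold clU
    rw [min_eq_right (k2.trans hM), max_eq_right k1]
  refine ⟨u, p, ⟨fun x hx => ?_, fun x hx => ?_, fun x hx => ?_⟩, hu0, hp0, fun x hx =>
    (key x hx).2.1⟩
  · linarith [(key x hx).1]
  · have h3 := hG.du x hx
    rw [eP x hx] at h3
    exact h3
  · have h3 := hG.dp x hx
    rw [eP x hx, eU x hx] at h3
    exact h3

end AT
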