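import Mathlib

/-!
# Surfaces of revolution in `ℝ³` and the self-shrinker equation: definitions
-/

namespace AT

open Real Set
open scoped InnerProductSpace

/-- Euclidean 3-space -/
abbrev E3 := EuclideanSpace ℝ (Fin 3)

/-- The self-shrinker equation `H = ⟨F, ν⟩ / 2` for a parametrised surface `F s φ` in `ℝ³`: at
every point and for every unit normal `ν`, the mean curvature
`H = -(⟨F_ss, ν⟩ ⟨F_φ, F_φ⟩ - 2 ⟨F_sφ, ν⟩ ⟨F_s, F_φ⟩ + ⟨F_φφ, ν⟩ ⟨F_s, F_s⟩) /
(⟨F_s, F_s⟩ ⟨F_φ, F_φ⟩ - ⟨F_s, F_φ⟩²)` (the sum of the principal curvatures, positive for a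
round sphere with its outward normal) equals `⟨F, ν⟩ / 2`. -/
def ShrinkerEq (F : ℝ → ℝ → E3) : Prop :=
  ∀ (s φ : ℝ) (ν : E3), ‖ν‖ = 1 →
    ⟪deriv (fun a => F a φ) s, ν⟫_ℝ = 0 → ⟪deriv (fun b => F s b) φ, ν⟫_ℝ = 0 →
    -(⟪deriv (fun a => deriv (fun a' => F a' φ) a) s, ν⟫_ℝ *
          ⟪deriv (fun b => F s b) φ, deriv (fun b => F s b) φ⟫_ℝ
        - 2 * ⟪deriv (fun a => deriv (fun b => F a b) φ) s, ν⟫_ℝ *
          ⟪deriv (fun a => F a φ) s, deriv (fun b => F s b) φ⟫_ℝ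
        + ⟪deriv (fun b => deriv (fun b' => F s b') b) φ, ν⟫_ℝ *
          ⟪deriv (fun a => F a φ) s, deriv (fun a => F a φ) s⟫_ℝ) /
      (⟪deriv (fun a => F a φ) s, deriv (fun a => F a φ) s⟫_ℝ *
          ⟪deriv (fun b => F s b) φ, deriv (fun b => F s b) φ⟫_ℝ
        - ⟪deriv (fun a => F a φ) s, deriv (fun b => F s b) φ⟫_ℝ ^ 2)
      = ⟪F s φ, ν⟫_ℝ / 2

/-- A simple closed profile curve `s ↦ (x s, r s)` in the open half plane `r > 0`, twice
continuously differentiable, of unit speed, with period `L`. -/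
structure ProfileCurve (x r : ℝ → ℝ) (L : ℝ) : Prop where
  cx : ContDiff ℝ 2 x
  cr : ContDiff ℝ 2 r
  speed : ∀ s, deriv x s ^ 2 + deriv r s ^ 2 = 1
  pos : ∀ s, 0 < r s
  Lpos : 0 < L
  px : ∀ s, x (s + L) = x s
  pr : ∀ s, r (s + L) = r s
  inj : InjOn (fun s => (x s, r s)) (Ico 0 L)

/-- rotation of the profile curve about the first coordinate axis -/
noncomputable def rotF (x r : ℝ → ℝ) (s φ : ℝ) : E3 := !₂[x s, r s * cos φ, r s * sin φ]

/-- `S` is a closed embedded self-shrinking torus in `ℝ³`, obtained by rotating a simple closed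
profile curve in an open half plane about the line through the origin bounding it (the image of
the first coordinate axis under the linear isometry `T`), and it is invariant under the
reflection in the plane through the origin orthogonal to this line. -/
def IsSymRotTorus (S : Set E3) : Prop :=
  ∃ (T : E3 ≃ₗᵢ[ℝ] E3) (x r : ℝ → ℝ) (L : ℝ), ProfileCurve x r L ∧ ShrinkerEq (rotF x r) ∧
    (∀ s, ∃ s', x s' = -x s ∧ r s' = r s) ∧ S = T '' {v | ∃ s φ, v = rotF x r s φ}

end AT
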