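import Pool.Agent.H.MP_ce2c94_gt.SDefs

/-!
# Self-shrinking tori of revolution: definition (target B)
-/

namespace AT

open Real Set

/-- `S` is a closed embedded self-shrinking torus of revolution in `ℝ³`: the surface obtained by
rotating a simple closed profile curve in an open half plane about the line through the origin
bounding it (the image of the first coordinate axis under the linear isometry `T`). -/
def IsRotTorus (S : Set E3) : Prop :=
  ∃ (T : E3 ≃ₗᵢ[ℝ] E3) (x r : ℝ → ℝ) (L : ℝ), ProfileCurve x r L ∧ ShrinkerEq (rotF x r) ∧
    S = T '' {v | ∃ s φ, v = rotF x r s φ}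

end AT
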