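import Pool.Agent.H.MP_ce2c94_gt.SmallA

/-!
# Small heights: the bound for r
-/

namespace AT

open Real Set

theorem SmallR_exp2 : exp 2 < 739 / 100 := by
  have h1 : exp 1 < 2.7182818286 := exp_one_lt_d9
  have h0 : 0 < exp 1 := exp_pos 1
  have h2 : exp 2 = exp 1 * exp 1 := by rw [← exp_add]; norm_num
  rw [h2]
  nlinarith

theorem SmallR_exp196 : 7 ≤ exp (49 / 25) := by
  have h := Real.sum_le_exp_of_nonneg (show (0 : ℝ) ≤ 49 / 25 by norm_num) 7
  refine le_trans ?_ h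
  simp [Finset.sum_range_succ, Nat.factorial]
  norm_num

theorem SmallR_em196 : exp (-(49 / 25)) ≤ 1 / 7 := by
  rw [exp_neg, inv_eq_one_div]
  exact one_div_le_one_div_of_le (by norm_num) SmallR_exp196

theorem SmallR_em196' : 100 / 739 ≤ exp (-(49 / 25)) := by
  have h1 : exp (-2) ≤ exp (-(49 / 25)) := exp_le_exp.2 (by norm_num)
  refine le_trans ?_ h1
  rw [exp_neg, inv_eq_one_div]
  have h2 : (100 / 739 : ℝ) = 1 / (739 / 100) := by norm_num
  rw [h2]
  exact one_div_le_one_div_of_le (exp_pos 2) SmallR_exp2.le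

theorem SmallR_F {r : ℝ} (h1 : 1 ≤ r) (h2 : r ≤ 14 / 5) : 271 / 739 ≤ FF r := by
  unfold FF
  have e1 : exp (-(r ^ 2 / 4)) = exp (-(49 / 25)) * exp (49 / 25 - r ^ 2 / 4) := by
    rw [← exp_add]; congr 1; ring
  have e2 : 49 / 25 - r ^ 2 / 4 + 1 ≤ exp (49 / 25 - r ^ 2 / 4) := add_one_le_exp _
  have e3 := SmallR_em196'
  have e4 : 271 / 100 ≤ r * (49 / 25 - r ^ 2 / 4 + 1) := by
    nlinarith [mul_nonneg (sub_nonneg.2 h1) (sub_nonneg.2 h2),
      mul_nonneg (mul_nonneg (sub_nonneg.2 h1) (sub_nonneg.2 h2)) (by linarith : (0:ℝ) ≤ r)]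
  rw [e1]
  have e5 : 271 / 100 ≤ r * exp (49 / 25 - r ^ 2 / 4) :=
    le_trans e4 (mul_le_mul_of_nonneg_left e2 (by linarith))
  calc (271 / 739 : ℝ) = (100 / 739) * (271 / 100) := by norm_num
    _ ≤ exp (-(49 / 25)) * (r * exp (49 / 25 - r ^ 2 / 4)) :=
        mul_le_mul e3 e5 (by norm_num) (exp_pos _).le
    _ = _ := by ring

theorem SmallR_dE {x r θ : ℝ → ℝ} (h : IsProfile x r θ) (s : ℝ) :
    HasDerivAt (fun s => exp (-(r s ^ 2 / 4))) (-(FF (r s) * sin (θ s) / 2)) s := by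
  have h1 : HasDerivAt (fun s => exp (-(r s ^ 2 / 4)))
      (exp (-(r s ^ 2 / 4)) * (-(((2 : ℕ) : ℝ) * r s ^ (2 - 1) * sin (θ s) / 4))) s :=
    (((h.hr s).pow 2).div_const 4).neg.exp
  refine h1.congr_deriv ?_
  unfold FF
  push_cast
  ring

theorem SmallR_FF_pos {r : ℝ} (hr : 0 < r) : 0 < FF r := mul_pos hr (exp_pos _)

theorem SmallR_FF_le {r : ℝ} (hr : 0 < r) : FF r ≤ r := by
  unfold FF
  have : exp (-(r ^ 2 / 4)) ≤ 1 := exp_le_one_iff.2 (by nlinarith)
  nlinarith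

/-- `r = 2.8` is not reached before the tip. Suppose `r S = 2.8`, `θ ≤ π/2`; let `r s₁ = 1`,
`x₁ = x s₁`. On `[s₁, S]`: `F(r) ≥ .394`, `cos θ ≤ .1/.394`, `sin θ ≥ .967`,
`(-2 exp(-r²/4))' = F sin θ`, so `G + (x₁/2)(.967)(-2 exp(-r²/4))` is nonincreasing, and `G S ≥ 0`:
`(.967)(exp(-1/4) - exp(-1.96)) x₁ ≤ G s₁ ≤ F(c) ≤ c`, so `x₁ ≤ 1.63 c`.
On `[0, s₁]`: `x ≤ x₁`, `G' ≥ -(x₁/2) F sin θ`, `G ≥ F(c) - x₁ r²/4 ≥ c (.9975 - .4075 r²)`, and
`x' = cos θ ≥ G/r`, `r' ≤ 1`: `x - c (.9975 ln r - .20375 r²)` is nondecreasing: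
`x₁ ≥ c (.9975 ln (1/c) - .204) ≥ c (.9975 ln 10 - .204) ≥ 2 c`. Contradiction. -/
theorem small_r {c : ℝ} (hc : 0 < c) (hc' : c < 1 / 10) {x r θ : ℝ → ℝ} (h : From c x r θ)
    {S : ℝ} (hS : 0 < S) (h1 : ∀ s ∈ Ioo 0 S, 0 < θ s ∧ θ s < π / 2)
    (h2 : ∀ s ∈ Icc 0 S, FF (r s) * cos (θ s) ≤ FF c) (h3 : StrictMonoOn r (Icc 0 S))
    (h3' : StrictMonoOn x (Icc 0 S)) (h4 : r S = 14 / 5) (h5 : θ S ≤ π / 2) : False := by
  obtain ⟨hp, x0, r0, θ0⟩ := h
  have cx : Continuous x := continuous_iff_continuousAt.2 fun s => (hp.hx s).continuousAt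
  have cr : Continuous r := continuous_iff_continuousAt.2 fun s => (hp.hr s).continuousAt
  have cθ : Continuous θ := continuous_iff_continuousAt.2 fun s => (hp.hθ s).continuousAt
  -- the time `s₁`
  have hs1 : ∃ s₁ ∈ Ioo 0 S, r s₁ = 1 := by
    have := intermediate_value_Ioo hS.le (cr.continuousOn (s := Icc 0 S))
    have h' : (1 : ℝ) ∈ Ioo (r 0) (r S) := by
      rw [r0, h4]; constructor <;> linarith
    obtain ⟨s, hs, hs'⟩ := this h'
    exact ⟨s, hs, hs'⟩
  obtain ⟨s₁, ⟨hs0, hsS⟩, hrs⟩ := hs1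
  have hx1 : 0 < x s₁ := by
    rw [← x0]
    exact h3' ⟨le_rfl, hS.le⟩ ⟨hs0.le, hsS.le⟩ hs0
  -- `θ S ≥ 0`
  have hθS : 0 ≤ θ S := by
    have : Ioo 0 S ⊆ θ ⁻¹' Ici 0 := fun s hs => (h1 s hs).1.le
    have hcl : closure (Ioo 0 S) ⊆ θ ⁻¹' Ici 0 :=
      closure_minimal this (isClosed_Ici.preimage cθ)
    rw [closure_Ioo hS.ne] at hcl
    exact hcl ⟨hS.le, le_rfl⟩
  have hπ := pi_pos
  have hFc : 0 < FF c := SmallR_FF_pos hc
  have hFc' : FF c ≤ c := SmallR_FF_le hc
  have hFc'' : 399 / 400 * c ≤ FF c := by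
    unfold FF
    have : -(c ^ 2 / 4) + 1 ≤ exp (-(c ^ 2 / 4)) := add_one_le_exp _
    nlinarith [mul_pos hc hc]
  -- Part A
  have hA : x s₁ * (24 / 25 * (3 / 4 - 1 / 7)) ≤ c := by
    have key : AntitoneOn (fun s => FF (r s) * cos (θ s) - x s₁ * (24 / 25) * exp (-(r s ^ 2 / 4)))
        (Icc s₁ S) := by
      have hd : ∀ s, HasDerivAt
          (fun s => FF (r s) * cos (θ s) - x s₁ * (24 / 25) * exp (-(r s ^ 2 / 4)))
          (-(x s / 2 * FF (r s) * sin (θ s) ^ 2) - x s₁ * (24 / 25) * (-(FF (r s) * sin (θ s) / 2)))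
          s := fun s => (hasDerivAt_G hp s).sub ((SmallR_dE hp s).const_mul _)
      apply antitoneOn_of_deriv_nonpos (convex_Icc _ _)
      · exact (continuous_iff_continuousAt.2 fun s => (hd s).continuousAt).continuousOn
      · exact fun s _ => (hd s).differentiableAt.differentiableWithinAt
      · intro s hs
        rw [interior_Icc] at hs
        rw [(hd s).deriv]
        have hsm : s ∈ Ioo 0 S := ⟨hs0.trans hs.1, hs.2⟩
        obtain ⟨t1, t2⟩ := h1 s hsm
        have hr1 : 1 ≤ r s := by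
          rw [← hrs]
          exact (h3 ⟨hs0.le, hsS.le⟩ ⟨hsm.1.le, hsm.2.le⟩ hs.1).le
        have hr2 : r s ≤ 14 / 5 := by
          rw [← h4]
          exact (h3 ⟨hsm.1.le, hsm.2.le⟩ ⟨hS.le, le_rfl⟩ hs.2).le
        have hF := SmallR_F hr1 hr2
        have hxx : x s₁ ≤ x s := (h3' ⟨hs0.le, hsS.le⟩ ⟨hsm.1.le, hsm.2.le⟩ hs.1).le
        have hG := h2 s ⟨hsm.1.le, hsm.2.le⟩
        have hcos : 0 < cos (θ s) := cos_pos_of_mem_Ioo ⟨by linarith, t2⟩
        have hsin : 0 < sin (θ s) := sin_pos_of_pos_of_lt_pi t1 (by linarith)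
        have hcos' : cos (θ s) ≤ 28 / 100 := by
          by_contra hcon
          push Not at hcon
          have : 271 / 739 * (28 / 100) < FF (r s) * cos (θ s) :=
            mul_lt_mul' hF hcon (by norm_num) (by linarith)
          norm_num at this
          linarith
        have hsin' : 24 / 25 ≤ sin (θ s) := by
          have := sin_sq_add_cos_sq (θ s)
          by_contra hcon
          push Not at hcon
          nlinarith
        have e1 : x s₁ * (24 / 25) ≤ x s * sin (θ s) :=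
          mul_le_mul hxx hsin' (by norm_num) (by linarith)
        have e2 : 0 ≤ FF (r s) * sin (θ s) / 2 := by positivity
        nlinarith [mul_le_mul_of_nonneg_left e1 e2]
    have k := key (left_mem_Icc.2 hsS.le) (right_mem_Icc.2 hsS.le) hsS.le
    simp only [hrs, h4] at k
    have k1 : 0 ≤ FF (14 / 5) * cos (θ S) :=
      mul_nonneg (SmallR_FF_pos (by norm_num)).le (cos_nonneg_of_mem_Icc ⟨by linarith, h5⟩)
    have k2 : FF 1 * cos (θ s₁) ≤ FF c := by
      have := h2 s₁ ⟨hs0.le, hsS.le⟩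
      rwa [hrs] at this
    have k3 : exp (-((14 / 5 : ℝ) ^ 2 / 4)) ≤ 1 / 7 := by
      have : (-((14 / 5 : ℝ) ^ 2 / 4)) = -(49 / 25) := by norm_num
      rw [this]; exact SmallR_em196
    have k4 : 3 / 4 ≤ exp (-((1 : ℝ) ^ 2 / 4)) := by
      have := add_one_le_exp (-((1 : ℝ) ^ 2 / 4))
      norm_num at this ⊢
      linarith
    nlinarith [mul_le_mul_of_nonneg_left k3 hx1.le, mul_le_mul_of_nonneg_left k4 hx1.le]
  -- Part B
  have hB1 : ∀ s ∈ Icc 0 s₁, FF c - x s₁ * (r s ^ 2 / 4) ≤ FF (r s) * cos (θ s) := by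
    have key : MonotoneOn (fun s => FF (r s) * cos (θ s) - x s₁ * exp (-(r s ^ 2 / 4)))
        (Icc 0 s₁) := by
      have hd : ∀ s, HasDerivAt
          (fun s => FF (r s) * cos (θ s) - x s₁ * exp (-(r s ^ 2 / 4)))
          (-(x s / 2 * FF (r s) * sin (θ s) ^ 2) - x s₁ * (-(FF (r s) * sin (θ s) / 2)))
          s := fun s => (hasDerivAt_G hp s).sub ((SmallR_dE hp s).const_mul _)
      apply monotoneOn_of_deriv_nonneg (convex_Icc _ _)
      · exact (continuous_iff_continuousAt.2 fun s => (hd s).continuousAt).continuousOn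
      · exact fun s _ => (hd s).differentiableAt.differentiableWithinAt
      · intro s hs
        rw [interior_Icc] at hs
        rw [(hd s).deriv]
        have hsm : s ∈ Ioo 0 S := ⟨hs.1, hs.2.trans hsS⟩
        obtain ⟨t1, t2⟩ := h1 s hsm
        have hxx : x s ≤ x s₁ := (h3' ⟨hsm.1.le, hsm.2.le⟩ ⟨hs0.le, hsS.le⟩ hs.2).le
        have hsin : 0 < sin (θ s) := sin_pos_of_pos_of_lt_pi t1 (by linarith)
        have hsin' : sin (θ s) ≤ 1 := sin_le_one _
        have e1 : x s * sin (θ s) ≤ x s₁ * 1 :=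
          mul_le_mul hxx hsin' hsin.le hx1.le
        have e2 : 0 ≤ FF (r s) * sin (θ s) / 2 := by
          have := SmallR_FF_pos (hp.pos s)
          positivity
        nlinarith [mul_le_mul_of_nonneg_left e1 e2]
    intro s hs
    have k := key (left_mem_Icc.2 hs0.le) hs hs.1
    simp only [r0, θ0, cos_zero, mul_one] at k
    have k1 : exp (-(c ^ 2 / 4)) ≤ 1 := exp_le_one_iff.2 (by nlinarith)
    have k2 : -(r s ^ 2 / 4) + 1 ≤ exp (-(r s ^ 2 / 4)) := add_one_le_exp _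
    nlinarith [mul_le_mul_of_nonneg_left k1 hx1.le, mul_le_mul_of_nonneg_left k2 hx1.le]
  have hx1c : x s₁ ≤ 43 / 25 * c := by
    norm_num at hA
    linarith
  have hB2 : c * (399 / 400 * 2 - 43 / 200) ≤ x s₁ := by
    have key : MonotoneOn (fun s => x s - c * (399 / 400 * log (r s) - 43 / 200 * r s ^ 2))
        (Icc 0 s₁) := by
      have hd : ∀ s, HasDerivAt
          (fun s => x s - c * (399 / 400 * log (r s) - 43 / 200 * r s ^ 2))
          (cos (θ s) - c * (399 / 400 * (sin (θ s) / r s) -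
            43 / 200 * (((2 : ℕ) : ℝ) * r s ^ (2 - 1) * sin (θ s)))) s := fun s =>
        (hp.hx s).sub (((((hp.hr s).log (hp.pos s).ne').const_mul _).sub
          (((hp.hr s).pow 2).const_mul _)).const_mul _)
      apply monotoneOn_of_deriv_nonneg (convex_Icc _ _)
      · exact (continuous_iff_continuousAt.2 fun s => (hd s).continuousAt).continuousOn
      · exact fun s _ => (hd s).differentiableAt.differentiableWithinAt
      · intro s hs
        rw [interior_Icc] at hs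
        rw [(hd s).deriv]
        have hsm : s ∈ Ioo 0 S := ⟨hs.1, hs.2.trans hsS⟩
        obtain ⟨t1, t2⟩ := h1 s hsm
        have hrp := hp.pos s
        have hr1 : r s ≤ 1 := by
          rw [← hrs]
          exact (h3 ⟨hsm.1.le, hsm.2.le⟩ ⟨hs0.le, hsS.le⟩ hs.2).le
        have hsin : 0 < sin (θ s) := sin_pos_of_pos_of_lt_pi t1 (by linarith)
        have hsin' : sin (θ s) ≤ 1 := sin_le_one _
        have hcos : 0 < cos (θ s) := cos_pos_of_mem_Ioo ⟨by linarith, t2⟩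
        have hG := hB1 s ⟨hs.1.le, hs.2.le⟩
        have hFr := SmallR_FF_le hrp
        have e1 : c * (399 / 400 - 43 / 100 * r s ^ 2) ≤ r s * cos (θ s) := by
          have a1 : FF (r s) * cos (θ s) ≤ r s * cos (θ s) :=
            mul_le_mul_of_nonneg_right hFr hcos.le
          have a2 : x s₁ * (r s ^ 2 / 4) ≤ 43 / 25 * c * (r s ^ 2 / 4) :=
            mul_le_mul_of_nonneg_right hx1c (by positivity)
          nlinarith
        have e2 : 0 ≤ c * (399 / 400 - 43 / 100 * r s ^ 2) :=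
          mul_nonneg hc.le (by nlinarith)
        have e3 : c * (399 / 400 - 43 / 100 * r s ^ 2) * sin (θ s) ≤ r s * cos (θ s) := by
          nlinarith
        have e4 : cos (θ s) - c * (399 / 400 * (sin (θ s) / r s) -
            43 / 200 * (((2 : ℕ) : ℝ) * r s ^ (2 - 1) * sin (θ s))) =
            (r s * cos (θ s) - c * (399 / 400 - 43 / 100 * r s ^ 2) * sin (θ s)) / r s := by
          push_cast
          field_simp
          ring
        rw [e4]
        exact div_nonneg (by linarith) hrp.le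
    have k := key (left_mem_Icc.2 hs0.le) (right_mem_Icc.2 hs0.le) hs0.le
    simp only [r0, x0, hrs, log_one] at k
    have k1 : log c ≤ -2 := by
      rw [log_le_iff_le_exp hc, exp_neg, inv_eq_one_div]
      have : (1 / 10 : ℝ) ≤ 1 / exp 2 :=
        one_div_le_one_div_of_le (exp_pos 2) (by linarith [SmallR_exp2])
      linarith
    nlinarith [mul_le_mul_of_nonneg_left k1 hc.le, mul_pos hc (mul_pos hc hc)]
  nlinarith

end AT
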