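import Pool.Agent.H.MP_ce2c94_gt.SmallX
import Pool.Agent.H.MP_ce2c94_gt.SmallR

/-!
# Profiles leaving the axis at a small height
-/

namespace AT

open Real Set

/-- **Small heights.** -/
theorem small {c : ℝ} (hc : 0 < c) (hc' : c < 1 / 10) {x r θ : ℝ → ℝ} (h : From c x r θ) :
    ∃ S, TipUp θ S ∧ x S < 37 / 50 ∧ r S < 14 / 5 := by
  obtain ⟨S, hS, h1, -, h2, h3, h3', h4⟩ := small_phase hc hc' h
  have hcos : ∀ s ∈ Ico 0 S, -(π / 2) < θ s ∧ θ s < π / 2 := by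
    intro s hs
    rcases eq_or_lt_of_le hs.1 with h0 | h0
    · rw [← h0, h.θ0]; constructor <;> linarith [pi_pos]
    · have := h1 s ⟨h0, hs.2⟩
      constructor <;> linarith [pi_pos, this.1, this.2]
  rcases h4 with ⟨ht, hr⟩ | ⟨hr, ht⟩
  · rcases eq_or_lt_of_le hr with hr' | hr'
    · exact (small_r hc hc' h hS h1 h2 h3 h3' hr' ht.le).elim
    · exact ⟨S, ⟨hS, hcos, ht⟩, small_x hc hc' h hS h1 h2 h3 hr, hr'⟩
  · exact (small_r hc hc' h hS h1 h2 h3 h3' hr ht).elim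

end AT
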