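import Pool.Agent.H.MP_ce2c94_gt.TC

/-!
# Small heights: the first phase
-/

namespace AT

open Real Set

theorem SmallA_FF_deriv (y : ℝ) :
    HasDerivAt FF (exp (-(y ^ 2 / 4)) * (1 - y ^ 2 / 2)) y := by
  have h1 : HasDerivAt (fun y : ℝ => -(y ^ 2 / 4)) (-(y / 2)) y := by
    have h0 : HasDerivAt (fun y : ℝ => -(y ^ 2 / 4)) (-(((2 : ℕ) : ℝ) * y ^ (2 - 1) / 4)) y :=
      ((hasDerivAt_pow 2 y).div_const 4).neg
    have e : -(y / 2) = -(((2 : ℕ) : ℝ) * y ^ (2 - 1) / 4) := by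
      push_cast
      norm_num
      ring
    rw [e]
    exact h0
  have h2 := (hasDerivAt_id y).mul h1.exp
  have h3 : HasDerivAt FF (1 * exp (-(y ^ 2 / 4)) + id y * (exp (-(y ^ 2 / 4)) * -(y / 2))) y := h2
  convert h3 using 1
  simp only [id]
  ring

/-- `G = F(r) cos θ` satisfies `G' = -(x/2) F(r) sin² θ`. -/
theorem hasDerivAt_G {x r θ : ℝ → ℝ} (h : IsProfile x r θ) (s : ℝ) :
    HasDerivAt (fun s => FF (r s) * cos (θ s)) (-(x s / 2 * FF (r s) * sin (θ s) ^ 2)) s := by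
  have h1 := (SmallA_FF_deriv (r s)).comp s (h.hr s)
  have h2 := (h.hθ s).cos
  have h3 := h1.mul h2
  have hr := (h.pos s).ne'
  have h4 : HasDerivAt (fun s => FF (r s) * cos (θ s)) _ s := h3
  convert h4 using 1
  simp only [Function.comp, FF]
  field_simp
  ring

/-- numerical facts about `F(r) = r exp(-r²/4)`: increasing on `[0, √2]`, decreasing on
`[√2, ∞)`, `F(2.8) > 0.394`, so `F(r) > F(c)` for `c < r ≤ 2.8`, `c < 1/10`. -/
theorem FF_gt {c r : ℝ} (hc : 0 < c) (hc' : c < 1 / 10) (hr : c < r) (hr' : r ≤ 14 / 5) :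
    FF c < FF r := by
  by_cases h1 : r ≤ 1
  · have hm : StrictMonoOn FF (Icc 0 1) := by
      refine strictMonoOn_of_deriv_pos (convex_Icc 0 1)
        (fun y _ => (SmallA_FF_deriv y).continuousAt.continuousWithinAt) ?_
      intro y hy
      rw [interior_Icc] at hy
      rw [(SmallA_FF_deriv y).deriv]
      refine mul_pos (exp_pos _) ?_
      nlinarith [hy.1, hy.2]
    exact hm ⟨hc.le, by linarith⟩ ⟨by linarith, h1⟩ hr
  · push Not at h1
    have e0 : FF c ≤ c := by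
      unfold FF
      have : exp (-(c ^ 2 / 4)) ≤ 1 := by
        rw [exp_le_one_iff]
        nlinarith [sq_nonneg c]
      nlinarith [exp_pos (-(c ^ 2 / 4))]
    have e1 : exp (-2) ≤ exp (-(r ^ 2 / 4)) := by
      apply exp_le_exp.2
      nlinarith
    have e2 : (1 / 10 : ℝ) < exp (-2) := by
      rw [exp_neg, one_div]
      refine inv_strictAnti₀ (exp_pos _) ?_
      have h2 : exp 2 = exp 1 ^ 2 := by
        rw [← exp_nat_mul]
        norm_num
      rw [h2]
      have h3 := exp_one_lt_d9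
      have h4 := exp_pos 1
      nlinarith
    unfold FF at e0 ⊢
    nlinarith [exp_pos (-(r ^ 2 / 4))]

theorem SmallA_cont_x {x r θ : ℝ → ℝ} (h : IsProfile x r θ) : Continuous x :=
  continuous_iff_continuousAt.2 fun s => (h.hx s).continuousAt

theorem SmallA_cont_r {x r θ : ℝ → ℝ} (h : IsProfile x r θ) : Continuous r :=
  continuous_iff_continuousAt.2 fun s => (h.hr s).continuousAt

theorem SmallA_cont_th {x r θ : ℝ → ℝ} (h : IsProfile x r θ) : Continuous θ :=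
  continuous_iff_continuousAt.2 fun s => (h.hθ s).continuousAt

/-- Monotonicity during the phase `0 < θ < π/2`. -/
theorem SmallA_mono {c : ℝ} {x r θ : ℝ → ℝ} (h : From c x r θ) {S : ℝ}
    (hph : ∀ s ∈ Ioo 0 S, 0 < θ s ∧ θ s < π / 2) :
    StrictMonoOn r (Icc 0 S) ∧ StrictMonoOn x (Icc 0 S) ∧
      ∀ s ∈ Icc 0 S, FF (r s) * cos (θ s) ≤ FF c := by
  have hx : StrictMonoOn x (Icc 0 S) := by
    refine strictMonoOn_of_deriv_pos (convex_Icc 0 S) (SmallA_cont_x h.prof).continuousOn ?_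
    intro s hs
    rw [interior_Icc] at hs
    rw [(h.prof.hx s).deriv]
    exact cos_pos_of_mem_Ioo ⟨by linarith [(hph s hs).1, pi_pos], (hph s hs).2⟩
  have hr : StrictMonoOn r (Icc 0 S) := by
    refine strictMonoOn_of_deriv_pos (convex_Icc 0 S) (SmallA_cont_r h.prof).continuousOn ?_
    intro s hs
    rw [interior_Icc] at hs
    rw [(h.prof.hr s).deriv]
    exact sin_pos_of_pos_of_lt_pi (hph s hs).1 (by linarith [(hph s hs).2, pi_pos])
  refine ⟨hr, hx, ?_⟩
  have hG : AntitoneOn (fun s => FF (r s) * cos (θ s)) (Icc 0 S) := by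
    refine antitoneOn_of_deriv_nonpos (convex_Icc 0 S)
      (fun s _ => (hasDerivAt_G h.prof s).continuousAt.continuousWithinAt)
      (fun s _ => (hasDerivAt_G h.prof s).differentiableAt.differentiableWithinAt) ?_
    intro s hs
    rw [interior_Icc] at hs
    rw [(hasDerivAt_G h.prof s).deriv]
    have h1 : 0 ≤ x s := by
      have := hx.monotoneOn (left_mem_Icc.2 (by linarith [hs.1, hs.2]))
        (Ioo_subset_Icc_self hs) hs.1.le
      rwa [h.x0] at this
    have h2 : 0 ≤ FF (r s) := mul_nonneg (h.prof.pos s).le (exp_pos _).le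
    have h3 : 0 ≤ x s / 2 * FF (r s) * sin (θ s) ^ 2 :=
      mul_nonneg (mul_nonneg (by linarith) h2) (sq_nonneg _)
    linarith
  intro s hs
  have h1 := hG (left_mem_Icc.2 (by linarith [hs.1, hs.2])) hs hs.1
  simp only [h.r0, h.θ0, cos_zero, mul_one] at h1
  exact h1

/-- Just after the start. -/
theorem SmallA_start {c : ℝ} (hc : 0 < c) (hc' : c < 1 / 10) {x r θ : ℝ → ℝ}
    (h : From c x r θ) : ∃ ε > 0, ∀ s ∈ Ioo 0 ε, 0 < θ s ∧ θ s < π / 2 ∧ r s < 14 / 5 := by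
  have h1 := hasDerivAt_iff_tendsto_slope.1 (h.prof.hθ 0)
  have hpos : 0 < x 0 / 2 * sin (θ 0) + (1 / r 0 - r 0 / 2) * cos (θ 0) := by
    rw [h.x0, h.θ0, h.r0, cos_zero, sin_zero]
    have : 1 < 1 / c := by
      rw [lt_div_iff₀ hc]
      linarith
    linarith
  have h2 : ∀ᶠ s in nhdsWithin 0 {0}ᶜ, 0 < slope θ 0 s := h1.eventually (lt_mem_nhds hpos)
  have h3 : ∀ᶠ s in nhds (0 : ℝ), θ s < π / 2 := by
    refine (SmallA_cont_th h.prof).continuousAt.eventually (gt_mem_nhds ?_)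
    rw [h.θ0]
    positivity
  have h4 : ∀ᶠ s in nhds (0 : ℝ), r s < 14 / 5 := by
    refine (SmallA_cont_r h.prof).continuousAt.eventually (gt_mem_nhds ?_)
    rw [h.r0]
    linarith
  rw [eventually_nhdsWithin_iff] at h2
  obtain ⟨ε, hε, hb⟩ := Metric.eventually_nhds_iff.1 (h2.and (h3.and h4))
  refine ⟨ε, hε, fun s hs => ?_⟩
  have hd : dist s 0 < ε := by
    rw [dist_zero_right, norm_eq_abs, abs_of_pos hs.1]
    exact hs.2
  obtain ⟨g1, g2, g3⟩ := hb hd
  refine ⟨?_, g2, g3⟩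
  have g4 := g1 (by simpa using hs.1.ne')
  rw [slope_def_field, h.θ0, sub_zero, sub_zero] at g4
  by_contra hcon
  push Not at hcon
  have : θ s / s ≤ 0 := div_nonpos_of_nonpos_of_nonneg hcon hs.1.le
  linarith

/-- The phase ends. -/
theorem SmallA_end {c : ℝ} (hc : 0 < c) (hc' : c < 1 / 10) {x r θ : ℝ → ℝ}
    (h : From c x r θ) : ∃ s > 0, ¬ (0 < θ s ∧ θ s < π / 2 ∧ r s < 14 / 5) := by
  by_contra hcon
  push Not at hcon
  have hph : ∀ S, ∀ s ∈ Ioo 0 S, 0 < θ s ∧ θ s < π / 2 := by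
    intro S s hs
    by_contra h5
    have h6 := hcon s hs.1
    exact h5 ⟨h6.1, h6.2.1⟩
  have hr1 : c < r 1 := by
    have := (SmallA_mono h (hph 1)).1 (left_mem_Icc.2 zero_le_one) (right_mem_Icc.2 zero_le_one)
      zero_lt_one
    rwa [h.r0] at this
  have hr2 : r 1 ≤ 14 / 5 := (hcon 1 zero_lt_one).2.2.le
  have hcF : Continuous FF :=
    continuous_iff_continuousAt.2 fun y => (SmallA_FF_deriv y).continuousAt
  obtain ⟨y, hy, hmin⟩ := isCompact_Icc.exists_isMinOn (nonempty_Icc.2 hr2) hcF.continuousOn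
  have hyc : FF c < FF y := FF_gt hc hc' (by linarith [hy.1]) hy.2
  have hFc : 0 < FF c := mul_pos hc (exp_pos _)
  have hFy : 0 < FF y := hFc.trans hyc
  have hsin : ∀ s, 1 ≤ s → 1 - FF c / FF y ≤ sin (θ s) := by
    intro s hs
    have hs0 : 0 < s := by linarith
    obtain ⟨m1, -, m3⟩ := SmallA_mono h (hph s)
    have g1 : FF (r s) * cos (θ s) ≤ FF c := m3 s (right_mem_Icc.2 hs0.le)
    have g2 : r 1 ≤ r s := m1.monotoneOn ⟨zero_le_one, hs⟩ (right_mem_Icc.2 hs0.le) hs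
    have g3 : FF y ≤ FF (r s) := hmin ⟨g2, (hcon s hs0).2.2.le⟩
    obtain ⟨t1, t2, -⟩ := hcon s hs0
    have g4 : 0 < cos (θ s) := cos_pos_of_mem_Ioo ⟨by linarith [pi_pos], t2⟩
    have g5 : 0 < sin (θ s) := sin_pos_of_pos_of_lt_pi t1 (by linarith [pi_pos])
    have g6 : cos (θ s) ≤ FF c / FF y := by
      rw [le_div_iff₀ hFy]
      nlinarith
    have g7 : 1 ≤ sin (θ s) + cos (θ s) := by
      nlinarith [sin_sq_add_cos_sq (θ s), sin_le_one (θ s), cos_le_one (θ s)]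
    linarith
  have hq : 0 < 1 - FF c / FF y := by
    have : FF c / FF y < 1 := by
      rw [div_lt_one hFy]
      exact hyc
    linarith
  obtain ⟨q, hqd⟩ : ∃ q, q = 1 - FF c / FF y := ⟨_, rfl⟩
  rw [← hqd] at hq
  have hgrow : ∀ s, 1 ≤ s → q * (s - 1) ≤ r s - r 1 := by
    intro s hs
    refine Convex.mul_sub_le_image_sub_of_le_deriv (convex_Icc 1 s)
      (SmallA_cont_r h.prof).continuousOn
      (fun u _ => (h.prof.hr u).differentiableAt.differentiableWithinAt) ?_ 1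
      (left_mem_Icc.2 hs) s (right_mem_Icc.2 hs) hs
    intro u hu
    rw [interior_Icc] at hu
    rw [(h.prof.hr u).deriv, hqd]
    exact hsin u hu.1.le
  have h8 : 0 < 3 / q := by positivity
  have h7 := hgrow (1 + 3 / q) (by linarith)
  have h9 : q * (1 + 3 / q - 1) = 3 := by
    field_simp
    ring
  have h10 := (hcon (1 + 3 / q) (by linarith)).2.2
  linarith [h.prof.pos 1]

/-- The first phase: as long as `r ≤ 2.8` and no vertical tangent has been met, `0 < θ`, `c < r`.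
There is `S > 0` with `0 < θ < π/2` on `(0, S)`, `r < 2.8` on `[0, S)` and (`θ S = π/2` or
(`r S = 2.8` and `θ S ≤ π/2`)); moreover on `(0, S]`: `F(r) cos θ ≤ F(c)`, `r` and `x` strictly
increasing on `[0,S]`, and `r S ≤ 2.8`.
Proof: `G ≤ F(c)` as `x ≥ 0`. `θ'(0) = 1/c - c/2 > 0`; at a first zero `s > 0` of `θ` we would have
`F(r s) ≤ F(c)`, contradicting `FF_gt`. The phase is finite: `θ' > 0` while `r ≤ 1.4`, and
`cos θ ≤ F(c)/F(r) ≤ 0.35` for `0.3 ≤ r ≤ 2.8`, so `r' = sin θ` is bounded below after a short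
time. -/
theorem small_phase {c : ℝ} (hc : 0 < c) (hc' : c < 1 / 10) {x r θ : ℝ → ℝ} (h : From c x r θ) :
    ∃ S, 0 < S ∧ (∀ s ∈ Ioo 0 S, 0 < θ s ∧ θ s < π / 2) ∧ (∀ s ∈ Ioo 0 S, r s < 14 / 5) ∧
      (∀ s ∈ Icc 0 S, FF (r s) * cos (θ s) ≤ FF c) ∧ StrictMonoOn r (Icc 0 S) ∧
      StrictMonoOn x (Icc 0 S) ∧ (θ S = π / 2 ∧ r S ≤ 14 / 5 ∨ r S = 14 / 5 ∧ θ S ≤ π / 2) := by
  obtain ⟨ε, hε, hst⟩ := SmallA_start hc hc' h
  obtain ⟨s₁, hs₁, hn⟩ := SmallA_end hc hc' h
  have cθ := SmallA_cont_th h.prof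
  have cr := SmallA_cont_r h.prof
  obtain ⟨B, hB⟩ : ∃ B : Set ℝ, B = {s | ε ≤ s ∧ (θ s ≤ 0 ∨ π / 2 ≤ θ s ∨ 14 / 5 ≤ r s)} :=
    ⟨_, rfl⟩
  have hBc : IsClosed B := by
    rw [hB]
    refine (isClosed_le continuous_const continuous_id).inter ?_
    exact (isClosed_le cθ continuous_const).union
      ((isClosed_le continuous_const cθ).union (isClosed_le continuous_const cr))
  have hBn : B.Nonempty := by
    refine ⟨s₁, ?_⟩
    rw [hB]
    refine ⟨?_, ?_⟩
    · by_contra hlt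
      push Not at hlt
      exact hn (hst s₁ ⟨hs₁, hlt⟩)
    · by_contra h5
      push Not at h5
      exact hn ⟨h5.1, h5.2.1, h5.2.2⟩
  have hBb : BddBelow B := ⟨ε, fun s hs => by rw [hB] at hs; exact hs.1⟩
  have hmem := hBc.csInf_mem hBn hBb
  obtain ⟨S, hSd⟩ : ∃ S, S = sInf B := ⟨_, rfl⟩
  rw [← hSd, hB] at hmem
  obtain ⟨hS1, hS2⟩ := hmem
  have hS : 0 < S := by linarith
  have hlt : ∀ s ∈ Ioo 0 S, 0 < θ s ∧ θ s < π / 2 ∧ r s < 14 / 5 := by
    intro s hs
    by_cases h5 : s < ε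
    · exact hst s ⟨hs.1, h5⟩
    · push Not at h5
      by_contra h6
      have h7 : s ∈ B := by
        rw [hB]
        refine ⟨h5, ?_⟩
        by_contra h8
        push Not at h8
        exact h6 ⟨h8.1, h8.2.1, h8.2.2⟩
      have := csInf_le hBb h7
      rw [← hSd] at this
      linarith [hs.2]
  obtain ⟨m1, m2, m3⟩ := SmallA_mono h (S := S) fun s hs => ⟨(hlt s hs).1, (hlt s hs).2.1⟩
  have hcl : ∀ s ∈ Icc 0 S, s ∈ closure (Ioo 0 S) := by
    intro s hs
    rwa [closure_Ioo hS.ne]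
  have hSc := hcl S (right_mem_Icc.2 hS.le)
  have t1 : 0 ≤ θ S := by
    have : closure (Ioo 0 S) ⊆ {s | 0 ≤ θ s} :=
      closure_minimal (fun s hs => (hlt s hs).1.le) (isClosed_le continuous_const cθ)
    exact this hSc
  have t2 : θ S ≤ π / 2 := by
    have : closure (Ioo 0 S) ⊆ {s | θ s ≤ π / 2} :=
      closure_minimal (fun s hs => (hlt s hs).2.1.le) (isClosed_le cθ continuous_const)
    exact this hSc
  have t3 : r S ≤ 14 / 5 := by
    have : closure (Ioo 0 S) ⊆ {s | r s ≤ 14 / 5} :=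
      closure_minimal (fun s hs => (hlt s hs).2.2.le) (isClosed_le cr continuous_const)
    exact this hSc
  have t4 : 0 < θ S := by
    rcases eq_or_lt_of_le t1 with h5 | h5
    · exfalso
      have h6 := m3 S (right_mem_Icc.2 hS.le)
      rw [← h5, cos_zero, mul_one] at h6
      have h7 : c < r S := by
        have := m1 (left_mem_Icc.2 hS.le) (right_mem_Icc.2 hS.le) hS
        rwa [h.r0] at this
      exact absurd (FF_gt hc hc' h7 t3) (not_lt.2 h6)
    · exact h5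
  refine ⟨S, hS, fun s hs => ⟨(hlt s hs).1, (hlt s hs).2.1⟩, fun s hs => (hlt s hs).2.2, m3, m1,
    m2, ?_⟩
  rcases hS2 with h5 | h5 | h5
  · linarith
  · exact Or.inl ⟨le_antisymm t2 h5, t3⟩
  · exact Or.inr ⟨le_antisymm t3 h5, t2⟩

end AT
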