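import Pool.Agent.H.MP_ce2c94_gt.SmallA

/-!
# Small heights: the bound for x
-/

namespace AT

open Real Set

theorem SmallX_FF_le {c : ℝ} (hc : 0 < c) : FF c ≤ c := by
  unfold FF
  have h1 : exp (-(c ^ 2 / 4)) ≤ 1 := by
    rw [exp_le_one_iff]
    nlinarith [sq_nonneg c]
  nlinarith [exp_pos (-(c ^ 2 / 4))]

/-- `F` is increasing on `[0, 7/5]`. -/
theorem SmallX_FF_mono : MonotoneOn FF (Icc 0 (7 / 5)) := by
  refine monotoneOn_of_deriv_nonneg (convex_Icc _ _)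
    (fun y _ => (SmallA_FF_deriv y).continuousAt.continuousWithinAt)
    (fun y _ => (SmallA_FF_deriv y).differentiableAt.differentiableWithinAt) ?_
  intro y hy
  rw [interior_Icc] at hy
  rw [(SmallA_FF_deriv y).deriv]
  refine mul_nonneg (exp_pos _).le ?_
  nlinarith [hy.1, hy.2]

/-- `F` is decreasing on `[3/2, 3]`. -/
theorem SmallX_FF_anti : AntitoneOn FF (Icc (3 / 2) 3) := by
  refine antitoneOn_of_deriv_nonpos (convex_Icc _ _)
    (fun y _ => (SmallA_FF_deriv y).continuousAt.continuousWithinAt)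
    (fun y _ => (SmallA_FF_deriv y).differentiableAt.differentiableWithinAt) ?_
  intro y hy
  rw [interior_Icc] at hy
  rw [(SmallA_FF_deriv y).deriv]
  refine mul_nonpos_of_nonneg_of_nonpos (exp_pos _).le ?_
  nlinarith [hy.1, hy.2]

theorem SmallX_FF_mid {y : ℝ} (h1 : 7 / 5 ≤ y) (h2 : y ≤ 3 / 2) : 3 / 4 ≤ FF y := by
  unfold FF
  have e1 : exp (-1) ≤ exp (-(y ^ 2 / 4)) * exp (-(7 / 16)) := by
    rw [← exp_add]
    apply exp_le_exp.2
    nlinarith
  have e2 : exp (-(7 / 16)) ≤ 2 / 3 := by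
    have h3 : 1 + 7 / 16 + (7 / 16) ^ 2 / 2 ≤ exp (7 / 16 : ℝ) := by
      have := Real.quadratic_le_exp_of_nonneg (x := 7 / 16) (by norm_num)
      linarith
    rw [exp_neg, inv_le_comm₀ (exp_pos _) (by norm_num)]
    norm_num at h3 ⊢
    linarith
  have e3 := Real.exp_neg_one_gt_d9
  have e4 := exp_pos (-(y ^ 2 / 4))
  have e5 : exp (-1) ≤ exp (-(y ^ 2 / 4)) * (2 / 3) := by
    nlinarith
  nlinarith

theorem SmallX_F1 {y : ℝ} (h1 : 1 / 2 ≤ y) (h2 : y ≤ 7 / 10) : 15 / 32 ≤ FF y := by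
  have h3 := SmallX_FF_mono (a := 1 / 2) (b := y) ⟨by norm_num, by norm_num⟩
    ⟨by linarith, by linarith⟩ h1
  refine le_trans ?_ h3
  unfold FF
  have := add_one_le_exp (-((1 / 2 : ℝ) ^ 2 / 4))
  norm_num at this ⊢
  linarith

theorem SmallX_F2 {y : ℝ} (h1 : 7 / 10 ≤ y) (h2 : y ≤ 1) : 614 / 1000 ≤ FF y := by
  have h3 := SmallX_FF_mono (a := 7 / 10) (b := y) ⟨by norm_num, by norm_num⟩
    ⟨by linarith, by linarith⟩ h1
  refine le_trans ?_ h3
  unfold FF
  have := add_one_le_exp (-((7 / 10 : ℝ) ^ 2 / 4))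
  norm_num at this ⊢
  linarith

theorem SmallX_F3 {y : ℝ} (h1 : 1 ≤ y) (h2 : y ≤ 2) : 735 / 1000 ≤ FF y := by
  rcases le_total y (7 / 5) with h | h
  · have h3 := SmallX_FF_mono (a := 1) (b := y) ⟨by norm_num, by norm_num⟩
      ⟨by linarith, h⟩ h1
    refine le_trans ?_ h3
    unfold FF
    have := add_one_le_exp (-((1 : ℝ) ^ 2 / 4))
    norm_num at this ⊢
    linarith
  · rcases le_total y (3 / 2) with h' | h'
    · have := SmallX_FF_mid h h'
      linarith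
    · have h3 := SmallX_FF_anti (a := y) (b := 2) ⟨h', by linarith⟩
        ⟨by norm_num, by norm_num⟩ h2
      refine le_trans ?_ h3
      unfold FF
      have e3 := Real.exp_neg_one_gt_d9
      have e : (-((2 : ℝ) ^ 2 / 4)) = -1 := by norm_num
      rw [e]
      linarith

theorem SmallX_F4 {y : ℝ} (h1 : 2 ≤ y) (h2 : y ≤ 12 / 5) : 561 / 1000 ≤ FF y := by
  have h3 := SmallX_FF_anti (a := y) (b := 12 / 5) ⟨by linarith, by linarith⟩
    ⟨by norm_num, by norm_num⟩ h2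
  refine le_trans ?_ h3
  unfold FF
  have e3 := Real.exp_neg_one_gt_d9
  have e1 : exp (-((12 / 5 : ℝ) ^ 2 / 4)) = exp (-1) * exp (-(11 / 200)) ^ 8 := by
    rw [← exp_nat_mul, ← exp_add]
    norm_num
  have e2 : (189 / 200 : ℝ) ≤ exp (-(11 / 200)) := by
    have := add_one_le_exp (-(11 / 200 : ℝ))
    norm_num at this ⊢
    linarith
  have e4 : (189 / 200 : ℝ) ^ 8 ≤ exp (-(11 / 200)) ^ 8 :=
    pow_le_pow_left₀ (by norm_num) e2 8
  rw [e1]
  have e5 : (0.36787 : ℝ) * (189 / 200 : ℝ) ^ 8 ≤ exp (-1) * exp (-(11 / 200)) ^ 8 :=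
    mul_le_mul (by linarith) e4 (by positivity) (exp_pos _).le
  refine le_trans ?_ (mul_le_mul_of_nonneg_left e5 (by norm_num))
  norm_num

theorem SmallX_F5 {y : ℝ} (h1 : 12 / 5 ≤ y) (h2 : y ≤ 14 / 5) : 394 / 1000 ≤ FF y := by
  have h3 := SmallX_FF_anti (a := y) (b := 14 / 5) ⟨by linarith, by linarith⟩
    ⟨by norm_num, by norm_num⟩ h2
  refine le_trans ?_ h3
  unfold FF
  have e3 := Real.exp_neg_one_gt_d9
  have e1 : exp (-((14 / 5 : ℝ) ^ 2 / 4)) = exp (-1) ^ 2 * exp (1 / 25) := by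
    rw [← exp_nat_mul, ← exp_add]
    norm_num
  have e2 : (26 / 25 : ℝ) ≤ exp (1 / 25) := by
    have := add_one_le_exp (1 / 25 : ℝ)
    norm_num at this ⊢
    linarith
  rw [e1]
  have e4 : (0.36787 : ℝ) ^ 2 ≤ exp (-1) ^ 2 :=
    pow_le_pow_left₀ (by norm_num) (by linarith) 2
  have e5 : (0.36787 : ℝ) ^ 2 * (26 / 25) ≤ exp (-1) ^ 2 * exp (1 / 25) :=
    mul_le_mul e4 e2 (by norm_num) (by positivity)
  refine le_trans ?_ (mul_le_mul_of_nonneg_left e5 (by norm_num))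
  norm_num

/-- From `cos θ ≤ κ sin θ` on a time interval. -/
theorem SmallX_piece {x r θ : ℝ → ℝ} (h : IsProfile x r θ) {κ a b : ℝ} (hab : a ≤ b)
    (hk : ∀ s ∈ Ioo a b, cos (θ s) ≤ κ * sin (θ s)) :
    x b - x a ≤ κ * (r b - r a) := by
  have hd : ∀ s, HasDerivAt (fun s => x s - κ * r s) (cos (θ s) - κ * sin (θ s)) s :=
    fun s => (h.hx s).sub ((h.hr s).const_mul κ)
  have hG : AntitoneOn (fun s => x s - κ * r s) (Icc a b) := by
    refine antitoneOn_of_deriv_nonpos (convex_Icc a b)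
      (fun s _ => (hd s).continuousAt.continuousWithinAt)
      (fun s _ => (hd s).differentiableAt.differentiableWithinAt) ?_
    intro s hs
    rw [interior_Icc] at hs
    rw [(hd s).deriv]
    linarith [hk s hs]
  have h1 : x b - κ * r b ≤ x a - κ * r a :=
    hG (left_mem_Icc.2 hab) (right_mem_Icc.2 hab) hab
  linarith

theorem SmallX_cos {t m κ F f : ℝ} (ht : 0 < t) (ht' : t < π / 2) (hm : 0 < m) (hκ : 0 ≤ κ)
    (hF : m ≤ F) (hf : f ≤ 1 / 10) (hG : F * cos t ≤ f)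
    (hn : (1 + κ ^ 2) / 100 ≤ κ ^ 2 * m ^ 2) : cos t ≤ κ * sin t := by
  have g4 : 0 < cos t := cos_pos_of_mem_Ioo ⟨by linarith [pi_pos], ht'⟩
  have g5 : 0 < sin t := sin_pos_of_pos_of_lt_pi ht (by linarith [pi_pos])
  have g6 : m * cos t ≤ 1 / 10 := by nlinarith
  have g7 : (m * cos t) ^ 2 ≤ (1 / 10) ^ 2 := pow_le_pow_left₀ (by positivity) g6 2
  have g8 : m ^ 2 * (cos t ^ 2 * (1 + κ ^ 2)) ≤ m ^ 2 * κ ^ 2 := by
    have : m ^ 2 * (cos t ^ 2 * (1 + κ ^ 2)) = (m * cos t) ^ 2 * (1 + κ ^ 2) := by ring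
    rw [this]
    have h2 : (m * cos t) ^ 2 * (1 + κ ^ 2) ≤ (1 / 10) ^ 2 * (1 + κ ^ 2) :=
      mul_le_mul_of_nonneg_right g7 (by positivity)
    nlinarith
  have g9 : cos t ^ 2 * (1 + κ ^ 2) ≤ κ ^ 2 := le_of_mul_le_mul_left g8 (by positivity)
  have g10 := sin_sq_add_cos_sq t
  by_contra hcon
  push Not at hcon
  have g11 : 0 ≤ κ * sin t := mul_nonneg hκ g5.le
  have g12 : (κ * sin t) ^ 2 < cos t ^ 2 := pow_lt_pow_left₀ hcon g11 two_ne_zero
  have g13 : (κ * sin t) ^ 2 = κ ^ 2 * (1 - cos t ^ 2) := by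
    rw [mul_pow]
    congr 1
    linarith
  rw [g13] at g12
  nlinarith

/-- The part `r ≤ 1/2`. -/
theorem SmallX_half {c : ℝ} (hc : 0 < c) (hc' : c < 1 / 10) {x r θ : ℝ → ℝ}
    (h : From c x r θ) {S : ℝ} (h1 : ∀ s ∈ Ioo 0 S, 0 < θ s ∧ θ s < π / 2)
    (h2 : ∀ s ∈ Icc 0 S, FF (r s) * cos (θ s) ≤ FF c) (h3 : StrictMonoOn r (Icc 0 S))
    {σ : ℝ} (hσ : σ ∈ Icc 0 S) (hr : r σ ≤ 1 / 2) : x σ ≤ 5 / 16 := by
  have hFc : 0 < FF c := mul_pos hc (exp_pos _)
  have hFle := SmallX_FF_le hc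
  have hcont : ContinuousOn (fun s => x s - 2 * √(FF c * (r s - c) / (41 / 25))) (Icc 0 σ) := by
    have c1 := SmallA_cont_x h.prof
    have c2 := SmallA_cont_r h.prof
    exact (c1.sub (continuous_const.mul (Real.continuous_sqrt.comp
      ((continuous_const.mul (c2.sub continuous_const)).div_const _)))).continuousOn
  have hlow : ∀ y, c ≤ y → y ≤ 1 / 2 → 41 / 50 * (y - c) ≤ FF y - FF c := by
    intro y hy hy'
    refine Convex.mul_sub_le_image_sub_of_le_deriv (convex_Icc c y)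
      (fun u _ => (SmallA_FF_deriv u).continuousAt.continuousWithinAt)
      (fun u _ => (SmallA_FF_deriv u).differentiableAt.differentiableWithinAt) ?_ c
      (left_mem_Icc.2 hy) y (right_mem_Icc.2 hy) hy
    intro u hu
    rw [interior_Icc] at hu
    rw [(SmallA_FF_deriv u).deriv]
    have hu0 : 0 < u := by linarith [hu.1]
    have hu1 : u < 1 / 2 := by linarith [hu.2]
    have e1 : 15 / 16 ≤ exp (-(u ^ 2 / 4)) := by
      have := add_one_le_exp (-(u ^ 2 / 4))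
      nlinarith
    have e2 : 7 / 8 ≤ 1 - u ^ 2 / 2 := by nlinarith
    have e3 : (15 / 16 : ℝ) * (7 / 8) ≤ exp (-(u ^ 2 / 4)) * (1 - u ^ 2 / 2) :=
      mul_le_mul e1 e2 (by norm_num) (exp_pos _).le
    linarith
  have hd : ∀ s ∈ Ioo 0 σ, ∃ d, d ≤ 0 ∧
      HasDerivAt (fun s => x s - 2 * √(FF c * (r s - c) / (41 / 25))) d s := by
    intro s hs
    have hsS : s ∈ Ioo 0 S := ⟨hs.1, lt_of_lt_of_le hs.2 hσ.2⟩
    have hrc : c < r s := by
      have := h3 (left_mem_Icc.2 (hσ.1.trans hσ.2)) (Ioo_subset_Icc_self hsS) hs.1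
      rwa [h.r0] at this
    have hrh : r s < 1 / 2 := by
      have := h3 (Ioo_subset_Icc_self hsS) hσ hs.2
      linarith
    have hu : 0 < FF c * (r s - c) / (41 / 25) := by
      have : 0 < r s - c := by linarith
      positivity
    have d1 : HasDerivAt (fun s => FF c * (r s - c) / (41 / 25))
        (FF c * sin (θ s) / (41 / 25)) s :=
      (((h.prof.hr s).sub_const c).const_mul (FF c)).div_const (41 / 25)
    have d2 := d1.sqrt hu.ne'
    have d3 := (h.prof.hx s).sub (d2.const_mul 2)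
    refine ⟨_, ?_, d3⟩
    obtain ⟨t1, t2⟩ := h1 s hsS
    have g4 : 0 < cos (θ s) := cos_pos_of_mem_Ioo ⟨by linarith [pi_pos], t2⟩
    have g5 : 0 < sin (θ s) := sin_pos_of_pos_of_lt_pi t1 (by linarith [pi_pos])
    have hG := h2 s (Ioo_subset_Icc_self hsS)
    have hF := hlow (r s) hrc.le hrh.le
    have hsq : 0 < √(FF c * (r s - c) / (41 / 25)) := Real.sqrt_pos.2 hu
    have hss := Real.sq_sqrt hu.le
    obtain ⟨q, hq⟩ : ∃ q, q = √(FF c * (r s - c) / (41 / 25)) := ⟨_, rfl⟩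
    rw [← hq] at hsq hss ⊢
    -- the key inequality cos * q ≤ FF c * sin / 1.64
    have k1 : cos (θ s) ^ 2 * (FF c + 41 / 25 * (r s - c)) ≤ FF c := by
      obtain ⟨A, hA⟩ : ∃ A, A = FF c := ⟨_, rfl⟩
      obtain ⟨B, hB⟩ : ∃ B, B = FF (r s) := ⟨_, rfl⟩
      obtain ⟨δ, hδ⟩ : ∃ δ, δ = r s - c := ⟨_, rfl⟩
      rw [← hA, ← hB] at hG
      rw [← hA, ← hB, ← hδ] at hF
      rw [← hA, ← hδ]
      rw [← hA] at hFc
      have hδ0 : 0 < δ := by rw [hδ]; linarith
      have hB0 : 0 < B := by linarith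
      have k2 : B ^ 2 * cos (θ s) ^ 2 ≤ A ^ 2 := by
        rw [← mul_pow]
        exact pow_le_pow_left₀ (by positivity) hG 2
      have k3 : A * (A + 41 / 25 * δ) ≤ B ^ 2 := by nlinarith
      have k4 : B ^ 2 * (cos (θ s) ^ 2 * (A + 41 / 25 * δ)) ≤ B ^ 2 * A := by
        calc B ^ 2 * (cos (θ s) ^ 2 * (A + 41 / 25 * δ))
            = (B ^ 2 * cos (θ s) ^ 2) * (A + 41 / 25 * δ) := by ring
          _ ≤ A ^ 2 * (A + 41 / 25 * δ) := mul_le_mul_of_nonneg_right k2 (by positivity)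
          _ = (A * (A + 41 / 25 * δ)) * A := by ring
          _ ≤ B ^ 2 * A := mul_le_mul_of_nonneg_right k3 hFc.le
      exact le_of_mul_le_mul_left k4 (by positivity)
    have k5 : cos (θ s) ^ 2 * (41 / 25 * (r s - c)) ≤ FF c * sin (θ s) ^ 2 := by
      have := sin_sq_add_cos_sq (θ s)
      have e : sin (θ s) ^ 2 = 1 - cos (θ s) ^ 2 := by linarith
      rw [e]
      linarith
    have k6 : (cos (θ s) * q) ^ 2 ≤ (FF c * sin (θ s) / (41 / 25)) ^ 2 := by
      rw [mul_pow, hss]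
      have e1 : cos (θ s) ^ 2 * (FF c * (r s - c) / (41 / 25)) =
          FF c / (41 / 25) ^ 2 * (cos (θ s) ^ 2 * (41 / 25 * (r s - c))) := by ring
      have e2 : (FF c * sin (θ s) / (41 / 25)) ^ 2 =
          FF c / (41 / 25) ^ 2 * (FF c * sin (θ s) ^ 2) := by ring
      rw [e1, e2]
      exact mul_le_mul_of_nonneg_left k5 (by positivity)
    have k7 : cos (θ s) * q ≤ FF c * sin (θ s) / (41 / 25) :=
      (sq_le_sq₀ (by positivity) (by positivity)).1 k6
    have k8 : cos (θ s) ≤ FF c * sin (θ s) / (41 / 25) / q := by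
      rw [le_div_iff₀ hsq]
      exact k7
    have k9 : 2 * (FF c * sin (θ s) / (41 / 25) / (2 * q)) =
        FF c * sin (θ s) / (41 / 25) / q := by
      field_simp
    rw [k9]
    linarith
  have hG : AntitoneOn (fun s => x s - 2 * √(FF c * (r s - c) / (41 / 25))) (Icc 0 σ) := by
    refine antitoneOn_of_deriv_nonpos (convex_Icc 0 σ) hcont ?_ ?_
    · intro s hs
      rw [interior_Icc] at hs
      obtain ⟨d, -, hd'⟩ := hd s hs
      exact hd'.differentiableAt.differentiableWithinAt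
    · intro s hs
      rw [interior_Icc] at hs
      obtain ⟨d, hd0, hd'⟩ := hd s hs
      rw [hd'.deriv]
      exact hd0
  have h5 : x σ - 2 * √(FF c * (r σ - c) / (41 / 25)) ≤
      x 0 - 2 * √(FF c * (r 0 - c) / (41 / 25)) :=
    hG (left_mem_Icc.2 hσ.1) (right_mem_Icc.2 hσ.1) hσ.1
  rw [h.x0, h.r0, sub_self, mul_zero, zero_div, Real.sqrt_zero, mul_zero, sub_zero] at h5
  have h6 : √(FF c * (r σ - c) / (41 / 25)) ≤ 5 / 32 := by
    rw [Real.sqrt_le_left (by norm_num)]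
    have e1 : FF c * (r σ - c) ≤ 1 / 25 := by
      rcases le_total (r σ) c with h7 | h7
      · have : FF c * (r σ - c) ≤ 0 := mul_nonpos_of_nonneg_of_nonpos hFc.le (by linarith)
        linarith
      · have : FF c * (r σ - c) ≤ c * (1 / 2 - c) :=
          mul_le_mul hFle (by linarith) (by linarith) hc.le
        nlinarith
    rw [div_le_iff₀ (by norm_num)]
    norm_num
    linarith
  linarith

/-- The bound `x < 0.74`. (i) `r ∈ (c, 1/2]`: `F(r) - F(c) ≥ 0.82 (r - c)` (`F' ≥ 0.82` on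
`[0,1/2]`), `F(r) + F(c) ≥ 2 F(c)`, so `cot² θ ≤ F(c)²/(F(r)² - F(c)²) ≤ F(c)/(1.64 (r-c))` and
`x - 2 √(F(c)(r-c)/1.64)` is nonincreasing; `F(c)(1/2-c) ≤ c(1/2-c) ≤ 0.04` gives `x ≤ 0.3125`
as long as `r ≤ 1/2`.
(ii) on each piece `cos θ ≤ 0.1/F(r)` gives `cot θ ≤ κ`, so `x - κ r` is nonincreasing:
`[.5,.7]` κ=.2185, `[.7,1]` κ=.1645, `[1,2]` κ=.138, `[2,2.4]` κ=.1795, `[2.4,2.8]` κ=.263.
Total `< .3125 + .0437 + .0494 + .138 + .0718 + .1052 = .7206`. -/
theorem small_x {c : ℝ} (hc : 0 < c) (hc' : c < 1 / 10) {x r θ : ℝ → ℝ} (h : From c x r θ)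
    {S : ℝ} (hS : 0 < S) (h1 : ∀ s ∈ Ioo 0 S, 0 < θ s ∧ θ s < π / 2)
    (h2 : ∀ s ∈ Icc 0 S, FF (r s) * cos (θ s) ≤ FF c) (h3 : StrictMonoOn r (Icc 0 S))
    (h4 : r S ≤ 14 / 5) : x S < 37 / 50 := by
  have hFle := SmallX_FF_le hc
  have hcr : c < r S := by
    have := h3 (left_mem_Icc.2 hS.le) (right_mem_Icc.2 hS.le) hS
    rwa [h.r0] at this
  -- times of the heights
  have hex : ∀ q, c ≤ q → ∃ σ ∈ Icc 0 S, r σ = min q (r S) := by
    intro q hq
    have hm : min q (r S) ∈ Icc (r 0) (r S) := by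
      rw [h.r0]
      exact ⟨le_min hq hcr.le, min_le_right _ _⟩
    obtain ⟨σ, hσ, he⟩ := intermediate_value_Icc hS.le
      (SmallA_cont_r h.prof).continuousOn hm
    exact ⟨σ, hσ, he⟩
  -- the pieces
  have hpc : ∀ p q m κ : ℝ, p ≤ q → 0 < m → 0 ≤ κ →
      (∀ y, p ≤ y → y ≤ q → m ≤ FF y) → (1 + κ ^ 2) / 100 ≤ κ ^ 2 * m ^ 2 →
      ∀ a ∈ Icc 0 S, ∀ b ∈ Icc 0 S, r a = min p (r S) → r b = min q (r S) →
        x b - x a ≤ κ * (q - p) := by
    intro p q m κ hpq hm hκ hF hn a ha b hb hra hrb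
    have hle : r a ≤ r b := by
      rw [hra, hrb]
      exact min_le_min_right _ hpq
    have hab : a ≤ b := (h3.le_iff_le ha hb).1 hle
    have k1 : x b - x a ≤ κ * (r b - r a) := by
      refine SmallX_piece h.prof hab ?_
      intro s hs
      have hsS : s ∈ Ioo 0 S := ⟨lt_of_le_of_lt ha.1 hs.1, lt_of_lt_of_le hs.2 hb.2⟩
      have g1 : r a < r s := h3 ha (Ioo_subset_Icc_self hsS) hs.1
      have g2 : r s < r b := h3 (Ioo_subset_Icc_self hsS) hb hs.2
      have g3 : p < r S := by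
        by_contra hcon
        push Not at hcon
        rw [hra, min_eq_right hcon] at g1
        rw [hrb] at g2
        have := min_le_right q (r S)
        linarith
      rw [hra, min_eq_left g3.le] at g1
      have g4 : r s ≤ q := by
        rw [hrb] at g2
        exact g2.le.trans (min_le_left _ _)
      exact SmallX_cos (h1 s hsS).1 (h1 s hsS).2 hm hκ (hF _ g1.le g4)
        (by linarith) (h2 s (Ioo_subset_Icc_self hsS)) hn
    have k2 : r b - r a ≤ q - p := by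
      rw [hra, hrb]
      rcases le_total p (r S) with h5 | h5
      · rw [min_eq_left h5]
        linarith [min_le_left q (r S)]
      · rw [min_eq_right h5]
        linarith [min_le_right q (r S)]
    exact k1.trans (mul_le_mul_of_nonneg_left k2 hκ)
  obtain ⟨s1, m1, e1⟩ := hex (1 / 2) (by linarith)
  obtain ⟨s2, m2, e2⟩ := hex (7 / 10) (by linarith)
  obtain ⟨s3, m3, e3⟩ := hex 1 (by linarith)
  obtain ⟨s4, m4, e4⟩ := hex 2 (by linarith)
  obtain ⟨s5, m5, e5⟩ := hex (12 / 5) (by linarith)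
  have e6 : r S = min (14 / 5) (r S) := (min_eq_right h4).symm
  have q0 := SmallX_half hc hc' h h1 h2 h3 m1 (by rw [e1]; exact min_le_left _ _)
  have q1 := hpc (1 / 2) (7 / 10) (15 / 32) (11 / 50) (by norm_num) (by norm_num) (by norm_num)
    (fun y a b => SmallX_F1 a b) (by norm_num) s1 m1 s2 m2 e1 e2
  have q2 := hpc (7 / 10) 1 (614 / 1000) (166 / 1000) (by norm_num) (by norm_num) (by norm_num)
    (fun y a b => SmallX_F2 a b) (by norm_num) s2 m2 s3 m3 e2 e3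
  have q3 := hpc 1 2 (735 / 1000) (138 / 1000) (by norm_num) (by norm_num) (by norm_num)
    (fun y a b => SmallX_F3 a b) (by norm_num) s3 m3 s4 m4 e3 e4
  have q4 := hpc 2 (12 / 5) (561 / 1000) (182 / 1000) (by norm_num) (by norm_num) (by norm_num)
    (fun y a b => SmallX_F4 a b) (by norm_num) s4 m4 s5 m5 e4 e5
  have q5 := hpc (12 / 5) (14 / 5) (394 / 1000) (2635 / 10000) (by norm_num) (by norm_num)
    (by norm_num) (fun y a b => SmallX_F5 a b) (by norm_num) s5 m5 S (right_mem_Icc.2 hS.le) e5 e6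
  linarith

end AT
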