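import Pool.Agent.H.MP_ce2c94_gt.Defs
import Pool.Agent.H.MP_ce2c94_gt.Chain

/-!
# Bounds for K, lower system
-/

namespace AT

open Real Set

theorem StepLK_MM : (0 : ℝ) < (MM : ℝ) := by
  norm_num [MM]

theorem StepLK_sq {N n : ℕ} (hn : n < N) :
    ((N * N - (n + 1) * (n + 1) : ℕ) : ℝ) = (N : ℝ) ^ 2 - ((n : ℝ) + 1) ^ 2 := by
  rw [Nat.cast_sub (Nat.mul_le_mul hn hn)]
  push_cast
  ring

theorem StepLK_sq' {N n : ℕ} (hn : n < N) :
    ((N * N - n * n : ℕ) : ℝ) = (N : ℝ) ^ 2 - (n : ℝ) ^ 2 := by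
  rw [Nat.cast_sub (Nat.mul_le_mul hn.le hn.le)]
  push_cast
  ring

theorem StepLK_lt (a b : ℕ) (hb : 0 < b) : (a : ℝ) / b < ((a / b : ℕ) : ℝ) + 1 := by
  have h := Nat.lt_div_mul_add (a := a) hb
  rw [div_lt_iff₀ (by exact_mod_cast hb)]
  have h' : (a : ℝ) < ((a / b * b + b : ℕ) : ℝ) := by exact_mod_cast h
  push_cast at h'
  linarith

/-- `kLow` is a lower bound: `KL τ x r = x τ + (1-τ²)/r - (1-τ²) r/2 ≥ (XL/M)(n/N)
+ (N²-(n+1)²)/N² · M/RU - (N²-n²)/N² · RU/(2M)`; floors: `((a / b : ℕ) : ℝ) ≤ a / b`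
(`Nat.cast_div_le`), and `a / b < (a / b : ℕ) + 1` (`Nat.lt_div_add_one`, `Nat.div_add_mod`).
The truncated subtraction is genuine since `kLow > 0`. -/
theorem kLow_le {N n XL RU : ℕ} (hN : 0 < N) (hn : n < N) (hk : 0 < kLow N n XL RU) {τ x r : ℝ}
    (h1 : (n : ℝ) / N ≤ τ) (h2 : τ ≤ ((n : ℝ) + 1) / N) (hx : (XL : ℝ) / MM ≤ x) (hr : 0 < r)
    (hr' : r ≤ (RU : ℝ) / MM) : (kLow N n XL RU : ℝ) / MM ≤ KL τ x r := by
  have hM := StepLK_MM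
  have hNr : (0 : ℝ) < N := by exact_mod_cast hN
  have hRU : (0 : ℝ) < RU := by
    have h := lt_of_lt_of_le hr hr'
    by_contra hc
    have h0 : (RU : ℝ) / MM ≤ 0 := div_nonpos_of_nonpos_of_nonneg (not_lt.mp hc) hM.le
    linarith
  have hn1 : (n : ℝ) + 1 ≤ N := by exact_mod_cast hn
  have hn0 : (0 : ℝ) ≤ n := Nat.cast_nonneg n
  set A : ℕ := XL * n / N with hA
  set B : ℕ := (N * N - (n + 1) * (n + 1)) * (MM * MM) / (N * N * RU) with hB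
  set C : ℕ := (N * N - n * n) * RU / (2 * (N * N)) with hC
  have e : kLow N n XL RU = A + B - (C + 1) := rfl
  rw [e] at hk ⊢
  rw [Nat.cast_sub (by omega)]
  have a1 : (A : ℝ) ≤ (XL : ℝ) * n / N := by
    have h := Nat.cast_div_le (α := ℝ) (m := XL * n) (n := N)
    push_cast at h
    exact h
  have b1 : (B : ℝ) ≤ ((N : ℝ) ^ 2 - ((n : ℝ) + 1) ^ 2) * ((MM : ℝ) * MM) / ((N : ℝ) * N * RU) := by
    have h := Nat.cast_div_le (α := ℝ) (m := (N * N - (n + 1) * (n + 1)) * (MM * MM))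
      (n := N * N * RU)
    rw [Nat.cast_mul, StepLK_sq hn] at h
    push_cast at h
    exact h
  have c1 : ((N : ℝ) ^ 2 - (n : ℝ) ^ 2) * RU / (2 * ((N : ℝ) * N)) < (C : ℝ) + 1 := by
    have h := StepLK_lt ((N * N - n * n) * RU) (2 * (N * N)) (by positivity)
    rw [Nat.cast_mul, StepLK_sq' hn] at h
    push_cast at h
    exact h
  have hτ0 : 0 ≤ τ := le_trans (by positivity) h1
  have hτ1 : τ ≤ 1 := h2.trans ((div_le_one hNr).mpr hn1)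
  have s1 : 1 - (((n : ℝ) + 1) / N) ^ 2 ≤ 1 - τ ^ 2 := by
    have := pow_le_pow_left₀ hτ0 h2 2
    linarith
  have s2 : 1 - τ ^ 2 ≤ 1 - ((n : ℝ) / N) ^ 2 := by
    have := pow_le_pow_left₀ (by positivity) h1 2
    linarith
  have s0 : 0 ≤ 1 - (((n : ℝ) + 1) / N) ^ 2 := by
    have h3 : ((n : ℝ) + 1) / N ≤ 1 := (div_le_one hNr).mpr hn1
    have h4 : 0 ≤ ((n : ℝ) + 1) / N := by positivity
    nlinarith
  have t1 : (XL : ℝ) / MM * ((n : ℝ) / N) ≤ x * τ :=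
    mul_le_mul hx h1 (by positivity) (le_trans (by positivity) hx)
  have t2 : (1 - (((n : ℝ) + 1) / N) ^ 2) * ((MM : ℝ) / RU) ≤ (1 - τ ^ 2) * (1 / r) := by
    refine mul_le_mul s1 ?_ (by positivity) (by linarith)
    rw [div_le_div_iff₀ hRU hr]
    rw [le_div_iff₀ hM] at hr'
    linarith
  have t3 : (1 - τ ^ 2) * (r / 2) ≤ (1 - ((n : ℝ) / N) ^ 2) * ((RU : ℝ) / MM / 2) :=
    mul_le_mul s2 (by linarith) (by positivity) (by linarith)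
  have k1 : (XL : ℝ) / MM * ((n : ℝ) / N) = (XL : ℝ) * n / N / MM := by field_simp
  have k2 : (1 - (((n : ℝ) + 1) / N) ^ 2) * ((MM : ℝ) / RU)
      = ((N : ℝ) ^ 2 - ((n : ℝ) + 1) ^ 2) * ((MM : ℝ) * MM) / ((N : ℝ) * N * RU) / MM := by
    field_simp
  have k3 : (1 - ((n : ℝ) / N) ^ 2) * ((RU : ℝ) / MM / 2)
      = ((N : ℝ) ^ 2 - (n : ℝ) ^ 2) * RU / (2 * ((N : ℝ) * N)) / MM := by
    field_simp
  have u1 : (A : ℝ) / MM ≤ (XL : ℝ) * n / N / MM := div_le_div_of_nonneg_right a1 hM.le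
  have u2 := div_le_div_of_nonneg_right b1 hM.le
  have u3 := div_le_div_of_nonneg_right c1.le hM.le
  have hKL : KL τ x r = x * τ + (1 - τ ^ 2) * (1 / r) - (1 - τ ^ 2) * (r / 2) := by
    unfold KL
    ring
  rw [hKL]
  have hs : (((A + B : ℕ) : ℝ) - ((C + 1 : ℕ) : ℝ)) / MM = (A : ℝ) / MM + (B : ℝ) / MM
      - ((C : ℝ) + 1) / MM := by
    push_cast
    ring
  rw [hs]
  linarith

/-- `kHigh` is an upper bound. -/
theorem kHigh_ge {N n XU RL : ℕ} (hN : 0 < N) (hn : n < N) (hRL : 0 < RL) {τ x r : ℝ}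
    (h1 : (n : ℝ) / N ≤ τ) (h2 : τ ≤ ((n : ℝ) + 1) / N) (hx0 : 0 ≤ x) (hx : x ≤ (XU : ℝ) / MM)
    (hr : (RL : ℝ) / MM ≤ r) : KL τ x r ≤ (kHigh N n XU RL : ℝ) / MM := by
  have hM := StepLK_MM
  have hNr : (0 : ℝ) < N := by exact_mod_cast hN
  have hRLr : (0 : ℝ) < RL := by exact_mod_cast hRL
  have hn1 : (n : ℝ) + 1 ≤ N := by exact_mod_cast hn
  have hn0 : (0 : ℝ) ≤ n := Nat.cast_nonneg n
  have hr0 : 0 < r := lt_of_lt_of_le (by positivity) hr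
  set A : ℕ := XU * (n + 1) / N with hA
  set B : ℕ := (N * N - n * n) * (MM * MM) / (N * N * RL) with hB
  set C : ℕ := (N * N - (n + 1) * (n + 1)) * RL / (2 * (N * N)) with hC
  have e : kHigh N n XU RL = A + 2 + B - C := rfl
  rw [e]
  have a1 : (XU : ℝ) * ((n : ℝ) + 1) / N < (A : ℝ) + 1 := by
    have h := StepLK_lt (XU * (n + 1)) N hN
    push_cast at h
    exact h
  have b1 : ((N : ℝ) ^ 2 - (n : ℝ) ^ 2) * ((MM : ℝ) * MM) / ((N : ℝ) * N * RL) < (B : ℝ) + 1 := by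
    have h := StepLK_lt ((N * N - n * n) * (MM * MM)) (N * N * RL) (by positivity)
    rw [Nat.cast_mul, StepLK_sq' hn] at h
    push_cast at h
    exact h
  have c1 : (C : ℝ) ≤ ((N : ℝ) ^ 2 - ((n : ℝ) + 1) ^ 2) * RL / (2 * ((N : ℝ) * N)) := by
    have h := Nat.cast_div_le (α := ℝ) (m := (N * N - (n + 1) * (n + 1)) * RL)
      (n := 2 * (N * N))
    rw [Nat.cast_mul, StepLK_sq hn] at h
    push_cast at h
    exact h
  have hτ0 : 0 ≤ τ := le_trans (by positivity) h1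
  have hτ1 : τ ≤ 1 := h2.trans ((div_le_one hNr).mpr hn1)
  have s1 : 1 - (((n : ℝ) + 1) / N) ^ 2 ≤ 1 - τ ^ 2 := by
    have := pow_le_pow_left₀ hτ0 h2 2
    linarith
  have s2 : 1 - τ ^ 2 ≤ 1 - ((n : ℝ) / N) ^ 2 := by
    have := pow_le_pow_left₀ (by positivity) h1 2
    linarith
  have s0 : 0 ≤ 1 - τ ^ 2 := by nlinarith
  have t1 : x * τ ≤ (XU : ℝ) / MM * (((n : ℝ) + 1) / N) :=
    mul_le_mul hx h2 hτ0 (le_trans hx0 hx)
  have t2 : (1 - τ ^ 2) * (1 / r) ≤ (1 - ((n : ℝ) / N) ^ 2) * ((MM : ℝ) / RL) := by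
    refine mul_le_mul s2 ?_ (by positivity) (by linarith)
    rw [div_le_div_iff₀ hr0 hRLr]
    rw [div_le_iff₀ hM] at hr
    linarith
  have t3 : (1 - (((n : ℝ) + 1) / N) ^ 2) * ((RL : ℝ) / MM / 2) ≤ (1 - τ ^ 2) * (r / 2) :=
    mul_le_mul s1 (by linarith) (by positivity) s0
  have k1 : (XU : ℝ) / MM * (((n : ℝ) + 1) / N) = (XU : ℝ) * ((n : ℝ) + 1) / N / MM := by
    field_simp
  have k2 : (1 - ((n : ℝ) / N) ^ 2) * ((MM : ℝ) / RL)
      = ((N : ℝ) ^ 2 - (n : ℝ) ^ 2) * ((MM : ℝ) * MM) / ((N : ℝ) * N * RL) / MM := by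
    field_simp
  have k3 : (1 - (((n : ℝ) + 1) / N) ^ 2) * ((RL : ℝ) / MM / 2)
      = ((N : ℝ) ^ 2 - ((n : ℝ) + 1) ^ 2) * RL / (2 * ((N : ℝ) * N)) / MM := by
    field_simp
  have u1 := div_le_div_of_nonneg_right a1.le hM.le
  have u2 := div_le_div_of_nonneg_right b1.le hM.le
  have u3 := div_le_div_of_nonneg_right c1 hM.le
  have hKL : KL τ x r = x * τ + (1 - τ ^ 2) * (1 / r) - (1 - τ ^ 2) * (r / 2) := by
    unfold KL
    ring
  rw [hKL]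
  have hsub : ((A + 2 + B : ℕ) : ℝ) - (C : ℝ) ≤ ((A + 2 + B - C : ℕ) : ℝ) := by
    have h : A + 2 + B ≤ (A + 2 + B - C) + C := by omega
    have h' : ((A + 2 + B : ℕ) : ℝ) ≤ (((A + 2 + B - C) + C : ℕ) : ℝ) := by exact_mod_cast h
    rw [Nat.cast_add (A + 2 + B - C) C] at h'
    linarith
  have hs : (((A + 2 + B : ℕ) : ℝ) - (C : ℝ)) / MM = ((A : ℝ) + 1) / MM + ((B : ℝ) + 1) / MM
      - (C : ℝ) / MM := by
    push_cast
    ring
  have hfin := div_le_div_of_nonneg_right hsub hM.le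
  rw [hs] at hfin
  linarith

end AT
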