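import Pool.Agent.H.MP_ce2c94_gt.Defs
import Pool.Agent.H.MP_ce2c94_gt.Chain

/-!
# Bounds for K, upper system
-/

namespace AT

open Real Set

theorem StepUK_div_lt (a : ℕ) {b : ℕ} (hb : 0 < b) : (a : ℝ) / b ≤ ((a / b : ℕ) : ℝ) + 1 := by
  have hb' : (0 : ℝ) < b := by exact_mod_cast hb
  rw [div_le_iff₀ hb']
  have h1 : b * (a / b) + a % b = a := Nat.div_add_mod a b
  have h2 : a % b < b := Nat.mod_lt _ hb
  have h3 : a ≤ (a / b + 1) * b := by nlinarith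
  exact_mod_cast h3

theorem StepUK_cast1 {N n : ℕ} (hn : n < N) :
    ((N * N - (n + 1) * (n + 1) : ℕ) : ℝ) = (N : ℝ) * N - ((n : ℝ) + 1) * (n + 1) := by
  rw [Nat.cast_sub (Nat.mul_le_mul hn hn)]
  push_cast
  ring

theorem StepUK_cast0 {N n : ℕ} (hn : n < N) :
    ((N * N - n * n : ℕ) : ℝ) = (N : ℝ) * N - (n : ℝ) * n := by
  rw [Nat.cast_sub (Nat.mul_le_mul hn.le hn.le)]
  push_cast
  ring

theorem StepUK_tau {N n : ℕ} (hN : 0 < N) (hn : n < N) {τ : ℝ}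
    (h1 : (n : ℝ) / N ≤ τ) (h2 : τ ≤ ((n : ℝ) + 1) / N) :
    0 ≤ τ ∧ 0 ≤ 1 - (((n : ℝ) + 1) / N) ^ 2 ∧ 1 - (((n : ℝ) + 1) / N) ^ 2 ≤ 1 - τ ^ 2 ∧
      1 - τ ^ 2 ≤ 1 - ((n : ℝ) / N) ^ 2 := by
  have hN' : (0 : ℝ) < N := by exact_mod_cast hN
  have h0 : 0 ≤ (n : ℝ) / N := by positivity
  have hτ : 0 ≤ τ := le_trans h0 h1
  have h3 : ((n : ℝ) + 1) / N ≤ 1 := by
    rw [div_le_one hN']
    exact_mod_cast hn
  have h4 : 0 ≤ ((n : ℝ) + 1) / N := by positivity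
  refine ⟨hτ, ?_, ?_, ?_⟩
  · nlinarith
  · nlinarith
  · nlinarith

/-- `kLowU` is a lower bound of `KU τ x r = x τ + (1-τ²) r/2 - (1-τ²)/r`. -/
theorem kLowU_le {N n XL RL : ℕ} (hN : 0 < N) (hn : n < N) (hRL : 0 < RL)
    (hk : 0 < kLowU N n XL RL) {τ x r : ℝ}
    (h1 : (n : ℝ) / N ≤ τ) (h2 : τ ≤ ((n : ℝ) + 1) / N) (hx : (XL : ℝ) / MM ≤ x)
    (hr : (RL : ℝ) / MM ≤ r) : (kLowU N n XL RL : ℝ) / MM ≤ KU τ x r := by
  obtain ⟨hτ, hb0, hb1, hb2⟩ := StepUK_tau hN hn h1 h2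
  have hN' : (0 : ℝ) < N := by exact_mod_cast hN
  have hRL' : (0 : ℝ) < RL := by exact_mod_cast hRL
  have hMM : (0 : ℝ) < (MM : ℝ) := by norm_num [MM]
  have hrl : (0 : ℝ) < (RL : ℝ) / MM := by positivity
  have hr0 : 0 < r := lt_of_lt_of_le hrl hr
  -- the truncated subtraction is genuine
  have hcast : (kLowU N n XL RL : ℝ) =
      ((XL * n / N : ℕ) : ℝ) + (((N * N - (n + 1) * (n + 1)) * RL / (2 * (N * N)) : ℕ) : ℝ)
        - ((((N * N - n * n) * (MM * MM) / (N * N * RL) : ℕ) : ℝ) + 1) := by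
    have hle : (N * N - n * n) * (MM * MM) / (N * N * RL) + 1 ≤
        XL * n / N + (N * N - (n + 1) * (n + 1)) * RL / (2 * (N * N)) := by
      unfold kLowU at hk
      omega
    unfold kLowU
    rw [Nat.cast_sub hle]
    push_cast
    ring
  have hA : ((XL * n / N : ℕ) : ℝ) ≤ (XL : ℝ) * n / N := by
    have := @Nat.cast_div_le ℝ _ _ _ (XL * n) N
    push_cast at this
    exact this
  have hB : (((N * N - (n + 1) * (n + 1)) * RL / (2 * (N * N)) : ℕ) : ℝ) ≤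
      ((N : ℝ) * N - ((n : ℝ) + 1) * (n + 1)) * RL / (2 * ((N : ℝ) * N)) := by
    have := @Nat.cast_div_le ℝ _ _ _ ((N * N - (n + 1) * (n + 1)) * RL) (2 * (N * N))
    rw [Nat.cast_mul, StepUK_cast1 hn] at this
    refine this.trans (le_of_eq ?_)
    push_cast
    ring
  have hC : ((N : ℝ) * N - (n : ℝ) * n) * (MM * MM) / ((N : ℝ) * N * RL) ≤
      ((((N * N - n * n) * (MM * MM) / (N * N * RL) : ℕ) : ℝ) + 1) := by
    have hpos : 0 < N * N * RL := by positivity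
    have := StepUK_div_lt ((N * N - n * n) * (MM * MM)) hpos
    rw [Nat.cast_mul (N * N - n * n), StepUK_cast0 hn] at this
    refine le_trans (le_of_eq ?_) this
    push_cast
    ring
  rw [hcast]
  have e1 : ((XL : ℝ) * n / N) / MM ≤ x * τ := by
    have : (XL : ℝ) * n / N / MM = ((XL : ℝ) / MM) * ((n : ℝ) / N) := by
      field_simp
    rw [this]
    exact mul_le_mul hx h1 (by positivity) (le_trans (by positivity) hx)
  have e2 : (((N : ℝ) * N - ((n : ℝ) + 1) * (n + 1)) * RL / (2 * ((N : ℝ) * N))) / MM ≤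
      (1 - τ ^ 2) * (r / 2) := by
    have : (((N : ℝ) * N - ((n : ℝ) + 1) * (n + 1)) * RL / (2 * ((N : ℝ) * N))) / MM =
        (1 - (((n : ℝ) + 1) / N) ^ 2) * ((RL : ℝ) / MM / 2) := by
      field_simp
    rw [this]
    exact mul_le_mul hb1 (by linarith) (by positivity) (le_trans hb0 hb1)
  have e3 : (1 - τ ^ 2) * (1 / r) ≤
      (((N : ℝ) * N - (n : ℝ) * n) * (MM * MM) / ((N : ℝ) * N * RL)) / MM := by
    have : (((N : ℝ) * N - (n : ℝ) * n) * (MM * MM) / ((N : ℝ) * N * RL)) / MM =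
        (1 - ((n : ℝ) / N) ^ 2) * (1 / ((RL : ℝ) / MM)) := by
      field_simp
    rw [this]
    exact mul_le_mul hb2 (one_div_le_one_div_of_le hrl hr) (by positivity)
      (le_trans (le_trans hb0 hb1) hb2)
  have e4 : KU τ x r = x * τ + (1 - τ ^ 2) * (r / 2) - (1 - τ ^ 2) * (1 / r) := by
    unfold KU
    ring
  rw [e4]
  have f1 := div_le_div_of_nonneg_right hA hMM.le
  have f2 := div_le_div_of_nonneg_right hB hMM.le
  have f3 := div_le_div_of_nonneg_right hC hMM.le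
  rw [sub_div, add_div]
  linarith

/-- `kHighU` is an upper bound. -/
theorem kHighU_ge {N n XU RU : ℕ} (hN : 0 < N) (hn : n < N) {τ x r : ℝ}
    (h1 : (n : ℝ) / N ≤ τ) (h2 : τ ≤ ((n : ℝ) + 1) / N) (hx0 : 0 ≤ x) (hx : x ≤ (XU : ℝ) / MM)
    (hr : 0 < r) (hr' : r ≤ (RU : ℝ) / MM) : KU τ x r ≤ (kHighU N n XU RU : ℝ) / MM := by
  obtain ⟨hτ, hb0, hb1, hb2⟩ := StepUK_tau hN hn h1 h2
  have hN' : (0 : ℝ) < N := by exact_mod_cast hN
  have hMM : (0 : ℝ) < (MM : ℝ) := by norm_num [MM]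
  have hru : (0 : ℝ) < (RU : ℝ) / MM := lt_of_lt_of_le hr hr'
  have hRU : 0 < RU := by
    rcases Nat.eq_zero_or_pos RU with h | h
    · subst h
      simp at hru
    · exact h
  have hRU' : (0 : ℝ) < RU := by exact_mod_cast hRU
  have hcast : ((XU * (n + 1) / N : ℕ) : ℝ) + 2 +
      (((N * N - n * n) * RU / (2 * (N * N)) : ℕ) : ℝ) -
      (((N * N - (n + 1) * (n + 1)) * (MM * MM) / (N * N * RU) : ℕ) : ℝ) ≤
      (kHighU N n XU RU : ℝ) := by
    have hle : XU * (n + 1) / N + 2 + (N * N - n * n) * RU / (2 * (N * N)) ≤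
        kHighU N n XU RU + (N * N - (n + 1) * (n + 1)) * (MM * MM) / (N * N * RU) := by
      unfold kHighU
      omega
    have : ((XU * (n + 1) / N + 2 + (N * N - n * n) * RU / (2 * (N * N)) : ℕ) : ℝ) ≤
        ((kHighU N n XU RU + (N * N - (n + 1) * (n + 1)) * (MM * MM) / (N * N * RU) : ℕ) : ℝ) := by
      exact_mod_cast hle
    rw [Nat.cast_add (kHighU N n XU RU), Nat.cast_add (XU * (n + 1) / N + 2),
      Nat.cast_add (XU * (n + 1) / N)] at this
    push_cast at this ⊢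
    linarith
  have hA : (XU : ℝ) * (n + 1) / N ≤ ((XU * (n + 1) / N : ℕ) : ℝ) + 1 := by
    have := StepUK_div_lt (XU * (n + 1)) hN
    push_cast at this
    exact this
  have hB : ((N : ℝ) * N - (n : ℝ) * n) * RU / (2 * ((N : ℝ) * N)) ≤
      (((N * N - n * n) * RU / (2 * (N * N)) : ℕ) : ℝ) + 1 := by
    have hpos : 0 < 2 * (N * N) := by positivity
    have := StepUK_div_lt ((N * N - n * n) * RU) hpos
    rw [Nat.cast_mul (N * N - n * n), StepUK_cast0 hn] at this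
    refine le_trans (le_of_eq ?_) this
    push_cast
    ring
  have hC : (((N * N - (n + 1) * (n + 1)) * (MM * MM) / (N * N * RU) : ℕ) : ℝ) ≤
      ((N : ℝ) * N - ((n : ℝ) + 1) * (n + 1)) * (MM * MM) / ((N : ℝ) * N * RU) := by
    have := @Nat.cast_div_le ℝ _ _ _ ((N * N - (n + 1) * (n + 1)) * (MM * MM)) (N * N * RU)
    rw [Nat.cast_mul (N * N - (n + 1) * (n + 1)), StepUK_cast1 hn] at this
    refine this.trans (le_of_eq ?_)
    push_cast
    ring
  have e1 : x * τ ≤ ((XU : ℝ) * (n + 1) / N) / MM := by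
    have : (XU : ℝ) * (n + 1) / N / MM = ((XU : ℝ) / MM) * (((n : ℝ) + 1) / N) := by
      field_simp
    rw [this]
    exact mul_le_mul hx h2 hτ (by positivity)
  have e2 : (1 - τ ^ 2) * (r / 2) ≤
      (((N : ℝ) * N - (n : ℝ) * n) * RU / (2 * ((N : ℝ) * N))) / MM := by
    have : (((N : ℝ) * N - (n : ℝ) * n) * RU / (2 * ((N : ℝ) * N))) / MM =
        (1 - ((n : ℝ) / N) ^ 2) * ((RU : ℝ) / MM / 2) := by
      field_simp
    rw [this]
    exact mul_le_mul hb2 (by linarith) (by positivity) (le_trans (le_trans hb0 hb1) hb2)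
  have e3 : (((N : ℝ) * N - ((n : ℝ) + 1) * (n + 1)) * (MM * MM) / ((N : ℝ) * N * RU)) / MM ≤
      (1 - τ ^ 2) * (1 / r) := by
    have : (((N : ℝ) * N - ((n : ℝ) + 1) * (n + 1)) * (MM * MM) / ((N : ℝ) * N * RU)) / MM =
        (1 - (((n : ℝ) + 1) / N) ^ 2) * (1 / ((RU : ℝ) / MM)) := by
      field_simp
    rw [this]
    exact mul_le_mul hb1 (one_div_le_one_div_of_le hr hr') (by positivity) (le_trans hb0 hb1)
  have e4 : KU τ x r = x * τ + (1 - τ ^ 2) * (r / 2) - (1 - τ ^ 2) * (1 / r) := by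
    unfold KU
    ring
  rw [e4]
  have f0 := div_le_div_of_nonneg_right hcast hMM.le
  have f1 := div_le_div_of_nonneg_right hA hMM.le
  have f2 := div_le_div_of_nonneg_right hB hMM.le
  have f3 := div_le_div_of_nonneg_right hC hMM.le
  rw [sub_div, add_div, add_div] at f0
  rw [add_div] at f1 f2
  have g1 : (2 : ℝ) / MM = 1 / MM + 1 / MM := by ring
  rw [g1] at f0
  linarith

end AT
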