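import Pool.Agent.H.MP_ce2c94_gt.Box2
import Pool.Agent.H.MP_ce2c94_gt.GBnd
import Pool.Agent.H.MP_ce2c94_gt.PicG

/-!
# One step of the graph run
-/

namespace AT

open Real Set

theorem StepX_MM : ((MM : ℕ) : ℝ) = 1073741824 := by
  norm_num [MM]

theorem StepX_clP {p : ℝ} (h1 : -20 ≤ p) (h2 : p ≤ 20) : clP p = p := by
  unfold clP
  rw [min_eq_right h2, max_eq_right h1]

theorem StepX_clU {u : ℝ} (h1 : 1 / 10 ≤ u) (h2 : u ≤ 10) : clU u = u := by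
  unfold clU
  rw [min_eq_right h2, max_eq_right h1]

theorem StepX_min {z H : ℤ} (hH : 0 < H) (w : ℝ) (hw : w = 1 / (H : ℝ)) :
    ((fdv (mn z) H : ℤ) : ℝ) / MM ≤ min 0 ((z : ℝ) / MM) * w := by
  have h1 := fdv_le (a := mn z) hH
  have hM : (0 : ℝ) < (MM : ℕ) := by rw [StepX_MM]; norm_num
  have hH' : (0 : ℝ) < H := by exact_mod_cast hH
  rw [mn_eq] at h1 ⊢
  have h2 : min 0 ((z : ℝ) / (MM : ℕ)) = ((min 0 z : ℤ) : ℝ) / (MM : ℕ) := by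
    rw [Int.cast_min, Int.cast_zero]
    rcases le_total 0 (z : ℝ) with h | h
    · rw [min_eq_left h, min_eq_left (div_nonneg h hM.le), zero_div]
    · rw [min_eq_right h, min_eq_right (div_nonpos_of_nonpos_of_nonneg h hM.le)]
  rw [h2, hw, div_mul_div_comm, mul_one, mul_comm (((MM : ℕ) : ℝ)) (H : ℝ), ← div_div]
  exact div_le_div_of_nonneg_right h1 hM.le

theorem StepX_max {z H : ℤ} (hH : 0 < H) (w : ℝ) (hw : w = 1 / (H : ℝ)) :
    max 0 ((z : ℝ) / MM) * w ≤ ((cdv (mx z) H : ℤ) : ℝ) / MM := by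
  have h1 := le_cdv (a := mx z) hH
  have hM : (0 : ℝ) < (MM : ℕ) := by rw [StepX_MM]; norm_num
  have hH' : (0 : ℝ) < H := by exact_mod_cast hH
  rw [mx_eq] at h1 ⊢
  have h2 : max 0 ((z : ℝ) / (MM : ℕ)) = ((max 0 z : ℤ) : ℝ) / (MM : ℕ) := by
    rw [Int.cast_max, Int.cast_zero]
    rcases le_total 0 (z : ℝ) with h | h
    · rw [max_eq_right h, max_eq_right (div_nonneg h hM.le)]
    · rw [max_eq_left h, max_eq_left (div_nonpos_of_nonpos_of_nonneg h hM.le), zero_div]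
  rw [h2, hw, div_mul_div_comm, mul_one, mul_comm (((MM : ℕ) : ℝ)) (H : ℝ), ← div_div]
  exact div_le_div_of_nonneg_right h1 hM.le

theorem StepX_lo {z H : ℤ} (hH : 0 < H) (w : ℝ) (hw : w = 1 / (H : ℝ)) :
    ((fdv z H : ℤ) : ℝ) / MM ≤ (z : ℝ) / MM * w := by
  have h1 := fdv_le (a := z) hH
  have hM : (0 : ℝ) < (MM : ℕ) := by rw [StepX_MM]; norm_num
  rw [hw, div_mul_div_comm, mul_one, mul_comm (((MM : ℕ) : ℝ)) (H : ℝ), ← div_div]
  exact div_le_div_of_nonneg_right h1 hM.le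

theorem StepX_hi {z H : ℤ} (hH : 0 < H) (w : ℝ) (hw : w = 1 / (H : ℝ)) :
    (z : ℝ) / MM * w ≤ ((cdv z H : ℤ) : ℝ) / MM := by
  have h1 := le_cdv (a := z) hH
  have hM : (0 : ℝ) < (MM : ℕ) := by rw [StepX_MM]; norm_num
  rw [hw, div_mul_div_comm, mul_one, mul_comm (((MM : ℕ) : ℝ)) (H : ℝ), ← div_div]
  exact div_le_div_of_nonneg_right h1 hM.le

/-- **One graph step.** `box2` on `[n/H, (n+1)/H]` with the box `[bl, bu] × [cl, cu]` (over `M`),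
`U1 = cl/M`, `U2 = cu/M`, `G1 = gl/M`, `G2 = gh/M`. Inside the box `|p| ≤ 20`,
`1/10 ≤ u ≤ 10`, so the clamps do nothing: `u' = p`, `p' = (1+p²)(x p/2 + 1/u - u/2)`; bounds by
`aLw_le`, `aHi_ge`, `gLo_le`, `gHi_ge`. The margins: `bl = ul + ⌊min 0 cl / H⌋ - 1 <
ul + min 0 cl / H`, `cl ≤ tl + ⌊min 0 gl / H⌋ - 1`, etc. -/
theorem x_step {H n ul uu tl tu bl bu cl cu gl gh umax : ℤ} {a : ℝ} {u p : ℝ → ℝ} (hH : 0 < H)
    (hn : 0 ≤ n) (ha : ((n : ℝ) + 1) / H ≤ a) (h : ClG a u p) (hum : umax ≤ 10737418240)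
    (hu : (ul : ℝ) / MM ≤ u ((n : ℝ) / H) ∧ u ((n : ℝ) / H) ≤ (uu : ℝ) / MM)
    (hp : (tl : ℝ) / MM ≤ p ((n : ℝ) / H) ∧ p ((n : ℝ) / H) ≤ (tu : ℝ) / MM)
    (hbl : bl = ul + fdv (mn cl) H - 1) (hbu : bu = uu + cdv (mx cu) H + 1)
    (t1 : 107374183 ≤ bl) (t2 : bu ≤ umax) (t3 : -21474836480 ≤ cl) (t4 : cu ≤ 21474836480)
    (hgl : gl = gLo (aLw H n bu cl) cl cu) (hgh : gh = gHi (aHi H n bl cu) cl cu)
    (t5 : cl + 1 ≤ tl + fdv (mn gl) H) (t6 : tu + cdv (mx gh) H + 1 ≤ cu) :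
    (∀ x ∈ Icc ((n : ℝ) / H) (((n : ℝ) + 1) / H), 1 / 10 ≤ u x ∧ u x ≤ (umax : ℝ) / MM ∧
      -20 ≤ p x ∧ p x ≤ 20) ∧
    ((ul + fdv cl H : ℤ) : ℝ) / MM ≤ u (((n : ℝ) + 1) / H) ∧
    u (((n : ℝ) + 1) / H) ≤ ((uu + cdv cu H : ℤ) : ℝ) / MM ∧
    ((tl + fdv gl H : ℤ) : ℝ) / MM ≤ p (((n : ℝ) + 1) / H) ∧
    p (((n : ℝ) + 1) / H) ≤ ((tu + cdv gh H : ℤ) : ℝ) / MM := by
  have hM : (0 : ℝ) < (MM : ℕ) := by rw [StepX_MM]; norm_num
  have hH' : (0 : ℝ) < H := by exact_mod_cast hH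
  have hn' : (0 : ℝ) ≤ n := by exact_mod_cast hn
  have hw : ((n : ℝ) + 1) / H - (n : ℝ) / H = 1 / (H : ℝ) := by
    rw [← sub_div, add_sub_cancel_left]
  have hw0 : (0 : ℝ) < 1 / (H : ℝ) := by positivity
  have hab : (n : ℝ) / H ≤ ((n : ℝ) + 1) / H := by linarith
  have h0 : (0 : ℝ) ≤ (n : ℝ) / H := div_nonneg hn' hH'.le
  -- the box
  have c1 : (1 / 10 : ℝ) ≤ (bl : ℝ) / (MM : ℕ) := by
    rw [le_div_iff₀ hM, StepX_MM]
    have : (107374183 : ℝ) ≤ bl := by exact_mod_cast t1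
    linarith
  have c2 : (bu : ℝ) / (MM : ℕ) ≤ (umax : ℝ) / (MM : ℕ) :=
    div_le_div_of_nonneg_right (by exact_mod_cast t2) hM.le
  have c2' : (umax : ℝ) / (MM : ℕ) ≤ 10 := by
    rw [div_le_iff₀ hM, StepX_MM]
    have : (umax : ℝ) ≤ 10737418240 := by exact_mod_cast hum
    linarith
  have c3 : (-20 : ℝ) ≤ (cl : ℝ) / (MM : ℕ) := by
    rw [le_div_iff₀ hM, StepX_MM]
    have : (-21474836480 : ℝ) ≤ cl := by exact_mod_cast t3
    linarith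
  have c4 : (cu : ℝ) / (MM : ℕ) ≤ 20 := by
    rw [div_le_iff₀ hM, StepX_MM]
    have : (cu : ℝ) ≤ 21474836480 := by exact_mod_cast t4
    linarith
  have hbl0 : 0 < bl := by linarith
  have hsub : ∀ t ∈ Ico ((n : ℝ) / H) (((n : ℝ) + 1) / H), t ∈ Ico 0 a := fun t ht =>
    ⟨h0.trans ht.1, ht.2.trans_le ha⟩
  have hsub' : Icc ((n : ℝ) / H) (((n : ℝ) + 1) / H) ⊆ Icc 0 a := fun t ht =>
    ⟨h0.trans ht.1, ht.2.trans ha⟩
  have key := box2 (a := (n : ℝ) / H) (b := ((n : ℝ) + 1) / H) (bl := (bl : ℝ) / (MM : ℕ))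
    (bu := (bu : ℝ) / (MM : ℕ)) (cl := (cl : ℝ) / (MM : ℕ)) (cu := (cu : ℝ) / (MM : ℕ))
    (ul := (ul : ℝ) / (MM : ℕ)) (uu := (uu : ℝ) / (MM : ℕ)) (tl := (tl : ℝ) / (MM : ℕ))
    (tu := (tu : ℝ) / (MM : ℕ)) (U1 := (cl : ℝ) / (MM : ℕ)) (U2 := (cu : ℝ) / (MM : ℕ))
    (G1 := (gl : ℝ) / (MM : ℕ)) (G2 := (gh : ℝ) / (MM : ℕ)) hab (u := u) (p := p)
    (u' := fun x => clP (p x)) (p' := fun x => (1 + clP (p x) ^ 2) *
      (x * clP (p x) / 2 + (1 / clU (u x) - clU (u x) / 2)))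
    (fun x hx => ((h.du x (hsub' hx)).continuousWithinAt).mono hsub')
    (fun x hx => ((h.dp x (hsub' hx)).continuousWithinAt).mono hsub')
    (fun t ht => (h.du t ⟨(hsub t ht).1, (hsub t ht).2.le⟩).mono_of_mem_nhdsWithin
      (Icc_mem_nhdsGE_of_mem (hsub t ht)))
    (fun t ht => (h.dp t ⟨(hsub t ht).1, (hsub t ht).2.le⟩).mono_of_mem_nhdsWithin
      (Icc_mem_nhdsGE_of_mem (hsub t ht)))
    hu hp ?_ ?_ ?_ ?_ ?_
  · refine ⟨fun x hx => ?_, ?_, ?_, ?_, ?_⟩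
    · obtain ⟨⟨k1, k2, k3, k4⟩, -⟩ := key x hx
      exact ⟨c1.trans k1, k2.trans c2, c3.trans k3, k4.trans c4⟩
    all_goals
      obtain ⟨-, k1, k2, k3, k4⟩ := key _ (right_mem_Icc.2 hab)
    · refine le_trans ?_ k1
      push_cast
      rw [add_div (ul : ℝ)]
      have := StepX_lo (z := cl) hH _ hw
      linarith
    · refine k2.trans ?_
      push_cast
      rw [add_div (uu : ℝ)]
      have := StepX_hi (z := cu) hH _ hw
      linarith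
    · refine le_trans ?_ k3
      push_cast
      rw [add_div (tl : ℝ)]
      have := StepX_lo (z := gl) hH _ hw
      linarith
    · refine k4.trans ?_
      push_cast
      rw [add_div (tu : ℝ)]
      have := StepX_hi (z := gh) hH _ hw
      linarith
  · intro t ht b1 b2 b3 b4
    have d1 : clP (p t) = p t := StepX_clP (c3.trans b3) (b4.trans c4)
    have d2 : clU (u t) = u t := StepX_clU (c1.trans b1) (b2.trans (c2.trans c2'))
    have hu0 : 0 < u t := lt_of_lt_of_le (by norm_num) (c1.trans b1)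
    refine ⟨?_, ?_, ?_, ?_⟩
    · rwa [d1]
    · rwa [d1]
    · rw [d1, d2, hgl]
      exact gLo_le (aLw_le hH hn ht.1 ht.2.le hu0 b2 b3) b3 b4
    · rw [d1, d2, hgh]
      exact gHi_ge (aHi_ge hH hn hbl0 ht.1 ht.2.le b1 b4) b3 b4
  · have e1 := StepX_min (z := cl) hH _ hw
    have e2 : (bl : ℝ) / (MM : ℕ) = (ul : ℝ) / (MM : ℕ) + ((fdv (mn cl) H : ℤ) : ℝ) / (MM : ℕ) -
        1 / (MM : ℕ) := by
      rw [hbl]
      push_cast
      ring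
    have e3 : (0 : ℝ) < 1 / (MM : ℕ) := by positivity
    linarith
  · have e1 := StepX_max (z := cu) hH _ hw
    have e2 : (bu : ℝ) / (MM : ℕ) = (uu : ℝ) / (MM : ℕ) + ((cdv (mx cu) H : ℤ) : ℝ) / (MM : ℕ) +
        1 / (MM : ℕ) := by
      rw [hbu]
      push_cast
      ring
    have e3 : (0 : ℝ) < 1 / (MM : ℕ) := by positivity
    linarith
  · have e1 := StepX_min (z := gl) hH _ hw
    have e2 : (cl : ℝ) / (MM : ℕ) + 1 / (MM : ℕ) ≤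
        (tl : ℝ) / (MM : ℕ) + ((fdv (mn gl) H : ℤ) : ℝ) / (MM : ℕ) := by
      rw [← add_div, ← add_div]
      exact div_le_div_of_nonneg_right (by exact_mod_cast t5) hM.le
    have e3 : (0 : ℝ) < 1 / (MM : ℕ) := by positivity
    linarith
  · have e1 := StepX_max (z := gh) hH _ hw
    have e2 : (tu : ℝ) / (MM : ℕ) + ((cdv (mx gh) H : ℤ) : ℝ) / (MM : ℕ) + 1 / (MM : ℕ) ≤
        (cu : ℝ) / (MM : ℕ) := by
      rw [← add_div, ← add_div]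
      exact div_le_div_of_nonneg_right (by exact_mod_cast t6) hM.le
    have e3 : (0 : ℝ) < 1 / (MM : ℕ) := by positivity
    linarith

end AT
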