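import Pool.Agent.H.MP_ce2c94_gt.SDefs

/-!
# The self-shrinker equation for a surface of revolution
-/

namespace AT

open Real Set
open scoped InnerProductSpace

theorem SurfEq_hd {f g h : ℝ → ℝ} {f' g' h' t : ℝ} (hf : HasDerivAt f f' t)
    (hg : HasDerivAt g g' t) (hh : HasDerivAt h h' t) :
    HasDerivAt (fun s => (!₂[f s, g s, h s] : E3)) !₂[f', g', h'] t := by
  have h1 : HasDerivAt (fun s => (![f s, g s, h s] : Fin 3 → ℝ)) ![f', g', h'] t := by
    rw [hasDerivAt_pi]
    intro i
    fin_cases i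
    · exact hf
    · exact hg
    · exact hh
  exact (EuclideanSpace.equiv (Fin 3) ℝ).symm.toContinuousLinearMap.hasFDerivAt.comp_hasDerivAt
    t h1

theorem SurfEq_inner (a b c d e f : ℝ) :
    ⟪(!₂[a, b, c] : E3), !₂[d, e, f]⟫_ℝ = a * d + b * e + c * f := by
  simp [PiLp.inner_apply, Fin.sum_univ_three]
  ring

/-- The self-shrinker equation at `(s, 0)` with `ν = (-r', x', 0)`:
`F_s = (x', r', 0)`, `F_φ = (0, 0, r)`, `F_ss = (x'', r'', 0)`, `F_sφ = (0, 0, r')`,
`F_φφ = (0, -r, 0)`, so `H = -(x' r'' - r' x'') + x'/r = (r x' - x r')/2`. (Compute the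
derivatives coordinatewise, e.g. `hasDerivAt_euclidean` / `hasDerivAt_pi`; `EuclideanSpace.inner_eq`
or `PiLp.inner_apply`, `Fin.sum_univ_three`.) -/
theorem surf_eq {x r : ℝ → ℝ} (cx : ContDiff ℝ 2 x) (cr : ContDiff ℝ 2 r)
    (h : ∀ s, deriv x s ^ 2 + deriv r s ^ 2 = 1) (pr : ∀ s, 0 < r s)
    (hF : ShrinkerEq (rotF x r)) (s : ℝ) :
    deriv x s * deriv (deriv r) s - deriv r s * deriv (deriv x) s =
      x s / 2 * deriv r s + (1 / r s - r s / 2) * deriv x s := by
  have dx : ∀ t, HasDerivAt x (deriv x t) t := fun t =>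
    (cx.differentiable (by norm_num) t).hasDerivAt
  have dr : ∀ t, HasDerivAt r (deriv r t) t := fun t =>
    (cr.differentiable (by norm_num) t).hasDerivAt
  have cx1 : ContDiff ℝ 1 (deriv x) := by
    have : ContDiff ℝ (1 + 1) x := by exact cx
    exact (contDiff_succ_iff_deriv.1 this).2.2
  have cr1 : ContDiff ℝ 1 (deriv r) := by
    have : ContDiff ℝ (1 + 1) r := by exact cr
    exact (contDiff_succ_iff_deriv.1 this).2.2
  have ddx : ∀ t, HasDerivAt (deriv x) (deriv (deriv x) t) t := fun t =>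
    (cx1.differentiable (by norm_num) t).hasDerivAt
  have ddr : ∀ t, HasDerivAt (deriv r) (deriv (deriv r) t) t := fun t =>
    (cr1.differentiable (by norm_num) t).hasDerivAt
  have Fs : ∀ t φ : ℝ, deriv (fun a => rotF x r a φ) t =
      !₂[deriv x t, deriv r t * cos φ, deriv r t * sin φ] := fun t φ =>
    (SurfEq_hd (dx t) ((dr t).mul_const _) ((dr t).mul_const _)).deriv
  have Fp : ∀ t φ : ℝ, deriv (fun b => rotF x r t b) φ =
      !₂[0, r t * (-sin φ), r t * cos φ] := fun t φ =>
    (SurfEq_hd (hasDerivAt_const φ (x t)) ((hasDerivAt_cos φ).const_mul (r t))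
      ((hasDerivAt_sin φ).const_mul (r t))).deriv
  have Fss : deriv (fun a => deriv (fun a' => rotF x r a' 0) a) s =
      !₂[deriv (deriv x) s, deriv (deriv r) s * cos 0, deriv (deriv r) s * sin 0] := by
    have e : (fun a => deriv (fun a' => rotF x r a' 0) a) =
        fun a => (!₂[deriv x a, deriv r a * cos 0, deriv r a * sin 0] : E3) :=
      funext fun a => Fs a 0
    rw [e]
    exact (SurfEq_hd (ddx s) ((ddr s).mul_const _) ((ddr s).mul_const _)).deriv
  have Fsp : deriv (fun a => deriv (fun b => rotF x r a b) 0) s =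
      !₂[0, deriv r s * (-sin 0), deriv r s * cos 0] := by
    have e : (fun a => deriv (fun b => rotF x r a b) 0) =
        fun a => (!₂[0, r a * (-sin 0), r a * cos 0] : E3) :=
      funext fun a => Fp a 0
    rw [e]
    exact (SurfEq_hd (hasDerivAt_const s (0 : ℝ)) ((dr s).mul_const _) ((dr s).mul_const _)).deriv
  have Fpp : deriv (fun b => deriv (fun b' => rotF x r s b') b) 0 =
      !₂[0, r s * (-cos 0), r s * (-sin 0)] := by
    have e : (fun b => deriv (fun b' => rotF x r s b') b) =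
        fun b => (!₂[0, r s * (-sin b), r s * cos b] : E3) :=
      funext fun b => Fp s b
    rw [e]
    exact (SurfEq_hd (hasDerivAt_const (0 : ℝ) (0 : ℝ))
      ((hasDerivAt_sin 0).neg.const_mul (r s)) ((hasDerivAt_cos 0).const_mul (r s))).deriv
  have hν : ‖(!₂[-deriv r s, deriv x s, 0] : E3)‖ = 1 := by
    rw [norm_eq_sqrt_real_inner, SurfEq_inner]
    have : -deriv r s * -deriv r s + deriv x s * deriv x s + 0 * 0 = 1 := by
      have := h s
      nlinarith
    rw [this, sqrt_one]
  have key := hF s 0 !₂[-deriv r s, deriv x s, 0] hν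
    (by rw [Fs, SurfEq_inner, cos_zero, sin_zero]; ring)
    (by rw [Fp, SurfEq_inner, sin_zero]; ring)
  rw [Fss, Fsp, Fpp, Fs, Fp] at key
  have e0 : rotF x r s 0 = !₂[x s, r s * cos 0, r s * sin 0] := rfl
  rw [e0] at key
  simp only [SurfEq_inner, cos_zero, sin_zero] at key
  have hr := (pr s).ne'
  have hs := h s
  have e1 : deriv x s * deriv x s + deriv r s * 1 * (deriv r s * 1) + deriv r s * 0 *
      (deriv r s * 0) = 1 := by nlinarith
  have e2 : deriv x s * 0 + deriv r s * 1 * (r s * -0) + deriv r s * 0 * (r s * 1) = 0 := by ring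
  have e3 : (0 : ℝ) * 0 + r s * -0 * (r s * -0) + r s * 1 * (r s * 1) = r s ^ 2 := by ring
  rw [e1, e2, e3] at key
  have e4 : (1 : ℝ) * r s ^ 2 - 0 ^ 2 = r s ^ 2 := by ring
  rw [e4] at key
  have hr2 : r s ^ 2 ≠ 0 := pow_ne_zero _ hr
  rw [div_eq_iff hr2] at key
  field_simp
  have k2 : r s * (2 * (deriv x s * deriv (deriv r) s - deriv r s * deriv (deriv x) s) * r s) =
      r s * (x s * deriv r s * r s + (2 - r s ^ 2) * deriv x s) := by nlinarith
  have k3 := mul_left_cancel₀ hr k2
  linarith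

end AT
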