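import Pool.Agent.H.MP_ce2c94_gt.Lift
import Pool.Agent.H.MP_ce2c94_gt.SurfEq
import Pool.Agent.H.MP_ce2c94_gt.Fin3

/-!
# The surface version
-/

namespace AT

open Real Set

theorem torusCurve_of {x r : ℝ → ℝ} {L : ℝ} (h : ProfileCurve x r L)
    (hF : ShrinkerEq (rotF x r)) : IsTorusCurve (range fun s => (x s, r s)) := by
  obtain ⟨θ, h1, h2, h3⟩ := angle_lift h.cx h.cr h.speed
  refine ⟨x, r, θ, L, h.Lpos, ⟨h.pos, ?_, ?_, ?_⟩, h.px, h.pr, h.inj, rfl⟩
  · intro s
    have := (h.cx.differentiable (by norm_num) s).hasDerivAt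
    rwa [h1 s] at this
  · intro s
    have := (h.cr.differentiable (by norm_num) s).hasDerivAt
    rwa [h2 s] at this
  · intro s
    have e := surf_eq h.cx h.cr h.speed h.pos hF s
    have := h3 s
    rw [e, h1 s, h2 s] at this
    exact this

theorem surface_unique {S₁ S₂ : Set E3} (h₁ : IsSymRotTorus S₁) (h₂ : IsSymRotTorus S₂) :
    ∃ Φ : E3 ≃ₗᵢ[ℝ] E3, Φ '' S₁ = S₂ := by
  obtain ⟨T, x, r, L, hp, hF, hs, rfl⟩ := h₁
  obtain ⟨T', x', r', L', hp', hF', hs', rfl⟩ := h₂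
  have key : (range fun s => (x s, r s)) = range fun s => (x' s, r' s) := by
    refine torus_unique (torusCurve_of hp hF) ?_ (torusCurve_of hp' hF') ?_
    · rintro p ⟨s, rfl⟩
      obtain ⟨s', e1, e2⟩ := hs s
      exact ⟨s', by simp only [e1, e2]⟩
    · rintro p ⟨s, rfl⟩
      obtain ⟨s', e1, e2⟩ := hs' s
      exact ⟨s', by simp only [e1, e2]⟩
  have key2 : {v | ∃ s φ, v = rotF x r s φ} = {v | ∃ s φ, v = rotF x' r' s φ} := by
    ext v
    constructor
    · rintro ⟨s, φ, rfl⟩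
      have : (x s, r s) ∈ range fun s => (x' s, r' s) := key ▸ ⟨s, rfl⟩
      obtain ⟨s', e⟩ := this
      have e1 : x' s' = x s := congrArg Prod.fst e
      have e2 : r' s' = r s := congrArg Prod.snd e
      exact ⟨s', φ, by simp only [rotF, e1, e2]⟩
    · rintro ⟨s, φ, rfl⟩
      have : (x' s, r' s) ∈ range fun s => (x s, r s) := key ▸ ⟨s, rfl⟩
      obtain ⟨s', e⟩ := this
      have e1 : x s' = x' s := congrArg Prod.fst e
      have e2 : r s' = r' s := congrArg Prod.snd e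
      exact ⟨s', φ, by simp only [rotF, e1, e2]⟩
  refine ⟨T.symm.trans T', ?_⟩
  rw [← key2, ← image_comp]
  congr 1
  ext v
  simp

end AT
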