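import Pool.Agent.H.MP_ce2c94_gt.TFb

/-!
# Two disjoint arcs on the same side of the plane do not exist
-/

namespace AT

open Real Set Filter Topology

/-- **Theorem F** (two-point maximum principle). -/
theorem two_arcs {x r θ : ℝ → ℝ} (h : IsProfile x r θ) {a b c d : ℝ} (hab : a < b) (hcd : c < d)
    (ha : x a = 0) (hb : x b = 0) (hc : x c = 0) (hd : x d = 0) (h1 : ∀ s ∈ Ioo a b, 0 < x s)
    (h2 : ∀ s ∈ Ioo c d, 0 < x s)
    (hne : ∀ s ∈ Icc a b, ∀ s' ∈ Icc c d, ¬(x s = x s' ∧ r s = r s')) : False := by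
  have cx : Continuous x := continuous_iff_continuousAt.2 fun s => (h.hx s).continuousAt
  have cr : Continuous r := continuous_iff_continuousAt.2 fun s => (h.hr s).continuousAt
  -- the squared distance
  have hD : ∀ z ∈ Icc a b ×ˢ Icc c d, 0 < (x z.1 - x z.2) ^ 2 + (r z.1 - r z.2) ^ 2 := by
    rintro ⟨s, t⟩ ⟨hs, ht⟩
    by_contra hcon
    push Not at hcon
    simp only at hcon
    have e1 : (x s - x t) ^ 2 = 0 := by nlinarith [sq_nonneg (x s - x t), sq_nonneg (r s - r t)]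
    have e2 : (r s - r t) ^ 2 = 0 := by nlinarith [sq_nonneg (x s - x t), sq_nonneg (r s - r t)]
    refine hne s hs t ht ⟨?_, ?_⟩
    · have := pow_eq_zero_iff (two_ne_zero) |>.mp e1
      linarith
    · have := pow_eq_zero_iff (two_ne_zero) |>.mp e2
      linarith
  have hcont : ContinuousOn (fun z : ℝ × ℝ => x z.1 * x z.2 /
      ((x z.1 - x z.2) ^ 2 + (r z.1 - r z.2) ^ 2)) (Icc a b ×ˢ Icc c d) := by
    refine ContinuousOn.div ?_ ?_ fun z hz => (hD z hz).ne'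
    · exact Continuous.continuousOn (by fun_prop)
    · exact Continuous.continuousOn (by fun_prop)
  obtain ⟨⟨s, t⟩, ⟨hs, ht⟩, hmax⟩ := (isCompact_Icc.prod isCompact_Icc).exists_isMaxOn
    ((nonempty_Icc.2 hab.le).prod (nonempty_Icc.2 hcd.le)) hcont
  simp only at hs ht
  have hmax' : ∀ s' ∈ Icc a b, ∀ t' ∈ Icc c d, x s' * x t' /
      ((x s' - x t') ^ 2 + (r s' - r t') ^ 2) ≤ x s * x t /
      ((x s - x t) ^ 2 + (r s - r t) ^ 2) := by
    intro s' hs' t' ht'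
    have hm : (s', t') ∈ Icc a b ×ˢ Icc c d := ⟨hs', ht'⟩
    have := hmax hm
    simp only [Set.mem_ofPred_eq] at this
    exact this
  have hpos : 0 < x s * x t / ((x s - x t) ^ 2 + (r s - r t) ^ 2) := by
    have m1 : (a + b) / 2 ∈ Ioo a b := ⟨by linarith, by linarith⟩
    have m2 : (c + d) / 2 ∈ Ioo c d := ⟨by linarith, by linarith⟩
    refine lt_of_lt_of_le ?_ (hmax' _ (Ioo_subset_Icc_self m1) _ (Ioo_subset_Icc_self m2))
    exact div_pos (mul_pos (h1 _ m1) (h2 _ m2)) (hD (_, _) ⟨Ioo_subset_Icc_self m1,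
      Ioo_subset_Icc_self m2⟩)
  have hDst := hD (s, t) ⟨hs, ht⟩
  simp only at hDst
  have hxx : x s * x t ≠ 0 := by
    intro h0
    rw [h0, zero_div] at hpos
    exact lt_irrefl _ hpos
  have hs' : s ∈ Ioo a b := by
    refine ⟨lt_of_le_of_ne hs.1 ?_, lt_of_le_of_ne hs.2 ?_⟩
    · rintro rfl
      exact hxx (by rw [ha, zero_mul])
    · rintro rfl
      exact hxx (by rw [hb, zero_mul])
  have ht' : t ∈ Ioo c d := by
    refine ⟨lt_of_le_of_ne ht.1 ?_, lt_of_le_of_ne ht.2 ?_⟩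
    · rintro rfl
      exact hxx (by rw [hc, mul_zero])
    · rintro rfl
      exact hxx (by rw [hd, mul_zero])
  have hX := h1 s hs'
  have hY := h2 t ht'
  obtain ⟨μ, hμ⟩ : ∃ μ, μ = ((x s - x t) ^ 2 + (r s - r t) ^ 2) / (x s * x t) := ⟨_, rfl⟩
  have hμ0 : 0 < μ := by
    rw [hμ]
    exact div_pos hDst (mul_pos hX hY)
  have hDμ : (x s - x t) ^ 2 + (r s - r t) ^ 2 = μ * (x s * x t) := by
    rw [hμ, div_mul_cancel₀ _ hxx]
  have hΦ : ∀ s' ∈ Icc a b, ∀ t' ∈ Icc c d,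
      0 ≤ (x s' - x t') ^ 2 + (r s' - r t') ^ 2 - μ * (x s' * x t') := by
    intro s' hs' t' ht'
    have k1 := hmax' s' hs' t' ht'
    have k2 := hD (s', t') ⟨hs', ht'⟩
    simp only at k2
    rw [div_le_div_iff₀ k2 hDst, hDμ] at k1
    have k3 : x s' * x t' * μ ≤ (x s' - x t') ^ 2 + (r s' - r t') ^ 2 := by
      have k4 : (x s' * x t' * μ) * (x s * x t) ≤
          ((x s' - x t') ^ 2 + (r s' - r t') ^ 2) * (x s * x t) := by linarith
      exact le_of_mul_le_mul_right k4 (mul_pos hX hY)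
    linarith
  have hloc : ∀ ξ η : ℝ, IsLocalMin (fun τ => (x (s + ξ * τ) - x (t + η * τ)) ^ 2 +
      (r (s + ξ * τ) - r (t + η * τ)) ^ 2 - μ * (x (s + ξ * τ) * x (t + η * τ))) 0 := by
    intro ξ η
    have k1 : ∀ᶠ τ in 𝓝 (0 : ℝ), s + ξ * τ ∈ Ioo a b := by
      have : Tendsto (fun τ : ℝ => s + ξ * τ) (𝓝 0) (𝓝 (s + ξ * 0)) :=
        Continuous.tendsto (by fun_prop) 0
      rw [mul_zero, add_zero] at this
      exact this.eventually (Ioo_mem_nhds hs'.1 hs'.2)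
    have k2 : ∀ᶠ τ in 𝓝 (0 : ℝ), t + η * τ ∈ Ioo c d := by
      have : Tendsto (fun τ : ℝ => t + η * τ) (𝓝 0) (𝓝 (t + η * 0)) :=
        Continuous.tendsto (by fun_prop) 0
      rw [mul_zero, add_zero] at this
      exact this.eventually (Ioo_mem_nhds ht'.1 ht'.2)
    filter_upwards [k1, k2] with τ a1 a2
    have k3 := hΦ _ (Ioo_subset_Icc_self a1) _ (Ioo_subset_Icc_self a2)
    simp only [mul_zero, add_zero]
    rw [hDμ, sub_self]
    exact k3
  have g1 := (TF_line h s t μ 1 0 (hloc 1 0)).1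
  have g2 := (TF_line h s t μ 0 1 (hloc 0 1)).1
  refine TF_alg (k₁ := x s / 2 * sin (θ s) + (1 / r s - r s / 2) * cos (θ s))
    (k₂ := x t / 2 * sin (θ t) + (1 / r t - r t / 2) * cos (θ t)) hX hY (h.pos s) (h.pos t) hμ0
    (cos_sq_add_sin_sq (θ s)) (cos_sq_add_sin_sq (θ t)) hDμ ?_ ?_ rfl rfl
    fun ξ η => (TF_line h s t μ ξ η (hloc ξ η)).2
  · linarith
  · linarith

end AT
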