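import Pool.Agent.H.MP_ce2c94_gt.TBDefs

/-!
# No local maximum of the lower strand above the height `√2`
-/

namespace AT

open Real Set Filter Topology

/-- the second derivative at an interior maximum -/
theorem TVHump_dd {a b x c : ℝ} {z z' : ℝ → ℝ} (hx : x ∈ Ioo a b)
    (hz : ∀ y ∈ Ioo a b, HasDerivAt z (z' y) y) (hz' : HasDerivAt z' c x)
    (hmax : ∀ y ∈ Ioo a b, z y ≤ z x) : z' x = 0 ∧ c ≤ 0 := by
  have hloc : IsLocalMax z x := by
    filter_upwards [Ioo_mem_nhds hx.1 hx.2] with y hy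
    exact hmax y hy
  have h0 : z' x = 0 := hloc.hasDerivAt_eq_zero (hz x hx)
  refine ⟨h0, ?_⟩
  by_contra hc
  rw [not_le] at hc
  have h1 := (hasDerivAt_iff_tendsto_slope).1 hz'
  have h2 : ∀ᶠ y in 𝓝[>] x, 0 < slope z' x y :=
    (h1.mono_left (nhdsWithin_mono x (fun y hy => ne_of_gt hy))).eventually (lt_mem_nhds hc)
  have h3 : ∀ᶠ y in 𝓝[>] x, y < b := by
    filter_upwards [Ioo_mem_nhdsGT hx.2] with y hy
    exact hy.2
  obtain ⟨y1, hy1, hy1'⟩ := mem_nhdsGT_iff_exists_Ioo_subset.1 (h2.and h3)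
  obtain ⟨y2, hy2, hy2'⟩ := exists_between (show x < y1 from hy1)
  have hy2b : y2 < b := (hy1' ⟨hy2, hy2'⟩).2
  obtain ⟨ξ, hξ, h4⟩ := exists_hasDerivAt_eq_slope z z' hy2
    (fun s hs => (hz s ⟨hx.1.trans_le hs.1, hs.2.trans_lt hy2b⟩).continuousAt.continuousWithinAt)
    (fun s hs => hz s ⟨hx.1.trans hs.1, hs.2.trans hy2b⟩)
  have h5 : 0 < slope z' x ξ := (hy1' ⟨hξ.1, hξ.2.trans hy2'⟩).1
  rw [slope_def_field, h0, sub_zero] at h5
  have h6 : 0 < z' ξ := by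
    have h7 : 0 < ξ - x := sub_pos.2 hξ.1
    have := mul_pos h5 h7
    rwa [div_mul_cancel₀ _ h7.ne'] at this
  rw [h4] at h6
  have h8 := hmax y2 ⟨hx.1.trans hy2, hy2b⟩
  have h9 : 0 < y2 - x := sub_pos.2 hy2
  have h10 := mul_pos h6 h9
  rw [div_mul_cancel₀ _ h9.ne'] at h10
  linarith

/-- **No hump.** `Y = w² - u² > 0` satisfies `Y'' - (y/2) Y' + Y = q² n_w - p² n_u ≤ 0`, and
`V = u² - 2 + ε` satisfies `V'' - (y/2) V' + V = p² n_u + ε > 0`; consider an interior maximum of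
`V / Y`. -/
theorem no_hump {α β : ℝ} {u p w q : ℝ → ℝ} (hu : Gr α β u p) (hw : Gr α β w q)
    (huw : ∀ y ∈ Ioo α β, u y < w y)
    (hn : ∀ y ∈ Ioo α β, 0 < y * u y * p y + 4 - u y ^ 2)
    (hm : ∀ y ∈ Ioo α β, y * w y * q y + 4 - w y ^ 2 < 0)
    {a b c : ℝ} (ha : α < a) (hab : a < b) (hbc : b < c) (hc : c < β)
    (hua : u a ^ 2 < 2) (hub : 2 < u b ^ 2) (huc : u c ^ 2 < 2) : False := by
  obtain ⟨ε, hε, hεa, hεc⟩ : ∃ ε : ℝ, 0 < ε ∧ u a ^ 2 + ε < 2 ∧ u c ^ 2 + ε < 2 := by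
    refine ⟨min ((2 - u a ^ 2) / 2) ((2 - u c ^ 2) / 2), ?_, ?_, ?_⟩
    · exact lt_min (by linarith) (by linarith)
    · have := min_le_left ((2 - u a ^ 2) / 2) ((2 - u c ^ 2) / 2)
      linarith
    · have := min_le_right ((2 - u a ^ 2) / 2) ((2 - u c ^ 2) / 2)
      linarith
  have hsub : ∀ y ∈ Icc a c, y ∈ Ioo α β := fun y hy =>
    ⟨ha.trans_le hy.1, hy.2.trans_lt hc⟩
  set V : ℝ → ℝ := fun y => u y ^ 2 - 2 + ε with hVdef
  set Y : ℝ → ℝ := fun y => w y ^ 2 - u y ^ 2 with hYdef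
  have hYp : ∀ y ∈ Ioo α β, 0 < Y y := by
    intro y hy
    have h1 := huw y hy
    have h2 := hu.pos y hy
    simp only [hYdef]
    nlinarith
  have hVc : ContinuousOn V (Icc a c) := fun y hy =>
    (((hu.du y (hsub y hy)).pow 2).sub_const 2 |>.add_const ε).continuousAt.continuousWithinAt
  have hYc : ContinuousOn Y (Icc a c) := fun y hy =>
    (((hw.du y (hsub y hy)).pow 2).sub ((hu.du y (hsub y hy)).pow 2)).continuousAt.continuousWithinAt
  have hfc : ContinuousOn (fun y => V y / Y y) (Icc a c) :=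
    hVc.div hYc (fun y hy => (hYp y (hsub y hy)).ne')
  obtain ⟨x, hx, hmax⟩ := isCompact_Icc.exists_isMaxOn (nonempty_Icc.2 (hab.trans hbc).le) hfc
  have hb : b ∈ Icc a c := ⟨hab.le, hbc.le⟩
  have hVb : 0 < V b := by
    simp only [hVdef]
    linarith
  have hVa : V a < 0 := by
    simp only [hVdef]
    linarith
  have hVc' : V c < 0 := by
    simp only [hVdef]
    linarith
  set ρ := V x / Y x with hρ
  have hρ0 : 0 < ρ := by
    have h1 : V b / Y b ≤ V x / Y x := hmax hb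
    have h2 : 0 < V b / Y b := div_pos hVb (hYp b (hsub b hb))
    exact h2.trans_le h1
  have hxa : x ≠ a := by
    rintro rfl
    have : V x / Y x < 0 := div_neg_of_neg_of_pos hVa (hYp x (hsub x hx))
    linarith
  have hxc : x ≠ c := by
    rintro rfl
    have : V x / Y x < 0 := div_neg_of_neg_of_pos hVc' (hYp x (hsub x hx))
    linarith
  have hx' : x ∈ Ioo a c := ⟨lt_of_le_of_ne hx.1 (Ne.symm hxa), lt_of_le_of_ne hx.2 hxc⟩
  have hxx := hsub x hx
  -- the function `z = V - ρ Y`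
  have hz : ∀ y ∈ Ioo a c, HasDerivAt (fun y => V y - ρ * Y y)
      (2 * u y * p y - ρ * (2 * w y * q y - 2 * u y * p y)) y := by
    intro y hy
    have hy' := hsub y ⟨hy.1.le, hy.2.le⟩
    have h1 := hu.du y hy'
    have h2 := hw.du y hy'
    refine (((((h1.pow 2).sub_const 2).add_const ε).sub
      (((h2.pow 2).sub (h1.pow 2)).const_mul ρ))).congr_deriv ?_
    simp only [Nat.cast_ofNat, Nat.add_one_sub_one, pow_one]
  have hz' : HasDerivAt (fun y => 2 * u y * p y - ρ * (2 * w y * q y - 2 * u y * p y))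
      (2 * p x * p x + 2 * u x * ((1 + p x ^ 2) * (x * p x / 2 + (1 / u x - u x / 2))) -
        ρ * ((2 * q x * q x + 2 * w x * ((1 + q x ^ 2) * (x * q x / 2 + (1 / w x - w x / 2)))) -
        (2 * p x * p x + 2 * u x * ((1 + p x ^ 2) * (x * p x / 2 + (1 / u x - u x / 2)))))) x := by
    have h1 := ((hu.du x hxx).const_mul 2).mul (hu.dp x hxx)
    have h2 := ((hw.du x hxx).const_mul 2).mul (hw.dp x hxx)
    exact h1.sub ((h2.sub h1).const_mul ρ)
  have hzx : V x - ρ * Y x = 0 := by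
    have h1 := (hYp x hxx).ne'
    rw [hρ, div_mul_cancel₀ _ h1]
    ring
  have hzm : ∀ y ∈ Ioo a c, V y - ρ * Y y ≤ V x - ρ * Y x := by
    intro y hy
    have hy1 : y ∈ Icc a c := ⟨hy.1.le, hy.2.le⟩
    have h1 : V y / Y y ≤ ρ := hmax hy1
    have h2 := hYp y (hsub y hy1)
    rw [div_le_iff₀ h2] at h1
    rw [hzx]
    linarith
  obtain ⟨e1, e2⟩ := TVHump_dd hx' hz hz' hzm
  have hux := hu.pos x hxx
  have hwx := hw.pos x hxx
  have k1 : 2 * u x * ((1 + p x ^ 2) * (x * p x / 2 + (1 / u x - u x / 2))) =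
      (1 + p x ^ 2) * (x * u x * p x + 2 - u x ^ 2) := by
    field_simp
    ring
  have k2 : 2 * w x * ((1 + q x ^ 2) * (x * q x / 2 + (1 / w x - w x / 2))) =
      (1 + q x ^ 2) * (x * w x * q x + 2 - w x ^ 2) := by
    field_simp
    ring
  have n1 := hn x hxx
  have n2 := hm x hxx
  rw [k1, k2] at e2
  have e3 : 0 < ε + p x ^ 2 * (x * u x * p x + 4 - u x ^ 2) -
      ρ * (q x ^ 2 * (x * w x * q x + 4 - w x ^ 2) - p x ^ 2 * (x * u x * p x + 4 - u x ^ 2)) := by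
    have h1 : 0 ≤ p x ^ 2 * (x * u x * p x + 4 - u x ^ 2) := mul_nonneg (sq_nonneg _) n1.le
    have h2 : q x ^ 2 * (x * w x * q x + 4 - w x ^ 2) ≤ 0 :=
      mul_nonpos_of_nonneg_of_nonpos (sq_nonneg _) n2.le
    have h3 : 0 ≤ ρ * (p x ^ 2 * (x * u x * p x + 4 - u x ^ 2) -
        q x ^ 2 * (x * w x * q x + 4 - w x ^ 2)) := mul_nonneg hρ0.le (by linarith)
    linarith
  have e4 : V x - ρ * Y x = u x ^ 2 - 2 + ε - ρ * (w x ^ 2 - u x ^ 2) := rfl
  rw [e4] at hzx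
  have key : ε + p x ^ 2 * (x * u x * p x + 4 - u x ^ 2) -
      ρ * (q x ^ 2 * (x * w x * q x + 4 - w x ^ 2) - p x ^ 2 * (x * u x * p x + 4 - u x ^ 2)) =
      (2 * p x * p x + (1 + p x ^ 2) * (x * u x * p x + 2 - u x ^ 2) -
        ρ * ((2 * q x * q x + (1 + q x ^ 2) * (x * w x * q x + 2 - w x ^ 2)) -
        (2 * p x * p x + (1 + p x ^ 2) * (x * u x * p x + 2 - u x ^ 2)))) -
      x / 2 * (2 * u x * p x - ρ * (2 * w x * q x - 2 * u x * p x)) +
      (u x ^ 2 - 2 + ε - ρ * (w x ^ 2 - u x ^ 2)) := by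
    ring
  rw [key, e1, hzx] at e3
  linarith

end AT
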