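import Pool.Agent.H.MP_ce2c94_gt.TV3
import Pool.Agent.H.MP_ce2c94_gt.TVHump

/-!
# The lower strand is strictly convex, the upper strand strictly concave
-/

namespace AT

open Real Set Filter Topology

/-- last time a continuous function is at most `c` -/
theorem TV4_last {f : ℝ → ℝ} {a b c : ℝ} (hab : a ≤ b) (hf : ContinuousOn f (Icc a b))
    (ha : f a ≤ c) (hb : c < f b) : ∃ z ∈ Ico a b, f z = c ∧ ∀ y ∈ Ioc z b, c < f y := by
  have hm : MapsTo (fun s : ℝ => -s) (Icc (-b) (-a)) (Icc a b) := fun s hs =>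
    ⟨by linarith [hs.2], by linarith [hs.1]⟩
  obtain ⟨z, hz, h1, h2⟩ := first_le (f := fun s => f (-s)) (a := -b) (b := -a) (c := c)
    (by linarith) (hf.comp continuous_neg.continuousOn hm) (by simpa using hb) (by simpa using ha)
  refine ⟨-z, ⟨by linarith [hz.2], by linarith [hz.1]⟩, h1, fun y hy => ?_⟩
  have := h2 (-y) ⟨by linarith [hy.2], by linarith [hy.1]⟩
  simpa using this

/-- sign of the derivative at a right-sided minimum -/
theorem TV4_dr {f : ℝ → ℝ} {z b d : ℝ} (hz : HasDerivAt f d z) (hb : z < b)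
    (h : ∀ y ∈ Ioo z b, f z < f y) : 0 ≤ d := by
  by_contra hd
  rw [not_le] at hd
  have h1 := (hasDerivAt_iff_tendsto_slope).1 hz
  have h2 : ∀ᶠ y in 𝓝[>] z, slope f z y < 0 :=
    (h1.mono_left (nhdsWithin_mono z (fun y hy => ne_of_gt hy))).eventually (gt_mem_nhds hd)
  obtain ⟨y, hy, hy'⟩ := (h2.and (Ioo_mem_nhdsGT hb)).exists
  have h3 := h y hy'
  rw [slope_def_field] at hy
  have : 0 < (f y - f z) / (y - z) := div_pos (by linarith) (by linarith [hy'.1])
  linarith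

/-- sign of the derivative at a left-sided minimum -/
theorem TV4_dl {f : ℝ → ℝ} {z a d : ℝ} (hz : HasDerivAt f d z) (ha : a < z)
    (h : ∀ y ∈ Ioo a z, f z < f y) : d ≤ 0 := by
  by_contra hd
  rw [not_le] at hd
  have h1 := (hasDerivAt_iff_tendsto_slope).1 hz
  have h2 : ∀ᶠ y in 𝓝[<] z, 0 < slope f z y :=
    (h1.mono_left (nhdsWithin_mono z (fun y hy => ne_of_lt hy))).eventually (lt_mem_nhds hd)
  obtain ⟨y, hy, hy'⟩ := (h2.and (Ioo_mem_nhdsLT ha)).exists
  have h3 := h y hy'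
  rw [slope_def_field] at hy
  have : (f y - f z) / (y - z) < 0 := div_neg_of_pos_of_neg (by linarith) (by linarith [hy'.2])
  linarith

/-- without humps, a strand which starts upwards and ends upwards is strictly convex.
Proof. If `p 0 = 0`: `Gr.dip`. If `p 0 > 0`: `p > 0` on `[0, β)` (at a first zero `z` of `p`,
`p' ≤ 0`, `n z ≤ 2`). If `n y₁ ≤ 2` then `n ≤ 2` after `y₁` (at `n = 2`, `n' = -2 p / u < 0`), so
`p` is nonincreasing after `y₁`, contradiction to `p → ∞`. -/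
theorem Gr.Gen.conv_pos {α β : ℝ} {u p : ℝ → ℝ} (h : Gr.Gen α β u p) (hα : α < 0) (hβ : 0 < β)
    (ht : Tendsto p (𝓝[<] β) atTop) (hp : 0 ≤ p 0)
    (hh : ∀ y ∈ Ioo α β, p y = 0 → 2 < nq u p y) : ∀ y ∈ Ico 0 β, 2 < nq u p y := by
  have h0 : (0 : ℝ) ∈ Ioo α β := ⟨hα, hβ⟩
  rcases hp.eq_or_lt with hp0 | hp0
  · have hn := hh 0 h0 hp0.symm
    intro y hy
    rcases hy.1.eq_or_lt with e | e
    · rw [← e]
      exact hn
    · exact (h.gr.dip h0 le_rfl hp0.symm hn y ⟨e, hy.2⟩).1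
  · have hin : ∀ y ∈ Ico 0 β, y ∈ Ioo α β := fun y hy => ⟨hα.trans_le hy.1, hy.2⟩
    have hpp : ∀ y ∈ Ico 0 β, 0 < p y := by
      intro y hy
      by_contra hc
      rw [not_lt] at hc
      obtain ⟨z, hz, h1, h2⟩ := first_le (f := p) (c := 0) hy.1
        (fun s hs => (h.gr.cp (hin s ⟨hs.1, hs.2.trans_lt hy.2⟩)).continuousWithinAt) hp0 hc
      have hz' := hin z ⟨hz.1.le, hz.2.trans_lt hy.2⟩
      have h3 := hh z hz' h1
      have h4 := TV4_dl (h.gr.dp' hz') hz.1 (fun s hs => by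
        rw [h1]
        exact h2 s ⟨hs.1.le, hs.2⟩)
      have hu := h.gr.pos z hz'
      have h5 : 0 < (1 + p z ^ 2) * (nq u p z - 2) / (2 * u z) := by
        have : 0 < nq u p z - 2 := by linarith
        positivity
      linarith
    intro y₁ hy₁
    by_contra hc
    rw [not_lt] at hc
    have hle : ∀ y ∈ Ico y₁ β, nq u p y ≤ 2 := by
      intro y hy
      by_contra hc'
      rw [not_le] at hc'
      obtain ⟨z, hz, h1, h2⟩ := TV4_last (f := nq u p) (c := 2) hy.1
        (fun s hs => (h.gr.cn (hin s ⟨hy₁.1.trans hs.1, hs.2.trans_lt hy.2⟩)).continuousWithinAt)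
        hc hc'
      have hz0 : z ∈ Ico 0 β := ⟨hy₁.1.trans hz.1, hz.2.trans hy.2⟩
      have hz' := hin z hz0
      have h3 := TV4_dr (h.gr.dnn hz') hz.2 (fun s hs => by
        rw [h1]
        exact h2 s ⟨hs.1, hs.2.le⟩)
      rw [h.gr.II_two hz' h1] at h3
      have hu := h.gr.pos z hz'
      have h4 : 0 < 4 * p z / u z := by
        have := hpp z hz0
        positivity
      have h5 : -4 * p z / u z = -(4 * p z / u z) := by ring
      rw [h5] at h3
      linarith
    have hanti : AntitoneOn p (Ico y₁ β) := by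
      refine antitoneOn_of_deriv_nonpos (convex_Ico y₁ β)
        (fun s hs => (h.gr.cp (hin s ⟨hy₁.1.trans hs.1, hs.2⟩)).continuousWithinAt)
        (fun s hs => ?_) (fun s hs => ?_)
      · rw [interior_Ico] at hs
        exact (h.gr.dp' (hin s ⟨hy₁.1.trans hs.1.le, hs.2⟩)).differentiableAt.differentiableWithinAt
      · rw [interior_Ico] at hs
        have hs' := hin s ⟨hy₁.1.trans hs.1.le, hs.2⟩
        rw [(h.gr.dp' hs').deriv]
        have hu := h.gr.pos s hs'
        have h1 := hle s ⟨hs.1.le, hs.2⟩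
        have h2 : (1 + p s ^ 2) * (nq u p s - 2) ≤ 0 :=
          mul_nonpos_of_nonneg_of_nonpos (by positivity) (by linarith)
        exact div_nonpos_of_nonpos_of_nonneg h2 (by positivity)
    have h6 := ht.eventually (eventually_gt_atTop (p y₁))
    obtain ⟨y, hy, hy'⟩ := (h6.and (Ioo_mem_nhdsLT hy₁.2)).exists
    have := hanti ⟨le_rfl, hy₁.2⟩ ⟨hy'.1.le, hy'.2⟩ hy'.1.le
    linarith

/-- a dip to the right of a hump -/
theorem Gr.Gen.dip_right {α β : ℝ} {u p : ℝ → ℝ} (h : Gr.Gen α β u p)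
    (ht : Tendsto p (𝓝[<] β) atTop) {b : ℝ} (hb : b ∈ Ioo α β) (hp : p b = 0)
    (hn : nq u p b < 2) : ∃ c, b < c ∧ c < β ∧ u c ^ 2 < 2 := by
  have hu := h.gr.pos b hb
  have hd : (1 + p b ^ 2) * (nq u p b - 2) / (2 * u b) < 0 := by
    have h2 : (1 + p b ^ 2) * (nq u p b - 2) < 0 :=
      mul_neg_of_pos_of_neg (by positivity) (by linarith)
    exact div_neg_of_neg_of_pos h2 (by positivity)
  obtain ⟨y', hy', hpy'⟩ : ∃ y' ∈ Ioo b β, p y' < 0 := by
    by_contra hc
    push Not at hc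
    have h1 := (hasDerivAt_iff_tendsto_slope).1 (h.gr.dp' hb)
    have h2 : ∀ᶠ y in 𝓝[>] b, slope p b y < 0 :=
      (h1.mono_left (nhdsWithin_mono b (fun y hy => ne_of_gt hy))).eventually (gt_mem_nhds hd)
    obtain ⟨y, hy, hy'⟩ := (h2.and (Ioo_mem_nhdsGT hb.2)).exists
    have h3 := hc y hy'
    rw [slope_def_field, hp, sub_zero] at hy
    have : 0 ≤ p y / (y - b) := div_nonneg h3 (by linarith [hy'.1])
    linarith
  have h6 := ht.eventually (eventually_gt_atTop 0)
  obtain ⟨y'', hpy'', hy''⟩ := (h6.and (Ioo_mem_nhdsLT hy'.2)).exists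
  have hin : ∀ s ∈ Icc y' y'', s ∈ Ioo α β := fun s hs =>
    ⟨hb.1.trans (hy'.1.trans_le hs.1), hs.2.trans_lt hy''.2⟩
  obtain ⟨z, hz, h1, h2⟩ := first_le (f := fun s => -p s) (c := 0) hy''.1.le
    (fun s hs => (h.gr.cp (hin s hs)).neg.continuousWithinAt) (by linarith) (by linarith)
  have hz' := hin z ⟨hz.1.le, hz.2⟩
  have hpz : p z = 0 := by linarith
  have h3 := TV4_dl (h.gr.dp' hz').neg hz.1 (fun s hs => by
    have := h2 s ⟨hs.1.le, hs.2⟩
    show -p z < -p s
    rw [hpz]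
    simpa using this)
  have huz := h.gr.pos z hz'
  have h4 : 2 ≤ nq u p z := by
    by_contra hc
    rw [not_le] at hc
    have h5 : (1 + p z ^ 2) * (nq u p z - 2) < 0 :=
      mul_neg_of_pos_of_neg (by positivity) (by linarith)
    have h7 : (1 + p z ^ 2) * (nq u p z - 2) / (2 * u z) < 0 :=
      div_neg_of_neg_of_pos h5 (by positivity)
    linarith
  have h5 : nq u p z ≠ 2 := fun e => h.nc z hz' ⟨hpz, e⟩
  have h8 : 2 < nq u p z := lt_of_le_of_ne h4 (Ne.symm h5)
  rw [nn_hor hpz] at h8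
  exact ⟨z, hy'.1.trans hz.1, hz'.2, by linarith⟩

/-- The two strands of a simple closed profile which crosses `x = 0` twice. -/
theorem strands_convex {α β ρ : ℝ} {u p w q : ℝ → ℝ} (hu : Gr α β u p) (hw : Gr α β w q)
    (hα : α < 0) (hβ : 0 < β) (huw : ∀ y ∈ Ioo α β, u y < w y)
    (hp : Tendsto p (𝓝[<] β) atTop) (hp' : Tendsto p (𝓝[>] α) atBot)
    (hq : Tendsto q (𝓝[<] β) atBot) (hq' : Tendsto q (𝓝[>] α) atTop)
    (hρ : 0 < ρ) (hwρ : ∀ y ∈ Ioo α β, ρ ≤ w y) :
    (∀ y ∈ Ioo α β, 2 < nq u p y) ∧ (∀ y ∈ Ioo α β, nq w q y < 0) := by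
  have hU : Gr.Gen α β u p := hu.gen_up (hα.trans hβ) hp
  have nu := hu.signs_up hα hβ hp hp'
  have nw := hw.signs_dn hα hβ hq hq' hρ hwρ
  refine ⟨?_, nw⟩
  have hM := hU.mirror
  have hpm : Tendsto (fun y => -p (-y)) (𝓝[<] (-α)) atTop := by
    have h1 : Tendsto (fun y : ℝ => -y) (𝓝[<] (-α)) (𝓝[>] α) := by
      have h2 : Tendsto (fun y : ℝ => -y) (𝓝[<] (-α)) (𝓝[>] (-(-α))) := tendsto_neg_nhdsLT
      rwa [neg_neg] at h2
    exact tendsto_neg_atBot_atTop.comp (hp'.comp h1)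
  have hh : ∀ y ∈ Ioo α β, p y = 0 → 2 < nq u p y := by
    intro b hb hpb
    by_contra hc
    rw [not_lt] at hc
    have hne : nq u p b ≠ 2 := fun e => hU.nc b hb ⟨hpb, e⟩
    have hlt : nq u p b < 2 := lt_of_le_of_ne hc hne
    obtain ⟨c, hbc, hcβ, huc⟩ := hU.dip_right hp hb hpb hlt
    obtain ⟨a', hba', ha'α, hua'⟩ := hM.dip_right hpm (b := -b)
      ⟨by linarith [hb.2], by linarith [hb.1]⟩ (by simp only [neg_neg, hpb, neg_zero])
      (by rw [nn_mirror, neg_neg]; exact hlt)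
    have hub : 2 < u b ^ 2 := by
      rw [nn_hor hpb] at hlt
      linarith
    refine no_hump hu hw huw (fun y hy => ?_) (fun y hy => ?_) (a := -a') (b := b) (c := c)
      (by linarith) (by linarith) hbc hcβ hua' hub huc
    · have := nu y hy
      unfold nq at this
      rw [mul_assoc]
      exact this
    · have := nw y hy
      unfold nq at this
      rw [mul_assoc]
      exact this
  have hhM : ∀ y ∈ Ioo (-β) (-α), (fun y => -p (-y)) y = 0 →
      2 < nq (fun y => u (-y)) (fun y => -p (-y)) y := by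
    intro y hy he
    rw [nn_mirror]
    exact hh (-y) ⟨by linarith [hy.2], by linarith [hy.1]⟩ (by simpa using he)
  have h0 : (0 : ℝ) ∈ Ioo α β := ⟨hα, hβ⟩
  have h0' : (0 : ℝ) ∈ Ioo (-β) (-α) := ⟨by linarith, by linarith⟩
  rcases le_total 0 (p 0) with hs | hs
  · have k1 := hU.conv_pos hα hβ hp hs hh
    have k0 := k1 0 ⟨le_rfl, hβ⟩
    have k2 := hM.up h0' le_rfl (by simpa using hs) (by
      rw [nn_mirror, neg_zero]
      exact k0.le)
    intro y hy
    rcases lt_or_ge y 0 with hy0 | hy0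
    · have := k2 (-y) ⟨by linarith, by linarith [hy.1]⟩
      rw [nn_mirror, neg_neg] at this
      exact this
    · exact k1 y ⟨hy0, hy.2⟩
  · have k1 := hM.conv_pos (by linarith) (by linarith) hpm (by simpa using hs) hhM
    have k0 := k1 0 ⟨le_rfl, by linarith⟩
    rw [nn_mirror, neg_zero] at k0
    have k2 := hU.up h0 le_rfl hs k0.le
    intro y hy
    rcases le_or_gt y 0 with hy0 | hy0
    · have := k1 (-y) ⟨by linarith, by linarith [hy.1]⟩
      rw [nn_mirror, neg_neg] at this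
      exact this
    · exact k2 y ⟨hy0, hy.2⟩

end AT
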