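import Pool.Agent.H.MP_ce2c94_gt.TVLd
import Pool.Agent.H.MP_ce2c94_gt.TV4

/-!
# The graphs of the two strands: convexity
-/

namespace AT

open Real Set Filter Topology

/-- a positive continuous function with positive limits is bounded below -/
theorem low_bound {α β ρ₁ ρ₂ : ℝ} {w : ℝ → ℝ} (hα : α < 0) (hβ : 0 < β)
    (hc : ∀ y ∈ Ioo α β, ContinuousAt w y) (hp : ∀ y ∈ Ioo α β, 0 < w y) (h1 : 0 < ρ₁)
    (h2 : 0 < ρ₂) (hw1 : Tendsto w (𝓝[>] α) (𝓝 ρ₁)) (hw2 : Tendsto w (𝓝[<] β) (𝓝 ρ₂)) :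
    ∃ ρ, 0 < ρ ∧ ∀ y ∈ Ioo α β, ρ ≤ w y := by
  have e1 : ∀ᶠ y in 𝓝[>] α, ρ₁ / 2 < w y := hw1.eventually (lt_mem_nhds (by linarith))
  have e2 : ∀ᶠ y in 𝓝[<] β, ρ₂ / 2 < w y := hw2.eventually (lt_mem_nhds (by linarith))
  obtain ⟨a', ha', ha''⟩ := mem_nhdsGT_iff_exists_Ioo_subset.1 e1
  obtain ⟨b', hb', hb''⟩ := mem_nhdsLT_iff_exists_Ioo_subset.1 e2
  obtain ⟨c, hc1, hc2⟩ := exists_between (show α < min a' 0 from lt_min ha' hα)
  obtain ⟨d, hd1, hd2⟩ := exists_between (show max b' 0 < β from max_lt hb' hβ)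
  have hc3 : c < a' := hc2.trans_le (min_le_left _ _)
  have hc4 : c < 0 := hc2.trans_le (min_le_right _ _)
  have hd3 : b' < d := (le_max_left _ _).trans_lt hd1
  have hd4 : 0 < d := (le_max_right _ _).trans_lt hd1
  have hsub : ∀ y ∈ Icc c d, y ∈ Ioo α β := fun y hy =>
    ⟨hc1.trans_le hy.1, hy.2.trans_lt hd2⟩
  obtain ⟨m, hm, hmin⟩ := isCompact_Icc.exists_isMinOn (nonempty_Icc.2 (hc4.trans hd4).le)
    (fun y hy => (hc y (hsub y hy)).continuousWithinAt : ContinuousOn w (Icc c d))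
  refine ⟨min (min (ρ₁ / 2) (ρ₂ / 2)) (w m), lt_min (lt_min (by linarith) (by linarith))
    (hp m (hsub m hm)), fun y hy => ?_⟩
  rcases lt_or_ge y c with h3 | h3
  · have : ρ₁ / 2 < w y := ha'' ⟨hy.1, h3.trans hc3⟩
    exact ((min_le_left _ _).trans (min_le_left _ _)).trans this.le
  rcases lt_or_ge d y with h4 | h4
  · have : ρ₂ / 2 < w y := hb'' ⟨hd3.trans h4, hy.2⟩
    exact ((min_le_left _ _).trans (min_le_right _ _)).trans this.le
  · exact (min_le_right _ _).trans (hmin ⟨h3, h4⟩)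

theorem nn_kappa {u p : ℝ → ℝ} {y : ℝ} (h : 0 < u y) :
    y * p y / 2 + (1 / u y - u y / 2) = (nq u p y - 2) / (2 * u y) := by
  unfold nq
  field_simp
  ring

/-- the lower graph is convex, the upper one concave -/
theorem UW.conv {α β : ℝ} {u p w q : ℝ → ℝ} (h : UW α β u p w q) :
    (∀ y ∈ Ioo α β, 0 < y * p y / 2 + (1 / u y - u y / 2)) ∧
      ∀ y ∈ Ioo α β, y * q y / 2 + (1 / w y - w y / 2) < 0 := by
  obtain ⟨ρ₁, h1, -, hw1⟩ := h.uα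
  obtain ⟨ρ₂, h2, -, hw2⟩ := h.uβ
  obtain ⟨ρ, hρ, hρw⟩ := low_bound h.hα h.hβ (fun y hy => (h.gw.du y hy).continuousAt) h.gw.pos
    h1 h2 hw1 hw2
  obtain ⟨k1, k2⟩ := strands_convex h.gu h.gw h.hα h.hβ h.lt h.pβ h.pα h.qβ h.qα hρ hρw
  refine ⟨fun y hy => ?_, fun y hy => ?_⟩
  · rw [nn_kappa (h.gu.pos y hy)]
    have := h.gu.pos y hy
    exact div_pos (by linarith [k1 y hy]) (by linarith)
  · rw [nn_kappa (h.gw.pos y hy)]
    have := h.gw.pos y hy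
    exact div_neg_of_neg_of_pos (by linarith [k2 y hy]) (by linarith)

end AT
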