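import Pool.Agent.H.MP_ce2c94_gt.TVTwo
import Pool.Agent.H.MP_ce2c94_gt.TVConv
import Pool.Agent.H.MP_ce2c94_gt.TF

/-!
# A torus curve is strictly convex
-/

namespace AT

open Real Set Filter Topology

/-- exactly two crossings -/
theorem Loop.two {x r θ : ℝ → ℝ} {L : ℝ} (h : Loop x r θ L) :
    ∃ a T, TwoL (fun s => x (s + a)) (fun s => r (s + a)) (fun s => θ (s + a)) L T :=
  h.two_of fun _ _ _ _ hab _ hcd ha hb hc hd h1 h2 hne =>
    two_arcs h.prof hab hcd ha hb hc hd h1 h2 fun s hs s' hs' e =>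
      hne s hs s' hs' (Prod.ext e.1 e.2)

/-- **(V)**: a closed simple profile is strictly convex -/
theorem convex_of_torus {C : Set (ℝ × ℝ)} (hC : IsTorusCurve C) :
    ∃ (x r θ : ℝ → ℝ) (L : ℝ), CLoop x r θ L ∧ C = range (fun s => (x s, r s)) := by
  obtain ⟨x, r, θ, L, h, rfl⟩ := loop_of_torus hC
  obtain ⟨a, T, h2⟩ := h.two
  obtain ⟨x', r', θ', A, B, h3, e⟩ := h2.lobes
  obtain ⟨u, p, w, q, hUW, h4, h5⟩ := h3.graphs
  refine ⟨x', r', θ', L, h3.cloop hUW h4 h5 hUW.conv.1 hUW.conv.2, ?_⟩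
  rw [e]
  ext v
  constructor
  · rintro ⟨s, rfl⟩
    exact ⟨s - a, by simp only [sub_add_cancel]⟩
  · rintro ⟨s, rfl⟩
    exact ⟨s + a, rfl⟩

end AT
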