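import Pool.Agent.H.MP_ce2c94_gt.TBMain
import Pool.Agent.H.MP_ce2c94_gt.TVMain
import Pool.Agent.H.MP_ce2c94_gt.Fin3

/-!
# Uniqueness of the torus curve (no symmetry assumed)
-/

namespace AT

open Real Set

/-- a torus curve is symmetric -/
theorem torus_isSym {C : Set (ℝ × ℝ)} (hC : IsTorusCurve C) : IsSym C := by
  obtain ⟨x, r, θ, L, h, rfl⟩ := convex_of_torus hC
  exact h.sym

/-- any two torus curves are equal -/
theorem torus_unique_rot {C C' : Set (ℝ × ℝ)} (hC : IsTorusCurve C) (hC' : IsTorusCurve C') :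
    C = C' :=
  torus_unique hC (torus_isSym hC) hC' (torus_isSym hC')

end AT
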