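import Pool.Agent.H.MP_ce2c94_gt.SDefsB
import Pool.Agent.H.MP_ce2c94_gt.Surf
import Pool.Agent.H.MP_ce2c94_gt.TBFin

/-!
# The surface version without reflection symmetry
-/

namespace AT

open Real Set

theorem surface_unique_rot {S₁ S₂ : Set E3} (h₁ : IsRotTorus S₁) (h₂ : IsRotTorus S₂) :
    ∃ Φ : E3 ≃ₗᵢ[ℝ] E3, Φ '' S₁ = S₂ := by
  obtain ⟨T, x, r, L, hp, hF, rfl⟩ := h₁
  obtain ⟨T', x', r', L', hp', hF', rfl⟩ := h₂
  have hs : ∀ s, ∃ s', x s' = -x s ∧ r s' = r s := by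
    intro s
    obtain ⟨s', e⟩ := torus_isSym (torusCurve_of hp hF) (x s, r s) ⟨s, rfl⟩
    exact ⟨s', congrArg Prod.fst e, congrArg Prod.snd e⟩
  have hs' : ∀ s, ∃ s', x' s' = -x' s ∧ r' s' = r' s := by
    intro s
    obtain ⟨s', e⟩ := torus_isSym (torusCurve_of hp' hF') (x' s, r' s) ⟨s, rfl⟩
    exact ⟨s', congrArg Prod.fst e, congrArg Prod.snd e⟩
  exact surface_unique ⟨T, x, r, L, hp, hF, hs, rfl⟩ ⟨T', x', r', L', hp', hF', hs', rfl⟩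

end AT
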