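import Pool.Agent.H.MP_ce2c94_gt.SDefs

/-!
# The self-shrinker equation for a surface of revolution: the converse
-/

namespace AT

open Real Set
open scoped InnerProductSpace

theorem SurfConv_hd {f g k : ℝ → ℝ} {f' g' k' s : ℝ} (hf : HasDerivAt f f' s)
    (hg : HasDerivAt g g' s) (hk : HasDerivAt k k' s) :
    HasDerivAt (fun a => (!₂[f a, g a, k a] : E3)) (!₂[f', g', k'] : E3) s := by
  have h1 : HasDerivAt (fun a => (![f a, g a, k a] : Fin 3 → ℝ)) ![f', g', k'] s := by
    rw [hasDerivAt_pi]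
    intro i
    fin_cases i
    · exact hf
    · exact hg
    · exact hk
  exact ((EuclideanSpace.equiv (Fin 3) ℝ).symm.toContinuousLinearMap.hasFDerivAt).comp_hasDerivAt s h1

theorem SurfConv_in (a b c a' b' c' : ℝ) :
    ⟪(!₂[a, b, c] : E3), (!₂[a', b', c'] : E3)⟫_ℝ = a * a' + b * b' + c * c' := by
  rw [PiLp.inner_apply, Fin.sum_univ_three]
  simp
  ring

theorem SurfConv_alg {x x1 x2 r r1 r2 c t a b d : ℝ} (hr : 0 < r) (hs : x1 ^ 2 + r1 ^ 2 = 1)
    (hct : c ^ 2 + t ^ 2 = 1)
    (h1 : x1 * a + r1 * c * b + r1 * t * d = 0) (h2 : 0 * a + -(r * t) * b + r * c * d = 0)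
    (hF : x1 * r2 - r1 * x2 = x / 2 * r1 + (1 / r - r / 2) * x1) :
    -((x2 * a + r2 * c * b + r2 * t * d) * (r ^ 2) - 2 * (0 * a + -(r1 * t) * b + r1 * c * d) * 0
      + (0 * a + -(r * c) * b + -(r * t) * d) * 1) / (1 * r ^ 2 - 0 ^ 2)
      = (x * a + r * c * b + r * t * d) / 2 := by
  obtain ⟨w, hw⟩ : ∃ w, w = c * b + t * d := ⟨_, rfl⟩
  have hr0 : r ≠ 0 := hr.ne'
  have h3 : c * d = t * b := by
    have h4 : r * (c * d - t * b) = 0 := by linarith
    rcases mul_eq_zero.1 h4 with h5 | h5
    · exact absurd h5 hr0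
    · linarith
  have h5 : x1 * a + r1 * w = 0 := by
    rw [hw]
    linarith
  obtain ⟨e, he⟩ : ∃ e, e = x1 * w - r1 * a := ⟨_, rfl⟩
  have ha : a = -(r1 * e) := by
    rw [he]
    linear_combination (-x1) * (0 - h5) * 1 + a * (0 - hs) + 0
  have hw2 : w = x1 * e := by
    rw [he]
    linear_combination w * (0 - hs) + r1 * h5
  have e1 : x2 * a + r2 * c * b + r2 * t * d = x2 * a + r2 * w := by
    rw [hw]
    ring
  have e2 : 0 * a + -(r * c) * b + -(r * t) * d = -(r * w) := by
    rw [hw]
    ring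
  have e3 : x * a + r * c * b + r * t * d = x * a + r * w := by
    rw [hw]
    ring
  rw [e1, e2, e3, ha, hw2]
  have hF2 : (x1 * r2 - r1 * x2) * r = (x / 2 * r1) * r + (1 - r ^ 2 / 2) * x1 := by
    rw [hF]
    field_simp
  field_simp
  linear_combination (-2 * e * r) * hF2

/-- Conversely the profile equation implies the self-shrinker equation of the surface (not needed
for the uniqueness theorem, but it shows that the definition is the right one): at `(s, φ)` the
unit normals are `± (-r', x' cos φ, x' sin φ)`. -/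
theorem surf_eq_conv {x r : ℝ → ℝ} (cx : ContDiff ℝ 2 x) (cr : ContDiff ℝ 2 r)
    (h : ∀ s, deriv x s ^ 2 + deriv r s ^ 2 = 1) (pr : ∀ s, 0 < r s)
    (hF : ∀ s, deriv x s * deriv (deriv r) s - deriv r s * deriv (deriv x) s =
      x s / 2 * deriv r s + (1 / r s - r s / 2) * deriv x s) :
    ShrinkerEq (rotF x r) := by
  intro s φ ν _ hν1 hν2
  have dx : ∀ a, HasDerivAt x (deriv x a) a := fun a =>
    ((cx.differentiable (by norm_num)) a).hasDerivAt
  have dr : ∀ a, HasDerivAt r (deriv r a) a := fun a =>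
    ((cr.differentiable (by norm_num)) a).hasDerivAt
  have cx1 : ContDiff ℝ 1 (deriv x) := by
    have h2 : ContDiff ℝ (1 + 1) x := by
      have e : ((1 : WithTop ℕ∞) + 1) = 2 := by norm_num
      rw [e]
      exact cx
    exact (contDiff_succ_iff_deriv.1 h2).2.2
  have cr1 : ContDiff ℝ 1 (deriv r) := by
    have h2 : ContDiff ℝ (1 + 1) r := by
      have e : ((1 : WithTop ℕ∞) + 1) = 2 := by norm_num
      rw [e]
      exact cr
    exact (contDiff_succ_iff_deriv.1 h2).2.2
  have ddx : ∀ a, HasDerivAt (deriv x) (deriv (deriv x) a) a := fun a =>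
    ((cx1.differentiable (by norm_num)) a).hasDerivAt
  have ddr : ∀ a, HasDerivAt (deriv r) (deriv (deriv r) a) a := fun a =>
    ((cr1.differentiable (by norm_num)) a).hasDerivAt
  have D1 : ∀ a b, deriv (fun a' => rotF x r a' b) a =
      (!₂[deriv x a, deriv r a * cos b, deriv r a * sin b] : E3) := fun a b =>
    (SurfConv_hd (dx a) ((dr a).mul_const (cos b)) ((dr a).mul_const (sin b))).deriv
  have D2 : ∀ a b, deriv (fun b' => rotF x r a b') b =
      (!₂[0, -(r a * sin b), r a * cos b] : E3) := fun a b => by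
    have h1 := SurfConv_hd (hasDerivAt_const b (x a)) ((hasDerivAt_cos b).const_mul (r a))
      ((hasDerivAt_sin b).const_mul (r a))
    have h2 := h1.deriv
    have h3 : r a * -sin b = -(r a * sin b) := by ring
    rw [h3] at h2
    exact h2
  have D11 : deriv (fun a => deriv (fun a' => rotF x r a' φ) a) s =
      (!₂[deriv (deriv x) s, deriv (deriv r) s * cos φ, deriv (deriv r) s * sin φ] : E3) := by
    have h0 : (fun a => deriv (fun a' => rotF x r a' φ) a) =
        fun a => (!₂[deriv x a, deriv r a * cos φ, deriv r a * sin φ] : E3) := by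
      funext a
      exact D1 a φ
    rw [h0]
    exact (SurfConv_hd (ddx s) ((ddr s).mul_const (cos φ)) ((ddr s).mul_const (sin φ))).deriv
  have D12 : deriv (fun a => deriv (fun b => rotF x r a b) φ) s =
      (!₂[0, -(deriv r s * sin φ), deriv r s * cos φ] : E3) := by
    have h0 : (fun a => deriv (fun b => rotF x r a b) φ) =
        fun a => (!₂[(0 : ℝ), -(r a * sin φ), r a * cos φ] : E3) := by
      funext a
      exact D2 a φ
    rw [h0]
    exact (SurfConv_hd (hasDerivAt_const s (0 : ℝ)) ((dr s).mul_const (sin φ)).neg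
      ((dr s).mul_const (cos φ))).deriv
  have D22 : deriv (fun b => deriv (fun b' => rotF x r s b') b) φ =
      (!₂[0, -(r s * cos φ), -(r s * sin φ)] : E3) := by
    have h0 : (fun b => deriv (fun b' => rotF x r s b') b) =
        fun b => (!₂[(0 : ℝ), -(r s * sin b), r s * cos b] : E3) := by
      funext b
      exact D2 s b
    rw [h0]
    have h1 := SurfConv_hd (hasDerivAt_const φ (0 : ℝ)) ((hasDerivAt_sin φ).const_mul (r s)).neg
      ((hasDerivAt_cos φ).const_mul (r s))
    have h2 := h1.deriv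
    have h3 : r s * -sin φ = -(r s * sin φ) := by ring
    rw [h3] at h2
    exact h2
  have hν : ν = (!₂[ν 0, ν 1, ν 2] : E3) := by
    ext i
    fin_cases i <;> rfl
  have hct := cos_sq_add_sin_sq φ
  have hs := h s
  rw [D1] at hν1
  rw [D2] at hν2
  rw [D11, D12, D22, D1, D2]
  rw [hν] at hν1 hν2 ⊢
  rw [SurfConv_in] at hν1 hν2
  have hFF : rotF x r s φ = (!₂[x s, r s * cos φ, r s * sin φ] : E3) := rfl
  rw [hFF]
  simp only [SurfConv_in]
  have i1 : deriv x s * deriv x s + deriv r s * cos φ * (deriv r s * cos φ) +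
      deriv r s * sin φ * (deriv r s * sin φ) = 1 := by
    linear_combination hs + deriv r s ^ 2 * hct
  have i2 : (0 : ℝ) * 0 + -(r s * sin φ) * -(r s * sin φ) + r s * cos φ * (r s * cos φ) =
      r s ^ 2 := by
    linear_combination r s ^ 2 * hct
  have i3 : deriv x s * 0 + deriv r s * cos φ * -(r s * sin φ) +
      deriv r s * sin φ * (r s * cos φ) = 0 := by
    ring
  rw [i1, i2, i3]
  exact SurfConv_alg (pr s) hs hct hν1 hν2 (hF s)

end AT
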