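import Pool.Agent.H.MP_ce2c94_gt.TBDefs

/-!
# Convex closed profiles: basic facts
-/

namespace AT

open Real Set Filter Topology

/-- `θ` is strictly increasing -/
theorem CLoop.mono {x r θ : ℝ → ℝ} {L : ℝ} (h : CLoop x r θ L) : StrictMono θ := by
  refine strictMono_of_deriv_pos (fun s => ?_)
  rw [(h.loop.prof.hθ s).deriv]
  exact h.conv s

/-- every angle is attained -/
theorem CLoop.surj {x r θ : ℝ → ℝ} {L : ℝ} (h : CLoop x r θ L) (a : ℝ) : ∃ s, θ s = a := by
  have hc : Continuous θ := continuous_iff_continuousAt.2 fun s => (h.loop.prof.hθ s).continuousAt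
  have hz : ∀ k : ℕ, θ (k * L) = θ 0 + k * (2 * π) := by
    intro k
    induction k with
    | zero => simp
    | succ k ih =>
      have e : ((k + 1 : ℕ) : ℝ) * L = k * L + L := by push_cast; ring
      rw [e, h.turn, ih]
      push_cast
      ring
  have hz' : ∀ k : ℕ, θ (-(k * L)) = θ 0 - k * (2 * π) := by
    intro k
    induction k with
    | zero => simp
    | succ k ih =>
      have e : -(((k + 1 : ℕ) : ℝ) * L) + L = -(k * L) := by push_cast; ring
      have h1 := h.turn (-(((k + 1 : ℕ) : ℝ) * L))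
      rw [e, ih] at h1
      push_cast at h1 ⊢
      linarith
  have hpi : 0 < 2 * π := by positivity
  obtain ⟨k, hk⟩ := exists_nat_gt (|a - θ 0| / (2 * π))
  have hk' : |a - θ 0| < k * (2 * π) := (div_lt_iff₀ hpi).1 hk
  have hab := abs_lt.1 hk'
  have h1 : a ∈ Icc (θ (-(k * L))) (θ (k * L)) := by
    rw [hz, hz']
    constructor <;> linarith [hab.1, hab.2]
  have hle : -((k : ℝ) * L) ≤ k * L := by
    have := mul_nonneg (Nat.cast_nonneg k : (0 : ℝ) ≤ k) h.loop.Lpos.le
    linarith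
  obtain ⟨s, -, hs⟩ := intermediate_value_Icc hle hc.continuousOn h1
  exact ⟨s, hs⟩

/-- reflection (`IsProfile.flip`) -/
theorem CLoop.flip {x r θ : ℝ → ℝ} {L : ℝ} (h : CLoop x r θ L) (κ : ℝ) :
    CLoop (fun s => -x (κ - s)) (fun s => r (κ - s)) (fun s => -θ (κ - s)) L := by
  have hp : ∀ (f : ℝ → ℝ), (∀ s, f (s + L) = f s) → ∀ s, f (κ - (s + L)) = f (κ - s) := by
    intro f hf s
    have := hf (κ - (s + L))
    rw [← this]
    congr 1
    ring
  refine ⟨⟨h.loop.prof.flip κ, h.loop.Lpos, ?_, ?_, ?_⟩, ?_, ?_⟩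
  · intro s
    rw [hp x h.loop.px s]
  · intro s
    exact hp r h.loop.pr s
  · intro s s' h1 h2
    obtain ⟨k, hk⟩ := h.loop.inj (κ - s) (κ - s') (neg_injective h1) h2
    refine ⟨-k, ?_⟩
    push_cast
    linarith
  · intro s
    have := h.turn (κ - (s + L))
    have e : κ - (s + L) + L = κ - s := by ring
    rw [e] at this
    linarith
  · intro s
    have := h.conv (κ - s)
    simp only [sin_neg, cos_neg]
    linarith

/-- shift of the parameter and of the angle -/
theorem CLoop.shift {x r θ : ℝ → ℝ} {L : ℝ} (h : CLoop x r θ L) (δ : ℝ) (k : ℤ) :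
    CLoop (fun s => x (s + δ)) (fun s => r (s + δ)) (fun s => θ (s + δ) + k * (2 * π)) L := by
  have hp : ∀ (f : ℝ → ℝ), (∀ s, f (s + L) = f s) → ∀ s, f (s + L + δ) = f (s + δ) := by
    intro f hf s
    rw [← hf (s + δ)]
    congr 1
    ring
  refine ⟨⟨h.loop.prof.shift δ k, h.loop.Lpos, hp x h.loop.px, hp r h.loop.pr, ?_⟩, ?_, ?_⟩
  · intro s s' h1 h2
    obtain ⟨j, hj⟩ := h.loop.inj (s + δ) (s' + δ) h1 h2
    exact ⟨j, by linarith⟩
  · intro s
    have e : s + L + δ = (s + δ) + L := by ring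
    rw [e, h.turn]
    ring
  · intro s
    simp only [sin_add_int_mul_two_pi, cos_add_int_mul_two_pi]
    exact h.conv (s + δ)

end AT
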