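import Mathlib

/-!
# Sturm comparison and concave functions
-/

namespace AT

open Real Set Filter Topology

theorem TBSturm_mv {a c : ℝ} {D E F : ℝ → ℝ}
    (hD : ∀ y ∈ Ioo a c, HasDerivAt D (E y) y) (hE : ∀ y ∈ Ioo a c, HasDerivAt E (F y) y)
    (hFn : ∀ y ∈ Ioo a c, F y < 0) {s y : ℝ} (hs : s ∈ Ioo a c) (hy : y ∈ Ioo a c) (hsy : s < y) :
    E y * (y - s) ≤ D y - D s ∧ D y - D s ≤ E s * (y - s) := by
  have hanti : StrictAntiOn E (Ioo a c) := by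
    refine strictAntiOn_of_deriv_neg (convex_Ioo a c)
      (fun x hx => (hE x hx).continuousAt.continuousWithinAt) (fun x hx => ?_)
    rw [interior_Ioo] at hx
    rw [(hE x hx).deriv]
    exact hFn x hx
  have hsub : ∀ x ∈ Icc s y, x ∈ Ioo a c := fun x hx =>
    ⟨lt_of_lt_of_le hs.1 hx.1, lt_of_le_of_lt hx.2 hy.2⟩
  obtain ⟨ξ, hξ, h1⟩ := exists_hasDerivAt_eq_slope D E hsy
    (fun x hx => (hD x (hsub x hx)).continuousAt.continuousWithinAt)
    (fun x hx => hD x (hsub x ⟨hx.1.le, hx.2.le⟩))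
  have hpos : 0 < y - s := sub_pos.2 hsy
  have h2 : D y - D s = E ξ * (y - s) := by
    rw [h1, div_mul_cancel₀ _ hpos.ne']
  have hξ' := hsub ξ ⟨hξ.1.le, hξ.2.le⟩
  rw [h2]
  exact ⟨mul_le_mul_of_nonneg_right (hanti hξ' hy hξ.2).le hpos.le,
    mul_le_mul_of_nonneg_right (hanti hs hξ' hξ.1).le hpos.le⟩

theorem TBSturm_a {a c : ℝ} {D E F : ℝ → ℝ}
    (hD : ∀ y ∈ Ioo a c, HasDerivAt D (E y) y) (hE : ∀ y ∈ Ioo a c, HasDerivAt E (F y) y)
    (hDp : ∀ y ∈ Ioo a c, 0 < D y) (hFn : ∀ y ∈ Ioo a c, F y < 0) {y : ℝ} (hy : y ∈ Ioo a c) :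
    E y * (y - a) ≤ D y := by
  have h1 : Tendsto (fun s : ℝ => E y * (y - s)) (𝓝[>] a) (𝓝 (E y * (y - a))) := by
    have : Continuous (fun s : ℝ => E y * (y - s)) := by fun_prop
    exact (this.tendsto a).mono_left nhdsWithin_le_nhds
  refine le_of_tendsto h1 ?_
  filter_upwards [Ioo_mem_nhdsGT hy.1] with s hs
  have hs' : s ∈ Ioo a c := ⟨hs.1, hs.2.trans hy.2⟩
  have := (TBSturm_mv hD hE hFn hs' hy hs.2).1
  have := hDp s hs'
  linarith

theorem TBSturm_c {a c : ℝ} {D E F : ℝ → ℝ}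
    (hD : ∀ y ∈ Ioo a c, HasDerivAt D (E y) y) (hE : ∀ y ∈ Ioo a c, HasDerivAt E (F y) y)
    (hDp : ∀ y ∈ Ioo a c, 0 < D y) (hFn : ∀ y ∈ Ioo a c, F y < 0) {y : ℝ} (hy : y ∈ Ioo a c) :
    E y * (y - c) ≤ D y := by
  have h1 : Tendsto (fun s : ℝ => E y * (y - s)) (𝓝[<] c) (𝓝 (E y * (y - c))) := by
    have : Continuous (fun s : ℝ => E y * (y - s)) := by fun_prop
    exact (this.tendsto c).mono_left nhdsWithin_le_nhds
  refine le_of_tendsto h1 ?_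
  filter_upwards [Ioo_mem_nhdsLT hy.2] with s hs
  have hs' : s ∈ Ioo a c := ⟨hy.1.trans hs.1, hs.2⟩
  have := (TBSturm_mv hD hE hFn hy hs' hs.1).2
  have := hDp s hs'
  linarith

theorem TBSturm_bd {a c : ℝ} (hac : a < c) {D E F : ℝ → ℝ}
    (hD : ∀ y ∈ Ioo a c, HasDerivAt D (E y) y) (hE : ∀ y ∈ Ioo a c, HasDerivAt E (F y) y)
    (hDp : ∀ y ∈ Ioo a c, 0 < D y) (hFn : ∀ y ∈ Ioo a c, F y < 0) :
    ∃ M : ℝ, 0 ≤ M ∧ ∀ y ∈ Ioo a c, D y ≤ M := by
  obtain ⟨m, hm⟩ : (Ioo a c).Nonempty := nonempty_Ioo.2 hac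
  have hm0 := hDp m hm
  have hca : 0 ≤ c - a := by linarith
  refine ⟨D m + |E m| * (c - a), by positivity, fun y hy => ?_⟩
  rcases lt_trichotomy y m with h | h | h
  · have h1 := (TBSturm_mv hD hE hFn hy hm h).1
    have h2 : -(E m * (m - y)) ≤ |E m| * (c - a) := by
      have h3 : -(E m * (m - y)) ≤ |E m| * (m - y) := by
        have h4 : 0 ≤ m - y := by linarith
        have h5 := neg_abs_le (E m)
        nlinarith
      have h6 : |E m| * (m - y) ≤ |E m| * (c - a) :=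
        mul_le_mul_of_nonneg_left (by linarith [hm.2, hy.1]) (abs_nonneg _)
      linarith
    linarith
  · rw [h]
    have : 0 ≤ |E m| * (c - a) := by positivity
    linarith
  · have h1 := (TBSturm_mv hD hE hFn hm hy h).2
    have h3 : E m * (y - m) ≤ |E m| * (y - m) :=
      mul_le_mul_of_nonneg_right (le_abs_self _) (by linarith)
    have h6 : |E m| * (y - m) ≤ |E m| * (c - a) :=
      mul_le_mul_of_nonneg_left (by linarith [hm.1, hy.2]) (abs_nonneg _)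
    linarith

theorem TBSturm_lim {ψ ψ' ψ'' : ℝ → ℝ} (hψ : ∀ y, HasDerivAt ψ (ψ' y) y)
    (hψ' : ∀ y, HasDerivAt ψ' (ψ'' y) y) {a : ℝ} (ha : ψ a = 0) (M : ℝ) :
    Tendsto (fun y => M * |(y - a)⁻¹ * ψ y - ψ' y|) (𝓝[≠] a) (𝓝 0) := by
  have h1 : Tendsto (slope ψ a) (𝓝[≠] a) (𝓝 (ψ' a)) := (hasDerivAt_iff_tendsto_slope).1 (hψ a)
  have h2 : Tendsto ψ' (𝓝[≠] a) (𝓝 (ψ' a)) :=
    (hψ' a).continuousAt.tendsto.mono_left nhdsWithin_le_nhds
  have h3 := ((h1.sub h2).abs).const_mul M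
  rw [sub_self, abs_zero, mul_zero] at h3
  refine h3.congr (fun y => ?_)
  rw [slope_def_field, ha, sub_zero, div_eq_inv_mul]

/-- Sturm comparison with a test function. Proof. `W y = e^{-y²/4} (E ψ - D ψ')` has derivative
`e^{-y²/4} (ψ (F - y E/2 + D/2) - D (ψ'' - y ψ'/2 + ψ/2)) < 0`, so `W` is strictly decreasing on
`(a, c)`. `E` is strictly decreasing (`F < 0`) and `D > 0`, so `E y (y - a) ≤ D y` and
`-(E y) (c - y) ≤ D y` (mean value theorem, let the other point tend to `a`, `c`), hence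
`W y ≤ e^{-y²/4} D y (ψ y/(y-a) - ψ' y)`, `W y ≥ -e^{-y²/4} D y (ψ y/(c-y) + ψ' y)`, and `D` is
bounded (tangent line), `ψ y/(y-a) → ψ' a`, `ψ y/(c-y) → -ψ' c`. So `W` has upper limit `≤ 0` at `a`
and lower limit `≥ 0` at `c`: contradiction. -/
theorem sturm_test {a c : ℝ} (hac : a < c) {D E F ψ ψ' ψ'' : ℝ → ℝ}
    (hD : ∀ y ∈ Ioo a c, HasDerivAt D (E y) y) (hE : ∀ y ∈ Ioo a c, HasDerivAt E (F y) y)
    (hDp : ∀ y ∈ Ioo a c, 0 < D y) (hFn : ∀ y ∈ Ioo a c, F y < 0)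
    (hF : ∀ y ∈ Ioo a c, F y < y / 2 * E y - D y / 2)
    (hψ : ∀ y, HasDerivAt ψ (ψ' y) y) (hψ' : ∀ y, HasDerivAt ψ' (ψ'' y) y)
    (ha : ψ a = 0) (hc : ψ c = 0) (hp : ∀ y ∈ Ioo a c, 0 < ψ y)
    (hL : ∀ y ∈ Ioo a c, 0 ≤ ψ'' y - y / 2 * ψ' y + ψ y / 2) : False := by
  obtain ⟨M, hM0, hM⟩ := TBSturm_bd hac hD hE hDp hFn
  set W : ℝ → ℝ := fun y => exp (-(y ^ 2) / 4) * (E y * ψ y - D y * ψ' y) with hW
  have hWd : ∀ y ∈ Ioo a c, HasDerivAt W (exp (-(y ^ 2) / 4) * (-(2 * y) / 4) *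
      (E y * ψ y - D y * ψ' y) + exp (-(y ^ 2) / 4) * ((F y * ψ y + E y * ψ' y) -
      (E y * ψ' y + D y * ψ'' y))) y := by
    intro y hy
    have e1 : HasDerivAt (fun y : ℝ => -(y ^ 2) / 4) (-(2 * y) / 4) y := by
      have := ((hasDerivAt_pow 2 y).neg).div_const 4
      simpa using this
    exact e1.exp.mul (((hE y hy).mul (hψ y)).sub ((hD y hy).mul (hψ' y)))
  have hWn : ∀ y ∈ Ioo a c, exp (-(y ^ 2) / 4) * (-(2 * y) / 4) *
      (E y * ψ y - D y * ψ' y) + exp (-(y ^ 2) / 4) * ((F y * ψ y + E y * ψ' y) -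
      (E y * ψ' y + D y * ψ'' y)) < 0 := by
    intro y hy
    have h0 : 0 < exp (-(y ^ 2) / 4) := exp_pos _
    have h1 := mul_lt_mul_of_pos_right (hF y hy) (hp y hy)
    have h2 := mul_nonneg (hDp y hy).le (hL y hy)
    have h3 : -(2 * y) / 4 * (E y * ψ y - D y * ψ' y) + ((F y * ψ y + E y * ψ' y) -
      (E y * ψ' y + D y * ψ'' y)) < 0 := by nlinarith
    have h4 := mul_neg_of_pos_of_neg h0 h3
    calc _ = exp (-(y ^ 2) / 4) * (-(2 * y) / 4 * (E y * ψ y - D y * ψ' y) +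
          ((F y * ψ y + E y * ψ' y) - (E y * ψ' y + D y * ψ'' y))) := by ring
      _ < 0 := h4
  have hWa : StrictAntiOn W (Ioo a c) := by
    refine strictAntiOn_of_deriv_neg (convex_Ioo a c)
      (fun x hx => (hWd x hx).continuousAt.continuousWithinAt) (fun x hx => ?_)
    rw [interior_Ioo] at hx
    rw [(hWd x hx).deriv]
    exact hWn x hx
  have hexp : ∀ y : ℝ, exp (-(y ^ 2) / 4) ≤ 1 := by
    intro y
    rw [exp_le_one_iff]
    have := sq_nonneg y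
    linarith
  have hfac : ∀ y ∈ Ioo a c, ∀ t : ℝ, exp (-(y ^ 2) / 4) * (D y * t) ≤ M * |t| := by
    intro y hy t
    have h0 : 0 < exp (-(y ^ 2) / 4) := exp_pos _
    have h1 : exp (-(y ^ 2) / 4) * (D y * t) ≤ exp (-(y ^ 2) / 4) * (M * |t|) := by
      refine mul_le_mul_of_nonneg_left ?_ h0.le
      calc D y * t ≤ D y * |t| := mul_le_mul_of_nonneg_left (le_abs_self t) (hDp y hy).le
        _ ≤ M * |t| := mul_le_mul_of_nonneg_right (hM y hy) (abs_nonneg t)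
    have h2 : exp (-(y ^ 2) / 4) * (M * |t|) ≤ 1 * (M * |t|) :=
      mul_le_mul_of_nonneg_right (hexp y) (by positivity)
    linarith
  have hup : ∀ y ∈ Ioo a c, W y ≤ M * |(y - a)⁻¹ * ψ y - ψ' y| := by
    intro y hy
    refine le_trans ?_ (hfac y hy _)
    refine mul_le_mul_of_nonneg_left ?_ (exp_pos _).le
    have h1 := TBSturm_a hD hE hDp hFn hy
    have h2 : 0 < y - a := by linarith [hy.1]
    have h3 : E y ≤ D y * (y - a)⁻¹ := by
      rw [← div_eq_mul_inv, le_div_iff₀ h2]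
      exact h1
    have h4 := mul_le_mul_of_nonneg_right h3 (hp y hy).le
    calc E y * ψ y - D y * ψ' y ≤ D y * (y - a)⁻¹ * ψ y - D y * ψ' y := by linarith
      _ = D y * ((y - a)⁻¹ * ψ y - ψ' y) := by ring
  have hlo : ∀ y ∈ Ioo a c, -(M * |(y - c)⁻¹ * ψ y - ψ' y|) ≤ W y := by
    intro y hy
    have h1 := TBSturm_c hD hE hDp hFn hy
    have h2 : y - c < 0 := by linarith [hy.2]
    have h3 : D y * (y - c)⁻¹ ≤ E y := by
      rw [← div_eq_mul_inv, div_le_iff_of_neg h2]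
      exact h1
    have h4 := mul_le_mul_of_nonneg_right h3 (hp y hy).le
    have h5 : D y * ((y - c)⁻¹ * ψ y - ψ' y) ≤ E y * ψ y - D y * ψ' y := by
      calc D y * ((y - c)⁻¹ * ψ y - ψ' y) = D y * (y - c)⁻¹ * ψ y - D y * ψ' y := by ring
        _ ≤ E y * ψ y - D y * ψ' y := by linarith
    have h6 := mul_le_mul_of_nonneg_left h5 (exp_pos (-(y ^ 2) / 4)).le
    have h7 := hfac y hy (-((y - c)⁻¹ * ψ y - ψ' y))
    rw [abs_neg] at h7
    change -(M * |(y - c)⁻¹ * ψ y - ψ' y|) ≤ exp (-(y ^ 2) / 4) * (E y * ψ y - D y * ψ' y)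
    linarith
  have hneg : ∀ y ∈ Ioo a c, W y ≤ 0 := by
    intro y hy
    have h1 := (TBSturm_lim hψ hψ' ha M).mono_left
      (nhdsWithin_mono a (fun x hx => ne_of_gt hx : Ioi a ⊆ {a}ᶜ))
    refine ge_of_tendsto h1 ?_
    filter_upwards [Ioo_mem_nhdsGT hy.1] with s hs
    have hs' : s ∈ Ioo a c := ⟨hs.1, hs.2.trans hy.2⟩
    exact (hWa hs' hy hs.2).le.trans (hup s hs')
  have hpos : ∀ y ∈ Ioo a c, 0 ≤ W y := by
    intro y hy
    have h1 := ((TBSturm_lim hψ hψ' hc M).mono_left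
      (nhdsWithin_mono c (fun x hx => ne_of_lt hx : Iio c ⊆ {c}ᶜ))).neg
    rw [neg_zero] at h1
    refine le_of_tendsto h1 ?_
    filter_upwards [Ioo_mem_nhdsLT hy.2] with s hs
    have hs' : s ∈ Ioo a c := ⟨hy.1.trans hs.1, hs.2⟩
    exact (hlo s hs').trans (hWa hy hs' hs.1).le
  obtain ⟨m, hm⟩ : (Ioo a c).Nonempty := nonempty_Ioo.2 hac
  obtain ⟨m', hm'⟩ : (Ioo m c).Nonempty := nonempty_Ioo.2 hm.2
  have hm2 : m' ∈ Ioo a c := ⟨hm.1.trans hm'.1, hm'.2⟩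
  have h1 := hWa hm hm2 hm'.1
  have h2 := hneg m hm
  have h3 := hpos m' hm2
  linarith

/-- `u < w`: `D = w - u` is strictly concave and tends to `0` at both ends -/
theorem concave_pos {α β : ℝ} {D E F : ℝ → ℝ} (hαβ : α < β)
    (hD : ∀ y ∈ Ioo α β, HasDerivAt D (E y) y) (hE : ∀ y ∈ Ioo α β, HasDerivAt E (F y) y)
    (hF : ∀ y ∈ Ioo α β, F y < 0) (ha : Tendsto D (𝓝[>] α) (𝓝 0))
    (hb : Tendsto D (𝓝[<] β) (𝓝 0)) : ∀ y ∈ Ioo α β, 0 < D y := by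
  have hEa : StrictAntiOn E (Ioo α β) := by
    refine strictAntiOn_of_deriv_neg (convex_Ioo α β)
      (fun x hx => (hE x hx).continuousAt.continuousWithinAt) ?_
    intro x hx
    rw [interior_Ioo] at hx
    rw [(hE x hx).deriv]
    exact hF x hx
  intro y hy
  by_contra hneg
  have hDy : D y ≤ 0 := not_lt.1 hneg
  rcases le_total 0 (E y) with h0 | h0
  · -- increasing on the left
    have hmono : StrictMonoOn D (Ioc α y) := by
      refine strictMonoOn_of_deriv_pos (convex_Ioc α y) ?_ ?_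
      · intro x hx
        exact (hD x ⟨hx.1, lt_of_le_of_lt hx.2 hy.2⟩).continuousAt.continuousWithinAt
      · intro x hx
        rw [interior_Ioc] at hx
        have hx' : x ∈ Ioo α β := ⟨hx.1, hx.2.trans hy.2⟩
        rw [(hD x hx').deriv]
        exact lt_of_le_of_lt h0 (hEa hx' hy hx.2)
    obtain ⟨x0, hx0⟩ := exists_between hy.1
    have hlt : D x0 < 0 :=
      lt_of_lt_of_le (hmono ⟨hx0.1, hx0.2.le⟩ ⟨hy.1, le_refl y⟩ hx0.2) hDy
    have hev : ∀ᶠ x in 𝓝[>] α, D x ≤ D x0 := by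
      filter_upwards [Ioo_mem_nhdsGT hx0.1] with x hx
      exact (hmono ⟨hx.1, (hx.2.trans hx0.2).le⟩ ⟨hx0.1, hx0.2.le⟩ hx.2).le
    have := le_of_tendsto ha hev
    linarith
  · have hanti : StrictAntiOn D (Ico y β) := by
      refine strictAntiOn_of_deriv_neg (convex_Ico y β) ?_ ?_
      · intro x hx
        exact (hD x ⟨lt_of_lt_of_le hy.1 hx.1, hx.2⟩).continuousAt.continuousWithinAt
      · intro x hx
        rw [interior_Ico] at hx
        have hx' : x ∈ Ioo α β := ⟨hy.1.trans hx.1, hx.2⟩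
        rw [(hD x hx').deriv]
        exact lt_of_lt_of_le (hEa hy hx' hx.1) h0
    obtain ⟨x0, hx0⟩ := exists_between hy.2
    have hlt : D x0 < 0 :=
      lt_of_lt_of_le (hanti ⟨le_refl y, hy.2⟩ ⟨hx0.1.le, hx0.2⟩ hx0.1) hDy
    have hev : ∀ᶠ x in 𝓝[<] β, D x ≤ D x0 := by
      filter_upwards [Ioo_mem_nhdsLT hx0.2] with x hx
      exact (hanti ⟨hx0.1.le, hx0.2⟩ ⟨(hx0.1.trans hx.1).le, hx.2⟩ hx.1).le
    have := le_of_tendsto hb hev
    linarith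

end AT
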