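import Pool.Agent.H.MP_ce2c94_gt.TBDefs
import Pool.Agent.H.MP_ce2c94_gt.TBSturm

/-!
# The width of a convex profile (Lemma D4)
-/

namespace AT

open Real Set Filter Topology

/-- the thickness `D = w - u`: `D'' < 0` and, where `u < w`, `D'' < (y/2) D' - D/2`, because
`(1 + q²) Q_w ≤ Q_w` (`Q_w < 0`), `(1 + p²) Q_u ≥ Q_u` (`Q_u > 0`) and
`Q_w - Q_u = (y/2)(q - p) - (w - u)/2 - (1/u - 1/w)` -/
theorem thick {α β : ℝ} {u p w q : ℝ → ℝ} (hu : Gr α β u p) (hw : Gr α β w q)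
    (hcu : ∀ y ∈ Ioo α β, 0 < y * p y / 2 + (1 / u y - u y / 2))
    (hcw : ∀ y ∈ Ioo α β, y * q y / 2 + (1 / w y - w y / 2) < 0) :
    ∃ F : ℝ → ℝ, (∀ y ∈ Ioo α β, HasDerivAt (fun y => w y - u y) (q y - p y) y) ∧
      (∀ y ∈ Ioo α β, HasDerivAt (fun y => q y - p y) (F y) y) ∧
      (∀ y ∈ Ioo α β, F y < 0) ∧
      ∀ y ∈ Ioo α β, u y < w y → F y < y / 2 * (q y - p y) - (w y - u y) / 2 := by
  refine ⟨fun y => (1 + q y ^ 2) * (y * q y / 2 + (1 / w y - w y / 2)) -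
    (1 + p y ^ 2) * (y * p y / 2 + (1 / u y - u y / 2)), fun y hy => (hw.du y hy).sub (hu.du y hy),
    fun y hy => (hw.dp y hy).sub (hu.dp y hy), fun y hy => ?_, fun y hy hlt => ?_⟩
  · have h1 := hcu y hy
    have h2 := hcw y hy
    have h3 : (1 + q y ^ 2) * (y * q y / 2 + (1 / w y - w y / 2)) < 0 :=
      mul_neg_of_pos_of_neg (by positivity) h2
    have h4 : 0 < (1 + p y ^ 2) * (y * p y / 2 + (1 / u y - u y / 2)) :=
      mul_pos (by positivity) h1
    show (1 + q y ^ 2) * (y * q y / 2 + (1 / w y - w y / 2)) -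
      (1 + p y ^ 2) * (y * p y / 2 + (1 / u y - u y / 2)) < 0
    linarith
  · have h1 := hcu y hy
    have h2 := hcw y hy
    have hup := hu.pos y hy
    have h5 : 1 / w y < 1 / u y := one_div_lt_one_div_of_lt hup hlt
    have h3 : q y ^ 2 * (y * q y / 2 + (1 / w y - w y / 2)) ≤ 0 :=
      mul_nonpos_of_nonneg_of_nonpos (sq_nonneg _) h2.le
    have h4 : 0 ≤ p y ^ 2 * (y * p y / 2 + (1 / u y - u y / 2)) :=
      mul_nonneg (sq_nonneg _) h1.le
    show (1 + q y ^ 2) * (y * q y / 2 + (1 / w y - w y / 2)) -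
      (1 + p y ^ 2) * (y * p y / 2 + (1 / u y - u y / 2)) < y / 2 * (q y - p y) - (w y - u y) / 2
    nlinarith

/-- the even part of the test function -/
noncomputable def TBD_e (y : ℝ) : ℝ := 1 - y ^ 2 / 4 - y ^ 4 / 96 - y ^ 6 / 1920

theorem TBD_e_deriv (y : ℝ) : HasDerivAt TBD_e (-y / 2 - y ^ 3 / 24 - y ^ 5 / 320) y := by
  have h3 := ((((hasDerivAt_pow 2 y).div_const 4).const_sub 1).sub
    ((hasDerivAt_pow 4 y).div_const 96)).sub ((hasDerivAt_pow 6 y).div_const 1920)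
  refine h3.congr_deriv ?_
  push_cast
  ring

/-- **Lemma D4.** Proof. First part: otherwise `sturm_test` on `(-2, 2)` with `ψ = 4 - y²`
(`ψ'' - y ψ'/2 + ψ/2 = y²/2`). Second part: suppose `β - α ≥ 4`; by the first part `-2 < α`; put
`e y = 1 - y²/4 - y⁴/96 - y⁶/1920`, `μ = e(α)/(-α)`, `ψ y = e y + μ y` (`ψ α = 0`, `ψ 0 = 1`,
`ψ'' - y ψ'/2 + ψ/2 = y⁶/768`, `ψ'' < 0`). `ψ (4 + α) ≤ 0`: with `A = -α`, `B = 4 - A`, `P = A B ∈ [3, 4]`,
`A e B + B e A = 4 - P - P (64 - 12 P)/96 - P (1024 - 320 P + 20 P²)/1920 < 0`. So `ψ c = 0` for some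
`c ∈ (0, 4 + α]` (`4 + α ≤ β`); `ψ > 0` on `(α, c)` by strict concavity. `sturm_test` on `(α, c)`. -/
theorem dFour {α β : ℝ} {u p w q : ℝ → ℝ} (hu : Gr α β u p) (hw : Gr α β w q)
    (hcu : ∀ y ∈ Ioo α β, 0 < y * p y / 2 + (1 / u y - u y / 2))
    (hcw : ∀ y ∈ Ioo α β, y * q y / 2 + (1 / w y - w y / 2) < 0)
    (hlt : ∀ y ∈ Ioo α β, u y < w y) :
    (-2 < α ∨ β < 2) ∧ (α ≤ -1 → -α ≤ β → β - α < 4) := by
  obtain ⟨F, f1, f2, f3, f4⟩ := thick hu hw hcu hcw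
  have hDp : ∀ y ∈ Ioo α β, 0 < w y - u y := fun y hy => sub_pos.2 (hlt y hy)
  have first : -2 < α ∨ β < 2 := by
    by_contra hcon
    rw [not_or, not_lt, not_lt] at hcon
    obtain ⟨h1, h2⟩ := hcon
    have hsub : ∀ y ∈ Ioo (-2 : ℝ) 2, y ∈ Ioo α β := fun y hy =>
      ⟨lt_of_le_of_lt h1 hy.1, lt_of_lt_of_le hy.2 h2⟩
    refine sturm_test (a := -2) (c := 2) (by norm_num) (D := fun y => w y - u y)
      (E := fun y => q y - p y) (F := F) (ψ := fun y => 4 - y ^ 2) (ψ' := fun y => -(2 * y))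
      (ψ'' := fun _ => -2) (fun y hy => f1 y (hsub y hy)) (fun y hy => f2 y (hsub y hy))
      (fun y hy => hDp y (hsub y hy)) (fun y hy => f3 y (hsub y hy))
      (fun y hy => f4 y (hsub y hy) (hlt y (hsub y hy))) ?_ ?_ (by norm_num) (by norm_num) ?_ ?_
    · intro y
      have h3 := (hasDerivAt_pow 2 y).const_sub 4
      simpa using h3
    · intro y
      have h3 := ((hasDerivAt_id y).const_mul (2 : ℝ)).neg
      rw [mul_one] at h3
      exact h3
    · intro y hy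
      have h3 := hy.1
      have h4 := hy.2
      show 0 < 4 - y ^ 2
      nlinarith
    · intro y _
      show 0 ≤ -2 - y / 2 * -(2 * y) + (4 - y ^ 2) / 2
      nlinarith [sq_nonneg y]
  refine ⟨first, fun h1 h2 => ?_⟩
  by_contra hcon
  rw [not_lt] at hcon
  have hα2 : -2 < α := by
    rcases first with h | h
    · exact h
    · linarith
  obtain ⟨μ, hμ⟩ : ∃ μ : ℝ, μ = TBD_e α / (-α) := ⟨_, rfl⟩
  have hα : -α ≠ 0 := by
    intro h
    linarith
  have hμ1 : μ * (-α) = TBD_e α := by rw [hμ, div_mul_cancel₀ _ hα]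
  obtain ⟨ψ, hψ⟩ : ∃ ψ : ℝ → ℝ, ψ = fun y => TBD_e y + μ * y := ⟨_, rfl⟩
  have d1 : ∀ y, HasDerivAt ψ (-y / 2 - y ^ 3 / 24 - y ^ 5 / 320 + μ) y := by
    intro y
    rw [hψ]
    have h3 := (TBD_e_deriv y).add ((hasDerivAt_id y).const_mul μ)
    rw [mul_one] at h3
    exact h3
  have d2 : ∀ y, HasDerivAt (fun y : ℝ => -y / 2 - y ^ 3 / 24 - y ^ 5 / 320 + μ)
      (-1 / 2 - y ^ 2 / 8 - y ^ 4 / 64) y := by
    intro y
    have h3 := (((((hasDerivAt_id y).neg).div_const 2).sub ((hasDerivAt_pow 3 y).div_const 24)).sub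
      ((hasDerivAt_pow 5 y).div_const 320)).add_const μ
    refine h3.congr_deriv ?_
    push_cast
    ring
  have hc0 : StrictConcaveOn ℝ univ ψ := by
    refine strictConcaveOn_univ_of_deriv2_neg
      (continuous_iff_continuousAt.2 fun y => (d1 y).continuousAt) fun y => ?_
    have h3 : deriv ψ = fun y : ℝ => -y / 2 - y ^ 3 / 24 - y ^ 5 / 320 + μ :=
      funext fun y => (d1 y).deriv
    show deriv (deriv ψ) y < 0
    rw [h3, (d2 y).deriv]
    have h4 : 0 ≤ y ^ 2 := sq_nonneg y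
    have h5 : 0 ≤ y ^ 4 := by positivity
    linarith
  have v1 : ψ α = 0 := by
    rw [hψ]
    show TBD_e α + μ * α = 0
    linarith
  have v2 : ψ 0 = 1 := by
    rw [hψ]
    show TBD_e 0 + μ * 0 = 1
    unfold TBD_e
    norm_num
  have v3 : ψ (4 + α) ≤ 0 := by
    obtain ⟨A, hA⟩ : ∃ A : ℝ, A = -α := ⟨_, rfl⟩
    have hAα : α = -A := by rw [hA, neg_neg]
    have hA1 : 1 ≤ A := by linarith
    have hA2 : A < 2 := by linarith
    have h3 : μ * A = TBD_e A := by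
      rw [hA, hμ1]
      unfold TBD_e
      ring
    have h4 : A * ψ (4 + α) = A * TBD_e (4 - A) + (4 - A) * TBD_e A := by
      rw [hψ, ← h3, hAα]
      show A * (TBD_e (4 + -A) + μ * (4 + -A)) = _
      rw [← sub_eq_add_neg]
      ring
    have h5 : A * TBD_e (4 - A) + (4 - A) * TBD_e A < 0 := by
      obtain ⟨P, hP⟩ : ∃ P : ℝ, P = A * (4 - A) := ⟨_, rfl⟩
      have hP1 : 3 ≤ P := by
        rw [hP]
        nlinarith
      have hP2 : P ≤ 4 := by
        rw [hP]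
        nlinarith [sq_nonneg (A - 2)]
      have h6 : A * TBD_e (4 - A) + (4 - A) * TBD_e A =
          4 - P - P * (64 - 12 * P) / 96 - P * (1024 - 320 * P + 20 * P ^ 2) / 1920 := by
        rw [hP]
        unfold TBD_e
        ring
      rw [h6]
      have h7 : 0 < P * (64 - 12 * P) / 96 := by
        have : 0 < 64 - 12 * P := by linarith
        positivity
      have h8 : 1024 - 320 * P + 20 * P ^ 2 ≥ 64 := by nlinarith
      nlinarith
    by_contra hneg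
    rw [not_le] at hneg
    have h9 : 0 < A * ψ (4 + α) := mul_pos (by linarith) hneg
    linarith
  have hcont : Continuous ψ := continuous_iff_continuousAt.2 fun y => (d1 y).continuousAt
  obtain ⟨c, hc, hc1⟩ := intermediate_value_Icc' (by linarith : (0 : ℝ) ≤ 4 + α)
    hcont.continuousOn (show (0 : ℝ) ∈ Icc (ψ (4 + α)) (ψ 0) from ⟨v3, by rw [v2]; norm_num⟩)
  have hc2 : 0 < c := by
    rcases eq_or_lt_of_le hc.1 with h | h
    · exfalso
      rw [← h, v2] at hc1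
      exact one_ne_zero hc1
    · exact h
  have hac : α < c := by linarith
  have hsub : ∀ y ∈ Ioo α c, y ∈ Ioo α β := fun y hy =>
    ⟨hy.1, lt_of_lt_of_le hy.2 (by linarith [hc.2])⟩
  refine sturm_test hac (D := fun y => w y - u y)
      (E := fun y => q y - p y) (F := F) (ψ := ψ)
      (ψ' := fun y => -y / 2 - y ^ 3 / 24 - y ^ 5 / 320 + μ)
      (ψ'' := fun y => -1 / 2 - y ^ 2 / 8 - y ^ 4 / 64)
      (fun y hy => f1 y (hsub y hy)) (fun y hy => f2 y (hsub y hy))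
      (fun y hy => hDp y (hsub y hy)) (fun y hy => f3 y (hsub y hy))
      (fun y hy => f4 y (hsub y hy) (hlt y (hsub y hy))) d1 d2 v1 hc1 ?_ ?_
  · intro y hy
    have h3 := hc0.lt_on_openSegment (mem_univ α) (mem_univ c) hac.ne
      (by rw [openSegment_eq_Ioo hac]; exact hy)
    rw [v1, hc1, min_self] at h3
    exact h3
  · intro y _
    have h3 : -1 / 2 - y ^ 2 / 8 - y ^ 4 / 64 - y / 2 * (-y / 2 - y ^ 3 / 24 - y ^ 5 / 320 + μ) +
        ψ y / 2 = y ^ 6 / 768 := by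
      rw [hψ]
      show -1 / 2 - y ^ 2 / 8 - y ^ 4 / 64 - y / 2 * (-y / 2 - y ^ 3 / 24 - y ^ 5 / 320 + μ) +
        (TBD_e y + μ * y) / 2 = y ^ 6 / 768
      unfold TBD_e
      ring
    show 0 ≤ -1 / 2 - y ^ 2 / 8 - y ^ 4 / 64 - y / 2 * (-y / 2 - y ^ 3 / 24 - y ^ 5 / 320 + μ) +
        ψ y / 2
    rw [h3]
    positivity

end AT
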