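import Pool.Agent.H.MP_ce2c94_gt.RedA

/-!
# Convex closed profiles: definitions (target B)
-/

namespace AT

open Real Set Filter Topology

/-- A closed simple strictly convex profile, run counterclockwise. The right strand is
`0 < θ < π`, the upper arc is `π/2 < θ < 3π/2`. -/
structure CLoop (x r θ : ℝ → ℝ) (L : ℝ) : Prop where
  loop : Loop x r θ L
  turn : ∀ s, θ (s + L) = θ s + 2 * π
  conv : ∀ s, 0 < x s / 2 * sin (θ s) + (1 / r s - r s / 2) * cos (θ s)

/-- A solution of the graph equation `r = u(y)`, `p = u'`, over the open interval `(α, β)` of the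
axis. -/
structure Gr (α β : ℝ) (u p : ℝ → ℝ) : Prop where
  pos : ∀ y ∈ Ioo α β, 0 < u y
  du : ∀ y ∈ Ioo α β, HasDerivAt u (p y) y
  dp : ∀ y ∈ Ioo α β, HasDerivAt p ((1 + p y ^ 2) * (y * p y / 2 + (1 / u y - u y / 2))) y

end AT
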