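import Pool.Agent.H.MP_ce2c94_gt.TBInv
import Pool.Agent.H.MP_ce2c94_gt.TBBase

/-!
# The two arcs of a convex closed profile as graphs over the axis
-/

namespace AT

open Real Set Filter Topology

theorem TBGr_tan {c s y K : ℝ} (hc : c ≠ 0) (h1 : s ^ 2 + c ^ 2 = 1) :
    1 / c ^ 2 * (y / 2 * s + K * c) * (1 / c) = (1 + (s / c) ^ 2) * (y * (s / c) / 2 + K) := by
  have h2 : 1 + (s / c) ^ 2 = 1 / c ^ 2 := by
    rw [div_pow, eq_div_iff (pow_ne_zero 2 hc), add_mul, div_mul_cancel₀ _ (pow_ne_zero 2 hc)]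
    linarith
  have h3 : y * (s / c) / 2 + K = (y / 2 * s + K * c) * (1 / c) := by
    field_simp
  rw [h2, h3]
  ring

/-- The lower arc: `θ A = -π/2`, `θ B = π/2`, `s ∈ (A, B)`; `u (x s) = r s`, `p (x s) = tan θ s`.
(`inv_fun` for `x` on `[A, B]`, where `x' = cos θ > 0`.) `x A < 0 < x B` by `h.conv` at `A`, `B`. -/
theorem CLoop.lower {x r θ : ℝ → ℝ} {L A B : ℝ} (h : CLoop x r θ L) (hA : θ A = -(π / 2))
    (hB : θ B = π / 2) :
    ∃ u p : ℝ → ℝ, A < B ∧ x A < 0 ∧ 0 < x B ∧ Gr (x A) (x B) u p ∧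
      (∀ s ∈ Ioo A B, x s ∈ Ioo (x A) (x B) ∧ u (x s) = r s ∧ p (x s) = tan (θ s)) ∧
      (∀ y ∈ Ioo (x A) (x B), ∃ s ∈ Ioo A B, x s = y) ∧
      (∀ y ∈ Ioo (x A) (x B), 0 < y * p y / 2 + (1 / u y - u y / 2)) ∧
      Tendsto u (𝓝[>] (x A)) (𝓝 (r A)) ∧ Tendsto u (𝓝[<] (x B)) (𝓝 (r B)) := by
  have hP : IsProfile x r θ := h.loop.prof
  have hm : StrictMono θ := h.mono
  have hAB : A < B := hm.lt_iff_lt.mp (by rw [hA, hB]; linarith [pi_pos])
  have hth : ∀ s ∈ Ioo A B, θ s ∈ Ioo (-(π / 2)) (π / 2) := by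
    intro s hs
    exact ⟨by rw [← hA]; exact hm hs.1, by rw [← hB]; exact hm hs.2⟩
  have hcos : ∀ s ∈ Ioo A B, 0 < cos (θ s) := fun s hs => cos_pos_of_mem_Ioo (hth s hs)
  have hxc : Continuous x := continuous_iff_continuousAt.mpr fun s => (hP.hx s).continuousAt
  have hrc : ∀ s, ContinuousAt r s := fun s => (hP.hr s).continuousAt
  obtain ⟨g, hlt, hg1, hg2, hgA, hgB⟩ := inv_fun (f' := fun s => cos (θ s)) hAB hxc.continuousOn
    (fun s _ => hP.hx s) hcos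
  have hxm : StrictMonoOn x (Icc A B) := by
    refine strictMonoOn_of_deriv_pos (convex_Icc A B) hxc.continuousOn ?_
    intro s hs
    rw [interior_Icc] at hs
    rw [(hP.hx s).deriv]
    exact hcos s hs
  have hxA : x A < 0 := by
    have h1 := h.conv A
    rw [hA, sin_neg, cos_neg, sin_pi_div_two, cos_pi_div_two] at h1
    linarith
  have hxB : 0 < x B := by
    have h1 := h.conv B
    rw [hB, sin_pi_div_two, cos_pi_div_two] at h1
    linarith
  refine ⟨fun y => r (g y), fun y => tan (θ (g y)), hAB, hxA, hxB, ⟨?_, ?_, ?_⟩, ?_, ?_, ?_, ?_, ?_⟩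
  · intro y _
    exact hP.pos _
  · intro y hy
    obtain ⟨h1, h2, h3⟩ := hg2 y hy
    have h4 := (hP.hr (g y)).comp y h3
    have h5 : sin (θ (g y)) * (1 / cos (θ (g y))) = tan (θ (g y)) := by
      rw [tan_eq_sin_div_cos]
      ring
    rw [h5] at h4
    exact h4
  · intro y hy
    obtain ⟨h1, h2, h3⟩ := hg2 y hy
    have hc : cos (θ (g y)) ≠ 0 := (hcos _ h1).ne'
    have h4 := ((hasDerivAt_tan hc).comp (g y) (hP.hθ (g y))).comp y h3
    have h5 := TBGr_tan (y := y) (K := 1 / r (g y) - r (g y) / 2) hc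
      (sin_sq_add_cos_sq (θ (g y)))
    rw [h2, h5, ← tan_eq_sin_div_cos] at h4
    exact h4
  · intro s hs
    have hs' : s ∈ Icc A B := ⟨hs.1.le, hs.2.le⟩
    have h1 : g (x s) = s := hg1 s hs'
    refine ⟨⟨hxm ⟨le_rfl, hAB.le⟩ hs' hs.1, hxm hs' ⟨hAB.le, le_rfl⟩ hs.2⟩, ?_, ?_⟩
    · show r (g (x s)) = r s
      rw [h1]
    · show tan (θ (g (x s))) = tan (θ s)
      rw [h1]
  · intro y hy
    exact ⟨g y, (hg2 y hy).1, (hg2 y hy).2.1⟩
  · intro y hy
    obtain ⟨h1, h2, h3⟩ := hg2 y hy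
    have hc : 0 < cos (θ (g y)) := hcos _ h1
    have h4 := h.conv (g y)
    rw [h2] at h4
    show 0 < y * tan (θ (g y)) / 2 + (1 / r (g y) - r (g y) / 2)
    have h5 : y * tan (θ (g y)) / 2 + (1 / r (g y) - r (g y) / 2) =
        (y / 2 * sin (θ (g y)) + (1 / r (g y) - r (g y) / 2) * cos (θ (g y))) *
          (1 / cos (θ (g y))) := by
      rw [tan_eq_sin_div_cos, add_mul, mul_assoc (1 / r (g y) - r (g y) / 2),
        mul_one_div_cancel hc.ne']
      ring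
    rw [h5]
    exact mul_pos h4 (one_div_pos.mpr hc)
  · exact (hrc A).tendsto.comp hgA
  · exact (hrc B).tendsto.comp hgB


theorem TBGr_up_inv {x r θ : ℝ → ℝ} {L A' B : ℝ} (h : CLoop x r θ L) (hA : θ A' = 3 * π / 2)
    (hB : θ B = π / 2) :
    ∃ g : ℝ → ℝ, B < A' ∧ x A' < x B ∧ (∀ s ∈ Icc B A', g (x s) = s) ∧
      (∀ y ∈ Ioo (x A') (x B), g y ∈ Ioo B A' ∧ x (g y) = y ∧ cos (θ (g y)) < 0 ∧
        HasDerivAt g (1 / cos (θ (g y))) y) ∧
      Tendsto g (𝓝[>] (x A')) (𝓝 A') ∧ Tendsto g (𝓝[<] (x B)) (𝓝 B) := by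
  have hp := h.loop.prof
  have hm := h.mono
  have hBA : B < A' := by
    rw [← hm.lt_iff_lt, hA, hB]
    linarith [pi_pos]
  have hcos : ∀ s ∈ Ioo B A', cos (θ s) < 0 := by
    intro s hs
    have h1 := hm hs.1
    have h2 := hm hs.2
    rw [hB] at h1
    rw [hA] at h2
    exact cos_neg_of_pi_div_two_lt_of_lt h1 (by linarith)
  obtain ⟨g, h1, h2, h3, h4, h5⟩ := inv_fun (f := fun s => -x s) (f' := fun s => -cos (θ s)) hBA
    (fun s _ => (hp.hx s).continuousAt.neg.continuousWithinAt)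
    (fun s _ => (hp.hx s).neg) (fun s hs => by have := hcos s hs; linarith)
  refine ⟨fun y => g (-y), hBA, by linarith, ?_, ?_, ?_, ?_⟩
  · intro s hs
    exact h2 s hs
  · intro y hy
    have hy' : -y ∈ Ioo (-x B) (-x A') := ⟨by linarith [hy.2], by linarith [hy.1]⟩
    obtain ⟨a1, a2, a3⟩ := h3 (-y) hy'
    refine ⟨a1, by linarith, hcos _ a1, ?_⟩
    have h6 : HasDerivAt (fun y : ℝ => -y) (-1) y := hasDerivAt_neg y
    have h7 := HasDerivAt.comp y (h₂ := g) (h := fun y : ℝ => -y) a3 h6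
    have e : 1 / -cos (θ (g (-y))) * -1 = 1 / cos (θ (g (-y))) := by
      rw [one_div, inv_neg]
      ring
    rw [e] at h7
    exact h7
  · have h6 : Tendsto (fun y : ℝ => -y) (𝓝[>] (x A')) (𝓝[<] (-x A')) := tendsto_neg_nhdsGT
    exact h5.comp h6
  · have h6 : Tendsto (fun y : ℝ => -y) (𝓝[<] (x B)) (𝓝[>] (-x B)) := tendsto_neg_nhdsLT
    exact h4.comp h6

/-- The upper arc: `θ B = π/2`, `θ A' = 3π/2` (`A' = A + L`), `s ∈ (B, A')`; `w (x s) = r s`,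
`q (x s) = tan θ s`. (`inv_fun` for `-x` on `[B, A']`, where `(-x)' = -cos θ > 0`.) -/
theorem CLoop.upper {x r θ : ℝ → ℝ} {L A' B : ℝ} (h : CLoop x r θ L) (hA : θ A' = 3 * π / 2)
    (hB : θ B = π / 2) :
    ∃ w q : ℝ → ℝ, B < A' ∧ x A' < 0 ∧ 0 < x B ∧ Gr (x A') (x B) w q ∧
      (∀ s ∈ Ioo B A', x s ∈ Ioo (x A') (x B) ∧ w (x s) = r s ∧ q (x s) = tan (θ s)) ∧
      (∀ y ∈ Ioo (x A') (x B), ∃ s ∈ Ioo B A', x s = y) ∧
      (∀ y ∈ Ioo (x A') (x B), y * q y / 2 + (1 / w y - w y / 2) < 0) ∧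
      Tendsto w (𝓝[>] (x A')) (𝓝 (r A')) ∧ Tendsto w (𝓝[<] (x B)) (𝓝 (r B)) := by
  have hp := h.loop.prof
  have hm := h.mono
  obtain ⟨g, hBA, hxx, g1, g2, g3, g4⟩ := TBGr_up_inv h hA hB
  have hcA := h.conv A'
  have hcB := h.conv B
  have hcosA : cos (3 * π / 2) = 0 := by
    rw [show 3 * π / 2 = π / 2 + π by ring, cos_add_pi, cos_pi_div_two, neg_zero]
  have hsinA : sin (3 * π / 2) = -1 := by
    rw [show 3 * π / 2 = π / 2 + π by ring, sin_add_pi, sin_pi_div_two]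
  rw [hA, hcosA, hsinA] at hcA
  rw [hB, cos_pi_div_two, sin_pi_div_two] at hcB
  have hin : ∀ s ∈ Ioo B A', x s ∈ Ioo (x A') (x B) := by
    have hanti : StrictAntiOn x (Icc B A') := by
      apply strictAntiOn_of_deriv_neg (convex_Icc B A')
        (fun s _ => (hp.hx s).continuousAt.continuousWithinAt)
      intro s hs
      rw [interior_Icc] at hs
      rw [(hp.hx s).deriv]
      have h1 := hm hs.1
      have h2 := hm hs.2
      rw [hB] at h1
      rw [hA] at h2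
      exact cos_neg_of_pi_div_two_lt_of_lt h1 (by linarith)
    intro s hs
    exact ⟨hanti ⟨hs.1.le, hs.2.le⟩ ⟨hBA.le, le_rfl⟩ hs.2,
      hanti ⟨le_rfl, hBA.le⟩ ⟨hs.1.le, hs.2.le⟩ hs.1⟩
  refine ⟨fun y => r (g y), fun y => tan (θ (g y)), hBA, by linarith, by linarith,
    ⟨fun y _ => hp.pos _, ?_, ?_⟩, ?_, ?_, ?_, ?_, ?_⟩
  · intro y hy
    obtain ⟨a1, a2, a3, a4⟩ := g2 y hy
    have h1 := HasDerivAt.comp y (h₂ := r) (h := g) (hp.hr (g y)) a4
    have e : sin (θ (g y)) * (1 / cos (θ (g y))) = tan (θ (g y)) := by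
      rw [tan_eq_sin_div_cos]
      ring
    rw [e] at h1
    exact h1
  · intro y hy
    obtain ⟨a1, a2, a3, a4⟩ := g2 y hy
    have h0 := (hasDerivAt_tan a3.ne).comp (g y) (hp.hθ (g y))
    have h1 := HasDerivAt.comp y (h₂ := tan ∘ θ) (h := g) h0 a4
    have hr0 := (hp.pos (g y)).ne'
    have e : 1 / cos (θ (g y)) ^ 2 * (x (g y) / 2 * sin (θ (g y)) +
        (1 / r (g y) - r (g y) / 2) * cos (θ (g y))) * (1 / cos (θ (g y))) =
        (1 + tan (θ (g y)) ^ 2) * (y * tan (θ (g y)) / 2 + (1 / r (g y) - r (g y) / 2)) := by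
      rw [a2, tan_eq_sin_div_cos]
      have hs := sin_sq_add_cos_sq (θ (g y))
      have hc := a3.ne
      have e1 : 1 + (sin (θ (g y)) / cos (θ (g y))) ^ 2 = 1 / cos (θ (g y)) ^ 2 := by
        rw [div_pow, eq_div_iff (pow_ne_zero 2 hc), add_mul, div_mul_cancel₀ _ (pow_ne_zero 2 hc)]
        linarith
      rw [e1]
      field_simp
    rw [e] at h1
    exact h1
  · intro s hs
    refine ⟨hin s hs, ?_, ?_⟩
    · show r (g (x s)) = r s
      rw [g1 s ⟨hs.1.le, hs.2.le⟩]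
    · show tan (θ (g (x s))) = tan (θ s)
      rw [g1 s ⟨hs.1.le, hs.2.le⟩]
  · intro y hy
    obtain ⟨a1, a2, -, -⟩ := g2 y hy
    exact ⟨g y, a1, a2⟩
  · intro y hy
    obtain ⟨a1, a2, a3, a4⟩ := g2 y hy
    have h1 := h.conv (g y)
    rw [a2] at h1
    have e : y * tan (θ (g y)) / 2 + (1 / r (g y) - r (g y) / 2) =
        (y / 2 * sin (θ (g y)) + (1 / r (g y) - r (g y) / 2) * cos (θ (g y))) /
          cos (θ (g y)) := by
      rw [tan_eq_sin_div_cos, add_div, mul_div_assoc, mul_div_assoc _ (cos (θ (g y))),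
        div_self a3.ne]
      ring
    show y * tan (θ (g y)) / 2 + (1 / r (g y) - r (g y) / 2) < 0
    rw [e]
    exact div_neg_of_pos_of_neg h1 a3
  · exact ((hp.hr A').continuousAt.tendsto).comp g3
  · exact ((hp.hr B).continuousAt.tendsto).comp g4

end AT
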