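import Pool.Agent.H.MP_ce2c94_gt.TBDefs

/-!
# Exact identities along a profile

`λ = r e^{-(x²+r²)/4}`, `D0 = x cos θ + r sin θ`.
-/

namespace AT

open Real Set Filter Topology

/-- the weight `λ` -/
noncomputable def lamW (x r : ℝ) : ℝ := r * exp (-((x ^ 2 + r ^ 2) / 4))

/-- `D0 = x cos θ + r sin θ = (R²)'/2` -/
noncomputable def D0 (x r θ : ℝ) : ℝ := x * cos θ + r * sin θ

/-- `Mh` -/
noncomputable def Mh (x r θ : ℝ) : ℝ := (2 - x ^ 2) * r * sin θ + x * (r ^ 2 - 2) * cos θ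

/-- `Nh` -/
noncomputable def Nh (x r θ : ℝ) : ℝ := x * (x * r * sin θ + (4 - r ^ 2) * cos θ)

theorem lamW_pos {x r : ℝ} (hr : 0 < r) : 0 < lamW x r := by
  unfold lamW
  positivity

theorem IsProfile.dlam {x r θ : ℝ → ℝ} (h : IsProfile x r θ) (s : ℝ) :
    HasDerivAt (fun s => lamW (x s) (r s))
      (lamW (x s) (r s) * (-(x s / 2) * cos (θ s) + (1 / r s - r s / 2) * sin (θ s))) s := by
  have hr : r s ≠ 0 := (h.pos s).ne'
  have h1 : HasDerivAt (fun s => -((x s ^ 2 + r s ^ 2) / 4))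
      (-((2 * x s * cos (θ s) + 2 * r s * sin (θ s)) / 4)) s := by
    have h2 := ((((h.hx s).pow 2).add ((h.hr s).pow 2)).div_const 4).neg
    refine HasDerivAt.congr_deriv h2 ?_
    simp
  have h3 := (h.hr s).mul h1.exp
  unfold lamW
  refine HasDerivAt.congr_deriv h3 ?_
  field_simp
  ring

/-- the derivative of `λ (a sin θ + b cos θ)` -/
theorem TBId_gen {x r θ a b : ℝ → ℝ} (h : IsProfile x r θ) {s a' b' : ℝ}
    (ha : HasDerivAt a a' s) (hb : HasDerivAt b b' s) :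
    HasDerivAt (fun s => lamW (x s) (r s) * (a s * sin (θ s) + b s * cos (θ s)))
      (lamW (x s) (r s) * (((1 / r s - r s / 2) * a s - x s / 2 * b s) *
        (cos (θ s) ^ 2 + sin (θ s) ^ 2) + (a' * sin (θ s) + b' * cos (θ s)))) s := by
  have h1 := (h.dlam s).mul ((ha.mul (h.hθ s).sin).add (hb.mul (h.hθ s).cos))
  refine HasDerivAt.congr_deriv h1 ?_
  simp only [Pi.add_apply, Pi.mul_apply]
  ring

theorem IsProfile.dR2 {x r θ : ℝ → ℝ} (h : IsProfile x r θ) (s : ℝ) :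
    HasDerivAt (fun s => x s ^ 2 + r s ^ 2) (2 * D0 (x s) (r s) (θ s)) s := by
  have h2 := ((h.hx s).pow 2).add ((h.hr s).pow 2)
  refine HasDerivAt.congr_deriv h2 ?_
  unfold D0
  push_cast
  ring

/-- `(λ D0)' = λ (4 - R²) / 2` -/
theorem IsProfile.dlamD {x r θ : ℝ → ℝ} (h : IsProfile x r θ) (s : ℝ) :
    HasDerivAt (fun s => lamW (x s) (r s) * D0 (x s) (r s) (θ s))
      (lamW (x s) (r s) * (4 - (x s ^ 2 + r s ^ 2)) / 2) s := by
  have hw : 1 / r s * r s = 1 := one_div_mul_cancel (h.pos s).ne'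
  have hT : cos (θ s) ^ 2 + sin (θ s) ^ 2 = 1 := cos_sq_add_sin_sq (θ s)
  have h1 := TBId_gen h (h.hr s) (h.hx s)
  have h2 : HasDerivAt (fun s => lamW (x s) (r s) * D0 (x s) (r s) (θ s)) _ s :=
    h1.congr_of_eventuallyEq (Eventually.of_forall fun t => by
      simp only [D0]
      ring)
  refine HasDerivAt.congr_deriv h2 ?_
  linear_combination lamW (x s) (r s) * hw + lamW (x s) (r s) *
    (-(x s ^ 2) / 2 + 1 / r s * r s - r s ^ 2 / 2 + 1) * hT

/-- `(λ Mh)' = λ sin² θ (4 - R²)` -/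
theorem IsProfile.dlamM {x r θ : ℝ → ℝ} (h : IsProfile x r θ) (s : ℝ) :
    HasDerivAt (fun s => lamW (x s) (r s) * Mh (x s) (r s) (θ s))
      (lamW (x s) (r s) * sin (θ s) ^ 2 * (4 - (x s ^ 2 + r s ^ 2))) s := by
  have hw : 1 / r s * r s = 1 := one_div_mul_cancel (h.pos s).ne'
  have ha : HasDerivAt (fun s => (2 - x s ^ 2) * r s)
      (-(2 * x s * cos (θ s)) * r s + (2 - x s ^ 2) * sin (θ s)) s := by
    have h2 := (((h.hx s).pow 2).const_sub 2).mul (h.hr s)
    refine HasDerivAt.congr_deriv h2 ?_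
    simp only [Pi.pow_apply]
    push_cast
    ring
  have hb : HasDerivAt (fun s => x s * (r s ^ 2 - 2))
      (cos (θ s) * (r s ^ 2 - 2) + x s * (2 * r s * sin (θ s))) s := by
    have h2 := (h.hx s).mul (((h.hr s).pow 2).sub_const 2)
    refine HasDerivAt.congr_deriv h2 ?_
    simp only [Pi.pow_apply]
    push_cast
    ring
  have h1 := TBId_gen h ha hb
  have h2 : HasDerivAt (fun s => lamW (x s) (r s) * Mh (x s) (r s) (θ s)) _ s :=
    h1.congr_of_eventuallyEq (Eventually.of_forall fun t => by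
      simp only [Mh])
  refine HasDerivAt.congr_deriv h2 ?_
  linear_combination lamW (x s) (r s) * (2 - x s ^ 2) * (cos (θ s) ^ 2 + sin (θ s) ^ 2) * hw

/-- `(λ Nh)' = λ cos² θ (4 - R²)` -/
theorem IsProfile.dlamN {x r θ : ℝ → ℝ} (h : IsProfile x r θ) (s : ℝ) :
    HasDerivAt (fun s => lamW (x s) (r s) * Nh (x s) (r s) (θ s))
      (lamW (x s) (r s) * cos (θ s) ^ 2 * (4 - (x s ^ 2 + r s ^ 2))) s := by
  have hw : 1 / r s * r s = 1 := one_div_mul_cancel (h.pos s).ne'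
  have ha : HasDerivAt (fun s => x s ^ 2 * r s)
      (2 * x s * cos (θ s) * r s + x s ^ 2 * sin (θ s)) s := by
    have h2 := ((h.hx s).pow 2).mul (h.hr s)
    refine HasDerivAt.congr_deriv h2 ?_
    simp only [Pi.pow_apply]
    push_cast
    ring
  have hb : HasDerivAt (fun s => x s * (4 - r s ^ 2))
      (cos (θ s) * (4 - r s ^ 2) - x s * (2 * r s * sin (θ s))) s := by
    have h2 := (h.hx s).mul (((h.hr s).pow 2).const_sub 4)
    refine HasDerivAt.congr_deriv h2 ?_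
    simp only [Pi.pow_apply]
    push_cast
    ring
  have h1 := TBId_gen h ha hb
  have h2 : HasDerivAt (fun s => lamW (x s) (r s) * Nh (x s) (r s) (θ s)) _ s :=
    h1.congr_of_eventuallyEq (Eventually.of_forall fun t => by
      simp only [Nh]
      ring)
  refine HasDerivAt.congr_deriv h2 ?_
  linear_combination lamW (x s) (r s) * x s ^ 2 * (cos (θ s) ^ 2 + sin (θ s) ^ 2) * hw

theorem Mh_crit {x r θ : ℝ} (h : D0 x r θ = 0) :
    Mh x r θ = r * sin θ * (4 - (x ^ 2 + r ^ 2)) := by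
  unfold D0 at h
  unfold Mh
  linear_combination (r ^ 2 - 2) * h

end AT
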