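import Mathlib

/-!
# Inverse of a strictly increasing function
-/

namespace AT

open Real Set Filter Topology

theorem TBInv_mono {f f' : ℝ → ℝ} {α β : ℝ} (hf : ContinuousOn f (Icc α β))
    (hd : ∀ s ∈ Ioo α β, HasDerivAt f (f' s) s) (hp : ∀ s ∈ Ioo α β, 0 < f' s) :
    StrictMonoOn f (Icc α β) := by
  refine strictMonoOn_of_deriv_pos (convex_Icc α β) hf ?_
  intro x hx
  rw [interior_Icc] at hx
  rw [(hd x hx).deriv]
  exact hp x hx

/-- inverse of a function with positive derivative -/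
theorem inv_fun {f f' : ℝ → ℝ} {α β : ℝ} (hαβ : α < β) (hf : ContinuousOn f (Icc α β))
    (hd : ∀ s ∈ Ioo α β, HasDerivAt f (f' s) s) (hp : ∀ s ∈ Ioo α β, 0 < f' s) :
    ∃ g : ℝ → ℝ, f α < f β ∧ (∀ s ∈ Icc α β, g (f s) = s) ∧
      (∀ y ∈ Ioo (f α) (f β), g y ∈ Ioo α β ∧ f (g y) = y ∧ HasDerivAt g (1 / f' (g y)) y) ∧
      Tendsto g (𝓝[>] (f α)) (𝓝 α) ∧ Tendsto g (𝓝[<] (f β)) (𝓝 β) := by
  have hm := TBInv_mono hf hd hp
  have hα : α ∈ Icc α β := left_mem_Icc.2 hαβ.le
  have hβ : β ∈ Icc α β := right_mem_Icc.2 hαβ.le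
  have hlt : f α < f β := hm hα hβ hαβ
  have hsurj : ∀ y ∈ Icc (f α) (f β), ∃ s ∈ Icc α β, f s = y := by
    intro y hy
    obtain ⟨s, hs, h⟩ := intermediate_value_Icc hαβ.le hf hy
    exact ⟨s, hs, h⟩
  have hgs : ∀ s ∈ Icc α β, Function.invFunOn f (Icc α β) (f s) = s := fun s hs =>
    hm.injOn.leftInvOn_invFunOn hs
  generalize hg : Function.invFunOn f (Icc α β) = g at hgs
  clear hg
  have hgo : ∀ y ∈ Ioo (f α) (f β), g y ∈ Ioo α β ∧ f (g y) = y := by
    intro y hy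
    obtain ⟨s, hs, rfl⟩ := hsurj y ⟨hy.1.le, hy.2.le⟩
    rw [hgs s hs]
    refine ⟨⟨?_, ?_⟩, rfl⟩
    · rcases hs.1.lt_or_eq with h | h
      · exact h
      · rw [← h] at hy
        exact absurd hy.1 (lt_irrefl _)
    · rcases hs.2.lt_or_eq with h | h
      · exact h
      · rw [h] at hy
        exact absurd hy.2 (lt_irrefl _)
  have key1 : ∀ s ∈ Icc α β, ∀ y ∈ Ioo (f α) (f β), f s < y → s < g y := by
    intro s hs y hy h
    obtain ⟨h1, h2⟩ := hgo y hy
    by_contra hc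
    have := hm.monotoneOn (Ioo_subset_Icc_self h1) hs (not_lt.1 hc)
    linarith
  have key2 : ∀ s ∈ Icc α β, ∀ y ∈ Ioo (f α) (f β), y < f s → g y < s := by
    intro s hs y hy h
    obtain ⟨h1, h2⟩ := hgo y hy
    by_contra hc
    have := hm.monotoneOn hs (Ioo_subset_Icc_self h1) (not_lt.1 hc)
    linarith
  refine ⟨g, hlt, hgs, ?_, ?_, ?_⟩
  · intro y hy
    obtain ⟨h1, h2⟩ := hgo y hy
    refine ⟨h1, h2, ?_⟩
    have hcont : ContinuousAt g y := by
      refine tendsto_order.2 ⟨fun a ha => ?_, fun a ha => ?_⟩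
      · have hs : max a α ∈ Icc α β := ⟨le_max_right _ _, max_le (ha.le.trans h1.2.le) hαβ.le⟩
        have h3 : f (max a α) < y := by
          have := hm hs (Ioo_subset_Icc_self h1) (max_lt ha h1.1)
          rwa [h2] at this
        filter_upwards [Ioo_mem_nhds hy.1 hy.2, Ioi_mem_nhds h3] with z hz hz'
        exact (le_max_left a α).trans_lt (key1 _ hs z hz hz')
      · have hs : min a β ∈ Icc α β := ⟨le_min (h1.1.le.trans ha.le) hαβ.le, min_le_right _ _⟩
        have h3 : y < f (min a β) := by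
          have := hm (Ioo_subset_Icc_self h1) hs (lt_min ha h1.2)
          rwa [h2] at this
        filter_upwards [Ioo_mem_nhds hy.1 hy.2, Iio_mem_nhds h3] with z hz hz'
        exact (key2 _ hs z hz hz').trans_le (min_le_left a β)
    rw [one_div]
    refine HasDerivAt.of_local_left_inverse hcont (hd _ h1) (hp _ h1).ne' ?_
    filter_upwards [Ioo_mem_nhds hy.1 hy.2] with z hz
    exact (hgo z hz).2
  · refine tendsto_order.2 ⟨fun a ha => ?_, fun a ha => ?_⟩
    · filter_upwards [Ioo_mem_nhdsGT hlt] with z hz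
      exact ha.trans (hgo z hz).1.1
    · have hs : min a β ∈ Icc α β := ⟨le_min ha.le hαβ.le, min_le_right _ _⟩
      have h3 : f α < f (min a β) := hm hα hs (lt_min ha hαβ)
      filter_upwards [Ioo_mem_nhdsGT hlt, Ioo_mem_nhdsGT h3] with z hz hz'
      exact (key2 _ hs z hz hz'.2).trans_le (min_le_left a β)
  · refine tendsto_order.2 ⟨fun a ha => ?_, fun a ha => ?_⟩
    · have hs : max a α ∈ Icc α β := ⟨le_max_right _ _, max_le ha.le hαβ.le⟩
      have h3 : f (max a α) < f β := hm hs hβ (max_lt ha hαβ)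
      filter_upwards [Ioo_mem_nhdsLT hlt, Ioo_mem_nhdsLT h3] with z hz hz'
      exact (le_max_left a α).trans_lt (key1 _ hs z hz hz'.1)
    · filter_upwards [Ioo_mem_nhdsLT hlt] with z hz
      exact (hgo z hz).1.2.trans ha

end AT
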