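import Pool.Agent.H.MP_ce2c94_gt.TBId

/-!
# Lemma M: no minimum of the radius followed by a maximum
-/

namespace AT

open Real Set Filter Topology

/-- `sin²` is strictly increasing along a strictly decreasing angle in `[-π/2, 0]`. -/
theorem TBM_sin {a b : ℝ} (ha : -(π / 2) ≤ a ∧ a ≤ 0) (hb : -(π / 2) ≤ b ∧ b ≤ 0) (h : b < a) :
    sin a ^ 2 < sin b ^ 2 := by
  have h1 : sin b < sin a :=
    strictMonoOn_sin ⟨hb.1, by linarith [pi_pos, hb.2]⟩ ⟨ha.1, by linarith [pi_pos, ha.2]⟩ h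
  have h2 : sin a ≤ 0 := sin_nonpos_of_nonpos_of_neg_pi_le ha.2 (by linarith [pi_pos, ha.1])
  nlinarith

/-- **Lemma M.** Proof. By `dlamD` and `D0 > 0` on `(s₁, s₂)`, `D0 = 0` at the ends: `λ D0 ≥ 0` on
`[s₁, s₂]` and `= 0` at the ends, so its derivative `λ(4-R²)/2` is `≥ 0` at `s₁` and `≤ 0` at `s₂`:
`R²(s₁) ≤ 4 ≤ R²(s₂)`. `R²` is strictly increasing on `[s₁, s₂]` (`dR2`). Let `sE ∈ [s₁, s₂]` with
`R²(sE) = 4` (IVT), `k = sin² θ(sE)`. `Φ = λ Mh - 2 k λ D0`, `Φ' = λ (4-R²)(sin² θ - k)`. As `θ` is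
strictly decreasing in `[-π/2, 0]`, `sin² θ` is strictly increasing; so `Φ' ≤ 0` on `[s₁, s₂]` and
`Φ' < 0` except at `sE`; hence `Φ(s₂) < Φ(s₁)`, i.e. `λ Mh (s₂) < λ Mh (s₁)`. But by `Mh_crit` and
`sin θ ≤ 0`: `Mh(s₁) = r sin θ (4 - R²) ≤ 0` and `Mh(s₂) ≥ 0`: contradiction. -/
theorem lemmaM {x r θ : ℝ → ℝ} (h : IsProfile x r θ) {s₁ s₂ : ℝ} (h12 : s₁ < s₂)
    (hθ : ∀ s ∈ Icc s₁ s₂, -(π / 2) ≤ θ s ∧ θ s ≤ 0) (ha : StrictAntiOn θ (Icc s₁ s₂))
    (hD1 : D0 (x s₁) (r s₁) (θ s₁) = 0) (hD2 : D0 (x s₂) (r s₂) (θ s₂) = 0)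
    (hD : ∀ s ∈ Ioo s₁ s₂, 0 < D0 (x s) (r s) (θ s)) : False := by
  have hlam : ∀ s, 0 < lamW (x s) (r s) := fun s => lamW_pos (h.pos s)
  have hR : StrictMonoOn (fun s => x s ^ 2 + r s ^ 2) (Icc s₁ s₂) := by
    refine strictMonoOn_of_deriv_pos (convex_Icc _ _)
      (fun s _ => (h.dR2 s).continuousAt.continuousWithinAt) ?_
    intro s hs
    rw [interior_Icc] at hs
    rw [(h.dR2 s).deriv]
    have := hD s hs
    linarith
  have m1 : s₁ ∈ Icc s₁ s₂ := left_mem_Icc.mpr h12.le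
  have m2 : s₂ ∈ Icc s₁ s₂ := right_mem_Icc.mpr h12.le
  -- the radius at the ends
  have hR1 : x s₁ ^ 2 + r s₁ ^ 2 ≤ 4 := by
    by_contra hc
    push Not at hc
    have hanti : StrictAntiOn (fun s => lamW (x s) (r s) * D0 (x s) (r s) (θ s)) (Icc s₁ s₂) := by
      refine strictAntiOn_of_deriv_neg (convex_Icc _ _)
        (fun s _ => (h.dlamD s).continuousAt.continuousWithinAt) ?_
      intro s hs
      rw [interior_Icc] at hs
      rw [(h.dlamD s).deriv]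
      have h1 := hR m1 (Ioo_subset_Icc_self hs) hs.1
      simp only at h1
      have h2 : 4 - (x s ^ 2 + r s ^ 2) < 0 := by linarith
      have h3 := mul_neg_of_pos_of_neg (hlam s) h2
      linarith
    have h4 := hanti m1 m2 h12
    simp only [hD1, hD2, mul_zero, lt_self_iff_false] at h4
  have hR2 : 4 ≤ x s₂ ^ 2 + r s₂ ^ 2 := by
    by_contra hc
    push Not at hc
    have hmono : StrictMonoOn (fun s => lamW (x s) (r s) * D0 (x s) (r s) (θ s)) (Icc s₁ s₂) := by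
      refine strictMonoOn_of_deriv_pos (convex_Icc _ _)
        (fun s _ => (h.dlamD s).continuousAt.continuousWithinAt) ?_
      intro s hs
      rw [interior_Icc] at hs
      rw [(h.dlamD s).deriv]
      have h1 := hR (Ioo_subset_Icc_self hs) m2 hs.2
      simp only at h1
      have h2 : 0 < 4 - (x s ^ 2 + r s ^ 2) := by linarith
      have h3 := mul_pos (hlam s) h2
      linarith
    have h4 := hmono m1 m2 h12
    simp only [hD1, hD2, mul_zero, lt_self_iff_false] at h4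
  -- the point on the sphere of radius two
  obtain ⟨sE, hsE, hE⟩ : ∃ sE ∈ Icc s₁ s₂, x sE ^ 2 + r sE ^ 2 = 4 := by
    have hc : ContinuousOn (fun s => x s ^ 2 + r s ^ 2) (Icc s₁ s₂) :=
      fun s _ => (h.dR2 s).continuousAt.continuousWithinAt
    have := intermediate_value_Icc h12.le hc
    obtain ⟨t, ht1, ht2⟩ := this ⟨hR1, hR2⟩
    exact ⟨t, ht1, ht2⟩
  set k : ℝ := sin (θ sE) ^ 2 with hk
  set Φ : ℝ → ℝ := fun s => lamW (x s) (r s) * Mh (x s) (r s) (θ s) -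
    2 * k * (lamW (x s) (r s) * D0 (x s) (r s) (θ s)) with hΦ
  have hΦd : ∀ s, HasDerivAt Φ (lamW (x s) (r s) * ((4 - (x s ^ 2 + r s ^ 2)) *
      (sin (θ s) ^ 2 - k))) s := by
    intro s
    refine ((h.dlamM s).sub ((h.dlamD s).const_mul (2 * k))).congr_deriv ?_
    ring
  have hΦc : ∀ t : Set ℝ, ContinuousOn Φ t :=
    fun t s _ => (hΦd s).continuousAt.continuousWithinAt
  have hA : StrictAntiOn Φ (Icc s₁ sE) := by
    refine strictAntiOn_of_deriv_neg (convex_Icc _ _) (hΦc _) ?_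
    intro s hs
    rw [interior_Icc] at hs
    rw [(hΦd s).deriv]
    have ms : s ∈ Icc s₁ s₂ := ⟨hs.1.le, hs.2.le.trans hsE.2⟩
    have h1 := hR ms hsE hs.2
    simp only [hE] at h1
    have h2 := TBM_sin (hθ s ms) (hθ sE hsE) (ha ms hsE hs.2)
    have h3 : (4 - (x s ^ 2 + r s ^ 2)) * (sin (θ s) ^ 2 - k) < 0 :=
      mul_neg_of_pos_of_neg (by linarith) (by rw [hk]; linarith)
    exact mul_neg_of_pos_of_neg (hlam s) h3
  have hB : StrictAntiOn Φ (Icc sE s₂) := by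
    refine strictAntiOn_of_deriv_neg (convex_Icc _ _) (hΦc _) ?_
    intro s hs
    rw [interior_Icc] at hs
    rw [(hΦd s).deriv]
    have ms : s ∈ Icc s₁ s₂ := ⟨hsE.1.trans hs.1.le, hs.2.le⟩
    have h1 := hR hsE ms hs.1
    simp only [hE] at h1
    have h2 := TBM_sin (hθ sE hsE) (hθ s ms) (ha hsE ms hs.1)
    have h3 : (4 - (x s ^ 2 + r s ^ 2)) * (sin (θ s) ^ 2 - k) < 0 :=
      mul_neg_of_neg_of_pos (by linarith) (by rw [hk]; linarith)
    exact mul_neg_of_pos_of_neg (hlam s) h3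
  have hlt : Φ s₂ < Φ s₁ := by
    rcases hsE.1.eq_or_lt with he | he
    · have h5 : Φ s₂ < Φ sE := hB (left_mem_Icc.mpr hsE.2) (right_mem_Icc.mpr hsE.2)
        (he ▸ h12)
      rwa [← he] at h5
    · have h5 : Φ sE < Φ s₁ := hA (left_mem_Icc.mpr hsE.1) (right_mem_Icc.mpr hsE.1) he
      rcases hsE.2.eq_or_lt with he2 | he2
      · rwa [he2] at h5
      · have h6 : Φ s₂ < Φ sE := hB (left_mem_Icc.mpr hsE.2) (right_mem_Icc.mpr hsE.2) he2
        exact h6.trans h5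
  have e1 : Φ s₁ = lamW (x s₁) (r s₁) * Mh (x s₁) (r s₁) (θ s₁) := by
    simp only [hΦ, hD1, mul_zero, sub_zero]
  have e2 : Φ s₂ = lamW (x s₂) (r s₂) * Mh (x s₂) (r s₂) (θ s₂) := by
    simp only [hΦ, hD2, mul_zero, sub_zero]
  rw [e1, e2, Mh_crit hD1, Mh_crit hD2] at hlt
  have hs1 : sin (θ s₁) ≤ 0 :=
    sin_nonpos_of_nonpos_of_neg_pi_le (hθ s₁ m1).2 (by linarith [pi_pos, (hθ s₁ m1).1])
  have hs2 : sin (θ s₂) ≤ 0 :=
    sin_nonpos_of_nonpos_of_neg_pi_le (hθ s₂ m2).2 (by linarith [pi_pos, (hθ s₂ m2).1])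
  have g1 : lamW (x s₁) (r s₁) * (r s₁ * sin (θ s₁) * (4 - (x s₁ ^ 2 + r s₁ ^ 2))) ≤ 0 := by
    refine mul_nonpos_of_nonneg_of_nonpos (hlam s₁).le ?_
    refine mul_nonpos_of_nonpos_of_nonneg ?_ (by linarith)
    exact mul_nonpos_of_nonneg_of_nonpos (h.pos s₁).le hs1
  have g2 : 0 ≤ lamW (x s₂) (r s₂) * (r s₂ * sin (θ s₂) * (4 - (x s₂ ^ 2 + r s₂ ^ 2))) := by
    refine mul_nonneg (hlam s₂).le ?_
    refine mul_nonneg_of_nonpos_of_nonpos ?_ (by linarith)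
    exact mul_nonpos_of_nonneg_of_nonpos (h.pos s₂).le hs2
  linarith

end AT
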