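import Pool.Agent.H.MP_ce2c94_gt.Defs

/-!
# Uniqueness for the profile system
-/

namespace AT

open Real Set

/-- the profile vector field on `ℝ × ℝ × ℝ = (x, r, θ)` -/
noncomputable def VF (y : ℝ × ℝ × ℝ) : ℝ × ℝ × ℝ :=
  (cos y.2.2, sin y.2.2, y.1 / 2 * sin y.2.2 + (1 / y.2.1 - y.2.1 / 2) * cos y.2.2)

theorem Uq_sin (a b : ℝ) : |sin a - sin b| ≤ |a - b| := by
  have h := Convex.norm_image_sub_le_of_norm_hasDerivWithin_le (f := sin) (f' := cos) (C := 1)
    (s := univ) (x := b) (y := a) (fun t _ => (hasDerivAt_sin t).hasDerivWithinAt)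
    (fun t _ => by rw [norm_eq_abs]; exact abs_cos_le_one t) convex_univ (mem_univ _) (mem_univ _)
  rw [one_mul, norm_eq_abs, norm_eq_abs] at h
  exact h

theorem Uq_cos (a b : ℝ) : |cos a - cos b| ≤ |a - b| := by
  have h := Convex.norm_image_sub_le_of_norm_hasDerivWithin_le (f := cos) (f' := fun t => -sin t)
    (C := 1) (s := univ) (x := b) (y := a) (fun t _ => (hasDerivAt_cos t).hasDerivWithinAt)
    (fun t _ => by rw [norm_eq_abs, abs_neg]; exact abs_sin_le_one t) convex_univ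
    (mem_univ _) (mem_univ _)
  rw [one_mul, norm_eq_abs, norm_eq_abs] at h
  exact h

theorem Uq_h {A ρ r r' : ℝ} (hρ : 0 < ρ) (h1 : ρ ≤ r) (h1' : ρ ≤ r') (h2' : r' ≤ A) :
    |(1 / r - r / 2) - (1 / r' - r' / 2)| ≤ (1 / ρ ^ 2 + 1 / 2) * |r - r'| ∧
      |1 / r' - r' / 2| ≤ 1 / ρ + |A| / 2 := by
  have p1 : 0 < r := by linarith
  have p2 : 0 < r' := by linarith
  constructor
  · have e : (1 / r - r / 2) - (1 / r' - r' / 2) = -((1 / (r * r') + 1 / 2) * (r - r')) := by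
      field_simp
      ring
    rw [e, abs_neg, abs_mul]
    refine mul_le_mul_of_nonneg_right ?_ (abs_nonneg _)
    rw [abs_of_pos (by positivity)]
    have h3 : ρ ^ 2 ≤ r * r' := by nlinarith
    have h4 : 1 / (r * r') ≤ 1 / ρ ^ 2 := one_div_le_one_div_of_le (by positivity) h3
    linarith
  · have h3 : 1 / r' ≤ 1 / ρ := one_div_le_one_div_of_le hρ h1'
    have h4 : 0 < 1 / r' := by positivity
    have h5 : A ≤ |A| := le_abs_self A
    rw [abs_le]
    constructor
    · have : 0 < 1 / ρ := by positivity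
      linarith
    · linarith

/-- `VF` is Lipschitz on `{|x| ≤ A, ρ ≤ r ≤ A}`: `cos`, `sin` are 1-Lipschitz and bounded by 1,
`r ↦ 1/r - r/2` is bounded by `1/ρ + A/2` and has Lipschitz constant `1/ρ^2 + 1/2`.
(sup norm on the product) -/
theorem VF_lipschitz {A ρ : ℝ} (hρ : 0 < ρ) : ∃ K : NNReal,
    LipschitzOnWith K VF {y | |y.1| ≤ A ∧ ρ ≤ y.2.1 ∧ y.2.1 ≤ A} := by
  refine ⟨NNReal.mk (1 + 1 / 2 + |A| / 2 + (1 / ρ ^ 2 + 1 / 2) + (1 / ρ + |A| / 2))
    (by positivity), LipschitzOnWith.of_dist_le_mul ?_⟩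
  rintro ⟨x, r, θ⟩ ⟨hx, hr, hr2⟩ ⟨x', r', θ'⟩ ⟨hx', hr', hr2'⟩
  simp only at hx hr hr2 hx' hr' hr2'
  rw [NNReal.coe_mk]
  set D := dist ((x, r, θ) : ℝ × ℝ × ℝ) (x', r', θ') with hD
  have d1 : |x - x'| ≤ D := by
    rw [hD, Prod.dist_eq, ← Real.dist_eq]
    exact le_max_left _ _
  have d2 : |r - r'| ≤ D := by
    rw [hD, Prod.dist_eq, ← Real.dist_eq]
    refine le_trans ?_ (le_max_right _ _)
    rw [Prod.dist_eq]
    exact le_max_left _ _
  have d3 : |θ - θ'| ≤ D := by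
    rw [hD, Prod.dist_eq, ← Real.dist_eq]
    refine le_trans ?_ (le_max_right _ _)
    rw [Prod.dist_eq]
    exact le_max_right _ _
  have hD0 : 0 ≤ D := dist_nonneg
  have hcos := (Uq_cos θ θ').trans d3
  have hsin := (Uq_sin θ θ').trans d3
  obtain ⟨hh1, hh2⟩ := Uq_h (A := A) hρ hr hr' hr2'
  have hA : 0 ≤ |A| := abs_nonneg A
  have hρ2 : 0 < 1 / ρ ^ 2 := by positivity
  have hρ1 : 0 < 1 / ρ := by positivity
  have hK1 : D ≤ (1 + 1 / 2 + |A| / 2 + (1 / ρ ^ 2 + 1 / 2) + (1 / ρ + |A| / 2)) * D := by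
    nlinarith [mul_nonneg hA hD0, mul_nonneg hρ2.le hD0, mul_nonneg hρ1.le hD0]
  rw [Prod.dist_eq, Prod.dist_eq]
  refine max_le ?_ (max_le ?_ ?_)
  · rw [Real.dist_eq]
    exact hcos.trans hK1
  · rw [Real.dist_eq]
    exact hsin.trans hK1
  · rw [Real.dist_eq]
    show |(x / 2 * sin θ + (1 / r - r / 2) * cos θ) -
      (x' / 2 * sin θ' + (1 / r' - r' / 2) * cos θ')| ≤ _
    have e : (x / 2 * sin θ + (1 / r - r / 2) * cos θ) -
        (x' / 2 * sin θ' + (1 / r' - r' / 2) * cos θ') =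
        (x - x') / 2 * sin θ + x' / 2 * (sin θ - sin θ') +
          ((1 / r - r / 2) - (1 / r' - r' / 2)) * cos θ +
          (1 / r' - r' / 2) * (cos θ - cos θ') := by ring
    rw [e]
    have b1 : |(x - x') / 2 * sin θ| ≤ 1 / 2 * D := by
      rw [abs_mul, abs_div, abs_two]
      calc |x - x'| / 2 * |sin θ| ≤ |x - x'| / 2 * 1 :=
            mul_le_mul_of_nonneg_left (abs_sin_le_one θ) (by positivity)
        _ ≤ 1 / 2 * D := by linarith
    have b2 : |x' / 2 * (sin θ - sin θ')| ≤ |A| / 2 * D := by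
      rw [abs_mul, abs_div, abs_two]
      exact mul_le_mul (by linarith [le_abs_self A]) hsin (abs_nonneg _) (by positivity)
    have b3 : |((1 / r - r / 2) - (1 / r' - r' / 2)) * cos θ| ≤ (1 / ρ ^ 2 + 1 / 2) * D := by
      rw [abs_mul]
      calc _ ≤ |(1 / r - r / 2) - (1 / r' - r' / 2)| * 1 :=
            mul_le_mul_of_nonneg_left (abs_cos_le_one θ) (abs_nonneg _)
        _ ≤ (1 / ρ ^ 2 + 1 / 2) * |r - r'| := by rw [mul_one]; exact hh1
        _ ≤ _ := mul_le_mul_of_nonneg_left d2 (by positivity)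
    have b4 : |(1 / r' - r' / 2) * (cos θ - cos θ')| ≤ (1 / ρ + |A| / 2) * D := by
      rw [abs_mul]
      exact mul_le_mul hh2 hcos (abs_nonneg _) (by positivity)
    calc _ ≤ |(x - x') / 2 * sin θ| + |x' / 2 * (sin θ - sin θ')| +
          |((1 / r - r / 2) - (1 / r' - r' / 2)) * cos θ| +
          |(1 / r' - r' / 2) * (cos θ - cos θ')| := by
            refine (abs_add_le _ _).trans (add_le_add_left ?_ _)
            refine (abs_add_le _ _).trans (add_le_add_left ?_ _)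
            exact abs_add_le _ _
      _ ≤ 1 / 2 * D + |A| / 2 * D + (1 / ρ ^ 2 + 1 / 2) * D + (1 / ρ + |A| / 2) * D := by
            linarith
      _ ≤ _ := by nlinarith

/-- bounds on a compact interval -/
theorem Uq_bounds {a b : ℝ} {x r : ℝ → ℝ} (hab : a ≤ b) (cx : ContinuousOn x (Icc a b))
    (cr : ContinuousOn r (Icc a b)) (pr : ∀ t ∈ Icc a b, 0 < r t) :
    ∃ A ρ : ℝ, 0 < ρ ∧ ∀ t ∈ Icc a b, |x t| ≤ A ∧ ρ ≤ r t ∧ r t ≤ A := by
  obtain ⟨A1, hA1⟩ := isCompact_Icc.exists_bound_of_continuousOn cx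
  obtain ⟨A2, hA2⟩ := isCompact_Icc.exists_bound_of_continuousOn cr
  obtain ⟨t0, ht0, hmin⟩ := isCompact_Icc.exists_isMinOn (nonempty_Icc.2 hab) cr
  refine ⟨max A1 A2, r t0, pr t0 ht0, fun t ht => ⟨?_, hmin ht, ?_⟩⟩
  · rw [← norm_eq_abs]
    exact (hA1 t ht).trans (le_max_left _ _)
  · exact (le_abs_self _).trans ((norm_eq_abs (r t) ▸ hA2 t ht).trans (le_max_right _ _))

/-- the scaled field is Lipschitz -/
theorem Uq_smul {S : Set (ℝ × ℝ × ℝ)} {K : NNReal} (h : LipschitzOnWith K VF S) {c G : ℝ}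
    (hc : |c| ≤ G) : LipschitzOnWith (NNReal.mk |G| (abs_nonneg G) * K) (fun y => c • VF y) S := by
  refine LipschitzOnWith.of_dist_le_mul fun y hy z hz => ?_
  rw [dist_smul₀, NNReal.coe_mul, NNReal.coe_mk, mul_assoc]
  have h1 := h.dist_le_mul y hy z hz
  exact mul_le_mul (by rw [norm_eq_abs]; exact hc.trans (le_abs_self G)) h1 dist_nonneg
    (abs_nonneg G)

/-- Uniqueness for `y' = g(t) VF(y)`: apply `ODE_solution_unique_of_mem_Icc_right` with
`v t y = g t • VF y` and the set `{|x| ≤ A, ρ ≤ r ≤ A}` where `A`, `ρ` come from compactness of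
`[a, b]` (continuous functions attain their bounds; `r, r' > 0`). -/
theorem ode_unique {a b G : ℝ} {g x r θ x' r' θ' : ℝ → ℝ} (hg : ∀ t ∈ Ico a b, |g t| ≤ G)
    (cx : ContinuousOn x (Icc a b)) (cr : ContinuousOn r (Icc a b)) (cθ : ContinuousOn θ (Icc a b))
    (cx' : ContinuousOn x' (Icc a b)) (cr' : ContinuousOn r' (Icc a b))
    (cθ' : ContinuousOn θ' (Icc a b))
    (pr : ∀ t ∈ Icc a b, 0 < r t) (pr' : ∀ t ∈ Icc a b, 0 < r' t)
    (dx : ∀ t ∈ Ico a b, HasDerivWithinAt x (g t * cos (θ t)) (Ici t) t)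
    (dr : ∀ t ∈ Ico a b, HasDerivWithinAt r (g t * sin (θ t)) (Ici t) t)
    (dθ : ∀ t ∈ Ico a b, HasDerivWithinAt θ
      (g t * (x t / 2 * sin (θ t) + (1 / r t - r t / 2) * cos (θ t))) (Ici t) t)
    (dx' : ∀ t ∈ Ico a b, HasDerivWithinAt x' (g t * cos (θ' t)) (Ici t) t)
    (dr' : ∀ t ∈ Ico a b, HasDerivWithinAt r' (g t * sin (θ' t)) (Ici t) t)
    (dθ' : ∀ t ∈ Ico a b, HasDerivWithinAt θ'
      (g t * (x' t / 2 * sin (θ' t) + (1 / r' t - r' t / 2) * cos (θ' t))) (Ici t) t)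
    (hx : x a = x' a) (hr : r a = r' a) (hθ : θ a = θ' a) :
    ∀ t ∈ Icc a b, x t = x' t ∧ r t = r' t ∧ θ t = θ' t := by
  intro t ht
  have hab : a ≤ b := ht.1.trans ht.2
  obtain ⟨A, ρ, hρ, hA⟩ := Uq_bounds hab cx cr pr
  obtain ⟨A', ρ', hρ', hA'⟩ := Uq_bounds hab cx' cr' pr'
  obtain ⟨K, hK⟩ := VF_lipschitz (A := max A A') (ρ := min ρ ρ') (lt_min hρ hρ')
  have hv : ∀ t ∈ Ico a b, LipschitzOnWith (NNReal.mk |G| (abs_nonneg G) * K) (fun y => g t • VF y)
      {y | |y.1| ≤ max A A' ∧ min ρ ρ' ≤ y.2.1 ∧ y.2.1 ≤ max A A'} :=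
    fun t ht => Uq_smul hK (hg t ht)
  have key := ODE_solution_unique_of_mem_Icc_right (v := fun t y => g t • VF y)
    (f := fun t => (x t, r t, θ t)) (g := fun t => (x' t, r' t, θ' t)) hv
    (cx.prodMk (cr.prodMk cθ))
    (fun t ht => by
      have h := (dx t ht).prodMk ((dr t ht).prodMk (dθ t ht))
      exact h)
    (fun t ht => by
      obtain ⟨h1, h2, h3⟩ := hA t (Ico_subset_Icc_self ht)
      exact ⟨h1.trans (le_max_left _ _), (min_le_left _ _).trans h2, h3.trans (le_max_left _ _)⟩)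
    (cx'.prodMk (cr'.prodMk cθ'))
    (fun t ht => by
      have h := (dx' t ht).prodMk ((dr' t ht).prodMk (dθ' t ht))
      exact h)
    (fun t ht => by
      obtain ⟨h1, h2, h3⟩ := hA' t (Ico_subset_Icc_self ht)
      exact ⟨h1.trans (le_max_right _ _), (min_le_right _ _).trans h2,
        h3.trans (le_max_right _ _)⟩)
    (by simp only [hx, hr, hθ])
  have h := key ht
  simp only [Prod.mk.injEq] at h
  exact h

/-- Two profiles which agree at one time agree: `ode_unique` with `g = 1` forward, and with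
`g = -1` applied to `s ↦ x (2 s₀ - s)` etc. backward. -/
theorem profile_unique {x r θ x' r' θ' : ℝ → ℝ} (h : IsProfile x r θ) (h' : IsProfile x' r' θ')
    (s₀ : ℝ) (hx : x s₀ = x' s₀) (hr : r s₀ = r' s₀) (hθ : θ s₀ = θ' s₀) :
    x = x' ∧ r = r' ∧ θ = θ' := by
  have key : ∀ t, x t = x' t ∧ r t = r' t ∧ θ t = θ' t := by
    intro t
    have hs1 : min s₀ t - 1 < s₀ := by
      have := min_le_left s₀ t
      linarith
    have hs2 : s₀ < max s₀ t + 1 := by
      have := le_max_left s₀ t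
      linarith
    have ht1 : min s₀ t - 1 ≤ t := by
      have := min_le_right s₀ t
      linarith
    have ht2 : t ≤ max s₀ t + 1 := by
      have := le_max_right s₀ t
      linarith
    have hab : min s₀ t - 1 ≤ max s₀ t + 1 := ht1.trans ht2
    have cx : Continuous x := continuous_iff_continuousAt.2 fun s => (h.hx s).continuousAt
    have cr : Continuous r := continuous_iff_continuousAt.2 fun s => (h.hr s).continuousAt
    have cθ : Continuous θ := continuous_iff_continuousAt.2 fun s => (h.hθ s).continuousAt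
    have cx' : Continuous x' := continuous_iff_continuousAt.2 fun s => (h'.hx s).continuousAt
    have cr' : Continuous r' := continuous_iff_continuousAt.2 fun s => (h'.hr s).continuousAt
    have cθ' : Continuous θ' := continuous_iff_continuousAt.2 fun s => (h'.hθ s).continuousAt
    obtain ⟨A, ρ, hρ, hA⟩ := Uq_bounds hab cx.continuousOn cr.continuousOn
      (fun t _ => h.pos t)
    obtain ⟨A', ρ', hρ', hA'⟩ := Uq_bounds hab cx'.continuousOn cr'.continuousOn
      (fun t _ => h'.pos t)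
    obtain ⟨K, hK⟩ := VF_lipschitz (A := max A A') (ρ := min ρ ρ') (lt_min hρ hρ')
    have key := ODE_solution_unique_of_mem_Icc (v := fun _ y => VF y)
      (f := fun t => (x t, r t, θ t)) (g := fun t => (x' t, r' t, θ' t))
      (a := min s₀ t - 1) (b := max s₀ t + 1) (t₀ := s₀)
      (s := fun _ => {y | |y.1| ≤ max A A' ∧ min ρ ρ' ≤ y.2.1 ∧ y.2.1 ≤ max A A'})
      (fun _ _ => hK) ⟨hs1, hs2⟩
      (cx.prodMk (cr.prodMk cθ)).continuousOn
      (fun t _ => (h.hx t).prodMk ((h.hr t).prodMk (h.hθ t)))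
      (fun t ht => by
        obtain ⟨h1, h2, h3⟩ := hA t (Ioo_subset_Icc_self ht)
        exact ⟨h1.trans (le_max_left _ _), (min_le_left _ _).trans h2,
          h3.trans (le_max_left _ _)⟩)
      (cx'.prodMk (cr'.prodMk cθ')).continuousOn
      (fun t _ => (h'.hx t).prodMk ((h'.hr t).prodMk (h'.hθ t)))
      (fun t ht => by
        obtain ⟨h1, h2, h3⟩ := hA' t (Ioo_subset_Icc_self ht)
        exact ⟨h1.trans (le_max_right _ _), (min_le_right _ _).trans h2,
          h3.trans (le_max_right _ _)⟩)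
      (by simp only [hx, hr, hθ])
    have h := key ⟨ht1, ht2⟩
    simp only [Prod.mk.injEq] at h
    exact h
  exact ⟨funext fun t => (key t).1, funext fun t => (key t).2.1, funext fun t => (key t).2.2⟩

end AT
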