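import Pool.Agent.H.MP_ce2c94_gt.TJ3
import Pool.Agent.H.MP_ce2c94_gt.Uq

/-!
# From a convex arc of a profile to a strand over the height
-/

namespace AT

open Real Set Filter Topology

/-- A strictly convex arc of a profile from angle `0` to angle `π`. -/
structure CArc (x r θ : ℝ → ℝ) (s0 s1 : ℝ) : Prop where
  prof : IsProfile x r θ
  lt : s0 < s1
  t0 : θ s0 = 0
  t1 : θ s1 = π
  conv : ∀ s ∈ Icc s0 s1, 0 < x s / 2 * sin (θ s) + (1 / r s - r s / 2) * cos (θ s)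

theorem CArc.mono {x r θ : ℝ → ℝ} {s0 s1 : ℝ} (h : CArc x r θ s0 s1) :
    StrictMonoOn θ (Icc s0 s1) := by
  refine strictMonoOn_of_deriv_pos (convex_Icc s0 s1)
    (fun s _ => (h.prof.hθ s).continuousAt.continuousWithinAt) ?_
  intro s hs
  rw [(h.prof.hθ s).deriv]
  exact h.conv s (interior_subset hs)

theorem CArc.rng {x r θ : ℝ → ℝ} {s0 s1 : ℝ} (h : CArc x r θ s0 s1) {s : ℝ}
    (hs : s ∈ Ioo s0 s1) : 0 < θ s ∧ θ s < π := by
  have h1 := h.mono (left_mem_Icc.2 h.lt.le) (Ioo_subset_Icc_self hs) hs.1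
  have h2 := h.mono (Ioo_subset_Icc_self hs) (right_mem_Icc.2 h.lt.le) hs.2
  rw [h.t0] at h1
  rw [h.t1] at h2
  exact ⟨h1, h2⟩

theorem CArc.sin_pos {x r θ : ℝ → ℝ} {s0 s1 : ℝ} (h : CArc x r θ s0 s1) {s : ℝ}
    (hs : s ∈ Ioo s0 s1) : 0 < sin (θ s) :=
  sin_pos_of_pos_of_lt_pi (h.rng hs).1 (h.rng hs).2

theorem CArc.rmono {x r θ : ℝ → ℝ} {s0 s1 : ℝ} (h : CArc x r θ s0 s1) :
    StrictMonoOn r (Icc s0 s1) := by
  refine strictMonoOn_of_deriv_pos (convex_Icc s0 s1)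
    (fun s _ => (h.prof.hr s).continuousAt.continuousWithinAt) ?_
  intro s hs
  rw [interior_Icc] at hs
  rw [(h.prof.hr s).deriv]
  exact h.sin_pos hs

/-- **Arc to strand.** -/
theorem CArc.strand {x r θ : ℝ → ℝ} {s0 s1 : ℝ} (h : CArc x r θ s0 s1) :
    ∃ g : ℝ → ℝ, (∀ s ∈ Icc s0 s1, g (r s) = s) ∧
      (∀ ρ ∈ Ioo (r s0) (r s1), g ρ ∈ Ioo s0 s1 ∧ r (g ρ) = ρ) ∧
      TStrand (r s0) (r s1) (fun ρ => x (g ρ)) (fun ρ => θ (g ρ)) ∧
      Tendsto (fun ρ => x (g ρ)) (𝓝[>] (r s0)) (𝓝 (x s0)) ∧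
      Tendsto (fun ρ => x (g ρ)) (𝓝[<] (r s1)) (𝓝 (x s1)) := by
  obtain ⟨g, hg⟩ : ∃ g : ℝ → ℝ, g = Function.invFunOn r (Icc s0 s1) := ⟨_, rfl⟩
  have m0 : s0 ∈ Icc s0 s1 := left_mem_Icc.2 h.lt.le
  have m1 : s1 ∈ Icc s0 s1 := right_mem_Icc.2 h.lt.le
  have hbt : r s0 < r s1 := h.rmono m0 m1 h.lt
  have hcr : ContinuousOn r (Icc s0 s1) :=
    fun s _ => (h.prof.hr s).continuousAt.continuousWithinAt
  have hg1 : ∀ s ∈ Icc s0 s1, g (r s) = s := by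
    intro s hs
    have hm : r s ∈ r '' Icc s0 s1 := mem_image_of_mem r hs
    have e1 : r (Function.invFunOn r (Icc s0 s1) (r s)) = r s :=
      Function.invFunOn_eq hm
    have e2 : Function.invFunOn r (Icc s0 s1) (r s) ∈ Icc s0 s1 :=
      Function.invFunOn_mem hm
    rw [hg]
    exact h.rmono.injOn e2 hs e1
  have hsurj : ∀ ρ ∈ Icc (r s0) (r s1), ∃ s ∈ Icc s0 s1, r s = ρ := by
    intro ρ hρ
    exact intermediate_value_Icc h.lt.le hcr hρ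
  have hg2 : ∀ ρ ∈ Icc (r s0) (r s1), g ρ ∈ Icc s0 s1 ∧ r (g ρ) = ρ := by
    intro ρ hρ
    obtain ⟨s, hs, rfl⟩ := hsurj ρ hρ
    rw [hg1 s hs]
    exact ⟨hs, rfl⟩
  have hg3 : ∀ ρ ∈ Ioo (r s0) (r s1), g ρ ∈ Ioo s0 s1 ∧ r (g ρ) = ρ := by
    intro ρ hρ
    obtain ⟨h1, h2⟩ := hg2 ρ (Ioo_subset_Icc_self hρ)
    refine ⟨⟨lt_of_le_of_ne h1.1 ?_, lt_of_le_of_ne h1.2 ?_⟩, h2⟩
    · intro e
      rw [← e] at h2
      exact absurd h2 hρ.1.ne
    · intro e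
      rw [e] at h2
      exact absurd h2 hρ.2.ne'
  have gmono : StrictMonoOn g (Icc (r s0) (r s1)) := by
    intro ρ hρ ρ' hρ' hlt
    obtain ⟨a1, a2⟩ := hg2 ρ hρ
    obtain ⟨b1, b2⟩ := hg2 ρ' hρ'
    rw [← a2, ← b2] at hlt
    exact (h.rmono.lt_iff_lt a1 b1).1 hlt
  have gimg : g '' Icc (r s0) (r s1) = Icc s0 s1 := by
    refine Subset.antisymm ?_ ?_
    · rintro _ ⟨ρ, hρ, rfl⟩
      exact (hg2 ρ hρ).1
    · intro s hs
      refine ⟨r s, ⟨?_, ?_⟩, hg1 s hs⟩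
      · exact (h.rmono.le_iff_le m0 hs).2 hs.1
      · exact (h.rmono.le_iff_le hs m1).2 hs.2
  have gcont : ∀ ρ ∈ Ioo (r s0) (r s1), ContinuousAt g ρ := by
    intro ρ hρ
    refine gmono.continuousAt_of_image_mem_nhds (Icc_mem_nhds hρ.1 hρ.2) ?_
    rw [gimg]
    exact Icc_mem_nhds (hg3 ρ hρ).1.1 (hg3 ρ hρ).1.2
  have e0 : g (r s0) = s0 := hg1 s0 m0
  have e1 : g (r s1) = s1 := hg1 s1 m1
  have glb : Tendsto g (𝓝[>] (r s0)) (𝓝 s0) := by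
    have hc : ContinuousWithinAt g (Ici (r s0)) (r s0) := by
      refine gmono.continuousWithinAt_right_of_image_mem_nhdsWithin (Icc_mem_nhdsGE hbt) ?_
      rw [gimg, e0]
      exact Icc_mem_nhdsGE h.lt
    have := hc.tendsto
    rw [e0] at this
    exact this.mono_left (nhdsWithin_mono _ Ioi_subset_Ici_self)
  have gltt : Tendsto g (𝓝[<] (r s1)) (𝓝 s1) := by
    have hc : ContinuousWithinAt g (Iic (r s1)) (r s1) := by
      refine gmono.continuousWithinAt_left_of_image_mem_nhdsWithin (Icc_mem_nhdsLE hbt) ?_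
      rw [gimg, e1]
      exact Icc_mem_nhdsLE h.lt
    have := hc.tendsto
    rw [e1] at this
    exact this.mono_left (nhdsWithin_mono _ Iio_subset_Iic_self)
  have gder : ∀ ρ ∈ Ioo (r s0) (r s1), HasDerivAt g (sin (θ (g ρ)))⁻¹ ρ := by
    intro ρ hρ
    refine HasDerivAt.of_local_left_inverse (gcont ρ hρ) (h.prof.hr (g ρ))
      (h.sin_pos (hg3 ρ hρ).1).ne' ?_
    filter_upwards [Ioo_mem_nhds hρ.1 hρ.2] with y hy
    exact (hg3 y hy).2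
  refine ⟨g, hg1, hg3, ⟨h.prof.pos s0, hbt, ?_, ?_, ?_, ?_, ?_, ?_⟩, ?_, ?_⟩
  · intro ρ hρ
    exact h.rng (hg3 ρ hρ).1
  · intro ρ hρ
    have := (h.prof.hx (g ρ)).comp ρ (gder ρ hρ)
    exact this
  · intro ρ hρ
    have := (h.prof.hθ (g ρ)).comp ρ (gder ρ hρ)
    refine this.congr_deriv ?_
    have hs := (h.sin_pos (hg3 ρ hρ).1).ne'
    simp only [UT, ph]
    rw [(hg3 ρ hρ).2]
    field_simp
  · intro ρ hρ
    have hs := h.sin_pos (hg3 ρ hρ).1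
    have hk := h.conv (g ρ) (Ioo_subset_Icc_self (hg3 ρ hρ).1)
    have e : UT (fun ρ => x (g ρ)) (fun ρ => θ (g ρ)) ρ =
        (x (g ρ) / 2 * sin (θ (g ρ)) + (1 / r (g ρ) - r (g ρ) / 2) * cos (θ (g ρ))) /
          sin (θ (g ρ)) := by
      simp only [UT, ph]
      rw [(hg3 ρ hρ).2]
      field_simp
    rw [e]
    exact div_pos hk hs
  · have := ((h.prof.hθ s0).continuousAt.tendsto).comp glb
    rw [h.t0] at this
    exact this
  · have := ((h.prof.hθ s1).continuousAt.tendsto).comp gltt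
    rw [h.t1] at this
    exact this
  · exact ((h.prof.hx s0).continuousAt.tendsto).comp glb
  · exact ((h.prof.hx s1).continuousAt.tendsto).comp gltt

end AT
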