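import Pool.Agent.H.MP_ce2c94_gt.TBInv
import Pool.Agent.H.MP_ce2c94_gt.TBBase
import Pool.Agent.H.MP_ce2c94_gt.TJ4

/-!
# The two strands of a convex closed profile as graphs over the height
-/

namespace AT

open Real Set Filter Topology

/-- The right strand: `s ∈ (0, T)`, `θ 0 = 0`, `θ T = π`. (`inv_fun` for `r` on `[0, T]`, where
`r' = sin θ > 0`; `X ρ = x (g ρ)`, `Θ ρ = θ (g ρ)`.) -/
theorem CLoop.strand {x r θ : ℝ → ℝ} {L T : ℝ} (h : CLoop x r θ L) (h0 : θ 0 = 0)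
    (hT : θ T = π) :
    ∃ X Θ : ℝ → ℝ, 0 < T ∧ T < L ∧ TStrand (r 0) (r T) X Θ ∧
      (∀ s ∈ Ioo 0 T, r s ∈ Ioo (r 0) (r T) ∧ X (r s) = x s ∧ Θ (r s) = θ s) ∧
      (∀ ρ ∈ Ioo (r 0) (r T), ∃ s ∈ Ioo 0 T, r s = ρ) ∧
      Tendsto X (𝓝[>] (r 0)) (𝓝 (x 0)) ∧ Tendsto X (𝓝[<] (r T)) (𝓝 (x T)) := by
  have T0 : 0 < T := by
    rw [← h.mono.lt_iff_lt, h0, hT]
    exact pi_pos
  have TL : T < L := by
    have := h.turn 0
    rw [zero_add, h0, zero_add] at this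
    rw [← h.mono.lt_iff_lt, hT, this]
    linarith [pi_pos]
  have hc : CArc x r θ 0 T := ⟨h.loop.prof, T0, h0, hT, fun s _ => h.conv s⟩
  obtain ⟨g, g1, g2, hs, l0, l1⟩ := hc.strand
  refine ⟨_, _, T0, TL, hs, ?_, ?_, l0, l1⟩
  · intro s hs'
    have m := Ioo_subset_Icc_self hs'
    refine ⟨⟨hc.rmono (left_mem_Icc.2 T0.le) m hs'.1, hc.rmono m (right_mem_Icc.2 T0.le) hs'.2⟩,
      ?_, ?_⟩
    · simp only [g1 s m]
    · simp only [g1 s m]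
  · intro ρ hρ
    exact ⟨g ρ, (g2 ρ hρ).1, (g2 ρ hρ).2⟩

/-- The mirrored left strand: `s ∈ (T, L)`, `X (r s) = -x s`, `Θ (r s) = 2 π - θ s`. (Apply
`CLoop.strand` to the flipped loop `s ↦ (-x (L - s), r (L - s), 2 π - θ (L - s))`, i.e.
`(h.flip L).shift 0 1`, with `T' = L - T`; `r L = r 0`.) -/
theorem CLoop.strandL {x r θ : ℝ → ℝ} {L T : ℝ} (h : CLoop x r θ L) (h0 : θ 0 = 0)
    (hT : θ T = π) :
    ∃ X Θ : ℝ → ℝ, TStrand (r 0) (r T) X Θ ∧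
      (∀ s ∈ Ioo T L, r s ∈ Ioo (r 0) (r T) ∧ X (r s) = -x s ∧ Θ (r s) = 2 * π - θ s) ∧
      (∀ ρ ∈ Ioo (r 0) (r T), ∃ s ∈ Ioo T L, r s = ρ) ∧
      Tendsto X (𝓝[>] (r 0)) (𝓝 (-x 0)) ∧ Tendsto X (𝓝[<] (r T)) (𝓝 (-x T)) := by
  have h1 := (h.flip L).shift 0 1
  have e1 : (fun s : ℝ => -θ (L - (s + 0)) + ((1 : ℤ) : ℝ) * (2 * π)) =
      fun s => 2 * π - θ (L - s) := by
    funext s; push_cast; rw [add_zero]; ring
  simp only [add_zero] at h1 e1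
  rw [e1] at h1
  have er : r L = r 0 := by
    have := h.loop.pr 0
    rwa [zero_add] at this
  have ex : x L = x 0 := by
    have := h.loop.px 0
    rwa [zero_add] at this
  obtain ⟨X, Θ, T0, TL, hs, hi, hsu, l0, l1⟩ := h1.strand (T := L - T) (by
    have := h.turn 0
    rw [zero_add, h0, zero_add] at this
    simp only [sub_zero, this]
    ring) (by
    rw [show L - (L - T) = T by ring, hT]
    ring)
  have eT : L - (L - T) = T := by ring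
  simp only [sub_zero, eT, er, ex] at hs hi hsu l0 l1
  refine ⟨X, Θ, hs, ?_, ?_, l0, l1⟩
  · intro s hs'
    have := hi (L - s) ⟨by linarith [hs'.2], by linarith [hs'.1]⟩
    simp only [sub_sub_cancel] at this
    exact this
  · intro ρ hρ
    obtain ⟨s, hs', e⟩ := hsu ρ hρ
    exact ⟨L - s, ⟨by linarith [hs'.2], by linarith [hs'.1]⟩, e⟩

end AT
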