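import Pool.Agent.H.MP_ce2c94_gt.TBDefs

/-!
# Theorem Q: a concave upper arc which starts above height 2 falls below `√2` before `x = 3`
-/

namespace AT

open Real Set Filter Topology

/-- the comparison polynomial: `TQ_g' ≤ y (TQ_g/2 - 1/2 - y/14)` on `[0, 3]` and
`∫₀³ (TQ_g/2 - 1/2 - y/14) dy = 3.22… > π` -/
noncomputable def TQ_g (y : ℝ) : ℝ :=
  2 + y ^ 2 / 4 - y ^ 3 / 42 + y ^ 4 / 32 - y ^ 5 / 420 + y ^ 6 / 384 - y ^ 7 / 5880 +
    y ^ 8 / 6144 - y ^ 9 / 105840 + y ^ 10 / 122880 - y ^ 11 / 2328480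

/-- the derivative of `TQ_g` -/
noncomputable def TBQ_g' (y : ℝ) : ℝ :=
  y / 2 - y ^ 2 / 14 + y ^ 3 / 8 - y ^ 4 / 84 + y ^ 5 / 64 - y ^ 6 / 840 + y ^ 7 / 768 -
    y ^ 8 / 11760 + y ^ 9 / 12288 - y ^ 10 / 211680

/-- a primitive of `TQ_g/2 - 1/2 - y/14` -/
noncomputable def TBQ_P (y : ℝ) : ℝ :=
  y / 2 - y ^ 2 / 28 + y ^ 3 / 24 - y ^ 4 / 336 + y ^ 5 / 320 - y ^ 6 / 5040 + y ^ 7 / 5376 -
    y ^ 8 / 94080 + y ^ 9 / 110592 - y ^ 10 / 2116800 + y ^ 11 / 2703360 - y ^ 12 / 55883520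

theorem TBQ_pow (n : ℕ) (y c : ℝ) :
    HasDerivAt (fun y : ℝ => y ^ (n + 1) / c) ((n + 1 : ℕ) * y ^ n / c) y := by
  have h := (hasDerivAt_pow (n + 1) y).div_const c
  rw [Nat.add_sub_cancel] at h
  exact h

theorem TBQ_g_deriv (y : ℝ) : HasDerivAt TQ_g (TBQ_g' y) y := by
  have h := (((((((((((hasDerivAt_const y (2 : ℝ)).add (TBQ_pow 1 y 4)).sub (TBQ_pow 2 y 42)).add
    (TBQ_pow 3 y 32)).sub (TBQ_pow 4 y 420)).add (TBQ_pow 5 y 384)).sub (TBQ_pow 6 y 5880)).add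
    (TBQ_pow 7 y 6144)).sub (TBQ_pow 8 y 105840)).add (TBQ_pow 9 y 122880)).sub
    (TBQ_pow 10 y 2328480))
  have e : TBQ_g' y = 0 + ((1 + 1 : ℕ) * y ^ 1 / 4) - ((2 + 1 : ℕ) * y ^ 2 / 42) +
      ((3 + 1 : ℕ) * y ^ 3 / 32) - ((4 + 1 : ℕ) * y ^ 4 / 420) + ((5 + 1 : ℕ) * y ^ 5 / 384) -
      ((6 + 1 : ℕ) * y ^ 6 / 5880) + ((7 + 1 : ℕ) * y ^ 7 / 6144) -
      ((8 + 1 : ℕ) * y ^ 8 / 105840) + ((9 + 1 : ℕ) * y ^ 9 / 122880) -
      ((10 + 1 : ℕ) * y ^ 10 / 2328480) := by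
    unfold TBQ_g'
    push_cast
    ring
  rw [e]
  exact h

theorem TBQ_P_deriv (y : ℝ) : HasDerivAt TBQ_P (TQ_g y / 2 - 1 / 2 - y / 14) y := by
  have h := (((((((((((((hasDerivAt_id y).div_const 2).sub (TBQ_pow 1 y 28)).add
    (TBQ_pow 2 y 24)).sub (TBQ_pow 3 y 336)).add (TBQ_pow 4 y 320)).sub (TBQ_pow 5 y 5040)).add
    (TBQ_pow 6 y 5376)).sub (TBQ_pow 7 y 94080)).add (TBQ_pow 8 y 110592)).sub
    (TBQ_pow 9 y 2116800)).add (TBQ_pow 10 y 2703360)).sub (TBQ_pow 11 y 55883520))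
  have e : TQ_g y / 2 - 1 / 2 - y / 14 = 1 / 2 - ((1 + 1 : ℕ) * y ^ 1 / 28) +
      ((2 + 1 : ℕ) * y ^ 2 / 24) - ((3 + 1 : ℕ) * y ^ 3 / 336) + ((4 + 1 : ℕ) * y ^ 4 / 320) -
      ((5 + 1 : ℕ) * y ^ 5 / 5040) + ((6 + 1 : ℕ) * y ^ 6 / 5376) -
      ((7 + 1 : ℕ) * y ^ 7 / 94080) + ((8 + 1 : ℕ) * y ^ 8 / 110592) -
      ((9 + 1 : ℕ) * y ^ 9 / 2116800) + ((10 + 1 : ℕ) * y ^ 10 / 2703360) -
      ((11 + 1 : ℕ) * y ^ 11 / 55883520) := by
    unfold TQ_g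
    push_cast
    ring
  rw [e]
  exact h

theorem TBQ_g_le {y : ℝ} (h0 : 0 ≤ y) (h3 : y ≤ 3) :
    TBQ_g' y ≤ y * (TQ_g y / 2 - 1 / 2 - y / 14) := by
  have e : y * (TQ_g y / 2 - 1 / 2 - y / 14) - TBQ_g' y =
      y ^ 11 * (1 / 245760 - y / 4656960) := by
    unfold TQ_g TBQ_g'
    ring
  have h : 0 ≤ y ^ 11 * (1 / 245760 - y / 4656960) :=
    mul_nonneg (pow_nonneg h0 _) (by linarith)
  linarith

/-- **Theorem Q.** Proof. Suppose `√2 ≤ w 3`. `q = -(y w'/2) + w/2 - 1/w > 0`, `G = w - y w'`,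
`G = 2 q + 2/w`, `G' = y (1 + w'²) q ≥ y q`. `w` is concave on `[0, 3]`, `w 0 ≥ 2`, `w 3 ≥ 1.4`, so
`w ≥ 2 - y/5` and `1/w ≤ 1/2 + y/14` (`(2 - y/5)(1/2 + y/14) = 1 + y(3-y)/70 ≥ 1`). So
`G' ≥ y (G/2 - 1/2 - y/14)` and `e^{-y²/4}(G - TQ_g)` is nondecreasing, `G ≥ TQ_g` on `[0, 3]`.
`(arctan w')' = -q`, `q ≥ TQ_g/2 - 1/2 - y/14`; integrate (with the explicit primitive):
`arctan w'(0) - arctan w'(3) ≥ 3.15 > π`, contradiction. -/
theorem thmQ {α β : ℝ} {w q : ℝ → ℝ} (hw : Gr α β w q) (hα : α < 0) (hβ : 3 < β)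
    (hc : ∀ y ∈ Ioo α β, y * q y / 2 + (1 / w y - w y / 2) < 0) (h0 : 2 ≤ w 0) :
    w 3 < √2 := by
  by_contra hcon
  rw [not_lt] at hcon
  have hsub : ∀ y ∈ Icc (0 : ℝ) 3, y ∈ Ioo α β := fun y hy =>
    ⟨lt_of_lt_of_le hα hy.1, lt_of_le_of_lt hy.2 hβ⟩
  have hint : interior (Icc (0 : ℝ) 3) = Ioo 0 3 := interior_Icc
  have hIcc : ∀ y ∈ Ioo (0 : ℝ) 3, y ∈ Icc (0 : ℝ) 3 := fun y hy => ⟨hy.1.le, hy.2.le⟩
  have hw3 : (7 / 5 : ℝ) ≤ w 3 := by
    refine le_trans ?_ hcon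
    rw [show (7 / 5 : ℝ) = √((7 / 5) ^ 2) by rw [Real.sqrt_sq (by norm_num)]]
    exact Real.sqrt_le_sqrt (by norm_num)
  -- concavity
  have hcw : ContinuousOn w (Icc 0 3) := fun y hy =>
    (hw.du y (hsub y hy)).continuousAt.continuousWithinAt
  have hcq : ContinuousOn q (Icc 0 3) := fun y hy =>
    (hw.dp y (hsub y hy)).continuousAt.continuousWithinAt
  have hanti : AntitoneOn q (Icc 0 3) := by
    refine antitoneOn_of_deriv_nonpos (convex_Icc 0 3) hcq ?_ ?_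
    · intro y hy
      rw [hint] at hy
      exact (hw.dp y (hsub y (hIcc y hy))).differentiableAt.differentiableWithinAt
    · intro y hy
      rw [hint] at hy
      rw [(hw.dp y (hsub y (hIcc y hy))).deriv]
      have h1 := hc y (hsub y (hIcc y hy))
      exact mul_nonpos_of_nonneg_of_nonpos (by positivity) h1.le
  have hconc : ConcaveOn ℝ (Icc 0 3) w := by
    refine AntitoneOn.concaveOn_of_deriv (convex_Icc 0 3) hcw ?_ ?_
    · intro y hy
      rw [hint] at hy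
      exact (hw.du y (hsub y (hIcc y hy))).differentiableAt.differentiableWithinAt
    · rw [hint]
      intro x hx y hy hxy
      rw [(hw.du x (hsub x (hIcc x hx))).deriv, (hw.du y (hsub y (hIcc y hy))).deriv]
      exact hanti (hIcc x hx) (hIcc y hy) hxy
  have hlow : ∀ y ∈ Icc (0 : ℝ) 3, 2 - y / 5 ≤ w y := by
    intro y hy
    have h1 := hconc.2 (left_mem_Icc.2 (by norm_num : (0 : ℝ) ≤ 3))
      (right_mem_Icc.2 (by norm_num : (0 : ℝ) ≤ 3)) (show (0 : ℝ) ≤ 1 - y / 3 by linarith [hy.2])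
      (show (0 : ℝ) ≤ y / 3 by linarith [hy.1]) (by ring)
    simp only [smul_eq_mul] at h1
    have h2 : (1 - y / 3) * 0 + y / 3 * 3 = y := by ring
    rw [h2] at h1
    have h3 : (1 - y / 3) * 2 ≤ (1 - y / 3) * w 0 :=
      mul_le_mul_of_nonneg_left h0 (by linarith [hy.2])
    have h4 : y / 3 * (7 / 5) ≤ y / 3 * w 3 :=
      mul_le_mul_of_nonneg_left hw3 (by linarith [hy.1])
    linarith
  have hinv : ∀ y ∈ Icc (0 : ℝ) 3, 1 / w y ≤ 1 / 2 + y / 14 := by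
    intro y hy
    have h1 := hlow y hy
    have h2 : 0 < w y := by linarith [hy.2]
    rw [div_le_iff₀ h2]
    have h3 : (1 / 2 + y / 14) * (2 - y / 5) ≤ (1 / 2 + y / 14) * w y :=
      mul_le_mul_of_nonneg_left h1 (by linarith [hy.1])
    have h4 : 0 ≤ y * (3 - y) := mul_nonneg hy.1 (by linarith [hy.2])
    nlinarith
  -- the comparison
  have hQ : ∀ y ∈ Icc (0 : ℝ) 3, (w y - y * q y) / 2 - 1 / 2 - y / 14 ≤
      -(y * q y / 2 + (1 / w y - w y / 2)) := by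
    intro y hy
    have := hinv y hy
    linarith
  have hmono : MonotoneOn (fun y => rexp (-(y ^ 2 / 4)) * ((w y - y * q y) - TQ_g y))
      (Icc 0 3) := by
    have hd : ∀ y ∈ Icc (0 : ℝ) 3, HasDerivAt
        (fun y => rexp (-(y ^ 2 / 4)) * ((w y - y * q y) - TQ_g y))
        (rexp (-(y ^ 2 / 4)) * (-(y / 2)) * ((w y - y * q y) - TQ_g y) +
          rexp (-(y ^ 2 / 4)) * ((q y - (1 * q y + y * ((1 + q y ^ 2) *
            (y * q y / 2 + (1 / w y - w y / 2))))) - TBQ_g' y)) y := by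
      intro y hy
      have h1 : HasDerivAt (fun y : ℝ => -(y ^ 2 / 4)) (-(y / 2)) y := by
        have g1 := (TBQ_pow 1 y 4).neg
        have e : -(y / 2) = -(((1 + 1 : ℕ) : ℝ) * y ^ 1 / 4) := by
          push_cast
          ring
        rw [e]
        exact g1
      have h2 := hw.du y (hsub y hy)
      have h3 := hw.dp y (hsub y hy)
      exact h1.exp.mul ((h2.sub ((hasDerivAt_id y).mul h3)).sub (TBQ_g_deriv y))
    refine monotoneOn_of_deriv_nonneg (convex_Icc 0 3) ?_ ?_ ?_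
    · intro y hy
      exact (hd y hy).continuousAt.continuousWithinAt
    · intro y hy
      rw [hint] at hy
      exact (hd y (hIcc y hy)).differentiableAt.differentiableWithinAt
    · intro y hy
      rw [hint] at hy
      have hy' := hIcc y hy
      rw [(hd y hy').deriv]
      have h1 := hQ y hy'
      have h2 := hc y (hsub y hy')
      have h3 := TBQ_g_le hy'.1 hy'.2
      obtain ⟨Q, hQd⟩ : ∃ Q, Q = y * q y / 2 + (1 / w y - w y / 2) := ⟨_, rfl⟩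
      rw [← hQd] at h1 h2 ⊢
      have h4 : 0 ≤ (q y) ^ 2 * (-Q) := mul_nonneg (sq_nonneg _) (by linarith)
      have h5 : 0 ≤ y * ((q y) ^ 2 * (-Q)) := mul_nonneg hy'.1 h4
      have h6 : y * ((w y - y * q y) / 2 - 1 / 2 - y / 14) ≤ y * (-Q) :=
        mul_le_mul_of_nonneg_left h1 hy'.1
      have e : rexp (-(y ^ 2 / 4)) * (-(y / 2)) * ((w y - y * q y) - TQ_g y) +
          rexp (-(y ^ 2 / 4)) * ((q y - (1 * q y + y * ((1 + q y ^ 2) * Q))) - TBQ_g' y) =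
          rexp (-(y ^ 2 / 4)) * (y * (-Q) + y * ((q y) ^ 2 * (-Q)) -
            y / 2 * (w y - y * q y) + y / 2 * TQ_g y - TBQ_g' y) := by
        ring
      rw [e]
      refine mul_nonneg (Real.exp_pos _).le ?_
      nlinarith
  have hge : ∀ y ∈ Icc (0 : ℝ) 3, TQ_g y ≤ w y - y * q y := by
    intro y hy
    have h1 := hmono (left_mem_Icc.2 (by norm_num : (0 : ℝ) ≤ 3)) hy hy.1
    have h2 : TQ_g 0 = 2 := by
      unfold TQ_g
      norm_num
    simp only [h2] at h1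
    have h3 : 0 ≤ rexp (-((0 : ℝ) ^ 2 / 4)) * ((w 0 - 0 * q 0) - 2) :=
      mul_nonneg (Real.exp_pos _).le (by linarith)
    have h4 := h3.trans h1
    have h5 : 0 ≤ (w y - y * q y) - TQ_g y := by
      by_contra hneg
      rw [not_le] at hneg
      have := mul_neg_of_pos_of_neg (Real.exp_pos (-(y ^ 2 / 4))) hneg
      linarith
    linarith
  -- the angle
  have hangle : AntitoneOn (fun y => arctan (q y) + TBQ_P y) (Icc 0 3) := by
    have hd : ∀ y ∈ Icc (0 : ℝ) 3, HasDerivAt (fun y => arctan (q y) + TBQ_P y)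
        (1 / (1 + q y ^ 2) * ((1 + q y ^ 2) * (y * q y / 2 + (1 / w y - w y / 2))) +
          (TQ_g y / 2 - 1 / 2 - y / 14)) y := by
      intro y hy
      exact (hw.dp y (hsub y hy)).arctan.add (TBQ_P_deriv y)
    refine antitoneOn_of_deriv_nonpos (convex_Icc 0 3) ?_ ?_ ?_
    · intro y hy
      exact (hd y hy).continuousAt.continuousWithinAt
    · intro y hy
      rw [hint] at hy
      exact (hd y (hIcc y hy)).differentiableAt.differentiableWithinAt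
    · intro y hy
      rw [hint] at hy
      have hy' := hIcc y hy
      rw [(hd y hy').deriv]
      have h1 := hQ y hy'
      have h2 := hge y hy'
      have h3 : (1 + q y ^ 2) ≠ 0 := by positivity
      rw [← mul_assoc, one_div, inv_mul_cancel₀ h3, one_mul]
      linarith
  have hfin := hangle (left_mem_Icc.2 (by norm_num : (0 : ℝ) ≤ 3))
    (right_mem_Icc.2 (by norm_num : (0 : ℝ) ≤ 3)) (by norm_num)
  simp only at hfin
  have hP0 : TBQ_P 0 = 0 := by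
    unfold TBQ_P
    norm_num
  have hP3 : 3.15 ≤ TBQ_P 3 := by
    unfold TBQ_P
    norm_num
  have h1 := Real.arctan_lt_pi_div_two (q 0)
  have h2 := Real.neg_pi_div_two_lt_arctan (q 3)
  have h3 := Real.pi_lt_d2
  rw [hP0] at hfin
  linarith

end AT
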