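import Pool.Agent.H.MP_ce2c94_gt.TBD
import Pool.Agent.H.MP_ce2c94_gt.TBGr
import Pool.Agent.H.MP_ce2c94_gt.TBQ

/-!
# No far points at height `√2`
-/

namespace AT

open Real Set Filter Topology

/-- a concave function which decreases between `0` and `3` decreases after `3` -/
theorem TBTipF_aux1 {α β : ℝ} {w q : ℝ → ℝ} (hw : Gr α β w q) (hα : α < 0) (hβ : 3 < β)
    (hc : ∀ y ∈ Ioo α β, y * q y / 2 + (1 / w y - w y / 2) < 0) (h03 : w 3 < w 0) :
    ∀ y ∈ Ico 3 β, w y ≤ w 3 := by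
  have hq : StrictAntiOn q (Ioo α β) := by
    refine strictAntiOn_of_deriv_neg (convex_Ioo α β)
      (fun y hy => (hw.dp y hy).continuousAt.continuousWithinAt) ?_
    intro y hy
    rw [interior_Ioo] at hy
    rw [(hw.dp y hy).deriv]
    have h1 : 0 < 1 + q y ^ 2 := by positivity
    exact mul_neg_of_pos_of_neg h1 (hc y hy)
  have hsub : ∀ y ∈ Icc (0 : ℝ) 3, y ∈ Ioo α β := fun y hy =>
    ⟨hα.trans_le hy.1, hy.2.trans_lt hβ⟩
  obtain ⟨ξ, hξ, hξq⟩ := exists_hasDerivAt_eq_slope w q (by norm_num : (0 : ℝ) < 3)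
    (fun y hy => (hw.du y (hsub y hy)).continuousAt.continuousWithinAt)
    (fun y hy => hw.du y (hsub y (Ioo_subset_Icc_self hy)))
  have hneg : q ξ < 0 := by
    rw [hξq]
    apply div_neg_of_neg_of_pos <;> linarith
  have hξ' : ξ ∈ Ioo α β := hsub ξ (Ioo_subset_Icc_self hξ)
  have hanti : AntitoneOn w (Ico 3 β) := by
    refine antitoneOn_of_deriv_nonpos (convex_Ico 3 β) ?_ ?_ ?_
    · intro y hy
      exact (hw.du y ⟨by linarith [hy.1], hy.2⟩).continuousAt.continuousWithinAt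
    · intro y hy
      rw [interior_Ico] at hy
      exact (hw.du y ⟨by linarith [hy.1], hy.2⟩).differentiableAt.differentiableWithinAt
    · intro y hy
      rw [interior_Ico] at hy
      have hy' : y ∈ Ioo α β := ⟨by linarith [hy.1], hy.2⟩
      rw [(hw.du y hy').deriv]
      exact (hq hξ' hy' (hξ.2.trans hy.1)).le.trans hneg.le
  intro y hy
  exact hanti ⟨le_refl 3, hβ⟩ hy hy.1

/-- If the upper crossing is higher than 2 then no point of the curve at height `≥ √2` has
abscissa `≥ 3`. (`thmQ`: if `3 < x B` then `w 3 < √2 < w 0`, so by concavity `w < √2` on `(3, x B)`,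
also at the tip by continuity, and `u < w`. If `x s = 3 = x B` then `s = B` mod `L` … the point is
excluded because we assume `3 < x s`.) -/
theorem CLoop.far {x r θ : ℝ → ℝ} {L A B κ : ℝ} (h : CLoop x r θ L) (hA : θ A = -(π / 2))
    (hB : θ B = π / 2) (hκ : x κ = 0) (hκ' : κ ∈ Ioo B (A + L)) (h2 : 2 < r κ) :
    ∀ s ∈ Icc A (A + L), 3 < x s → r s < √2 := by
  obtain ⟨u, p, hAB, hxA, hxB, hGu, hus, -, hcu, hua, hub⟩ := h.lower hA hB
  have hA' : θ (A + L) = 3 * π / 2 := by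
    rw [h.turn, hA]
    ring
  obtain ⟨w, q, -, -, -, hGw, hws, -, hcw, hwa, hwb⟩ := h.upper hA' hB
  rw [h.loop.px A] at hGw hcw hwa hws
  rw [h.loop.pr A] at hwa
  obtain ⟨F, h1, h2', h3, -⟩ := thick hGu hGw hcu hcw
  have ha : Tendsto (fun y => w y - u y) (𝓝[>] (x A)) (𝓝 0) := by
    have := hwa.sub hua
    rwa [sub_self] at this
  have hb : Tendsto (fun y => w y - u y) (𝓝[<] (x B)) (𝓝 0) := by
    have := hwb.sub hub
    rwa [sub_self] at this
  have hpos := concave_pos (hxA.trans hxB) h1 h2' h3 ha hb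
  have hw0 : w 0 = r κ := by
    have := (hws κ hκ').2.1
    rwa [hκ] at this
  intro s hs hs3
  have hs2 : (0 : ℝ) ≤ √2 := sqrt_nonneg 2
  have hsq : √2 * √2 = 2 := mul_self_sqrt (by norm_num)
  have hlt2 : √2 < 2 := by nlinarith
  -- the three positions
  have hcases : s ∈ Ioo A B ∨ s = B ∨ s ∈ Ioo B (A + L) := by
    rcases lt_trichotomy s B with h4 | h4 | h4
    · left
      refine ⟨lt_of_le_of_ne hs.1 ?_, h4⟩
      rintro rfl
      linarith
    · exact Or.inr (Or.inl h4)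
    · right
      right
      refine ⟨h4, lt_of_le_of_ne hs.2 ?_⟩
      rintro rfl
      rw [h.loop.px A] at hs3
      linarith
  have h3B : 3 < x B := by
    rcases hcases with h4 | h4 | h4
    · exact hs3.trans (hus s h4).1.2
    · rwa [h4] at hs3
    · exact hs3.trans (hws s h4).1.2
  have hw3 : w 3 < √2 := thmQ hGw hxA h3B hcw (by rw [hw0]; exact h2.le)
  have hfar : ∀ y ∈ Ico 3 (x B), w y ≤ w 3 :=
    TBTipF_aux1 hGw hxA h3B hcw (by rw [hw0]; linarith)
  rcases hcases with h4 | h4 | h4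
  · obtain ⟨h5, h6, -⟩ := hus s h4
    have h7 := hpos (x s) h5
    have h8 := hfar (x s) ⟨hs3.le, h5.2⟩
    rw [← h6]
    linarith
  · rw [h4]
    have h5 : r B ≤ w 3 := by
      refine le_of_tendsto hwb ?_
      filter_upwards [Ioo_mem_nhdsLT h3B] with y hy
      exact hfar y ⟨hy.1.le, hy.2⟩
    linarith
  · obtain ⟨h5, h6, -⟩ := hws s h4
    have h8 := hfar (x s) ⟨hs3.le, h5.2⟩
    rw [← h6]
    linarith

end AT
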