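import Pool.Agent.H.MP_ce2c94_gt.TBD
import Pool.Agent.H.MP_ce2c94_gt.TBGr

/-!
# The width of a convex closed profile
-/

namespace AT

open Real Set Filter Topology

/-- The narrow side is shorter than 2, and the width is below 4 unless the narrow side is shorter
than 1. (`CLoop.lower` on `(A, B)`, `CLoop.upper` on `(B, A + L)`, `x (A + L) = x A`,
`θ (A + L) = 3π/2`; `thick`, `concave_pos` give `u < w`; `dFour`.) -/
theorem CLoop.width {x r θ : ℝ → ℝ} {L A B : ℝ} (h : CLoop x r θ L) (hA : θ A = -(π / 2))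
    (hB : θ B = π / 2) (hn : -x A ≤ x B) : -x A < 2 ∧ (1 ≤ -x A → x B - x A < 4) := by
  obtain ⟨u, p, hAB, hxA, hxB, hGu, -, -, hcu, hua, hub⟩ := h.lower hA hB
  have hA' : θ (A + L) = 3 * π / 2 := by
    rw [h.turn, hA]
    ring
  obtain ⟨w, q, -, -, -, hGw, -, -, hcw, hwa, hwb⟩ := h.upper hA' hB
  rw [h.loop.px A] at hGw hcw hwa
  rw [h.loop.pr A] at hwa
  obtain ⟨F, h1, h2, h3, -⟩ := thick hGu hGw hcu hcw
  have ha : Tendsto (fun y => w y - u y) (𝓝[>] (x A)) (𝓝 0) := by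
    have := hwa.sub hua
    rwa [sub_self] at this
  have hb : Tendsto (fun y => w y - u y) (𝓝[<] (x B)) (𝓝 0) := by
    have := hwb.sub hub
    rwa [sub_self] at this
  have hpos := concave_pos (hxA.trans hxB) h1 h2 h3 ha hb
  obtain ⟨d1, d2⟩ := dFour hGu hGw hcu hcw fun y hy => sub_pos.1 (hpos y hy)
  refine ⟨?_, fun h5 => d2 (by linarith) hn⟩
  rcases d1 with d1 | d1 <;> linarith

end AT
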