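import Pool.Agent.H.MP_ce2c94_gt.TJ5a

/-!
# The top of two ordered strands
-/

namespace AT

open Real Set Filter Topology

/-- If `θ₂ ≤ θ₁` then the top of strand 1 is not to the right of the top of strand 2. Proof. If
`m₂ < m₁` then near `t` (where `ρ > √2`) `x₂ < x₁`, `φ = 1/ρ - ρ/2 < 0`, `cot θ₁ ≤ cot θ₂`, so
`K = θ₁ - θ₂` has `K' = (x₁ - x₂)/2 + φ (cot θ₁ - cot θ₂) > 0` on `(t - ε, t)`, and `K → 0` at `t`;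
so `K < 0` there, contradiction. -/
theorem top_le {b t : ℝ} {x₁ θ₁ x₂ θ₂ : ℝ → ℝ} (h₁ : TStrand b t x₁ θ₁) (h₂ : TStrand b t x₂ θ₂)
    (ht : √2 < t) {m₁ m₂ : ℝ} (hx₁ : Tendsto x₁ (𝓝[<] t) (𝓝 m₁))
    (hx₂ : Tendsto x₂ (𝓝[<] t) (𝓝 m₂)) (hle : ∀ ρ ∈ Ioo b t, θ₂ ρ ≤ θ₁ ρ) : m₁ ≤ m₂ :=
  tj_top h₁ h₂ hx₁ hx₂ ((sqrt_lt' (lt_of_le_of_lt (sqrt_nonneg 2) ht)).1 ht) hle

/-- If the angles of two strands agree then so do the abscissae (compare `dθ`). -/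
theorem strand_eq {b t : ℝ} {x₁ θ₁ x₂ θ₂ : ℝ → ℝ} (h₁ : TStrand b t x₁ θ₁) (h₂ : TStrand b t x₂ θ₂)
    (he : ∀ ρ ∈ Ioo b t, θ₁ ρ = θ₂ ρ) : ∀ ρ ∈ Ioo b t, x₁ ρ = x₂ ρ := by
  intro ρ hρ
  have h1 := h₁.dθ ρ hρ
  have h2 : HasDerivAt θ₁ (UT x₂ θ₂ ρ) ρ := by
    refine (h₂.dθ ρ hρ).congr_of_eventuallyEq ?_
    filter_upwards [Ioo_mem_nhds hρ.1 hρ.2] with s hs
    exact he s hs
  have h3 := h1.unique h2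
  unfold UT at h3
  rw [he ρ hρ] at h3
  linarith

end AT
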