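import Pool.Agent.H.MP_ce2c94_gt.TBTipP
import Pool.Agent.H.MP_ce2c94_gt.TBTipW
import Pool.Agent.H.MP_ce2c94_gt.TBTipF
import Pool.Agent.H.MP_ce2c94_gt.TBStr
import Pool.Agent.H.MP_ce2c94_gt.TBTop

/-!
# A convex closed profile is symmetric
-/

namespace AT

open Real Set Filter Topology

/-- signs and bounds for the abscissa, from the vertical tangents -/
theorem CLoop.TBMain_x {x r θ : ℝ → ℝ} {L A B : ℝ} (h : CLoop x r θ L) (hA : θ A = -(π / 2))
    (hB : θ B = π / 2) : x A < 0 ∧ 0 < x B ∧ ∀ s ∈ Icc A (A + L), x A ≤ x s ∧ x s ≤ x B := by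
  have hm := h.mono
  have hp := h.loop.prof
  have hπ := pi_pos
  have hA' : θ (A + L) = 3 * π / 2 := by rw [h.turn, hA]; ring
  have hAB : A < B := hm.lt_iff_lt.mp (by rw [hA, hB]; linarith)
  have hBA : B < A + L := hm.lt_iff_lt.mp (by rw [hA', hB]; linarith)
  have hxA : x A < 0 := by
    have h1 := h.conv A
    rw [hA, sin_neg, cos_neg, sin_pi_div_two, cos_pi_div_two] at h1
    linarith
  have hxB : 0 < x B := by
    have h1 := h.conv B
    rw [hB, sin_pi_div_two, cos_pi_div_two] at h1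
    linarith
  have hxc : Continuous x := continuous_iff_continuousAt.mpr fun s => (hp.hx s).continuousAt
  have hmono : StrictMonoOn x (Icc A B) := by
    refine strictMonoOn_of_deriv_pos (convex_Icc A B) hxc.continuousOn ?_
    intro s hs
    rw [interior_Icc] at hs
    rw [(hp.hx s).deriv]
    exact cos_pos_of_mem_Ioo ⟨by rw [← hA]; exact hm hs.1, by rw [← hB]; exact hm hs.2⟩
  have hanti : StrictAntiOn x (Icc B (A + L)) := by
    refine strictAntiOn_of_deriv_neg (convex_Icc B (A + L)) hxc.continuousOn ?_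
    intro s hs
    rw [interior_Icc] at hs
    rw [(hp.hx s).deriv]
    have h1 := hm hs.1
    have h2 := hm hs.2
    rw [hB] at h1
    rw [hA'] at h2
    exact cos_neg_of_pi_div_two_lt_of_lt h1 (by linarith)
  refine ⟨hxA, hxB, fun s hs => ?_⟩
  rcases le_total s B with h1 | h1
  · have hs' : s ∈ Icc A B := ⟨hs.1, h1⟩
    exact ⟨hmono.monotoneOn ⟨le_rfl, hAB.le⟩ hs' hs.1, hmono.monotoneOn hs' ⟨hAB.le, le_rfl⟩ h1⟩
  · have hs' : s ∈ Icc B (A + L) := ⟨h1, hs.2⟩
    have k := hanti.antitoneOn hs' ⟨hBA.le, le_rfl⟩ hs.2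
    rw [h.loop.px] at k
    exact ⟨k, hanti.antitoneOn ⟨le_rfl, hBA.le⟩ hs' h1⟩

/-- the top crossing is above the sphere -/
theorem CLoop.TBMain_top {x r θ : ℝ → ℝ} {L A B κ : ℝ} (h : CLoop x r θ L) (hA : θ A = -(π / 2))
    (hB : θ B = π / 2) (hκ : κ ∈ Ioo B (A + L)) (hx : x κ = 0) : 2 < r κ := by
  have hm := h.mono
  have hA' : θ (A + L) = 3 * π / 2 := by rw [h.turn, hA]; ring
  have h1 : π / 2 < θ κ := by rw [← hB]; exact hm hκ.1
  have h2 : θ κ < 3 * π / 2 := by rw [← hA']; exact hm hκ.2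
  rcases le_total (θ κ) π with h3 | h3
  · exact (h.tipR hB hx h1 h3).1
  · exact (h.tipL hA' hx h3 h2).1

/-- the case in which the left side is the narrow one -/
theorem CLoop.sym_aux {x r θ : ℝ → ℝ} {L T A B : ℝ} (h : CLoop x r θ L) (h0 : θ 0 = 0)
    (hT : θ T = π) (hA : θ A = -(π / 2)) (hB : θ B = π / 2) (hn : -x A ≤ x B) :
    ∃ s s', x s' = -x s ∧ r s' = r s ∧ θ s' = 2 * π - θ s := by
  have hm := h.mono
  have hp := h.loop.prof
  have hπ := pi_pos
  have hA' : θ (A + L) = 3 * π / 2 := by rw [h.turn, hA]; ring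
  have hθL : θ L = 2 * π := by
    have := h.turn 0
    rw [zero_add, h0, zero_add] at this
    exact this
  have hA0 : A < 0 := hm.lt_iff_lt.mp (by rw [hA, h0]; linarith)
  have h0B : 0 < B := hm.lt_iff_lt.mp (by rw [h0, hB]; linarith)
  have hBT : B < T := hm.lt_iff_lt.mp (by rw [hT, hB]; linarith)
  have hTA : T < A + L := hm.lt_iff_lt.mp (by rw [hT, hA']; linarith)
  have hTL : T < L := by linarith
  obtain ⟨hxA, hxB, hxx⟩ := h.TBMain_x hA hB
  obtain ⟨X₁, Θ₁, -, -, S₁, a1, a2, a3, a4⟩ := h.strand h0 hT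
  obtain ⟨X₂, Θ₂, S₂, b1, b2, b3, b4⟩ := h.strandL h0 hT
  obtain ⟨w1, w2⟩ := h.width hA hB hn
  have hxc : Continuous x := continuous_iff_continuousAt.mpr fun s => (hp.hx s).continuousAt
  -- bounds for the abscissae of the strands
  have c1 : ∀ ρ ∈ Ioo (r 0) (r T), X₁ ρ ≤ x B := by
    intro ρ hρ
    obtain ⟨s, hs, e⟩ := a2 ρ hρ
    rw [← e, (a1 s hs).2.1]
    exact (hxx s ⟨by linarith [hs.1], by linarith [hs.2]⟩).2
  have c2 : ∀ ρ ∈ Ioo (r 0) (r T), X₂ ρ ≤ -x A := by
    intro ρ hρ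
    obtain ⟨s, hs, e⟩ := b2 ρ hρ
    rw [← e, (b1 s hs).2.1]
    rcases le_total s (A + L) with h1 | h1
    · linarith [(hxx s ⟨by linarith [hs.1], h1⟩).1]
    · have h2 := (hxx (s - L) ⟨by linarith, by linarith [hs.2]⟩).1
      have h3 := h.loop.px (s - L)
      rw [sub_add_cancel] at h3
      linarith
  -- the top crossing
  have hIVT : (0 : ℝ) ∈ Icc (x (A + L)) (x B) := by
    rw [h.loop.px]
    exact ⟨hxA.le, hxB.le⟩
  obtain ⟨κ, hκ, hxκ⟩ := intermediate_value_Icc' (by linarith : B ≤ A + L) hxc.continuousOn hIVT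
  have hκ' : κ ∈ Ioo B (A + L) := by
    constructor
    · rcases eq_or_lt_of_le hκ.1 with e | e
      · rw [← e] at hxκ
        linarith
      · exact e
    · rcases eq_or_lt_of_le hκ.2 with e | e
      · rw [e, h.loop.px] at hxκ
        linarith
      · exact e
  have hrκ := h.TBMain_top hA hB hκ' hxκ
  have hsq2 : √2 < 2 := by
    rw [sqrt_lt' (by norm_num)]
    norm_num
  -- the sum of the abscissae above the cylinder
  have d1 : ∀ ρ ∈ Ioo (r 0) (r T), 2 ≤ ρ ^ 2 → X₁ ρ + X₂ ρ < 4 := by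
    intro ρ hρ hρ2
    rcases le_or_gt 1 (-x A) with h1 | h1
    · linarith [w2 h1, c1 ρ hρ, c2 ρ hρ]
    · by_contra hcon
      rw [not_lt] at hcon
      have h3 : 3 < X₁ ρ := by linarith [c2 ρ hρ]
      obtain ⟨s, hs, e⟩ := a2 ρ hρ
      rw [← e, (a1 s hs).2.1] at h3
      have h4 := h.far hA hB hxκ hκ' hrκ s ⟨by linarith [hs.1], by linarith [hs.2]⟩ h3
      rw [e] at h4
      have h5 : √2 ≤ ρ := by
        rw [sqrt_le_left (by linarith [S₁.b0, hρ.1])]
        exact hρ2
      linarith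
  -- first comparison
  have k1 : ∀ ρ ∈ Ioo (r 0) (r T), Θ₂ ρ ≤ Θ₁ ρ :=
    tj_le S₁ S₂ fun ρ hρ _ => ⟨d1 ρ hρ, fun _ => lt_of_le_of_lt (c2 ρ hρ) w1⟩
  -- the top point is on the left
  have hrT : r κ ≤ r T := by
    have hrc : Continuous r := continuous_iff_continuousAt.mpr fun s => (hp.hr s).continuousAt
    rcases le_total κ T with h1 | h1
    · have hmono : MonotoneOn r (Icc 0 T) := by
        refine monotoneOn_of_deriv_nonneg (convex_Icc 0 T) hrc.continuousOn
          (fun s _ => (hp.hr s).differentiableAt.differentiableWithinAt) ?_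
        intro s hs
        rw [interior_Icc] at hs
        rw [(hp.hr s).deriv]
        have e1 := hm hs.1
        have e2 := hm hs.2
        rw [h0] at e1
        rw [hT] at e2
        exact (sin_pos_of_pos_of_lt_pi e1 e2).le
      exact hmono ⟨by linarith [hκ'.1], h1⟩ ⟨by linarith, le_rfl⟩ h1
    · have hanti : AntitoneOn r (Icc T L) := by
        refine antitoneOn_of_deriv_nonpos (convex_Icc T L) hrc.continuousOn
          (fun s _ => (hp.hr s).differentiableAt.differentiableWithinAt) ?_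
        intro s hs
        rw [interior_Icc] at hs
        rw [(hp.hr s).deriv]
        have e1 := hm hs.1
        have e2 := hm hs.2
        rw [hT] at e1
        rw [hθL] at e2
        have e3 : sin (θ s) = -sin (2 * π - θ s) := by rw [sin_two_pi_sub, neg_neg]
        rw [e3]
        exact neg_nonpos.2 (sin_pos_of_pos_of_lt_pi (by linarith) (by linarith)).le
      exact hanti ⟨le_rfl, hTL.le⟩ ⟨h1, by linarith [hκ'.2]⟩ h1
  have hxT : x T ≤ 0 := by
    have := top_le S₁ S₂ (by linarith) a4 b4 k1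
    linarith
  -- the right tip is narrow as well
  have hxB2 : x B < 2 := by
    obtain ⟨κ', hκ1, hκ2⟩ := intermediate_value_Icc' hBT.le hxc.continuousOn
      (⟨hxT, hxB.le⟩ : (0 : ℝ) ∈ Icc (x T) (x B))
    have h1 : B < κ' := by
      rcases eq_or_lt_of_le hκ1.1 with e | e
      · rw [← e] at hκ2
        linarith
      · exact e
    have h2 : π / 2 < θ κ' := by rw [← hB]; exact hm h1
    have h3 : θ κ' ≤ π := by rw [← hT]; exact hm.monotone hκ1.2
    exact (h.tipR hB hκ2 h2 h3).2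
  have k2 : ∀ ρ ∈ Ioo (r 0) (r T), Θ₁ ρ ≤ Θ₂ ρ :=
    tj_le S₂ S₁ fun ρ hρ _ => ⟨fun h2 => by linarith [d1 ρ hρ h2],
      fun _ => lt_of_le_of_lt (c1 ρ hρ) hxB2⟩
  have k3 := strand_eq S₁ S₂ fun ρ hρ => le_antisymm (k2 ρ hρ) (k1 ρ hρ)
  obtain ⟨ρ, hρ1, hρ2⟩ := exists_between S₁.bt
  have hρ : ρ ∈ Ioo (r 0) (r T) := ⟨hρ1, hρ2⟩
  obtain ⟨s, hs, es⟩ := a2 ρ hρ
  obtain ⟨s', hs', es'⟩ := b2 ρ hρ
  refine ⟨s, s', ?_, by rw [es, es'], ?_⟩
  · have e1 := (a1 s hs).2.1
    have e2 := (b1 s' hs').2.1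
    rw [es] at e1
    rw [es'] at e2
    have e3 := k3 ρ hρ
    linarith
  · have e1 := (a1 s hs).2.2
    have e2 := (b1 s' hs').2.2
    rw [es] at e1
    rw [es'] at e2
    have e3 := le_antisymm (k2 ρ hρ) (k1 ρ hρ)
    linarith

/-- if the flipped curve meets the curve in one tangent direction then they agree
(`profile_unique_mod`) -/
theorem CLoop.sym_of_point {x r θ : ℝ → ℝ} {L : ℝ} (h : CLoop x r θ L) {s s' : ℝ}
    (hx : x s' = -x s) (hr : r s' = r s) (hθ : θ s' = 2 * π - θ s) :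
    IsSym (range (fun s => (x s, r s))) := by
  obtain ⟨e1, e2, -⟩ := profile_unique_mod h.loop.prof (h.loop.prof.flip (s + s')) s
    (by
      show x s = -x (s + s' - s)
      rw [add_sub_cancel_left, hx, neg_neg])
    (by
      show r s = r (s + s' - s)
      rw [add_sub_cancel_left, hr])
    (by
      show cos (θ s) = cos (-θ (s + s' - s))
      rw [add_sub_cancel_left, hθ, cos_neg, cos_two_pi_sub])
    (by
      show sin (θ s) = sin (-θ (s + s' - s))
      rw [add_sub_cancel_left, hθ, sin_neg, sin_two_pi_sub, neg_neg])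
  rintro p ⟨t, rfl⟩
  refine ⟨s + s' - t, ?_⟩
  have a1 : x t = -x (s + s' - t) := congrFun e1 t
  have a2 : r t = r (s + s' - t) := congrFun e2 t
  simp only [a1, ← a2, neg_neg]

/-- **A convex closed profile is symmetric.** -/
theorem CLoop.sym {x r θ : ℝ → ℝ} {L : ℝ} (h : CLoop x r θ L) :
    IsSym (range (fun s => (x s, r s))) := by
  obtain ⟨δ, hδ⟩ := h.surj 0
  have h1 := h.shift δ 0
  have e : (fun s => θ (s + δ) + ((0 : ℤ) : ℝ) * (2 * π)) = fun s => θ (s + δ) := by
    funext s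
    simp
  rw [e] at h1
  -- the symmetry of the shifted curve
  have key : IsSym (range (fun s => (x (s + δ), r (s + δ)))) := by
    obtain ⟨T, hT⟩ := h1.surj π
    obtain ⟨A, hA⟩ := h1.surj (-(π / 2))
    obtain ⟨B, hB⟩ := h1.surj (π / 2)
    have h0 : (fun s => θ (s + δ)) 0 = 0 := by
      show θ (0 + δ) = 0
      rw [zero_add, hδ]
    rcases le_total (-x (A + δ)) (x (B + δ)) with hn | hn
    · obtain ⟨s, s', k1, k2, k3⟩ := h1.sym_aux h0 hT hA hB hn
      exact h1.sym_of_point k1 k2 k3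
    · have h2 := h1.flip 0
      obtain ⟨T', hT'⟩ := h2.surj π
      obtain ⟨s, s', k1, k2, k3⟩ := h2.sym_aux (T := T') (A := -B) (B := -A)
        (by
          show -θ (0 - 0 + δ) = 0
          rw [sub_zero]
          have : θ (0 + δ) = 0 := h0
          rw [this, neg_zero])
        hT'
        (by
          show -θ (0 - -B + δ) = -(π / 2)
          rw [zero_sub, neg_neg]
          have : θ (B + δ) = π / 2 := hB
          rw [this])
        (by
          show -θ (0 - -A + δ) = π / 2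
          rw [zero_sub, neg_neg]
          have : θ (A + δ) = -(π / 2) := hA
          rw [this, neg_neg])
        (by
          show -(-x (0 - -B + δ)) ≤ -x (0 - -A + δ)
          rw [zero_sub, neg_neg, zero_sub, neg_neg, neg_neg]
          exact hn)
      have h3 := h2.sym_of_point k1 k2 k3
      rintro p ⟨t, rfl⟩
      obtain ⟨t', e'⟩ := h3 (-x (t + δ), r (t + δ)) ⟨-t, by
        show (-x (0 - -t + δ), r (0 - -t + δ)) = _
        rw [zero_sub, neg_neg]⟩
      have e1 : -x (0 - t' + δ) = - -x (t + δ) := congrArg Prod.fst e'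
      have e2 : r (0 - t' + δ) = r (t + δ) := congrArg Prod.snd e'
      refine ⟨0 - t', ?_⟩
      show (x (0 - t' + δ), r (0 - t' + δ)) = (-x (t + δ), r (t + δ))
      rw [e2]
      have : x (0 - t' + δ) = -x (t + δ) := by linarith
      rw [this]
  have er : range (fun s => (x (s + δ), r (s + δ))) = range (fun s => (x s, r s)) := by
    ext v
    constructor
    · rintro ⟨s, rfl⟩
      exact ⟨s + δ, rfl⟩
    · rintro ⟨s, rfl⟩
      exact ⟨s - δ, by simp only [sub_add_cancel]⟩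
  rwa [er] at key

end AT
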