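import Pool.Agent.H.MP_ce2c94_gt.TBM

/-!
# Theorem P: strands which leave the axis downwards
-/

namespace AT

open Real Set Filter Topology

theorem TBP_aux1 {f : ℝ → ℝ} (hf : Continuous f) {a c : ℝ} (hac : a ≤ c) (ha : f a ≤ 0)
    (hc : 0 < f c) : ∃ s, a ≤ s ∧ s < c ∧ f s = 0 ∧ ∀ t ∈ Ioc s c, 0 < f t := by
  have hK : IsCompact (Icc a c ∩ f ⁻¹' Iic 0) :=
    isCompact_Icc.inter_right (isClosed_Iic.preimage hf)
  obtain ⟨s, hs1, hs2⟩ := hK.exists_isGreatest ⟨a, ⟨le_refl a, hac⟩, ha⟩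
  have hfs : f s ≤ 0 := hs1.2
  have hsc : s < c := by
    rcases lt_or_eq_of_le hs1.1.2 with h | h
    · exact h
    · rw [h] at hfs
      exact absurd hc (not_lt.mpr hfs)
  have hpos : ∀ t ∈ Ioc s c, 0 < f t := by
    intro t ht
    by_contra hcon
    have h1 : t ≤ s := hs2 ⟨⟨hs1.1.1.trans ht.1.le, ht.2⟩, not_lt.mp hcon⟩
    exact absurd ht.1 (not_lt.mpr h1)
  refine ⟨s, hs1.1.1, hsc, ?_, hpos⟩
  obtain ⟨t, ht, ht0⟩ := intermediate_value_Icc hsc.le hf.continuousOn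
    (⟨hfs, hc.le⟩ : (0 : ℝ) ∈ Icc (f s) (f c))
  rcases eq_or_lt_of_le ht.1 with h | h
  · rw [h]
    exact ht0
  · have h2 := hpos t ⟨h, ht.2⟩
    rw [ht0] at h2
    exact absurd h2 (lt_irrefl 0)

theorem TBP_aux2 {f : ℝ → ℝ} (hf : Continuous f) {c b : ℝ} (hcb : c ≤ b) (hb : f b ≤ 0)
    (hc : 0 < f c) : ∃ s, c < s ∧ s ≤ b ∧ f s = 0 ∧ ∀ t ∈ Ico c s, 0 < f t := by
  obtain ⟨s, h1, h2, h3, h4⟩ := TBP_aux1 (f := fun t => f (-t)) (hf.comp continuous_neg)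
    (a := -b) (c := -c) (by linarith) (by simpa using hb) (by simpa using hc)
  refine ⟨-s, by linarith, by linarith, h3, fun t ht => ?_⟩
  have h5 := h4 (-t) ⟨by linarith [ht.2], by linarith [ht.1]⟩
  simpa using h5

theorem TBP_anti {f f' : ℝ → ℝ} (h : ∀ s, HasDerivAt f (f' s) s) {a b : ℝ}
    (hn : ∀ s ∈ Icc a b, f' s ≤ 0) : AntitoneOn f (Icc a b) := by
  refine antitoneOn_of_deriv_nonpos (convex_Icc a b)
    (fun s _ => (h s).continuousAt.continuousWithinAt)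
    (fun s _ => (h s).differentiableAt.differentiableWithinAt) (fun s hs => ?_)
  rw [(h s).deriv]
  exact hn s (interior_subset hs)

theorem TBP_mono {f f' : ℝ → ℝ} (h : ∀ s, HasDerivAt f (f' s) s) {a b : ℝ}
    (hn : ∀ s ∈ Icc a b, 0 ≤ f' s) : MonotoneOn f (Icc a b) := by
  refine monotoneOn_of_deriv_nonneg (convex_Icc a b)
    (fun s _ => (h s).continuousAt.continuousWithinAt)
    (fun s _ => (h s).differentiableAt.differentiableWithinAt) (fun s hs => ?_)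
  rw [(h s).deriv]
  exact hn s (interior_subset hs)

/-- the angle is strictly decreasing up to the tip -/
theorem TBP_theta {x r θ : ℝ → ℝ} (h : IsProfile x r θ) {S : ℝ}
    (hc : ∀ s ∈ Ico 0 S, x s / 2 * sin (θ s) + (1 / r s - r s / 2) * cos (θ s) < 0) :
    StrictAntiOn θ (Icc 0 S) := by
  refine strictAntiOn_of_deriv_neg (convex_Icc 0 S)
    (fun s _ => (h.hθ s).continuousAt.continuousWithinAt) (fun s hs => ?_)
  rw [interior_Icc] at hs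
  rw [(h.hθ s).deriv]
  exact hc s ⟨hs.1.le, hs.2⟩

/-- the axial coordinate of the tip is positive -/
theorem TBP_xpos {x r θ : ℝ → ℝ} (h : IsProfile x r θ) {S : ℝ} (hx : x 0 = 0)
    (hS : TipDn θ S) : 0 < x S := by
  have h1 : StrictMonoOn x (Icc 0 S) := by
    refine strictMonoOn_of_deriv_pos (convex_Icc 0 S)
      (fun s _ => (h.hx s).continuousAt.continuousWithinAt) (fun s hs => ?_)
    rw [interior_Icc] at hs
    rw [(h.hx s).deriv]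
    have h2 := hS.2.1 s ⟨hs.1.le, hs.2⟩
    exact cos_pos_of_mem_Ioo ⟨h2.1, h2.2⟩
  have h3 := h1 ⟨le_refl 0, hS.1.le⟩ ⟨hS.1.le, le_refl S⟩ hS.1
  rwa [hx] at h3

theorem TBP_sin0 {θ : ℝ → ℝ} {S : ℝ} (ha : θ 0 ≤ 0) (hS : TipDn θ S) : sin (θ 0) ≤ 0 := by
  have h1 := hS.2.1 0 ⟨le_refl 0, hS.1⟩
  exact sin_nonpos_of_nonpos_of_neg_pi_le ha (by linarith [h1.1, pi_pos])

/-- On a convex strand which leaves the axis `x = 0` with angle `≤ 0` and turns down to the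
vertical, the radius is nonincreasing. Proof. `θ` is strictly decreasing on `[0, S]`
(derivative `< 0` on `[0, S)`), so `θ ∈ [-π/2, 0]`. `D0(0) = r sin θ ≤ 0`, `D0(S) = -r < 0`. If
`D0(s*) > 0`, let `s₁`, `s₂` be the nearest zeros of `D0` on both sides (IVT / `sSup`, `sInf`) and
apply `lemmaM`. -/
theorem tip_D0 {x r θ : ℝ → ℝ} (h : IsProfile x r θ) {S : ℝ} (hx : x 0 = 0) (ha : θ 0 ≤ 0)
    (hS : TipDn θ S)
    (hc : ∀ s ∈ Ico 0 S, x s / 2 * sin (θ s) + (1 / r s - r s / 2) * cos (θ s) < 0) :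
    ∀ s ∈ Icc 0 S, D0 (x s) (r s) (θ s) ≤ 0 := by
  intro c hcI
  by_contra hcon
  have hcpos : 0 < D0 (x c) (r c) (θ c) := not_le.mp hcon
  have hxc : Continuous x := continuous_iff_continuousAt.mpr fun s => (h.hx s).continuousAt
  have hrc : Continuous r := continuous_iff_continuousAt.mpr fun s => (h.hr s).continuousAt
  have hθc : Continuous θ := continuous_iff_continuousAt.mpr fun s => (h.hθ s).continuousAt
  have hf : Continuous (fun s => D0 (x s) (r s) (θ s)) := by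
    unfold D0
    fun_prop
  have hθ := TBP_theta h hc
  have h0 : D0 (x 0) (r 0) (θ 0) ≤ 0 := by
    unfold D0
    rw [hx, zero_mul, zero_add]
    exact mul_nonpos_of_nonneg_of_nonpos (h.pos 0).le (TBP_sin0 ha hS)
  have hSS : D0 (x S) (r S) (θ S) ≤ 0 := by
    unfold D0
    rw [hS.2.2, cos_neg, cos_pi_div_two, sin_neg, sin_pi_div_two]
    linarith [h.pos S]
  obtain ⟨s₁, h1a, h1b, h1c, h1d⟩ :=
    TBP_aux1 (f := fun s => D0 (x s) (r s) (θ s)) hf hcI.1 h0 hcpos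
  obtain ⟨s₂, h2a, h2b, h2c, h2d⟩ :=
    TBP_aux2 (f := fun s => D0 (x s) (r s) (θ s)) hf hcI.2 hSS hcpos
  have hsub : Icc s₁ s₂ ⊆ Icc 0 S := Icc_subset_Icc h1a h2b
  refine lemmaM h (h1b.trans h2a) (fun s hs => ?_) (hθ.mono hsub) h1c h2c (fun s hs => ?_)
  · have hs' := hsub hs
    have h3 : θ s ≤ θ 0 := hθ.antitoneOn ⟨le_refl 0, hS.1.le⟩ hs' hs'.1
    have h4 : θ S ≤ θ s := hθ.antitoneOn hs' ⟨hS.1.le, le_refl S⟩ hs'.2
    rw [hS.2.2] at h4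
    exact ⟨h4, h3.trans ha⟩
  · rcases le_or_gt s c with h5 | h5
    · exact h1d s ⟨hs.1, h5⟩
    · exact h2d s ⟨h5.le, hs.2⟩

/-- Proof. If `r 0 ≤ 2` then `R² ≤ 4` on `[0, S]` by `tip_D0` and `dR2`, so `λ Nh` is nondecreasing
(`dlamN`), `Nh = 0` at `0`, but `Nh = -x² r < 0` at `S` (`sin θ = -1`, `cos θ = 0`; `x S > 0`
because `x' = cos θ > 0` on (0, S)). -/
theorem tip_t {x r θ : ℝ → ℝ} (h : IsProfile x r θ) {S : ℝ} (hx : x 0 = 0) (ha : θ 0 ≤ 0)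
    (hS : TipDn θ S)
    (hc : ∀ s ∈ Ico 0 S, x s / 2 * sin (θ s) + (1 / r s - r s / 2) * cos (θ s) < 0) :
    2 < r 0 := by
  by_contra hcon
  have hr0 : r 0 ≤ 2 := not_lt.mp hcon
  have hD := tip_D0 h hx ha hS hc
  have hR : AntitoneOn (fun s => x s ^ 2 + r s ^ 2) (Icc 0 S) :=
    TBP_anti h.dR2 (fun s hs => by linarith [hD s hs])
  have hR4 : ∀ s ∈ Icc 0 S, x s ^ 2 + r s ^ 2 ≤ 4 := by
    intro s hs
    have h1 : x s ^ 2 + r s ^ 2 ≤ x 0 ^ 2 + r 0 ^ 2 := hR ⟨le_refl 0, hS.1.le⟩ hs hs.1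
    rw [hx] at h1
    nlinarith [h.pos 0]
  have hN : MonotoneOn (fun s => lamW (x s) (r s) * Nh (x s) (r s) (θ s)) (Icc 0 S) := by
    refine TBP_mono h.dlamN (fun s hs => ?_)
    have h1 := lamW_pos (x := x s) (h.pos s)
    have h2 := hR4 s hs
    exact mul_nonneg (mul_nonneg h1.le (sq_nonneg _)) (by linarith)
  have h1 : lamW (x 0) (r 0) * Nh (x 0) (r 0) (θ 0) ≤ lamW (x S) (r S) * Nh (x S) (r S) (θ S) :=
    hN ⟨le_refl 0, hS.1.le⟩ ⟨hS.1.le, le_refl S⟩ hS.1.le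
  have h2 : Nh (x 0) (r 0) (θ 0) = 0 := by
    unfold Nh
    rw [hx, zero_mul]
  have h3 : Nh (x S) (r S) (θ S) = -(x S ^ 2 * r S) := by
    unfold Nh
    rw [hS.2.2, cos_neg, cos_pi_div_two, sin_neg, sin_pi_div_two]
    ring
  rw [h2, h3, mul_zero] at h1
  have h4 : 0 < x S ^ 2 * r S := mul_pos (pow_pos (TBP_xpos h hx hS) 2) (h.pos S)
  have h5 := mul_pos (lamW_pos (x := x S) (h.pos S)) h4
  linarith

/-- Proof. Suppose `x S ≥ 2`. By `tip_D0` (`dR2`) `R² ≥ R²(S) > 4` on `[0, S]`, so `λ Mh` is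
nonincreasing (`dlamM`); `Mh(0) = 2 r sin θ ≤ 0`, but `Mh(S) = r (x² - 2) > 0` (`sin θ = -1`,
`cos θ = 0`). -/
theorem tip_X {x r θ : ℝ → ℝ} (h : IsProfile x r θ) {S : ℝ} (hx : x 0 = 0) (ha : θ 0 ≤ 0)
    (hS : TipDn θ S)
    (hc : ∀ s ∈ Ico 0 S, x s / 2 * sin (θ s) + (1 / r s - r s / 2) * cos (θ s) < 0) :
    x S < 2 := by
  by_contra hcon
  have hx2 : 2 ≤ x S := not_lt.mp hcon
  have hD := tip_D0 h hx ha hS hc
  have hR : AntitoneOn (fun s => x s ^ 2 + r s ^ 2) (Icc 0 S) :=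
    TBP_anti h.dR2 (fun s hs => by linarith [hD s hs])
  have hR4 : ∀ s ∈ Icc 0 S, 4 ≤ x s ^ 2 + r s ^ 2 := by
    intro s hs
    have h1 : x S ^ 2 + r S ^ 2 ≤ x s ^ 2 + r s ^ 2 := hR hs ⟨hS.1.le, le_refl S⟩ hs.2
    nlinarith [h.pos S]
  have hM : AntitoneOn (fun s => lamW (x s) (r s) * Mh (x s) (r s) (θ s)) (Icc 0 S) := by
    refine TBP_anti h.dlamM (fun s hs => ?_)
    have h1 := lamW_pos (x := x s) (h.pos s)
    have h2 := hR4 s hs
    exact mul_nonpos_of_nonneg_of_nonpos (mul_nonneg h1.le (sq_nonneg _)) (by linarith)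
  have h1 : lamW (x S) (r S) * Mh (x S) (r S) (θ S) ≤ lamW (x 0) (r 0) * Mh (x 0) (r 0) (θ 0) :=
    hM ⟨le_refl 0, hS.1.le⟩ ⟨hS.1.le, le_refl S⟩ hS.1.le
  have h2 : Mh (x 0) (r 0) (θ 0) ≤ 0 := by
    unfold Mh
    rw [hx]
    have h3 := mul_nonpos_of_nonneg_of_nonpos (h.pos 0).le (TBP_sin0 ha hS)
    linarith
  have h3 : Mh (x S) (r S) (θ S) = r S * (x S ^ 2 - 2) := by
    unfold Mh
    rw [hS.2.2, cos_neg, cos_pi_div_two, sin_neg, sin_pi_div_two]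
    ring
  have h4 : 0 < r S * (x S ^ 2 - 2) := mul_pos (h.pos S) (by nlinarith)
  have h5 := mul_pos (lamW_pos (x := x S) (h.pos S)) h4
  have h6 := mul_nonpos_of_nonneg_of_nonpos (lamW_pos (x := x 0) (h.pos 0)).le h2
  rw [h3] at h1
  linarith

end AT
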