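import Pool.Agent.H.MP_ce2c94_gt.TBP
import Pool.Agent.H.MP_ce2c94_gt.TBBase

/-!
# Theorem P for convex closed profiles
-/

namespace AT

open Real Set Filter Topology

/-- Theorem P on the right side. (Reversed curve `s ↦ (x (κ - s), r (κ - s), θ (κ - s) - π)`,
`IsProfile.reverse'`, `S = κ - B`; `tip_t`, `tip_X`.) -/
theorem CLoop.tipR {x r θ : ℝ → ℝ} {L κ B : ℝ} (h : CLoop x r θ L) (hB : θ B = π / 2)
    (hκ : x κ = 0) (h1 : π / 2 < θ κ) (h2 : θ κ ≤ π) : 2 < r κ ∧ x B < 2 := by
  have hm := h.mono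
  have hBκ : B < κ := by
    have : θ B < θ κ := by rw [hB]; exact h1
    exact hm.lt_iff_lt.mp this
  have hp := (h.loop.prof).reverse' κ
  have hx0 : (fun s => x (κ - s)) 0 = 0 := by simpa using hκ
  have ha : (fun s => θ (κ - s) - π) 0 ≤ 0 := by
    simp only [sub_zero]
    linarith
  have hS : TipDn (fun s => θ (κ - s) - π) (κ - B) := by
    refine ⟨by linarith, fun s hs => ?_, ?_⟩
    · have h3 : θ B < θ (κ - s) := hm (by linarith [hs.2])
      have h4 : θ (κ - s) ≤ θ κ := hm.monotone (by linarith [hs.1])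
      rw [hB] at h3
      refine ⟨?_, ?_⟩
      · show -(π / 2) < θ (κ - s) - π
        linarith
      · show θ (κ - s) - π < π / 2
        linarith [pi_pos]
    · show θ (κ - (κ - B)) - π = -(π / 2)
      rw [sub_sub_cancel, hB]
      ring
  have hc : ∀ s ∈ Ico 0 (κ - B), (fun s => x (κ - s)) s / 2 * sin ((fun s => θ (κ - s) - π) s) +
      (1 / (fun s => r (κ - s)) s - (fun s => r (κ - s)) s / 2) *
        cos ((fun s => θ (κ - s) - π) s) < 0 := by
    intro s _
    have h3 := h.conv (κ - s)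
    simp only [sin_sub_pi, cos_sub_pi]
    linarith
  refine ⟨?_, ?_⟩
  · have := tip_t hp hx0 ha hS hc
    simpa using this
  · have := tip_X hp hx0 ha hS hc
    simpa using this

/-- Theorem P on the left side. (Reflected curve `s ↦ (-x (κ + s), r (κ + s), π - θ (κ + s))`,
`IsProfile.reflect`, `IsProfile.shift`, `S = A' - κ`.) -/
theorem CLoop.tipL {x r θ : ℝ → ℝ} {L κ A' : ℝ} (h : CLoop x r θ L) (hA : θ A' = 3 * π / 2)
    (hκ : x κ = 0) (h1 : π ≤ θ κ) (h2 : θ κ < 3 * π / 2) : 2 < r κ ∧ -x A' < 2 := by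
  have hm := h.mono
  have hκA : κ < A' := by
    have : θ κ < θ A' := by rw [hA]; exact h2
    exact hm.lt_iff_lt.mp this
  have hp := ((h.loop.prof).shift κ 0).reflect
  have hx0 : (fun s => -(fun s => x (s + κ)) s) 0 = 0 := by simpa using hκ
  have ha : (fun s => π - (fun s => θ (s + κ) + ((0 : ℤ) : ℝ) * (2 * π)) s) 0 ≤ 0 := by
    simp only [zero_add, Int.cast_zero, zero_mul, add_zero]
    linarith
  have hS : TipDn (fun s => π - (fun s => θ (s + κ) + ((0 : ℤ) : ℝ) * (2 * π)) s) (A' - κ) := by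
    refine ⟨by linarith, fun s hs => ?_, ?_⟩
    · have h3 : θ κ ≤ θ (s + κ) := hm.monotone (by linarith [hs.1])
      have h4 : θ (s + κ) < θ A' := hm (by linarith [hs.2])
      rw [hA] at h4
      simp only [Int.cast_zero, zero_mul, add_zero]
      refine ⟨?_, ?_⟩
      · linarith
      · linarith [pi_pos]
    · simp only [Int.cast_zero, zero_mul, add_zero, sub_add_cancel]
      rw [hA]
      ring
  have hc : ∀ s ∈ Ico 0 (A' - κ), (fun s => -(fun s => x (s + κ)) s) s / 2 *
      sin ((fun s => π - (fun s => θ (s + κ) + ((0 : ℤ) : ℝ) * (2 * π)) s) s) +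
      (1 / (fun s => r (s + κ)) s - (fun s => r (s + κ)) s / 2) *
        cos ((fun s => π - (fun s => θ (s + κ) + ((0 : ℤ) : ℝ) * (2 * π)) s) s) < 0 := by
    intro s _
    have h3 := h.conv (s + κ)
    simp only [Int.cast_zero, zero_mul, add_zero, sin_pi_sub, cos_pi_sub]
    linarith
  refine ⟨?_, ?_⟩
  · have := tip_t hp hx0 ha hS hc
    simpa using this
  · have := tip_X hp hx0 ha hS hc
    simpa using this

end AT
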