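import Pool.Agent.H.MP_ce2c94_gt.TC

/-!
# Time change for the upper system
-/

namespace AT

open Real Set

theorem TCU_cos (τ : ℝ) : cos (-(2 * arctan τ)) = (1 - τ ^ 2) / (1 + τ ^ 2) := by
  have h : 0 < 1 + τ ^ 2 := by positivity
  rw [cos_neg, cos_two_mul, cos_sq_arctan]
  field_simp
  ring

theorem TCU_sin (τ : ℝ) : sin (-(2 * arctan τ)) = -(2 * τ / (1 + τ ^ 2)) := by
  have h : 0 < 1 + τ ^ 2 := by positivity
  have h2 : sqrt (1 + τ ^ 2) * sqrt (1 + τ ^ 2) = 1 + τ ^ 2 := mul_self_sqrt h.le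
  have h3 : sqrt (1 + τ ^ 2) ≠ 0 := (sqrt_pos.2 h).ne'
  rw [sin_neg, sin_two_mul, sin_arctan, cos_arctan]
  congr 1
  rw [mul_assoc, div_mul_div_comm, h2, mul_one, mul_div_assoc]

/-- **Time change, upper system**: `time_change` with `g τ = 2 / KU τ (X τ) (R τ)`,
`Θ τ = -2 arctan τ`. -/
theorem tc_up {T : ℝ} (hT : 0 < T) {X R : ℝ → ℝ} (h : TauUp T X R) {x r θ : ℝ → ℝ}
    (hp : IsProfile x r θ) (hx : x 0 = X 0) (hr : r 0 = R 0) (hθ : θ 0 = 0) :
    ∃ S, 0 < S ∧ x S = X T ∧ r S = R T ∧ θ S = -(2 * arctan T) ∧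
      ∀ s ∈ Icc 0 S, ∃ τ ∈ Icc 0 T, x s = X τ ∧ r s = R τ ∧ θ s = -(2 * arctan τ) ∧
        (s < S → τ < T) ∧ (0 < s → 0 < τ) := by
  have hK : ∀ τ ∈ Icc 0 T, 0 < KU τ (X τ) (R τ) := fun τ hτ =>
    lt_of_lt_of_le (by norm_num) (h.K τ hτ)
  have cX : ContinuousOn X (Icc 0 T) := fun τ hτ => (h.dX τ hτ).continuousWithinAt
  have cR : ContinuousOn R (Icc 0 T) := fun τ hτ => (h.dR τ hτ).continuousWithinAt
  have cK : ContinuousOn (fun τ => KU τ (X τ) (R τ)) (Icc 0 T) := by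
    unfold KU
    refine (cX.mul continuousOn_id).add ((ContinuousOn.sub continuousOn_const
      (continuousOn_id.pow 2)).mul ((cR.div_const 2).sub (continuousOn_const.div cR ?_)))
    intro τ hτ
    exact (h.pos τ hτ).ne'
  refine time_change hT (g := fun τ => 2 / KU τ (X τ) (R τ)) (X := X) (R := R)
    (Θ := fun τ => -(2 * arctan τ)) (continuousOn_const.div cK fun τ hτ => (hK τ hτ).ne')
    (fun τ hτ => div_pos two_pos (hK τ hτ)) h.pos ?_ ?_ ?_ hp hx hr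
    (by simpa using hθ)
  · intro τ hτ
    have h1 := h.dX τ hτ
    have h2 : 0 < 1 + τ ^ 2 := by positivity
    have h3 := (hK τ hτ).ne'
    refine h1.congr_deriv ?_
    show _ = 2 / KU τ (X τ) (R τ) * cos (-(2 * arctan τ))
    rw [TCU_cos]
    field_simp
  · intro τ hτ
    have h1 := h.dR τ hτ
    have h2 : 0 < 1 + τ ^ 2 := by positivity
    have h3 := (hK τ hτ).ne'
    refine h1.congr_deriv ?_
    show _ = 2 / KU τ (X τ) (R τ) * sin (-(2 * arctan τ))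
    rw [TCU_sin]
    field_simp
    ring
  · intro τ hτ
    have h2 : 0 < 1 + τ ^ 2 := by positivity
    have h3 := (hK τ hτ).ne'
    have h4 := (h.pos τ hτ).ne'
    have h5 : HasDerivAt (fun τ : ℝ => -(2 * arctan τ)) (-(2 * (1 / (1 + τ ^ 2)))) τ :=
      ((hasDerivAt_arctan τ).const_mul 2).neg
    refine h5.hasDerivWithinAt.congr_deriv ?_
    show _ = 2 / KU τ (X τ) (R τ) * (X τ / 2 * sin (-(2 * arctan τ)) +
      (1 / R τ - R τ / 2) * cos (-(2 * arctan τ)))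
    rw [TCU_sin, TCU_cos]
    have h6 : X τ / 2 * -(2 * τ / (1 + τ ^ 2)) + (1 / R τ - R τ / 2) * ((1 - τ ^ 2) / (1 + τ ^ 2)) =
        -(KU τ (X τ) (R τ) / (1 + τ ^ 2)) := by
      unfold KU
      field_simp
      ring
    rw [h6]
    field_simp

theorem tip_up {X R : ℝ → ℝ} (h : TauUp 1 X R) (hX : X 0 = 0) {x r θ : ℝ → ℝ}
    (hf : From (R 0) x r θ) : ∃ S, TipDn θ S ∧ x S = X 1 ∧ r S = R 1 := by
  obtain ⟨S, hS, h1, h2, h3, h4⟩ := tc_up one_pos h hf.prof (hf.x0.trans hX.symm) hf.r0 hf.θ0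
  have h5 : -(2 * arctan (1 : ℝ)) = -(π / 2) := by
    rw [arctan_one]
    ring
  refine ⟨S, ⟨hS, ?_, h3.trans h5⟩, h1, h2⟩
  intro s hs
  obtain ⟨τ, hτ, -, -, h6, h7, -⟩ := h4 s ⟨hs.1, hs.2.le⟩
  have h8 := h7 hs.2
  have h9 : arctan τ < arctan 1 := arctan_strictMono h8
  have h10 : 0 ≤ arctan τ := by
    have := arctan_mono hτ.1
    rwa [arctan_zero] at this
  rw [arctan_one] at h9
  have hpi := Real.pi_pos
  rw [h6]
  constructor
  · linarith
  · linarith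

end AT
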