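import Pool.Agent.H.MP_ce2c94_gt.JLem
import Pool.Agent.H.MP_ce2c94_gt.Defs

/-!
# Two-point maximum principle: derivatives along a line and the algebra
-/

namespace AT

open Real Set Filter Topology

theorem TFa_comp {f : ℝ → ℝ} {f' s ξ τ : ℝ} (h : HasDerivAt f f' (s + ξ * τ)) :
    HasDerivAt (fun τ => f (s + ξ * τ)) (f' * ξ) τ := by
  have h1 : HasDerivAt (fun τ : ℝ => s + ξ * τ) ξ τ := by
    have := ((hasDerivAt_id τ).const_mul ξ).const_add s
    rwa [mul_one] at this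
  exact HasDerivAt.comp τ h h1

/-- first and second derivative along a line at a local minimum -/
theorem TF_line {x r θ : ℝ → ℝ} (h : IsProfile x r θ) (s t μ ξ η : ℝ)
    (hmin : IsLocalMin (fun τ => (x (s + ξ * τ) - x (t + η * τ)) ^ 2 +
      (r (s + ξ * τ) - r (t + η * τ)) ^ 2 - μ * (x (s + ξ * τ) * x (t + η * τ))) 0) :
    2 * (x s - x t) * (cos (θ s) * ξ - cos (θ t) * η) +
      2 * (r s - r t) * (sin (θ s) * ξ - sin (θ t) * η) -
      μ * (cos (θ s) * ξ * x t + x s * (cos (θ t) * η)) = 0 ∧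
    0 ≤ 2 * (cos (θ s) * ξ - cos (θ t) * η) ^ 2 + 2 * (sin (θ s) * ξ - sin (θ t) * η) ^ 2 -
      2 * μ * (cos (θ s) * ξ) * (cos (θ t) * η) +
      2 * (x s - x t) * (-(sin (θ s) * (x s / 2 * sin (θ s) + (1 / r s - r s / 2) *
        cos (θ s))) * ξ ^ 2 + sin (θ t) * (x t / 2 * sin (θ t) + (1 / r t - r t / 2) *
        cos (θ t)) * η ^ 2) +
      2 * (r s - r t) * (cos (θ s) * (x s / 2 * sin (θ s) + (1 / r s - r s / 2) *
        cos (θ s)) * ξ ^ 2 - cos (θ t) * (x t / 2 * sin (θ t) + (1 / r t - r t / 2) *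
        cos (θ t)) * η ^ 2) +
      μ * (sin (θ s) * (x s / 2 * sin (θ s) + (1 / r s - r s / 2) * cos (θ s)) * ξ ^ 2 * x t +
        x s * (sin (θ t) * (x t / 2 * sin (θ t) + (1 / r t - r t / 2) * cos (θ t)) * η ^ 2)) := by
  have hx1 : ∀ τ, HasDerivAt (fun τ => x (s + ξ * τ)) (cos (θ (s + ξ * τ)) * ξ) τ :=
    fun τ => TFa_comp (h.hx _)
  have hx2 : ∀ τ, HasDerivAt (fun τ => x (t + η * τ)) (cos (θ (t + η * τ)) * η) τ :=
    fun τ => TFa_comp (h.hx _)
  have hr1 : ∀ τ, HasDerivAt (fun τ => r (s + ξ * τ)) (sin (θ (s + ξ * τ)) * ξ) τ :=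
    fun τ => TFa_comp (h.hr _)
  have hr2 : ∀ τ, HasDerivAt (fun τ => r (t + η * τ)) (sin (θ (t + η * τ)) * η) τ :=
    fun τ => TFa_comp (h.hr _)
  have ht1 : HasDerivAt (fun τ => θ (s + ξ * τ))
      ((x s / 2 * sin (θ s) + (1 / r s - r s / 2) * cos (θ s)) * ξ) 0 := by
    have := TFa_comp (s := s) (ξ := ξ) (τ := 0) (h.hθ (s + ξ * 0))
    simpa only [mul_zero, add_zero] using this
  have ht2 : HasDerivAt (fun τ => θ (t + η * τ))
      ((x t / 2 * sin (θ t) + (1 / r t - r t / 2) * cos (θ t)) * η) 0 := by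
    have := TFa_comp (s := t) (ξ := η) (τ := 0) (h.hθ (t + η * 0))
    simpa only [mul_zero, add_zero] using this
  have hd : ∀ τ, HasDerivAt (fun τ => (x (s + ξ * τ) - x (t + η * τ)) ^ 2 +
      (r (s + ξ * τ) - r (t + η * τ)) ^ 2 - μ * (x (s + ξ * τ) * x (t + η * τ)))
      (2 * (x (s + ξ * τ) - x (t + η * τ)) * (cos (θ (s + ξ * τ)) * ξ -
        cos (θ (t + η * τ)) * η) + 2 * (r (s + ξ * τ) - r (t + η * τ)) *
        (sin (θ (s + ξ * τ)) * ξ - sin (θ (t + η * τ)) * η) -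
        μ * (cos (θ (s + ξ * τ)) * ξ * x (t + η * τ) + x (s + ξ * τ) *
        (cos (θ (t + η * τ)) * η))) τ := by
    intro τ
    refine (((((hx1 τ).sub (hx2 τ)).pow 2).add (((hr1 τ).sub (hr2 τ)).pow 2)).sub
      (((hx1 τ).mul (hx2 τ)).const_mul μ)).congr_deriv ?_
    simp only [Pi.sub_apply]
    ring
  have h0 := hmin.hasDerivAt_eq_zero (hd 0)
  have hc1 := ht1.cos
  have hs1 := ht1.sin
  have hc2 := ht2.cos
  have hs2 := ht2.sin
  have hG := ((((hx1 0).sub (hx2 0)).const_mul 2).mul ((hc1.mul_const ξ).sub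
    (hc2.mul_const η))).add ((((hr1 0).sub (hr2 0)).const_mul 2).mul ((hs1.mul_const ξ).sub
    (hs2.mul_const η))) |>.sub ((((hc1.mul_const ξ).mul (hx2 0)).add
    ((hx1 0).mul (hc2.mul_const η))).const_mul μ)
  simp only [Pi.sub_apply, mul_zero, add_zero] at h0 hG
  refine ⟨by linarith, ?_⟩
  by_contra hneg
  push Not at hneg
  refine second_deriv_max (J := fun τ => -((x (s + ξ * τ) - x (t + η * τ)) ^ 2 +
      (r (s + ξ * τ) - r (t + η * τ)) ^ 2 - μ * (x (s + ξ * τ) * x (t + η * τ))))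
      (P := fun τ => -(2 * (x (s + ξ * τ) - x (t + η * τ)) * (cos (θ (s + ξ * τ)) * ξ -
        cos (θ (t + η * τ)) * η) + 2 * (r (s + ξ * τ) - r (t + η * τ)) *
        (sin (θ (s + ξ * τ)) * ξ - sin (θ (t + η * τ)) * η) -
        μ * (cos (θ (s + ξ * τ)) * ξ * x (t + η * τ) + x (s + ξ * τ) *
        (cos (θ (t + η * τ)) * η)))) (a := 0)
      (Eventually.of_forall fun τ => (hd τ).neg) ?_ hG.neg ?_ ?_
  · simp only [mul_zero, add_zero]
    rw [h0, neg_zero]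
  · refine lt_of_lt_of_eq (neg_pos.2 hneg) ?_
    ring
  · exact hmin.neg

end AT
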