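import Pool.Agent.H.MP_ce2c94_gt.TFa

/-!
# Two-point maximum principle: the algebra
-/

namespace AT

open Real Set Filter Topology

/-- the algebra of the two-point maximum principle: `X`, `Y` the abscissae, `R`, `S` the heights,
`(c₁, s₁)`, `(c₂, s₂)` the unit tangents, `k₁`, `k₂` the curvatures -/
theorem TF_alg {X Y R S c₁ s₁ c₂ s₂ k₁ k₂ μ : ℝ} (hX : 0 < X) (hY : 0 < Y) (hR : 0 < R)
    (hS : 0 < S) (hμ : 0 < μ) (e₁ : c₁ ^ 2 + s₁ ^ 2 = 1) (e₂ : c₂ ^ 2 + s₂ ^ 2 = 1)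
    (hD : (X - Y) ^ 2 + (R - S) ^ 2 = μ * (X * Y))
    (f₁ : 2 * (X - Y) * c₁ + 2 * (R - S) * s₁ - μ * (c₁ * Y) = 0)
    (f₂ : -(2 * (X - Y) * c₂) - 2 * (R - S) * s₂ - μ * (X * c₂) = 0)
    (hk₁ : k₁ = X / 2 * s₁ + (1 / R - R / 2) * c₁) (hk₂ : k₂ = Y / 2 * s₂ + (1 / S - S / 2) * c₂)
    (Q : ∀ ξ η : ℝ, 0 ≤ 2 * (c₁ * ξ - c₂ * η) ^ 2 + 2 * (s₁ * ξ - s₂ * η) ^ 2 -
      2 * μ * (c₁ * ξ) * (c₂ * η) + 2 * (X - Y) * (-(s₁ * k₁) * ξ ^ 2 + s₂ * k₂ * η ^ 2) +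
      2 * (R - S) * (c₁ * k₁ * ξ ^ 2 - c₂ * k₂ * η ^ 2) +
      μ * (s₁ * k₁ * ξ ^ 2 * Y + X * (s₂ * k₂ * η ^ 2))) : False := by
  obtain ⟨a, ha⟩ : ∃ a, a = -(2 * (X - Y) - μ * Y) * s₁ + 2 * (R - S) * c₁ := ⟨_, rfl⟩
  obtain ⟨b, hb⟩ : ∃ b, b = -(2 * (X - Y) + μ * X) * s₂ + 2 * (R - S) * c₂ := ⟨_, rfl⟩
  have E1 : 2 * (X - Y) - μ * Y = -(a * s₁) := by
    rw [ha]
    linear_combination (-(2 * (X - Y) - μ * Y)) * e₁ + c₁ * f₁
  have E2 : 2 * (R - S) = a * c₁ := by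
    rw [ha]
    linear_combination (-(2 * (R - S))) * e₁ + s₁ * f₁
  have E3 : 2 * (X - Y) + μ * X = -(b * s₂) := by
    rw [hb]
    linear_combination (-(2 * (X - Y) + μ * X)) * e₂ - c₂ * f₂
  have E4 : 2 * (R - S) = b * c₂ := by
    rw [hb]
    linear_combination (-(2 * (R - S))) * e₂ - s₂ * f₂
  have ha2 : a ^ 2 = Y ^ 2 * (4 * μ + μ ^ 2) := by
    have : a ^ 2 = (2 * (X - Y) - μ * Y) ^ 2 + (2 * (R - S)) ^ 2 := by
      rw [E1, E2]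
      linear_combination (-(a ^ 2)) * e₁
    rw [this]
    linear_combination 4 * hD
  have hb2 : b ^ 2 = X ^ 2 * (4 * μ + μ ^ 2) := by
    have : b ^ 2 = (2 * (X - Y) + μ * X) ^ 2 + (2 * (R - S)) ^ 2 := by
      rw [E3, E4]
      linear_combination (-(b ^ 2)) * e₂
    rw [this]
    linear_combination 4 * hD
  have hcc : a * b * (c₁ * c₂) = 4 * (R - S) ^ 2 := by
    have : a * b * (c₁ * c₂) = (a * c₁) * (b * c₂) := by ring
    rw [this, ← E2, ← E4]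
    ring
  have hss : a * b * (s₁ * s₂) = (2 * (X - Y) - μ * Y) * (2 * (X - Y) + μ * X) := by
    rw [E1, E3]
    ring
  -- the form in the adapted directions
  have key : ∀ v w : ℝ, 0 ≤ (2 - X * (X - Y) + μ * (X * Y) / 2 + 2 * (1 / R - R / 2) * (R - S)) *
      v ^ 2 - 4 * v * w +
      (2 + Y * (X - Y) + μ * (X * Y) / 2 - 2 * (1 / S - S / 2) * (R - S)) * w ^ 2 := by
    intro v w
    have h1 := Q (a * X * v) (b * Y * w)
    have hk1 : a * k₁ = -(X / 2) * (2 * (X - Y) - μ * Y) + (1 / R - R / 2) * (2 * (R - S)) := by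
      rw [hk₁, E1, E2]
      ring
    have hk2 : b * k₂ = -(Y / 2) * (2 * (X - Y) + μ * X) + (1 / S - S / 2) * (2 * (R - S)) := by
      rw [hk₂, E3, E4]
      ring
    have h2 : 2 * (c₁ * (a * X * v) - c₂ * (b * Y * w)) ^ 2 +
        2 * (s₁ * (a * X * v) - s₂ * (b * Y * w)) ^ 2 -
        2 * μ * (c₁ * (a * X * v)) * (c₂ * (b * Y * w)) +
        2 * (X - Y) * (-(s₁ * k₁) * (a * X * v) ^ 2 + s₂ * k₂ * (b * Y * w) ^ 2) +
        2 * (R - S) * (c₁ * k₁ * (a * X * v) ^ 2 - c₂ * k₂ * (b * Y * w) ^ 2) +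
        μ * (s₁ * k₁ * (a * X * v) ^ 2 * Y + X * (s₂ * k₂ * (b * Y * w) ^ 2)) =
        2 * a ^ 2 * X ^ 2 * v ^ 2 * (c₁ ^ 2 + s₁ ^ 2) + 2 * b ^ 2 * Y ^ 2 * w ^ 2 *
          (c₂ ^ 2 + s₂ ^ 2) - 4 * X * Y * v * w * (a * b * (c₁ * c₂) + a * b * (s₁ * s₂)) -
        2 * μ * X * Y * v * w * (a * b * (c₁ * c₂)) +
        X ^ 2 * v ^ 2 * a * (a * k₁) * (-(2 * (X - Y) - μ * Y) * s₁ + 2 * (R - S) * c₁) -
        Y ^ 2 * w ^ 2 * b * (b * k₂) * (-(2 * (X - Y) + μ * X) * s₂ + 2 * (R - S) * c₂) := by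
      ring
    rw [h2, e₁, e₂, hcc, hss, hk1, hk2, ← ha, ← hb] at h1
    have h3 : 0 < μ * (4 + μ) * X ^ 2 * Y ^ 2 := by positivity
    have h4 : 2 * a ^ 2 * X ^ 2 * v ^ 2 * 1 + 2 * b ^ 2 * Y ^ 2 * w ^ 2 * 1 -
        4 * X * Y * v * w * (4 * (R - S) ^ 2 + (2 * (X - Y) - μ * Y) * (2 * (X - Y) + μ * X)) -
        2 * μ * X * Y * v * w * (4 * (R - S) ^ 2) +
        X ^ 2 * v ^ 2 * a * (-(X / 2) * (2 * (X - Y) - μ * Y) + (1 / R - R / 2) * (2 * (R - S))) *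
          a - Y ^ 2 * w ^ 2 * b *
          (-(Y / 2) * (2 * (X - Y) + μ * X) + (1 / S - S / 2) * (2 * (R - S))) * b =
        μ * (4 + μ) * X ^ 2 * Y ^ 2 *
          ((2 - X * (X - Y) + μ * (X * Y) / 2 + 2 * (1 / R - R / 2) * (R - S)) *
          v ^ 2 - 4 * v * w +
          (2 + Y * (X - Y) + μ * (X * Y) / 2 - 2 * (1 / S - S / 2) * (R - S)) * w ^ 2) := by
      linear_combination (2 * X ^ 2 * v ^ 2 + X ^ 2 * v ^ 2 *
        (-(X / 2) * (2 * (X - Y) - μ * Y) + (1 / R - R / 2) * (2 * (R - S)))) * ha2 +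
        (2 * Y ^ 2 * w ^ 2 - Y ^ 2 * w ^ 2 *
        (-(Y / 2) * (2 * (X - Y) + μ * X) + (1 / S - S / 2) * (2 * (R - S)))) * hb2 -
        (16 * X * Y * v * w + 8 * μ * X * Y * v * w) * hD
    rw [h4] at h1
    exact nonneg_of_mul_nonneg_right h1 h3
  have hsum : (2 - X * (X - Y) + μ * (X * Y) / 2 + 2 * (1 / R - R / 2) * (R - S)) * 1 ^ 2 -
      4 * 1 * 1 + (2 + Y * (X - Y) + μ * (X * Y) / 2 - 2 * (1 / S - S / 2) * (R - S)) * 1 ^ 2 =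
      -(2 * (R - S) ^ 2 / (R * S)) := by
    field_simp
    linear_combination (-(2 * (R * S))) * hD
  have h1 := key 1 1
  rw [hsum] at h1
  have h5 : 0 ≤ 2 * (R - S) ^ 2 / (R * S) := by positivity
  have h6 : 2 * (R - S) ^ 2 / (R * S) = 0 := le_antisymm (by linarith) h5
  have hRS : R = S := by
    rcases div_eq_zero_iff.mp h6 with h | h
    · have : (R - S) ^ 2 = 0 := by linarith
      have := pow_eq_zero_iff (two_ne_zero) |>.mp this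
      linarith
    · exact absurd h (by positivity)
  subst hRS
  have hXY : X - Y ≠ 0 := by
    intro h
    rw [h] at hD
    have : 0 < μ * (X * Y) := by positivity
    simp at hD
    rcases hD with h | h | h <;> linarith
  obtain ⟨g, hg⟩ : ∃ g, g = (X - Y) * (X + Y) / 2 := ⟨_, rfl⟩
  have hg0 : g ≠ 0 := by
    rw [hg]
    have : X + Y ≠ 0 := by positivity
    positivity
  have h7 := key (1 + g / 4) (1 - g / 4)
  have h8 : (2 - X * (X - Y) + μ * (X * Y) / 2 + 2 * (1 / R - R / 2) * (R - R)) *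
      (1 + g / 4) ^ 2 - 4 * (1 + g / 4) * (1 - g / 4) +
      (2 + Y * (X - Y) + μ * (X * Y) / 2 - 2 * (1 / R - R / 2) * (R - R)) * (1 - g / 4) ^ 2 =
      -(g ^ 2 / 2) := by
    rw [hg]
    linear_combination (-((1 + (X - Y) * (X + Y) / 2 / 4) ^ 2 / 2 +
      (1 - (X - Y) * (X + Y) / 2 / 4) ^ 2 / 2)) * hD
  rw [h8] at h7
  have : 0 < g ^ 2 := by positivity
  linarith

end AT
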