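import Mathlib

/-!
# The arctan inequalities of the theta-J-lemma
-/

namespace AT

open Real Set

/-- `arctan c₁ - arctan c₂ ≤ (c₁ - c₂) / L` if `L ≤ 1 + c²` between -/
theorem tj_at5 {c1 c2 L : ℝ} (hc : c2 ≤ c1) (h : ∀ c ∈ Icc c2 c1, L ≤ 1 + c ^ 2) :
    (arctan c1 - arctan c2) * L ≤ c1 - c2 := by
  have key : MonotoneOn (fun t : ℝ => t - L * arctan t) (Icc c2 c1) := by
    have hd : ∀ t : ℝ, HasDerivAt (fun t : ℝ => t - L * arctan t)
        (1 - L * (1 / (1 + t ^ 2))) t := by
      intro t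
      exact (hasDerivAt_id t).sub ((hasDerivAt_arctan t).const_mul L)
    refine monotoneOn_of_deriv_nonneg (convex_Icc c2 c1)
      (fun x _ => (hd x).continuousAt.continuousWithinAt)
      (fun x _ => (hd x).differentiableAt.differentiableWithinAt) ?_
    intro x hx
    rw [interior_Icc] at hx
    rw [(hd x).deriv]
    have h3 := h x ⟨hx.1.le, hx.2.le⟩
    have h4 : (0 : ℝ) < 1 + x ^ 2 := by positivity
    rw [mul_one_div, sub_nonneg, div_le_one h4]
    exact h3
  have := key (left_mem_Icc.2 hc) (right_mem_Icc.2 hc) hc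
  simp only at this
  linarith

/-- `arctan g ≤ g` -/
theorem tj_at0 {g : ℝ} (hg : 0 ≤ g) : arctan g ≤ g := by
  have := tj_at5 (L := 1) hg (fun c _ => by nlinarith [sq_nonneg c])
  rw [arctan_zero] at this
  linarith

/-- `(1 + g²) arctan g ≤ g + 2 g³ / 3` for `g ≥ 0` -/
theorem tj_at1 {g : ℝ} (hg : 0 ≤ g) : (1 + g ^ 2) * arctan g ≤ g + 2 * g ^ 3 / 3 := by
  have key : MonotoneOn (fun g : ℝ => g + 2 * g ^ 3 / 3 - (1 + g ^ 2) * arctan g) (Ici 0) := by
    have hd : ∀ g : ℝ, HasDerivAt (fun g : ℝ => g + 2 * g ^ 3 / 3 - (1 + g ^ 2) * arctan g)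
        (2 * g * (g - arctan g)) g := by
      intro g
      have h1 : HasDerivAt (fun g : ℝ => g + 2 * g ^ 3 / 3) (1 + 2 * (3 * g ^ 2) / 3) g := by
        have := (hasDerivAt_id g).add (((hasDerivAt_pow 3 g).const_mul 2).div_const 3)
        refine this.congr_deriv ?_
        norm_num
      have h2 : HasDerivAt (fun g : ℝ => (1 + g ^ 2) * arctan g)
          (2 * g * arctan g + (1 + g ^ 2) * (1 / (1 + g ^ 2))) g := by
        have := ((hasDerivAt_pow 2 g).const_add 1).mul (hasDerivAt_arctan g)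
        refine this.congr_deriv ?_
        norm_num
      refine (h1.sub h2).congr_deriv ?_
      have : (1 + g ^ 2) ≠ 0 := by positivity
      field_simp
      ring
    refine monotoneOn_of_deriv_nonneg (convex_Ici 0)
      (fun x _ => (hd x).continuousAt.continuousWithinAt)
      (fun x _ => (hd x).differentiableAt.differentiableWithinAt) ?_
    intro x hx
    rw [interior_Ici] at hx
    rw [(hd x).deriv]
    have hx0 : 0 < x := hx
    have h3 : arctan x ≤ x := tj_at0 hx0.le
    have : 0 ≤ x - arctan x := by linarith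
    positivity
  have := key (mem_Ici.2 le_rfl) (mem_Ici.2 hg) hg
  simp only [arctan_zero] at this
  linarith

/-- `a / (1 + a²) ≤ arctan a` for `a ≥ 0` -/
theorem tj_at2 {a : ℝ} (ha : 0 ≤ a) : a ≤ (1 + a ^ 2) * arctan a := by
  have key : MonotoneOn (fun g : ℝ => (1 + g ^ 2) * arctan g - g) (Ici 0) := by
    have hd : ∀ g : ℝ, HasDerivAt (fun g : ℝ => (1 + g ^ 2) * arctan g - g)
        (2 * g * arctan g) g := by
      intro g
      have h2 : HasDerivAt (fun g : ℝ => (1 + g ^ 2) * arctan g)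
          (2 * g * arctan g + (1 + g ^ 2) * (1 / (1 + g ^ 2))) g := by
        have := ((hasDerivAt_pow 2 g).const_add 1).mul (hasDerivAt_arctan g)
        refine this.congr_deriv ?_
        norm_num
      refine (h2.sub (hasDerivAt_id g)).congr_deriv ?_
      have : (1 + g ^ 2) ≠ 0 := by positivity
      field_simp
      ring
    refine monotoneOn_of_deriv_nonneg (convex_Ici 0)
      (fun x _ => (hd x).continuousAt.continuousWithinAt)
      (fun x _ => (hd x).differentiableAt.differentiableWithinAt) ?_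
    intro x hx
    rw [interior_Ici] at hx
    rw [(hd x).deriv]
    have hx0 : 0 < x := hx
    have h3 : 0 ≤ arctan x := by
      rw [← arctan_zero]; exact arctan_mono hx0.le
    positivity
  have := key (mem_Ici.2 le_rfl) (mem_Ici.2 ha) ha
  simp only [arctan_zero] at this
  linarith

/-- `arctan t / t` is nonincreasing -/
theorem tj_at3 {a b : ℝ} (ha : 0 < a) (hab : a ≤ b) : a * arctan b ≤ b * arctan a := by
  have key : MonotoneOn (fun t : ℝ => t * arctan a - a * arctan t) (Ici a) := by
    have hd : ∀ t : ℝ, HasDerivAt (fun t : ℝ => t * arctan a - a * arctan t)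
        (arctan a - a * (1 / (1 + t ^ 2))) t := by
      intro t
      have := ((hasDerivAt_id t).mul_const (arctan a)).sub ((hasDerivAt_arctan t).const_mul a)
      refine this.congr_deriv ?_
      norm_num
    refine monotoneOn_of_deriv_nonneg (convex_Ici a)
      (fun x _ => (hd x).continuousAt.continuousWithinAt)
      (fun x _ => (hd x).differentiableAt.differentiableWithinAt) ?_
    intro x hx
    rw [interior_Ici] at hx
    rw [(hd x).deriv]
    have hx0 : a < x := hx
    have h3 := tj_at2 ha.le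
    have h4 : a * (1 / (1 + x ^ 2)) ≤ a * (1 / (1 + a ^ 2)) := by
      refine mul_le_mul_of_nonneg_left ?_ ha.le
      refine one_div_le_one_div_of_le (by positivity) ?_
      nlinarith
    have h5 : a * (1 / (1 + a ^ 2)) ≤ arctan a := by
      rw [mul_one_div, div_le_iff₀ (by positivity)]
      linarith
    linarith
  have := key (mem_Ici.2 le_rfl) (mem_Ici.2 hab) hab
  simp only at this
  linarith

/-- `arctan g ≥ (π / 4) g` on `[0, 1]` -/
theorem tj_at4 {g : ℝ} (h0 : 0 ≤ g) (h1 : g ≤ 1) : π / 4 * g ≤ arctan g := by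
  rcases h0.eq_or_lt with h | h
  · rw [← h]; simp
  · have := tj_at3 h h1
    rw [arctan_one, one_mul] at this
    linarith

/-- `c₁ - c₂ ≤ (arctan c₁ - arctan c₂) (1 + (c₁² + c₂²) / 2)` -/
theorem tj_at6 {c1 c2 : ℝ} (hc : c2 ≤ c1) :
    c1 - c2 ≤ (arctan c1 - arctan c2) * (1 + (c1 ^ 2 + c2 ^ 2) / 2) := by
  obtain ⟨m, hm⟩ : ∃ m, m = (c1 + c2) / 2 := ⟨_, rfl⟩
  have key : MonotoneOn (fun d : ℝ => (arctan (m + d) - arctan (m - d)) * (1 + (m ^ 2 + d ^ 2))
      - 2 * d) (Ici 0) := by
    have hd : ∀ d : ℝ, HasDerivAt (fun d : ℝ => (arctan (m + d) - arctan (m - d)) *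
        (1 + (m ^ 2 + d ^ 2)) - 2 * d)
        ((1 / (1 + (m + d) ^ 2) + 1 / (1 + (m - d) ^ 2)) * (1 + (m ^ 2 + d ^ 2)) +
          (arctan (m + d) - arctan (m - d)) * (2 * d) - 2) d := by
      intro d
      have e1 : HasDerivAt (fun d : ℝ => m + d) 1 d := (hasDerivAt_id d).const_add m
      have e2 : HasDerivAt (fun d : ℝ => m - d) (-1) d := (hasDerivAt_id d).const_sub m
      have h1 := e1.arctan
      have h2 := e2.arctan
      have h3 : HasDerivAt (fun d : ℝ => 1 + (m ^ 2 + d ^ 2)) (2 * d) d := by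
        have := ((hasDerivAt_pow 2 d).const_add (m ^ 2)).const_add 1
        refine this.congr_deriv ?_
        norm_num
      have h4 := ((h1.sub h2).mul h3).sub ((hasDerivAt_id d).const_mul 2)
      refine h4.congr_deriv ?_
      simp only [Pi.sub_apply]
      ring
    refine monotoneOn_of_deriv_nonneg (convex_Ici 0)
      (fun x _ => (hd x).continuousAt.continuousWithinAt)
      (fun x _ => (hd x).differentiableAt.differentiableWithinAt) ?_
    intro d hx
    rw [interior_Ici] at hx
    rw [(hd d).deriv]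
    have hx0 : 0 < d := hx
    have h3 : 0 ≤ arctan (m + d) - arctan (m - d) := by
      have := arctan_mono (show m - d ≤ m + d by linarith)
      linarith
    have h4 : 2 ≤ (1 / (1 + (m + d) ^ 2) + 1 / (1 + (m - d) ^ 2)) * (1 + (m ^ 2 + d ^ 2)) := by
      have p1 : (0 : ℝ) < 1 + (m + d) ^ 2 := by positivity
      have p2 : (0 : ℝ) < 1 + (m - d) ^ 2 := by positivity
      rw [div_add_div _ _ p1.ne' p2.ne', div_mul_eq_mul_div, le_div_iff₀ (mul_pos p1 p2)]
      nlinarith [sq_nonneg (m * d)]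
    have h5 : 0 ≤ (arctan (m + d) - arctan (m - d)) * (2 * d) := by positivity
    linarith
  have h := key (mem_Ici.2 le_rfl) (mem_Ici.2 (show 0 ≤ (c1 - c2) / 2 by linarith))
    (show (0 : ℝ) ≤ (c1 - c2) / 2 by linarith)
  simp only at h
  rw [show m + (c1 - c2) / 2 = c1 by rw [hm]; ring, show m - (c1 - c2) / 2 = c2 by rw [hm]; ring,
    show m ^ 2 + ((c1 - c2) / 2) ^ 2 = (c1 ^ 2 + c2 ^ 2) / 2 by rw [hm]; ring] at h
  simp only [add_zero, sub_zero, sub_self, zero_mul] at h
  linarith

end AT
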