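import Pool.Agent.H.MP_ce2c94_gt.TJ1

/-!
# The core inequality of the theta-J-lemma
-/

namespace AT

open Real Set

/-- if `2 arctan g ≤ K < r - ρ g` and `r² < 2` then `6 ρ g² < r²` -/
theorem tj_small {r ρ g K : ℝ} (hr : 0 < r) (hr2 : r ^ 2 < 2) (hρ : 0 < ρ) (hg : 0 < g)
    (h1 : 2 * arctan g ≤ K) (h2 : K < r - ρ * g) : 6 * (ρ * g ^ 2) < r ^ 2 := by
  have hp3 : (3 : ℝ) < π := pi_gt_three
  have hρg : 0 < ρ * g := by positivity
  have g1 : g ≤ 1 := by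
    by_contra hg1
    push Not at hg1
    have h3 : arctan 1 ≤ arctan g := arctan_mono hg1.le
    rw [arctan_one] at h3
    nlinarith
  have h3 := tj_at4 hg.le g1
  have h4 : g * (π / 2 + ρ) < r := by nlinarith
  have h5 : 0 < g * (π / 2 + ρ) := by positivity
  have h6 : (g * (π / 2 + ρ)) ^ 2 < r ^ 2 := by nlinarith
  have h7 : 2 * π * ρ ≤ (π / 2 + ρ) ^ 2 := by nlinarith [sq_nonneg (π / 2 - ρ)]
  have h8 : g ^ 2 * (2 * π * ρ) ≤ (g * (π / 2 + ρ)) ^ 2 := by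
    rw [mul_pow]
    exact mul_le_mul_of_nonneg_left h7 (sq_nonneg g)
  have h9 : 6 * (ρ * g ^ 2) ≤ g ^ 2 * (2 * π * ρ) := by
    have : 0 < ρ * g ^ 2 := by positivity
    nlinarith
  linarith

/-- case `ρ ≤ 0` -/
theorem tj_caseA {r ρ c1 c2 v1 v2 : ℝ} (hr : 0 < r) (hρ : ρ = 1 - r ^ 2 / 2) (hρ0 : ρ ≤ 0)
    (hc : c2 < c1) (hv1 : 0 < v1) (hK : v2 - v1 = arctan c1 - arctan c2)
    (hx : v1 + v2 - ρ * (c1 + c2) < 2 * r) :
    0 < (c1 - c2) - ρ * (v2 * (1 + c2 ^ 2) - v1 * (1 + c1 ^ 2)) := by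
  have hA : 0 < c1 - c2 := by linarith
  have hK0 : 0 < v2 - v1 := by
    rw [hK]; have := arctan_strictMono hc; linarith
  have h6 := tj_at6 hc.le
  rw [← hK] at h6
  obtain ⟨V, hV⟩ : ∃ V, V = (v1 + v2) / 2 := ⟨_, rfl⟩
  have hV0 : 0 < V := by linarith
  have e1 : (c1 - c2) - ρ * (v2 * (1 + c2 ^ 2) - v1 * (1 + c1 ^ 2)) =
      (c1 - c2) - ρ * ((v2 - v1) * (1 + (c1 ^ 2 + c2 ^ 2) / 2)) +
        (c1 - c2) * V * (ρ * (c1 + c2)) := by
    rw [hV]; ring
  rw [e1]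
  have e2 : (c1 - c2) * V * (2 * V - 2 * r) < (c1 - c2) * V * (ρ * (c1 + c2)) := by
    refine mul_lt_mul_of_pos_left ?_ (mul_pos hA hV0)
    linarith
  have e3 : -ρ * (c1 - c2) ≤ -ρ * ((v2 - v1) * (1 + (c1 ^ 2 + c2 ^ 2) / 2)) :=
    mul_le_mul_of_nonneg_left h6 (by linarith)
  have e4 : (c1 - c2) * (1 - ρ) + (c1 - c2) * V * (2 * V - 2 * r) =
      (c1 - c2) * (2 * (V - r / 2) ^ 2) := by
    rw [hρ]; ring
  have e5 : 0 ≤ (c1 - c2) * (2 * (V - r / 2) ^ 2) := by positivity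
  linarith

/-- case `ρ > 0` -/
theorem tj_caseB {r ρ c1 c2 v1 v2 : ℝ} (hr : 0 < r) (hρ : ρ = 1 - r ^ 2 / 2) (hρ0 : 0 < ρ)
    (hc : c2 < c1) (hv1 : 0 < v1) (hK : v2 - v1 = arctan c1 - arctan c2)
    (hx : v2 - ρ * c2 < r) :
    0 < (c1 - c2) - ρ * (v2 * (1 + c2 ^ 2) - v1 * (1 + c1 ^ 2)) := by
  have hA : 0 < c1 - c2 := by linarith
  have hr2 : r ^ 2 < 2 := by linarith
  have hρ1 : ρ < 1 := by have : 0 < r ^ 2 := by positivity
                         linarith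
  obtain ⟨K, hKd⟩ : ∃ K, K = v2 - v1 := ⟨_, rfl⟩
  have hK0 : 0 < K := by
    rw [hKd, hK]; have := arctan_strictMono hc; linarith
  have hKa : K = arctan c1 - arctan c2 := hKd.trans hK
  have hv2 : v2 = v1 + K := by linarith
  rcases le_or_gt 0 (c1 + c2) with hs | hs
  · -- c1 + c2 ≥ 0
    have e1 : (c1 - c2) - ρ * (v2 * (1 + c2 ^ 2) - v1 * (1 + c1 ^ 2)) =
        (c1 - c2) - ρ * (K * (1 + c2 ^ 2)) + ρ * v1 * ((c1 - c2) * (c1 + c2)) := by
      rw [hv2]; ring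
    have e2 : 0 ≤ ρ * v1 * ((c1 - c2) * (c1 + c2)) := by positivity
    have e3 : 0 < (c1 - c2) - ρ * (K * (1 + c2 ^ 2)) := by
      rcases le_or_gt 0 c2 with h2 | h2
      · have h5 := tj_at5 (L := 1 + c2 ^ 2) hc.le (fun c hc' => by nlinarith [hc'.1])
        rw [← hKa] at h5
        have h6 : 0 < K * (1 + c2 ^ 2) := by positivity
        nlinarith
      · obtain ⟨g, hg⟩ : ∃ g, g = -c2 := ⟨_, rfl⟩
        have hg0 : 0 < g := by linarith
        have hc2 : c2 = -g := by linarith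
        have hgc : g ≤ c1 := by linarith
        rw [hc2] at hKa hx ⊢
        rw [arctan_neg, sub_neg_eq_add] at hKa
        have h3 := tj_at3 hg0 hgc
        have h4 : arctan g ≤ arctan c1 := arctan_mono hgc
        have h5 : 6 * (ρ * g ^ 2) < r ^ 2 :=
          tj_small (K := K) hr hr2 hρ0 hg0 (by linarith) (by linarith)
        have h6 := tj_at1 hg0.le
        -- g K ≤ A arctan g
        have h7 : g * K ≤ (c1 + g) * arctan g := by rw [hKa]; linarith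
        have h8 : ρ * (1 + 2 * g ^ 2 / 3) < 1 := by
          have : ρ + r ^ 2 / 2 = 1 := by linarith
          nlinarith
        have hA' : 0 < c1 + g := by linarith
        have h9 : g * (ρ * (K * (1 + (-g) ^ 2))) < g * (c1 + g) := by
          have i1 : g * (ρ * (K * (1 + (-g) ^ 2))) = (ρ * (1 + g ^ 2)) * (g * K) := by ring
          have i2 : (ρ * (1 + g ^ 2)) * (g * K) ≤ (ρ * (1 + g ^ 2)) * ((c1 + g) * arctan g) :=
            mul_le_mul_of_nonneg_left h7 (by positivity)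
          have i3 : (ρ * (1 + g ^ 2)) * ((c1 + g) * arctan g) =
              (ρ * (c1 + g)) * ((1 + g ^ 2) * arctan g) := by ring
          have i4 : (ρ * (c1 + g)) * ((1 + g ^ 2) * arctan g) ≤
              (ρ * (c1 + g)) * (g + 2 * g ^ 3 / 3) :=
            mul_le_mul_of_nonneg_left h6 (by positivity)
          have i5 : (ρ * (c1 + g)) * (g + 2 * g ^ 3 / 3) =
              (g * (c1 + g)) * (ρ * (1 + 2 * g ^ 2 / 3)) := by ring
          have i6 : (g * (c1 + g)) * (ρ * (1 + 2 * g ^ 2 / 3)) < (g * (c1 + g)) * 1 :=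
            mul_lt_mul_of_pos_left h8 (by positivity)
          linarith
        have h10 := lt_of_mul_lt_mul_left h9 hg0.le
        rw [sub_neg_eq_add]
        linarith
    linarith
  · -- c1 + c2 < 0
    have h2 : c2 < 0 := by linarith
    obtain ⟨g, hg⟩ : ∃ g, g = -c2 := ⟨_, rfl⟩
    have hg0 : 0 < g := by linarith
    have hc2 : c2 = -g := by linarith
    obtain ⟨m, hm⟩ : ∃ m, m = (g - c1) / 2 := ⟨_, rfl⟩
    have hm0 : 0 < m := by linarith
    have hgm : g = 2 * m + c1 := by linarith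
    rw [hc2] at hKa hx hA ⊢
    rw [arctan_neg, sub_neg_eq_add] at hKa
    rw [sub_neg_eq_add] at hA ⊢
    obtain ⟨V, hV⟩ : ∃ V, V = v2 - K / 2 := ⟨_, rfl⟩
    have hVlt : V < r - ρ * g - K / 2 := by linarith
    have e1 : (c1 + g) - ρ * (v2 * (1 + (-g) ^ 2) - v1 * (1 + c1 ^ 2)) =
        (c1 + g) - ρ * (K * (1 + (c1 ^ 2 + g ^ 2) / 2)) - 2 * ρ * (c1 + g) * m * V := by
      have : v1 = v2 - K := by linarith
      rw [hV, this, hm]; ring
    have e2 : 2 * ρ * (c1 + g) * m * V < 2 * ρ * (c1 + g) * m * (r - ρ * g - K / 2) :=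
      mul_lt_mul_of_pos_left hVlt (by positivity)
    have e3 : (c1 + g) - ρ * (K * (1 + (c1 ^ 2 + g ^ 2) / 2)) -
        2 * ρ * (c1 + g) * m * (r - ρ * g - K / 2) =
        (c1 + g) * (1 - 2 * ρ * m * (r - ρ * g)) - ρ * (K * (1 + c1 ^ 2)) := by
      rw [hm]; ring
    rw [e1]
    have e4 : 0 ≤ (c1 + g) * (1 - 2 * ρ * m * (r - ρ * g)) - ρ * (K * (1 + c1 ^ 2)) := by
      rcases le_or_gt c1 0 with h1 | h1
      · have h5 := tj_at5 (c1 := c1) (c2 := -g) (L := 1 + c1 ^ 2) (by linarith)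
          (fun c hc' => by nlinarith [hc'.2])
        rw [arctan_neg, sub_neg_eq_add, sub_neg_eq_add, ← hKa] at h5
        have h6 : ρ * (K * (1 + c1 ^ 2)) ≤ ρ * (c1 + g) :=
          mul_le_mul_of_nonneg_left h5 hρ0.le
        have h7 : 2 * ρ * m * (r - ρ * g) ≤ r ^ 2 / 2 := by
          have i1 : 2 * ρ * m * (r - ρ * g) ≤ 2 * ρ * m * (r - ρ * m) := by
            refine mul_le_mul_of_nonneg_left ?_ (by positivity)
            have : ρ * m ≤ ρ * g := mul_le_mul_of_nonneg_left (by linarith) hρ0.le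
            linarith
          nlinarith [sq_nonneg (r / 2 - ρ * m)]
        have h8 : (c1 + g) * (2 * ρ * m * (r - ρ * g)) ≤ (c1 + g) * (r ^ 2 / 2) :=
          mul_le_mul_of_nonneg_left h7 hA.le
        have h9 : (c1 + g) * (r ^ 2 / 2) = (c1 + g) - ρ * (c1 + g) := by
          rw [hρ]; ring
        nlinarith
      · have hcg : c1 ≤ g := by linarith
        have h3 := tj_at3 h1 hcg
        have h4 : arctan c1 ≤ arctan g := arctan_mono hcg
        have hρc : ρ * c1 ≤ ρ * g := mul_le_mul_of_nonneg_left hcg hρ0.le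
        have h5 : 6 * (ρ * c1 ^ 2) < r ^ 2 :=
          tj_small (K := K) hr hr2 hρ0 h1 (by linarith) (by linarith)
        have h6 := tj_at1 h1.le
        have h7 : c1 * K ≤ (c1 + g) * arctan c1 := by rw [hKa]; linarith
        have h8 : K * (1 + c1 ^ 2) ≤ (c1 + g) * (1 + 2 * c1 ^ 2 / 3) := by
          have i1 : c1 * (K * (1 + c1 ^ 2)) ≤ c1 * ((c1 + g) * (1 + 2 * c1 ^ 2 / 3)) := by
            have j1 : c1 * (K * (1 + c1 ^ 2)) = (1 + c1 ^ 2) * (c1 * K) := by ring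
            have j2 : (1 + c1 ^ 2) * (c1 * K) ≤ (1 + c1 ^ 2) * ((c1 + g) * arctan c1) :=
              mul_le_mul_of_nonneg_left h7 (by positivity)
            have j3 : (1 + c1 ^ 2) * ((c1 + g) * arctan c1) =
                (c1 + g) * ((1 + c1 ^ 2) * arctan c1) := by ring
            have j4 : (c1 + g) * ((1 + c1 ^ 2) * arctan c1) ≤
                (c1 + g) * (c1 + 2 * c1 ^ 3 / 3) := mul_le_mul_of_nonneg_left h6 hA.le
            have j5 : (c1 + g) * (c1 + 2 * c1 ^ 3 / 3) =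
                c1 * ((c1 + g) * (1 + 2 * c1 ^ 2 / 3)) := by ring
            linarith
          exact le_of_mul_le_mul_left i1 h1
        have h9 : ρ * (K * (1 + c1 ^ 2)) ≤ ρ * ((c1 + g) * (1 + 2 * c1 ^ 2 / 3)) :=
          mul_le_mul_of_nonneg_left h8 hρ0.le
        have h10 : 2 * ρ * m * (r - ρ * g) ≤ r ^ 2 / 4 := by
          rw [hgm]
          have : 0 ≤ ρ ^ 2 * m * c1 := by positivity
          nlinarith [sq_nonneg (r / 2 - 2 * ρ * m)]
        have h11 : 0 ≤ 1 - 2 * ρ * m * (r - ρ * g) - ρ * (1 + 2 * c1 ^ 2 / 3) := by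
          have : ρ + r ^ 2 / 2 = 1 := by linarith
          nlinarith
        have h12 : 0 ≤ (c1 + g) * (1 - 2 * ρ * m * (r - ρ * g) - ρ * (1 + 2 * c1 ^ 2 / 3)) :=
          mul_nonneg hA.le h11
        nlinarith
    linarith

/-- **Core inequality of the theta-J-lemma.** -/
theorem tj_core {r c1 c2 x1 x2 : ℝ} (hr : 0 < r) (hc : c2 < c1)
    (hu1 : 0 < x1 / 2 + (1 / r - r / 2) * c1)
    (hK : (x2 / 2 + (1 / r - r / 2) * c2) - (x1 / 2 + (1 / r - r / 2) * c1) =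
      (arctan c1 - arctan c2) / r)
    (h1 : 2 ≤ r ^ 2 → x1 + x2 < 4) (h2 : r ^ 2 < 2 → x2 < 2) :
    0 < (c1 - c2) / r ^ 2 - (1 / r - r / 2) * ((x2 / 2 + (1 / r - r / 2) * c2) * (1 + c2 ^ 2) -
      (x1 / 2 + (1 / r - r / 2) * c1) * (1 + c1 ^ 2)) := by
  have hr2 : 0 < r ^ 2 := by positivity
  obtain ⟨ρ, hρ⟩ : ∃ ρ, ρ = 1 - r ^ 2 / 2 := ⟨_, rfl⟩
  have hφ : r * (1 / r - r / 2) = ρ := by rw [hρ]; field_simp
  obtain ⟨v1, hv1⟩ : ∃ v, v = r * (x1 / 2 + (1 / r - r / 2) * c1) := ⟨_, rfl⟩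
  obtain ⟨v2, hv2⟩ : ∃ v, v = r * (x2 / 2 + (1 / r - r / 2) * c2) := ⟨_, rfl⟩
  have hv10 : 0 < v1 := by rw [hv1]; positivity
  have w1 : v1 = r * x1 / 2 + ρ * c1 := by rw [hv1, ← hφ]; ring
  have w2 : v2 = r * x2 / 2 + ρ * c2 := by rw [hv2, ← hφ]; ring
  have hK' : v2 - v1 = arctan c1 - arctan c2 := by
    have : v2 - v1 = r * ((x2 / 2 + (1 / r - r / 2) * c2) - (x1 / 2 + (1 / r - r / 2) * c1)) := by
      rw [hv1, hv2]; ring
    rw [this, hK]
    field_simp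
  have key : 0 < (c1 - c2) - ρ * (v2 * (1 + c2 ^ 2) - v1 * (1 + c1 ^ 2)) := by
    rcases le_or_gt ρ 0 with h | h
    · refine tj_caseA hr hρ h hc hv10 hK' ?_
      have h3 : x1 + x2 < 4 := h1 (by linarith)
      rw [w1, w2]
      nlinarith
    · refine tj_caseB hr hρ h hc hv10 hK' ?_
      have h3 : x2 < 2 := h2 (by linarith)
      rw [w2]
      nlinarith
  have e : (c1 - c2) / r ^ 2 - (1 / r - r / 2) * ((x2 / 2 + (1 / r - r / 2) * c2) * (1 + c2 ^ 2) -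
      (x1 / 2 + (1 / r - r / 2) * c1) * (1 + c1 ^ 2)) =
      ((c1 - c2) - ρ * (v2 * (1 + c2 ^ 2) - v1 * (1 + c1 ^ 2))) / r ^ 2 := by
    rw [eq_div_iff hr2.ne', hv1, hv2, ← hφ]
    field_simp
  rw [e]
  exact div_pos key hr2

end AT
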