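import Pool.Agent.H.MP_ce2c94_gt.TJ2
import Pool.Agent.H.MP_ce2c94_gt.JLem

/-!
# The theta-J-lemma: maximum principle for `(θ₂ - θ₁) / r`
-/

namespace AT

open Real Set Filter Topology

/-- `dθ/dr` -/
noncomputable def UT (x θ : ℝ → ℝ) (r : ℝ) : ℝ := x r / 2 + ph r * (cos (θ r) / sin (θ r))

/-- A convex strand as a graph over the height `r ∈ (b, t)`: `dx/dr = cot θ`,
`dθ/dr = x/2 + φ(r) cot θ > 0`, `θ` from `0` to `π`. -/
structure TStrand (b t : ℝ) (x θ : ℝ → ℝ) : Prop where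
  b0 : 0 < b
  bt : b < t
  rng : ∀ r ∈ Ioo b t, 0 < θ r ∧ θ r < π
  dx : ∀ r ∈ Ioo b t, HasDerivAt x (cos (θ r) / sin (θ r)) r
  dθ : ∀ r ∈ Ioo b t, HasDerivAt θ (UT x θ r) r
  u : ∀ r ∈ Ioo b t, 0 < UT x θ r
  lb : Tendsto θ (𝓝[>] b) (𝓝 0)
  lt : Tendsto θ (𝓝[<] t) (𝓝 π)

theorem arctan_cot {θ : ℝ} (h0 : 0 < θ) (h1 : θ < π) : arctan (cos θ / sin θ) = π / 2 - θ := by
  have : cos θ / sin θ = tan (π / 2 - θ) := by
    rw [tan_eq_sin_div_cos, sin_pi_div_two_sub, cos_pi_div_two_sub]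
  rw [this, arctan_tan (by linarith) (by linarith)]

theorem hasDerivAt_cot {θ : ℝ → ℝ} {u r : ℝ} (h : HasDerivAt θ u r) (hs : sin (θ r) ≠ 0) :
    HasDerivAt (fun r => cos (θ r) / sin (θ r)) (-(1 + (cos (θ r) / sin (θ r)) ^ 2) * u) r := by
  refine (h.cos.div h.sin hs).congr_deriv ?_
  have h1 := sin_sq_add_cos_sq (θ r)
  field_simp
  ring

/-- the second derivative of `θ` -/
theorem TStrand.dU {b t : ℝ} {x θ : ℝ → ℝ} (h : TStrand b t x θ) {r : ℝ} (hr : r ∈ Ioo b t) :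
    HasDerivAt (UT x θ) (-(cos (θ r) / sin (θ r)) / r ^ 2 -
      ph r * ((1 + (cos (θ r) / sin (θ r)) ^ 2) * UT x θ r)) r := by
  have r0 : 0 < r := h.b0.trans hr.1
  have hs : sin (θ r) ≠ 0 := (sin_pos_of_pos_of_lt_pi (h.rng r hr).1 (h.rng r hr).2).ne'
  have h1 := hasDerivAt_cot (h.dθ r hr) hs
  have h2 := ((h.dx r hr).div_const 2).add ((ph_deriv r0).mul h1)
  refine h2.congr_deriv ?_
  ring

/-- **Maximum principle.** -/
theorem tj_le {b t : ℝ} {x₁ θ₁ x₂ θ₂ : ℝ → ℝ} (h1 : TStrand b t x₁ θ₁) (h2 : TStrand b t x₂ θ₂)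
    (cond : ∀ r ∈ Ioo b t, θ₁ r < θ₂ r → (2 ≤ r ^ 2 → x₁ r + x₂ r < 4) ∧ (r ^ 2 < 2 → x₂ r < 2)) :
    ∀ r ∈ Ioo b t, θ₂ r ≤ θ₁ r := by
  by_contra hcon
  push Not at hcon
  obtain ⟨r₀, hr₀, hJ₀⟩ := hcon
  obtain ⟨J, hJ⟩ : ∃ J : ℝ → ℝ, J = fun r => (θ₂ r - θ₁ r) / r := ⟨_, rfl⟩
  have t0 : 0 < t := h1.b0.trans h1.bt
  have hJ0 : 0 < J r₀ := by
    rw [hJ]
    exact div_pos (by linarith) (h1.b0.trans hr₀.1)
  have hd : ∀ r ∈ Ioo b t, HasDerivAt J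
      (((UT x₂ θ₂ r - UT x₁ θ₁ r) * r - (θ₂ r - θ₁ r)) / r ^ 2) r := by
    intro r hr
    have r0 : 0 < r := h1.b0.trans hr.1
    rw [hJ]
    have := ((h2.dθ r hr).sub (h1.dθ r hr)).div (hasDerivAt_id r) r0.ne'
    refine this.congr_deriv ?_
    simp
  have hc : ContinuousOn J (Ioo b t) := fun r hr => (hd r hr).continuousAt.continuousWithinAt
  have lb : Tendsto J (𝓝[>] b) (𝓝 0) := by
    have := (h2.lb.sub h1.lb).div (tendsto_id.mono_left (nhdsWithin_le_nhds (a := b)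
      (s := Ioi b))) h1.b0.ne'
    rw [sub_self, zero_div] at this
    rw [hJ]
    exact this
  have lt' : Tendsto J (𝓝[<] t) (𝓝 0) := by
    have := (h2.lt.sub h1.lt).div (tendsto_id.mono_left (nhdsWithin_le_nhds (a := t)
      (s := Iio t))) t0.ne'
    rw [sub_self, zero_div] at this
    rw [hJ]
    exact this
  have hE := continuousOn_Icc_extendFrom_Ioo hc lb lt'
  have eb : extendFrom (Ioo b t) J b = 0 := eq_lim_at_left_extendFrom_Ioo h1.bt lb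
  have et : extendFrom (Ioo b t) J t = 0 := eq_lim_at_right_extendFrom_Ioo h1.bt lt'
  have ei : ∀ r ∈ Ioo b t, extendFrom (Ioo b t) J r = J r := fun r hr => extendFrom_extends hc r hr
  obtain ⟨m, hm, hmax⟩ := isCompact_Icc.exists_isMaxOn (nonempty_Icc.mpr h1.bt.le) hE
  have hm0 : 0 < extendFrom (Ioo b t) J m := by
    have := hmax (Ioo_subset_Icc_self hr₀)
    simp only [Set.mem_ofPred_eq] at this
    rw [ei r₀ hr₀] at this
    linarith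
  have hmi : m ∈ Ioo b t := by
    refine ⟨lt_of_le_of_ne hm.1 ?_, lt_of_le_of_ne hm.2 ?_⟩
    · intro h
      rw [← h, eb] at hm0
      exact lt_irrefl _ hm0
    · intro h
      rw [h, et] at hm0
      exact lt_irrefl _ hm0
  have hloc : IsLocalMax J m := by
    filter_upwards [Ioo_mem_nhds hmi.1 hmi.2] with r hr
    have := hmax (Ioo_subset_Icc_self hr)
    simp only [Set.mem_ofPred_eq] at this
    rwa [ei r hr, ei m hmi] at this
  have r0 : 0 < m := h1.b0.trans hmi.1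
  have hPm := hloc.hasDerivAt_eq_zero (hd m hmi)
  have hNm : (UT x₂ θ₂ m - UT x₁ θ₁ m) * m - (θ₂ m - θ₁ m) = 0 := by
    rcases div_eq_zero_iff.mp hPm with h | h
    · exact h
    · exact absurd h (by positivity)
  have hJm : θ₁ m < θ₂ m := by
    rw [ei m hmi, hJ] at hm0
    have := (div_pos_iff_of_pos_right r0).mp hm0
    linarith
  obtain ⟨p1, q1⟩ := h1.rng m hmi
  obtain ⟨p2, q2⟩ := h2.rng m hmi
  have a1 := arctan_cot p1 q1
  have a2 := arctan_cot p2 q2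
  have hcc : cos (θ₂ m) / sin (θ₂ m) < cos (θ₁ m) / sin (θ₁ m) := by
    rw [← arctan_lt_arctan_iff, a1, a2]
    linarith
  obtain ⟨cA, cB⟩ := cond m hmi hJm
  have hcore := tj_core (c1 := cos (θ₁ m) / sin (θ₁ m)) (c2 := cos (θ₂ m) / sin (θ₂ m)) r0 hcc
    (h1.u m hmi) (x2 := x₂ m) ?_ cA cB
  swap
  · rw [a1, a2, eq_div_iff r0.ne']
    have e1 : x₂ m / 2 + (1 / m - m / 2) * (cos (θ₂ m) / sin (θ₂ m)) = UT x₂ θ₂ m := rfl
    have e2 : x₁ m / 2 + (1 / m - m / 2) * (cos (θ₁ m) / sin (θ₁ m)) = UT x₁ θ₁ m := rfl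
    rw [e1, e2]
    linarith
  have hG' : HasDerivAt (fun r => ((UT x₂ θ₂ r - UT x₁ θ₁ r) * r - (θ₂ r - θ₁ r)) / r ^ 2)
      (((-(cos (θ₂ m) / sin (θ₂ m)) / m ^ 2 -
        ph m * ((1 + (cos (θ₂ m) / sin (θ₂ m)) ^ 2) * UT x₂ θ₂ m)) -
        (-(cos (θ₁ m) / sin (θ₁ m)) / m ^ 2 -
        ph m * ((1 + (cos (θ₁ m) / sin (θ₁ m)) ^ 2) * UT x₁ θ₁ m))) / m) m := by
    have g1 := (((h2.dU hmi).sub (h1.dU hmi)).mul (hasDerivAt_id m)).sub
      ((h2.dθ m hmi).sub (h1.dθ m hmi))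
    have g2 := g1.div (hasDerivAt_pow 2 m) (by positivity)
    refine g2.congr_deriv ?_
    simp only [Pi.sub_apply, Pi.mul_apply, id_eq]
    rw [hNm]
    field_simp
    ring
  refine second_deriv_max (J := J) (P := fun r =>
    ((UT x₂ θ₂ r - UT x₁ θ₁ r) * r - (θ₂ r - θ₁ r)) / r ^ 2) ?_ hPm hG' ?_ hloc
  · filter_upwards [Ioo_mem_nhds hmi.1 hmi.2] with r hr
    exact hd r hr
  · refine div_pos ?_ r0
    refine lt_of_lt_of_eq hcore ?_
    unfold UT ph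
    ring

end AT
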