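import Pool.Agent.H.MP_ce2c94_gt.TJ3

/-!
# The theta-J-lemma: the ends of the strands
-/

namespace AT

open Real Set Filter Topology

theorem cot_le_of_le {a b : ℝ} (ha : 0 < a) (ha' : a < π) (hb : 0 < b) (hb' : b < π) (h : a ≤ b) :
    cos b / sin b ≤ cos a / sin a := by
  rw [← arctan_le_arctan_iff, arctan_cot ha ha', arctan_cot hb hb']
  linarith

/-- bottom end: `θ₂ ≤ θ₁` implies `x₂(b) ≤ x₁(b)` -/
theorem tj_bottom {b t : ℝ} {x₁ θ₁ x₂ θ₂ : ℝ → ℝ} (h1 : TStrand b t x₁ θ₁)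
    (h2 : TStrand b t x₂ θ₂) {β₁ β₂ : ℝ} (l1 : Tendsto x₁ (𝓝[>] b) (𝓝 β₁))
    (l2 : Tendsto x₂ (𝓝[>] b) (𝓝 β₂)) (hb : b ^ 2 < 2) (hle : ∀ r ∈ Ioo b t, θ₂ r ≤ θ₁ r) :
    β₂ ≤ β₁ := by
  by_contra hcon
  push Not at hcon
  have e1 : ∀ᶠ r in 𝓝[>] b, 0 < x₂ r - x₁ r :=
    (l2.sub l1).eventually (lt_mem_nhds (by linarith))
  have e2 : ∀ᶠ r in 𝓝[>] b, r ^ 2 < 2 := by
    have : Tendsto (fun r : ℝ => r ^ 2) (𝓝[>] b) (𝓝 (b ^ 2)) :=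
      ((continuous_pow 2).tendsto b).mono_left nhdsWithin_le_nhds
    exact this.eventually (gt_mem_nhds hb)
  have e3 : ∀ᶠ r in 𝓝[>] b, r ∈ Ioo b t := Ioo_mem_nhdsGT h1.bt
  obtain ⟨u, hu, hu'⟩ := mem_nhdsGT_iff_exists_Ioo_subset.mp (e1.and (e2.and e3))
  have hbu : b < u := hu
  have hd : ∀ r ∈ Ioo b u, HasDerivAt (fun r => θ₂ r - θ₁ r) (UT x₂ θ₂ r - UT x₁ θ₁ r) r :=
    fun r hr => (h2.dθ r (hu' hr).2.2).sub (h1.dθ r (hu' hr).2.2)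
  have hpos : ∀ r ∈ Ioo b u, 0 < UT x₂ θ₂ r - UT x₁ θ₁ r := by
    intro r hr
    obtain ⟨a1, a2, a3⟩ := hu' hr
    have r0 : 0 < r := h1.b0.trans hr.1
    have hφ : 0 < ph r := by
      unfold ph
      rw [div_sub_div _ _ r0.ne' two_ne_zero]
      apply div_pos _ (by positivity)
      nlinarith
    have hc := cot_le_of_le (h2.rng r a3).1 (h2.rng r a3).2 (h1.rng r a3).1 (h1.rng r a3).2
      (hle r a3)
    have := mul_le_mul_of_nonneg_left hc hφ.le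
    unfold UT
    linarith
  have hmono : StrictMonoOn (fun r => θ₂ r - θ₁ r) (Ioo b u) := by
    refine strictMonoOn_of_deriv_pos (convex_Ioo b u)
      (fun r hr => (hd r hr).continuousAt.continuousWithinAt) ?_
    intro r hr
    rw [interior_Ioo] at hr
    rw [(hd r hr).deriv]
    exact hpos r hr
  have hl : Tendsto (fun r => θ₂ r - θ₁ r) (𝓝[>] b) (𝓝 0) := by
    have := h2.lb.sub h1.lb
    rwa [sub_zero] at this
  obtain ⟨v, hv⟩ : ∃ v, v = (b + u) / 2 := ⟨_, rfl⟩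
  have hv1 : v ∈ Ioo b u := ⟨by rw [hv]; linarith, by rw [hv]; linarith⟩
  obtain ⟨w, hw⟩ : ∃ w, w = (b + v) / 2 := ⟨_, rfl⟩
  have hw1 : w ∈ Ioo b u := ⟨by rw [hw]; linarith [hv1.1], by rw [hw]; linarith [hv1.1, hv1.2]⟩
  have hwv : w < v := by rw [hw]; linarith [hv1.1]
  have f1 : 0 ≤ θ₂ w - θ₁ w := by
    refine le_of_tendsto hl ?_
    filter_upwards [Ioo_mem_nhdsGT hw1.1] with r hr
    exact (hmono ⟨hr.1, hr.2.trans hw1.2⟩ hw1 hr.2).le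
  have f2 : θ₂ w - θ₁ w < θ₂ v - θ₁ v := hmono hw1 hv1 hwv
  have f3 := hle v (hu' hv1).2.2
  linarith

/-- top end: `θ₂ ≤ θ₁` implies `x₁(t) ≤ x₂(t)` -/
theorem tj_top {b t : ℝ} {x₁ θ₁ x₂ θ₂ : ℝ → ℝ} (h1 : TStrand b t x₁ θ₁)
    (h2 : TStrand b t x₂ θ₂) {β₁ β₂ : ℝ} (l1 : Tendsto x₁ (𝓝[<] t) (𝓝 β₁))
    (l2 : Tendsto x₂ (𝓝[<] t) (𝓝 β₂)) (ht : 2 < t ^ 2) (hle : ∀ r ∈ Ioo b t, θ₂ r ≤ θ₁ r) :
    β₁ ≤ β₂ := by
  by_contra hcon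
  push Not at hcon
  have e1 : ∀ᶠ r in 𝓝[<] t, x₂ r - x₁ r < 0 :=
    (l2.sub l1).eventually (gt_mem_nhds (by linarith))
  have e2 : ∀ᶠ r in 𝓝[<] t, 2 < r ^ 2 := by
    have : Tendsto (fun r : ℝ => r ^ 2) (𝓝[<] t) (𝓝 (t ^ 2)) :=
      ((continuous_pow 2).tendsto t).mono_left nhdsWithin_le_nhds
    exact this.eventually (lt_mem_nhds ht)
  have e3 : ∀ᶠ r in 𝓝[<] t, r ∈ Ioo b t := Ioo_mem_nhdsLT h1.bt
  obtain ⟨u, hu, hu'⟩ := mem_nhdsLT_iff_exists_Ioo_subset.mp (e1.and (e2.and e3))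
  have hbu : u < t := hu
  have hd : ∀ r ∈ Ioo u t, HasDerivAt (fun r => θ₂ r - θ₁ r) (UT x₂ θ₂ r - UT x₁ θ₁ r) r :=
    fun r hr => (h2.dθ r (hu' hr).2.2).sub (h1.dθ r (hu' hr).2.2)
  have hneg : ∀ r ∈ Ioo u t, UT x₂ θ₂ r - UT x₁ θ₁ r < 0 := by
    intro r hr
    obtain ⟨a1, a2, a3⟩ := hu' hr
    have r0 : 0 < r := h1.b0.trans a3.1
    have hφ : ph r < 0 := by
      unfold ph
      rw [div_sub_div _ _ r0.ne' two_ne_zero]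
      apply div_neg_of_neg_of_pos _ (by positivity)
      nlinarith
    have hc := cot_le_of_le (h2.rng r a3).1 (h2.rng r a3).2 (h1.rng r a3).1 (h1.rng r a3).2
      (hle r a3)
    have := mul_le_mul_of_nonpos_left hc hφ.le
    unfold UT
    linarith
  have hmono : StrictAntiOn (fun r => θ₂ r - θ₁ r) (Ioo u t) := by
    refine strictAntiOn_of_deriv_neg (convex_Ioo u t)
      (fun r hr => (hd r hr).continuousAt.continuousWithinAt) ?_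
    intro r hr
    rw [interior_Ioo] at hr
    rw [(hd r hr).deriv]
    exact hneg r hr
  have hl : Tendsto (fun r => θ₂ r - θ₁ r) (𝓝[<] t) (𝓝 0) := by
    have := h2.lt.sub h1.lt
    rwa [sub_self] at this
  obtain ⟨v, hv⟩ : ∃ v, v = (u + t) / 2 := ⟨_, rfl⟩
  have hv1 : v ∈ Ioo u t := ⟨by rw [hv]; linarith, by rw [hv]; linarith⟩
  obtain ⟨w, hw⟩ : ∃ w, w = (v + t) / 2 := ⟨_, rfl⟩
  have hw1 : w ∈ Ioo u t := ⟨by rw [hw]; linarith [hv1.1, hv1.2], by rw [hw]; linarith [hv1.2]⟩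
  have hwv : v < w := by rw [hw]; linarith [hv1.2]
  have f1 : 0 ≤ θ₂ w - θ₁ w := by
    refine le_of_tendsto hl ?_
    filter_upwards [Ioo_mem_nhdsLT hw1.2] with r hr
    exact (hmono hw1 ⟨hw1.1.trans hr.1, hr.2⟩ hr.1).le
  have f2 : θ₂ w - θ₁ w < θ₂ v - θ₁ v := hmono hv1 hw1 hwv
  have f3 := hle v (hu' hv1).2.2
  linarith

end AT
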