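import Pool.Agent.H.MP_ce2c94_gt.TJ4
import Pool.Agent.H.MP_ce2c94_gt.TJ5a
import Pool.Agent.H.MP_ce2c94_gt.RedA

/-!
# The theta-J-lemma for closed strictly convex profiles
-/

namespace AT

open Real Set Filter Topology

/-- a closed strictly convex profile: lowest point at `0`, highest point at `T` -/
structure TLoop (x r θ : ℝ → ℝ) (L T : ℝ) : Prop where
  prof : IsProfile x r θ
  T0 : 0 < T
  TL : T < L
  px : ∀ s, x (s + L) = x s
  pr : ∀ s, r (s + L) = r s
  pθ : ∀ s, θ (s + L) = θ s + 2 * π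
  conv : ∀ s, 0 < x s / 2 * sin (θ s) + (1 / r s - r s / 2) * cos (θ s)
  θ0 : θ 0 = 0
  θT : θ T = π

/-- the mirror image -/
theorem TLoop.flip {x r θ : ℝ → ℝ} {L T : ℝ} (h : TLoop x r θ L T) :
    TLoop (fun s => -x (L - s)) (fun s => r (L - s)) (fun s => 2 * π - θ (L - s)) L (L - T) := by
  have h1 := (h.prof.flip L).shift 0 1
  have e1 : (fun s : ℝ => -θ (L - (s + 0)) + ((1 : ℤ) : ℝ) * (2 * π)) =
      fun s => 2 * π - θ (L - s) := by
    funext s; push_cast; rw [add_zero]; ring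
  simp only [add_zero] at h1 e1
  rw [e1] at h1
  refine ⟨h1, by linarith [h.TL], by linarith [h.T0], fun s => ?_, fun s => ?_, fun s => ?_,
    fun s => ?_, ?_, ?_⟩
  · have := h.px (L - (s + L))
    rw [show L - (s + L) + L = L - s by ring] at this
    simp only [this]
  · have := h.pr (L - (s + L))
    rw [show L - (s + L) + L = L - s by ring] at this
    simp only [this]
  · have := h.pθ (L - (s + L))
    rw [show L - (s + L) + L = L - s by ring] at this
    simp only [this]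
    ring
  · have := h.conv (L - s)
    rw [sin_two_pi_sub, cos_two_pi_sub]
    refine lt_of_lt_of_eq this ?_
    ring
  · have := h.pθ 0
    rw [zero_add, h.θ0] at this
    simp only [sub_zero, this]
    ring
  · rw [show L - (L - T) = T by ring, h.θT]
    ring

theorem TLoop.right {x r θ : ℝ → ℝ} {L T : ℝ} (h : TLoop x r θ L T) : CArc x r θ 0 T :=
  ⟨h.prof, h.T0, h.θ0, h.θT, fun s _ => h.conv s⟩

theorem TLoop.bot {x r θ : ℝ → ℝ} {L T : ℝ} (h : TLoop x r θ L T) : r 0 ^ 2 < 2 := by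
  have h1 := h.conv 0
  have r0 := h.prof.pos 0
  rw [h.θ0, sin_zero, cos_zero, mul_zero, zero_add, mul_one, div_sub_div _ _ r0.ne' two_ne_zero]
    at h1
  have := (div_pos_iff_of_pos_right (by positivity)).mp h1
  nlinarith

theorem TLoop.top {x r θ : ℝ → ℝ} {L T : ℝ} (h : TLoop x r θ L T) : 2 < r T ^ 2 := by
  have h1 := h.conv T
  have r0 := h.prof.pos T
  rw [h.θT, sin_pi, cos_pi, mul_zero, zero_add, div_sub_div _ _ r0.ne' two_ne_zero, div_mul_eq_mul_div]
    at h1
  have := (div_pos_iff_of_pos_right (by positivity)).mp h1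
  nlinarith

/-- **J-lemma, `2` = the mirrored left strand.** -/
theorem TLoop.J_left {x r θ : ℝ → ℝ} {L T : ℝ} (h : TLoop x r θ L T)
    (hi : ∀ s ∈ Ioo 0 T, ∀ s' ∈ Ioo T L, r s = r s' → 2 ≤ r s ^ 2 → x s - x s' < 4)
    (hii : ∀ s' ∈ Ioo T L, r s' ^ 2 < 2 → -2 < x s') : 0 ≤ x 0 ∧ x T ≤ 0 := by
  obtain ⟨g, g1, g2, hs, l0, l1⟩ := h.right.strand
  obtain ⟨g', g1', g2', hs', l0', l1'⟩ := h.flip.right.strand
  have er0 : r (L - 0) = r 0 := by
    have := h.pr 0
    rw [zero_add] at this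
    rw [sub_zero, this]
  have erT : r (L - (L - T)) = r T := by rw [show L - (L - T) = T by ring]
  have ex0 : x (L - 0) = x 0 := by
    have := h.px 0
    rw [zero_add] at this
    rw [sub_zero, this]
  have exT : x (L - (L - T)) = x T := by rw [show L - (L - T) = T by ring]
  simp only [er0, erT] at hs' l0' l1' g2'
  rw [ex0] at l0'
  rw [exT] at l1'
  have key := tj_le hs hs' (by
    intro ρ hρ _
    obtain ⟨a1, a2⟩ := g2 ρ hρ
    obtain ⟨b1, b2⟩ := g2' ρ hρ
    have c1 : L - g' ρ ∈ Ioo T L := ⟨by linarith [b1.2], by linarith [b1.1]⟩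
    constructor
    · intro h2
      have := hi (g ρ) a1 (L - g' ρ) c1 (a2.trans b2.symm) (by rw [a2]; exact h2)
      linarith
    · intro h2
      have := hii (L - g' ρ) c1 (by rw [b2]; exact h2)
      linarith)
  have k1 := tj_bottom hs hs' l0 l0' h.bot key
  have k2 := tj_top hs hs' l1 l1' h.top key
  exact ⟨by linarith, by linarith⟩

/-- **J-lemma, `2` = the right strand.** -/
theorem TLoop.J_right {x r θ : ℝ → ℝ} {L T : ℝ} (h : TLoop x r θ L T)
    (hi : ∀ s ∈ Ioo 0 T, ∀ s' ∈ Ioo T L, r s = r s' → 2 ≤ r s ^ 2 → x s - x s' < 4)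
    (hii : ∀ s ∈ Ioo 0 T, r s ^ 2 < 2 → x s < 2) : x 0 ≤ 0 ∧ 0 ≤ x T := by
  have h1 := h.flip.J_left (by
    intro s hs s' hs' hr h2
    have c1 : L - s ∈ Ioo T L := ⟨by linarith [hs.2], by linarith [hs.1]⟩
    have c2 : L - s' ∈ Ioo 0 T := ⟨by linarith [hs'.2], by linarith [hs'.1]⟩
    have := hi (L - s') c2 (L - s) c1 hr.symm (by rw [← hr]; exact h2)
    linarith) (by
    intro s' hs' h2
    have c2 : L - s' ∈ Ioo 0 T := ⟨by linarith [hs'.2], by linarith [hs'.1]⟩
    have := hii (L - s') c2 h2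
    linarith)
  have ex0 : x (L - 0) = x 0 := by
    have := h.px 0
    rw [zero_add] at this
    rw [sub_zero, this]
  have exT : x (L - (L - T)) = x T := by rw [show L - (L - T) = T by ring]
  rw [ex0, exT] at h1
  exact ⟨by linarith [h1.1], by linarith [h1.2]⟩

/-- if the lowest point is on the axis then the curve is symmetric -/
theorem TLoop.sym {x r θ : ℝ → ℝ} {L T : ℝ} (h : TLoop x r θ L T) (h0 : x 0 = 0) :
    IsSym (range (fun s => (x s, r s))) := by
  have er0 : r (L - 0) = r 0 := by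
    have := h.pr 0
    rw [zero_add] at this
    rw [sub_zero, this]
  have ex0 : x (L - 0) = x 0 := by
    have := h.px 0
    rw [zero_add] at this
    rw [sub_zero, this]
  obtain ⟨e1, e2, e3⟩ := profile_unique h.prof h.flip.prof 0 (by rw [ex0, h0]; simp) er0.symm
    (by rw [h.θ0, h.flip.θ0])
  rintro p ⟨s, rfl⟩
  refine ⟨L - s, ?_⟩
  have a1 := congrFun e1 s
  have a2 := congrFun e2 s
  simp only at a1 a2 ⊢
  rw [a1, a2, neg_neg]

/-- **Theta-J-lemma for closed strictly convex profiles.** -/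
theorem TLoop.J_sym {x r θ : ℝ → ℝ} {L T : ℝ} (h : TLoop x r θ L T)
    (hi : ∀ s ∈ Ioo 0 T, ∀ s' ∈ Ioo T L, r s = r s' → 2 ≤ r s ^ 2 → x s - x s' < 4)
    (hl : ∀ s' ∈ Ioo T L, r s' ^ 2 < 2 → -2 < x s')
    (hr : ∀ s ∈ Ioo 0 T, r s ^ 2 < 2 → x s < 2) : IsSym (range (fun s => (x s, r s))) :=
  h.sym (le_antisymm (h.J_right hi hr).1 (h.J_left hi hl).1)

end AT
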