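import Pool.Agent.H.MP_ce2c94_gt.TBDefs

/-!
# The function `n = y u u' + 4 - u²` of a graph solution

`(x² + u²)'' = (1 + u'²) n`, `u'' = (1 + u'²) (n - 2) / (2 u)`, and `n' = I / 2` where `I`, multiplied
by the positive weight `u e^{-(y² + u²)/4} / √(1 + u'²)`, has the derivative
`y u' n (n - 2) √(1 + u'²) e^{-(y² + u²)/4}`.
-/

namespace AT

open Real Set Filter Topology

/-- `n = y u p + 4 - u²` -/
noncomputable def nq (u p : ℝ → ℝ) (y : ℝ) : ℝ := y * (u y * p y) + 4 - u y ^ 2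

/-- `I = 2 n' = y (1 + p²) n - 2 (y + u p)` -/
noncomputable def II (u p : ℝ → ℝ) (y : ℝ) : ℝ :=
  y * (1 + p y ^ 2) * nq u p y - 2 * (y + u y * p y)

/-- the weight `u e^{-(y² + u²)/4} / √(1 + p²)` -/
noncomputable def wt (u p : ℝ → ℝ) (y : ℝ) : ℝ :=
  u y * exp (-(y ^ 2 + u y ^ 2) / 4) / √(1 + p y ^ 2)

/-- `M = weight * I` -/
noncomputable def Mq (u p : ℝ → ℝ) (y : ℝ) : ℝ := wt u p y * II u p y

theorem Gr.wt_pos {α β : ℝ} {u p : ℝ → ℝ} (h : Gr α β u p) {y : ℝ} (hy : y ∈ Ioo α β) :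
    0 < wt u p y := by
  have h1 := h.pos y hy
  have h2 : 0 < √(1 + p y ^ 2) := sqrt_pos.2 (by positivity)
  unfold wt
  positivity

/-- `u'' = (1 + p²) (n - 2) / (2 u)` -/
theorem Gr.dp' {α β : ℝ} {u p : ℝ → ℝ} (h : Gr α β u p) {y : ℝ} (hy : y ∈ Ioo α β) :
    HasDerivAt p ((1 + p y ^ 2) * (nq u p y - 2) / (2 * u y)) y := by
  have h1 := h.pos y hy
  have h2 := h.dp y hy
  have e : (1 + p y ^ 2) * (y * p y / 2 + (1 / u y - u y / 2)) =
      (1 + p y ^ 2) * (nq u p y - 2) / (2 * u y) := by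
    unfold nq
    field_simp
    ring
  rwa [e] at h2

/-- `n' = I / 2` -/
theorem Gr.dnn {α β : ℝ} {u p : ℝ → ℝ} (h : Gr α β u p) {y : ℝ} (hy : y ∈ Ioo α β) :
    HasDerivAt (nq u p) (II u p y / 2) y := by
  have h0 := h.pos y hy
  have h1 := h.du y hy
  have h2 := h.dp' hy
  have h3 : HasDerivAt (fun y => y * (u y * p y) + 4 - u y ^ 2)
      (1 * (u y * p y) + y * (p y * p y + u y * ((1 + p y ^ 2) * (nq u p y - 2) / (2 * u y)))
        - 2 * u y * p y) y := by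
    have h4 := (((hasDerivAt_id y).mul (h1.mul h2)).add_const (4 : ℝ)).sub (h1.pow 2)
    refine HasDerivAt.congr_deriv (f := fun y => y * (u y * p y) + 4 - u y ^ 2) h4 ?_
    simp
  have e : 1 * (u y * p y) + y * (p y * p y + u y * ((1 + p y ^ 2) * (nq u p y - 2) / (2 * u y)))
        - 2 * u y * p y = II u p y / 2 := by
    unfold II
    field_simp
    ring
  rw [e] at h3
  exact h3

/-- `I' = (y/2) (1 + p²) I + 2 y p p' n` -/
theorem Gr.dII {α β : ℝ} {u p : ℝ → ℝ} (h : Gr α β u p) {y : ℝ} (hy : y ∈ Ioo α β) :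
    HasDerivAt (II u p) (y / 2 * (1 + p y ^ 2) * II u p y +
      y * p y * (1 + p y ^ 2) * (nq u p y - 2) * nq u p y / u y) y := by
  have h0 := h.pos y hy
  have h1 := h.du y hy
  have h2 := h.dp' hy
  have h3 := h.dnn hy
  have h4 : HasDerivAt (II u p)
      ((1 * (1 + p y ^ 2) + y * (2 * p y * ((1 + p y ^ 2) * (nq u p y - 2) / (2 * u y)))) *
        nq u p y + y * (1 + p y ^ 2) * (II u p y / 2)
        - 2 * (1 + (p y * p y + u y * ((1 + p y ^ 2) * (nq u p y - 2) / (2 * u y))))) y := by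
    have h5 : HasDerivAt (fun y => 1 + p y ^ 2)
        (2 * p y * ((1 + p y ^ 2) * (nq u p y - 2) / (2 * u y))) y := by
      have := (h2.pow 2).const_add (1 : ℝ)
      simpa using this
    have h6 := (((hasDerivAt_id y).mul h5).mul h3).sub
      (((hasDerivAt_id y).add (h1.mul h2)).const_mul (2 : ℝ))
    refine HasDerivAt.congr_deriv (f := II u p) h6 ?_
    simp
  convert h4 using 1
  unfold II
  field_simp
  ring

/-- the derivative of the weight is `-(y/2) (1 + p²)` times the weight -/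
theorem Gr.dwt {α β : ℝ} {u p : ℝ → ℝ} (h : Gr α β u p) {y : ℝ} (hy : y ∈ Ioo α β) :
    HasDerivAt (wt u p) (-(y / 2 * (1 + p y ^ 2)) * wt u p y) y := by
  have h0 := h.pos y hy
  have h1 := h.du y hy
  have h2 := h.dp' hy
  have hq : 0 < 1 + p y ^ 2 := by positivity
  have hs : 0 < √(1 + p y ^ 2) := sqrt_pos.2 hq
  have hsq : √(1 + p y ^ 2) ^ 2 = 1 + p y ^ 2 := sq_sqrt hq.le
  have h5 : HasDerivAt (fun y => 1 + p y ^ 2)
      (2 * p y * ((1 + p y ^ 2) * (nq u p y - 2) / (2 * u y))) y := by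
    have := (h2.pow 2).const_add (1 : ℝ)
    simpa using this
  have h6 := h5.sqrt hq.ne'
  have h7 : HasDerivAt (fun y => -(y ^ 2 + u y ^ 2) / 4) (-(2 * y + 2 * u y * p y) / 4) y := by
    have := (((hasDerivAt_pow 2 y).add (h1.pow 2)).neg).div_const (4 : ℝ)
    simpa using this
  have h8 := (h1.mul h7.exp).div h6 hs.ne'
  have e : ((p y * exp (-(y ^ 2 + u y ^ 2) / 4) +
      u y * (exp (-(y ^ 2 + u y ^ 2) / 4) * (-(2 * y + 2 * u y * p y) / 4))) * √(1 + p y ^ 2) -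
      u y * exp (-(y ^ 2 + u y ^ 2) / 4) * (2 * p y * ((1 + p y ^ 2) * (nq u p y - 2) /
      (2 * u y)) / (2 * √(1 + p y ^ 2)))) / √(1 + p y ^ 2) ^ 2 =
      -(y / 2 * (1 + p y ^ 2)) * wt u p y := by
    unfold wt
    generalize exp (-(y ^ 2 + u y ^ 2) / 4) = E
    rw [div_eq_iff (by positivity)]
    have e1 : -(y / 2 * (1 + p y ^ 2)) * (u y * E / √(1 + p y ^ 2)) * √(1 + p y ^ 2) ^ 2 =
        -(y / 2 * (1 + p y ^ 2)) * (u y * E) * √(1 + p y ^ 2) := by
      field_simp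
    rw [e1]
    have e2 : u y * E * (2 * p y * ((1 + p y ^ 2) * (nq u p y - 2) / (2 * u y)) /
        (2 * √(1 + p y ^ 2))) = E * p y * (nq u p y - 2) / 2 * √(1 + p y ^ 2) := by
      have e3 : (1 + p y ^ 2) = √(1 + p y ^ 2) * √(1 + p y ^ 2) := by rw [← sq, hsq]
      calc _ = E * p y * (nq u p y - 2) / 2 * ((1 + p y ^ 2) / √(1 + p y ^ 2)) := by
            field_simp
        _ = _ := by
            rw [div_eq_iff hs.ne'.symm.symm |>.2 e3]
    rw [e2]
    unfold nq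
    ring
  rw [← e]
  exact h8

/-- `M' = weight * y p (1 + p²) (n - 2) n / u` -/
theorem Gr.dMM {α β : ℝ} {u p : ℝ → ℝ} (h : Gr α β u p) {y : ℝ} (hy : y ∈ Ioo α β) :
    HasDerivAt (Mq u p)
      (wt u p y * (y * p y * (1 + p y ^ 2) * (nq u p y - 2) * nq u p y / u y)) y := by
  have h1 := (h.dwt hy).mul (h.dII hy)
  refine HasDerivAt.congr_deriv (f := Mq u p) h1 ?_
  ring

/-- at a point with `n = 2`: `n' = -2 p / u` -/
theorem Gr.II_two {α β : ℝ} {u p : ℝ → ℝ} (h : Gr α β u p) {y : ℝ} (hy : y ∈ Ioo α β)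
    (hn : nq u p y = 2) : II u p y = -4 * p y / u y := by
  have h0 := h.pos y hy
  have e : y * (u y * p y) = u y ^ 2 - 2 := by
    unfold nq at hn
    linarith
  unfold II
  rw [hn, eq_div_iff h0.ne']
  linear_combination 2 * p y * e

/-- at a horizontal point: `n = 4 - u²`, `I = y (n - 2)` -/
theorem nn_hor {u p : ℝ → ℝ} {y : ℝ} (hp : p y = 0) : nq u p y = 4 - u y ^ 2 := by
  unfold nq
  rw [hp]
  ring

theorem II_hor {u p : ℝ → ℝ} {y : ℝ} (hp : p y = 0) : II u p y = y * (nq u p y - 2) := by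
  unfold II
  rw [hp]
  ring

/-- reflection `y ↦ -y` -/
theorem Gr.mirror {α β : ℝ} {u p : ℝ → ℝ} (h : Gr α β u p) :
    Gr (-β) (-α) (fun y => u (-y)) (fun y => -p (-y)) := by
  have hm : ∀ y ∈ Ioo (-β) (-α), -y ∈ Ioo α β := fun y hy =>
    ⟨by linarith [hy.2], by linarith [hy.1]⟩
  refine ⟨fun y hy => h.pos _ (hm y hy), fun y hy => ?_, fun y hy => ?_⟩
  · have h1 := HasDerivAt.comp y (h₂ := u) (h := fun y : ℝ => -y) (h.du _ (hm y hy))
      (hasDerivAt_neg y)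
    refine HasDerivAt.congr_deriv (f := fun y => u (-y)) h1 ?_
    ring
  · have h1 := (HasDerivAt.comp y (h₂ := p) (h := fun y : ℝ => -y) (h.dp _ (hm y hy))
      (hasDerivAt_neg y)).neg
    refine HasDerivAt.congr_deriv (f := fun y => -p (-y)) h1 ?_
    ring

theorem nn_mirror {u p : ℝ → ℝ} (y : ℝ) :
    nq (fun y => u (-y)) (fun y => -p (-y)) y = nq u p (-y) := by
  unfold nq
  ring

theorem Gr.cu {α β : ℝ} {u p : ℝ → ℝ} (h : Gr α β u p) {y : ℝ} (hy : y ∈ Ioo α β) :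
    ContinuousAt u y := (h.du y hy).continuousAt

theorem Gr.cp {α β : ℝ} {u p : ℝ → ℝ} (h : Gr α β u p) {y : ℝ} (hy : y ∈ Ioo α β) :
    ContinuousAt p y := (h.dp y hy).continuousAt

theorem Gr.cn {α β : ℝ} {u p : ℝ → ℝ} (h : Gr α β u p) {y : ℝ} (hy : y ∈ Ioo α β) :
    ContinuousAt (nq u p) y := (h.dnn hy).continuousAt

/-- not the sphere, not the cylinder -/
structure Gr.Gen (α β : ℝ) (u p : ℝ → ℝ) : Prop where
  gr : Gr α β u p
  ns : ∀ y ∈ Ioo α β, ¬ (nq u p y = 0 ∧ II u p y = 0)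
  nc : ∀ y ∈ Ioo α β, ¬ (p y = 0 ∧ nq u p y = 2)

theorem Gr.Gen.mirror {α β : ℝ} {u p : ℝ → ℝ} (h : Gr.Gen α β u p) :
    Gr.Gen (-β) (-α) (fun y => u (-y)) (fun y => -p (-y)) := by
  have hm : ∀ y ∈ Ioo (-β) (-α), -y ∈ Ioo α β := fun y hy =>
    ⟨by linarith [hy.2], by linarith [hy.1]⟩
  refine ⟨h.gr.mirror, fun y hy => ?_, fun y hy => ?_⟩
  · rintro ⟨h1, h2⟩
    rw [nn_mirror] at h1
    refine h.ns _ (hm y hy) ⟨h1, ?_⟩
    have e : II (fun y => u (-y)) (fun y => -p (-y)) y = -II u p (-y) := by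
      unfold II
      rw [nn_mirror]
      ring
    rw [e] at h2
    linarith
  · rintro ⟨h1, h2⟩
    rw [nn_mirror] at h2
    exact h.nc _ (hm y hy) ⟨by linarith, h2⟩

/-- first time a continuous function drops to the value `c` -/
theorem first_le {f : ℝ → ℝ} {a b c : ℝ} (hab : a ≤ b) (hf : ContinuousOn f (Icc a b))
    (ha : c < f a) (hb : f b ≤ c) : ∃ z ∈ Ioc a b, f z = c ∧ ∀ y ∈ Ico a z, c < f y := by
  have hne : {y ∈ Icc a b | f y ≤ c}.Nonempty := ⟨b, ⟨hab, le_rfl⟩, hb⟩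
  have hcl : IsClosed {y ∈ Icc a b | f y ≤ c} := hf.preimage_isClosed_of_isClosed isClosed_Icc isClosed_Iic
  have hbd : BddBelow {y ∈ Icc a b | f y ≤ c} := ⟨a, fun y hy => hy.1.1⟩
  have hz := hcl.csInf_mem hne hbd
  set z := sInf {y ∈ Icc a b | f y ≤ c} with hzd
  have hmin : ∀ y ∈ Ico a z, c < f y := by
    intro y hy
    by_contra hc
    have : z ≤ y := csInf_le hbd ⟨⟨hy.1, hy.2.le.trans hz.1.2⟩, not_lt.1 hc⟩
    linarith [hy.2]
  have haz : a < z := by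
    rcases hz.1.1.lt_or_eq with h | h
    · exact h
    · exfalso
      have := hz.2
      rw [← h] at this
      linarith
  refine ⟨z, ⟨haz, hz.1.2⟩, le_antisymm hz.2 ?_, hmin⟩
  have hcw : ContinuousWithinAt f (Ico a z) z :=
    (hf z hz.1).mono fun y hy => ⟨hy.1, hy.2.le.trans hz.1.2⟩
  have hcl2 : z ∈ closure (Ico a z) := by
    rw [closure_Ico haz.ne]
    exact ⟨haz.le, le_rfl⟩
  haveI := mem_closure_iff_nhdsWithin_neBot.1 hcl2
  exact ge_of_tendsto hcw (eventually_nhdsWithin_of_forall fun y hy => (hmin y hy).le)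

end AT
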