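import Pool.Agent.H.MP_ce2c94_gt.TV0

/-!
# Moving to the right from a dip, and from a falling point with `n ≤ 0`
-/

namespace AT

open Real Set Filter Topology

theorem TVmono {f f' : ℝ → ℝ} {a b : ℝ} (hc : ContinuousOn f (Icc a b))
    (h : ∀ y ∈ Ioo a b, HasDerivAt f (f' y) y)
    (hn : ∀ y ∈ Ioo a b, 0 ≤ f' y) : MonotoneOn f (Icc a b) := by
  refine monotoneOn_of_deriv_nonneg (convex_Icc a b) hc
    (fun s hs => ?_) (fun s hs => ?_)
  · rw [interior_Icc] at hs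
    exact (h s hs).differentiableAt.differentiableWithinAt
  · rw [interior_Icc] at hs
    rw [(h s hs).deriv]
    exact hn s hs

theorem TVanti {f f' : ℝ → ℝ} {a b : ℝ} (hc : ContinuousOn f (Icc a b))
    (h : ∀ y ∈ Ioo a b, HasDerivAt f (f' y) y)
    (hn : ∀ y ∈ Ioo a b, f' y ≤ 0) : AntitoneOn f (Icc a b) := by
  refine antitoneOn_of_deriv_nonpos (convex_Icc a b) hc
    (fun s hs => ?_) (fun s hs => ?_)
  · rw [interior_Icc] at hs
    exact (h s hs).differentiableAt.differentiableWithinAt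
  · rw [interior_Icc] at hs
    rw [(h s hs).deriv]
    exact hn s hs

theorem TVsmono {f f' : ℝ → ℝ} {a b : ℝ} (hc : ContinuousOn f (Icc a b))
    (h : ∀ y ∈ Ioo a b, HasDerivAt f (f' y) y)
    (hn : ∀ y ∈ Ioo a b, 0 < f' y) : StrictMonoOn f (Icc a b) := by
  refine strictMonoOn_of_deriv_pos (convex_Icc a b) hc (fun s hs => ?_)
  rw [interior_Icc] at hs
  rw [(h s hs).deriv]
  exact hn s hs

theorem TVsanti {f f' : ℝ → ℝ} {a b : ℝ} (hc : ContinuousOn f (Icc a b))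
    (h : ∀ y ∈ Ioo a b, HasDerivAt f (f' y) y)
    (hn : ∀ y ∈ Ioo a b, f' y < 0) : StrictAntiOn f (Icc a b) := by
  refine strictAntiOn_of_deriv_neg (convex_Icc a b) hc (fun s hs => ?_)
  rw [interior_Icc] at hs
  rw [(h s hs).deriv]
  exact hn s hs

theorem Gr.ccn {α β a b : ℝ} {u p : ℝ → ℝ} (h : Gr α β u p) (hab : Icc a b ⊆ Ioo α β) :
    ContinuousOn (nq u p) (Icc a b) :=
  fun _ hy => (h.cn (hab hy)).continuousWithinAt

theorem Gr.ccp {α β a b : ℝ} {u p : ℝ → ℝ} (h : Gr α β u p) (hab : Icc a b ⊆ Ioo α β) :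
    ContinuousOn p (Icc a b) :=
  fun _ hy => (h.cp (hab hy)).continuousWithinAt

theorem Gr.ccM {α β a b : ℝ} {u p : ℝ → ℝ} (h : Gr α β u p) (hab : Icc a b ⊆ Ioo α β) :
    ContinuousOn (Mq u p) (Icc a b) :=
  fun _ hy => (h.dMM (hab hy)).continuousAt.continuousWithinAt

theorem Gr.dip {α β : ℝ} {u p : ℝ → ℝ} (h : Gr α β u p) {x₀ : ℝ} (hx₀ : x₀ ∈ Ioo α β)
    (h0 : 0 ≤ x₀) (hp : p x₀ = 0) (hn : 2 < nq u p x₀) :
    ∀ y ∈ Ioo x₀ β, 2 < nq u p y ∧ 0 < p y := by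
  have hsub : ∀ z ∈ Ioo x₀ β, Icc x₀ z ⊆ Ioo α β := fun z hz y hy =>
    ⟨hx₀.1.trans_le hy.1, hy.2.trans_lt hz.2⟩
  have hA : ∀ z ∈ Ioo x₀ β, (∀ y ∈ Ioo x₀ z, 2 < nq u p y) → StrictMonoOn p (Icc x₀ z) := by
    intro z hz hy
    refine TVsmono (h.ccp (hsub z hz)) (fun y hy1 => h.dp' (hsub z hz ⟨hy1.1.le, hy1.2.le⟩))
      fun y hy1 => ?_
    have h1 := h.pos y (hsub z hz ⟨hy1.1.le, hy1.2.le⟩)
    have h2 := hy y hy1
    have h3 : 0 < nq u p y - 2 := by linarith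
    positivity
  have hB : ∀ z ∈ Ioo x₀ β, (∀ y ∈ Ioo x₀ z, 2 < nq u p y) → nq u p x₀ ≤ nq u p z := by
    intro z hz hy
    have hp0 : ∀ y ∈ Icc x₀ z, 0 ≤ p y := by
      intro y hy1
      have := (hA z hz hy).monotoneOn ⟨le_refl x₀, hz.1.le⟩ hy1 hy1.1
      rw [hp] at this
      exact this
    have hM : MonotoneOn (Mq u p) (Icc x₀ z) := by
      refine TVmono (h.ccM (hsub z hz)) (fun y hy1 => h.dMM (hsub z hz ⟨hy1.1.le, hy1.2.le⟩))
        fun y hy1 => ?_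
      have h1 := h.pos y (hsub z hz ⟨hy1.1.le, hy1.2.le⟩)
      have h2 := hy y hy1
      have h3 : 0 ≤ nq u p y - 2 := by linarith
      have h4 := h.wt_pos (hsub z hz ⟨hy1.1.le, hy1.2.le⟩)
      have h5 := hp0 y ⟨hy1.1.le, hy1.2.le⟩
      have h6 : 0 ≤ y := h0.trans hy1.1.le
      have h7 : 0 ≤ nq u p y := by linarith
      positivity
    have hM0 : 0 ≤ Mq u p x₀ := by
      unfold Mq
      rw [II_hor hp]
      have h4 := h.wt_pos hx₀
      have h3 : 0 ≤ nq u p x₀ - 2 := by linarith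
      positivity
    refine TVmono (h.ccn (hsub z hz)) (fun y hy1 => h.dnn (hsub z hz ⟨hy1.1.le, hy1.2.le⟩))
      (fun y hy1 => ?_) ⟨le_refl x₀, hz.1.le⟩ ⟨hz.1.le, le_refl z⟩ hz.1.le
    have h1 := hM ⟨le_refl x₀, hz.1.le⟩ ⟨hy1.1.le, hy1.2.le⟩ hy1.1.le
    have h2 : 0 ≤ wt u p y * II u p y := hM0.trans h1
    have h3 := h.wt_pos (hsub z hz ⟨hy1.1.le, hy1.2.le⟩)
    have h4 : 0 ≤ II u p y := nonneg_of_mul_nonneg_right h2 h3
    linarith
  have hC : ∀ y ∈ Ioo x₀ β, 2 < nq u p y := by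
    intro y hy
    by_contra hc
    rw [not_lt] at hc
    obtain ⟨z, hz, hz1, hz2⟩ := first_le hy.1.le (h.ccn (hsub y hy)) hn hc
    have := hB z ⟨hz.1, hz.2.trans_lt hy.2⟩ fun t ht => hz2 t ⟨ht.1.le, ht.2⟩
    linarith
  intro y hy
  refine ⟨hC y hy, ?_⟩
  have := hA y hy (fun t ht => hC t ⟨ht.1, ht.2.trans hy.2⟩) ⟨le_refl x₀, hy.1.le⟩
    ⟨hy.1.le, le_refl y⟩ hy.1
  rwa [hp] at this

theorem Gr.dn {α β : ℝ} {u p : ℝ → ℝ} (h : Gr α β u p) {x₀ : ℝ} (hx₀ : x₀ ∈ Ioo α β)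
    (h0 : 0 ≤ x₀) (hp : p x₀ ≤ 0) (hn : nq u p x₀ ≤ 0) (hI : II u p x₀ ≤ 0)
    (hs : nq u p x₀ < 0 ∨ II u p x₀ < 0) :
    ∀ y ∈ Ioo x₀ β, nq u p y < 0 ∧ p y < 0 := by
  have hsub : ∀ z ∈ Ioo x₀ β, Icc x₀ z ⊆ Ioo α β := fun z hz y hy =>
    ⟨hx₀.1.trans_le hy.1, hy.2.trans_lt hz.2⟩
  have hA : ∀ z ∈ Ioo x₀ β, (∀ y ∈ Ioo x₀ z, nq u p y ≤ 0) → StrictAntiOn p (Icc x₀ z) := by
    intro z hz hy
    refine TVsanti (h.ccp (hsub z hz)) (fun y hy1 => h.dp' (hsub z hz ⟨hy1.1.le, hy1.2.le⟩))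
      fun y hy1 => ?_
    have h1 := h.pos y (hsub z hz ⟨hy1.1.le, hy1.2.le⟩)
    have h2 := hy y hy1
    refine div_neg_of_neg_of_pos (mul_neg_of_pos_of_neg (by positivity) (by linarith))
      (by positivity)
  have hB : ∀ z ∈ Ioo x₀ β, (∀ y ∈ Ioo x₀ z, nq u p y ≤ 0) → nq u p z < 0 := by
    intro z hz hy
    have hp0 : ∀ y ∈ Icc x₀ z, p y ≤ 0 := by
      intro y hy1
      exact ((hA z hz hy).antitoneOn ⟨le_refl x₀, hz.1.le⟩ hy1 hy1.1).trans hp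
    have hM : AntitoneOn (Mq u p) (Icc x₀ z) := by
      refine TVanti (h.ccM (hsub z hz)) (fun y hy1 => h.dMM (hsub z hz ⟨hy1.1.le, hy1.2.le⟩))
        fun y hy1 => ?_
      have h1 := h.pos y (hsub z hz ⟨hy1.1.le, hy1.2.le⟩)
      have h2 := hy y hy1
      have h3 : 0 ≤ 2 - nq u p y := by linarith
      have h4 := h.wt_pos (hsub z hz ⟨hy1.1.le, hy1.2.le⟩)
      have h5 : 0 ≤ -p y := by linarith [hp0 y ⟨hy1.1.le, hy1.2.le⟩]
      have h6 : 0 ≤ y := h0.trans hy1.1.le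
      have h7 : 0 ≤ -nq u p y := by linarith
      have h8 : 0 ≤ wt u p y * (y * (-p y) * (1 + p y ^ 2) * (2 - nq u p y) * (-nq u p y) / u y) := by
        positivity
      have h9 : wt u p y * (y * p y * (1 + p y ^ 2) * (nq u p y - 2) * nq u p y / u y) =
        -(wt u p y * (y * (-p y) * (1 + p y ^ 2) * (2 - nq u p y) * (-nq u p y) / u y)) := by
        ring
      rw [h9]
      linarith
    have hIy : ∀ y ∈ Icc x₀ z, II u p y ≤ 0 := by
      intro y hy1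
      have h1 := hM ⟨le_refl x₀, hz.1.le⟩ hy1 hy1.1
      have h3 := h.wt_pos (hsub z hz hy1)
      have h4 := h.wt_pos hx₀
      have h5 : wt u p x₀ * II u p x₀ ≤ 0 := mul_nonpos_of_nonneg_of_nonpos h4.le hI
      have h2 : wt u p y * II u p y ≤ 0 := h1.trans h5
      by_contra hc
      rw [not_le] at hc
      have := mul_pos h3 hc
      linarith
    rcases hs with hs | hs
    · have := TVanti (h.ccn (hsub z hz)) (fun y hy1 => h.dnn (hsub z hz ⟨hy1.1.le, hy1.2.le⟩))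
        (fun y hy1 => by linarith [hIy y ⟨hy1.1.le, hy1.2.le⟩])
        ⟨le_refl x₀, hz.1.le⟩ ⟨hz.1.le, le_refl z⟩ hz.1.le
      exact this.trans_lt hs
    · have hIs : ∀ y ∈ Icc x₀ z, II u p y < 0 := by
        intro y hy1
        have h1 := hM ⟨le_refl x₀, hz.1.le⟩ hy1 hy1.1
        have h3 := h.wt_pos (hsub z hz hy1)
        have h4 := h.wt_pos hx₀
        have h5 : wt u p x₀ * II u p x₀ < 0 := mul_neg_of_pos_of_neg h4 hs
        have h2 : wt u p y * II u p y < 0 := h1.trans_lt h5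
        by_contra hc
        rw [not_lt] at hc
        have := mul_nonneg h3.le hc
        linarith
      have := TVsanti (h.ccn (hsub z hz)) (fun y hy1 => h.dnn (hsub z hz ⟨hy1.1.le, hy1.2.le⟩))
        (fun y hy1 => by linarith [hIs y ⟨hy1.1.le, hy1.2.le⟩])
        ⟨le_refl x₀, hz.1.le⟩ ⟨hz.1.le, le_refl z⟩ hz.1
      exact this.trans_le hn
  have hC : ∀ y ∈ Ioo x₀ β, nq u p y < 0 := by
    intro y hy
    by_contra hc
    rw [not_lt] at hc
    obtain ⟨x₁, hx₁, hx₂, hx₃⟩ : ∃ x₁ ∈ Ico x₀ y, nq u p x₁ < 0 ∧ ∀ t ∈ Ioc x₀ x₁, nq u p t ≤ 0 := by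
      rcases lt_or_ge (nq u p x₀) 0 with h1 | h1
      · exact ⟨x₀, ⟨le_refl _, hy.1⟩, h1, fun t ht => absurd ht.1 (not_lt.mpr ht.2)⟩
      · have h2 : nq u p x₀ = 0 := le_antisymm hn h1
        have h3 : II u p x₀ < 0 := by
          rcases hs with hs | hs
          · exact absurd hs (not_lt.mpr h1)
          · exact hs
        have h4 : ∀ᶠ t in 𝓝[>] x₀, nq u p t < 0 := by
          have h5 := (h.dnn hx₀).tendsto_slope
          have h6 : ∀ᶠ t in 𝓝[≠] x₀, slope (nq u p) x₀ t < 0 :=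
            h5.eventually (gt_mem_nhds (by linarith))
          have h7 : 𝓝[>] x₀ ≤ 𝓝[≠] x₀ := nhdsWithin_mono _ fun t ht => ne_of_gt ht
          filter_upwards [h7 h6, self_mem_nhdsWithin] with t ht ht1
          rw [slope_def_field, h2, sub_zero] at ht
          have ht2 : 0 < t - x₀ := sub_pos.mpr ht1
          exact (div_neg_iff.mp ht).resolve_left (fun h => absurd h.2 (not_lt.mpr ht2.le)) |>.1
        obtain ⟨t, ht1, ht2⟩ := (mem_nhdsGT_iff_exists_Ioo_subset.mp h4)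
        have hx : x₀ < (x₀ + min t y) / 2 ∧ (x₀ + min t y) / 2 < min t y := by
          have : x₀ < min t y := lt_min ht1 hy.1
          constructor <;> linarith
        refine ⟨(x₀ + min t y) / 2, ⟨hx.1.le, hx.2.trans_le (min_le_right _ _)⟩,
          ht2 ⟨hx.1, hx.2.trans_le (min_le_left _ _)⟩, fun s hs' => ?_⟩
        exact (ht2 ⟨hs'.1, hs'.2.trans_lt (hx.2.trans_le (min_le_left _ _))⟩).le
    have hcc : ContinuousOn (fun t => -nq u p t) (Icc x₁ y) :=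
      (h.ccn (fun t ht => hsub y hy ⟨hx₁.1.trans ht.1, ht.2⟩)).neg
    obtain ⟨z, hz, hz1, hz2⟩ := first_le (c := 0) hx₁.2.le hcc (by linarith) (by linarith)
    have hzz : z ∈ Ioo x₀ β := ⟨hx₁.1.trans_lt hz.1, hz.2.trans_lt hy.2⟩
    have := hB z hzz fun t ht => by
      rcases le_or_gt t x₁ with h1 | h1
      · exact hx₃ t ⟨ht.1, h1⟩
      · have := hz2 t ⟨h1.le, ht.2⟩
        linarith
    linarith
  intro y hy
  refine ⟨hC y hy, ?_⟩
  have := hA y hy (fun t ht => (hC t ⟨ht.1, ht.2.trans hy.2⟩).le) ⟨le_refl x₀, hy.1.le⟩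
    ⟨hy.1.le, le_refl y⟩ hy.1
  exact this.trans_le hp

end AT
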