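import Pool.Agent.H.MP_ce2c94_gt.TV0

/-!
# Small calculus lemmas
-/

namespace AT

open Real Set Filter Topology

theorem ev_gt {f : ℝ → ℝ} {f' x : ℝ} (h : HasDerivAt f f' x) (hf : 0 < f') :
    ∀ᶠ y in 𝓝[>] x, f x < f y := by
  have h1 : Tendsto (slope f x) (𝓝[>] x) (𝓝 f') :=
    (hasDerivAt_iff_tendsto_slope.1 h).mono_left
      (nhdsWithin_mono x fun y hy => (ne_of_gt hy : y ≠ x))
  filter_upwards [h1.eventually (lt_mem_nhds hf), self_mem_nhdsWithin] with y hy hxy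
  have h2 : 0 < y - x := sub_pos.2 hxy
  rw [slope_def_field] at hy
  have := mul_pos hy h2
  rw [div_mul_cancel₀ _ h2.ne'] at this
  linarith

theorem ev_lt {f : ℝ → ℝ} {f' x : ℝ} (h : HasDerivAt f f' x) (hf : f' < 0) :
    ∀ᶠ y in 𝓝[>] x, f y < f x := by
  filter_upwards [ev_gt h.neg (neg_pos.2 hf)] with y hy
  have : -f x < -f y := hy
  linarith

theorem ev_gt_left {f : ℝ → ℝ} {f' x : ℝ} (h : HasDerivAt f f' x) (hf : 0 < f') :
    ∀ᶠ y in 𝓝[<] x, f y < f x := by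
  have h1 : Tendsto (slope f x) (𝓝[<] x) (𝓝 f') :=
    (hasDerivAt_iff_tendsto_slope.1 h).mono_left
      (nhdsWithin_mono x fun y hy => (ne_of_lt hy : y ≠ x))
  filter_upwards [h1.eventually (lt_mem_nhds hf), self_mem_nhdsWithin] with y hy hxy
  have h2 : 0 < x - y := sub_pos.2 hxy
  have h3 : y - x ≠ 0 := by linarith
  rw [slope_def_field] at hy
  have := mul_pos hy h2
  have e : (f y - f x) / (y - x) * (x - y) = f x - f y := by
    field_simp
    ring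
  rw [e] at this
  linarith

theorem ev_lt_left {f : ℝ → ℝ} {f' x : ℝ} (h : HasDerivAt f f' x) (hf : f' < 0) :
    ∀ᶠ y in 𝓝[<] x, f x < f y := by
  filter_upwards [ev_gt_left h.neg (neg_pos.2 hf)] with y hy
  have : -f y < -f x := hy
  linarith

theorem mono_of {f f' : ℝ → ℝ} {a b : ℝ} (hf : ∀ y ∈ Icc a b, HasDerivAt f (f' y) y)
    (h : ∀ y ∈ Ioo a b, 0 ≤ f' y) : MonotoneOn f (Icc a b) := by
  refine monotoneOn_of_deriv_nonneg (convex_Icc a b)
    (fun y hy => (hf y hy).continuousAt.continuousWithinAt) (fun y hy => ?_) (fun y hy => ?_)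
  · rw [interior_Icc] at hy
    exact (hf y (Ioo_subset_Icc_self hy)).differentiableAt.differentiableWithinAt
  · rw [interior_Icc] at hy
    rw [(hf y (Ioo_subset_Icc_self hy)).deriv]
    exact h y hy

theorem anti_of {f f' : ℝ → ℝ} {a b : ℝ} (hf : ∀ y ∈ Icc a b, HasDerivAt f (f' y) y)
    (h : ∀ y ∈ Ioo a b, f' y ≤ 0) : AntitoneOn f (Icc a b) := by
  refine antitoneOn_of_deriv_nonpos (convex_Icc a b)
    (fun y hy => (hf y hy).continuousAt.continuousWithinAt) (fun y hy => ?_) (fun y hy => ?_)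
  · rw [interior_Icc] at hy
    exact (hf y (Ioo_subset_Icc_self hy)).differentiableAt.differentiableWithinAt
  · rw [interior_Icc] at hy
    rw [(hf y (Ioo_subset_Icc_self hy)).deriv]
    exact h y hy

/-- first time a continuous function reaches the value `c` from below -/
theorem first_ge {f : ℝ → ℝ} {a b c : ℝ} (hab : a ≤ b) (hf : ContinuousOn f (Icc a b))
    (ha : f a < c) (hb : c ≤ f b) : ∃ z ∈ Ioc a b, f z = c ∧ ∀ y ∈ Ico a z, f y < c := by
  obtain ⟨z, hz, h1, h2⟩ := first_le (f := fun y => -f y) (c := -c) hab hf.neg (by linarith)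
    (by linarith)
  exact ⟨z, hz, by linarith, fun y hy => by have := h2 y hy; linarith⟩

/-- last time a continuous function is at the value `c` before it stays above -/
theorem last_le {f : ℝ → ℝ} {a b c : ℝ} (hab : a ≤ b) (hf : ContinuousOn f (Icc a b))
    (ha : f a ≤ c) (hb : c < f b) : ∃ z ∈ Ico a b, f z = c ∧ ∀ y ∈ Ioc z b, c < f y := by
  have hc : ContinuousOn (fun y => f (-y)) (Icc (-b) (-a)) := by
    refine hf.comp continuousOn_neg fun y hy => ⟨by linarith [hy.2], by linarith [hy.1]⟩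
  obtain ⟨z, hz, h1, h2⟩ := first_le (f := fun y => f (-y)) (c := c) (neg_le_neg hab) hc
    (by simpa using hb) (by simpa using ha)
  refine ⟨-z, ⟨by linarith [hz.2], by linarith [hz.1]⟩, h1, fun y hy => ?_⟩
  have := h2 (-y) ⟨by linarith [hy.2], by linarith [hy.1]⟩
  simpa using this

theorem last_ge {f : ℝ → ℝ} {a b c : ℝ} (hab : a ≤ b) (hf : ContinuousOn f (Icc a b))
    (ha : c ≤ f a) (hb : f b < c) : ∃ z ∈ Ico a b, f z = c ∧ ∀ y ∈ Ioc z b, f y < c := by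
  obtain ⟨z, hz, h1, h2⟩ := last_le (f := fun y => -f y) (c := -c) hab hf.neg (by linarith)
    (by linarith)
  exact ⟨z, hz, by linarith, fun y hy => by have := h2 y hy; linarith⟩

theorem Gr.cnOn {α β : ℝ} {u p : ℝ → ℝ} (h : Gr α β u p) {a b : ℝ} (ha : a ∈ Ioo α β)
    (hb : b ∈ Ioo α β) : ContinuousOn (nq u p) (Icc a b) := fun _ hy =>
  (h.cn ⟨ha.1.trans_le hy.1, hy.2.trans_lt hb.2⟩).continuousWithinAt

theorem Gr.cpOn {α β : ℝ} {u p : ℝ → ℝ} (h : Gr α β u p) {a b : ℝ} (ha : a ∈ Ioo α β)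
    (hb : b ∈ Ioo α β) : ContinuousOn p (Icc a b) := fun _ hy =>
  (h.cp ⟨ha.1.trans_le hy.1, hy.2.trans_lt hb.2⟩).continuousWithinAt

/-- the sign of `p'` is the sign of `n - 2` -/
theorem Gr.pd_nonneg {α β : ℝ} {u p : ℝ → ℝ} (h : Gr α β u p) {y : ℝ} (hy : y ∈ Ioo α β)
    (hn : 2 ≤ nq u p y) : 0 ≤ (1 + p y ^ 2) * (nq u p y - 2) / (2 * u y) := by
  have := h.pos y hy
  have h1 : 0 ≤ nq u p y - 2 := by linarith
  positivity

theorem Gr.pd_nonpos {α β : ℝ} {u p : ℝ → ℝ} (h : Gr α β u p) {y : ℝ} (hy : y ∈ Ioo α β)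
    (hn : nq u p y ≤ 2) : (1 + p y ^ 2) * (nq u p y - 2) / (2 * u y) ≤ 0 := by
  have h0 := h.pos y hy
  have h1 : 0 ≤ (1 + p y ^ 2) * (2 - nq u p y) / (2 * u y) := by
    have : 0 ≤ 2 - nq u p y := by linarith
    positivity
  have e : (1 + p y ^ 2) * (nq u p y - 2) / (2 * u y) =
      -((1 + p y ^ 2) * (2 - nq u p y) / (2 * u y)) := by ring
  rw [e]
  linarith

theorem Gr.pd_neg {α β : ℝ} {u p : ℝ → ℝ} (h : Gr α β u p) {y : ℝ} (hy : y ∈ Ioo α β)
    (hn : nq u p y < 2) : (1 + p y ^ 2) * (nq u p y - 2) / (2 * u y) < 0 := by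
  have h0 := h.pos y hy
  have h1 : 0 < (1 + p y ^ 2) * (2 - nq u p y) / (2 * u y) := by
    have : 0 < 2 - nq u p y := by linarith
    positivity
  have e : (1 + p y ^ 2) * (nq u p y - 2) / (2 * u y) =
      -((1 + p y ^ 2) * (2 - nq u p y) / (2 * u y)) := by ring
  rw [e]
  linarith

theorem Gr.pd_pos {α β : ℝ} {u p : ℝ → ℝ} (h : Gr α β u p) {y : ℝ} (hy : y ∈ Ioo α β)
    (hn : 2 < nq u p y) : 0 < (1 + p y ^ 2) * (nq u p y - 2) / (2 * u y) := by
  have h0 := h.pos y hy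
  have h1 : 0 < nq u p y - 2 := by linarith
  positivity

/-- while `n ≤ 2`, `p` is nonincreasing -/
theorem Gr.p_anti {α β : ℝ} {u p : ℝ → ℝ} (h : Gr α β u p) {a b : ℝ} (ha : a ∈ Ioo α β)
    (hb : b ∈ Ioo α β) (hn : ∀ y ∈ Ioo a b, nq u p y ≤ 2) : AntitoneOn p (Icc a b) :=
  anti_of (fun _ hy => h.dp' ⟨ha.1.trans_le hy.1, hy.2.trans_lt hb.2⟩) fun _ hy =>
    h.pd_nonpos ⟨ha.1.trans hy.1, hy.2.trans hb.2⟩ (hn _ hy)

/-- while `n ≥ 2`, `p` is nondecreasing -/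
theorem Gr.p_mono {α β : ℝ} {u p : ℝ → ℝ} (h : Gr α β u p) {a b : ℝ} (ha : a ∈ Ioo α β)
    (hb : b ∈ Ioo α β) (hn : ∀ y ∈ Ioo a b, 2 ≤ nq u p y) : MonotoneOn p (Icc a b) :=
  mono_of (fun _ hy => h.dp' ⟨ha.1.trans_le hy.1, hy.2.trans_lt hb.2⟩) fun _ hy =>
    h.pd_nonneg ⟨ha.1.trans hy.1, hy.2.trans hb.2⟩ (hn _ hy)

/-- If the source `y p (n - 2) n` is `≥ 0` on `(a, b)` and `I a ≥ 0`, then `n` is nondecreasing. -/
theorem Gr.n_mono {α β : ℝ} {u p : ℝ → ℝ} (h : Gr α β u p) {a b : ℝ} (ha : a ∈ Ioo α β)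
    (hb : b ∈ Ioo α β) (hI : 0 ≤ II u p a)
    (hs : ∀ y ∈ Ioo a b, 0 ≤ y * p y * (nq u p y - 2) * nq u p y) :
    MonotoneOn (nq u p) (Icc a b) := by
  have hin : ∀ y ∈ Icc a b, y ∈ Ioo α β := fun y hy =>
    ⟨ha.1.trans_le hy.1, hy.2.trans_lt hb.2⟩
  have hM : MonotoneOn (Mq u p) (Icc a b) := by
    refine mono_of (fun y hy => h.dMM (hin y hy)) fun y hy => ?_
    have hy' := hin y (Ioo_subset_Icc_self hy)
    have h0 := h.pos y hy'
    have h1 := h.wt_pos hy'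
    have h2 := hs y hy
    have e : wt u p y * (y * p y * (1 + p y ^ 2) * (nq u p y - 2) * nq u p y / u y) =
        wt u p y * (1 + p y ^ 2) / u y * (y * p y * (nq u p y - 2) * nq u p y) := by
      field_simp
    rw [e]
    have h3 : 0 ≤ wt u p y * (1 + p y ^ 2) / u y := by positivity
    exact mul_nonneg h3 h2
  refine mono_of (fun y hy => h.dnn (hin y hy)) fun y hy => ?_
  have hy' := hin y (Ioo_subset_Icc_self hy)
  have h1 := hM ⟨le_rfl, (hy.1.trans hy.2).le⟩ (Ioo_subset_Icc_self hy) hy.1.le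
  have h2 : 0 ≤ Mq u p a := mul_nonneg (h.wt_pos ha).le hI
  have h3 : 0 ≤ wt u p y * II u p y := h2.trans h1
  have h4 := h.wt_pos hy'
  have h5 : 0 ≤ II u p y := by
    by_contra hc
    have := mul_neg_of_pos_of_neg h4 (not_le.1 hc)
    linarith
  linarith

/-- If the source `y p (n - 2) n` is `≤ 0` on `(a, b)` and `I a ≤ 0`, then `n` is nonincreasing. -/
theorem Gr.n_anti {α β : ℝ} {u p : ℝ → ℝ} (h : Gr α β u p) {a b : ℝ} (ha : a ∈ Ioo α β)
    (hb : b ∈ Ioo α β) (hI : II u p a ≤ 0)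
    (hs : ∀ y ∈ Ioo a b, y * p y * (nq u p y - 2) * nq u p y ≤ 0) :
    AntitoneOn (nq u p) (Icc a b) := by
  have hin : ∀ y ∈ Icc a b, y ∈ Ioo α β := fun y hy =>
    ⟨ha.1.trans_le hy.1, hy.2.trans_lt hb.2⟩
  have hM : AntitoneOn (Mq u p) (Icc a b) := by
    refine anti_of (fun y hy => h.dMM (hin y hy)) fun y hy => ?_
    have hy' := hin y (Ioo_subset_Icc_self hy)
    have h0 := h.pos y hy'
    have h1 := h.wt_pos hy'
    have h2 := hs y hy
    have e : wt u p y * (y * p y * (1 + p y ^ 2) * (nq u p y - 2) * nq u p y / u y) =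
        wt u p y * (1 + p y ^ 2) / u y * (y * p y * (nq u p y - 2) * nq u p y) := by
      field_simp
    rw [e]
    have h3 : 0 ≤ wt u p y * (1 + p y ^ 2) / u y := by positivity
    exact mul_nonpos_of_nonneg_of_nonpos h3 h2
  refine anti_of (fun y hy => h.dnn (hin y hy)) fun y hy => ?_
  have hy' := hin y (Ioo_subset_Icc_self hy)
  have h1 := hM ⟨le_rfl, (hy.1.trans hy.2).le⟩ (Ioo_subset_Icc_self hy) hy.1.le
  have h2 : Mq u p a ≤ 0 := mul_nonpos_of_nonneg_of_nonpos (h.wt_pos ha).le hI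
  have h3 : wt u p y * II u p y ≤ 0 := h1.trans h2
  have h4 := h.wt_pos hy'
  have h5 : II u p y ≤ 0 := by
    by_contra hc
    have := mul_pos h4 (not_le.1 hc)
    linarith
  linarith

end AT
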