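import Pool.Agent.H.MP_ce2c94_gt.TV1a
import Pool.Agent.H.MP_ce2c94_gt.TVc

/-!
# Moving to the right from a falling point with `n ≥ 2` or `n ≥ 0`
-/

namespace AT

open Real Set Filter Topology

/-- while `p < 0`, `n` stays above 2 -/
theorem Gr.keep {α β : ℝ} {u p : ℝ → ℝ} (h : Gr α β u p) {x₀ y₁ : ℝ} (hx₀ : x₀ ∈ Ioo α β)
    (hy₁ : y₁ ∈ Ioo α β) (hxy : x₀ < y₁) (hp : ∀ y ∈ Icc x₀ y₁, p y < 0) (hn : 2 ≤ nq u p x₀) :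
    2 < nq u p y₁ := by
  by_contra hc
  have hc' : nq u p y₁ ≤ 2 := not_lt.1 hc
  have hin : ∀ y ∈ Icc x₀ y₁, y ∈ Ioo α β := fun y hy =>
    ⟨hx₀.1.trans_le hy.1, hy.2.trans_lt hy₁.2⟩
  have hI2 : ∀ y ∈ Icc x₀ y₁, nq u p y = 2 → 0 < II u p y / 2 := by
    intro y hy e
    rw [h.II_two (hin y hy) e]
    have h1 := h.pos y (hin y hy)
    have h2 := hp y hy
    have : 0 < -4 * p y / u y := div_pos (by linarith) h1
    linarith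
  obtain ⟨x', hx', hx'n⟩ : ∃ x' ∈ Ico x₀ y₁, 2 < nq u p x' := by
    rcases hn.lt_or_eq with h1 | h1
    · exact ⟨x₀, ⟨le_rfl, hxy⟩, h1⟩
    · have h2 := ev_gt (h.dnn hx₀) (hI2 x₀ ⟨le_rfl, hxy.le⟩ h1.symm)
      obtain ⟨y, hy, hy2⟩ := (h2.and (Ioo_mem_nhdsGT hxy)).exists
      exact ⟨y, ⟨hy2.1.le, hy2.2⟩, by rw [h1]; exact hy⟩
  obtain ⟨z, hz, hz1, hz2⟩ := first_le hx'.2.le
    (h.cnOn (hin x' (Ico_subset_Icc_self hx')) hy₁) hx'n hc'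
  have hzI : z ∈ Icc x₀ y₁ := ⟨hx'.1.trans hz.1.le, hz.2⟩
  have h3 := ev_gt_left (h.dnn (hin z hzI)) (hI2 z hzI hz1)
  obtain ⟨y, hy, hy2⟩ := (h3.and (Ioo_mem_nhdsLT hz.1)).exists
  have h4 := hz2 y ⟨hy2.1.le, hy2.2⟩
  rw [hz1] at hy
  linarith

/-- Proof. If `p x₀ = 0`: `nc` and `Gr.dip`. If `p x₀ < 0`: as long as `p < 0`, `n > 2` (at a first
return `n z = 2` one has `n' = -2 p / u > 0`, `II_two`; also just right of `x₀`). At the first zero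
`z` of `p`: `n z ≥ 2`, `nc`, so `n z > 2`, and then `Gr.dip`. -/
theorem Gr.Gen.up {α β : ℝ} {u p : ℝ → ℝ} (h : Gr.Gen α β u p) {x₀ : ℝ} (hx₀ : x₀ ∈ Ioo α β)
    (h0 : 0 ≤ x₀) (hp : p x₀ ≤ 0) (hn : 2 ≤ nq u p x₀) : ∀ y ∈ Ioo x₀ β, 2 < nq u p y := by
  intro y hy
  have hyI : y ∈ Ioo α β := ⟨hx₀.1.trans hy.1, hy.2⟩
  rcases hp.lt_or_eq with hp0 | hp0
  · by_cases hneg : ∀ t ∈ Icc x₀ y, p t < 0
    · exact h.gr.keep hx₀ hyI hy.1 hneg hn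
    · push Not at hneg
      obtain ⟨t, ht, hpt⟩ := hneg
      have htI : t ∈ Ioo α β := ⟨hx₀.1.trans_le ht.1, ht.2.trans_lt hy.2⟩
      obtain ⟨z, hz, hz1, hz2⟩ := first_ge ht.1 (h.gr.cpOn hx₀ htI) hp0 hpt
      have hzI : z ∈ Ioo α β := ⟨hx₀.1.trans hz.1, hz.2.trans_lt htI.2⟩
      have h1 : ∀ y' ∈ Ioo x₀ z, 2 < nq u p y' := fun y' hy' =>
        h.gr.keep hx₀ ⟨hx₀.1.trans hy'.1, hy'.2.trans hzI.2⟩ hy'.1
          (fun s hs => hz2 s ⟨hs.1, hs.2.trans_lt hy'.2⟩) hn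
      have h2 : 2 ≤ nq u p z := by
        have h3 : Tendsto (nq u p) (𝓝[<] z) (𝓝 (nq u p z)) :=
          (h.gr.cn hzI).tendsto.mono_left nhdsWithin_le_nhds
        refine ge_of_tendsto h3 ?_
        filter_upwards [Ioo_mem_nhdsLT hz.1] with s hs
        exact (h1 s hs).le
      have h4 : 2 < nq u p z := lt_of_le_of_ne h2 fun e => h.nc z hzI ⟨hz1, e.symm⟩
      rcases (hz.2.trans ht.2).lt_or_eq with h5 | h5
      · exact (h.gr.dip hzI (h0.trans hz.1.le) hz1 h4 y ⟨h5, hy.2⟩).1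
      · rw [← h5]
        exact h4
  · exact (h.gr.dip hx₀ h0 hp0 (lt_of_le_of_ne hn fun e => h.nc x₀ hx₀ ⟨hp0, e.symm⟩) y hy).1

/-- as long as `n ≤ 2` -/
theorem Gr.mid_aux {α β : ℝ} {u p : ℝ → ℝ} (h : Gr α β u p) {x₀ y₁ : ℝ} (hx₀ : x₀ ∈ Ioo α β)
    (hy₁ : y₁ ∈ Ioo α β) (hxy : x₀ < y₁) (h0 : 0 ≤ x₀) (hp : p x₀ ≤ 0) (hn : 0 ≤ nq u p x₀)
    (hI : 0 ≤ II u p x₀) (hs : 0 < nq u p x₀ ∨ 0 < II u p x₀)
    (h2 : ∀ y ∈ Ico x₀ y₁, nq u p y ≤ 2) : 0 < nq u p y₁ := by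
  by_contra hc
  have hc' : nq u p y₁ ≤ 0 := not_lt.1 hc
  have hin : ∀ y ∈ Icc x₀ y₁, y ∈ Ioo α β := fun y hy =>
    ⟨hx₀.1.trans_le hy.1, hy.2.trans_lt hy₁.2⟩
  have hpn : ∀ y ∈ Icc x₀ y₁, p y ≤ 0 := fun y hy =>
    (h.p_anti hx₀ hy₁ (fun t ht => h2 t ⟨ht.1.le, ht.2⟩) ⟨le_rfl, hxy.le⟩ hy hy.1).trans hp
  obtain ⟨x', hx', hx'n, hx'0⟩ : ∃ x' ∈ Ico x₀ y₁, 0 < nq u p x' ∧
      ∀ y ∈ Icc x₀ x', 0 ≤ nq u p y := by
    rcases hn.lt_or_eq with h1 | h1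
    · refine ⟨x₀, ⟨le_rfl, hxy⟩, h1, fun y hy => ?_⟩
      rw [le_antisymm hy.2 hy.1]
      exact hn
    · have hI' : 0 < II u p x₀ / 2 := by
        rcases hs with h3 | h3
        · rw [← h1] at h3
          exact absurd h3 (lt_irrefl _)
        · linarith
      have h2 := ev_gt (h.dnn hx₀) hI'
      rw [← h1] at h2
      obtain ⟨b, hb, hb2⟩ := (mem_nhdsGT_iff_exists_Ioo_subset.1 h2)
      have hb' : x₀ < b := hb
      refine ⟨(x₀ + min b y₁) / 2, ⟨?_, ?_⟩, ?_, ?_⟩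
      · have : x₀ < min b y₁ := lt_min hb' hxy
        linarith
      · have : x₀ < min b y₁ := lt_min hb' hxy
        have := min_le_right b y₁
        linarith
      · have h4 : x₀ < min b y₁ := lt_min hb' hxy
        have h5 := min_le_left b y₁
        exact hb2 ⟨by linarith, by linarith⟩
      · intro y hy
        rcases hy.1.lt_or_eq with h6 | h6
        · have h4 : x₀ < min b y₁ := lt_min hb' hxy
          have h5 := min_le_left b y₁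
          have : 0 < nq u p y := hb2 ⟨h6, by linarith [hy.2]⟩
          exact this.le
        · rw [← h6]
          exact hn
  obtain ⟨z, hz, hz1, hz2⟩ := first_le hx'.2.le
    (h.cnOn (hin x' (Ico_subset_Icc_self hx')) hy₁) hx'n hc'
  have hzI : z ∈ Icc x₀ y₁ := ⟨hx'.1.trans hz.1.le, hz.2⟩
  have hmono : MonotoneOn (nq u p) (Icc x₀ z) := by
    refine h.n_mono hx₀ (hin z hzI) hI fun y hy => ?_
    have hy' : y ∈ Icc x₀ y₁ := ⟨hy.1.le, hy.2.le.trans hz.2⟩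
    have a1 : 0 ≤ nq u p y := by
      rcases le_or_gt y x' with h1 | h1
      · exact hx'0 y ⟨hy.1.le, h1⟩
      · exact (hz2 y ⟨h1.le, hy.2⟩).le
    have a2 : nq u p y ≤ 2 := h2 y ⟨hy.1.le, hy.2.trans_le hz.2⟩
    have a3 := hpn y hy'
    have a4 : 0 ≤ y := h0.trans hy.1.le
    have a5 : 0 ≤ (-p y) * (2 - nq u p y) := mul_nonneg (by linarith) (by linarith)
    have a6 : 0 ≤ y * nq u p y := mul_nonneg a4 a1
    have e : y * p y * (nq u p y - 2) * nq u p y =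
        ((-p y) * (2 - nq u p y)) * (y * nq u p y) := by ring
    rw [e]
    exact mul_nonneg a5 a6
  have h7 := hmono ⟨hx'.1, hz.1.le⟩ ⟨hx'.1.trans hz.1.le, le_rfl⟩ hz.1.le
  rw [hz1] at h7
  linarith

/-- Proof. If `n x₀ ≥ 2`: `Gr.Gen.up`. If `n x₀ < 2`: as long as `n < 2`: `p' < 0`, `p ≤ 0`, and while
`0 ≤ n ≤ 2`: `M' ≥ 0`, so `M ≥ M x₀ ≥ 0`, `n` nondecreasing (start: `n > 0` just right of `x₀`). At the
first point `z` with `n z = 2`: `p z < 0`, `Gr.Gen.up`. -/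
theorem Gr.Gen.mid {α β : ℝ} {u p : ℝ → ℝ} (h : Gr.Gen α β u p) {x₀ : ℝ} (hx₀ : x₀ ∈ Ioo α β)
    (h0 : 0 ≤ x₀) (hp : p x₀ ≤ 0) (hn : 0 ≤ nq u p x₀) (hI : 0 ≤ II u p x₀)
    (hs : 0 < nq u p x₀ ∨ 0 < II u p x₀) : ∀ y ∈ Ioo x₀ β, 0 < nq u p y := by
  intro y hy
  have hyI : y ∈ Ioo α β := ⟨hx₀.1.trans hy.1, hy.2⟩
  rcases le_or_gt 2 (nq u p x₀) with hn2 | hn2
  · have := h.up hx₀ h0 hp hn2 y hy
    linarith
  by_cases hlt : ∀ t ∈ Ico x₀ y, nq u p t ≤ 2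
  · exact h.gr.mid_aux hx₀ hyI hy.1 h0 hp hn hI hs hlt
  · push Not at hlt
    obtain ⟨t, ht, htn⟩ := hlt
    have htI : t ∈ Ioo α β := ⟨hx₀.1.trans_le ht.1, ht.2.trans hy.2⟩
    obtain ⟨z, hz, hz1, hz2⟩ := first_ge ht.1 (h.gr.cnOn hx₀ htI) hn2 htn.le
    have hzI : z ∈ Ioo α β := ⟨hx₀.1.trans hz.1, hz.2.trans_lt htI.2⟩
    have hpz : p z ≤ 0 := (h.gr.p_anti hx₀ hzI (fun s hs => (hz2 s ⟨hs.1.le, hs.2⟩).le)
      ⟨le_rfl, hz.1.le⟩ ⟨hz.1.le, le_rfl⟩ hz.1.le).trans hp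
    have := h.up hzI (h0.trans hz.1.le) hpz hz1.ge y ⟨hz.2.trans_lt ht.2, hy.2⟩
    linarith

end AT
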