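import Pool.Agent.H.MP_ce2c94_gt.TBDefs

/-!
# Uniqueness of the sphere and of the cylinder among the graphs
-/

namespace AT

open Real Set Filter Topology

theorem TVUq_right {a b : ℝ} {h k A B : ℝ → ℝ}
    (hh : ∀ y ∈ Icc a b, HasDerivAt h (k y) y)
    (hk : ∀ y ∈ Icc a b, HasDerivAt k (A y * k y + B y * h y) y)
    (hA : ContinuousOn A (Icc a b)) (hB : ContinuousOn B (Icc a b))
    (h0 : h a = 0) (k0 : k a = 0) : ∀ y ∈ Icc a b, h y = 0 ∧ k y = 0 := by
  obtain ⟨M, hM⟩ := isCompact_Icc.exists_bound_of_continuousOn hA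
  obtain ⟨N, hN⟩ := isCompact_Icc.exists_bound_of_continuousOn hB
  have hf : ContinuousOn (fun y => (h y, k y)) (Icc a b) := fun y hy =>
    ((hh y hy).continuousAt.prodMk (hk y hy).continuousAt).continuousWithinAt
  have hf' : ∀ y ∈ Ico a b, HasDerivWithinAt (fun y => (h y, k y))
      ((k y, A y * k y + B y * h y)) (Ici y) y := fun y hy =>
    ((hh y ⟨hy.1, hy.2.le⟩).prodMk (hk y ⟨hy.1, hy.2.le⟩)).hasDerivWithinAt
  have key := eq_zero_of_abs_deriv_le_mul_abs_self_of_eq_zero_right (K := 1 + (M + N)) hf hf'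
    (by rw [h0, k0]; rfl) (fun y hy => ?_)
  · intro y hy
    have := key y hy
    exact ⟨congrArg Prod.fst this, congrArg Prod.snd this⟩
  · have hy' : y ∈ Icc a b := ⟨hy.1, hy.2.le⟩
    have h1 := hM y hy'
    have h2 := hN y hy'
    have hM0 : 0 ≤ M := (norm_nonneg _).trans h1
    have hN0 : 0 ≤ N := (norm_nonneg _).trans h2
    have n1 : ‖h y‖ ≤ ‖(h y, k y)‖ := norm_fst_le (h y, k y)
    have n2 : ‖k y‖ ≤ ‖(h y, k y)‖ := norm_snd_le (h y, k y)
    have n0 : 0 ≤ ‖(h y, k y)‖ := norm_nonneg _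
    rw [Prod.norm_def (k y, A y * k y + B y * h y)]
    refine max_le ?_ ?_
    · show ‖k y‖ ≤ (1 + (M + N)) * ‖(h y, k y)‖
      nlinarith
    · show ‖A y * k y + B y * h y‖ ≤ (1 + (M + N)) * ‖(h y, k y)‖
      have h3 : ‖A y * k y + B y * h y‖ ≤ ‖A y‖ * ‖k y‖ + ‖B y‖ * ‖h y‖ := by
        refine (norm_add_le _ _).trans ?_
        rw [norm_mul, norm_mul]
      have h4 : ‖A y‖ * ‖k y‖ ≤ M * ‖(h y, k y)‖ :=
        mul_le_mul h1 n2 (norm_nonneg _) hM0
      have h5 : ‖B y‖ * ‖h y‖ ≤ N * ‖(h y, k y)‖ :=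
        mul_le_mul h2 n1 (norm_nonneg _) hN0
      nlinarith

/-- uniqueness of the zero solution of a linear equation of order two -/
theorem TVUq_lin {α β x₀ : ℝ} {h k A B : ℝ → ℝ} (hx : x₀ ∈ Ioo α β)
    (hh : ∀ y ∈ Ioo α β, HasDerivAt h (k y) y)
    (hk : ∀ y ∈ Ioo α β, HasDerivAt k (A y * k y + B y * h y) y)
    (hA : ContinuousOn A (Ioo α β)) (hB : ContinuousOn B (Ioo α β))
    (h0 : h x₀ = 0) (k0 : k x₀ = 0) : ∀ y ∈ Ioo α β, h y = 0 ∧ k y = 0 := by
  intro y hy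
  rcases le_total x₀ y with hle | hle
  · have hs : Icc x₀ y ⊆ Ioo α β := fun s hs =>
      ⟨hx.1.trans_le hs.1, hs.2.trans_lt hy.2⟩
    exact TVUq_right (fun s hs' => hh s (hs hs')) (fun s hs' => hk s (hs hs')) (hA.mono hs)
      (hB.mono hs) h0 k0 y ⟨hle, le_rfl⟩
  · have hs : ∀ s ∈ Icc (-x₀) (-y), -s ∈ Ioo α β := fun s hs =>
      ⟨by linarith [hy.1, hs.2], by linarith [hx.2, hs.1]⟩
    have e1 : ∀ s ∈ Icc (-x₀) (-y), HasDerivAt (fun s => h (-s)) (-k (-s)) s := by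
      intro s hs'
      have h1 := (hh (-s) (hs s hs')).comp s (hasDerivAt_neg s)
      exact h1.congr_deriv (by ring)
    have e2 : ∀ s ∈ Icc (-x₀) (-y), HasDerivAt (fun s => -k (-s))
        ((fun s => -A (-s)) s * (-k (-s)) + (fun s => B (-s)) s * h (-s)) s := by
      intro s hs'
      have h1 := ((hk (-s) (hs s hs')).comp s (hasDerivAt_neg s)).neg
      exact h1.congr_deriv (by ring)
    have hn : MapsTo (fun s : ℝ => -s) (Icc (-x₀) (-y)) (Ioo α β) := fun s hs' => hs s hs'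
    have cA : ContinuousOn (fun s => -A (-s)) (Icc (-x₀) (-y)) :=
      (hA.comp continuous_neg.continuousOn hn).neg
    have cB : ContinuousOn (fun s => B (-s)) (Icc (-x₀) (-y)) :=
      hB.comp continuous_neg.continuousOn hn
    have h2 := TVUq_right (h := fun s => h (-s)) (k := fun s => -k (-s)) e1 e2 cA cB
      (by simpa using h0) (by simpa using k0) (-y) ⟨by linarith, le_rfl⟩
    simp only [neg_neg] at h2
    exact ⟨h2.1, by linarith [h2.2]⟩

theorem TVUq_cu {α β : ℝ} {u p : ℝ → ℝ} (h : Gr α β u p) : ContinuousOn u (Ioo α β) :=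
  fun y hy => (h.du y hy).continuousAt.continuousWithinAt

theorem TVUq_cp {α β : ℝ} {u p : ℝ → ℝ} (h : Gr α β u p) : ContinuousOn p (Ioo α β) :=
  fun y hy => (h.dp y hy).continuousAt.continuousWithinAt

/-- the sphere: `y² + u² - 4` and its derivative vanish at one point -/
theorem gr_sphere {α β : ℝ} {u p : ℝ → ℝ} (h : Gr α β u p) {x₀ : ℝ} (hx : x₀ ∈ Ioo α β)
    (h1 : x₀ * u x₀ * p x₀ + 4 - u x₀ ^ 2 = 0) (h2 : x₀ + u x₀ * p x₀ = 0) :
    ∀ y ∈ Ioo α β, y ^ 2 + u y ^ 2 = 4 ∧ y + u y * p y = 0 := by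
  have e1 : ∀ y ∈ Ioo α β, HasDerivAt (fun y => y ^ 2 + u y ^ 2 - 4) (2 * (y + u y * p y)) y := by
    intro y hy
    refine (((hasDerivAt_pow 2 y).add ((h.du y hy).pow 2)).sub_const 4).congr_deriv ?_
    simp only [Nat.cast_ofNat, Nat.add_one_sub_one, pow_one]
    ring
  have e2 : ∀ y ∈ Ioo α β, HasDerivAt (fun y => 2 * (y + u y * p y))
      ((fun y => (1 + p y ^ 2) * y / 2) y * (2 * (y + u y * p y)) +
        (fun y => -(1 + p y ^ 2)) y * (y ^ 2 + u y ^ 2 - 4)) y := by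
    intro y hy
    have hu := (h.pos y hy).ne'
    refine ((((hasDerivAt_id y).add ((h.du y hy).mul (h.dp y hy))).const_mul 2)).congr_deriv ?_
    field_simp
    ring
  have cA : ContinuousOn (fun y => (1 + p y ^ 2) * y / 2) (Ioo α β) :=
    (((continuousOn_const.add ((TVUq_cp h).pow 2)).mul continuousOn_id).div_const 2)
  have cB : ContinuousOn (fun y => -(1 + p y ^ 2)) (Ioo α β) :=
    (continuousOn_const.add ((TVUq_cp h).pow 2)).neg
  have h3 : x₀ ^ 2 + u x₀ ^ 2 - 4 = 0 := by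
    have : x₀ * (x₀ + u x₀ * p x₀) = 0 := by rw [h2, mul_zero]
    nlinarith
  intro y hy
  obtain ⟨k1, k2⟩ := TVUq_lin hx e1 e2 cA cB h3 (by rw [h2, mul_zero]) y hy
  exact ⟨by linarith, by linarith⟩

/-- the cylinder -/
theorem gr_cyl {α β : ℝ} {u p : ℝ → ℝ} (h : Gr α β u p) {x₀ : ℝ} (hx : x₀ ∈ Ioo α β)
    (h1 : p x₀ = 0) (h2 : u x₀ ^ 2 = 2) : ∀ y ∈ Ioo α β, u y ^ 2 = 2 ∧ p y = 0 := by
  have e1 : ∀ y ∈ Ioo α β, HasDerivAt (fun y => u y ^ 2 - 2) (2 * (u y * p y)) y := by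
    intro y hy
    refine (((h.du y hy).pow 2).sub_const 2).congr_deriv ?_
    simp only [Nat.cast_ofNat, Nat.add_one_sub_one, pow_one]
    ring
  have e2 : ∀ y ∈ Ioo α β, HasDerivAt (fun y => 2 * (u y * p y))
      ((fun y => (1 + p y ^ 2) * y / 2 + p y / u y) y * (2 * (u y * p y)) +
        (fun y => -(1 + p y ^ 2)) y * (u y ^ 2 - 2)) y := by
    intro y hy
    have hu := (h.pos y hy).ne'
    refine (((h.du y hy).mul (h.dp y hy)).const_mul 2).congr_deriv ?_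
    field_simp
    ring
  have cA : ContinuousOn (fun y => (1 + p y ^ 2) * y / 2 + p y / u y) (Ioo α β) :=
    (((continuousOn_const.add ((TVUq_cp h).pow 2)).mul continuousOn_id).div_const 2).add
      ((TVUq_cp h).div (TVUq_cu h) (fun y hy => (h.pos y hy).ne'))
  have cB : ContinuousOn (fun y => -(1 + p y ^ 2)) (Ioo α β) :=
    (continuousOn_const.add ((TVUq_cp h).pow 2)).neg
  intro y hy
  obtain ⟨k1, k2⟩ := TVUq_lin hx e1 e2 cA cB (by linarith) (by rw [h1]; ring) y hy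
  refine ⟨by linarith, ?_⟩
  have hu := (h.pos y hy).ne'
  have : u y * p y = 0 := by linarith
  rcases mul_eq_zero.1 this with h3 | h3
  · exact absurd h3 hu
  · exact h3

end AT
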