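import Pool.Agent.H.MP_ce2c94_gt.TV0
import Pool.Agent.H.MP_ce2c94_gt.TVUq

/-!
# The sphere and the cylinder are excluded
-/

namespace AT

open Real Set Filter Topology

/-- `n = I = 0` at a point: everywhere -/
theorem Gr.sphere {α β : ℝ} {u p : ℝ → ℝ} (h : Gr α β u p) {y₀ : ℝ} (hy₀ : y₀ ∈ Ioo α β)
    (h1 : nq u p y₀ = 0) (h2 : II u p y₀ = 0) : ∀ y ∈ Ioo α β, nq u p y = 0 := by
  have e2 : y₀ + u y₀ * p y₀ = 0 := by
    unfold II at h2
    rw [h1] at h2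
    linarith
  have e1 : y₀ * u y₀ * p y₀ + 4 - u y₀ ^ 2 = 0 := by
    unfold nq at h1
    linarith
  intro y hy
  obtain ⟨k1, k2⟩ := gr_sphere h hy₀ e1 e2 y hy
  unfold nq
  linear_combination y * k2 - k1

/-- `p = 0`, `u² = 2` at a point: `p = 0` everywhere -/
theorem Gr.cyl {α β : ℝ} {u p : ℝ → ℝ} (h : Gr α β u p) {y₀ : ℝ} (hy₀ : y₀ ∈ Ioo α β)
    (h1 : p y₀ = 0) (h2 : nq u p y₀ = 2) : ∀ y ∈ Ioo α β, p y = 0 := by
  have e2 : u y₀ ^ 2 = 2 := by
    rw [nn_hor h1] at h2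
    linarith
  intro y hy
  exact (gr_cyl h hy₀ h1 e2 y hy).2

/-- (`n = 0` everywhere: `p' < 0`, `p` is bounded above near `β`) -/
theorem Gr.gen_up {α β : ℝ} {u p : ℝ → ℝ} (h : Gr α β u p) (hαβ : α < β)
    (ht : Tendsto p (𝓝[<] β) atTop) : Gr.Gen α β u p := by
  refine ⟨h, fun y hy => ?_, fun y hy => ?_⟩
  · rintro ⟨h1, h2⟩
    have hn := h.sphere hy h1 h2
    have hev : ∀ᶠ z in 𝓝[<] β, z ∈ Ioo y β := Ioo_mem_nhdsLT hy.2
    obtain ⟨z, hz, hz2⟩ := (hev.and (ht.eventually (eventually_gt_atTop (p y)))).exists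
    have hsub : Icc y z ⊆ Ioo α β := fun s hs =>
      ⟨hy.1.trans_le hs.1, hs.2.trans_lt hz.2⟩
    have hanti : AntitoneOn p (Icc y z) := by
      refine antitoneOn_of_deriv_nonpos (convex_Icc y z)
        (fun s hs => (h.cp (hsub hs)).continuousWithinAt) (fun s hs => ?_) (fun s hs => ?_)
      · rw [interior_Icc] at hs
        exact (h.dp' (hsub (Ioo_subset_Icc_self hs))).differentiableAt.differentiableWithinAt
      · rw [interior_Icc] at hs
        have hs' := hsub (Ioo_subset_Icc_self hs)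
        rw [(h.dp' hs').deriv, hn s hs']
        have h0 := h.pos s hs'
        refine div_nonpos_of_nonpos_of_nonneg ?_ (by positivity)
        nlinarith [sq_nonneg (p s)]
    have h3 := hanti ⟨le_rfl, hz.1.le⟩ ⟨hz.1.le, le_rfl⟩ hz.1.le
    linarith
  · rintro ⟨h1, h2⟩
    have hn := h.cyl hy h1 h2
    have hev : ∀ᶠ z in 𝓝[<] β, z ∈ Ioo α β := Ioo_mem_nhdsLT hαβ
    obtain ⟨z, hz, hz2⟩ := (hev.and (ht.eventually (eventually_gt_atTop 0))).exists
    rw [hn z hz] at hz2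
    exact lt_irrefl _ hz2

/-- (`n = 0` everywhere: `y u p = u² - 4 ≥ -4`, so `p` is bounded below near `β`) -/
theorem Gr.gen_dn {α β ρ : ℝ} {u p : ℝ → ℝ} (h : Gr α β u p) (hα : α < 0) (hβ : 0 < β)
    (ht : Tendsto p (𝓝[<] β) atBot) (hρ : 0 < ρ) (hu : ∀ y ∈ Ioo α β, ρ ≤ u y) :
    Gr.Gen α β u p := by
  refine ⟨h, fun y hy => ?_, fun y hy => ?_⟩
  · rintro ⟨h1, h2⟩
    have hn := h.sphere hy h1 h2
    have hev : ∀ᶠ z in 𝓝[<] β, z ∈ Ioo (β / 2) β := Ioo_mem_nhdsLT (by linarith)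
    obtain ⟨z, hz, hz2⟩ :=
      (hev.and (ht.eventually (eventually_lt_atBot (-(8 / (β * ρ)))))).exists
    have hz' : z ∈ Ioo α β := ⟨by linarith [hz.1], hz.2⟩
    have h3 := hn z hz'
    have h4 := hu z hz'
    unfold nq at h3
    have h5 : 0 < 8 / (β * ρ) := by positivity
    have h6 : p z < 0 := by linarith
    have h7 : (β / 2) * ρ ≤ z * u z := by
      have := hz.1
      nlinarith
    have h8 : z * u z * p z ≤ (β / 2) * ρ * p z :=
      mul_le_mul_of_nonpos_right h7 h6.le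
    have h9 : (β / 2) * ρ * p z < (β / 2) * ρ * (-(8 / (β * ρ))) :=
      mul_lt_mul_of_pos_left hz2 (by positivity)
    have h10 : (β / 2) * ρ * (-(8 / (β * ρ))) = -4 := by
      field_simp
      norm_num
    nlinarith [sq_nonneg (u z)]
  · rintro ⟨h1, h2⟩
    have hn := h.cyl hy h1 h2
    have hev : ∀ᶠ z in 𝓝[<] β, z ∈ Ioo α β := Ioo_mem_nhdsLT (by linarith)
    obtain ⟨z, hz, hz2⟩ := (hev.and (ht.eventually (eventually_lt_atBot 0))).exists
    rw [hn z hz] at hz2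
    exact lt_irrefl _ hz2

end AT
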