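import Pool.Agent.H.MP_ce2c94_gt.TV1b
import Pool.Agent.H.MP_ce2c94_gt.TV2

/-!
# The sign of `n` on the two strands
-/

namespace AT

open Real Set Filter Topology

/-- `I = -2 u p` at `0` -/
theorem II_zero {u p : ℝ → ℝ} : II u p 0 = -2 * (u 0 * p 0) := by
  unfold II
  ring

theorem nn_zero {u p : ℝ → ℝ} : nq u p 0 = 4 - u 0 ^ 2 := by
  unfold nq
  ring

/-- at the first point with `n ≤ 0` after points with `n > 0`, `I ≤ 0` -/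
theorem Gr.I_nonpos {α β : ℝ} {u p : ℝ → ℝ} (h : Gr α β u p) {a z : ℝ} (hz : z ∈ Ioo α β)
    (haz : a < z) (h1 : nq u p z = 0) (h2 : ∀ y ∈ Ico a z, 0 < nq u p y) : II u p z ≤ 0 := by
  by_contra hc
  have h3 := ev_gt_left (h.dnn hz) (by linarith [not_le.1 hc] : 0 < II u p z / 2)
  obtain ⟨y, hy, hy2⟩ := (h3.and (Ioo_mem_nhdsLT haz)).exists
  have h4 := h2 y ⟨hy2.1.le, hy2.2⟩
  rw [h1] at hy
  linarith

theorem Gr.I_nonneg {α β : ℝ} {u p : ℝ → ℝ} (h : Gr α β u p) {a z : ℝ} (hz : z ∈ Ioo α β)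
    (haz : a < z) (h1 : nq u p z = 0) (h2 : ∀ y ∈ Ico a z, nq u p y < 0) : 0 ≤ II u p z := by
  by_contra hc
  have h3 := ev_lt_left (h.dnn hz) (by linarith [not_le.1 hc] : II u p z / 2 < 0)
  obtain ⟨y, hy, hy2⟩ := (h3.and (Ioo_mem_nhdsLT haz)).exists
  have h4 := h2 y ⟨hy2.1.le, hy2.2⟩
  rw [h1] at hy
  linarith

/-- while `p > 0`, `n` stays below 2 -/
theorem Gr.keep2 {α β : ℝ} {u p : ℝ → ℝ} (h : Gr α β u p) {x₀ y₁ : ℝ} (hx₀ : x₀ ∈ Ioo α β)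
    (hy₁ : y₁ ∈ Ioo α β) (hxy : x₀ < y₁) (hp : ∀ y ∈ Icc x₀ y₁, 0 < p y) (hn : nq u p x₀ ≤ 2) :
    nq u p y₁ < 2 := by
  by_contra hc
  have hc' : 2 ≤ nq u p y₁ := not_lt.1 hc
  have hin : ∀ y ∈ Icc x₀ y₁, y ∈ Ioo α β := fun y hy =>
    ⟨hx₀.1.trans_le hy.1, hy.2.trans_lt hy₁.2⟩
  have hI2 : ∀ y ∈ Icc x₀ y₁, nq u p y = 2 → II u p y / 2 < 0 := by
    intro y hy e
    rw [h.II_two (hin y hy) e]
    have h1 := h.pos y (hin y hy)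
    have h2 := hp y hy
    have : -4 * p y / u y < 0 := div_neg_of_neg_of_pos (by linarith) h1
    linarith
  obtain ⟨x', hx', hx'n⟩ : ∃ x' ∈ Ico x₀ y₁, nq u p x' < 2 := by
    rcases hn.lt_or_eq with h1 | h1
    · exact ⟨x₀, ⟨le_rfl, hxy⟩, h1⟩
    · have h2 := ev_lt (h.dnn hx₀) (hI2 x₀ ⟨le_rfl, hxy.le⟩ h1)
      obtain ⟨y, hy, hy2⟩ := (h2.and (Ioo_mem_nhdsGT hxy)).exists
      exact ⟨y, ⟨hy2.1.le, hy2.2⟩, by rw [← h1]; exact hy⟩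
  obtain ⟨z, hz, hz1, hz2⟩ := first_ge hx'.2.le
    (h.cnOn (hin x' (Ico_subset_Icc_self hx')) hy₁) hx'n hc'
  have hzI : z ∈ Icc x₀ y₁ := ⟨hx'.1.trans hz.1.le, hz.2⟩
  have h3 := ev_lt_left (h.dnn (hin z hzI)) (hI2 z hzI hz1)
  obtain ⟨y, hy, hy2⟩ := (h3.and (Ioo_mem_nhdsLT hz.1)).exists
  have h4 := hz2 y ⟨hy2.1.le, hy2.2⟩
  rw [hz1] at hy
  linarith

/-- a strand which is nonincreasing in `p` after `x₁` does not end upwards -/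
theorem not_up {p : ℝ → ℝ} {x₁ β : ℝ} (hx : x₁ < β) (ht : Tendsto p (𝓝[<] β) atTop)
    (h : ∀ y ∈ Ioo x₁ β, p y ≤ p x₁) : False := by
  obtain ⟨y, hy, hy2⟩ := ((ht.eventually (eventually_gt_atTop (p x₁))).and
    (Ioo_mem_nhdsLT hx)).exists
  linarith [h y hy2]

/-- from a point with `p ≥ 0` and `n ≤ 0` at `x ≥ 0` the strand does not end upwards -/
theorem Gr.Gen.not_up_of {α β : ℝ} {u p : ℝ → ℝ} (h : Gr.Gen α β u p) {x₁ : ℝ}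
    (hx₁ : x₁ ∈ Ioo α β) (h0 : 0 ≤ x₁) (ht : Tendsto p (𝓝[<] β) atTop) (hp : 0 ≤ p x₁)
    (hn : nq u p x₁ ≤ 0) : False := by
  -- the first zero of `p`
  obtain ⟨y₁, hy₁, hpy, hu, hn1⟩ : ∃ y₁ ∈ Ico x₁ β, p y₁ = 0 ∧ 2 ≤ u y₁ ∧
      (y₁ = 0 → nq u p y₁ ≤ 0) := by
    have hu1 : 2 ≤ u x₁ := by
      have h1 := h.gr.pos x₁ hx₁
      have h2 : 0 ≤ x₁ * (u x₁ * p x₁) := mul_nonneg h0 (mul_nonneg h1.le hp)
      unfold nq at hn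
      nlinarith
    rcases hp.lt_or_eq with hp1 | hp1
    · by_cases hall : ∀ y ∈ Ioo x₁ β, 0 < p y
      · exfalso
        refine not_up hx₁.2 ht fun y hy => ?_
        have hyI : y ∈ Ioo α β := ⟨hx₁.1.trans hy.1, hy.2⟩
        refine h.gr.p_anti hx₁ hyI (fun s hs => ?_) ⟨le_rfl, hy.1.le⟩ ⟨hy.1.le, le_rfl⟩ hy.1.le
        refine (h.gr.keep2 hx₁ ⟨hx₁.1.trans hs.1, hs.2.trans hy.2⟩ hs.1 (fun t ht' => ?_)
          (by linarith)).le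
        rcases ht'.1.lt_or_eq with h3 | h3
        · exact hall t ⟨h3, ht'.2.trans_lt (hs.2.trans hy.2)⟩
        · rw [← h3]
          exact hp1
      · push Not at hall
        obtain ⟨t, ht', htp⟩ := hall
        have htI : t ∈ Ioo α β := ⟨hx₁.1.trans ht'.1, ht'.2⟩
        obtain ⟨z, hz, hz1, hz2⟩ := first_le ht'.1.le (h.gr.cpOn hx₁ htI) hp1 htp
        have hzI : z ∈ Ioo α β := ⟨hx₁.1.trans hz.1, hz.2.trans_lt htI.2⟩
        refine ⟨z, ⟨hz.1.le, hzI.2⟩, hz1, ?_, fun e => ?_⟩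
        · have hmon : MonotoneOn u (Icc x₁ z) :=
            mono_of (fun s hs => h.gr.du s ⟨hx₁.1.trans_le hs.1, hs.2.trans_lt hzI.2⟩)
              fun s hs => (hz2 s ⟨hs.1.le, hs.2⟩).le
          exact hu1.trans (hmon ⟨le_rfl, hz.1.le⟩ ⟨hz.1.le, le_rfl⟩ hz.1.le)
        · exfalso
          linarith [hz.1]
    · exact ⟨x₁, ⟨le_rfl, hx₁.2⟩, hp1.symm, hu1, fun _ => hn⟩
  have hyI : y₁ ∈ Ioo α β := ⟨hx₁.1.trans_le hy₁.1, hy₁.2⟩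
  have h1 : nq u p y₁ ≤ 0 := by
    rw [nn_hor hpy]
    nlinarith
  have hy0 : 0 ≤ y₁ := h0.trans hy₁.1
  have h2 : II u p y₁ ≤ 0 := by
    rw [II_hor hpy]
    exact mul_nonpos_of_nonneg_of_nonpos hy0 (by linarith)
  have h3 : nq u p y₁ < 0 ∨ II u p y₁ < 0 := by
    rcases h1.lt_or_eq with h4 | h4
    · exact Or.inl h4
    · rcases h2.lt_or_eq with h5 | h5
      · exact Or.inr h5
      · exact absurd ⟨h4, h5⟩ (h.ns y₁ hyI)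
  have h4 := h.gr.dn hyI hy0 hpy.le h1 h2 h3
  exact not_up hyI.2 ht fun y hy => by rw [hpy]; exact (h4 y hy).2.le

/-- (F2) and half of (G2): a strand which starts upwards and ends upwards. Proof. Let `x₁` be the
first point of `[0, β)` with `n x₁ ≤ 0`. If `p x₁ ≥ 0`: `u x₁² ≥ 4`; as long as `p ≥ 0`, `n < 2` and
`p' < 0`, so `p` has a first zero `y₁ ≥ x₁` (`p → ∞`), `u y₁ ≥ 2`, `n y₁ ≤ 0`, `I y₁ ≤ 0`, `ns`, and
`Gr.dn`: `p < 0`, contradiction. If `p x₁ < 0`: `n x₁ = 0`, `I x₁ ≤ 0`, `ns`, `Gr.dn`. -/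
theorem Gr.Gen.sign_up_pos {α β : ℝ} {u p : ℝ → ℝ} (h : Gr.Gen α β u p) (hα : α < 0) (hβ : 0 < β)
    (ht : Tendsto p (𝓝[<] β) atTop) (hp : 0 ≤ p 0) : ∀ y ∈ Ico 0 β, 0 < nq u p y := by
  intro y hy
  by_contra hc
  have hc' : nq u p y ≤ 0 := not_lt.1 hc
  have h0I : (0 : ℝ) ∈ Ioo α β := ⟨hα, hβ⟩
  have hyI : y ∈ Ioo α β := ⟨hα.trans_le hy.1, hy.2⟩
  rcases le_or_gt (nq u p 0) 0 with h1 | h1
  · exact h.not_up_of h0I le_rfl ht hp h1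
  · obtain ⟨z, hz, hz1, hz2⟩ := first_le hy.1 (h.gr.cnOn h0I hyI) h1 hc'
    have hzI : z ∈ Ioo α β := ⟨hα.trans hz.1, hz.2.trans_lt hy.2⟩
    rcases le_or_gt 0 (p z) with h2 | h2
    · exact h.not_up_of hzI hz.1.le ht h2 hz1.le
    · have h3 := h.gr.I_nonpos hzI hz.1 hz1 hz2
      have h4 : II u p z < 0 := lt_of_le_of_ne h3 fun e => h.ns z hzI ⟨hz1, e⟩
      have h5 := h.gr.dn hzI hz.1.le h2.le hz1.le h3 (Or.inr h4)
      have h6 : AntitoneOn p (Ico z β) := by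
        intro a ha b hb hab
        exact h.gr.p_anti ⟨hzI.1.trans_le ha.1, ha.2⟩ ⟨hzI.1.trans_le hb.1, hb.2⟩
          (fun s hs => by
            have := (h5 s ⟨ha.1.trans_lt hs.1, hs.2.trans hb.2⟩).1
            linarith) ⟨le_rfl, hab⟩ ⟨hab, le_rfl⟩ hab
      exact not_up hzI.2 ht fun s hs => h6 ⟨le_rfl, hzI.2⟩ ⟨hs.1.le, hs.2⟩ hs.1.le

/-- the other half of (G2) (`Gr.Gen.mid`) -/
theorem Gr.Gen.sign_up_neg {α β : ℝ} {u p : ℝ → ℝ} (h : Gr.Gen α β u p) (hα : α < 0) (hβ : 0 < β)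
    (hp : p 0 ≤ 0) (hn : 0 < nq u p 0) : ∀ y ∈ Ico 0 β, 0 < nq u p y := by
  intro y hy
  have h0I : (0 : ℝ) ∈ Ioo α β := ⟨hα, hβ⟩
  rcases hy.1.lt_or_eq with h1 | h1
  · refine h.mid h0I le_rfl hp hn.le ?_ (Or.inl hn) y ⟨h1, hy.2⟩
    rw [II_zero]
    have := mul_nonneg (h.gr.pos 0 h0I).le (neg_nonneg.2 hp)
    linarith
  · rw [← h1]
    exact hn

/-- a strand with `n ≥ 0` near the end does not end downwards -/
theorem not_dn {β ρ : ℝ} {u p : ℝ → ℝ} {x₁ : ℝ} (h0 : 0 ≤ x₁) (hx : x₁ < β)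
    (ht : Tendsto p (𝓝[<] β) atBot) (hρ : 0 < ρ) (hu : ∀ y ∈ Ioo x₁ β, ρ ≤ u y)
    (h : ∀ y ∈ Ioo x₁ β, 0 ≤ nq u p y) : False := by
  have hβ : 0 < β := h0.trans_lt hx
  have hm : max x₁ (β / 2) < β := max_lt hx (by linarith)
  obtain ⟨y, hy, hy2⟩ := ((ht.eventually (eventually_lt_atBot (-(4 / (β / 2 * ρ))))).and
    (Ioo_mem_nhdsLT hm)).exists
  have hy3 : y ∈ Ioo x₁ β := ⟨(le_max_left _ _).trans_lt hy2.1, hy2.2⟩
  have hy4 : β / 2 < y := (le_max_right _ _).trans_lt hy2.1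
  have h1 := h y hy3
  have h2 := hu y hy3
  have h3 : 0 < β / 2 * ρ := by positivity
  have h4 : β / 2 * ρ ≤ y * u y := mul_le_mul hy4.le h2 hρ.le (by linarith)
  have h5 : 4 / (β / 2 * ρ) < -p y := by linarith
  rw [div_lt_iff₀ h3] at h5
  have h6 : 0 < -p y := by
    have : 0 < 4 / (β / 2 * ρ) := by positivity
    linarith
  have h7 : -p y * (β / 2 * ρ) ≤ -p y * (y * u y) := mul_le_mul_of_nonneg_left h4 h6.le
  unfold nq at h1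
  have h8 : 0 ≤ u y ^ 2 := sq_nonneg _
  nlinarith

/-- (F1): a strand which starts downwards and ends downwards. Proof. Let `x₁` be the first point of
`[0, β)` with `n x₁ ≥ 0`. Then `p x₁ ≤ 0` and `I x₁ ≥ 0` (`x₁ = 0`: `I = -2 u p`), `ns`,
`Gr.Gen.mid`: `n > 0` on `(x₁, β)`, `y u p ≥ u² - 4`, so `p` is bounded below near `β`. -/
theorem Gr.Gen.sign_dn_neg {α β ρ : ℝ} {u p : ℝ → ℝ} (h : Gr.Gen α β u p) (hα : α < 0)
    (hβ : 0 < β) (ht : Tendsto p (𝓝[<] β) atBot) (hρ : 0 < ρ) (hu : ∀ y ∈ Ioo α β, ρ ≤ u y)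
    (hp : p 0 ≤ 0) : ∀ y ∈ Ico 0 β, nq u p y < 0 := by
  intro y hy
  by_contra hc
  have hc' : 0 ≤ nq u p y := not_lt.1 hc
  have h0I : (0 : ℝ) ∈ Ioo α β := ⟨hα, hβ⟩
  have hyI : y ∈ Ioo α β := ⟨hα.trans_le hy.1, hy.2⟩
  obtain ⟨x₁, hx₁, hpx, hnx, hIx⟩ : ∃ x₁ ∈ Ico 0 β, p x₁ ≤ 0 ∧ 0 ≤ nq u p x₁ ∧
      0 ≤ II u p x₁ := by
    rcases le_or_gt 0 (nq u p 0) with h1 | h1
    · refine ⟨0, ⟨le_rfl, hβ⟩, hp, h1, ?_⟩
      rw [II_zero]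
      have := mul_nonneg (h.gr.pos 0 h0I).le (neg_nonneg.2 hp)
      linarith
    · obtain ⟨z, hz, hz1, hz2⟩ := first_ge hy.1 (h.gr.cnOn h0I hyI) h1 hc'
      have hzI : z ∈ Ioo α β := ⟨hα.trans hz.1, hz.2.trans_lt hy.2⟩
      refine ⟨z, ⟨hz.1.le, hzI.2⟩, ?_, hz1.ge, h.gr.I_nonneg hzI hz.1 hz1 hz2⟩
      exact (h.gr.p_anti h0I hzI (fun s hs => by
        have := hz2 s ⟨hs.1.le, hs.2⟩
        linarith) ⟨le_rfl, hz.1.le⟩ ⟨hz.1.le, le_rfl⟩ hz.1.le).trans hp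
  have hx₁I : x₁ ∈ Ioo α β := ⟨hα.trans_le hx₁.1, hx₁.2⟩
  have hs : 0 < nq u p x₁ ∨ 0 < II u p x₁ := by
    rcases hnx.lt_or_eq with h4 | h4
    · exact Or.inl h4
    · rcases hIx.lt_or_eq with h5 | h5
      · exact Or.inr h5
      · exact absurd ⟨h4.symm, h5.symm⟩ (h.ns x₁ hx₁I)
  have h6 := h.mid hx₁I hx₁.1 hpx hnx hIx hs
  exact not_dn hx₁.1 hx₁.2 ht hρ (fun s hs => hu s ⟨hx₁I.1.trans hs.1, hs.2⟩)
    fun s hs => (h6 s hs).le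

/-- (G1). Proof. Let `x₁ > 0` be the first zero of `n`; `I x₁ ≥ 0`, so `p x₁ < 0`. Let
`y₁ ∈ [0, x₁)` be the last point with `p y₁ ≥ 0`; `p y₁ = 0`, `n y₁ < 0`, `I y₁ = y₁ (n - 2) ≤ 0`,
`Gr.dn` from `y₁`: contradiction. -/
theorem Gr.Gen.sign_dn_pos {α β : ℝ} {u p : ℝ → ℝ} (h : Gr.Gen α β u p) (hα : α < 0)
    (hβ : 0 < β) (hp : 0 ≤ p 0) (hn : nq u p 0 < 0) : ∀ y ∈ Ico 0 β, nq u p y < 0 := by
  intro y hy
  by_contra hc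
  have hc' : 0 ≤ nq u p y := not_lt.1 hc
  have h0I : (0 : ℝ) ∈ Ioo α β := ⟨hα, hβ⟩
  have hyI : y ∈ Ioo α β := ⟨hα.trans_le hy.1, hy.2⟩
  obtain ⟨z, hz, hz1, hz2⟩ := first_ge hy.1 (h.gr.cnOn h0I hyI) hn hc'
  have hzI : z ∈ Ioo α β := ⟨hα.trans hz.1, hz.2.trans_lt hy.2⟩
  have h1 := h.gr.I_nonneg hzI hz.1 hz1 hz2
  have h2 : p z < 0 := by
    by_contra hc2
    have h3 : 0 ≤ u z * p z := mul_nonneg (h.gr.pos z hzI).le (not_lt.1 hc2)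
    unfold II at h1
    rw [hz1] at h1
    have := hz.1
    linarith
  obtain ⟨y₁, hy₁, hy1, hy2⟩ := last_ge hz.1.le (h.gr.cpOn h0I hzI) hp h2
  have hy₁I : y₁ ∈ Ioo α β := ⟨hα.trans_le hy₁.1, hy₁.2.trans hzI.2⟩
  have h3 : nq u p y₁ < 0 := hz2 y₁ hy₁
  have h4 : II u p y₁ ≤ 0 := by
    rw [II_hor hy1]
    exact mul_nonpos_of_nonneg_of_nonpos hy₁.1 (by linarith)
  have h5 := (h.gr.dn hy₁I hy₁.1 hy1.le h3.le h4 (Or.inl h3) z ⟨hy₁.2, hzI.2⟩).1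
  rw [hz1] at h5
  exact lt_irrefl _ h5

theorem tendsto_mirror_top {α : ℝ} {p : ℝ → ℝ} (h : Tendsto p (𝓝[>] α) atBot) :
    Tendsto (fun y => -p (-y)) (𝓝[<] (-α)) atTop := by
  have h6 : Tendsto (fun y : ℝ => -y) (𝓝[<] (-α)) (𝓝[>] α) := by
    have := tendsto_neg_nhdsLT (a := -α)
    rwa [neg_neg] at this
  exact tendsto_neg_atBot_atTop.comp (h.comp h6)

theorem tendsto_mirror_bot {α : ℝ} {p : ℝ → ℝ} (h : Tendsto p (𝓝[>] α) atTop) :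
    Tendsto (fun y => -p (-y)) (𝓝[<] (-α)) atBot := by
  have h6 : Tendsto (fun y : ℝ => -y) (𝓝[<] (-α)) (𝓝[>] α) := by
    have := tendsto_neg_nhdsLT (a := -α)
    rwa [neg_neg] at this
  exact tendsto_neg_atTop_atBot.comp (h.comp h6)

/-- the lower strand -/
theorem Gr.signs_up {α β : ℝ} {u p : ℝ → ℝ} (h : Gr α β u p) (hα : α < 0) (hβ : 0 < β)
    (ht : Tendsto p (𝓝[<] β) atTop) (ht' : Tendsto p (𝓝[>] α) atBot) :
    ∀ y ∈ Ioo α β, 0 < nq u p y := by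
  have hg := h.gen_up (hα.trans hβ) ht
  have hg' := hg.mirror
  have hα' : -β < 0 := by linarith
  have hβ' : 0 < -α := by linarith
  have ht2 := tendsto_mirror_top ht'
  have key : (∀ y ∈ Ico 0 β, 0 < nq u p y) ∧
      (∀ y ∈ Ico 0 (-α), 0 < nq (fun y => u (-y)) (fun y => -p (-y)) y) := by
    rcases le_total 0 (p 0) with h1 | h1
    · have h2 := hg.sign_up_pos hα hβ ht h1
      refine ⟨h2, hg'.sign_up_neg hα' hβ' ?_ ?_⟩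
      · show -p (-0) ≤ 0
        rw [neg_zero]
        linarith
      · rw [nn_mirror, neg_zero]
        exact h2 0 ⟨le_rfl, hβ⟩
    · have h2 := hg'.sign_up_pos hα' hβ' ht2 (by
        show 0 ≤ -p (-0)
        rw [neg_zero]
        linarith)
      refine ⟨hg.sign_up_neg hα hβ h1 ?_, h2⟩
      have := h2 0 ⟨le_rfl, hβ'⟩
      rwa [nn_mirror, neg_zero] at this
  intro y hy
  rcases le_total 0 y with h1 | h1
  · exact key.1 y ⟨h1, hy.2⟩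
  · have := key.2 (-y) ⟨by linarith, by linarith [hy.1]⟩
    rwa [nn_mirror, neg_neg] at this

/-- the upper strand -/
theorem Gr.signs_dn {α β ρ : ℝ} {w q : ℝ → ℝ} (h : Gr α β w q) (hα : α < 0) (hβ : 0 < β)
    (ht : Tendsto q (𝓝[<] β) atBot) (ht' : Tendsto q (𝓝[>] α) atTop)
    (hρ : 0 < ρ) (hw : ∀ y ∈ Ioo α β, ρ ≤ w y) :
    ∀ y ∈ Ioo α β, nq w q y < 0 := by
  have hg := h.gen_dn hα hβ ht hρ hw
  have hg' := hg.mirror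
  have hα' : -β < 0 := by linarith
  have hβ' : 0 < -α := by linarith
  have ht2 := tendsto_mirror_bot ht'
  have hw' : ∀ y ∈ Ioo (-β) (-α), ρ ≤ w (-y) := fun y hy =>
    hw (-y) ⟨by linarith [hy.2], by linarith [hy.1]⟩
  have key : (∀ y ∈ Ico 0 β, nq w q y < 0) ∧
      (∀ y ∈ Ico 0 (-α), nq (fun y => w (-y)) (fun y => -q (-y)) y < 0) := by
    rcases le_total (q 0) 0 with h1 | h1
    · have h2 := hg.sign_dn_neg hα hβ ht hρ hw h1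
      refine ⟨h2, hg'.sign_dn_pos hα' hβ' ?_ ?_⟩
      · show 0 ≤ -q (-0)
        rw [neg_zero]
        linarith
      · rw [nn_mirror, neg_zero]
        exact h2 0 ⟨le_rfl, hβ⟩
    · have h2 := hg'.sign_dn_neg hα' hβ' ht2 hρ hw' (by
        show -q (-0) ≤ 0
        rw [neg_zero]
        linarith)
      refine ⟨hg.sign_dn_pos hα hβ h1 ?_, h2⟩
      have := h2 0 ⟨le_rfl, hβ'⟩
      rwa [nn_mirror, neg_zero] at this
  intro y hy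
  rcases le_total 0 y with h1 | h1
  · exact key.1 y ⟨h1, hy.2⟩
  · have := key.2 (-y) ⟨by linarith, by linarith [hy.1]⟩
    rwa [nn_mirror, neg_neg] at this

end AT
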