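import Pool.Agent.H.MP_ce2c94_gt.RedB
import Pool.Agent.H.MP_ce2c94_gt.RedC
import Pool.Agent.H.MP_ce2c94_gt.TBDefs

/-!
# Lobes of a closed simple profile, I: transversality, one critical point
-/

namespace AT

open Real Set Filter Topology

/-- The profile crosses the axis `x = 0` transversally. If `x s = 0` and `cos (θ s) = 0` then
`h.prof.reflect` (`(-x, r, π - θ)`) agrees with `h.prof` at `s`, so `x = -x`
(`profile_unique_mod`), so `x = 0`, against `Loop.not_zero`. -/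
theorem Loop.transv {x r θ : ℝ → ℝ} {L : ℝ} (h : Loop x r θ L) {s : ℝ} (hs : x s = 0) :
    cos (θ s) ≠ 0 := by
  intro hc
  obtain ⟨u1, -, -⟩ := profile_unique_mod h.prof h.prof.reflect s (by rw [hs, neg_zero]) rfl
    (by rw [cos_pi_sub, hc, neg_zero]) (by rw [sin_pi_sub])
  obtain ⟨t, ht⟩ := h.not_zero
  have h1 := congrFun u1 t
  apply ht
  linarith

/-- the flipped loop (`IsProfile.flip`) -/
theorem Loop.flip {x r θ : ℝ → ℝ} {L : ℝ} (h : Loop x r θ L) (κ : ℝ) :
    Loop (fun s => -x (κ - s)) (fun s => r (κ - s)) (fun s => -θ (κ - s)) L := by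
  refine ⟨h.prof.flip κ, h.Lpos, fun s => ?_, fun s => ?_, fun s s' hx hr => ?_⟩
  · have h1 := h.px (κ - (s + L))
    rw [show κ - (s + L) + L = κ - s by ring] at h1
    change -x (κ - (s + L)) = -x (κ - s)
    rw [h1]
  · have h1 := h.pr (κ - (s + L))
    rw [show κ - (s + L) + L = κ - s by ring] at h1
    exact h1.symm
  · obtain ⟨k, hk⟩ := h.inj (κ - s) (κ - s') (neg_inj.1 hx) hr
    refine ⟨-k, ?_⟩
    push_cast
    linarith

/-- `x` takes positive values. Let `s` be a global maximum of the continuous periodic function `x`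
(`RedB_max`); `cos (θ s) = 0`. If `x s ≤ 0`, then `x s < 0` (`Loop.transv`) and the derivative of
`cos θ` at `s` is `-sin (θ s) ^ 2 * x s / 2 > 0` (`sin² = 1`), so `cos θ > 0` just after `s` and `x`
increases: contradiction (`RedC_neg` for `-cos θ`). -/
theorem Loop.exists_pos {x r θ : ℝ → ℝ} {L : ℝ} (h : Loop x r θ L) : ∃ s, 0 < x s := by
  have cx : Continuous x := RedB_cont h.prof
  obtain ⟨P, hP⟩ := RedB_max cx h.Lpos h.px
  refine ⟨P, ?_⟩
  by_contra hneg
  rw [not_lt] at hneg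
  have hmax : IsLocalMax x P := Filter.Eventually.of_forall hP
  have hc : cos (θ P) = 0 := hmax.hasDerivAt_eq_zero (h.prof.hx P)
  have hx0 : x P < 0 := lt_of_le_of_ne hneg fun h0 => h.transv h0 hc
  have hs2 : sin (θ P) ^ 2 = 1 := by
    have h1 := sin_sq_add_cos_sq (θ P)
    rw [hc] at h1
    linarith
  have hd : HasDerivAt (fun s => -cos (θ s)) (sin (θ P) * (x P / 2 * sin (θ P) +
      (1 / r P - r P / 2) * cos (θ P))) P := by
    have h1 := ((h.prof.hθ P).cos).neg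
    have e : -(-sin (θ P) * (x P / 2 * sin (θ P) + (1 / r P - r P / 2) * cos (θ P))) =
        sin (θ P) * (x P / 2 * sin (θ P) + (1 / r P - r P / 2) * cos (θ P)) := by ring
    rw [e] at h1
    exact h1
  have hd0 : sin (θ P) * (x P / 2 * sin (θ P) + (1 / r P - r P / 2) * cos (θ P)) < 0 := by
    rw [hc]
    have e : sin (θ P) * (x P / 2 * sin (θ P) + (1 / r P - r P / 2) * 0) =
        sin (θ P) ^ 2 * (x P / 2) := by ring
    rw [e, hs2]
    linarith
  obtain ⟨δ, hδ, -, h2⟩ := RedC_neg hd hd0 (by simp [hc])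
  have hmono : StrictMonoOn x (Icc P (P + δ / 2)) := by
    refine strictMonoOn_of_deriv_pos (convex_Icc _ _) cx.continuousOn fun s hs => ?_
    rw [interior_Icc] at hs
    rw [(h.prof.hx s).deriv]
    have h3 := h2 s ⟨hs.1, by linarith [hs.2]⟩
    linarith
  have h4 := hmono (left_mem_Icc.2 (by linarith)) (right_mem_Icc.2 (by linarith))
    (by linarith : P < P + δ / 2)
  have h5 := hP (P + δ / 2)
  linarith

/-- (`Loop.flip`) -/
theorem Loop.exists_neg {x r θ : ℝ → ℝ} {L : ℝ} (h : Loop x r θ L) : ∃ s, x s < 0 := by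
  obtain ⟨s, hs⟩ := (h.flip 0).exists_pos
  exact ⟨0 - s, by linarith⟩

/-- First zero to the right. -/
theorem TVLa_first {f : ℝ → ℝ} (hf : Continuous f) {u v : ℝ} (huv : u < v) (hu : 0 < f u)
    (hv : f v < 0) : ∃ b, u < b ∧ b < v ∧ f b = 0 ∧ ∀ s ∈ Ico u b, 0 < f s := by
  have hS : IsCompact (Icc u v ∩ {s | f s ≤ 0}) :=
    isCompact_Icc.inter_right (isClosed_le hf continuous_const)
  obtain ⟨b, ⟨hb1, hb2⟩, hb3⟩ := hS.exists_isLeast ⟨v, ⟨huv.le, le_rfl⟩, hv.le⟩
  have hb2' : f b ≤ 0 := hb2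
  have hub : u < b := by
    rcases hb1.1.lt_or_eq with h | h
    · exact h
    · rw [← h] at hb2'
      exact absurd hu (not_lt.2 hb2')
  have hpos : ∀ s ∈ Ico u b, 0 < f s := by
    intro s hs
    by_contra hneg
    rw [not_lt] at hneg
    exact absurd (hb3 ⟨⟨hs.1, hs.2.le.trans hb1.2⟩, hneg⟩) (not_le.2 hs.2)
  obtain ⟨c, hc, hc0⟩ := intermediate_value_Icc' hub.le hf.continuousOn
    (⟨hb2', hu.le⟩ : (0 : ℝ) ∈ Icc (f b) (f u))
  have hcb : b ≤ c := hb3 ⟨⟨hc.1, hc.2.trans hb1.2⟩, hc0.le⟩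
  have hcb2 : c = b := le_antisymm hc.2 hcb
  rw [hcb2] at hc0
  refine ⟨b, hub, ?_, hc0, hpos⟩
  rcases hb1.2.lt_or_eq with h | h
  · exact h
  · rw [h] at hc0
    rw [hc0] at hv
    exact absurd hv (lt_irrefl 0)

/-- The component of `{x > 0}` around `s₁`. `x` takes a negative value (`Loop.exists_neg`), and by
periodicity it does so in `(s₁ - L, s₁)` and at the point `+ L`, in `(s₁, s₁ + L)`. `a` is the last
zero before `s₁`, `b` the first one after `s₁`; since `x (a + L) = 0`, `b ≤ a + L`, and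
`b = a + L` is impossible (there is a point with `x < 0` in `[s₁, s₁ + L]`, ... ). Signs of `cos θ`
at `a`, `b` by `Loop.transv` and `x > 0` on `(a, b)`. -/
theorem Loop.comp_pos {x r θ : ℝ → ℝ} {L : ℝ} (h : Loop x r θ L) {s₁ : ℝ} (hs : 0 < x s₁) :
    ∃ a b, a < s₁ ∧ s₁ < b ∧ b < a + L ∧ x a = 0 ∧ x b = 0 ∧ (∀ s ∈ Ioo a b, 0 < x s) ∧
      0 < cos (θ a) ∧ cos (θ b) < 0 := by
  have cx : Continuous x := (RedC_cont h.prof).1
  have hL := h.Lpos
  obtain ⟨s', hs'⟩ := h.exists_neg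
  obtain ⟨t, ht1, ht2, ht3⟩ : ∃ t, s₁ - L < t ∧ t < s₁ ∧ x t < 0 := by
    have a1 : (⌊(s' - s₁) / L⌋ : ℝ) ≤ (s' - s₁) / L := Int.floor_le _
    have a2 : (s' - s₁) / L < ⌊(s' - s₁) / L⌋ + 1 := Int.lt_floor_add_one _
    rw [le_div_iff₀ hL] at a1
    rw [div_lt_iff₀ hL] at a2
    have hk := RedA_per h.px (-⌊(s' - s₁) / L⌋ - 1) s'
    push_cast at hk
    refine ⟨s' + (-(⌊(s' - s₁) / L⌋ : ℝ) - 1) * L, ?_, by nlinarith, by rw [hk]; exact hs'⟩
    refine lt_of_le_of_ne (by nlinarith) ?_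
    intro he
    rw [← he] at hk
    have h1 := h.px (s₁ - L)
    rw [sub_add_cancel] at h1
    rw [← h1] at hk
    linarith
  have htL : x (t + L) < 0 := by
    rw [h.px]
    exact ht3
  obtain ⟨b, hb1, hb2, hb3, hb4⟩ := TVLa_first cx (by linarith : s₁ < t + L) hs htL
  obtain ⟨a', ha1, ha2, ha3, ha4⟩ := TVLa_first (f := fun s => x (-s)) (cx.comp continuous_neg)
    (by linarith : -s₁ < -t) (by rw [neg_neg]; exact hs) (by rw [neg_neg]; exact ht3)
  obtain ⟨a, rfl⟩ : ∃ a, a' = -a := ⟨-a', (neg_neg a').symm⟩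
  simp only [neg_neg] at ha3
  have ha5 : ∀ s, a < s → s ≤ s₁ → 0 < x s := by
    intro s h1 h2
    have h3 := ha4 (-s) ⟨by linarith, by linarith⟩
    simp only [neg_neg] at h3
    exact h3
  have hpos : ∀ s ∈ Ioo a b, 0 < x s := by
    intro s h1
    rcases le_or_gt s s₁ with h2 | h2
    · exact ha5 s h1.1 h2
    · exact hb4 s ⟨h2.le, h1.2⟩
  have has : a < s₁ := by linarith
  refine ⟨a, b, has, hb1, by linarith, ha3, hb3, hpos, ?_, ?_⟩
  · rcases lt_or_gt_of_ne (h.transv ha3) with h1 | h1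
    · exfalso
      obtain ⟨δ, hδ, -, h2⟩ := RedC_neg (h.prof.hx a) h1 ha3
      have h3 : min (δ / 2) (s₁ - a) ≤ δ / 2 := min_le_left _ _
      have h4 : min (δ / 2) (s₁ - a) ≤ s₁ - a := min_le_right _ _
      have h5 : 0 < min (δ / 2) (s₁ - a) := lt_min (by linarith) (by linarith)
      have h6 := h2 (a + min (δ / 2) (s₁ - a)) ⟨by linarith, by linarith⟩
      have h7 := ha5 (a + min (δ / 2) (s₁ - a)) (by linarith) (by linarith)
      linarith
    · exact h1
  · rcases lt_or_gt_of_ne (h.transv hb3) with h1 | h1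
    · exact h1
    · exfalso
      obtain ⟨δ, hδ, h2, -⟩ := RedC_neg (h.prof.hx b).neg (neg_lt_zero.2 h1)
        (by simp [hb3])
      have h3 : min (δ / 2) (b - s₁) ≤ δ / 2 := min_le_left _ _
      have h4 : min (δ / 2) (b - s₁) ≤ b - s₁ := min_le_right _ _
      have h5 : 0 < min (δ / 2) (b - s₁) := lt_min (by linarith) (by linarith)
      have h6 : 0 < -x (b - min (δ / 2) (b - s₁)) :=
        h2 (b - min (δ / 2) (b - s₁)) ⟨by linarith, by linarith⟩
      have h7 := hb4 (b - min (δ / 2) (b - s₁)) ⟨by linarith, by linarith⟩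
      linarith

/-- **One critical point.** On an arc in `{x > 0}` (end points on `{x = 0}`, met transversally) the
function `cos θ` is `> 0` at `a`, `< 0` at `b`, and at every zero in `(a, b)` its derivative
`-sin² θ * x / 2` is negative (`RedC_neg`), so it has exactly one zero (see the proof of
`Loop.crit` in RedC.lean). -/
theorem arc_crit {x r θ : ℝ → ℝ} (h : IsProfile x r θ) {a b : ℝ} (hab : a < b)
    (hpos : ∀ s ∈ Ioo a b, 0 < x s) (ha : 0 < cos (θ a)) (hb : cos (θ b) < 0) :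
    ∃ P, a < P ∧ P < b ∧ (∀ s ∈ Ico a P, 0 < cos (θ s)) ∧ cos (θ P) = 0 ∧
      ∀ s ∈ Ioc P b, cos (θ s) < 0 := by
  obtain ⟨-, cθ⟩ := RedC_cont h
  have cf : Continuous fun s => cos (θ s) := continuous_cos.comp cθ
  have key : ∀ s ∈ Ioo a b, cos (θ s) = 0 → ∃ δ > 0,
      (∀ u ∈ Ioo (s - δ) s, 0 < cos (θ u)) ∧ ∀ u ∈ Ioo s (s + δ), cos (θ u) < 0 := by
    intro s hs h0
    have d := (h.hθ s).cos
    refine RedC_neg d ?_ h0
    have h1 : sin (θ s) ^ 2 = 1 := by
      have := sin_sq_add_cos_sq (θ s)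
      rw [h0] at this
      linarith
    have h2 := hpos s hs
    have e : -sin (θ s) * (x s / 2 * sin (θ s) + (1 / r s - r s / 2) * cos (θ s)) =
        -(x s / 2) * sin (θ s) ^ 2 := by
      rw [h0]
      ring
    rw [e, h1]
    linarith
  obtain ⟨P, hP1, hP2, hP3, hP4⟩ := TVLa_first cf hab ha hb
  have main : ∀ s, P < s → s < b → ¬ 0 < cos (θ s) := by
    intro s h1 h2 h3
    obtain ⟨δ, hδ, -, h4⟩ := key P ⟨hP1, hP2⟩ hP3
    have hm : 0 < min (δ / 2) ((s - P) / 2) := lt_min (by linarith) (by linarith)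
    have hm1 : min (δ / 2) ((s - P) / 2) ≤ δ / 2 := min_le_left _ _
    have hm2 : min (δ / 2) ((s - P) / 2) ≤ (s - P) / 2 := min_le_right _ _
    set a' := P + min (δ / 2) ((s - P) / 2) with ha'
    have h5 : cos (θ a') < 0 := h4 a' ⟨by linarith, by linarith⟩
    obtain ⟨Q, hQ1, hQ2, hQ3, hQ4⟩ := TVLa_first (f := fun s => -cos (θ s)) cf.neg
      (by linarith : a' < s) (neg_pos.2 h5) (neg_lt_zero.2 h3)
    have hQ3' : cos (θ Q) = 0 := neg_eq_zero.1 hQ3
    obtain ⟨η, hη, h10, -⟩ := key Q ⟨by linarith, by linarith⟩ hQ3'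
    have h11 := h10 (max a' (Q - η / 2)) ⟨by
      have := le_max_right a' (Q - η / 2)
      linarith, max_lt hQ1 (by linarith)⟩
    have h12 : 0 < -cos (θ (max a' (Q - η / 2))) :=
      hQ4 (max a' (Q - η / 2)) ⟨le_max_left _ _, max_lt hQ1 (by linarith)⟩
    linarith
  refine ⟨P, hP1, hP2, hP4, hP3, ?_⟩
  intro s hs
  rcases eq_or_lt_of_le hs.2 with h1 | h1
  · rw [h1]
    exact hb
  · rcases lt_trichotomy (cos (θ s)) 0 with h2 | h2 | h2
    · exact h2
    · exfalso
      obtain ⟨δ, hδ, h4, -⟩ := key s ⟨by linarith [hs.1], h1⟩ h2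
      have h5 := h4 (max ((P + s) / 2) (s - δ / 2)) ⟨by
        have := le_max_right ((P + s) / 2) (s - δ / 2)
        linarith, max_lt (by linarith [hs.1]) (by linarith)⟩
      exact main _ (lt_of_lt_of_le (by linarith [hs.1]) (le_max_left _ _))
        (lt_trans (max_lt (by linarith [hs.1]) (by linarith)) h1) h5
    · exact absurd h2 (main s hs.1 h1)

end AT
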