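import Pool.Agent.H.MP_ce2c94_gt.RedD

/-!
# Lobes of a closed simple profile, II: ordering of the two strands of an arc
-/

namespace AT

open Real Set Filter Topology

/-- **Ordering.** An arc over `[a, b]` with `x a = x b`, `x` increasing on `[a, P]`, decreasing on
`[P, b]`, passing the vertical tangent at `P` upwards, whose strands do not meet: its end point is
above its initial point. (Same proof as `Loop.order` in RedD.lean, with `0`, `L/2` replaced by `a`,
`b`: let `σ s ∈ [P, b]` with `x (σ s) = x s`; `σ` is continuous on `[a, P]` (`RedD_cont`), `σ P = P`,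
`σ a = b`; `r (σ s) - r s ≠ 0` on `[a, P)`, and `> 0` near `P`.) -/
theorem arc_order {x r θ : ℝ → ℝ} (h : IsProfile x r θ) {a P b : ℝ} (haP : a < P) (hPb : P < b)
    (hab : x a = x b) (h1 : ∀ s ∈ Ico a P, 0 < cos (θ s)) (h2 : 0 < sin (θ P))
    (h3 : ∀ s ∈ Ioc P b, cos (θ s) < 0)
    (hne : ∀ s ∈ Ico a P, ∀ s' ∈ Ioc P b, x s = x s' → r s ≠ r s') : r a < r b := by
  classical
  have hxc : Continuous x := continuous_iff_continuousAt.2 fun s => (h.hx s).continuousAt
  have hrc : Continuous r := continuous_iff_continuousAt.2 fun s => (h.hr s).continuousAt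
  have hθc : Continuous θ := continuous_iff_continuousAt.2 fun s => (h.hθ s).continuousAt
  have hmono : StrictMonoOn x (Icc a P) := by
    refine strictMonoOn_of_deriv_pos (convex_Icc a P) hxc.continuousOn fun s hs => ?_
    rw [interior_Icc] at hs
    rw [(h.hx s).deriv]
    exact h1 s ⟨hs.1.le, hs.2⟩
  have hanti : StrictAntiOn x (Icc P b) := by
    refine strictAntiOn_of_deriv_neg (convex_Icc P b) hxc.continuousOn fun s hs => ?_
    rw [interior_Icc] at hs
    rw [(h.hx s).deriv]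
    exact h3 s ⟨hs.1, hs.2.le⟩
  have hex : ∀ s ∈ Icc a P, ∃ s' ∈ Icc P b, x s' = x s := by
    intro s hs
    have h4 : x s ∈ Icc (x b) (x P) := by
      rw [← hab]
      exact ⟨hmono.monotoneOn (left_mem_Icc.2 haP.le) hs hs.1,
        hmono.monotoneOn hs (right_mem_Icc.2 haP.le) hs.2⟩
    obtain ⟨s', hs', h5⟩ := intermediate_value_Icc' hPb.le hxc.continuousOn h4
    exact ⟨s', hs', h5⟩
  obtain ⟨σ, hσ⟩ : ∃ σ : ℝ → ℝ, ∀ s ∈ Icc a P, σ s ∈ Icc P b ∧ x (σ s) = x s := by
    refine ⟨fun s => if hs : s ∈ Icc a P then (hex s hs).choose else 0, fun s hs => ?_⟩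
    simp only [dif_pos hs]
    exact (hex s hs).choose_spec
  have hσc : ContinuousOn σ (Icc a P) :=
    RedD_cont hxc hanti σ (fun s hs => (hσ s hs).1) (fun s hs => (hσ s hs).2)
  have hPI : P ∈ Icc a P := right_mem_Icc.2 haP.le
  have haI : a ∈ Icc a P := left_mem_Icc.2 haP.le
  have hσP : σ P = P :=
    hanti.injOn (hσ P hPI).1 (left_mem_Icc.2 hPb.le) (hσ P hPI).2
  have hσa : σ a = b :=
    hanti.injOn (hσ a haI).1 (right_mem_Icc.2 hPb.le) ((hσ a haI).2.trans hab)
  -- no zeros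
  have hne' : ∀ s ∈ Ico a P, r (σ s) ≠ r s := by
    intro s hs heq
    have hsI : s ∈ Icc a P := ⟨hs.1, hs.2.le⟩
    have h6 := (hσ s hsI).1
    have h7 : P < σ s := by
      refine lt_of_le_of_ne h6.1 fun h8 => ?_
      have h9 := hmono hsI hPI hs.2
      rw [← (hσ s hsI).2, ← h8] at h9
      exact lt_irrefl _ h9
    exact hne s hs (σ s) ⟨h7, h6.2⟩ (hσ s hsI).2.symm heq.symm
  -- the sign near `P`
  have hsin : ∀ᶠ s in nhds P, 0 < sin (θ s) := by
    have h4 : ContinuousAt (fun s => sin (θ s)) P := (continuous_sin.comp hθc).continuousAt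
    exact h4.eventually (lt_mem_nhds h2)
  obtain ⟨δ, hδ, hδ'⟩ := Metric.eventually_nhds_iff.1 hsin
  have hrm : StrictMonoOn r (Icc (P - δ / 2) (P + δ / 2)) := by
    refine strictMonoOn_of_deriv_pos (convex_Icc _ _) hrc.continuousOn fun s hs => ?_
    rw [interior_Icc] at hs
    rw [(h.hr s).deriv]
    apply hδ'
    rw [Real.dist_eq, abs_lt]
    constructor <;> linarith [hs.1, hs.2]
  have hpos : ∀ s ∈ Ico a P, r s < r (σ s) := by
    intro s₁ hs₁
    by_contra hcon
    have hlt : r (σ s₁) - r s₁ < 0 := by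
      have := lt_of_le_of_ne (not_lt.1 hcon) (hne' s₁ hs₁)
      linarith
    -- a point near `P`
    have h4 : ∀ᶠ s in nhdsWithin P (Icc a P), σ s < P + δ / 2 := by
      have h5 : Filter.Tendsto σ (nhdsWithin P (Icc a P)) (nhds P) := by
        have := hσc P hPI
        unfold ContinuousWithinAt at this
        rwa [hσP] at this
      exact h5.eventually (gt_mem_nhds (by linarith))
    rw [eventually_nhdsWithin_iff, Metric.eventually_nhds_iff] at h4
    obtain ⟨ε, hε, hε'⟩ := h4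
    obtain ⟨s₂, hs₂⟩ : ∃ s₂, max s₁ (max (P - δ / 2) (P - ε)) < s₂ ∧ s₂ < P :=
      exists_between (max_lt hs₁.2 (max_lt (by linarith) (by linarith)))
    have h6 : s₁ < s₂ := lt_of_le_of_lt (le_max_left _ _) hs₂.1
    have h7 : P - δ / 2 < s₂ :=
      lt_of_le_of_lt ((le_max_left _ _).trans (le_max_right _ _)) hs₂.1
    have h8 : P - ε < s₂ :=
      lt_of_le_of_lt ((le_max_right _ _).trans (le_max_right _ _)) hs₂.1
    have hs₂I : s₂ ∈ Icc a P := ⟨hs₁.1.trans h6.le, hs₂.2.le⟩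
    have h9 : σ s₂ < P + δ / 2 := by
      refine hε' ?_ hs₂I
      rw [Real.dist_eq, abs_lt]
      constructor <;> linarith [hs₂.2]
    have h10 : P ≤ σ s₂ := (hσ s₂ hs₂I).1.1
    have h11 : 0 < r (σ s₂) - r s₂ := by
      have h12 : r s₂ < r P := hrm ⟨h7.le, by linarith [hs₂.2]⟩ ⟨by linarith, by linarith⟩ hs₂.2
      have h13 : r P ≤ r (σ s₂) :=
        hrm.monotoneOn ⟨by linarith, by linarith⟩ ⟨by linarith, h9.le⟩ h10
      linarith
    have hfc : ContinuousOn (fun s => r (σ s) - r s) (Icc s₁ s₂) := by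
      refine ContinuousOn.sub (hrc.comp_continuousOn (hσc.mono ?_)) hrc.continuousOn
      intro s hs
      exact ⟨hs₁.1.trans hs.1, hs.2.trans hs₂.2.le⟩
    obtain ⟨s, hs, hs0⟩ := intermediate_value_Icc h6.le hfc
      (show (0 : ℝ) ∈ Icc (r (σ s₁) - r s₁) (r (σ s₂) - r s₂) from ⟨hlt.le, h11.le⟩)
    exact hne' s ⟨hs₁.1.trans hs.1, hs.2.trans_lt hs₂.2⟩ (sub_eq_zero.1 hs0)
  have h14 := hpos a ⟨le_rfl, haP⟩
  rwa [hσa] at h14

end AT
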