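import Pool.Agent.H.MP_ce2c94_gt.TVLa
import Pool.Agent.H.MP_ce2c94_gt.TVLb

/-!
# Lobes of a closed simple profile, III: normal form
-/

namespace AT

open Real Set Filter Topology

/-- The branch of the angle after a vertical tangent passed at `P` with `θ P = π/2 + k π`-type
values: if `φ P = c - π/2`, `φ` continuous and `cos (φ s - c) > 0`, i.e. `φ s ∉ c + π/2 + π ℤ`, on
`(P, b]` (resp. at every point of an interval on which the value lies in the window once), then `φ`
stays in the window `(c - π/2, c + π/2)`. Here: a continuous `φ` on `[a, b]` with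
`0 < cos (φ s - c)` for all `s ∈ (a, b)` and `φ s₀ ∈ (c - π/2, c + π/2)` for one `s₀ ∈ (a, b)` stays
in `(c - π/2, c + π/2)` on `(a, b)` (intermediate value theorem: at `c ± π/2` the cosine
vanishes). -/
theorem branch {φ : ℝ → ℝ} {a b c s₀ : ℝ} (hφ : Continuous φ) (hs₀ : s₀ ∈ Ioo a b)
    (h : ∀ s ∈ Ioo a b, 0 < cos (φ s - c)) (h0 : c - π / 2 < φ s₀ ∧ φ s₀ < c + π / 2) :
    ∀ s ∈ Ioo a b, c - π / 2 < φ s ∧ φ s < c + π / 2 := by
  have key : ∀ s ∈ Ioo a b, ∀ v, v = c - π / 2 ∨ v = c + π / 2 → v ∈ uIcc (φ s₀) (φ s) → False := by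
    intro s hs v hv hmem
    obtain ⟨u, hu, hu0⟩ := intermediate_value_uIcc (a := s₀) (b := s) hφ.continuousOn hmem
    have hu2 : u ∈ Ioo a b := ordConnected_Ioo.uIcc_subset hs₀ hs hu
    have h1 := h u hu2
    rw [hu0] at h1
    rcases hv with rfl | rfl
    · have e : c - π / 2 - c = -(π / 2) := by ring
      rw [e, cos_neg, cos_pi_div_two] at h1
      exact lt_irrefl _ h1
    · have e : c + π / 2 - c = π / 2 := by ring
      rw [e, cos_pi_div_two] at h1
      exact lt_irrefl _ h1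
  intro s hs
  constructor
  · by_contra h1
    rw [not_lt] at h1
    exact key s hs _ (Or.inl rfl) (by rw [mem_uIcc]; right; exact ⟨h1, h0.1.le⟩)
  · by_contra h1
    rw [not_lt] at h1
    exact key s hs _ (Or.inr rfl) (by rw [mem_uIcc]; left; exact ⟨h0.2.le, h1⟩)

/-- a loop with exactly two crossings of `x = 0` in a period: right lobe `(0, T)`, left lobe
`(T, L)` -/
structure TwoL (x r θ : ℝ → ℝ) (L T : ℝ) : Prop where
  loop : Loop x r θ L
  T0 : 0 < T
  TL : T < L
  x0 : x 0 = 0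
  xT : x T = 0
  pos : ∀ s ∈ Ioo 0 T, 0 < x s
  neg : ∀ s ∈ Ioo T L, x s < 0

/-- Normal form of a loop with two lobes: lower arc `(A, B)`, upper arc `(B, A + L)`, run
counterclockwise; it meets `x = 0` at `0` (lower point) and `T` (upper point). -/
structure Lobes (x r θ : ℝ → ℝ) (L T A B : ℝ) : Prop where
  loop : Loop x r θ L
  turn : ∀ s, θ (s + L) = θ s + 2 * π
  hA : A < 0
  h0 : 0 < B
  hB : B < T
  hT : T < A + L
  x0 : x 0 = 0
  xT : x T = 0
  θA : θ A = -(π / 2)
  θB : θ B = π / 2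
  low : ∀ s ∈ Ioo A B, -(π / 2) < θ s ∧ θ s < π / 2
  up : ∀ s ∈ Ioo B (A + L), π / 2 < θ s ∧ θ s < 3 * π / 2

/-- The critical points of the two lobes. Right lobe: `arc_crit` on `[0, T]`
(`cos (θ 0) > 0`, `cos (θ T) < 0` by `Loop.transv` and the sign of `x`). Left lobe: `arc_crit` for
`h.loop.flip (T + L)` on `[T, L]` (`-x (T + L - s) > 0` for `s ∈ (T, L)`), `Q = T + L - P̃`. -/
theorem TwoL.crit {x r θ : ℝ → ℝ} {L T : ℝ} (h : TwoL x r θ L T) :
    ∃ P Q, 0 < P ∧ P < T ∧ T < Q ∧ Q < L ∧ cos (θ P) = 0 ∧ cos (θ Q) = 0 ∧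
      (∀ s ∈ Ico 0 P, 0 < cos (θ s)) ∧ (∀ s ∈ Ioo P Q, cos (θ s) < 0) ∧
      (∀ s ∈ Ioc Q L, 0 < cos (θ s)) := by
  have hT0 := h.T0
  have hTL := h.TL
  have c0 : 0 < cos (θ 0) := by
    rcases lt_or_gt_of_ne (h.loop.transv h.x0) with h1 | h1
    · exfalso
      obtain ⟨δ, hδ, -, h2⟩ := RedC_neg (h.loop.prof.hx 0) h1 h.x0
      obtain ⟨s, hs1, hs2⟩ := exists_between (lt_min hδ hT0)
      have h3 := h2 s ⟨hs1, by rw [zero_add]; exact hs2.trans_le (min_le_left _ _)⟩
      have h4 := h.pos s ⟨hs1, hs2.trans_le (min_le_right _ _)⟩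
      linarith
    · exact h1
  have cT : cos (θ T) < 0 := by
    rcases lt_or_gt_of_ne (h.loop.transv h.xT) with h1 | h1
    · exact h1
    · exfalso
      obtain ⟨δ, hδ, h2, -⟩ := RedC_neg (h.loop.prof.hx T).neg (neg_lt_zero.2 h1) (by simp [h.xT])
      obtain ⟨s, hs1, hs2⟩ := exists_between (max_lt (by linarith : T - δ < T) hT0)
      have h3 : 0 < -x s := h2 s ⟨(le_max_left _ _).trans_lt hs1, hs2⟩
      have h4 := h.pos s ⟨(le_max_right _ _).trans_lt hs1, hs2⟩
      linarith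
  obtain ⟨P, hP1, hP2, hP3, hP4, hP5⟩ := arc_crit h.loop.prof hT0 h.pos c0 cT
  have cL : cos (θ L) = cos (θ 0) := by
    have h1 := (h.loop.pcos 0).1
    rwa [zero_add] at h1
  obtain ⟨R, hR1, hR2, hR3, hR4, hR5⟩ := arc_crit (h.loop.flip (T + L)).prof hTL
    (by
      intro s hs
      have h1 := h.neg (T + L - s) ⟨by linarith [hs.2], by linarith [hs.1]⟩
      linarith)
    (by
      have e : T + L - T = L := by ring
      simp only [cos_neg, e, cL]
      exact c0)
    (by
      have e : T + L - L = T := by ring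
      simp only [cos_neg, e]
      exact cT)
  simp only [cos_neg] at hR3 hR4 hR5
  refine ⟨P, T + L - R, hP1, hP2, by linarith, by linarith, hP4, hR4, hP3, ?_, ?_⟩
  · intro s hs
    rcases le_or_gt s T with h1 | h1
    · exact hP5 s ⟨hs.1, h1⟩
    · have h2 := hR5 (T + L - s) ⟨by linarith [hs.2], by linarith⟩
      have e : T + L - (T + L - s) = s := by ring
      rwa [e] at h2
  · intro s hs
    have h2 := hR3 (T + L - s) ⟨by linarith [hs.2], by linarith [hs.1]⟩
    have e : T + L - (T + L - s) = s := by ring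
    rwa [e] at h2

/-- reversal: `x̃ s = x (T - s)`, `θ̃ s = θ (T - s) + π` (`Loop.reverse`; for `s ∈ (T, L)`,
`x (T - s) = x (T - s + L)` with `T - s + L ∈ (T, L)`) -/
theorem TwoL.reverse {x r θ : ℝ → ℝ} {L T : ℝ} (h : TwoL x r θ L T) :
    TwoL (fun s => x (T - s)) (fun s => r (T - s)) (fun s => θ (T - s) + π) L T := by
  refine ⟨h.loop.reverse T, h.T0, h.TL, ?_, ?_, ?_, ?_⟩
  · simp only [sub_zero]
    exact h.xT
  · simp only [sub_self]
    exact h.x0
  · intro s hs
    exact h.pos (T - s) ⟨by linarith [hs.2], by linarith [hs.1]⟩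
  · intro s hs
    have h1 := h.neg (T - s + L) ⟨by linarith [hs.2], by linarith [hs.1]⟩
    rw [h.loop.px] at h1
    exact h1

theorem TVLc_aux1 {φ : ℝ → ℝ} {P b c : ℝ} (hφ : Continuous φ) (hPb : P < b)
    (hP : φ P = c - π / 2) (h : ∀ s ∈ Ioo P b, 0 < cos (φ s - c)) :
    ∀ s ∈ Ioo P b, c - π / 2 < φ s ∧ φ s < c + π / 2 := by
  have hpi := pi_pos
  obtain ⟨δ, hδ, hδ'⟩ := Metric.continuousAt_iff.1 (hφ.continuousAt (x := P)) π hpi
  have hm : 0 < min (δ / 2) ((b - P) / 2) := lt_min (by linarith) (by linarith)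
  have hm1 : min (δ / 2) ((b - P) / 2) ≤ δ / 2 := min_le_left _ _
  have hm2 : min (δ / 2) ((b - P) / 2) ≤ (b - P) / 2 := min_le_right _ _
  obtain ⟨s₀, hs₀⟩ : ∃ s₀, s₀ = P + min (δ / 2) ((b - P) / 2) := ⟨_, rfl⟩
  have hs1 : s₀ ∈ Ioo P b := ⟨by linarith, by linarith⟩
  have h1 : dist (φ s₀) (φ P) < π := by
    refine hδ' ?_
    rw [Real.dist_eq, hs₀, add_sub_cancel_left, abs_of_pos hm]
    linarith
  rw [Real.dist_eq, abs_lt, hP] at h1
  refine branch hφ hs1 h ⟨?_, by linarith [h1.2]⟩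
  by_contra hcon
  rw [not_lt] at hcon
  have h2 := h s₀ hs1
  have h3 : cos (c - φ s₀) ≤ 0 :=
    cos_nonpos_of_pi_div_two_le_of_le (by linarith) (by linarith [h1.1])
  rw [← cos_neg, neg_sub] at h3
  linarith

theorem TVLc_aux2 {x r θ : ℝ → ℝ} {L : ℝ} (h : Loop x r θ L) {s s' : ℝ} (h1 : s < s')
    (h2 : s' < s + L) (hx : x s = x s') : r s ≠ r s' := by
  intro hr
  obtain ⟨k, hk⟩ := h.inj s s' hx hr
  have hL := h.Lpos
  have h3 : 0 < (k : ℝ) := by
    by_contra hcon
    rw [not_lt] at hcon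
    nlinarith
  have h4 : (k : ℝ) < 1 := by
    by_contra hcon
    rw [not_lt] at hcon
    nlinarith
  have h5 : 0 < k := by exact_mod_cast h3
  have h6 : k < 1 := by exact_mod_cast h4
  omega

/-- The counterclockwise case: `θ 0 ∈ (-π/2, π/2)` and `θ P = π/2` at the right tip. By `branch`
`θ ∈ (π/2, 3π/2)` on `(P, Q)`, so `θ Q ∈ {π/2, 3π/2}` (continuity, `cos (θ Q) = 0`).
`θ Q = π/2` is impossible: `arc_order` for the right lobe (`a = 0`, `b = T`) gives `r 0 < r T`, and
`arc_order` for the reflected profile `(-x, r, π - θ)` on `[T, L]` (tip `Q`,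
`sin (π - θ Q) = 1`) gives `r T < r L = r 0`; the strands do not meet by `Loop.inj`.
So `θ Q = 3π/2`, `θ ∈ (3π/2, 5π/2)` on `(Q, L]`, and since `(cos, sin)(θ L) = (cos, sin)(θ 0)`
(`Loop.pcos`), `θ L = θ 0 + 2π`; `θ (s + L) = θ s + 2π` for all `s` by `profile_unique` (compare with
`h.loop.prof.shift L (-1)` at `0`). `A = Q - L`, `B = P`. -/
theorem TwoL.lobes_aux {x r θ : ℝ → ℝ} {L T P Q : ℝ} (h : TwoL x r θ L T) (hP0 : 0 < P)
    (hPT : P < T) (hTQ : T < Q) (hQL : Q < L) (hP : cos (θ P) = 0) (hQ : cos (θ Q) = 0)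
    (c1 : ∀ s ∈ Ico 0 P, 0 < cos (θ s)) (c2 : ∀ s ∈ Ioo P Q, cos (θ s) < 0)
    (c3 : ∀ s ∈ Ioc Q L, 0 < cos (θ s)) (h0 : -(π / 2) < θ 0 ∧ θ 0 < π / 2)
    (hPP : θ P = π / 2) : Lobes x r θ L T (Q - L) P := by
  have hpi := pi_pos
  have cθ : Continuous θ := (RedC_cont h.loop.prof).2
  have hPQ : P < Q := hPT.trans hTQ
  have hxL : x L = 0 := by
    have := h.loop.px 0
    rw [zero_add, h.x0] at this
    exact this
  have hrL : r L = r 0 := by
    have := h.loop.pr 0
    rwa [zero_add] at this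
  -- the upper arc
  have hup : ∀ s ∈ Ioo P Q, π - π / 2 < θ s ∧ θ s < π + π / 2 := by
    refine TVLc_aux1 cθ hPQ (by rw [hPP]; ring) fun s hs => ?_
    rw [cos_sub_pi]
    linarith [c2 s hs]
  -- the value at `Q`
  have hQm : π / 2 ≤ θ Q ∧ θ Q ≤ 3 * π / 2 := by
    have hcl : IsClosed {s | π / 2 ≤ θ s ∧ θ s ≤ 3 * π / 2} :=
      (isClosed_le continuous_const cθ).inter (isClosed_le cθ continuous_const)
    have hsub : Ioo P Q ⊆ {s | π / 2 ≤ θ s ∧ θ s ≤ 3 * π / 2} := by
      intro s hs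
      have h1 := hup s hs
      exact ⟨by linarith [h1.1], by linarith [h1.2]⟩
    have h1 := hcl.closure_subset_iff.2 hsub
    rw [closure_Ioo hPQ.ne] at h1
    exact h1 (right_mem_Icc.2 hPQ.le)
  have hQ1 : θ Q ≠ π / 2 := by
    intro hQ1
    have hsP : 0 < sin (θ P) := by
      rw [hPP, sin_pi_div_two]
      exact one_pos
    have o1 : r 0 < r T := by
      refine arc_order h.loop.prof hP0 hPT (by rw [h.x0, h.xT]) c1 hsP
        (fun s hs => c2 s ⟨hs.1, lt_of_le_of_lt hs.2 hTQ⟩) ?_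
      intro s hs s' hs' hx
      exact TVLc_aux2 h.loop (lt_trans hs.2 hs'.1) (by linarith [hs.1, hs'.2, h.TL]) hx
    have o2 : r T < r L := by
      refine arc_order h.loop.prof.reflect hTQ hQL ?_ ?_ ?_ ?_ ?_
      · change -x T = -x L
        rw [h.xT, hxL]
      · intro s hs
        change 0 < cos (π - θ s)
        rw [cos_pi_sub]
        linarith [c2 s ⟨lt_of_lt_of_le hPT hs.1, hs.2⟩]
      · change 0 < sin (π - θ Q)
        rw [sin_pi_sub, hQ1, sin_pi_div_two]
        exact one_pos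
      · intro s hs
        change cos (π - θ s) < 0
        rw [cos_pi_sub]
        linarith [c3 s hs]
      · intro s hs s' hs' hx
        have hx' : -x s = -x s' := hx
        exact TVLc_aux2 h.loop (lt_trans hs.2 hs'.1) (by linarith [hs.1, hs'.2, h.T0])
          (neg_inj.1 hx')
    rw [hrL] at o2
    exact lt_asymm o1 o2
  have hQ3 : θ Q = 3 * π / 2 := by
    by_contra hne
    have h1 : π / 2 < θ Q := lt_of_le_of_ne hQm.1 (Ne.symm hQ1)
    have h2 : θ Q < π + π / 2 := by
      have := lt_of_le_of_ne hQm.2 hne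
      linarith
    have h3 := cos_neg_of_pi_div_two_lt_of_lt h1 h2
    linarith
  -- the lower arc, one period later
  have hcos : ∀ s ∈ Ioo Q (L + P), 0 < cos (θ s) := by
    intro s hs
    rcases le_or_gt s L with h1 | h1
    · exact c3 s ⟨hs.1, h1⟩
    · have h2 := (h.loop.pcos (s - L)).1
      rw [sub_add_cancel] at h2
      rw [h2]
      exact c1 (s - L) ⟨by linarith, by linarith [hs.2]⟩
  have hlow : ∀ s ∈ Ioo Q (L + P), 2 * π - π / 2 < θ s ∧ θ s < 2 * π + π / 2 := by
    refine TVLc_aux1 cθ (by linarith) (by rw [hQ3]; ring) fun s hs => ?_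
    rw [cos_sub_two_pi]
    exact hcos s hs
  -- the turning
  have hturn : ∀ s, θ (s + L) = θ s + 2 * π := by
    have hp := h.loop.pcos 0
    rw [zero_add] at hp
    obtain ⟨-, -, k, hk⟩ := profile_unique_mod (h.loop.prof.shift L 0) h.loop.prof 0
      (by
        change x (0 + L) = x 0
        exact h.loop.px 0)
      (by
        change r (0 + L) = r 0
        exact h.loop.pr 0)
      (by
        change cos (θ (0 + L) + ((0 : ℤ) : ℝ) * (2 * π)) = cos (θ 0)
        rw [Int.cast_zero, zero_mul, add_zero]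
        exact (h.loop.pcos 0).1)
      (by
        change sin (θ (0 + L) + ((0 : ℤ) : ℝ) * (2 * π)) = sin (θ 0)
        rw [Int.cast_zero, zero_mul, add_zero]
        exact (h.loop.pcos 0).2)
    have hk' : ∀ s, θ (s + L) = θ s + k * (2 * π) := by
      intro s
      have h1 := hk s
      change θ (s + L) + ((0 : ℤ) : ℝ) * (2 * π) = θ s + k * (2 * π) at h1
      rw [Int.cast_zero, zero_mul, add_zero] at h1
      exact h1
    have h1 := hk' 0
    rw [zero_add] at h1
    have h2 := hlow L ⟨hQL, by linarith⟩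
    have h3 : 0 < (k : ℝ) := by
      by_contra hcon
      rw [not_lt] at hcon
      nlinarith [h0.2, h2.1]
    have h4 : (k : ℝ) < 2 := by
      by_contra hcon
      rw [not_lt] at hcon
      nlinarith [h0.1, h2.2]
    have h5 : 0 < k := by exact_mod_cast h3
    have h6 : k < 2 := by exact_mod_cast h4
    have h7 : k = 1 := by omega
    intro s
    rw [hk' s, h7, Int.cast_one, one_mul]
  refine ⟨h.loop, hturn, by linarith, hP0, hPT, by linarith, h.x0, h.xT, ?_, hPP, ?_, ?_⟩
  · have h1 := hturn (Q - L)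
    rw [sub_add_cancel, hQ3] at h1
    linarith
  · intro s hs
    have h1 := hlow (s + L) ⟨by linarith [hs.1], by linarith [hs.2]⟩
    rw [hturn s] at h1
    exact ⟨by linarith [h1.1], by linarith [h1.2]⟩
  · intro s hs
    have h1 := hup s ⟨hs.1, by linarith [hs.2]⟩
    exact ⟨by linarith [h1.1], by linarith [h1.2]⟩

/-- the lift of the angle with positive cosine -/
theorem TVLc_lift {t : ℝ} (h : 0 < cos t) :
    ∃ k : ℤ, -(π / 2) < t + k * (2 * π) ∧ t + k * (2 * π) < π / 2 := by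
  have hpi := pi_pos
  have h2 : 0 < 2 * π := by linarith
  refine ⟨-round (t / (2 * π)), ?_⟩
  rw [Int.cast_neg]
  have h3 := abs_sub_round (t / (2 * π))
  set m : ℝ := (round (t / (2 * π)) : ℝ) with hm
  have h4 : |t + -m * (2 * π)| ≤ π := by
    have e : t + -m * (2 * π) = (t / (2 * π) - m) * (2 * π) := by
      field_simp
      ring
    rw [e, abs_mul, abs_of_pos h2]
    have := mul_le_mul_of_nonneg_right h3 h2.le
    linarith
  have h5 : 0 < cos (t + -m * (2 * π)) := by
    have e : t + -m * (2 * π) = t + ((-round (t / (2 * π)) : ℤ) : ℝ) * (2 * π) := by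
      rw [Int.cast_neg]
    rw [e, cos_add_int_mul_two_pi]
    exact h
  rw [← abs_lt]
  by_contra h6
  rw [not_lt] at h6
  have h7 := cos_nonpos_of_pi_div_two_le_of_le h6 (by linarith)
  rw [cos_abs] at h7
  linarith

/-- adding a multiple of `2π` to the angle -/
theorem TVLc_shift {x r θ : ℝ → ℝ} {L T : ℝ} (h : TwoL x r θ L T) (k : ℤ) :
    TwoL x r (fun s => θ s + k * (2 * π)) L T := by
  have h1 := h.loop.shift 0 k
  simp only [add_zero] at h1
  exact ⟨h1, h.T0, h.TL, h.x0, h.xT, h.pos, h.neg⟩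

/-- the normal form when `θ 0` is in `(-π/2, π/2)` -/
theorem TVLc_main {x r θ : ℝ → ℝ} {L T P Q : ℝ} (h : TwoL x r θ L T) (hP0 : 0 < P)
    (hPT : P < T) (hTQ : T < Q) (hQL : Q < L) (hP : cos (θ P) = 0) (hQ : cos (θ Q) = 0)
    (c1 : ∀ s ∈ Ico 0 P, 0 < cos (θ s)) (c2 : ∀ s ∈ Ioo P Q, cos (θ s) < 0)
    (c3 : ∀ s ∈ Ioc Q L, 0 < cos (θ s)) (h0 : -(π / 2) < θ 0 ∧ θ 0 < π / 2) :
    ∃ (x' r' θ' : ℝ → ℝ) (A B : ℝ), Lobes x' r' θ' L T A B ∧
      (range fun s => (x' s, r' s)) = range fun s => (x s, r s) := by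
  have hpi := pi_pos
  obtain ⟨cx, cθ⟩ := RedC_cont h.loop.prof
  -- positivity of the cosine on `(Q - L, P)`
  have hpos : ∀ s ∈ Ioo (Q - L) P, 0 < cos (θ s) := by
    intro s hs
    rcases lt_or_ge s 0 with h1 | h1
    · rw [← (h.loop.pcos s).1]
      exact c3 _ ⟨by linarith [hs.1], by linarith⟩
    · exact c1 s ⟨h1, hs.2⟩
  have hbr := branch (φ := θ) (a := Q - L) (b := P) (c := 0) (s₀ := 0) cθ
    ⟨by linarith, hP0⟩ (fun s hs => by rw [sub_zero]; exact hpos s hs)
    ⟨by linarith [h0.1], by linarith [h0.2]⟩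
  have hcl : θ P ∈ Icc (-(π / 2)) (π / 2) := by
    have h4 : P ∈ closure (Ioo (Q - L) P) := by
      rw [closure_Ioo (by linarith : Q - L ≠ P)]
      exact ⟨by linarith, le_rfl⟩
    have h5 : θ P ∈ closure (θ '' Ioo (Q - L) P) :=
      image_closure_subset_closure_image cθ ⟨P, h4, rfl⟩
    have h6 : closure (θ '' Ioo (Q - L) P) ⊆ Icc (-(π / 2)) (π / 2) := by
      apply closure_minimal _ isClosed_Icc
      rintro _ ⟨s, hs, rfl⟩
      have := hbr s hs
      exact ⟨by linarith [this.1], by linarith [this.2]⟩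
    exact h6 h5
  have hval : θ P = π / 2 ∨ θ P = -(π / 2) := by
    by_contra h4
    rw [not_or] at h4
    have h5 : θ P < π / 2 := lt_of_le_of_ne hcl.2 h4.1
    have h6 : -(π / 2) < θ P := lt_of_le_of_ne hcl.1 (Ne.symm h4.2)
    have := cos_pos_of_mem_Ioo ⟨h6, h5⟩
    linarith
  rcases hval with h4 | h4
  · exact ⟨x, r, θ, Q - L, P, h.lobes_aux hP0 hPT hTQ hQL hP hQ c1 c2 c3 h0 h4, rfl⟩
  · have h5 := RedC_branch (φ := fun s => -θ s) (P := P) (b := T) cθ.neg
      (by simp only [h4, neg_neg]) (fun s hs => by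
        simp only [cos_neg]
        exact c2 s ⟨hs.1, by linarith [hs.2]⟩)
    have h6 := h5 T ⟨hPT, le_rfl⟩
    have hl := h.reverse.lobes_aux (P := T - P) (Q := T + L - Q) (by linarith) (by linarith)
      (by linarith) (by linarith)
      (by
        have e : T - (T - P) = P := by ring
        simp only [cos_add_pi, e, hP, neg_zero])
      (by
        have e : T - (T + L - Q) = Q - L := by ring
        have e2 : Q - L + L = Q := by ring
        have h7 := (h.loop.pcos (Q - L)).1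
        rw [e2, hQ] at h7
        simp only [cos_add_pi, e, ← h7, neg_zero])
      (by
        intro s hs
        simp only [cos_add_pi]
        have := c2 (T - s) ⟨by linarith [hs.2], by linarith [hs.1]⟩
        linarith)
      (by
        intro s hs
        simp only [cos_add_pi]
        have := hpos (T - s) ⟨by linarith [hs.2], by linarith [hs.1]⟩
        linarith)
      (by
        intro s hs
        simp only [cos_add_pi]
        have h7 := (h.loop.pcos (T - s)).1
        have := c2 (T - s + L) ⟨by linarith [hs.2], by linarith [hs.1]⟩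
        linarith)
      (by
        simp only [sub_zero]
        constructor <;> linarith [h6.1, h6.2])
      (by
        have e : T - (T - P) = P := by ring
        simp only [e, h4]
        ring)
    refine ⟨_, _, _, _, _, hl, ?_⟩
    ext p
    simp only [mem_range]
    constructor
    · rintro ⟨s, rfl⟩
      exact ⟨T - s, rfl⟩
    · rintro ⟨s, rfl⟩
      refine ⟨T - s, ?_⟩
      have e : T - (T - s) = s := by ring
      rw [e]

/-- **Normal form.** Add a multiple of `2π` to `θ` so that `θ 0 ∈ (-π/2, π/2)`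
(`cos (θ 0) > 0`; `Loop.shift 0 k`). Then `θ P = ±π/2` (`branch`, continuity). If `θ P = π/2`:
`TwoL.lobes_aux`. If `θ P = -π/2`: `TwoL.reverse`, whose right tip is `T - P` with angle `π/2`, and
whose angle at `0` is `θ T + π ∈ (-π/2, π/2)`. -/
theorem TwoL.lobes {x r θ : ℝ → ℝ} {L T : ℝ} (h : TwoL x r θ L T) :
    ∃ (x' r' θ' : ℝ → ℝ) (A B : ℝ), Lobes x' r' θ' L T A B ∧
      (range fun s => (x' s, r' s)) = range fun s => (x s, r s) := by
  obtain ⟨P, Q, hP0, hPT, hTQ, hQL, cP, cQ, c1, c2, c3⟩ := h.crit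
  obtain ⟨k, hk⟩ := TVLc_lift (c1 0 ⟨le_rfl, hP0⟩)
  exact TVLc_main (TVLc_shift h k) hP0 hPT hTQ hQL
    (by rw [cos_add_int_mul_two_pi]; exact cP)
    (by rw [cos_add_int_mul_two_pi]; exact cQ)
    (fun s hs => by rw [cos_add_int_mul_two_pi]; exact c1 s hs)
    (fun s hs => by rw [cos_add_int_mul_two_pi]; exact c2 s hs)
    (fun s hs => by rw [cos_add_int_mul_two_pi]; exact c3 s hs) hk

end AT
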