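import Pool.Agent.H.MP_ce2c94_gt.TVLc
import Pool.Agent.H.MP_ce2c94_gt.TBInv

/-!
# Lobes of a closed simple profile, IV: the two arcs as graphs over the axis
-/

namespace AT

open Real Set Filter Topology

theorem TVLd_tan {c s y K : ℝ} (hc : c ≠ 0) (h1 : s ^ 2 + c ^ 2 = 1) :
    1 / c ^ 2 * (y / 2 * s + K * c) * (1 / c) = (1 + (s / c) ^ 2) * (y * (s / c) / 2 + K) := by
  have h2 : 1 + (s / c) ^ 2 = 1 / c ^ 2 := by
    rw [div_pow, eq_div_iff (pow_ne_zero 2 hc), add_mul, div_mul_cancel₀ _ (pow_ne_zero 2 hc)]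
    linarith
  have h3 : y * (s / c) / 2 + K = (y / 2 * s + K * c) * (1 / c) := by
    field_simp
  rw [h2, h3]
  ring

/-- an arc with `cos θ > 0` as a graph (see the proof of `CLoop.lower` in TBGr.lean; `inv_fun`) -/
theorem arc_graph {x r θ : ℝ → ℝ} (hp : IsProfile x r θ) {A B : ℝ} (hAB : A < B)
    (hc : ∀ s ∈ Ioo A B, -(π / 2) < θ s ∧ θ s < π / 2) (hA : θ A = -(π / 2) ∨ θ A = π / 2)
    (hB : θ B = -(π / 2) ∨ θ B = π / 2) :
    ∃ u p : ℝ → ℝ, x A < x B ∧ Gr (x A) (x B) u p ∧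
      (∀ s ∈ Ioo A B, x s ∈ Ioo (x A) (x B) ∧ u (x s) = r s ∧ p (x s) = tan (θ s)) ∧
      (∀ y ∈ Ioo (x A) (x B), ∃ s ∈ Ioo A B, x s = y) ∧
      Tendsto u (𝓝[>] (x A)) (𝓝 (r A)) ∧ Tendsto u (𝓝[<] (x B)) (𝓝 (r B)) ∧
      (θ A = -(π / 2) → Tendsto p (𝓝[>] (x A)) atBot) ∧
      (θ A = π / 2 → Tendsto p (𝓝[>] (x A)) atTop) ∧
      (θ B = -(π / 2) → Tendsto p (𝓝[<] (x B)) atBot) ∧
      (θ B = π / 2 → Tendsto p (𝓝[<] (x B)) atTop) := by
  have hcos : ∀ s ∈ Ioo A B, 0 < cos (θ s) := fun s hs => cos_pos_of_mem_Ioo (hc s hs)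
  have hxc : Continuous x := continuous_iff_continuousAt.mpr fun s => (hp.hx s).continuousAt
  have hrc : ∀ s, ContinuousAt r s := fun s => (hp.hr s).continuousAt
  have hθc : ∀ s, ContinuousAt θ s := fun s => (hp.hθ s).continuousAt
  obtain ⟨g, hlt, hg1, hg2, hgA, hgB⟩ := inv_fun (f' := fun s => cos (θ s)) hAB hxc.continuousOn
    (fun s _ => hp.hx s) hcos
  have hxm : StrictMonoOn x (Icc A B) := TBInv_mono hxc.continuousOn (fun s _ => hp.hx s) hcos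
  have hevA : ∀ᶠ y in 𝓝[>] (x A), y ∈ Ioo (x A) (x B) := Ioo_mem_nhdsGT hlt
  have hevB : ∀ᶠ y in 𝓝[<] (x B), y ∈ Ioo (x A) (x B) := Ioo_mem_nhdsLT hlt
  have htA : Tendsto (fun y => θ (g y)) (𝓝[>] (x A)) (𝓝 (θ A)) := (hθc A).tendsto.comp hgA
  have htB : Tendsto (fun y => θ (g y)) (𝓝[<] (x B)) (𝓝 (θ B)) := (hθc B).tendsto.comp hgB
  refine ⟨fun y => r (g y), fun y => tan (θ (g y)), hlt, ⟨?_, ?_, ?_⟩, ?_, ?_, ?_, ?_, ?_, ?_, ?_, ?_⟩
  · intro y _
    exact hp.pos _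
  · intro y hy
    obtain ⟨h1, h2, h3⟩ := hg2 y hy
    have h4 := (hp.hr (g y)).comp y h3
    have h5 : sin (θ (g y)) * (1 / cos (θ (g y))) = tan (θ (g y)) := by
      rw [tan_eq_sin_div_cos]
      ring
    rw [h5] at h4
    exact h4
  · intro y hy
    obtain ⟨h1, h2, h3⟩ := hg2 y hy
    have hc : cos (θ (g y)) ≠ 0 := (hcos _ h1).ne'
    have h4 := ((hasDerivAt_tan hc).comp (g y) (hp.hθ (g y))).comp y h3
    have h5 := TVLd_tan (y := y) (K := 1 / r (g y) - r (g y) / 2) hc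
      (sin_sq_add_cos_sq (θ (g y)))
    rw [h2, h5, ← tan_eq_sin_div_cos] at h4
    exact h4
  · intro s hs
    have hs' : s ∈ Icc A B := ⟨hs.1.le, hs.2.le⟩
    have h1 : g (x s) = s := hg1 s hs'
    refine ⟨⟨hxm ⟨le_rfl, hAB.le⟩ hs' hs.1, hxm hs' ⟨hAB.le, le_rfl⟩ hs.2⟩, ?_, ?_⟩
    · show r (g (x s)) = r s
      rw [h1]
    · show tan (θ (g (x s))) = tan (θ s)
      rw [h1]
  · intro y hy
    exact ⟨g y, (hg2 y hy).1, (hg2 y hy).2.1⟩
  · exact (hrc A).tendsto.comp hgA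
  · exact (hrc B).tendsto.comp hgB
  · intro h
    rw [h] at htA
    refine tendsto_tan_neg_pi_div_two.comp (tendsto_nhdsWithin_iff.2 ⟨htA, ?_⟩)
    filter_upwards [hevA] with y hy
    exact (hc _ (hg2 y hy).1).1
  · intro h
    rw [h] at htA
    refine tendsto_tan_pi_div_two.comp (tendsto_nhdsWithin_iff.2 ⟨htA, ?_⟩)
    filter_upwards [hevA] with y hy
    exact (hc _ (hg2 y hy).1).2
  · intro h
    rw [h] at htB
    refine tendsto_tan_neg_pi_div_two.comp (tendsto_nhdsWithin_iff.2 ⟨htB, ?_⟩)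
    filter_upwards [hevB] with y hy
    exact (hc _ (hg2 y hy).1).1
  · intro h
    rw [h] at htB
    refine tendsto_tan_pi_div_two.comp (tendsto_nhdsWithin_iff.2 ⟨htB, ?_⟩)
    filter_upwards [hevB] with y hy
    exact (hc _ (hg2 y hy).1).2

/-- The two strands of a closed simple profile as graphs over `(-X', X) = (α, β)`: `u` below, `w`
above. -/
structure UW (α β : ℝ) (u p w q : ℝ → ℝ) : Prop where
  hα : α < 0
  hβ : 0 < β
  gu : Gr α β u p
  gw : Gr α β w q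
  lt : ∀ y ∈ Ioo α β, u y < w y
  uα : ∃ ρ, 0 < ρ ∧ Tendsto u (𝓝[>] α) (𝓝 ρ) ∧ Tendsto w (𝓝[>] α) (𝓝 ρ)
  uβ : ∃ ρ, 0 < ρ ∧ Tendsto u (𝓝[<] β) (𝓝 ρ) ∧ Tendsto w (𝓝[<] β) (𝓝 ρ)
  pα : Tendsto p (𝓝[>] α) atBot
  pβ : Tendsto p (𝓝[<] β) atTop
  qα : Tendsto q (𝓝[>] α) atTop
  qβ : Tendsto q (𝓝[<] β) atBot

/-- Graph data of the normal form. Lower arc: `arc_graph` on `(A, B)`. Upper arc: `arc_graph` for
the reversed profile `h.loop.prof.reverse' (A + L + B)`: `x (A + L + B - s)`, angle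
`θ (A + L + B - s) - π`, on `(B, A + L)` (at `B`: angle `θ (A + L) - π = π/2`; at `A + L`:
`θ B - π = -π/2`). `x A < 0 < x B`: `x` is strictly increasing on `[A, B]` and `x 0 = 0`.
`x (A + L) = x A`. Ordering: for `s ∈ (A, B)`, `s' ∈ (B, A + L)` with `x s = x s'` use `arc_order` on
`[s, s']` (tip `B`; the strands do not meet by `Loop.inj`). -/
theorem Lobes.graphs {x r θ : ℝ → ℝ} {L T A B : ℝ} (h : Lobes x r θ L T A B) :
    ∃ u p w q : ℝ → ℝ, UW (x A) (x B) u p w q ∧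
      (∀ s ∈ Ioo A B, x s ∈ Ioo (x A) (x B) ∧ u (x s) = r s ∧ p (x s) = tan (θ s)) ∧
      (∀ s ∈ Ioo B (A + L), x s ∈ Ioo (x A) (x B) ∧ w (x s) = r s ∧ q (x s) = tan (θ s)) := by
  have hP := h.loop.prof
  have hAB : A < B := h.hA.trans h.h0
  have hBA : B < A + L := h.hB.trans h.hT
  have xAL : x (A + L) = x A := h.loop.px A
  have rAL : r (A + L) = r A := h.loop.pr A
  have tAL : θ (A + L) = 3 * π / 2 := by
    rw [h.turn A, h.θA]
    ring
  obtain ⟨u, p, hlt, gu, u1, u2, uA, uB, pA, _, _, pB⟩ :=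
    arc_graph hP hAB h.low (Or.inl h.θA) (Or.inr h.θB)
  have k1 : A + L + B - B = A + L := by ring
  have k2 : A + L + B - (A + L) = B := by ring
  have cU : ∀ s ∈ Ioo B (A + L), -(π / 2) < θ (A + L + B - s) - π ∧
      θ (A + L + B - s) - π < π / 2 := by
    intro s hs
    obtain ⟨a1, a2⟩ := h.up (A + L + B - s) ⟨by linarith [hs.2], by linarith [hs.1]⟩
    constructor
    · linarith
    · linarith
  have cB : θ (A + L + B - B) - π = π / 2 := by
    rw [k1, tAL]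
    ring
  have cA : θ (A + L + B - (A + L)) - π = -(π / 2) := by
    rw [k2, h.θB]
    ring
  obtain ⟨w, q, _, gw, w1, w2, wA, wB, _, qA, qB, _⟩ :=
    arc_graph (hP.reverse' (A + L + B)) hBA cU (Or.inr cB) (Or.inl cA)
  simp only [k1, k2, xAL, rAL] at gw w1 w2 wA wB qA qB
  have h0 := (u1 0 ⟨h.hA, h.h0⟩).1
  rw [h.x0] at h0
  refine ⟨u, p, w, q, ⟨h0.1, h0.2, gu, gw, ?_, ⟨r A, hP.pos A, uA, wA⟩, ⟨r B, hP.pos B, uB, wB⟩,
    pA h.θA, pB h.θB, ?_, ?_⟩, u1, ?_⟩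
  · intro y hy
    obtain ⟨s, hs, hsy⟩ := u2 y hy
    obtain ⟨t, ht, hty⟩ := w2 y hy
    have hs' : A + L + B - t ∈ Ioo B (A + L) := ⟨by linarith [ht.2], by linarith [ht.1]⟩
    have e1 : u y = r s := by
      rw [← hsy]
      exact (u1 s hs).2.1
    have e2 : w y = r (A + L + B - t) := by
      rw [← hty]
      exact (w1 t ht).2.1
    rw [e1, e2]
    refine arc_order hP hs.2 hs'.1 (hsy.trans hty.symm) ?_ ?_ ?_ ?_
    · intro a ha
      have := h.low a ⟨hs.1.trans_le ha.1, ha.2⟩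
      exact cos_pos_of_mem_Ioo ⟨this.1, this.2⟩
    · rw [h.θB, sin_pi_div_two]
      exact one_pos
    · intro a ha
      obtain ⟨b1, b2⟩ := h.up a ⟨ha.1, ha.2.trans_lt hs'.2⟩
      exact cos_neg_of_pi_div_two_lt_of_lt b1 (by linarith)
    · intro a ha b hb hxx hrr
      obtain ⟨k, hk⟩ := h.loop.inj a b hxx hrr
      have hL := h.loop.Lpos
      have c1 : (0 : ℝ) < k * L := by linarith [ha.2, hb.1]
      have c2 : (k : ℝ) * L < 1 * L := by linarith [ha.1, hs.1, hb.2, hs'.2]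
      have c3 : (0 : ℝ) < k := pos_of_mul_pos_left c1 hL.le
      have c4 : (k : ℝ) < 1 := lt_of_mul_lt_mul_right c2 hL.le
      have c5 : 0 < k := by exact_mod_cast c3
      have c6 : k < 1 := by exact_mod_cast c4
      omega
  · exact qA (by rw [tAL]; ring)
  · exact qB (by rw [h.θB]; ring)
  · intro s hs
    have ht : A + L + B - s ∈ Ioo B (A + L) := ⟨by linarith [hs.2], by linarith [hs.1]⟩
    obtain ⟨b1, b2, b3⟩ := w1 (A + L + B - s) ht
    have k3 : A + L + B - (A + L + B - s) = s := by ring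
    rw [k3] at b1 b2 b3
    refine ⟨b1, b2, ?_⟩
    rw [b3, tan_sub_pi]

/-- Convexity of the two graphs gives convexity of the loop: on `(A, B)`
`κ = cos θ (y p/2 + 1/u - u/2) > 0`, on `(B, A + L)` `κ = cos θ (y q/2 + 1/w - w/2) > 0`
(`cos θ < 0`), at `B` `κ = x B/2 > 0`, at `A` `κ = -x A/2 > 0`; every `s` is congruent mod `L` to a point
of `[A, A + L)`, and `κ` is `L`-periodic. -/
theorem Lobes.cloop {x r θ : ℝ → ℝ} {L T A B : ℝ} (h : Lobes x r θ L T A B) {u p w q : ℝ → ℝ}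
    (hUW : UW (x A) (x B) u p w q)
    (h1 : ∀ s ∈ Ioo A B, x s ∈ Ioo (x A) (x B) ∧ u (x s) = r s ∧ p (x s) = tan (θ s))
    (h2 : ∀ s ∈ Ioo B (A + L), x s ∈ Ioo (x A) (x B) ∧ w (x s) = r s ∧ q (x s) = tan (θ s))
    (hu : ∀ y ∈ Ioo (x A) (x B), 0 < y * p y / 2 + (1 / u y - u y / 2))
    (hw : ∀ y ∈ Ioo (x A) (x B), y * q y / 2 + (1 / w y - w y / 2) < 0) : CLoop x r θ L := by
  refine ⟨h.loop, h.turn, fun s => ?_⟩
  have hper : Function.Periodic
      (fun s => x s / 2 * sin (θ s) + (1 / r s - r s / 2) * cos (θ s)) L := by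
    intro s
    obtain ⟨e1, e2⟩ := h.loop.pcos s
    simp only
    rw [h.loop.px s, h.loop.pr s, e1, e2]
  obtain ⟨y, hy, e⟩ := hper.exists_mem_Ico h.loop.Lpos s A
  rw [e]
  have key : ∀ t, cos (θ t) ≠ 0 → x t / 2 * sin (θ t) + (1 / r t - r t / 2) * cos (θ t) =
      cos (θ t) * (x t * tan (θ t) / 2 + (1 / r t - r t / 2)) := by
    intro t ht
    rw [tan_eq_sin_div_cos]
    field_simp
  rcases hy.1.eq_or_lt with hA | hA
  · rw [← hA, h.θA, sin_neg, cos_neg, sin_pi_div_two, cos_pi_div_two]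
    have := hUW.hα
    linarith
  · rcases lt_trichotomy y B with hB | hB | hB
    · have hm : y ∈ Ioo A B := ⟨hA, hB⟩
      obtain ⟨a1, a2, a3⟩ := h1 y hm
      have hc : 0 < cos (θ y) := cos_pos_of_mem_Ioo ⟨(h.low y hm).1, (h.low y hm).2⟩
      have := hu (x y) a1
      rw [a2, a3] at this
      rw [key y hc.ne']
      exact mul_pos hc this
    · rw [hB, h.θB, sin_pi_div_two, cos_pi_div_two]
      have := hUW.hβ
      linarith
    · have hm : y ∈ Ioo B (A + L) := ⟨hB, hy.2⟩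
      obtain ⟨a1, a2, a3⟩ := h2 y hm
      obtain ⟨b1, b2⟩ := h.up y hm
      have hc : cos (θ y) < 0 := cos_neg_of_pi_div_two_lt_of_lt b1 (by linarith)
      have := hw (x y) a1
      rw [a2, a3] at this
      rw [key y hc.ne]
      exact mul_pos_of_neg_of_neg hc this

end AT
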