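import Pool.Agent.H.MP_ce2c94_gt.TVLc

/-!
# Exactly two crossings
-/

namespace AT

open Real Set Filter Topology

/-- two crossings from `no two right arcs` -/
theorem Loop.two_of {x r θ : ℝ → ℝ} {L : ℝ} (h : Loop x r θ L)
    (F : ∀ a b c d : ℝ, a < b → b < c → c < d → x a = 0 → x b = 0 → x c = 0 → x d = 0 →
      (∀ s ∈ Ioo a b, 0 < x s) → (∀ s ∈ Ioo c d, 0 < x s) →
      (∀ s ∈ Icc a b, ∀ s' ∈ Icc c d, (x s, r s) ≠ (x s', r s')) → False) :
    ∃ a T, TwoL (fun s => x (s + a)) (fun s => r (s + a)) (fun s => θ (s + a)) L T := by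
  have hL := h.Lpos
  obtain ⟨s₁, hs₁⟩ := h.exists_pos
  obtain ⟨a, b, h1, h2, h3, ha, hb, hpos, hca, hcb⟩ := h.comp_pos hs₁
  have hθL : ∀ s, cos (θ (s + L)) = cos (θ s) := fun s => (h.pcos s).1
  -- no positive value on `(b, a + L)`
  have key : ∀ s ∈ Ioo b (a + L), ¬ 0 < x s := by
    intro s hs hxs
    obtain ⟨c, d, k1, k2, k3, hc, hd, hpos', hcc, hcd⟩ := h.comp_pos hxs
    have hbc : b ≤ c := by
      by_contra hcon
      rw [not_le] at hcon
      have := hpos' b ⟨hcon, hs.1.trans k2⟩
      linarith
    have hbc' : b < c := by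
      rcases eq_or_lt_of_le hbc with e | e
      · rw [← e] at hcc
        linarith
      · exact e
    have hxaL : x (a + L) = 0 := by rw [h.px, ha]
    have hda : d ≤ a + L := by
      by_contra hcon
      rw [not_le] at hcon
      have := hpos' (a + L) ⟨k1.trans hs.2, hcon⟩
      linarith
    have hda' : d < a + L := by
      rcases eq_or_lt_of_le hda with e | e
      · rw [e, hθL] at hcd
        linarith
      · exact e
    refine F a b c d (h1.trans h2) hbc' (k1.trans k2) ha hb hc hd hpos hpos' ?_
    intro t ht t' ht' e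
    obtain ⟨k, hk⟩ := h.inj t t' (congrArg Prod.fst e) (congrArg Prod.snd e)
    have e1 : 0 < (k : ℝ) * L := by linarith [ht.2, ht'.1]
    have e2 : (k : ℝ) * L < 1 * L := by linarith [ht.1, ht'.2]
    have e3 : (0 : ℝ) < k := pos_of_mul_pos_left e1 hL.le
    have e4 : (k : ℝ) < 1 := lt_of_mul_lt_mul_right e2 hL.le
    have e5 : (0 : ℤ) < k := by exact_mod_cast e3
    have e6 : k < (1 : ℤ) := by exact_mod_cast e4
    omega
  -- no zero either
  have key2 : ∀ s ∈ Ioo b (a + L), x s < 0 := by
    intro s hs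
    rcases lt_trichotomy (x s) 0 with e | e | e
    · exact e
    · exfalso
      have hc := h.transv e
      rcases lt_or_gt_of_ne hc with e1 | e1
      · obtain ⟨δ, hδ, h5, -⟩ := RedC_neg (h.prof.hx s) e1 e
        have h6 := h5 (max ((b + s) / 2) (s - δ / 2)) ⟨by
          have := le_max_right ((b + s) / 2) (s - δ / 2)
          linarith, max_lt (by linarith [hs.1]) (by linarith)⟩
        refine key _ ⟨?_, ?_⟩ h6
        · have := le_max_left ((b + s) / 2) (s - δ / 2)
          linarith [hs.1]
        · exact (max_lt (by linarith [hs.1]) (by linarith) : _ < s).trans hs.2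
      · have e0 : HasDerivAt (fun s => -x s) (-cos (θ s)) s := (h.prof.hx s).neg
        obtain ⟨δ, hδ, -, h5⟩ := RedC_neg e0 (by linarith) (by rw [e, neg_zero])
        have h6 := h5 (min ((a + L + s) / 2) (s + δ / 2))
          ⟨lt_min (by linarith [hs.2]) (by linarith), by
          have := min_le_right ((a + L + s) / 2) (s + δ / 2)
          linarith⟩
        refine key (min ((a + L + s) / 2) (s + δ / 2)) ⟨?_, ?_⟩ (by linarith)
        · exact hs.1.trans (lt_min (by linarith [hs.2]) (by linarith))
        · have := min_le_left ((a + L + s) / 2) (s + δ / 2)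
          linarith [hs.2]
    · exact absurd e (key s hs)
  refine ⟨a, b - a, ?_, by linarith, by linarith, ?_, ?_, ?_, ?_⟩
  · have := h.shift a 0
    simpa using this
  · show x (0 + a) = 0
    rw [zero_add, ha]
  · show x (b - a + a) = 0
    rw [sub_add_cancel, hb]
  · intro s hs
    exact hpos (s + a) ⟨by linarith [hs.1], by linarith [hs.2]⟩
  · intro s hs
    exact key2 (s + a) ⟨by linarith [hs.1], by linarith [hs.2]⟩

end AT
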