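import Pool.Agent.H.MP_ce2c94_gt.BoxL
import Pool.Agent.H.MP_ce2c94_gt.ChInd
import Pool.Agent.H.MP_ce2c94_gt.TCL

/-!
# Tips from chains of lower boxes
-/

namespace AT

open Real Set

/-- Tips from a chain: `chain_cover` gives the box of `c`, `low_box` the solution and its final
bounds, `tip_low` the tip. (`fin` is the final test of the chain, `f N a b = true` implies
`runL N fin N 0 0 0 a b = true`.) -/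
theorem low_tip {f : ℕ → ℕ → ℕ → Bool} {fin : ℕ → ℕ → ℕ → ℕ → Bool}
    (hf : ∀ N a b, f N a b = true → runL N fin N 0 0 0 a b = true) {l : List (ℕ × ℕ)} {A : ℕ}
    (hl : l ≠ []) (hc : chain f A l = true) (hA : R0 ≤ A) {c : ℝ} (h1 : (A : ℝ) / MM ≤ c)
    (h2 : c ≤ (chainEnd A l : ℝ) / MM) {x r θ : ℝ → ℝ} (h : From c x r θ) :
    ∃ (S : ℝ) (XL XU RL RU : ℕ), TipUp θ S ∧ fin XL XU RL RU = true ∧ (XL : ℝ) / MM ≤ x S ∧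
      x S ≤ (XU : ℝ) / MM ∧ (RL : ℝ) / MM ≤ r S ∧ r S ≤ (RU : ℝ) / MM := by
  obtain ⟨N, a, b, hN, hAa, -, hfN, ha, hb⟩ := chain_cover l A hc hl c h1 h2
  obtain ⟨X, R, sol, XL, XU, RL, RU, hfin, b1, b2, b3, b4⟩ :=
    low_box hN (hf N a b hfN) (hA.trans hAa) ha hb
  obtain ⟨S, hS, hx, hr⟩ := tip_low sol.tau sol.x0 (x := x) (r := r) (θ := θ)
    (by rw [sol.r0]; exact h)
  refine ⟨S, XL, XU, RL, RU, hS, hfin, ?_, ?_, ?_, ?_⟩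
  · rw [hx]; exact b1
  · rw [hx]; exact b2
  · rw [hr]; exact b3
  · rw [hr]; exact b4

/-- the statement proved along the chain -/
def TipL_P (a b : ℕ) : Prop :=
  R0 ≤ a → (∃ X R, LowSol ((a : ℝ) / MM) X R) ∧ (∃ X R, LowSol ((b : ℝ) / MM) X R) ∧
    ∀ (c₁ c₂ : ℝ) (X₁ R₁ X₂ R₂ : ℝ → ℝ), (a : ℝ) / MM ≤ c₁ → c₁ < c₂ → c₂ ≤ (b : ℝ) / MM →
      LowSol c₁ X₁ R₁ → LowSol c₂ X₂ R₂ → X₁ 1 < X₂ 1 ∧ R₁ 1 < R₂ 1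

theorem TipL_div {a b : ℕ} (h : a ≤ b) : (a : ℝ) / MM ≤ (b : ℝ) / MM :=
  div_le_div_of_nonneg_right (Nat.cast_le.2 h) (Nat.cast_nonneg MM)

theorem TipL_step (N a b : ℕ) (hN : 0 < N) (hab : a ≤ b) (h : fQ N a b = true) :
    TipL_P a b := by
  intro ha
  have h' : runL N finQ N 0 0 0 a b = true ∧ runLq N N 0 0 0 a b 0 = true := by
    simpa only [fQ, Bool.and_eq_true] using h
  obtain ⟨X, R, s, -⟩ := low_box hN h'.1 ha le_rfl (TipL_div hab)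
  obtain ⟨X', R', s', -⟩ := low_box hN h'.1 ha (TipL_div hab) le_rfl
  exact ⟨⟨X, R, s⟩, ⟨X', R', s'⟩, fun c₁ c₂ X₁ R₁ X₂ R₂ h1 h12 h2 s₁ s₂ =>
    low_box_mono hN h'.2 ha h1 h12 h2 s₁ s₂⟩

theorem TipL_trans (a b d : ℕ) (hab : a ≤ b) (_ : b ≤ d) (h1 : TipL_P a b) (h2 : TipL_P b d) :
    TipL_P a d := by
  intro ha
  obtain ⟨p1, ⟨Xb, Rb, sb⟩, p3⟩ := h1 ha
  obtain ⟨-, q2, q3⟩ := h2 (ha.trans hab)
  refine ⟨p1, q2, fun c₁ c₂ X₁ R₁ X₂ R₂ k1 k12 k2 s₁ s₂ => ?_⟩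
  rcases le_or_gt c₂ ((b : ℝ) / MM) with h | h
  · exact p3 c₁ c₂ X₁ R₁ X₂ R₂ k1 k12 h s₁ s₂
  rcases le_or_gt ((b : ℝ) / MM) c₁ with h' | h'
  · exact q3 c₁ c₂ X₁ R₁ X₂ R₂ h' k12 k2 s₁ s₂
  · have e1 := p3 c₁ _ X₁ R₁ Xb Rb k1 h' le_rfl s₁ sb
    have e2 := q3 _ c₂ Xb Rb X₂ R₂ le_rfl h k2 sb s₂
    exact ⟨e1.1.trans e2.1, e1.2.trans e2.2⟩

theorem TipL_sol {l : List (ℕ × ℕ)} {A : ℕ} (hl : l ≠ []) (hc : chain fQ A l = true)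
    (hA : R0 ≤ A) {c : ℝ} (h1 : (A : ℝ) / MM ≤ c) (h2 : c ≤ (chainEnd A l : ℝ) / MM)
    {x r θ : ℝ → ℝ} (f : From c x r θ) {S : ℝ} (t : TipUp θ S) :
    ∃ X R : ℝ → ℝ, LowSol c X R ∧ x S = X 1 ∧ r S = R 1 := by
  obtain ⟨N, a, b, hN, hAa, -, hfN, ha, hb⟩ := chain_cover l A hc hl c h1 h2
  have h' : runL N finQ N 0 0 0 a b = true ∧ runLq N N 0 0 0 a b 0 = true := by
    simpa only [fQ, Bool.and_eq_true] using hfN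
  obtain ⟨X, R, sol, -⟩ := low_box hN h'.1 (hA.trans hAa) ha hb
  obtain ⟨S', hS', hx, hr⟩ := tip_low sol.tau sol.x0 (x := x) (r := r) (θ := θ)
    (by rw [sol.r0]; exact f)
  have e := tipUp_unique t hS'
  subst e
  exact ⟨X, R, sol, hx, hr⟩

/-- Monotonicity from a chain: `chain_ind` with
`P a b := R0 ≤ a → (∃ X R, LowSol (a/M) X R) ∧ (∃ X R, LowSol (b/M) X R) ∧
  ∀ c₁ c₂ X₁ R₁ X₂ R₂, a/M ≤ c₁ → c₁ < c₂ → c₂ ≤ b/M → LowSol c₁ X₁ R₁ → LowSol c₂ X₂ R₂ →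
    X₁ 1 < X₂ 1 ∧ R₁ 1 < R₂ 1`
(boxes by `low_box`, `low_box_mono`; transitivity through the solution at the common endpoint),
then `low_box` + `tip_low` + `tipUp_unique` for the two profiles. -/
theorem low_tip_mono {l : List (ℕ × ℕ)} {A : ℕ} (hl : l ≠ []) (hc : chain fQ A l = true)
    (hA : R0 ≤ A) {c₁ c₂ : ℝ} (h1 : (A : ℝ) / MM ≤ c₁) (h12 : c₁ < c₂)
    (h2 : c₂ ≤ (chainEnd A l : ℝ) / MM) {x₁ r₁ θ₁ x₂ r₂ θ₂ : ℝ → ℝ} (f₁ : From c₁ x₁ r₁ θ₁)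
    (f₂ : From c₂ x₂ r₂ θ₂) {S₁ S₂ : ℝ} (t₁ : TipUp θ₁ S₁) (t₂ : TipUp θ₂ S₂) :
    x₁ S₁ < x₂ S₂ ∧ r₁ S₁ < r₂ S₂ := by
  have hP : TipL_P A (chainEnd A l) := chain_ind TipL_step TipL_trans l A hl hc
  obtain ⟨-, -, hm⟩ := hP hA
  obtain ⟨X₁, R₁, s₁, e1, e2⟩ := TipL_sol hl hc hA h1 (h12.le.trans h2) f₁ t₁
  obtain ⟨X₂, R₂, s₂, e3, e4⟩ := TipL_sol hl hc hA (h1.trans h12.le) h2 f₂ t₂
  have := hm c₁ c₂ X₁ R₁ X₂ R₂ h1 h12 h2 s₁ s₂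
  rw [e1, e2, e3, e4]
  exact this

end AT
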