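import Pool.Agent.H.MP_ce2c94_gt.BoxU
import Pool.Agent.H.MP_ce2c94_gt.ChInd
import Pool.Agent.H.MP_ce2c94_gt.TCU

/-!
# Tips from chains of upper boxes
-/

namespace AT

open Real Set

/-- Tips from a chain (see `low_tip`). -/
theorem up_tip {f : ℕ → ℕ → ℕ → Bool} {fin : ℕ → ℕ → ℕ → ℕ → Bool}
    (hf : ∀ N a b, f N a b = true → runU N 1000000000000 fin N 0 0 0 a b = true)
    {l : List (ℕ × ℕ)} {A : ℕ}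
    (hl : l ≠ []) (hc : chain f A l = true) (hA : R0 ≤ A) {c : ℝ} (h1 : (A : ℝ) / MM ≤ c)
    (h2 : c ≤ (chainEnd A l : ℝ) / MM) {x r θ : ℝ → ℝ} (h : From c x r θ) :
    ∃ (S : ℝ) (XL XU RL RU : ℕ), TipDn θ S ∧ fin XL XU RL RU = true ∧ (XL : ℝ) / MM ≤ x S ∧
      x S ≤ (XU : ℝ) / MM ∧ (RL : ℝ) / MM ≤ r S ∧ r S ≤ (RU : ℝ) / MM := by
  obtain ⟨N, a, b, hN, hAa, -, hfab, ha, hb⟩ := chain_cover l A hc hl c h1 h2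
  obtain ⟨X, R, s, XL, XU, RL, RU, hfin, e1, e2, e3, e4⟩ :=
    up_box hN (hf N a b hfab) (le_trans hA hAa) ha hb
  have h' : From (R 0) x r θ := by rw [s.r0]; exact h
  obtain ⟨S, hS, hx, hr⟩ := tip_up s.tau s.x0 h'
  exact ⟨S, XL, XU, RL, RU, hS, hfin, by rw [hx]; exact e1, by rw [hx]; exact e2,
    by rw [hr]; exact e3, by rw [hr]; exact e4⟩

/-- the induction statement -/
def TipU_P (a b : ℕ) : Prop := R0 ≤ a →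
  (∃ X R, UpSol ((a : ℝ) / MM) X R) ∧ (∃ X R, UpSol ((b : ℝ) / MM) X R) ∧
    ∀ (c₁ c₂ : ℝ) (X₁ R₁ X₂ R₂ : ℝ → ℝ), (a : ℝ) / MM ≤ c₁ → c₁ < c₂ → c₂ ≤ (b : ℝ) / MM →
      UpSol c₁ X₁ R₁ → UpSol c₂ X₂ R₂ → X₂ 1 < X₁ 1 ∧ R₁ 1 < R₂ 1

theorem TipU_MM_pos : (0 : ℝ) < MM := by
  norm_num [MM]

theorem TipU_box (N a b : ℕ) (hN : 0 < N) (hab : a ≤ b) (hf : fUQ N a b = true) :
    TipU_P a b := by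
  intro ha
  simp only [fUQ, Bool.and_eq_true] at hf
  obtain ⟨hr, hq⟩ := hf
  have hab' : (a : ℝ) / MM ≤ (b : ℝ) / MM :=
    div_le_div_of_nonneg_right (by exact_mod_cast hab) TipU_MM_pos.le
  obtain ⟨X, R, s, -⟩ := up_box hN hr ha (le_refl ((a : ℝ) / MM)) hab'
  obtain ⟨X', R', s', -⟩ := up_box hN hr ha hab' (le_refl ((b : ℝ) / MM))
  exact ⟨⟨X, R, s⟩, ⟨X', R', s'⟩, fun c₁ c₂ X₁ R₁ X₂ R₂ e1 e2 e3 s₁ s₂ =>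
    up_box_mono hN hq ha e1 e2 e3 s₁ s₂⟩

theorem TipU_trans (a b d : ℕ) (hab : a ≤ b) (_ : b ≤ d) (h1 : TipU_P a b) (h2 : TipU_P b d) :
    TipU_P a d := by
  intro ha
  obtain ⟨s1, -, m1⟩ := h1 ha
  obtain ⟨⟨X, R, s⟩, s2, m2⟩ := h2 (le_trans ha hab)
  refine ⟨s1, s2, ?_⟩
  intro c₁ c₂ X₁ R₁ X₂ R₂ e1 e2 e3 t₁ t₂
  rcases le_or_gt c₂ ((b : ℝ) / MM) with h | h
  · exact m1 c₁ c₂ X₁ R₁ X₂ R₂ e1 e2 h t₁ t₂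
  · rcases le_or_gt ((b : ℝ) / MM) c₁ with h' | h'
    · exact m2 c₁ c₂ X₁ R₁ X₂ R₂ h' e2 e3 t₁ t₂
    · obtain ⟨u1, u2⟩ := m1 c₁ _ X₁ R₁ X R e1 h' le_rfl t₁ s
      obtain ⟨v1, v2⟩ := m2 _ c₂ X R X₂ R₂ le_rfl h e3 s t₂
      exact ⟨v1.trans u1, u2.trans v2⟩

/-- Monotonicity from a chain (see `low_tip_mono`). -/
theorem up_tip_mono {l : List (ℕ × ℕ)} {A : ℕ} (hl : l ≠ []) (hc : chain fUQ A l = true)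
    (hA : R0 ≤ A) {c₁ c₂ : ℝ} (h1 : (A : ℝ) / MM ≤ c₁) (h12 : c₁ < c₂)
    (h2 : c₂ ≤ (chainEnd A l : ℝ) / MM) {x₁ r₁ θ₁ x₂ r₂ θ₂ : ℝ → ℝ} (f₁ : From c₁ x₁ r₁ θ₁)
    (f₂ : From c₂ x₂ r₂ θ₂) {S₁ S₂ : ℝ} (t₁ : TipDn θ₁ S₁) (t₂ : TipDn θ₂ S₂) :
    x₂ S₂ < x₁ S₁ ∧ r₁ S₁ < r₂ S₂ := by
  have hP : TipU_P A (chainEnd A l) := chain_ind TipU_box TipU_trans l A hl hc
  obtain ⟨-, -, hm⟩ := hP hA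
  have key : ∀ (c : ℝ) (x r θ : ℝ → ℝ) (S : ℝ), (A : ℝ) / MM ≤ c →
      c ≤ (chainEnd A l : ℝ) / MM → From c x r θ → TipDn θ S →
      ∃ X R, UpSol c X R ∧ x S = X 1 ∧ r S = R 1 := by
    intro c x r θ S e1 e2 hfr ht
    obtain ⟨N, a, b, hN, hAa, -, hfab, ha, hb⟩ := chain_cover l A hc hl c e1 e2
    simp only [fUQ, Bool.and_eq_true] at hfab
    obtain ⟨X, R, s, -⟩ := up_box hN hfab.1 (le_trans hA hAa) ha hb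
    have h' : From (R 0) x r θ := by rw [s.r0]; exact hfr
    obtain ⟨S', hS', hx, hr⟩ := tip_up s.tau s.x0 h'
    have e := tipDn_unique ht hS'
    subst e
    exact ⟨X, R, s, hx, hr⟩
  obtain ⟨X₁, R₁, s₁, hx₁, hr₁⟩ := key c₁ x₁ r₁ θ₁ S₁ h1 (h12.le.trans h2) f₁ t₁
  obtain ⟨X₂, R₂, s₂, hx₂, hr₂⟩ := key c₂ x₂ r₂ θ₂ S₂ (h1.trans h12.le) h2 f₂ t₂
  obtain ⟨g1, g2⟩ := hm c₁ c₂ X₁ R₁ X₂ R₂ h1 h12 h2 s₁ s₂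
  rw [hx₁, hx₂, hr₁, hr₂]
  exact ⟨g1, g2⟩

end AT
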